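import Pool.Agent.TSPd97.MS

/-!
MP_076557_pr, helper97: measurability of the basic operations on multisets.
-/

set_option autoImplicit false

open MeasureTheory Set
open scoped ENNReal

namespace Pool.Agent.TSPd97

variable {E F T X : Type*}

open Classical in
/-- restriction of a multiset to a set -/
noncomputable def restr (A : Set E) (s : Multiset E) : Multiset E := s.filter (· ∈ A)

open Classical in
lemma restr_def (A : Set E) (s : Multiset E) : restr A s = s.filter (· ∈ A) := rfl

@[simp] lemma restr_zero (A : Set E) : restr A (0 : Multiset E) = 0 := by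
  simp [restr]

lemma restr_cons (A : Set E) (a : E) (s : Multiset E) [Decidable (a ∈ A)] :
    restr A (a ::ₘ s) = if a ∈ A then a ::ₘ restr A s else restr A s := by
  classical
  split_ifs with h
  · simp [restr, h]
  · simp [restr, h]

lemma restr_cons_mem {A : Set E} {a : E} (s : Multiset E) (h : a ∈ A) :
    restr A (a ::ₘ s) = a ::ₘ restr A s := by
  simp [restr, h]

lemma restr_cons_not_mem {A : Set E} {a : E} (s : Multiset E) (h : a ∉ A) :
    restr A (a ::ₘ s) = restr A s := by
  simp [restr, h]

lemma restr_add (A : Set E) (s t : Multiset E) : restr A (s + t) = restr A s + restr A t := by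
  simp [restr]

lemma restr_add_compl (A : Set E) (s : Multiset E) : restr A s + restr Aᶜ s = s := by
  induction s using Multiset.induction_on with
  | empty => simp
  | cons a s ih =>
    by_cases h : a ∈ A
    · rw [restr_cons_mem s h, restr_cons_not_mem s (show a ∉ Aᶜ from fun h' => h' h), Multiset.cons_add, ih]
    · rw [restr_cons_not_mem s h, restr_cons_mem s (show a ∈ Aᶜ from h), Multiset.add_cons, ih]

lemma restr_restr (A B : Set E) (s : Multiset E) : restr A (restr B s) = restr (A ∩ B) s := by
  induction s using Multiset.induction_on with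
  | empty => simp
  | cons a s ih =>
    by_cases hB : a ∈ B
    · by_cases hA : a ∈ A
      · rw [restr_cons_mem s hB, restr_cons_mem _ hA,
          restr_cons_mem s (show a ∈ A ∩ B from ⟨hA, hB⟩), ih]
      · rw [restr_cons_mem s hB, restr_cons_not_mem _ hA,
          restr_cons_not_mem s (show a ∉ A ∩ B from fun h => hA h.1), ih]
    · rw [restr_cons_not_mem s hB, restr_cons_not_mem s (show a ∉ A ∩ B from fun h => hB h.2), ih]

lemma mem_restr {A : Set E} {s : Multiset E} {a : E} : a ∈ restr A s ↔ a ∈ s ∧ a ∈ A := by
  classical
  simp [restr]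

lemma restr_eq_self {A : Set E} {s : Multiset E} (h : ∀ a ∈ s, a ∈ A) : restr A s = s := by
  classical
  unfold restr
  exact Multiset.filter_eq_self.2 h

lemma restr_eq_zero {A : Set E} {s : Multiset E} : restr A s = 0 ↔ ∀ a ∈ s, a ∉ A := by
  classical
  unfold restr
  exact Multiset.filter_eq_nil

lemma restr_map (A : Set F) (g : E → F) (s : Multiset E) :
    restr A (s.map g) = (restr (g ⁻¹' A) s).map g := by
  classical
  unfold restr
  rw [Multiset.filter_map]
  rfl

@[simp] lemma restr_univ (s : Multiset E) : restr (univ : Set E) s = s :=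
  restr_eq_self (by simp)

@[simp] lemma restr_empty (s : Multiset E) : restr (∅ : Set E) s = 0 :=
  restr_eq_zero.2 (by simp)

lemma card_restr_le (A : Set E) (s : Multiset E) :
    Multiset.card (restr A s) ≤ Multiset.card s := by
  classical
  unfold restr
  exact Multiset.card_le_card (Multiset.filter_le _ _)

lemma card_restr_mono {A B : Set E} (h : A ⊆ B) (s : Multiset E) :
    Multiset.card (restr A s) ≤ Multiset.card (restr B s) := by
  classical
  unfold restr
  exact Multiset.card_le_card (Multiset.monotone_filter_right s (fun a ha => h ha))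

lemma restr_congr {A B : Set E} {s : Multiset E} (h : ∀ a ∈ s, (a ∈ A ↔ a ∈ B)) :
    restr A s = restr B s := by
  classical
  unfold restr
  exact Multiset.filter_congr h

lemma ms_cons {n : ℕ} (x : Fin (n + 1) → E) : ms x = x 0 ::ₘ ms (fun i => x i.succ) := by
  rw [ms_eq_ofFn, ms_eq_ofFn, List.ofFn_succ]
  rfl

@[simp] lemma ms_zero (x : Fin 0 → E) : ms x = 0 := by
  simp [ms]

lemma map_ms {n : ℕ} (g : E → F) (x : Fin n → E) : (ms x).map g = ms (fun i => g (x i)) := by
  unfold ms
  rw [Multiset.map_map]
  rfl

lemma mem_ms {n : ℕ} {x : Fin n → E} {a : E} : a ∈ ms x ↔ ∃ i, x i = a := by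
  simp [ms]

section Meas

variable [MeasurableSpace E] [MeasurableSpace F] [MeasurableSpace T] [MeasurableSpace X]

lemma measurable_mmap {g : T → E → F} (hg : Measurable fun p : T × E => g p.1 p.2)
    {s : T → Multiset E} (hs : Measurable s) : Measurable fun t => (s t).map (g t) := by
  refine measurable_prod_ms' (G := fun t s => s.map (g t)) (fun n => ?_) hs
  simp only [map_ms]
  refine measurable_ms.comp (measurable_pi_lambda _ (fun i => ?_))
  exact hg.comp (measurable_fst.prodMk ((measurable_pi_apply i).comp measurable_snd))

lemma measurable_mmap_const {g : E → F} (hg : Measurable g)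
    {s : T → Multiset E} (hs : Measurable s) : Measurable fun t => (s t).map g :=
  measurable_mmap (g := fun _ => g) (hg.comp measurable_snd) hs

lemma measurable_map_multiset {g : E → F} (hg : Measurable g) :
    Measurable (Multiset.map g : Multiset E → Multiset F) :=
  measurable_mmap_const hg measurable_id

omit [MeasurableSpace E] in
lemma finset_val_map_eq_ms {n : ℕ} (J : Finset (Fin n)) (x : Fin n → E) :
    J.val.map x = ms (fun i : Fin J.card => x (J.orderEmbOfFin rfl i)) := by
  unfold ms
  have h : J.val = (Finset.univ : Finset (Fin J.card)).val.map (J.orderEmbOfFin rfl) := by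
    have := J.map_orderEmbOfFin_univ (h := rfl)
    conv_lhs => rw [← this]
    rfl
  rw [h, Multiset.map_map]
  rfl

lemma measurable_finset_val_map {n : ℕ} (J : Finset (Fin n)) :
    Measurable fun x : Fin n → E => J.val.map x := by
  simp only [finset_val_map_eq_ms]
  exact measurable_ms.comp (measurable_pi_lambda _ (fun i => measurable_pi_apply _))

omit [MeasurableSpace E] in
lemma restr_ms {n : ℕ} (A : Set E) (x : Fin n → E) [DecidablePred (fun i => x i ∈ A)] :
    restr A (ms x) = (Finset.univ.filter (fun i => x i ∈ A)).val.map x := by
  classical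
  unfold restr ms
  rw [Multiset.filter_map]
  congr 1
  rw [Finset.filter_val]
  exact Multiset.filter_congr (fun _ _ => Iff.rfl)

lemma measurable_restr {A : T → Set E} (hA : MeasurableSet {p : T × E | p.2 ∈ A p.1})
    {s : T → Multiset E} (hs : Measurable s) : Measurable fun t => restr (A t) (s t) := by
  classical
  refine measurable_prod_ms' (G := fun t s => restr (A t) s) (fun n => ?_) hs
  intro B hB
  have : (fun p : T × (Fin n → E) => restr (A p.1) (ms p.2)) ⁻¹' B
      = ⋃ J : Finset (Fin n), ({p | ∀ i, p.2 i ∈ A p.1 ↔ i ∈ J} ∩ {p | J.val.map p.2 ∈ B}) := by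
    ext ⟨t, x⟩
    simp only [mem_preimage, mem_iUnion, mem_inter_iff, mem_ofPred_eq]
    constructor
    · intro h
      refine ⟨Finset.univ.filter (fun i => x i ∈ A t), fun i => by simp, ?_⟩
      rw [restr_ms] at h
      exact h
    · rintro ⟨J, hJ, h⟩
      have : J = Finset.univ.filter (fun i => x i ∈ A t) := by
        ext i; simp [hJ i]
      rw [restr_ms, ← this]
      exact h
  rw [this]
  refine MeasurableSet.iUnion (fun J => MeasurableSet.inter ?_ ?_)
  · rw [ofPred_forall]
    refine MeasurableSet.iInter (fun i => ?_)
    have h0 : Measurable fun p : T × (Fin n → E) => (p.1, p.2 i) :=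
      measurable_fst.prodMk ((measurable_pi_apply i).comp measurable_snd)
    have h1 : MeasurableSet {p : T × (Fin n → E) | p.2 i ∈ A p.1} := h0 hA
    by_cases hi : i ∈ J
    · simpa only [hi, iff_true] using h1
    · simp only [hi, iff_false]
      exact h1.compl
  · exact ((measurable_finset_val_map J).comp measurable_snd) hB

lemma measurable_restr_const {A : Set E} (hA : MeasurableSet A)
    {s : T → Multiset E} (hs : Measurable s) : Measurable fun t => restr A (s t) :=
  measurable_restr (A := fun _ => A) (measurable_snd hA) hs

lemma measurable_msum {M : Type*} [AddCommMonoid M] [MeasurableSpace M] [MeasurableAdd₂ M]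
    {f : T → E → M} (hf : Measurable fun p : T × E => f p.1 p.2)
    {s : T → Multiset E} (hs : Measurable s) : Measurable fun t => ((s t).map (f t)).sum := by
  refine measurable_prod_ms' (G := fun t s => (s.map (f t)).sum) (fun n => ?_) hs
  have : ∀ p : T × (Fin n → E), ((ms p.2).map (f p.1)).sum = ∑ i, f p.1 (p.2 i) := by
    intro p
    rw [map_ms]; rfl
  simp only [this]
  refine Finset.measurable_sum _ (fun i _ => ?_)
  exact hf.comp (measurable_fst.prodMk ((measurable_pi_apply i).comp measurable_snd))

lemma measurable_mcard {s : T → Multiset E} (hs : Measurable s) :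
    Measurable fun t => Multiset.card (s t) := measurable_card.comp hs

lemma measurable_mcons {a : T → E} (ha : Measurable a) {s : T → Multiset E} (hs : Measurable s) :
    Measurable fun t => a t ::ₘ s t := by
  refine measurable_prod_ms' (G := fun t s => a t ::ₘ s) (fun n => ?_) hs
  have : ∀ p : T × (Fin n → E), a p.1 ::ₘ ms p.2 = ms (Fin.cons (a p.1) p.2 : Fin (n + 1) → E) := by
    intro p
    rw [ms_cons]
    simp
  simp only [this]
  refine measurable_ms.comp (measurable_pi_lambda _ (fun i => ?_))
  refine Fin.cases ?_ (fun j => ?_) i
  · simp only [Fin.cons_zero]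
    exact ha.comp measurable_fst
  · simp only [Fin.cons_succ]
    exact (measurable_pi_apply j).comp measurable_snd

lemma measurable_madd {s s' : T → Multiset E} (hs : Measurable s) (hs' : Measurable s') :
    Measurable fun t => s t + s' t := by
  have key : ∀ n, Measurable fun p : T × (Fin n → E) => s p.1 + ms p.2 := by
    intro n
    induction n with
    | zero =>
      simp only [ms_zero, add_zero]
      exact hs.comp measurable_fst
    | succ n ih =>
      have : ∀ p : T × (Fin (n + 1) → E), s p.1 + ms p.2
          = p.2 0 ::ₘ (s p.1 + ms (fun i => p.2 i.succ)) := by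
        intro p
        rw [ms_cons, Multiset.add_cons]
      simp only [this]
      refine measurable_mcons ((measurable_pi_apply 0).comp measurable_snd) ?_
      exact ih.comp (measurable_fst.prodMk (measurable_pi_lambda _
        (fun i => (measurable_pi_apply _).comp measurable_snd)))
  exact measurable_prod_ms' (G := fun t s' => s t + s') key hs'

end Meas

end Pool.Agent.TSPd97
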