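import Pool.Agent.TSPd97.T2Patch

/-!
# Package T3: from the almost sure limit to the Poissonised expectation
-/

set_option autoImplicit false

open MeasureTheory ProbabilityTheory Filter Topology

namespace Pool.Agent.TSPd97

/-! ### Poisson averages -/

/-- Poisson weights -/
noncomputable def pw (lam : ℝ) (n : ℕ) : ℝ := Real.exp (-lam) * lam ^ n / (n.factorial : ℝ)

lemma pw_nonneg {lam : ℝ} (h : 0 ≤ lam) (n : ℕ) : 0 ≤ pw lam n := by
  unfold pw; positivity

lemma hasSum_congr' {f g : ℕ → ℝ} {a b : ℝ} (h : HasSum f a) (hf : ∀ n, f n = g n)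
    (hab : a = b) : HasSum g b := by
  rw [← hab, ← funext hf]
  exact h

lemma hasSum_pw (lam : ℝ) : HasSum (pw lam) 1 := by
  have h := (NormedSpace.expSeries_div_hasSum_exp (𝔸 := ℝ) lam).mul_left (Real.exp (-lam))
  rw [← Real.exp_eq_exp_ℝ, ← Real.exp_add, neg_add_cancel, Real.exp_zero] at h
  have h2 : (fun n : ℕ => Real.exp (-lam) * (lam ^ n / (n.factorial : ℝ))) = pw lam := by
    funext n
    unfold pw
    ring
  rwa [h2] at h

lemma pw_succ (lam : ℝ) (n : ℕ) : pw lam (n + 1) * ((n + 1 : ℕ) : ℝ) = lam * pw lam n := by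
  unfold pw
  have h : ((n + 1 : ℕ) : ℝ) ≠ 0 := by positivity
  have h' : ((n.factorial : ℕ) : ℝ) ≠ 0 := by positivity
  rw [Nat.factorial_succ, pow_succ]
  push_cast at h ⊢
  field_simp

lemma hasSum_pw_mul (lam : ℝ) : HasSum (fun n => pw lam n * (n : ℝ)) lam := by
  have h1 : HasSum (fun n => pw lam (n + 1) * ((n + 1 : ℕ) : ℝ)) lam := by
    have h := (hasSum_pw lam).mul_left lam
    rw [mul_one] at h
    have h2 : (fun n => pw lam (n + 1) * ((n + 1 : ℕ) : ℝ)) = fun n => lam * pw lam n :=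
      funext fun n => pw_succ lam n
    rwa [h2]
  have := (hasSum_nat_add_iff (f := fun n => pw lam n * (n : ℝ)) 1).1 h1
  simpa using this

lemma hasSum_pw_mul_sq (lam : ℝ) :
    HasSum (fun n => pw lam n * ((n : ℝ) ^ 2)) (lam ^ 2 + lam) := by
  have h1 : HasSum (fun n => pw lam (n + 1) * (((n + 1 : ℕ) : ℝ) ^ 2)) (lam ^ 2 + lam) := by
    have h := ((hasSum_pw_mul lam).add (hasSum_pw lam)).mul_left lam
    have h2 : (fun n => pw lam (n + 1) * (((n + 1 : ℕ) : ℝ) ^ 2)) =
        fun n => lam * (pw lam n * (n : ℝ) + pw lam n) := by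
      funext n
      rw [pow_two, ← mul_assoc, pw_succ]
      push_cast
      ring
    rw [h2]
    exact hasSum_congr' h (fun _ => rfl) (by ring)
  have := (hasSum_nat_add_iff (f := fun n => pw lam n * ((n : ℝ) ^ 2)) 1).1 h1
  simpa using this

lemma rpow_le_tangent {t θ : ℝ} (ht : 0 ≤ t) (h0 : 0 ≤ θ) (h1 : θ ≤ 1) :
    t ^ θ ≤ 1 + θ * (t - 1) := by
  have h := rpow_one_add_le_one_add_mul_self (s := t - 1) (by linarith) h0 h1
  rwa [show 1 + (t - 1) = t by ring] at h

lemma tangent_sub_le_rpow {t θ : ℝ} (ht : 0 ≤ t) (h0 : 0 < θ) (h1 : θ ≤ 1) :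
    1 + θ * (t - 1) - (t - 1) ^ 2 ≤ t ^ θ := by
  have h2 := rpow_le_tangent (t := t) (θ := 1 - θ) ht (by linarith) (by linarith)
  have hpos : 0 < 1 + (1 - θ) * (t - 1) := by nlinarith
  have h3 : t / (1 + (1 - θ) * (t - 1)) ≤ t ^ θ := by
    rw [div_le_iff₀ hpos]
    rcases ht.eq_or_lt with h | h
    · rw [← h]
      rw [Real.zero_rpow h0.ne']
      simp
    · calc t = t ^ θ * t ^ (1 - θ) := by
            rw [← Real.rpow_add h]
            simp
        _ ≤ t ^ θ * (1 + (1 - θ) * (t - 1)) :=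
          mul_le_mul_of_nonneg_left h2 (Real.rpow_nonneg ht θ)
  refine le_trans ?_ h3
  rw [le_div_iff₀ hpos]
  nlinarith [sq_nonneg (t - 1), mul_nonneg (sq_nonneg (t - 1)) ht,
    mul_nonneg (mul_nonneg (sq_nonneg (t - 1)) ht) (by linarith : 0 ≤ 1 - θ),
    mul_nonneg (sq_nonneg (t - 1)) h0.le, mul_nonneg (mul_nonneg (sq_nonneg (t - 1)) h0.le) h0.le,
    mul_nonneg (mul_nonneg (sq_nonneg (t - 1)) h0.le) (by linarith : 0 ≤ 1 - θ)]

lemma nat_rpow_le {θ : ℝ} (_h0 : 0 ≤ θ) (h1 : θ ≤ 1) (n : ℕ) : (n : ℝ) ^ θ ≤ 1 + n := by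
  rcases Nat.eq_zero_or_pos n with rfl | hn
  · by_cases h : θ = 0
    · simp [h]
    · simp [h]
  · have h2 : (1 : ℝ) ≤ n := by exact_mod_cast hn
    calc (n : ℝ) ^ θ ≤ (n : ℝ) ^ (1 : ℝ) := Real.rpow_le_rpow_of_exponent_le h2 h1
      _ ≤ 1 + n := by rw [Real.rpow_one]; linarith

lemma summable_pw_rpow {lam θ : ℝ} (hl : 0 ≤ lam) (h0 : 0 ≤ θ) (h1 : θ ≤ 1) :
    Summable fun n : ℕ => pw lam n * (n : ℝ) ^ θ := by
  refine Summable.of_nonneg_of_le (fun n => mul_nonneg (pw_nonneg hl n) (by positivity))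
    (fun n => mul_le_mul_of_nonneg_left (nat_rpow_le h0 h1 n) (pw_nonneg hl n)) ?_
  have := (hasSum_pw lam).add (hasSum_pw_mul lam)
  refine this.summable.congr fun n => ?_
  ring

lemma pw_rpow_le {lam θ : ℝ} (hl : 0 < lam) (h0 : 0 ≤ θ) (h1 : θ ≤ 1) :
    ∑' n : ℕ, pw lam n * (n : ℝ) ^ θ ≤ lam ^ θ := by
  have hb : HasSum (fun n : ℕ => pw lam n * (lam ^ θ * (1 + θ * (n / lam - 1)))) (lam ^ θ) := by
    have h := (((hasSum_pw lam).mul_left (1 - θ)).add
      ((hasSum_pw_mul lam).mul_left (θ / lam))).mul_left (lam ^ θ)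
    refine hasSum_congr' h (fun n => ?_) ?_
    · field_simp
      ring
    · field_simp
      ring
  rw [← hb.tsum_eq]
  refine (summable_pw_rpow hl.le h0 h1).tsum_le_tsum (fun n => ?_) hb.summable
  refine mul_le_mul_of_nonneg_left ?_ (pw_nonneg hl.le n)
  have h2 := rpow_le_tangent (t := n / lam) (θ := θ) (by positivity) h0 h1
  calc (n : ℝ) ^ θ = lam ^ θ * (n / lam) ^ θ := by
        rw [← Real.mul_rpow hl.le (by positivity)]
        congr 1
        field_simp
    _ ≤ _ := mul_le_mul_of_nonneg_left h2 (by positivity)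

lemma le_pw_rpow {lam θ : ℝ} (hl : 0 < lam) (h0 : 0 < θ) (h1 : θ ≤ 1) :
    lam ^ θ * (1 - 1 / lam) ≤ ∑' n : ℕ, pw lam n * (n : ℝ) ^ θ := by
  have hb : HasSum (fun n : ℕ => pw lam n *
      (lam ^ θ * (1 + θ * (n / lam - 1) - (n / lam - 1) ^ 2))) (lam ^ θ * (1 - 1 / lam)) := by
    have h := ((((hasSum_pw lam).mul_left (1 - θ - 1)).add
      ((hasSum_pw_mul lam).mul_left ((θ + 2) / lam))).add
      ((hasSum_pw_mul_sq lam).mul_left (-(1 / lam ^ 2)))).mul_left (lam ^ θ)
    refine hasSum_congr' h (fun n => ?_) ?_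
    · field_simp
      ring
    · field_simp
      ring
  rw [← hb.tsum_eq]
  refine hb.summable.tsum_le_tsum (fun n => ?_) (summable_pw_rpow hl.le h0.le h1)
  refine mul_le_mul_of_nonneg_left ?_ (pw_nonneg hl.le n)
  have h2 := tangent_sub_le_rpow (t := n / lam) (θ := θ) (by positivity) h0 h1
  calc lam ^ θ * (1 + θ * (n / lam - 1) - (n / lam - 1) ^ 2) ≤ lam ^ θ * (n / lam) ^ θ :=
        mul_le_mul_of_nonneg_left h2 (by positivity)
    _ = (n : ℝ) ^ θ := by
        rw [← Real.mul_rpow hl.le (by positivity)]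
        congr 1
        field_simp

/-- Abelian theorem for Poisson averages -/
theorem poisson_average {a : ℕ → ℝ} {β θ : ℝ} (h0 : 0 < θ) (h1 : θ ≤ 1)
    (h : Tendsto (fun n : ℕ => a n / (n : ℝ) ^ θ) atTop (𝓝 β)) :
    Tendsto (fun lam : ℝ => (∑' n : ℕ, pw lam n * a n) / lam ^ θ) atTop (𝓝 β) := by
  rw [Metric.tendsto_atTop]
  intro ε hε
  -- a uniform bound
  obtain ⟨N, hN⟩ := (Metric.tendsto_atTop.1 h) (ε / 4) (by positivity)
  set M : ℝ := ∑ k ∈ Finset.range (N + 1), |a k - β * (k : ℝ) ^ θ| with hM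
  have hM0 : 0 ≤ M := Finset.sum_nonneg fun _ _ => abs_nonneg _
  have hb : ∀ n : ℕ, |a n - β * (n : ℝ) ^ θ| ≤ ε / 4 * (n : ℝ) ^ θ + M := by
    intro n
    by_cases hn : n < N + 1
    · have := Finset.single_le_sum (f := fun k : ℕ => |a k - β * (k : ℝ) ^ θ|)
        (fun k _ => abs_nonneg _) (Finset.mem_range.2 hn)
      have h2 : 0 ≤ ε / 4 * (n : ℝ) ^ θ := by positivity
      linarith
    · have hn1 : 1 ≤ n := by omega
      have hnp : (0 : ℝ) < n := by exact_mod_cast hn1
      have h2 := hN n (by omega)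
      rw [Real.dist_eq] at h2
      have hp : 0 < (n : ℝ) ^ θ := Real.rpow_pos_of_pos hnp θ
      have h3 : a n - β * (n : ℝ) ^ θ = (a n / (n : ℝ) ^ θ - β) * (n : ℝ) ^ θ := by
        field_simp
      rw [h3, abs_mul, abs_of_pos hp]
      have := mul_le_mul_of_nonneg_right h2.le hp.le
      linarith
  -- choice of the threshold
  have hlim1 : Tendsto (fun lam : ℝ => M / lam ^ θ) atTop (𝓝 0) :=
    Tendsto.div_atTop tendsto_const_nhds (tendsto_rpow_atTop h0)
  have hlim2 : Tendsto (fun lam : ℝ => |β| / lam) atTop (𝓝 0) :=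
    Tendsto.div_atTop tendsto_const_nhds tendsto_id
  have hev := ((hlim1.eventually (gt_mem_nhds (by positivity : (0 : ℝ) < ε / 4))).and
    (hlim2.eventually (gt_mem_nhds (by positivity : (0 : ℝ) < ε / 4)))).and
    (eventually_gt_atTop (0 : ℝ))
  obtain ⟨L, hL⟩ := (hev.and (eventually_ge_atTop (0 : ℝ))).exists_forall_of_atTop
  refine ⟨L, fun lam hlam => ?_⟩
  obtain ⟨⟨⟨hl1, hl2⟩, hlp⟩, -⟩ := hL lam hlam
  have hlθ : 0 < lam ^ θ := Real.rpow_pos_of_pos hlp θ
  have hs1 := summable_pw_rpow hlp.le h0.le h1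
  have hs2 : Summable fun n => pw lam n * (ε / 4 * (n : ℝ) ^ θ + M) := by
    refine ((hs1.mul_left (ε / 4)).add ((hasSum_pw lam).summable.mul_left M)).congr fun n => ?_
    ring
  have hs3 : Summable fun n => pw lam n * (a n - β * (n : ℝ) ^ θ) := by
    refine Summable.of_norm_bounded hs2 fun n => ?_
    rw [norm_mul, Real.norm_of_nonneg (pw_nonneg hlp.le n), Real.norm_eq_abs]
    exact mul_le_mul_of_nonneg_left (hb n) (pw_nonneg hlp.le n)
  have hs4 : Summable fun n => pw lam n * a n := by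
    refine (hs3.add (hs1.mul_left β)).congr fun n => ?_
    ring
  have e1 : ∑' n, pw lam n * a n = ∑' n, pw lam n * (a n - β * (n : ℝ) ^ θ) +
      β * ∑' n : ℕ, pw lam n * (n : ℝ) ^ θ := by
    rw [← tsum_mul_left, ← hs3.tsum_add (hs1.mul_left β)]
    congr 1
    funext n
    ring
  have e2 : |∑' n, pw lam n * (a n - β * (n : ℝ) ^ θ)| ≤ ε / 4 * lam ^ θ + M := by
    rw [← Real.norm_eq_abs]
    refine (tsum_of_norm_bounded hs2.hasSum fun n => ?_).trans ?_
    · rw [norm_mul, Real.norm_of_nonneg (pw_nonneg hlp.le n), Real.norm_eq_abs]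
      exact mul_le_mul_of_nonneg_left (hb n) (pw_nonneg hlp.le n)
    · have e3 : ∑' n, pw lam n * (ε / 4 * (n : ℝ) ^ θ + M) =
          ε / 4 * ∑' n : ℕ, pw lam n * (n : ℝ) ^ θ + M := by
        rw [← tsum_mul_left]
        have : M = ∑' n, pw lam n * M := by
          rw [tsum_mul_right, (hasSum_pw lam).tsum_eq, one_mul]
        conv_rhs => rw [this]
        rw [← (hs1.mul_left (ε / 4)).tsum_add ((hasSum_pw lam).summable.mul_right M)]
        congr 1
        funext n
        ring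
      rw [e3]
      have := mul_le_mul_of_nonneg_left (pw_rpow_le hlp h0.le h1) (by positivity : 0 ≤ ε / 4)
      linarith
  have u1 := pw_rpow_le hlp h0.le h1
  have l1 := le_pw_rpow hlp h0 h1
  set S := ∑' n : ℕ, pw lam n * (n : ℝ) ^ θ with hS
  have e4 : |S / lam ^ θ - 1| ≤ 1 / lam := by
    rw [abs_le]
    constructor
    · have : 1 - 1 / lam ≤ S / lam ^ θ := by
        rw [le_div_iff₀ hlθ]
        linarith
      linarith
    · have : S / lam ^ θ ≤ 1 := by
        rw [div_le_one hlθ]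
        exact u1
      have : 0 ≤ 1 / lam := by positivity
      linarith
  rw [Real.dist_eq, e1]
  have e5 : (∑' n, pw lam n * (a n - β * (n : ℝ) ^ θ) + β * S) / lam ^ θ - β =
      (∑' n, pw lam n * (a n - β * (n : ℝ) ^ θ)) / lam ^ θ + β * (S / lam ^ θ - 1) := by
    field_simp
    ring
  rw [e5]
  have e6 : |(∑' n, pw lam n * (a n - β * (n : ℝ) ^ θ)) / lam ^ θ| ≤ ε / 4 + M / lam ^ θ := by
    rw [abs_div, abs_of_pos hlθ, div_le_iff₀ hlθ]
    refine e2.trans (le_of_eq ?_)
    field_simp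
  have e7 : |β * (S / lam ^ θ - 1)| ≤ |β| / lam := by
    rw [abs_mul]
    calc |β| * |S / lam ^ θ - 1| ≤ |β| * (1 / lam) :=
          mul_le_mul_of_nonneg_left e4 (abs_nonneg _)
      _ = |β| / lam := by ring
  calc _ ≤ |(∑' n, pw lam n * (a n - β * (n : ℝ) ^ θ)) / lam ^ θ| + |β * (S / lam ^ θ - 1)| :=
        abs_add_le _ _
    _ < ε := by linarith


/-! ### the tour length -/

lemma tsp_nonneg {X : Type*} [PseudoMetricSpace X] {n : ℕ} (x : Fin n → X) : 0 ≤ tsp x :=
  Real.iInf_nonneg fun _ => Finset.sum_nonneg fun _ _ => dist_nonneg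

lemma tsp_zero {X : Type*} [PseudoMetricSpace X] (x : Fin 0 → X) : tsp x = 0 := by
  unfold tsp
  simp

lemma measurable_tsp (d n : ℕ) :
    Measurable fun x : Fin n → EuclideanSpace ℝ (Fin d) => tsp x := by
  unfold tsp
  exact Measurable.iInf fun σ => Finset.measurable_sum _ fun i _ =>
    (measurable_pi_apply _).dist (measurable_pi_apply _)

lemma chainSum_singleton {A : Type*} (w : A → A → ℝ) (a : A) : chainSum w [a] = 0 := rfl

/-- the deterministic bound -/
lemma tsp_le_rpow (d : ℕ) (hd : 2 ≤ d) : ∃ C : ℝ, 0 ≤ C ∧ ∀ n : ℕ,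
    ∀ x : Fin n → EuclideanSpace ℝ (Fin d), (∀ i, x i ∈ cube d) →
      tsp x ≤ C * (n : ℝ) ^ (((d : ℝ) - 1) / (d : ℝ)) := by
  obtain ⟨C, hC⟩ := tsp_le_cover
  refine ⟨(|C| + 1) * Real.sqrt d, by positivity, fun n x hx => ?_⟩
  rcases Nat.eq_zero_or_pos n with rfl | hn
  · rw [tsp_zero]
    positivity
  · have h := hC d hd n x hx ((List.finRange n).map fun i => [i]) ?_ ?_
    · have h1 : ((List.map (fun i => [i]) (List.finRange n)).map (plen x)).sum = 0 := by
        rw [List.map_map]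
        apply List.sum_eq_zero
        intro r hr
        obtain ⟨i, -, rfl⟩ := List.mem_map.1 hr
        rfl
      rw [h1, List.length_map, List.length_finRange, zero_add] at h
      have hθ : 0 ≤ ((d : ℝ) - 1) / (d : ℝ) := by
        have : (2 : ℝ) ≤ d := by exact_mod_cast hd
        exact div_nonneg (by linarith) (by linarith)
      have h2 : (1 : ℝ) ≤ (n : ℝ) ^ (((d : ℝ) - 1) / (d : ℝ)) :=
        Real.one_le_rpow (by exact_mod_cast hn) hθ
      have h3 : 0 ≤ Real.sqrt d := Real.sqrt_nonneg _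
      have h4 : C * Real.sqrt d * (n : ℝ) ^ (((d : ℝ) - 1) / (d : ℝ)) ≤
          |C| * Real.sqrt d * (n : ℝ) ^ (((d : ℝ) - 1) / (d : ℝ)) := by
        apply mul_le_mul_of_nonneg_right _ (by linarith)
        exact mul_le_mul_of_nonneg_right (le_abs_self C) h3
      have h5 : Real.sqrt d ≤ Real.sqrt d * (n : ℝ) ^ (((d : ℝ) - 1) / (d : ℝ)) :=
        le_mul_of_one_le_right h3 h2
      calc tsp x ≤ _ := h
        _ ≤ |C| * Real.sqrt d * (n : ℝ) ^ (((d : ℝ) - 1) / (d : ℝ)) +
            Real.sqrt d * (n : ℝ) ^ (((d : ℝ) - 1) / (d : ℝ)) := add_le_add h4 h5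
        _ = _ := by ring
    · intro p hp
      obtain ⟨i, -, rfl⟩ := List.mem_map.1 hp
      simp
    · have : (List.map (fun i => [i]) (List.finRange n)).flatten = List.finRange n := by
        rw [← List.flatMap_def]
        exact List.flatMap_singleton' _
      rw [this]

/-- expected tour length -/
noncomputable def meanTSP (d n : ℕ) : ℝ :=
  ∫ x : Fin n → EuclideanSpace ℝ (Fin d), tsp x
      ∂(Measure.pi fun _ => (volume : Measure (EuclideanSpace ℝ (Fin d))).restrict (cube d))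

theorem meanTSP_tendsto (d : ℕ) (hd : 2 ≤ d) (β : ℝ)
    (h : ∃ (Ω : Type) (mΩ : MeasurableSpace Ω) (P : Measure Ω)
          (X : ℕ → Ω → EuclideanSpace ℝ (Fin d)),
          IsProbabilityMeasure P ∧ (∀ i, Measurable (X i)) ∧ iIndepFun X P ∧
          (∀ i, P.map (X i) =
            (volume : Measure (EuclideanSpace ℝ (Fin d))).restrict
              {x | ∀ j, x j ∈ Set.Icc (0 : ℝ) 1}) ∧
          ∀ᵐ ω ∂P, Tendsto
            (fun n : ℕ =>
              (⨅ σ : Equiv.Perm (Fin n),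
                  ∑ i : Fin n, dist (X ((σ i : Fin n) : ℕ) ω)
                    (X ((σ (finRotate n i) : Fin n) : ℕ) ω)) /
                (n : ℝ) ^ (((d : ℝ) - 1) / (d : ℝ)))
            atTop (𝓝 β)) :
    Tendsto (fun n : ℕ => meanTSP d n / (n : ℝ) ^ (((d : ℝ) - 1) / (d : ℝ))) atTop (𝓝 β) := by
  obtain ⟨Ω, mΩ, P, X, hP, hm, hind, hlaw, hlim⟩ := h
  obtain ⟨C, hC0, hC⟩ := tsp_le_rpow d hd
  -- the law of the first n points
  have hmap : ∀ n : ℕ, P.map (fun ω (i : Fin n) => X i ω) =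
      Measure.pi fun _ => (volume : Measure (EuclideanSpace ℝ (Fin d))).restrict (cube d) := by
    intro n
    have h1 : iIndepFun (fun (i : Fin n) => X i) P := hind.precomp Fin.val_injective
    have h2 := (iIndepFun_iff_map_fun_eq_pi_map (f := fun (i : Fin n) => X i) (μ := P)
      fun i => (hm i).aemeasurable).1 h1
    rw [h2]
    congr 1
    funext i
    exact hlaw i
  have hmeas : ∀ n : ℕ, Measurable fun ω (i : Fin n) => X i ω := fun n =>
    measurable_pi_lambda _ fun i => hm i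
  have hmean : ∀ n : ℕ, meanTSP d n = ∫ ω, tsp (fun i : Fin n => X i ω) ∂P := by
    intro n
    unfold meanTSP
    rw [← hmap n, integral_map (hmeas n).aemeasurable (measurable_tsp d n).aestronglyMeasurable]
  have hcube : ∀ᵐ ω ∂P, ∀ i, X i ω ∈ cube d := by
    rw [ae_all_iff]
    intro i
    have hms : MeasurableSet (cube d) := by
      have : cube d = ⋂ j, {x : EuclideanSpace ℝ (Fin d) | x j ∈ Set.Icc (0 : ℝ) 1} := by
        ext x
        simp [cube]
      rw [this]
      refine MeasurableSet.iInter fun j => ?_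
      have hj : Measurable fun x : EuclideanSpace ℝ (Fin d) => x j := by fun_prop
      exact hj measurableSet_Icc
    have h1 : P.map (X i) (cube d)ᶜ = 0 := by
      rw [hlaw i]
      change (volume.restrict (cube d)) (cube d)ᶜ = 0
      rw [Measure.restrict_apply hms.compl, Set.compl_inter_self, measure_empty]
    rw [Measure.map_apply (hm i) hms.compl] at h1
    rw [ae_iff]
    exact h1
  have key : Tendsto (fun n : ℕ => ∫ ω, tsp (fun i : Fin n => X i ω) /
      (n : ℝ) ^ (((d : ℝ) - 1) / (d : ℝ)) ∂P) atTop (𝓝 (∫ _ω, β ∂P)) := by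
    refine tendsto_integral_of_dominated_convergence (fun _ => C) ?_ (integrable_const C) ?_ ?_
    · intro n
      exact (((measurable_tsp d n).comp (hmeas n)).div_const _).aestronglyMeasurable
    · intro n
      filter_upwards [hcube] with ω hω
      rw [Real.norm_of_nonneg (div_nonneg (tsp_nonneg _) (by positivity))]
      have h1 := hC n (fun i : Fin n => X i ω) (fun i => hω i)
      rcases (by positivity : 0 ≤ (n : ℝ) ^ (((d : ℝ) - 1) / (d : ℝ))).eq_or_lt with h2 | h2
      · rw [← h2, div_zero]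
        exact hC0
      · rw [div_le_iff₀ h2]
        exact h1
    · exact hlim
  rw [integral_const] at key
  simp only [probReal_univ, one_smul] at key
  refine key.congr fun n => ?_
  rw [hmean, integral_div]

/-- PACKAGE T3: an almost sure limit of the i.i.d. model is also the limit of the Poissonised
expectation. -/
theorem tendsto_poisTSP (d : ℕ) (hd : 2 ≤ d) (β : ℝ)
    (h : ∃ (Ω : Type) (mΩ : MeasurableSpace Ω) (P : Measure Ω)
          (X : ℕ → Ω → EuclideanSpace ℝ (Fin d)),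
          IsProbabilityMeasure P ∧ (∀ i, Measurable (X i)) ∧ iIndepFun X P ∧
          (∀ i, P.map (X i) =
            (volume : Measure (EuclideanSpace ℝ (Fin d))).restrict
              {x | ∀ j, x j ∈ Set.Icc (0 : ℝ) 1}) ∧
          ∀ᵐ ω ∂P, Tendsto
            (fun n : ℕ =>
              (⨅ σ : Equiv.Perm (Fin n),
                  ∑ i : Fin n, dist (X ((σ i : Fin n) : ℕ) ω)
                    (X ((σ (finRotate n i) : Fin n) : ℕ) ω)) /
                (n : ℝ) ^ (((d : ℝ) - 1) / (d : ℝ)))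
            atTop (𝓝 β)) :
    Tendsto (fun lam : ℝ => poisTSP d lam / lam ^ (((d : ℝ) - 1) / (d : ℝ))) atTop (𝓝 β) := by
  have hd' : (2 : ℝ) ≤ d := by exact_mod_cast hd
  have h0 : 0 < ((d : ℝ) - 1) / (d : ℝ) := div_pos (by linarith) (by linarith)
  have h1 : ((d : ℝ) - 1) / (d : ℝ) ≤ 1 := by
    rw [div_le_one (by linarith)]
    linarith
  exact poisson_average h0 h1 (meanTSP_tendsto d hd β h)

end Pool.Agent.TSPd97

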