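import Pool.Agent.TSPd97.EucDefs

/-!
MP_076557_pr, helper97: measurability of the messages.
-/

set_option autoImplicit false

open MeasureTheory Set
open scoped ENNReal

namespace Pool.Agent.TSPd97

variable {V T : Type*} {d : ℕ} [MeasurableSpace V] [MeasurableSpace T]

lemma measurable_sd {K : ℝ} {f g : T → Vd d} (hf : Measurable f) (hg : Measurable g) :
    Measurable fun t => sd K (f t) (g t) := by
  unfold sd
  exact measurable_const.mul ((hf.dist hg).pow_const d)

lemma sd_nonneg {K : ℝ} (hK : 0 ≤ K) (x y : Vd d) : 0 ≤ sd K x y := by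
  unfold sd; positivity

lemma sd_comm (K : ℝ) (x y : Vd d) : sd K x y = sd K y x := by
  unfold sd; rw [dist_comm]

lemma sd_self (hd : 1 ≤ d) (K : ℝ) (x : Vd d) : sd K x x = 0 := by
  unfold sd; rw [dist_self, zero_pow (by omega), mul_zero]

lemma sd_pos_iff (hd : 1 ≤ d) {K : ℝ} (hK : 0 < K) (x y : Vd d) : 0 < sd K x y ↔ x ≠ y := by
  unfold sd
  constructor
  · intro h hxy
    rw [hxy, dist_self, zero_pow (by omega), mul_zero] at h
    exact lt_irrefl _ h
  · intro h
    have := dist_pos.2 h
    positivity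

lemma measurableSet_Nb_prod {K S : ℝ} {f g : T → Vd d} (hf : Measurable f) (hg : Measurable g) :
    MeasurableSet {t | g t ∈ Nb K S (f t)} := by
  have h := measurable_sd (K := K) hf hg
  exact (h measurableSet_Ioi).inter (h measurableSet_Iic)

lemma measurableSet_Nb (K S : ℝ) (x : Vd d) : MeasurableSet (Nb K S x) :=
  measurableSet_Nb_prod (f := fun _ => x) (g := id) measurable_const measurable_id

lemma measurableSet_Bs (K S : ℝ) (x : Vd d) : MeasurableSet (Bs K S x) := by
  have h : Measurable fun z : Vd d => sd K x z := measurable_sd measurable_const measurable_id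
  exact h measurableSet_Iic

lemma measurableSet_cube (d : ℕ) : MeasurableSet (cube d) := by
  have : cube d = ⋂ j : Fin d, {x | x j ∈ Icc (0 : ℝ) 1} := by
    ext x; simp [cube]
  rw [this]
  refine MeasurableSet.iInter (fun j => ?_)
  have hj : Measurable fun x : EuclideanSpace ℝ (Fin d) => x j := by fun_prop
  exact hj measurableSet_Icc

lemma measurable_nbm_aux (Φ : Multiset (Vd d) → Vd d → Vd d → V) (K S : ℝ)
    (hΦ : Measurable fun t : Multiset (Vd d) × Vd d × Vd d => Φ t.1 t.2.1 t.2.2) :
    Measurable fun t : Multiset (Vd d) × Vd d × Vd d =>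
      (restr (Nb K S t.2.1 \ {t.2.2}) t.1).map (fun z => (sd K t.2.1 z, Φ t.1 z t.2.1)) := by
  refine measurable_mmap (g := fun (t : Multiset (Vd d) × Vd d × Vd d) z =>
    (sd K t.2.1 z, Φ t.1 z t.2.1)) ?_ ?_
  · refine Measurable.prodMk (measurable_sd (measurable_fst.comp
      (measurable_snd.comp measurable_fst)) measurable_snd) ?_
    exact hΦ.comp ((measurable_fst.comp measurable_fst).prodMk
      (measurable_snd.prodMk (measurable_fst.comp (measurable_snd.comp measurable_fst))))
  · refine measurable_restr (A := fun t : Multiset (Vd d) × Vd d × Vd d =>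
      Nb K S t.2.1 \ {t.2.2}) ?_ measurable_fst
    have h1 : MeasurableSet {p : (Multiset (Vd d) × Vd d × Vd d) × Vd d | p.2 ∈ Nb K S p.1.2.1} :=
      measurableSet_Nb_prod (f := fun p : (Multiset (Vd d) × Vd d × Vd d) × Vd d => p.1.2.1)
        (g := fun p => p.2) (measurable_fst.comp (measurable_snd.comp measurable_fst))
        measurable_snd
    have h2 : MeasurableSet {p : (Multiset (Vd d) × Vd d × Vd d) × Vd d | p.2 = p.1.2.2} :=
      measurableSet_eq_fun measurable_snd (measurable_snd.comp (measurable_snd.comp measurable_fst))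
    exact h1.diff h2

lemma measurable_msg' (v0 : V) {Ψ : Multiset (ℝ × V) → V} (hΨ : Measurable Ψ) (K S : ℝ) (h : ℕ) :
    Measurable fun t : Multiset (Vd d) × Vd d × Vd d => msg v0 Ψ K S h t.1 t.2.1 t.2.2 := by
  induction h with
  | zero => exact measurable_const
  | succ h ih =>
    exact hΨ.comp (measurable_nbm_aux (fun P v u => msg v0 Ψ K S h P v u) K S ih)

lemma measurable_msg (v0 : V) {Ψ : Multiset (ℝ × V) → V} (hΨ : Measurable Ψ) (K S : ℝ) (h : ℕ)
    {P : T → Multiset (Vd d)} (hP : Measurable P) {f g : T → Vd d} (hf : Measurable f)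
    (hg : Measurable g) : Measurable fun t => msg v0 Ψ K S h (P t) (f t) (g t) :=
  (measurable_msg' v0 hΨ K S h).comp (hP.prodMk (hf.prodMk hg))

lemma measurable_nbm' (v0 : V) {Ψ : Multiset (ℝ × V) → V} (hΨ : Measurable Ψ) (K S : ℝ) (h : ℕ) :
    Measurable fun t : Multiset (Vd d) × Vd d × Vd d => nbm v0 Ψ K S h t.1 t.2.1 t.2.2 := by
  unfold nbm
  exact measurable_nbm_aux (fun P v u => msg v0 Ψ K S h P v u) K S (measurable_msg' v0 hΨ K S h)

lemma measurable_nbm (v0 : V) {Ψ : Multiset (ℝ × V) → V} (hΨ : Measurable Ψ) (K S : ℝ) (h : ℕ)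
    {P : T → Multiset (Vd d)} (hP : Measurable P) {f g : T → Vd d} (hf : Measurable f)
    (hg : Measurable g) : Measurable fun t => nbm v0 Ψ K S h (P t) (f t) (g t) := by
  have h1 : Measurable fun t => (P t, f t, g t) := hP.prodMk (hf.prodMk hg)
  have h2 := (measurable_nbm' (d := d) v0 hΨ K S h).comp h1
  simp only [Function.comp_def] at h2
  exact h2

lemma measurable_nbE (v0 : V) {Ψ : Multiset (ℝ × V) → V} (hΨ : Measurable Ψ) (K S : ℝ) (h : ℕ)
    {q : ℕ} (i : Fin q) {x : T → Fin q → Vd d} (hx : Measurable x)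
    {K₀ η : T → Multiset (Vd d)} (hK₀ : Measurable K₀) (hη : Measurable η) :
    Measurable fun t => nbE v0 Ψ K S h (x t) (K₀ t) (η t) i := by
  have hxi : Measurable fun t => x t i := (measurable_pi_apply i).comp hx
  have hP : Measurable fun t => K₀ t + ms (x t) + η t :=
    measurable_madd (measurable_madd hK₀ (measurable_ms.comp hx)) hη
  have h1 : Measurable fun p : T × Vd d => sd K (x p.1 i) p.2 :=
    measurable_sd (f := fun p : T × Vd d => x p.1 i) (g := fun p : T × Vd d => p.2)
      (hxi.comp measurable_fst) measurable_snd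
  have h2 : Measurable fun p : T × Vd d =>
      msg v0 Ψ K S h (K₀ p.1 + ms (x p.1) + η p.1) p.2 (x p.1 i) :=
    measurable_msg v0 hΨ K S h (P := fun p : T × Vd d => K₀ p.1 + ms (x p.1) + η p.1)
      (hP.comp measurable_fst) (f := fun p : T × Vd d => p.2) measurable_snd
      (g := fun p : T × Vd d => x p.1 i) (hxi.comp measurable_fst)
  have h3 : MeasurableSet {p : T × Vd d | p.2 ∈ Nb K S (x p.1 i)} :=
    measurableSet_Nb_prod (f := fun p : T × Vd d => x p.1 i) (g := fun p : T × Vd d => p.2)
      (hxi.comp measurable_fst) measurable_snd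
  have h4 : Measurable fun t => restr (Nb K S (x t i)) (η t) :=
    measurable_restr (A := fun t => Nb K S (x t i)) h3 hη
  exact measurable_mmap (g := fun t z => (sd K (x t i) z,
    msg v0 Ψ K S h (K₀ t + ms (x t) + η t) z (x t i))) (h1.prodMk h2) h4

lemma measurableSet_unexp (K S : ℝ) (K₀ : Multiset (Vd d)) : MeasurableSet (unexp K S K₀) := by
  induction K₀ using Multiset.induction_on with
  | empty =>
    have : unexp K S (0 : Multiset (Vd d)) = cube d := by
      ext z; simp [unexp]
    rw [this]
    exact measurableSet_cube d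
  | cons a s ih =>
    have h : Measurable fun z : Vd d => sd K a z := measurable_sd measurable_const measurable_id
    have : unexp K S (a ::ₘ s) = {z | S < sd K a z} ∩ unexp K S s := by
      ext z
      simp only [unexp, Multiset.mem_cons, forall_eq_or_imp, mem_ofPred_eq, mem_inter_iff]
      tauto
    rw [this]
    exact (h measurableSet_Ioi).inter ih

lemma tmu_prob (v0 : V) {Ψ : Multiset (ℝ × V) → V} (hΨ : Measurable Ψ) (S : ℝ) (h : ℕ) :
    IsProbabilityMeasure (tmu v0 Ψ S h) := by
  induction h with
  | zero => unfold tmu; infer_instance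
  | succ h ih =>
    unfold tmu
    have : IsFiniteMeasure ((volume.restrict (Ioc 0 S)).prod (tmu v0 Ψ S h)) := inferInstance
    exact Measure.isProbabilityMeasure_map hΨ.aemeasurable

lemma volume_cube_lt_top (d : ℕ) : volume (cube d) < ∞ := by
  have hsub : cube d ⊆ Metric.closedBall 0 (Real.sqrt d) := by
    intro x hx
    rw [mem_closedBall_zero_iff, EuclideanSpace.norm_eq]
    refine Real.sqrt_le_sqrt ?_
    calc ∑ i, ‖x i‖ ^ 2 ≤ ∑ _i : Fin d, (1 : ℝ) := by
          refine Finset.sum_le_sum (fun i _ => ?_)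
          have h := hx i
          rw [Real.norm_eq_abs, sq_abs]
          nlinarith [h.1, h.2]
      _ = d := by simp
  exact lt_of_le_of_lt (measure_mono hsub) measure_closedBall_lt_top

instance lam_finite (K : ℝ) : IsFiniteMeasure (lam d K) := by
  constructor
  unfold lam
  rw [Measure.smul_apply, Measure.restrict_apply_univ, smul_eq_mul]
  exact ENNReal.mul_lt_top ENNReal.ofReal_lt_top (volume_cube_lt_top d)

end Pool.Agent.TSPd97
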