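import Pool.Agent.TSPd97.EucDefs

/-!
MP_076557_pr: package G1, volumes of scaled balls, the radial law, the boundary layer.
-/

set_option autoImplicit false

open MeasureTheory Set
open scoped ENNReal

namespace Pool.Agent.TSPd97

namespace GeoAux

lemma volume_ball_lt_top (d : ℕ) : volume (Metric.ball (0 : Vd d) 1) < ⊤ :=
  measure_ball_lt_top

lemma vball_pos (d : ℕ) : 0 < vball d := by
  unfold vball
  apply ENNReal.toReal_pos
  · exact (Metric.measure_ball_pos volume (0 : Vd d) one_pos).ne'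
  · exact (volume_ball_lt_top d).ne

lemma ofReal_vball (d : ℕ) : ENNReal.ofReal (vball d) = volume (Metric.ball (0 : Vd d) 1) := by
  unfold vball
  exact ENNReal.ofReal_toReal (volume_ball_lt_top d).ne

lemma volume_closedBall' {d : ℕ} (x : Vd d) {r : ℝ} (hr : 0 ≤ r) :
    volume (Metric.closedBall x r) = ENNReal.ofReal (r ^ d * vball d) := by
  rw [Measure.addHaar_closedBall volume x hr, ENNReal.ofReal_mul (by positivity), ofReal_vball]
  simp

lemma lam_le (d : ℕ) (K : ℝ) (s : Set (Vd d)) :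
    lam d K s ≤ ENNReal.ofReal (K / vball d) * volume s := by
  unfold lam
  rw [Measure.smul_apply, smul_eq_mul]
  gcongr
  exact Measure.restrict_le_self

lemma ofReal_mul_vball {d : ℕ} {K : ℝ} (hK : 0 ≤ K) (a : ℝ) :
    ENNReal.ofReal (K / vball d) * ENNReal.ofReal (a * vball d) = ENNReal.ofReal (K * a) := by
  rw [← ENNReal.ofReal_mul (div_nonneg hK (vball_pos d).le)]
  congr 1
  have := (vball_pos d).ne'
  field_simp

lemma lam_closedBall_le {d : ℕ} {K : ℝ} (hK : 0 ≤ K) (x : Vd d) {r : ℝ} (hr : 0 ≤ r) :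
    lam d K (Metric.closedBall x r) ≤ ENNReal.ofReal (K * r ^ d) := by
  refine (lam_le d K _).trans ?_
  rw [volume_closedBall' x hr, ofReal_mul_vball hK]

lemma measurableSet_cube (d : ℕ) : MeasurableSet (cube d) := by
  have : cube d = ⋂ j, {x : Vd d | x j ∈ Icc (0 : ℝ) 1} := by
    ext x; simp [cube]
  rw [this]
  refine MeasurableSet.iInter fun j => ?_
  exact measurableSet_Icc.preimage (by fun_prop)

lemma lam_closedBall_eq {d : ℕ} {K : ℝ} (hK : 0 ≤ K) (x : Vd d) {r : ℝ} (hr : 0 ≤ r)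
    (h : Metric.closedBall x r ⊆ cube d) :
    lam d K (Metric.closedBall x r) = ENNReal.ofReal (K * r ^ d) := by
  unfold lam
  rw [Measure.smul_apply, smul_eq_mul, Measure.restrict_apply Metric.isClosed_closedBall.measurableSet,
    inter_eq_left.2 h, volume_closedBall' x hr, ofReal_mul_vball hK]

lemma rad_nonneg {d : ℕ} {K S : ℝ} (hK : 0 < K) (hS : 0 ≤ S) : 0 ≤ rad d K S := by
  unfold rad; positivity

lemma rad_pow {d : ℕ} (hd : 1 ≤ d) {K S : ℝ} (hK : 0 < K) (hS : 0 ≤ S) :
    rad d K S ^ d = S / K := by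
  unfold rad
  rw [one_div, Real.rpow_inv_natCast_pow (by positivity) (by omega)]

lemma K_rad_pow {d : ℕ} (hd : 1 ≤ d) {K S : ℝ} (hK : 0 < K) (hS : 0 ≤ S) :
    K * rad d K S ^ d = S := by
  rw [rad_pow hd hK hS]; field_simp

lemma sd_nonneg {d : ℕ} {K : ℝ} (hK : 0 < K) (x y : Vd d) : 0 ≤ sd K x y := by
  unfold sd; positivity

lemma measurable_sd {d : ℕ} (K : ℝ) (x : Vd d) : Measurable (sd K x) := by
  unfold sd; fun_prop

/-- the constant -/
lemma const_pow (d : ℕ) : (Real.sqrt (15 / 16)) ^ d = (15 / 16 : ℝ) ^ ((d : ℝ) / 2) := by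
  rw [Real.sqrt_eq_rpow, ← Real.rpow_natCast, ← Real.rpow_mul (by norm_num)]
  congr 1
  ring

end GeoAux

open GeoAux

theorem sd_le_iff {d : ℕ} (hd : 1 ≤ d) {K S : ℝ} (hK : 0 < K) (hS : 0 ≤ S) (x y : Vd d) :
    sd K x y ≤ S ↔ dist x y ≤ rad d K S := by
  rw [← pow_le_pow_iff_left₀ dist_nonneg (rad_nonneg hK hS) (show d ≠ 0 by omega),
    rad_pow hd hK hS, le_div_iff₀ hK]
  unfold sd
  rw [mul_comm]

lemma GeoAux.Bs_eq {d : ℕ} (hd : 1 ≤ d) {K S : ℝ} (hK : 0 < K) (hS : 0 ≤ S) (x : Vd d) :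
    Bs K S x = Metric.closedBall x (rad d K S) := by
  ext z
  unfold Bs
  rw [mem_ofPred_eq, Metric.mem_closedBall, sd_le_iff hd hK hS, dist_comm]

theorem lam_Bs_le {d : ℕ} (hd : 1 ≤ d) {K S : ℝ} (hK : 0 < K) (hS : 0 ≤ S) (x : Vd d) :
    lam d K (Bs K S x) ≤ ENNReal.ofReal S := by
  rw [Bs_eq hd hK hS]
  refine (lam_closedBall_le hK.le x (rad_nonneg hK hS)).trans ?_
  rw [K_rad_pow hd hK hS]

/-- two balls with centres at distance at least half the radius have a small intersection -/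
theorem lam_inter_le {d : ℕ} (hd : 1 ≤ d) {K S : ℝ} (hK : 0 < K) (hS : 0 ≤ S) (x y : Vd d)
    (hxy : rad d K S / 2 ≤ dist x y) :
    lam d K (Bs K S x ∩ Bs K S y) ≤ ENNReal.ofReal (S * (15 / 16 : ℝ) ^ ((d : ℝ) / 2)) := by
  have hr := rad_nonneg (d := d) hK hS
  have hsub : Bs K S x ∩ Bs K S y ⊆
      Metric.closedBall (midpoint ℝ x y) (Real.sqrt (15 / 16) * rad d K S) := by
    rw [Bs_eq hd hK hS, Bs_eq hd hK hS]
    rintro z ⟨hzx, hzy⟩
    rw [Metric.mem_closedBall] at hzx hzy ⊢
    set r := rad d K S with hrdef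
    have hpar := EuclideanGeometry.dist_sq_add_dist_sq_eq_two_mul_dist_midpoint_sq_add_half_dist_sq
      z x y
    have h1 : dist z x ^ 2 ≤ r ^ 2 := pow_le_pow_left₀ dist_nonneg hzx 2
    have h2 : dist z y ^ 2 ≤ r ^ 2 := pow_le_pow_left₀ dist_nonneg hzy 2
    have h3 : (r / 2) ^ 2 ≤ dist x y ^ 2 := pow_le_pow_left₀ (by positivity) hxy 2
    have h4 : dist z (midpoint ℝ x y) ^ 2 ≤ (Real.sqrt (15 / 16) * r) ^ 2 := by
      rw [mul_pow, Real.sq_sqrt (by norm_num)]
      nlinarith
    exact le_of_sq_le_sq h4 (by positivity)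
  refine (measure_mono hsub).trans ?_
  refine (lam_closedBall_le hK.le _ (by positivity)).trans ?_
  apply ENNReal.ofReal_le_ofReal
  rw [mul_pow, const_pow]
  apply le_of_eq
  calc K * ((15 / 16 : ℝ) ^ ((d : ℝ) / 2) * rad d K S ^ d)
      = (K * rad d K S ^ d) * (15 / 16 : ℝ) ^ ((d : ℝ) / 2) := by ring
    _ = _ := by rw [K_rad_pow hd hK hS]

theorem lam_half_le {d : ℕ} (hd : 1 ≤ d) {K S : ℝ} (hK : 0 < K) (hS : 0 ≤ S) (x : Vd d) :
    lam d K {z | dist x z ≤ rad d K S / 2} ≤ ENNReal.ofReal (S * (15 / 16 : ℝ) ^ ((d : ℝ) / 2)) := by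
  have hr := rad_nonneg (d := d) hK hS
  have h : {z | dist x z ≤ rad d K S / 2} = Metric.closedBall x (rad d K S / 2) := by
    ext z; rw [mem_ofPred_eq, Metric.mem_closedBall, dist_comm]
  rw [h]
  refine (lam_closedBall_le hK.le _ (by positivity)).trans ?_
  apply ENNReal.ofReal_le_ofReal
  have h1 : K * (rad d K S / 2) ^ d = S * (1 / 2) ^ d := by
    rw [div_pow, div_pow, one_pow]
    calc K * (rad d K S ^ d / 2 ^ d) = (K * rad d K S ^ d) * (1 / 2 ^ d) := by ring
      _ = _ := by rw [K_rad_pow hd hK hS]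
  rw [h1, ← const_pow]
  apply mul_le_mul_of_nonneg_left _ hS
  apply pow_le_pow_left₀ (by norm_num)
  apply Real.le_sqrt_of_sq_le
  norm_num

theorem lam_singleton {d : ℕ} (hd : 1 ≤ d) (K : ℝ) (x : Vd d) : lam d K {x} = 0 := by
  apply le_antisymm _ zero_le
  refine (lam_le d K _).trans ?_
  rw [← Metric.closedBall_zero (x := x), volume_closedBall' x le_rfl, zero_pow (by omega)]
  simp

/-- the radial law -/
theorem map_sd {d : ℕ} (hd : 1 ≤ d) {K S : ℝ} (hK : 0 < K) (hS : 0 ≤ S) (x : Vd d)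
    (hx : Bs K S x ⊆ cube d) :
    ((lam d K).restrict (Nb K S x)).map (sd K x) = volume.restrict (Ioc 0 S) := by
  have hmeas := measurable_sd (d := d) K x
  have hNb : MeasurableSet (Nb K S x) := by
    have : Nb K S x = sd K x ⁻¹' (Ioc 0 S) := by
      ext z; simp [Nb]
    rw [this]
    exact hmeas measurableSet_Ioc
  have hkey : ∀ t : ℝ, ((lam d K).restrict (Nb K S x)).map (sd K x) (Iic t) =
      (volume.restrict (Ioc 0 S)) (Iic t) := by
    intro t
    rw [Measure.map_apply hmeas measurableSet_Iic,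
      Measure.restrict_apply (hmeas measurableSet_Iic), Measure.restrict_apply measurableSet_Iic]
    have h1 : Iic t ∩ Ioc 0 S = Ioc 0 (min S t) := by
      ext u; simp only [mem_inter_iff, mem_Iic, mem_Ioc, le_min_iff]; tauto
    rw [h1, Real.volume_Ioc, sub_zero]
    rcases le_or_gt (min S t) 0 with hm | hm
    · rw [ENNReal.ofReal_eq_zero.2 hm]
      have h2 : sd K x ⁻¹' Iic t ∩ Nb K S x = ∅ := by
        ext z
        simp only [Nb, mem_inter_iff, mem_preimage, mem_Iic, mem_ofPred_eq, mem_empty_iff_false,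
          iff_false]
        rintro ⟨ha, hb, hc⟩
        have := lt_of_lt_of_le hb (le_min hc ha)
        linarith
      rw [h2, measure_empty]
    · have hm' : 0 ≤ min S t := hm.le
      have h2 : sd K x ⁻¹' Iic t ∩ Nb K S x = Bs K (min S t) x \ {x} := by
        ext z
        simp only [Nb, Bs, mem_inter_iff, mem_preimage, mem_Iic, mem_ofPred_eq, mem_sdiff,
          mem_singleton_iff, le_min_iff]
        have h3 : 0 < sd K x z ↔ ¬ z = x := by
          unfold sd
          constructor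
          · rintro h rfl
            rw [dist_self, zero_pow (by omega)] at h
            simp at h
          · intro h
            have : 0 < dist x z := dist_pos.2 (Ne.symm h)
            positivity
        rw [h3]; tauto
      rw [h2, measure_sdiff_null (lam_singleton hd K x), Bs_eq hd hK hm',
        lam_closedBall_eq hK.le x (rad_nonneg hK hm'), K_rad_pow hd hK hm']
      rw [← Bs_eq hd hK hm']
      refine Subset.trans ?_ hx
      intro z hz
      exact le_trans (show sd K x z ≤ min S t from hz) (min_le_left _ _)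
  refine (Measure.ext_of_Iic _ _ fun t => (hkey t).symm).symm

namespace GeoAux

/-- volume of a box in the cube -/
lemma volume_box {d : ℕ} (I : Fin d → Set ℝ) (hI : ∀ i, MeasurableSet (I i)) :
    volume {x : Vd d | ∀ i, x i ∈ I i} = ∏ i, volume (I i) := by
  have h := (PiLp.volume_preserving_ofLp (Fin d)).measure_preimage
    (s := Set.pi univ I) (MeasurableSet.univ_pi hI).nullMeasurableSet
  rw [volume_pi_pi] at h
  rw [← h]
  congr 1
  ext x
  simp

lemma volume_cube (d : ℕ) : volume (cube d) = 1 := by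
  have h := volume_box (d := d) (fun _ => Icc (0 : ℝ) 1) (fun _ => measurableSet_Icc)
  have h2 : {x : Vd d | ∀ i, x i ∈ (fun _ : Fin d => Icc (0 : ℝ) 1) i} = cube d := rfl
  rw [h2] at h
  rw [h]
  simp

lemma volume_slab {d : ℕ} (j : Fin d) (J : Set ℝ) (hJ : MeasurableSet J) :
    volume {x : Vd d | x ∈ cube d ∧ x j ∈ J} ≤ volume J := by
  have h := volume_box (d := d) (fun i => if i = j then J else Icc (0 : ℝ) 1) (fun i => by
    split_ifs
    · exact hJ
    · exact measurableSet_Icc)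
  have h2 : {x : Vd d | x ∈ cube d ∧ x j ∈ J} ⊆
      {x : Vd d | ∀ i, x i ∈ (if i = j then J else Icc (0 : ℝ) 1)} := by
    rintro x ⟨hx, hxj⟩ i
    split_ifs with hij
    · rw [hij]; exact hxj
    · exact hx i
  refine (measure_mono h2).trans ?_
  rw [h, Finset.prod_eq_single j]
  · simp
  · intro i _ hij
    simp [hij]
  · simp

end GeoAux

/-- the boundary layer is thin -/
theorem lam_boundary {d : ℕ} (hd : 1 ≤ d) {K : ℝ} (hK : 0 < K) (ρ : ℝ) (hρ : 0 ≤ ρ) :
    lam d K (inner d ρ)ᶜ ≤ ENNReal.ofReal (K / vball d * (2 * d * ρ)) := by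
  have hv := vball_pos d
  have h1 : (inner d ρ)ᶜ ∩ cube d ⊆
      ⋃ j : Fin d, ({x : Vd d | x ∈ cube d ∧ x j ∈ Ico 0 ρ} ∪
        {x : Vd d | x ∈ cube d ∧ x j ∈ Ioc (1 - ρ) 1}) := by
    rintro x ⟨hx1, hx2⟩
    by_contra hcon
    apply hx1
    intro z hz j
    rw [Metric.mem_closedBall] at hz
    have h2 : |z j - x j| ≤ ρ := by
      have h3 : ‖(z - x) j‖ ≤ ‖z - x‖ := PiLp.norm_apply_le (z - x) j
      rw [← dist_eq_norm, Real.norm_eq_abs] at h3
      exact h3.trans hz
    simp only [mem_iUnion, mem_union, mem_ofPred_eq, mem_Ico, mem_Ioc, not_exists, not_or,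
      not_and, not_lt, not_le] at hcon
    obtain ⟨ha, hb⟩ := hcon j
    have hxj := hx2 j
    have ha' := ha hx2 hxj.1
    rw [abs_le] at h2
    constructor
    · linarith
    · by_contra hlt
      push Not at hlt
      have := hb hx2 (by linarith)
      linarith [hxj.2]
  have hm : MeasurableSet (cube d) := measurableSet_cube d
  unfold lam
  rw [Measure.smul_apply, smul_eq_mul, ENNReal.ofReal_mul (by positivity),
    Measure.restrict_apply' hm]
  gcongr
  refine (measure_mono h1).trans ?_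
  refine (measure_iUnion_le _).trans ?_
  rw [tsum_fintype]
  have h4 : ∀ j : Fin d, volume ({x : Vd d | x ∈ cube d ∧ x j ∈ Ico 0 ρ} ∪
        {x : Vd d | x ∈ cube d ∧ x j ∈ Ioc (1 - ρ) 1}) ≤ ENNReal.ofReal (2 * ρ) := by
    intro j
    refine (measure_union_le _ _).trans ?_
    refine (add_le_add (volume_slab j _ measurableSet_Ico)
      (volume_slab j _ measurableSet_Ioc)).trans ?_
    rw [Real.volume_Ico, Real.volume_Ioc, ← ENNReal.ofReal_add (by linarith) (by linarith)]
    apply ENNReal.ofReal_le_ofReal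
    linarith
  refine (Finset.sum_le_sum fun j _ => h4 j).trans ?_
  rw [Finset.sum_const, Finset.card_univ, Fintype.card_fin, nsmul_eq_mul, ← ENNReal.ofReal_natCast,
    ← ENNReal.ofReal_mul (by positivity)]
  apply ENNReal.ofReal_le_ofReal
  linarith

theorem lam_univ {d : ℕ} (K : ℝ) : lam d K univ = ENNReal.ofReal (K / vball d) := by
  unfold lam
  rw [Measure.smul_apply, smul_eq_mul, Measure.restrict_apply MeasurableSet.univ, univ_inter,
    volume_cube, mul_one]

end Pool.Agent.TSPd97
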