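import Pool.Agent.TSPd97.PP2

/-!
MP_076557_pr, helper97: order statistics and the message law on the tree (PWIT).
-/

set_option autoImplicit false

open MeasureTheory Set
open scoped ENNReal

namespace Pool.Agent.TSPd97

/-! ### order statistics -/

/-- auxiliary: the entry `i` of a list, capped by `B` -/
noncomputable def osl (B : ℝ) (i : ℕ) (l : List ℝ) : ℝ := min B (l.getD i B)

/-- the `(i+1)`-st smallest element of a multiset of reals, capped at `B` -/
noncomputable def os (i : ℕ) (B : ℝ) (s : Multiset ℝ) : ℝ := osl B i (s.sort (· ≤ ·))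

lemma card_restr_coe (A : Set ℝ) (l : List ℝ) [DecidablePred (· ∈ A)] :
    Multiset.card (restr A (l : Multiset ℝ)) = l.countP (· ∈ A) := by
  induction l with
  | nil => simp
  | cons a l ih =>
    rw [← Multiset.cons_coe]
    by_cases h : a ∈ A
    · rw [restr_cons_mem _ h, Multiset.card_cons, ih, List.countP_cons_of_pos (by simpa using h)]
    · rw [restr_cons_not_mem _ h, ih, List.countP_cons_of_neg (by simpa using h)]

lemma lt_osl_iff (B t : ℝ) (l : List ℝ) (hl : l.Pairwise (· ≤ ·)) (i : ℕ) :
    t < osl B i l ↔ t < B ∧ l.countP (· ≤ t) ≤ i := by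
  induction l generalizing i with
  | nil => simp [osl]
  | cons a l ih =>
    rw [List.pairwise_cons] at hl
    by_cases hat : a ≤ t
    · rw [List.countP_cons_of_pos (by simpa using hat)]
      cases i with
      | zero =>
        simp only [osl, List.getD_cons_zero, lt_min_iff]
        constructor
        · rintro ⟨_, h⟩
          exact absurd h (not_lt.2 hat)
        · rintro ⟨_, h⟩
          omega
      | succ i =>
        have := ih hl.2 i
        simp only [osl, List.getD_cons_succ] at this ⊢
        rw [this]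
        constructor
        · rintro ⟨h1, h2⟩; exact ⟨h1, by omega⟩
        · rintro ⟨h1, h2⟩; exact ⟨h1, by omega⟩
    · rw [List.countP_cons_of_neg (by simpa using hat)]
      have hall : ∀ b ∈ l, ¬ b ≤ t := fun b hb hbt => hat ((hl.1 b hb).trans hbt)
      have h0 : l.countP (· ≤ t) = 0 := by
        rw [List.countP_eq_zero]
        intro b hb
        simpa using hall b hb
      rw [h0]
      simp only [Nat.zero_le, and_true, osl, lt_min_iff, and_iff_left_iff_imp]
      intro htB
      cases i with
      | zero => simpa using not_le.1 hat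
      | succ i =>
        simp only [List.getD_cons_succ]
        by_cases hi : i < l.length
        · rw [List.getD_eq_getElem l B hi]
          exact not_le.1 (hall _ (List.getElem_mem hi))
        · rw [List.getD_eq_default l B (not_lt.1 hi)]
          exact htB

/-- characterisation of the order statistic -/
lemma lt_os_iff (i : ℕ) (B t : ℝ) (s : Multiset ℝ) :
    t < os i B s ↔ t < B ∧ Multiset.card (restr (Iic t) s) ≤ i := by
  classical
  unfold os
  have hs : (s.sort (· ≤ ·)).Pairwise (· ≤ ·) := Multiset.pairwise_sort s (· ≤ ·)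
  rw [lt_osl_iff B t _ hs i]
  have h := card_restr_coe (Iic t) (s.sort (· ≤ ·))
  rw [Multiset.sort_eq] at h
  rw [h]
  simp only [mem_Iic]

lemma os_le_iff (i : ℕ) (B t : ℝ) (s : Multiset ℝ) :
    os i B s ≤ t ↔ B ≤ t ∨ i < Multiset.card (restr (Iic t) s) := by
  rw [← not_iff_not, not_le, lt_os_iff, not_or, not_le, not_lt]

lemma os_le (i : ℕ) (B : ℝ) (s : Multiset ℝ) : os i B s ≤ B := min_le_left _ _

lemma measurable_os (i : ℕ) (B : ℝ) : Measurable (os i B : Multiset ℝ → ℝ) := by
  refine measurable_of_Iic (fun t => ?_)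
  have : os i B ⁻¹' Iic t = {s | B ≤ t} ∪ {s | i < Multiset.card (restr (Iic t) s)} := by
    ext s
    simp only [mem_preimage, mem_Iic, os_le_iff, mem_union, mem_ofPred_eq]
  rw [this]
  refine MeasurableSet.union (MeasurableSet.const _) ?_
  have hm : Measurable fun s : Multiset ℝ => Multiset.card (restr (Iic t) s) :=
    measurable_mcard (measurable_restr_const measurableSet_Iic measurable_id)
  exact hm measurableSet_Ioi

lemma os_mono {i j : ℕ} (h : i ≤ j) (B : ℝ) (s : Multiset ℝ) : os i B s ≤ os j B s := by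
  refine le_of_forall_lt (fun t ht => ?_)
  rw [lt_os_iff] at ht ⊢
  exact ⟨ht.1, ht.2.trans h⟩

lemma os_pos {i : ℕ} {B : ℝ} (hB : 0 < B) {s : Multiset ℝ} (h : ∀ a ∈ s, 0 < a) :
    0 < os i B s := by
  rw [lt_os_iff]
  refine ⟨hB, ?_⟩
  rw [restr_eq_zero.2 (fun a ha => by simpa using h a ha)]
  simp

lemma os_nonneg {i : ℕ} {B : ℝ} (hB : 0 ≤ B) {s : Multiset ℝ} (h : ∀ a ∈ s, 0 ≤ a) :
    0 ≤ os i B s := by
  refine le_of_forall_lt (fun t ht => ?_)
  rw [lt_os_iff]
  refine ⟨ht.trans_le hB, ?_⟩
  rw [restr_eq_zero.2 (fun a ha => by simpa using ht.trans_le (h a ha))]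
  simp

/-! ### the tree model -/

/-- Lebesgue measure on `(0, S]` -/
noncomputable def leb (S : ℝ) : Measure ℝ := volume.restrict (Ioc 0 S)

instance (S : ℝ) : IsFiniteMeasure (leb S) := by
  unfold leb
  infer_instance

/-- parameters: averaging window `k ≤ j < 2k`, cap `B`, mean `m` -/
structure Par where
  /-- window length -/
  k : ℕ
  /-- cap -/
  B : ℝ
  /-- mean of the messages -/
  m : ℝ
  hk : 8 ≤ k
  hkB : (k : ℝ) ≤ B
  hm1 : 1 ≤ m
  hm : m ^ 2 = 2 - (m * B + 2) * Real.exp (-(m * B))

/-- message update (levels `0, ..., 2k`) -/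
noncomputable def upd (p : Par) (ξ : Multiset (ℝ × (ℕ → ℝ))) : ℕ → ℝ := fun j =>
  if j = 0 then p.m
  else if j ≤ 2 * p.k then os 1 p.B (ξ.map fun q => q.1 / q.2 (j - 1)) else 0

/-- the initial message vector -/
noncomputable def vinit (p : Par) : ℕ → ℝ := fun j => if j ≤ 2 * p.k then p.m else 0

lemma measurable_upd (p : Par) : Measurable (upd p) := by
  refine measurable_pi_lambda _ (fun j => ?_)
  unfold upd
  split_ifs
  · exact measurable_const
  · refine (measurable_os 1 p.B).comp (measurable_map_multiset ?_)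
    exact measurable_fst.div ((measurable_pi_apply (j - 1)).comp measurable_snd)
  · exact measurable_const

/-- law of the depth-`h` message vector on the tree -/
noncomputable def mu (p : Par) : ℕ → Measure (ℕ → ℝ)
  | 0 => Measure.dirac (vinit p)
  | h + 1 => (PP ((leb (p.B ^ 2)).prod (mu p h))).map (upd p)

instance mu_prob (p : Par) (h : ℕ) : IsProbabilityMeasure (mu p h) := by
  induction h with
  | zero => unfold mu; infer_instance
  | succ h ih =>
    unfold mu
    exact Measure.isProbabilityMeasure_map (measurable_upd p).aemeasurable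

/-- the law of the marked neighbourhood of a vertex of the tree -/
noncomputable def nb (p : Par) (h : ℕ) : Measure (Multiset (ℝ × (ℕ → ℝ))) :=
  PP ((leb (p.B ^ 2)).prod (mu p h))

instance nb_prob (p : Par) (h : ℕ) : IsProbabilityMeasure (nb p h) := by
  unfold nb; infer_instance

/-- the average of a message vector over the window -/
noncomputable def wbar (p : Par) (w : ℕ → ℝ) : ℝ :=
  (∑ j ∈ Finset.Ico p.k (2 * p.k), w j) / p.k

/-- the potential `2 u_v` (clamped below at `δ`) of a vertex with marked neighbourhood `ξ` -/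
noncomputable def pot (p : Par) (δ : ℝ) (ξ : Multiset (ℝ × (ℕ → ℝ))) : ℝ :=
  (∑ j ∈ Finset.Ico p.k (2 * p.k),
    (Real.log (max δ (os 1 p.B (ξ.map fun q => q.1 / q.2 j)))
      + Real.log (max δ (os 2 p.B (ξ.map fun q => q.1 / q.2 j))))) / p.k

/-- the selection threshold of a vertex -/
noncomputable def qthr (p : Par) (ξ : Multiset (ℝ × (ℕ → ℝ))) : ℝ :=
  os 1 p.B (ξ.map fun q => q.1 / wbar p q.2)

/-- an edge between vertices with other neighbours `ξ`, `ξ'` is selected iff `s < mthr` -/
noncomputable def mthr (p : Par) (ξ ξ' : Multiset (ℝ × (ℕ → ℝ))) : ℝ :=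
  min (wbar p (upd p ξ') * qthr p ξ) (wbar p (upd p ξ) * qthr p ξ')

end Pool.Agent.TSPd97
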