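import Pool.Agent.TSPd97.T3Pois
import Pool.Agent.TSPd97.Geo1
import Pool.Agent.TSPd97.EucMeas
import Pool.Agent.TSPd97.TreeDefs

/-!
MP_076557_pr, helper97 (package PO): `poisTSP` as an integral over the Poisson process,
existence of the parameters.
-/

set_option autoImplicit false

open MeasureTheory Set Filter Topology
open scoped ENNReal

namespace Pool.Agent.TSPd97

open GeoAux

namespace PO

/-- uniform law on the cube -/
noncomputable def uq (d : ℕ) : Measure (Vd d) := (volume : Measure (Vd d)).restrict (cube d)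

instance uq_prob (d : ℕ) : IsProbabilityMeasure (uq d) := by
  constructor
  unfold uq
  rw [Measure.restrict_apply_univ, volume_cube]

lemma lam_eq (d : ℕ) (l : ℝ) : lam d (l * vball d) = ENNReal.ofReal l • uq d := by
  unfold lam uq
  rw [mul_div_cancel_right₀ _ (vball_pos d).ne']

lemma pi_smul {E : Type*} [MeasurableSpace E] (μ : Measure E) [IsFiniteMeasure μ] (c : ℝ≥0∞)
    (hc : c ≠ ∞) (n : ℕ) :
    Measure.pi (fun _ : Fin n => c • μ) = c ^ n • Measure.pi (fun _ : Fin n => μ) := by
  have : IsFiniteMeasure (c • μ) := by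
    constructor
    rw [Measure.smul_apply, smul_eq_mul]
    exact ENNReal.mul_lt_top hc.lt_top (measure_lt_top _ _)
  refine Measure.pi_eq (fun s _ => ?_)
  rw [Measure.smul_apply, Measure.pi_pi]
  simp only [Measure.smul_apply, smul_eq_mul]
  rw [Finset.prod_mul_distrib]
  simp

lemma lintegral_PP_lam (d : ℕ) (l : ℝ) (hl : 0 ≤ l) {F : Multiset (Vd d) → ℝ≥0∞}
    (hF : Measurable F) :
    ∫⁻ P, F P ∂(PP (lam d (l * vball d))) = ∑' n : ℕ, ENNReal.ofReal (pw l n) *
      ∫⁻ x : Fin n → Vd d, F (ms x) ∂(Measure.pi fun _ => uq d) := by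
  rw [lintegral_PP _ hF]
  congr 1
  funext n
  rw [lam_eq, pi_smul _ _ ENNReal.ofReal_ne_top, lintegral_smul_measure, smul_eq_mul,
    Measure.smul_apply, measure_univ, smul_eq_mul, mul_one, ← mul_assoc]
  congr 1
  unfold pw eneg
  rw [ENNReal.toReal_ofReal hl, ENNReal.ofReal_div_of_pos (by positivity),
    ENNReal.ofReal_mul (Real.exp_pos _).le, ENNReal.ofReal_pow hl, ENNReal.ofReal_natCast,
    div_eq_mul_inv]
  ring

lemma ae_inj (d : ℕ) (hd : 1 ≤ d) (n : ℕ) :
    ∀ᵐ x : Fin n → Vd d ∂(Measure.pi fun _ => uq d),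
      Function.Injective x ∧ ∀ i, x i ∈ cube d := by
  have h1 : ∀ i : Fin n, ∀ᵐ x : Fin n → Vd d ∂(Measure.pi fun _ => uq d), x i ∈ cube d := by
    intro i
    have h0 : ∀ᵐ y ∂(uq d), y ∈ cube d := ae_restrict_mem (measurableSet_cube d)
    exact (Measure.quasiMeasurePreserving_eval (μ := fun _ : Fin n => uq d) i).ae h0
  have hz : ∀ a : Vd d, uq d {a} = 0 := by
    intro a
    unfold uq
    refine le_antisymm ((Measure.restrict_apply_le _ _).trans ?_) zero_le
    rw [← Metric.closedBall_zero (x := a), volume_closedBall' a le_rfl, zero_pow (by omega)]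
    simp
  have h2 : ∀ i j : Fin n, i ≠ j → ∀ᵐ x : Fin n → Vd d ∂(Measure.pi fun _ => uq d),
      x i ≠ x j := by
    intro i j hij
    obtain ⟨m, rfl⟩ : ∃ m, n = m + 1 := ⟨n - 1, by have := i.pos; omega⟩
    have hms : MeasurableSet {x : Fin (m + 1) → Vd d | x i = x j} :=
      measurableSet_eq_fun (measurable_pi_apply i) (measurable_pi_apply j)
    have hzero : Measure.pi (fun _ : Fin (m + 1) => uq d) {x | x i = x j} = 0 := by
      rw [← lintegral_indicator_one hms, lintegral_pi_succAbove (uq d) i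
        (measurable_one.indicator hms)]
      obtain ⟨k, hk⟩ := Fin.exists_succAbove_eq hij.symm
      rw [lintegral_eq_zero_iff']
      · refine Filter.Eventually.of_forall (fun a => ?_)
        have h3 : ∀ y : Fin m → Vd d, ({x : Fin (m + 1) → Vd d | x i = x j}.indicator
            (1 : (Fin (m + 1) → Vd d) → ℝ≥0∞) (i.insertNth a y))
            = ({y : Fin m → Vd d | y k = a}.indicator 1 y) := by
          intro y
          have e1 : (i.insertNth a y : Fin (m + 1) → Vd d) i = a := by simp
          have e2 : (i.insertNth a y : Fin (m + 1) → Vd d) j = y k := by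
            rw [← hk]; simp
          by_cases hy : y k = a
          · rw [indicator_of_mem (show y ∈ {y : Fin m → Vd d | y k = a} from hy),
              indicator_of_mem (show i.insertNth a y ∈ {x : Fin (m + 1) → Vd d | x i = x j} from by
                rw [mem_ofPred_eq, e1, e2, hy])]
            rfl
          · rw [indicator_of_notMem (show y ∉ {y : Fin m → Vd d | y k = a} from hy),
              indicator_of_notMem (show i.insertNth a y ∉ {x : Fin (m + 1) → Vd d | x i = x j} from
                by rw [mem_ofPred_eq, e1, e2]; exact fun h => hy h.symm)]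
        simp_rw [h3]
        have hmk : Measurable fun y : Fin m → Vd d => y k := measurable_pi_apply k
        have hms2 : MeasurableSet {y : Fin m → Vd d | y k = a} := hmk (measurableSet_singleton a)
        rw [lintegral_indicator_one hms2]
        have h4 : {y : Fin m → Vd d | y k = a}
            = (univ : Set (Fin m)).pi (fun l => if l = k then {a} else univ) := by
          ext y
          simp only [mem_ofPred_eq, Set.mem_pi, mem_univ, true_implies]
          constructor
          · intro h l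
            by_cases hl : l = k
            · subst hl; simp [h]
            · simp [hl]
          · intro h
            have := h k
            simpa using this
        rw [h4, Measure.pi_pi, Finset.prod_eq_zero (Finset.mem_univ k)]
        · rfl
        · simp [hz]
      · have hm1 : Measurable fun p : Vd d × (Fin m → Vd d) =>
            ({x : Fin (m + 1) → Vd d | x i = x j}.indicator
              (1 : (Fin (m + 1) → Vd d) → ℝ≥0∞) (i.insertNth p.1 p.2)) := by
          refine (measurable_one.indicator hms).comp ?_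
          exact (MeasurableEquiv.piFinSuccAbove (fun _ => Vd d) i).symm.measurable
        exact hm1.lintegral_prod_right'.aemeasurable
    rw [ae_iff]
    simpa using hzero
  have h1' := ae_all_iff.2 h1
  have h2' : ∀ᵐ x : Fin n → Vd d ∂(Measure.pi fun _ => uq d), ∀ i j : Fin n, i ≠ j → x i ≠ x j := by
    rw [ae_all_iff]
    intro i
    rw [ae_all_iff]
    intro j
    by_cases hij : i = j
    · exact Filter.Eventually.of_forall (fun x h => absurd hij h)
    · filter_upwards [h2 i j hij] with x hx _ using hx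
  filter_upwards [h1', h2'] with x hx1 hx2
  refine ⟨fun i j hij => ?_, hx1⟩
  by_contra hne
  exact hx2 i j hne hij

lemma integrable_tsp (d : ℕ) (hd : 2 ≤ d) (n : ℕ) :
    Integrable (fun x : Fin n → Vd d => tsp x) (Measure.pi fun _ => uq d) := by
  obtain ⟨C, hC0, hC⟩ := tsp_le_rpow d hd
  refine Integrable.of_bound (measurable_tsp d n).aestronglyMeasurable
    (C * (n : ℝ) ^ (((d : ℝ) - 1) / (d : ℝ))) ?_
  filter_upwards [ae_inj d (by omega) n] with x hx
  rw [Real.norm_eq_abs, abs_of_nonneg (tsp_nonneg x)]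
  exact hC n x hx.2

lemma ofReal_poisTSP (d : ℕ) (hd : 2 ≤ d) (l : ℝ) (hl : 0 ≤ l) :
    ENNReal.ofReal (poisTSP d l) = ∑' n : ℕ, ENNReal.ofReal (pw l n) *
      ∫⁻ x : Fin n → Vd d, ENNReal.ofReal (tsp x) ∂(Measure.pi fun _ => uq d) := by
  obtain ⟨C, hC0, hC⟩ := tsp_le_rpow d hd
  have hd' : (2 : ℝ) ≤ d := by exact_mod_cast hd
  have hnn : ∀ n : ℕ, 0 ≤ pw l n *
      ∫ x : Fin n → Vd d, tsp x ∂(Measure.pi fun _ => uq d) := fun n =>
    mul_nonneg (pw_nonneg hl n) (integral_nonneg (fun x => tsp_nonneg x))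
  have hle : ∀ n : ℕ, ∫ x : Fin n → Vd d, tsp x ∂(Measure.pi fun _ => uq d)
      ≤ C * (n : ℝ) ^ (((d : ℝ) - 1) / (d : ℝ)) := by
    intro n
    have h1 : ∫ x : Fin n → Vd d, tsp x ∂(Measure.pi fun _ => uq d)
        ≤ ∫ _x : Fin n → Vd d, C * (n : ℝ) ^ (((d : ℝ) - 1) / (d : ℝ))
          ∂(Measure.pi fun _ => uq d) := by
      refine integral_mono_ae (integrable_tsp d hd n) (integrable_const _) ?_
      filter_upwards [ae_inj d (by omega) n] with x hx using hC n x hx.2
    simpa using h1
  have hsum : Summable fun n : ℕ => pw l n *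
      ∫ x : Fin n → Vd d, tsp x ∂(Measure.pi fun _ => uq d) := by
    have hs := (summable_pw_rpow (lam := l) (θ := ((d : ℝ) - 1) / (d : ℝ)) hl
      (div_nonneg (by linarith) (by linarith)) (by rw [div_le_one (by linarith)]; linarith)).mul_left C
    refine Summable.of_nonneg_of_le hnn (fun n => ?_) hs
    calc pw l n * ∫ x : Fin n → Vd d, tsp x ∂(Measure.pi fun _ => uq d)
        ≤ pw l n * (C * (n : ℝ) ^ (((d : ℝ) - 1) / (d : ℝ))) :=
          mul_le_mul_of_nonneg_left (hle n) (pw_nonneg hl n)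
      _ = C * (pw l n * (n : ℝ) ^ (((d : ℝ) - 1) / (d : ℝ))) := by ring
  have hdef : poisTSP d l = ∑' n : ℕ, pw l n *
      ∫ x : Fin n → Vd d, tsp x ∂(Measure.pi fun _ => uq d) := rfl
  rw [hdef, ENNReal.ofReal_tsum_of_nonneg hnn hsum]
  congr 1
  funext n
  rw [ENNReal.ofReal_mul (pw_nonneg hl n), ofReal_integral_eq_lintegral_ofReal
    (integrable_tsp d hd n) (Filter.Eventually.of_forall (fun x => tsp_nonneg x))]

end PO

theorem poisTSP_nonneg (d : ℕ) (l : ℝ) (hl : 0 ≤ l) : 0 ≤ poisTSP d l := by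
  unfold poisTSP
  refine tsum_nonneg (fun n => mul_nonneg (by positivity) ?_)
  exact integral_nonneg (fun x => tsp_nonneg x)

theorem poisTSP_le (d : ℕ) (hd : 2 ≤ d) (l : ℝ) (hl : 0 < l) (F : Multiset (Vd d) → ℝ≥0∞)
    (hF : Measurable F)
    (h : ∀ (n : ℕ) (x : Fin n → Vd d), Function.Injective x → (∀ i, x i ∈ cube d) →
      ENNReal.ofReal (tsp x) ≤ F (ms x)) :
    ENNReal.ofReal (poisTSP d l) ≤ ∫⁻ P, F P ∂(PP (lam d (l * vball d))) := by
  rw [PO.ofReal_poisTSP d hd l hl.le, PO.lintegral_PP_lam d l hl.le hF]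
  refine ENNReal.tsum_le_tsum (fun n => mul_le_mul_right ?_ _)
  refine lintegral_mono_ae ?_
  filter_upwards [PO.ae_inj d (by omega) n] with x hx using h n x hx.1 hx.2

theorem le_poisTSP (d : ℕ) (hd : 2 ≤ d) (l : ℝ) (hl : 0 < l) (F G : Multiset (Vd d) → ℝ≥0∞)
    (hF : Measurable F) (hG : Measurable G) (c : ℝ) (hc : 0 ≤ c)
    (h : ∀ (n : ℕ) (x : Fin n → Vd d), Function.Injective x → (∀ i, x i ∈ cube d) →
      F (ms x) ≤ ENNReal.ofReal (c * tsp x) + G (ms x)) :
    ∫⁻ P, F P ∂(PP (lam d (l * vball d)))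
      ≤ ENNReal.ofReal (c * poisTSP d l) + ∫⁻ P, G P ∂(PP (lam d (l * vball d))) := by
  rw [ENNReal.ofReal_mul hc, PO.ofReal_poisTSP d hd l hl.le, PO.lintegral_PP_lam d l hl.le hF,
    PO.lintegral_PP_lam d l hl.le hG, ← ENNReal.tsum_mul_left, ← ENNReal.tsum_add]
  refine ENNReal.tsum_le_tsum (fun n => ?_)
  have hm : Measurable fun x : Fin n → Vd d => ENNReal.ofReal (tsp x) :=
    (measurable_tsp d n).ennreal_ofReal
  calc ENNReal.ofReal (pw l n) * ∫⁻ x : Fin n → Vd d, F (ms x) ∂(Measure.pi fun _ => PO.uq d)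
      ≤ ENNReal.ofReal (pw l n) * ∫⁻ x : Fin n → Vd d,
          (ENNReal.ofReal c * ENNReal.ofReal (tsp x) + G (ms x)) ∂(Measure.pi fun _ => PO.uq d) := by
        refine mul_le_mul_right ?_ _
        refine lintegral_mono_ae ?_
        filter_upwards [PO.ae_inj d (by omega) n] with x hx
        rw [← ENNReal.ofReal_mul hc]
        exact h n x hx.1 hx.2
    _ = _ := by
        rw [lintegral_add_left (hm.const_mul _), lintegral_const_mul _ hm]
        ring

theorem mean_card (d : ℕ) (l : ℝ) (hl : 0 < l) (_hd : 1 ≤ d) :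
    ∫⁻ P, (Multiset.card P : ℝ≥0∞) ∂(PP (lam d (l * vball d))) = ENNReal.ofReal l := by
  have h := PP_mean_card (lam d (l * vball d)) MeasurableSet.univ
  simp only [restr_univ] at h
  rw [h, lam_univ, mul_div_cancel_right₀ _ (vball_pos d).ne']

theorem exists_par (k : ℕ) (hk : 8 ≤ k) (B : ℝ) (hkB : (k : ℝ) ≤ B) :
    ∃ p : Par, p.k = k ∧ p.B = B := by
  have hB : (8 : ℝ) ≤ B := le_trans (by exact_mod_cast hk) hkB
  set f : ℝ → ℝ := fun m => m ^ 2 - 2 + (m * B + 2) * Real.exp (-(m * B)) with hf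
  have hcont : ContinuousOn f (Icc 1 2) := by
    apply Continuous.continuousOn
    simp only [hf]
    fun_prop
  have h1 : f 1 ≤ 0 := by
    simp only [hf]
    have he : (B + 2) * Real.exp (-B) ≤ 1 := by
      have h2 : B + 2 ≤ Real.exp B := by
        have h3 := Real.add_one_le_exp (B / 2)
        have h4 : Real.exp B = Real.exp (B / 2) * Real.exp (B / 2) := by
          rw [← Real.exp_add]; ring_nf
        rw [h4]
        nlinarith
      rw [Real.exp_neg, ← div_eq_mul_inv, div_le_one (Real.exp_pos _)]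
      exact h2
    have : (1 * B + 2) * Real.exp (-(1 * B)) ≤ 1 := by simpa using he
    linarith
  have h2 : 0 ≤ f 2 := by
    simp only [hf]
    have : 0 ≤ (2 * B + 2) * Real.exp (-(2 * B)) := by positivity
    linarith
  obtain ⟨m, hm, hm0⟩ := intermediate_value_Icc (by norm_num : (1 : ℝ) ≤ 2) hcont ⟨h1, h2⟩
  refine ⟨⟨k, B, m, hk, hkB, hm.1, ?_⟩, rfl, rfl⟩
  simp only [hf] at hm0
  linarith

end Pool.Agent.TSPd97
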