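import Pool.Agent.TSPd97.T1Ball
import Pool.Agent.TSPd97.T3Pois

/-!
MP_076557_pr, helper97: final assembly (conditional on the two bounds for the Poissonised
functional).
-/

set_option autoImplicit false

open MeasureTheory ProbabilityTheory Filter Topology

namespace Pool.Agent.TSPd97

theorem final_of_bounds
    (hL : ∃ C : ℝ, ∃ D : ℕ, ∀ d : ℕ, D ≤ d → ∀ᶠ l : ℝ in atTop,
      l ^ (((d : ℝ) - 1) / (d : ℝ)) * vball d ^ (-(1 / (d : ℝ)))
        * (1 + (2 - Real.log 2 - 2 * Real.eulerMascheroniConstant) / d - C / (d : ℝ) ^ 2)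
        ≤ poisTSP d l)
    (hU : ∃ C : ℝ, ∃ D : ℕ, ∀ d : ℕ, D ≤ d → ∀ᶠ l : ℝ in atTop,
      poisTSP d l ≤ l ^ (((d : ℝ) - 1) / (d : ℝ)) * vball d ^ (-(1 / (d : ℝ)))
        * (1 + (2 - Real.log 2 - 2 * Real.eulerMascheroniConstant) / d + C / (d : ℝ) ^ 2)) :
    ∃ C : ℝ, ∃ D : ℕ, ∀ d : ℕ, D ≤ d → ∀ β : ℝ,
      (∃ (Ω : Type) (mΩ : MeasurableSpace Ω) (P : Measure Ω)
          (X : ℕ → Ω → EuclideanSpace ℝ (Fin d)),
          IsProbabilityMeasure P ∧ (∀ i, Measurable (X i)) ∧ iIndepFun X P ∧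
          (∀ i, P.map (X i) =
            (volume : Measure (EuclideanSpace ℝ (Fin d))).restrict
              {x | ∀ j, x j ∈ Set.Icc (0 : ℝ) 1}) ∧
          ∀ᵐ ω ∂P, Tendsto
            (fun n : ℕ =>
              (⨅ σ : Equiv.Perm (Fin n),
                  ∑ i : Fin n, dist (X ((σ i : Fin n) : ℕ) ω)
                    (X ((σ (finRotate n i) : Fin n) : ℕ) ω)) /
                (n : ℝ) ^ (((d : ℝ) - 1) / (d : ℝ)))
            atTop (𝓝 β)) →
      |β - Real.sqrt ((d : ℝ) / (2 * Real.pi * Real.exp 1)) *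
            (Real.pi * d) ^ (1 / (2 * (d : ℝ))) *
            (1 + (2 - Real.log 2 - 2 * Real.eulerMascheroniConstant) / d)|
        ≤ C * (Real.sqrt ((d : ℝ) / (2 * Real.pi * Real.exp 1)) *
            (Real.pi * d) ^ (1 / (2 * (d : ℝ)))) / (d : ℝ) ^ 2 := by
  obtain ⟨C1, D1, h1⟩ := hL
  obtain ⟨C2, D2, h2⟩ := hU
  obtain ⟨C0, D0, h0⟩ := vball_asymp
  set c : ℝ := 2 - Real.log 2 - 2 * Real.eulerMascheroniConstant with hc
  refine ⟨(|C1| + |C2|) * (1 + |C0|) + |C0| * (1 + |c|), max (max D0 2) (max D1 D2), ?_⟩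
  intro d hd β hβ
  have hd0 : D0 ≤ d := le_trans (le_trans (le_max_left _ _) (le_max_left _ _)) hd
  have hd2 : 2 ≤ d := le_trans (le_trans (le_max_right _ _) (le_max_left _ _)) hd
  have hd1' : D1 ≤ d := le_trans (le_trans (le_max_left _ _) (le_max_right _ _)) hd
  have hd2' : D2 ≤ d := le_trans (le_trans (le_max_right _ _) (le_max_right _ _)) hd
  have hlim := tendsto_poisTSP d hd2 β hβ
  have hdpos : (0 : ℝ) < d := by exact_mod_cast (by omega : 0 < d)
  have hd1r : (1 : ℝ) ≤ (d : ℝ) := by exact_mod_cast (by omega : 1 ≤ d)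
  have hv : |vball d ^ (-(1 / (d : ℝ))) - pref d| ≤ C0 * pref d / (d : ℝ) ^ 2 := h0 d hd0
  set v : ℝ := vball d ^ (-(1 / (d : ℝ))) with hvdef
  have hpref : 0 ≤ pref d := by
    unfold pref
    have : (0 : ℝ) ≤ Real.pi * d := by positivity
    exact mul_nonneg (Real.sqrt_nonneg _) (Real.rpow_nonneg this _)
  have hlow : v * (1 + c / d - C1 / (d : ℝ) ^ 2) ≤ β := by
    refine ge_of_tendsto hlim ?_
    filter_upwards [h1 d hd1', eventually_gt_atTop (0 : ℝ)] with l hl hl0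
    have hp : 0 < l ^ (((d : ℝ) - 1) / (d : ℝ)) := Real.rpow_pos_of_pos hl0 _
    rw [le_div_iff₀ hp]
    calc v * (1 + c / d - C1 / (d : ℝ) ^ 2) * l ^ (((d : ℝ) - 1) / (d : ℝ))
        = l ^ (((d : ℝ) - 1) / (d : ℝ)) * v * (1 + c / d - C1 / (d : ℝ) ^ 2) := by ring
      _ ≤ _ := hl
  have hupp : β ≤ v * (1 + c / d + C2 / (d : ℝ) ^ 2) := by
    refine le_of_tendsto hlim ?_
    filter_upwards [h2 d hd2', eventually_gt_atTop (0 : ℝ)] with l hl hl0
    have hp : 0 < l ^ (((d : ℝ) - 1) / (d : ℝ)) := Real.rpow_pos_of_pos hl0 _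
    rw [div_le_iff₀ hp]
    calc poisTSP d l ≤ _ := hl
      _ = _ := by ring
  have hD2 : 0 < (d : ℝ) ^ 2 := by positivity
  have hD2' : 1 ≤ (d : ℝ) ^ 2 := by nlinarith
  have hv0 : 0 ≤ v := by
    rw [hvdef]
    exact Real.rpow_nonneg ENNReal.toReal_nonneg _
  have hvle : v ≤ (1 + |C0|) * pref d := by
    have h3 := (abs_le.1 hv).2
    have h4 : C0 * pref d / (d : ℝ) ^ 2 ≤ |C0| * pref d := by
      rw [div_le_iff₀ hD2]
      calc C0 * pref d ≤ |C0| * pref d := mul_le_mul_of_nonneg_right (le_abs_self _) hpref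
        _ ≤ |C0| * pref d * (d : ℝ) ^ 2 := by
            exact le_mul_of_one_le_right (by positivity) hD2'
    linarith
  have hβv : |β - v * (1 + c / d)| ≤ v * ((|C1| + |C2|) / (d : ℝ) ^ 2) := by
    rw [abs_le]
    constructor
    · have h5 : v * (C1 / (d : ℝ) ^ 2) ≤ v * ((|C1| + |C2|) / (d : ℝ) ^ 2) := by
        refine mul_le_mul_of_nonneg_left ?_ hv0
        refine div_le_div_of_nonneg_right ?_ hD2.le
        linarith [le_abs_self C1, abs_nonneg C2]
      nlinarith [hlow, h5]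
    · have h5 : v * (C2 / (d : ℝ) ^ 2) ≤ v * ((|C1| + |C2|) / (d : ℝ) ^ 2) := by
        refine mul_le_mul_of_nonneg_left ?_ hv0
        refine div_le_div_of_nonneg_right ?_ hD2.le
        linarith [le_abs_self C2, abs_nonneg C1]
      nlinarith [hupp, h5]
  have hcd : |1 + c / d| ≤ 1 + |c| := by
    calc |1 + c / d| ≤ |(1 : ℝ)| + |c / d| := abs_add_le _ _
      _ ≤ 1 + |c| := by
          rw [abs_one, abs_div, abs_of_pos hdpos]
          have : |c| / (d : ℝ) ≤ |c| := div_le_self (abs_nonneg _) hd1r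
          linarith
  have hvp : |v * (1 + c / d) - pref d * (1 + c / d)|
      ≤ |C0| * pref d / (d : ℝ) ^ 2 * (1 + |c|) := by
    rw [← sub_mul, abs_mul]
    refine mul_le_mul ?_ hcd (abs_nonneg _) (by positivity)
    refine hv.trans ?_
    refine div_le_div_of_nonneg_right ?_ hD2.le
    exact mul_le_mul_of_nonneg_right (le_abs_self _) hpref
  have hfin : |β - pref d * (1 + c / d)|
      ≤ ((|C1| + |C2|) * (1 + |C0|) + |C0| * (1 + |c|)) * pref d / (d : ℝ) ^ 2 := by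
    calc |β - pref d * (1 + c / d)|
        ≤ |β - v * (1 + c / d)| + |v * (1 + c / d) - pref d * (1 + c / d)| := abs_sub_le _ _ _
      _ ≤ v * ((|C1| + |C2|) / (d : ℝ) ^ 2) + |C0| * pref d / (d : ℝ) ^ 2 * (1 + |c|) :=
          add_le_add hβv hvp
      _ ≤ (1 + |C0|) * pref d * ((|C1| + |C2|) / (d : ℝ) ^ 2)
          + |C0| * pref d / (d : ℝ) ^ 2 * (1 + |c|) := by
          gcongr
      _ = _ := by ring
  exact hfin

end Pool.Agent.TSPd97
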