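import Pool.Agent.TSPd97.UpDefs

/-!
MP_076557_pr, package DG: deterministic facts on the selected graph.
-/

set_option autoImplicit false

open MeasureTheory Set Filter Topology
open scoped ENNReal

namespace Pool.Agent.TSPd97

namespace DG

/-! ### levels of the messages -/

lemma upd_zero (p : Par) (ξ : Multiset (ℝ × (ℕ → ℝ))) : upd p ξ 0 = p.m := by
  simp [upd]

lemma upd_succ (p : Par) (ξ : Multiset (ℝ × (ℕ → ℝ))) {j : ℕ} (hj : j + 1 ≤ 2 * p.k) :
    upd p ξ (j + 1) = os 1 p.B (ξ.map fun q => q.1 / q.2 j) := by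
  simp [upd, hj]

lemma upd_large (p : Par) (ξ : Multiset (ℝ × (ℕ → ℝ))) {j : ℕ} (hj : 2 * p.k < j) :
    upd p ξ j = 0 := by
  unfold upd
  rw [if_neg (by omega), if_neg (by omega)]

lemma msg_large (p : Par) {d : ℕ} (K : ℝ) (h : ℕ) (P : Multiset (Vd d)) (v u : Vd d) {j : ℕ}
    (hj : 2 * p.k < j) : msg (vinit p) (upd p) K (p.B ^ 2) h P v u j = 0 := by
  cases h with
  | zero =>
    change vinit p j = 0
    unfold vinit
    rw [if_neg (by omega)]
  | succ h => rw [msg_succ, upd_large p _ hj]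

lemma msg_level (p : Par) {d : ℕ} (K : ℝ) (P : Multiset (Vd d)) (h : ℕ) :
    ∀ (v u : Vd d) (j : ℕ), j ≤ h → j ≤ 2 * p.k →
      msg (vinit p) (upd p) K (p.B ^ 2) (h + 1) P v u j
        = msg (vinit p) (upd p) K (p.B ^ 2) h P v u j := by
  induction h with
  | zero =>
    intro v u j hj hj2
    obtain rfl : j = 0 := by omega
    rw [msg_succ, upd_zero]
    change p.m = vinit p 0
    simp [vinit]
  | succ h ih =>
    intro v u j hj hj2
    rw [msg_succ, msg_succ]
    cases j with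
    | zero => rw [upd_zero, upd_zero]
    | succ j =>
      rw [upd_succ p _ hj2, upd_succ p _ hj2]
      congr 1
      unfold nbm
      rw [Multiset.map_map, Multiset.map_map]
      refine Multiset.map_congr rfl fun z _ => ?_
      simp only [Function.comp_apply]
      rw [ih z v j (by omega) (by omega)]

lemma msg_pos (p : Par) {d : ℕ} (K : ℝ) (P : Multiset (Vd d)) (h : ℕ) :
    ∀ (v u : Vd d) (j : ℕ), j ≤ 2 * p.k →
      0 < msg (vinit p) (upd p) K (p.B ^ 2) h P v u j := by
  have hm : 0 < p.m := lt_of_lt_of_le one_pos p.hm1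
  have hB : 0 < p.B := lt_of_lt_of_le (by have := p.hk; exact_mod_cast (by omega : 0 < p.k)) p.hkB
  induction h with
  | zero =>
    intro v u j hj
    change 0 < vinit p j
    unfold vinit
    rw [if_pos hj]
    exact hm
  | succ h ih =>
    intro v u j hj
    rw [msg_succ]
    cases j with
    | zero => rw [upd_zero]; exact hm
    | succ j =>
      rw [upd_succ p _ hj]
      refine os_pos hB ?_
      intro a ha
      rw [Multiset.mem_map] at ha
      obtain ⟨q, hq, rfl⟩ := ha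
      unfold nbm at hq
      rw [Multiset.mem_map] at hq
      obtain ⟨z, hz, rfl⟩ := hq
      exact div_pos (mem_restr.1 hz).2.1.1 (ih z v j (by omega))

lemma wbar_pos (p : Par) (w : ℕ → ℝ) (hw : ∀ j, j ≤ 2 * p.k → 0 < w j) : 0 < wbar p w := by
  have hk := p.hk
  unfold wbar
  refine div_pos (Finset.sum_pos (fun j hj => hw j ?_) ?_) (by exact_mod_cast (by omega : 0 < p.k))
  · rw [Finset.mem_Ico] at hj; omega
  · exact ⟨p.k, by rw [Finset.mem_Ico]; omega⟩

end DG

open DG

theorem msg_stable (p : Par) {d : ℕ} (K : ℝ) (h : ℕ) (hh : 2 * p.k ≤ h)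
    (P : Multiset (Vd d)) (v u : Vd d) :
    msg (vinit p) (upd p) K (p.B ^ 2) (h + 1) P v u
      = msg (vinit p) (upd p) K (p.B ^ 2) h P v u := by
  funext j
  rcases Nat.lt_or_ge (2 * p.k) j with hj | hj
  · rw [msg_large p K _ P v u hj, msg_large p K _ P v u hj]
  · exact msg_level p K P h v u j (by omega) hj

namespace DG

lemma map_fg_nbm (p : Par) {d : ℕ} (K : ℝ) (h : ℕ) (P : Multiset (Vd d)) (v u : Vd d)
    (ih : ∀ z, (msg (vinitx p) (updx p) K (p.B ^ 2) h P z v).1
      = msg (vinit p) (upd p) K (p.B ^ 2) h P z v) :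
    (nbm (vinitx p) (updx p) K (p.B ^ 2) h P v u).map fg
      = nbm (vinit p) (upd p) K (p.B ^ 2) h P v u := by
  unfold nbm
  rw [Multiset.map_map]
  refine Multiset.map_congr rfl fun z _ => ?_
  simp only [Function.comp_apply, fg]
  rw [ih z]

lemma msgx_fst (p : Par) {d : ℕ} (K : ℝ) (P : Multiset (Vd d)) (h : ℕ) :
    ∀ v u : Vd d, (msg (vinitx p) (updx p) K (p.B ^ 2) h P v u).1
      = msg (vinit p) (upd p) K (p.B ^ 2) h P v u := by
  induction h with
  | zero => intro v u; rfl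
  | succ h ih =>
    intro v u
    rw [msg_succ, msg_succ]
    change upd p ((nbm (vinitx p) (updx p) K (p.B ^ 2) h P v u).map fg) = _
    rw [map_fg_nbm p K h P v u fun z => ih z v]

lemma msgx_succ (p : Par) {d : ℕ} (K : ℝ) (P : Multiset (Vd d)) (h : ℕ) (v u : Vd d) :
    msg (vinitx p) (updx p) K (p.B ^ 2) (h + 1) P v u
      = (upd p (nbm (vinit p) (upd p) K (p.B ^ 2) h P v u),
        qthr p (nbm (vinit p) (upd p) K (p.B ^ 2) h P v u)) := by
  rw [msg_succ]
  change (upd p ((nbm (vinitx p) (updx p) K (p.B ^ 2) h P v u).map fg),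
    qthr p ((nbm (vinitx p) (updx p) K (p.B ^ 2) h P v u).map fg)) = _
  rw [map_fg_nbm p K h P v u fun z => msgx_fst p K P h z v]

lemma nbm_stable (p : Par) {d : ℕ} (K : ℝ) (h : ℕ) (hh : 2 * p.k ≤ h)
    (P : Multiset (Vd d)) (v u : Vd d) :
    nbm (vinit p) (upd p) K (p.B ^ 2) (h + 1) P v u
      = nbm (vinit p) (upd p) K (p.B ^ 2) h P v u := by
  unfold nbm
  refine Multiset.map_congr rfl fun z _ => ?_
  rw [msg_stable p K h hh P z v]

end DG

theorem msgx_stable (p : Par) {d : ℕ} (K : ℝ) (h : ℕ) (hh : 2 * p.k + 1 ≤ h)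
    (P : Multiset (Vd d)) (v u : Vd d) :
    msg (vinitx p) (updx p) K (p.B ^ 2) (h + 1) P v u
      = msg (vinitx p) (updx p) K (p.B ^ 2) h P v u := by
  obtain ⟨g, rfl⟩ : ∃ g, h = g + 1 := ⟨h - 1, by omega⟩
  rw [msgx_succ, msgx_succ, nbm_stable p K g (by omega)]

theorem FE_symm (p : Par) {d : ℕ} (K : ℝ) (h : ℕ) (P : Multiset (Vd d)) (x y : Vd d)
    (hxy : FE p K h P x y) : FE p K h P y x := by
  obtain ⟨⟨h1, h2⟩, h3⟩ := hxy
  refine ⟨⟨by rw [sd_comm]; exact h1, by rw [sd_comm]; exact h2⟩, ?_⟩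
  unfold sel at h3 ⊢
  rw [sd_comm, min_comm]
  exact h3

theorem FE_ne (p : Par) {d : ℕ} (hd : 1 ≤ d) (K : ℝ) (h : ℕ) (P : Multiset (Vd d)) (x : Vd d) :
    ¬ FE p K h P x x := by
  rintro ⟨⟨h1, _⟩, _⟩
  rw [sd_self hd] at h1
  exact lt_irrefl _ h1

namespace DG

/-- the normalised length of `z` seen from `x` -/
noncomputable def fx (p : Par) {d : ℕ} (K : ℝ) (h : ℕ) (P : Multiset (Vd d)) (x z : Vd d) : ℝ :=
  sd K x z / wbar p (msg (vinit p) (upd p) K (p.B ^ 2) h P z x)

lemma qthr_nbm (p : Par) {d : ℕ} (K : ℝ) (h : ℕ) (P : Multiset (Vd d)) (x y : Vd d) :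
    qthr p (nbm (vinit p) (upd p) K (p.B ^ 2) h P x y)
      = os 1 p.B ((restr (Nb K (p.B ^ 2) x \ {y}) P).map (fx p K h P x)) := by
  unfold qthr nbm
  rw [Multiset.map_map]
  rfl

lemma FE_lt (p : Par) {d : ℕ} (K : ℝ) (h : ℕ) (hh : 2 * p.k + 1 ≤ h) (P : Multiset (Vd d))
    (x y : Vd d) (hxy : FE p K h P x y) :
    fx p K h P x y < os 1 p.B ((restr (Nb K (p.B ^ 2) x \ {y}) P).map (fx p K h P x)) := by
  have hw : 0 < wbar p (msg (vinit p) (upd p) K (p.B ^ 2) h P y x) :=
    wbar_pos p _ fun j hj => msg_pos p K P h y x j hj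
  obtain ⟨_, h2⟩ := hxy
  unfold sel at h2
  have h3 := (lt_min_iff.1 h2).1
  rw [msgx_fst] at h3
  have h4 : (msg (vinitx p) (updx p) K (p.B ^ 2) h P x y).2
      = os 1 p.B ((restr (Nb K (p.B ^ 2) x \ {y}) P).map (fx p K h P x)) := by
    rw [← msgx_stable p K h hh, msgx_succ]
    exact qthr_nbm p K h P x y
  rw [h4] at h3
  unfold fx at h3 ⊢
  rw [div_lt_iff₀ hw, mul_comm]
  exact h3

end DG

theorem FE_degree (p : Par) {d : ℕ} (hd : 1 ≤ d) {K : ℝ} (hK : 0 < K) (h : ℕ)
    (hh : 2 * p.k + 1 ≤ h) (P : Multiset (Vd d)) (hP : P.Nodup) (x : Vd d) :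
    Multiset.card (restr {y | FE p K h P x y} P) ≤ 2 := by
  classical
  by_contra hcon
  push Not at hcon
  set T := restr {y | FE p K h P x y} P with hT
  have hTn : T.Nodup := by
    rw [hT, restr_def]; exact hP.filter _
  have hne : T.toFinset.Nonempty := by
    obtain ⟨y, hy⟩ := Multiset.card_pos_iff_exists_mem.1 (lt_trans two_pos hcon)
    exact ⟨y, Multiset.mem_toFinset.2 hy⟩
  obtain ⟨y, hy, hmax⟩ := T.toFinset.exists_max_image (fx p K h P x) hne
  rw [Multiset.mem_toFinset] at hy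
  have hy' := mem_restr.1 hy
  have h1 := FE_lt p K h hh P x y hy'.2
  rw [lt_os_iff, restr_map] at h1
  have h2 := h1.2
  rw [Multiset.card_map] at h2
  have h3 : T.erase y ≤ restr (fx p K h P x ⁻¹' Iic (fx p K h P x y))
      (restr (Nb K (p.B ^ 2) x \ {y}) P) := by
    rw [Multiset.le_iff_subset (hTn.erase y)]
    intro z hz
    have hz1 : z ≠ y := fun e => by
      rw [e] at hz
      exact (Multiset.Nodup.notMem_erase hTn) hz
    have hz2 := Multiset.mem_of_mem_erase hz
    have hz3 := mem_restr.1 hz2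
    refine mem_restr.2 ⟨mem_restr.2 ⟨hz3.1, hz3.2.1, hz1⟩, ?_⟩
    exact hmax z (Multiset.mem_toFinset.2 hz2)
  have h4 := Multiset.card_le_card h3
  rw [Multiset.card_erase_of_mem hy] at h4
  have h5 : Multiset.card T - 1 ≤ 1 := h4.trans h2
  omega

namespace DG

lemma nodup_restr {E : Type*} (A : Set E) {P : Multiset E} (hP : P.Nodup) :
    (restr A P).Nodup := by
  classical
  rw [restr_def]; exact hP.filter _

lemma restr_erase {E : Type*} [DecidableEq E] {A : Set E} {P : Multiset E} (hP : P.Nodup)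
    (z : E) : (restr A P).erase z = restr (A \ {z}) P := by
  have h1 := nodup_restr A hP
  have h2 := nodup_restr (A \ {z}) hP
  rw [Multiset.Nodup.ext (h1.erase z) h2]
  intro a
  rw [h1.mem_erase_iff, mem_restr, mem_restr]
  simp only [Set.mem_sdiff, mem_singleton_iff]
  tauto

lemma esum_map {E E' : Type*} [DecidableEq E'] (F : E → Multiset E → ℝ) (g : E' → E)
    (s : Multiset E') : esum F (s.map g) = (s.map fun z => F (g z) ((s.erase z).map g)).sum := by
  classical
  unfold esum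
  rw [Multiset.map_map]
  congr 1
  refine Multiset.map_congr rfl fun z hz => ?_
  simp only [Function.comp_apply]
  congr 1
  convert (Multiset.map_erase_of_mem g _ hz).symm

lemma Nb_diff_self {d : ℕ} (hd : 1 ≤ d) (K S : ℝ) (x : Vd d) : Nb K S x \ {x} = Nb K S x := by
  ext z
  simp only [Set.mem_sdiff, mem_singleton_iff, and_iff_left_iff_imp]
  rintro ⟨h1, _⟩ rfl
  rw [sd_self hd] at h1
  exact lt_irrefl _ h1

lemma sum_ite_restr {E : Type*} (A B : Set E) [DecidablePred (· ∈ B)] (hBA : B ⊆ A) (f : E → ℝ)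
    (P : Multiset E) :
    ((restr A P).map fun z => if z ∈ B then f z else 0).sum = ((restr B P).map f).sum := by
  classical
  induction P using Multiset.induction_on with
  | empty => simp
  | cons a s ih =>
    by_cases hB : a ∈ B
    · rw [restr_cons_mem s (hBA hB), restr_cons_mem s hB]
      simp [hB, ih]
    · by_cases hA : a ∈ A
      · rw [restr_cons_mem s hA, restr_cons_not_mem s hB]
        simp [hB, ih]
      · rw [restr_cons_not_mem s hA, restr_cons_not_mem s hB]
        exact ih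

/-- sums over the marked neighbourhood as sums over the selected neighbours -/
lemma esum_nbm (p : Par) {d : ℕ} (hd : 1 ≤ d) {K : ℝ} (h : ℕ)
    (hh : 2 * p.k + 1 ≤ h) (P : Multiset (Vd d)) (hP : P.Nodup) (x : Vd d)
    (c : ℝ → ℝ) (F : (ℝ × ((ℕ → ℝ) × ℝ)) → Multiset (ℝ × ((ℕ → ℝ) × ℝ)) → ℝ)
    (hF : ∀ q ζ, (sel p q.1 (updx p ζ) q.2 → F q ζ = c q.1) ∧
      (¬ sel p q.1 (updx p ζ) q.2 → F q ζ = 0)) :
    esum F (nbm (vinitx p) (updx p) K (p.B ^ 2) h P x x)
      = ((restr {y | FE p K h P x y} P).map fun y => c (sd K x y)).sum := by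
  classical
  set g : Vd d → ℝ × ((ℕ → ℝ) × ℝ) :=
    fun z => (sd K x z, msg (vinitx p) (updx p) K (p.B ^ 2) h P z x) with hg
  have h0 : nbm (vinitx p) (updx p) K (p.B ^ 2) h P x x = (restr (Nb K (p.B ^ 2) x) P).map g := by
    unfold nbm
    rw [Nb_diff_self hd]
  rw [h0, esum_map]
  have h1 : ((restr (Nb K (p.B ^ 2) x) P).map
      (fun z => F (g z) (((restr (Nb K (p.B ^ 2) x) P).erase z).map g)))
      = (restr (Nb K (p.B ^ 2) x) P).map
        (fun z => if z ∈ {y | FE p K h P x y} then c (sd K x z) else 0) := by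
    refine Multiset.map_congr rfl fun z hz => ?_
    have h2 : ((restr (Nb K (p.B ^ 2) x) P).erase z).map g
        = nbm (vinitx p) (updx p) K (p.B ^ 2) h P x z := by
      rw [restr_erase hP]
      rfl
    rw [h2]
    have h3 : updx p (nbm (vinitx p) (updx p) K (p.B ^ 2) h P x z)
        = msg (vinitx p) (updx p) K (p.B ^ 2) h P x z :=
      (msg_succ (vinitx p) (updx p) K (p.B ^ 2) h P x z).symm.trans (msgx_stable p K h hh P x z)
    have h4 := hF (g z) (nbm (vinitx p) (updx p) K (p.B ^ 2) h P x z)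
    rw [h3] at h4
    have hz' := (mem_restr.1 hz).2
    by_cases hs : FE p K h P x z
    · rw [if_pos (show z ∈ {y | FE p K h P x y} from hs)]
      exact h4.1 hs.2
    · rw [if_neg (show ¬ z ∈ {y | FE p K h P x y} from hs)]
      exact h4.2 fun h5 => hs ⟨hz', h5⟩
  rw [h1]
  exact sum_ite_restr (Nb K (p.B ^ 2) x) {y | FE p K h P x y} (fun y hy => hy.1)
    (fun z => c (sd K x z)) P

end DG

theorem dfun_nbm (p : Par) {d : ℕ} (hd : 1 ≤ d) {K : ℝ} (hK : 0 < K) (h : ℕ)
    (hh : 2 * p.k + 1 ≤ h) (P : Multiset (Vd d)) (hP : P.Nodup) (x : Vd d) (hx : x ∈ P) :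
    dfun p (nbm (vinitx p) (updx p) K (p.B ^ 2) h P x x)
      = (Multiset.card (restr {y | FE p K h P x y} P) : ℝ) := by
  unfold dfun
  rw [esum_nbm p hd h hh P hP x (fun _ => 1) _
    (fun q ζ => ⟨fun hs => if_pos hs, fun hs => if_neg hs⟩)]
  simp

theorem cfun_nbm (p : Par) {d : ℕ} (hd : 1 ≤ d) {K : ℝ} (hK : 0 < K) (h : ℕ)
    (hh : 2 * p.k + 1 ≤ h) (P : Multiset (Vd d)) (hP : P.Nodup) (x : Vd d) (hx : x ∈ P) :
    cfun p d (nbm (vinitx p) (updx p) K (p.B ^ 2) h P x x)
      = ((restr {y | FE p K h P x y} P).map fun y => (sd K x y) ^ (1 / (d : ℝ)) / 2).sum := by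
  unfold cfun
  exact esum_nbm p hd h hh P hP x (fun s => s ^ (1 / (d : ℝ)) / 2) _
    (fun q ζ => ⟨fun hs => if_pos hs, fun hs => if_neg hs⟩)

namespace DG

lemma meas_wbar (p : Par) : Measurable (wbar p) := by
  unfold wbar
  exact (Finset.measurable_sum _ fun j _ => measurable_pi_apply j).div_const _

lemma meas_qthr (p : Par) : Measurable (qthr p) := by
  unfold qthr
  refine (measurable_os 1 p.B).comp (measurable_map_multiset ?_)
  exact measurable_fst.div ((meas_wbar p).comp measurable_snd)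

lemma meas_fg : Measurable fg := by
  unfold fg
  exact measurable_fst.prodMk (measurable_fst.comp measurable_snd)

lemma meas_updx (p : Par) : Measurable (updx p) := by
  unfold updx
  exact ((measurable_upd p).comp (measurable_map_multiset meas_fg)).prodMk
    ((meas_qthr p).comp (measurable_map_multiset meas_fg))

end DG

theorem measurableSet_FE (p : Par) {d : ℕ} (K : ℝ) (h : ℕ) :
    MeasurableSet {t : Multiset (Vd d) × Vd d × Vd d | FE p K h t.1 t.2.1 t.2.2} := by
  have hx : Measurable fun t : Multiset (Vd d) × Vd d × Vd d => t.2.1 :=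
    measurable_fst.comp measurable_snd
  have hy : Measurable fun t : Multiset (Vd d) × Vd d × Vd d => t.2.2 :=
    measurable_snd.comp measurable_snd
  have h1 : MeasurableSet {t : Multiset (Vd d) × Vd d × Vd d | t.2.2 ∈ Nb K (p.B ^ 2) t.2.1} :=
    measurableSet_Nb_prod hx hy
  have ha : Measurable fun t : Multiset (Vd d) × Vd d × Vd d =>
      msg (vinitx p) (updx p) K (p.B ^ 2) h t.1 t.2.1 t.2.2 :=
    measurable_msg (vinitx p) (meas_updx p) K (p.B ^ 2) h (P := fun t => t.1) measurable_fst hx hy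
  have hb : Measurable fun t : Multiset (Vd d) × Vd d × Vd d =>
      msg (vinitx p) (updx p) K (p.B ^ 2) h t.1 t.2.2 t.2.1 :=
    measurable_msg (vinitx p) (meas_updx p) K (p.B ^ 2) h (P := fun t => t.1) measurable_fst hy hx
  have hs : Measurable fun t : Multiset (Vd d) × Vd d × Vd d => sd K t.2.1 t.2.2 :=
    measurable_sd hx hy
  have h2 : MeasurableSet {t : Multiset (Vd d) × Vd d × Vd d | sel p (sd K t.2.1 t.2.2)
      (msg (vinitx p) (updx p) K (p.B ^ 2) h t.1 t.2.1 t.2.2)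
      (msg (vinitx p) (updx p) K (p.B ^ 2) h t.1 t.2.2 t.2.1)} := by
    unfold sel
    refine measurableSet_lt hs (Measurable.min ?_ ?_)
    · exact ((meas_wbar p).comp (measurable_fst.comp hb)).mul (measurable_snd.comp ha)
    · exact ((meas_wbar p).comp (measurable_fst.comp ha)).mul (measurable_snd.comp hb)
  exact h1.inter h2

/-- the full neighbourhood of `v` in terms of the neighbourhoods of `v` without `w` and of `w`
without `v` -/
theorem nbm_pair (p : Par) {d : ℕ} (hd : 1 ≤ d) {K : ℝ} (hK : 0 < K) (h : ℕ)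
    (hh : 2 * p.k ≤ h) (P : Multiset (Vd d)) (hP : P.Nodup) (v w : Vd d) (hw : w ∈ P)
    (hvw : w ∈ Nb K (p.B ^ 2) v) :
    nbm (vinit p) (upd p) K (p.B ^ 2) h P v v
      = (sd K v w, upd p (nbm (vinit p) (upd p) K (p.B ^ 2) h P w v)) ::ₘ
          nbm (vinit p) (upd p) K (p.B ^ 2) h P v w := by
  classical
  have h1 : restr (Nb K (p.B ^ 2) v) P = w ::ₘ restr (Nb K (p.B ^ 2) v \ {w}) P := by
    rw [← restr_erase hP, Multiset.cons_erase (mem_restr.2 ⟨hw, hvw⟩)]
  have h2 : upd p (nbm (vinit p) (upd p) K (p.B ^ 2) h P w v)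
      = msg (vinit p) (upd p) K (p.B ^ 2) h P w v :=
    (msg_succ (vinit p) (upd p) K (p.B ^ 2) h P w v).symm.trans (msg_stable p K h hh P w v)
  rw [h2]
  conv_lhs => unfold nbm
  rw [Nb_diff_self hd, h1, Multiset.map_cons]
  rfl

end Pool.Agent.TSPd97
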