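import Pool.Agent.TSPd97.TreeDefs

/-!
MP_076557_pr, package TAa: the one-level laws (`rate_law`, `mu_pos`, `os_tail`, `mu_mean`).
-/

set_option autoImplicit false

open MeasureTheory Set
open scoped ENNReal

namespace Pool.Agent.TSPd97

/-! ### rate law -/

lemma measurable_div_weight {M : Type*} [MeasurableSpace M] {g : M → ℝ} (hg : Measurable g) :
    Measurable fun q : ℝ × M => q.1 / g q.2 :=
  measurable_fst.div (hg.comp measurable_snd)

lemma rate_law_measure {M : Type*} [MeasurableSpace M] (μ : Measure M) [IsProbabilityMeasure μ]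
    (B : ℝ) (hB : 0 < B) (g : M → ℝ) (hg : Measurable g)
    (hpos : ∀ᵐ w ∂μ, 0 < g w ∧ g w ≤ B) :
    (((leb (B ^ 2)).prod μ).map fun q : ℝ × M => q.1 / g q.2).restrict (Iio B)
      = ENNReal.ofReal (∫ w, g w ∂μ) • (volume.restrict (Ioo 0 B)) := by
  have hmeas := measurable_div_weight hg
  refine Measure.ext (fun S hS => ?_)
  rw [Measure.restrict_apply hS, Measure.map_apply hmeas (hS.inter measurableSet_Iio),
    Measure.prod_apply_symm (hmeas (hS.inter measurableSet_Iio))]
  have hT : MeasurableSet (S ∩ Ioo 0 B) := hS.inter measurableSet_Ioo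
  have hint : Integrable g μ := by
    refine Integrable.of_bound hg.aestronglyMeasurable B ?_
    filter_upwards [hpos] with w hw
    rw [Real.norm_eq_abs, abs_of_pos hw.1]
    exact hw.2
  have h1 : ∀ᵐ w ∂μ, (leb (B ^ 2)) ((fun x => (x, w)) ⁻¹'
      ((fun q : ℝ × M => q.1 / g q.2) ⁻¹' (S ∩ Iio B)))
      = ENNReal.ofReal (g w) * volume (S ∩ Ioo 0 B) := by
    filter_upwards [hpos] with w hw
    have h2 : ((fun x => (x, w)) ⁻¹' ((fun q : ℝ × M => q.1 / g q.2) ⁻¹' (S ∩ Iio B)))
        = (fun x : ℝ => x * (g w)⁻¹) ⁻¹' (S ∩ Iio B) := by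
      ext x
      simp [div_eq_mul_inv]
    rw [h2]
    unfold leb
    have hm2 : MeasurableSet ((fun x : ℝ => x * (g w)⁻¹) ⁻¹' (S ∩ Iio B)) :=
      (measurable_id.mul_const _) (hS.inter measurableSet_Iio)
    rw [Measure.restrict_apply hm2]
    have h3 : (fun x : ℝ => x * (g w)⁻¹) ⁻¹' (S ∩ Iio B) ∩ Ioc 0 (B ^ 2)
        = (fun x : ℝ => x * (g w)⁻¹) ⁻¹' (S ∩ Ioo 0 B) := by
      ext x
      simp only [mem_inter_iff, mem_preimage, mem_Iio, mem_Ioc, mem_Ioo]
      have hgi : 0 < (g w)⁻¹ := inv_pos.mpr hw.1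
      constructor
      · rintro ⟨⟨hxS, hxB⟩, hx0, _⟩
        exact ⟨hxS, mul_pos hx0 hgi, hxB⟩
      · rintro ⟨hxS, hx0, hxB⟩
        have hx0' : 0 < x := by
          by_contra h
          have := mul_nonpos_of_nonpos_of_nonneg (not_lt.mp h) hgi.le
          linarith
        refine ⟨⟨hxS, hxB⟩, hx0', ?_⟩
        rw [← div_eq_mul_inv, div_lt_iff₀ hw.1] at hxB
        nlinarith
    rw [h3, Real.volume_preimage_mul_right (inv_ne_zero hw.1.ne'), inv_inv, abs_of_pos hw.1]
  rw [lintegral_congr_ae h1, lintegral_mul_const _ hg.ennreal_ofReal,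
    ← ofReal_integral_eq_lintegral_ofReal hint (by
      filter_upwards [hpos] with w hw
      exact hw.1.le)]
  rw [Measure.smul_apply, Measure.restrict_apply hS, smul_eq_mul]

/-- TA0: for a weight `g` of mean `r` with `0 < g ≤ B` a.s., the values `s / g` below `B`
form a Poisson process of rate `r` (general probability measure `μ` on any space). -/
theorem rate_law {M : Type*} [MeasurableSpace M] (μ : Measure M) [IsProbabilityMeasure μ]
    (B : ℝ) (hB : 0 < B) (g : M → ℝ) (hg : Measurable g)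
    (hpos : ∀ᵐ w ∂μ, 0 < g w ∧ g w ≤ B) :
    (PP ((leb (B ^ 2)).prod μ)).map (fun ξ => restr (Iio B) (ξ.map fun q => q.1 / g q.2))
      = PP (ENNReal.ofReal (∫ w, g w ∂μ) • (volume.restrict (Ioo 0 B))) := by
  have hmeas := measurable_div_weight hg
  have hfin : IsFiniteMeasure (((leb (B ^ 2)).prod μ).map fun q : ℝ × M => q.1 / g q.2) :=
    Measure.isFiniteMeasure_map _ _
  have h1 := PP_map ((leb (B ^ 2)).prod μ) hmeas
  have h2 := PP_restr (((leb (B ^ 2)).prod μ).map fun q : ℝ × M => q.1 / g q.2)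
    (measurableSet_Iio (a := B))
  have hr : Measurable (restr (Iio B) : Multiset ℝ → Multiset ℝ) :=
    measurable_restr_const measurableSet_Iio measurable_id
  rw [← h1, Measure.map_map hr (measurable_map_multiset hmeas),
    rate_law_measure μ B hB g hg hpos] at h2
  exact h2

/-! ### positivity -/

lemma Par.B_pos (p : Par) : 0 < p.B := by
  have h1 := p.hk
  have h2 := p.hkB
  have h3 : (8 : ℝ) ≤ p.k := by exact_mod_cast h1
  linarith

lemma Par.eight_le_B (p : Par) : 8 ≤ p.B := by
  have h1 := p.hk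
  have h2 := p.hkB
  have h3 : (8 : ℝ) ≤ p.k := by exact_mod_cast h1
  linarith

lemma Par.m_pos (p : Par) : 0 < p.m := by linarith [p.hm1]

lemma Par.m_le_two (p : Par) : p.m ≤ 2 := by
  have h := p.hm
  have h1 : 0 ≤ (p.m * p.B + 2) * Real.exp (-(p.m * p.B)) := by
    have := mul_pos p.m_pos p.B_pos
    positivity
  nlinarith [p.hm1]

lemma Par.m_le_B (p : Par) : p.m ≤ p.B := by linarith [p.m_le_two, p.eight_le_B]

/-- TA1 -/
theorem mu_pos (p : Par) (h j : ℕ) (hj : j ≤ 2 * p.k) :
    ∀ᵐ w ∂(mu p h), 0 < w j ∧ w j ≤ p.B := by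
  have hset : ∀ j : ℕ, MeasurableSet {w : ℕ → ℝ | 0 < w j ∧ w j ≤ p.B} := fun j =>
    (measurableSet_lt measurable_const (measurable_pi_apply j)).inter
      (measurableSet_le (measurable_pi_apply j) measurable_const)
  induction h generalizing j with
  | zero =>
    unfold mu
    rw [ae_dirac_iff (hset j)]
    unfold vinit
    rw [if_pos hj]
    exact ⟨p.m_pos, p.m_le_B⟩
  | succ h ih =>
    unfold mu
    rw [ae_map_iff (measurable_upd p).aemeasurable (hset j)]
    by_cases hj0 : j = 0
    · refine Filter.Eventually.of_forall (fun ξ => ?_)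
      unfold upd
      rw [if_pos hj0]
      exact ⟨p.m_pos, p.m_le_B⟩
    · have hA : MeasurableSet {q : ℝ × (ℕ → ℝ) | 0 < q.1 ∧ 0 < q.2 (j - 1)} :=
        (measurableSet_lt measurable_const measurable_fst).inter
          (measurableSet_lt measurable_const ((measurable_pi_apply (j - 1)).comp measurable_snd))
      have h1 : ∀ᵐ q ∂((leb (p.B ^ 2)).prod (mu p h)), 0 < q.1 ∧ 0 < q.2 (j - 1) := by
        have ha : ∀ᵐ s ∂(leb (p.B ^ 2)), 0 < s := by
          unfold leb
          filter_upwards [ae_restrict_mem measurableSet_Ioc] with s hs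
          exact hs.1
        have hb := ih (j - 1) (by omega)
        have ha' := (Measure.quasiMeasurePreserving_fst (μ := leb (p.B ^ 2))
          (ν := mu p h)).ae ha
        have hb' := (Measure.quasiMeasurePreserving_snd (μ := leb (p.B ^ 2))
          (ν := mu p h)).ae hb
        filter_upwards [ha', hb'] with q hq1 hq2
        exact ⟨hq1, hq2.1⟩
      have h2 := ae_PP_forall ((leb (p.B ^ 2)).prod (mu p h)) hA (by
        rw [ae_iff] at h1
        exact h1)
      filter_upwards [h2] with ξ hξ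
      unfold upd
      rw [if_neg hj0, if_pos hj]
      refine ⟨os_pos p.B_pos ?_, os_le _ _ _⟩
      intro a ha
      rw [Multiset.mem_map] at ha
      obtain ⟨q, hq, rfl⟩ := ha
      exact div_pos (hξ q hq).1 (hξ q hq).2

/-! ### order statistics of a Poisson process of constant rate -/

instance rate_finite (r B : ℝ) :
    IsFiniteMeasure (ENNReal.ofReal r • (volume.restrict (Ioo (0 : ℝ) B))) := by
  refine ⟨?_⟩
  rw [Measure.smul_apply, Measure.restrict_apply_univ, Real.volume_Ioo, smul_eq_mul]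
  exact ENNReal.mul_lt_top ENNReal.ofReal_lt_top ENNReal.ofReal_lt_top

/-- the order statistics only depend on the points below the cap -/
lemma os_restr (i : ℕ) (B : ℝ) (s : Multiset ℝ) : os i B (restr (Iio B) s) = os i B s := by
  have key : ∀ t < B, Iic t ∩ Iio B = Iic t := fun t ht =>
    Set.inter_eq_self_of_subset_left (fun x hx => lt_of_le_of_lt (mem_Iic.mp hx) ht)
  refine le_antisymm (le_of_forall_lt fun t ht => ?_) (le_of_forall_lt fun t ht => ?_)
  · rw [lt_os_iff] at ht ⊢
    rw [restr_restr, key t ht.1] at ht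
    exact ht
  · rw [lt_os_iff] at ht ⊢
    rw [restr_restr, key t ht.1]
    exact ht

lemma os_tail' (r B : ℝ) (hr : 0 < r) (i : ℕ) (t : ℝ) (ht0 : 0 ≤ t) (htB : t < B) :
    (PP (ENNReal.ofReal r • (volume.restrict (Ioo 0 B)))) {s | t < os i B s}
      = ENNReal.ofReal (Real.exp (-(r * t)) *
        ∑ l ∈ Finset.range (i + 1), (r * t) ^ l / (l.factorial : ℝ)) := by
  set ν : Measure ℝ := ENNReal.ofReal r • (volume.restrict (Ioo 0 B)) with hν
  have hνA : ν (Iic t) = ENNReal.ofReal (r * t) := by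
    rw [hν, Measure.smul_apply, Measure.restrict_apply measurableSet_Iic, smul_eq_mul]
    have h1 : Iic t ∩ Ioo 0 B = Ioc 0 t := by
      ext x
      simp only [mem_inter_iff, mem_Iic, mem_Ioo, mem_Ioc]
      constructor
      · rintro ⟨h1, h2, h3⟩; exact ⟨h2, h1⟩
      · rintro ⟨h1, h2⟩; exact ⟨h2, h1, lt_of_le_of_lt h2 htB⟩
    rw [h1, Real.volume_Ioc, sub_zero, ← ENNReal.ofReal_mul hr.le]
  have hset : {s : Multiset ℝ | t < os i B s}
      = ⋃ l ∈ Finset.range (i + 1), {s | Multiset.card (restr (Iic t) s) = l} := by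
    ext s
    simp only [mem_ofPred_eq, lt_os_iff, Finset.mem_range, mem_iUnion, exists_prop]
    constructor
    · rintro ⟨_, h⟩; exact ⟨_, by omega, rfl⟩
    · rintro ⟨l, hl, h⟩; exact ⟨htB, by omega⟩
  have hm : Measurable fun s : Multiset ℝ => Multiset.card (restr (Iic t) s) :=
    measurable_mcard (measurable_restr_const measurableSet_Iic measurable_id)
  rw [hset, measure_biUnion_finset]
  · have hrt : 0 ≤ r * t := mul_nonneg hr.le ht0
    have h2 : ∀ l ∈ Finset.range (i + 1), PP ν {s | Multiset.card (restr (Iic t) s) = l}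
        = ENNReal.ofReal (Real.exp (-(r * t)) * ((r * t) ^ l / (l.factorial : ℝ))) := by
      intro l _
      rw [PP_card_restr_eq ν measurableSet_Iic l, hνA]
      unfold eneg
      rw [ENNReal.toReal_ofReal hrt, ENNReal.ofReal_mul (Real.exp_pos _).le,
        ENNReal.ofReal_div_of_pos (by positivity), ENNReal.ofReal_pow hrt,
        ENNReal.ofReal_natCast, div_eq_mul_inv, mul_assoc, mul_comm (((l.factorial : ℕ) : ℝ≥0∞)⁻¹)]
    rw [Finset.sum_congr rfl h2, ← ENNReal.ofReal_sum_of_nonneg (fun l _ => by positivity),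
      Finset.mul_sum]
  · intro a _ b _ hab
    rw [Function.onFun, Set.disjoint_left]
    intro s hs1 hs2
    exact hab (hs1.symm.trans hs2)
  · intro l _
    exact hm (measurableSet_singleton l)

/-- TA3: the law of an order statistic of a rate `r` process on `(0,B)`, tail form -/
theorem os_tail (r B : ℝ) (hr : 0 < r) (i : ℕ) (t : ℝ) (ht0 : 0 ≤ t) (htB : t < B) :
    ((PP (ENNReal.ofReal r • (volume.restrict (Ioo 0 B)))) {s | t < os i B s}).toReal
      = Real.exp (-(r * t)) * ∑ l ∈ Finset.range (i + 1), (r * t) ^ l / (l.factorial : ℝ) := by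
  have hrt : 0 ≤ r * t := mul_nonneg hr.le ht0
  rw [os_tail' r B hr i t ht0 htB, ENNReal.toReal_ofReal]
  exact mul_nonneg (Real.exp_pos _).le (Finset.sum_nonneg fun l _ => by positivity)

/-- the points of the process of constant rate are positive -/
lemma rate_forall_pos (r B : ℝ) :
    ∀ᵐ s ∂(PP (ENNReal.ofReal r • (volume.restrict (Ioo 0 B)))), ∀ a ∈ s, (0 : ℝ) < a := by
  have h := ae_PP_forall (ENNReal.ofReal r • (volume.restrict (Ioo (0 : ℝ) B)))
    (measurableSet_Ioi (a := (0 : ℝ))) (by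
      rw [Measure.smul_apply, Measure.restrict_apply measurableSet_Ioi.compl]
      have : (Ioi (0 : ℝ))ᶜ ∩ Ioo 0 B = ∅ := by
        ext x
        simp only [mem_inter_iff, mem_compl_iff, mem_Ioi, mem_Ioo, mem_empty_iff_false, iff_false]
        rintro ⟨h1, h2, _⟩
        exact h1 h2
      rw [this]
      simp)
  filter_upwards [h] with s hs a ha
  exact hs a ha

/-- the expectation of a function of an order statistic of the neighbourhood -/
lemma integral_os_nb (p : Par) (h : ℕ) (g : (ℕ → ℝ) → ℝ) (hg : Measurable g)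
    (hpos : ∀ᵐ w ∂(mu p h), 0 < g w ∧ g w ≤ p.B) (hm : ∫ w, g w ∂(mu p h) = p.m)
    {f : Multiset ℝ → ℝ} (hf : Measurable f)
    (hfr : ∀ s, f (restr (Iio p.B) s) = f s) :
    ∫ ξ, f (ξ.map fun q => q.1 / g q.2) ∂(nb p h)
      = ∫ s, f s ∂(PP (ENNReal.ofReal p.m • (volume.restrict (Ioo 0 p.B)))) := by
  have h1 := rate_law (mu p h) p.B p.B_pos g hg hpos
  rw [hm] at h1
  have hmm : Measurable fun ξ : Multiset (ℝ × (ℕ → ℝ)) =>
      restr (Iio p.B) (ξ.map fun q => q.1 / g q.2) :=
    measurable_restr_const measurableSet_Iio (measurable_map_multiset (measurable_div_weight hg))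
  rw [← h1, integral_map hmm.aemeasurable hf.aestronglyMeasurable]
  simp_rw [hfr]
  rfl

/-- the mean of an order statistic as the integral of the tail -/
lemma integral_os (r B : ℝ) (hr : 0 < r) (hB : 0 < B) (i : ℕ) :
    ∫ s, os i B s ∂(PP (ENNReal.ofReal r • (volume.restrict (Ioo 0 B))))
      = ∫ t in (0 : ℝ)..B, Real.exp (-(r * t)) *
          ∑ l ∈ Finset.range (i + 1), (r * t) ^ l / (l.factorial : ℝ) := by
  set P := PP (ENNReal.ofReal r • (volume.restrict (Ioo 0 B))) with hP
  have hpos : ∀ᵐ s ∂P, 0 < os i B s := by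
    filter_upwards [rate_forall_pos r B] with s hs
    exact os_pos hB hs
  have hint : Integrable (os i B : Multiset ℝ → ℝ) P := by
    refine Integrable.of_bound (measurable_os i B).aestronglyMeasurable B ?_
    filter_upwards [hpos] with s hs
    rw [Real.norm_eq_abs, abs_of_pos hs]
    exact os_le _ _ _
  rw [hint.integral_eq_integral_meas_lt (by
    filter_upwards [hpos] with s hs
    exact hs.le)]
  rw [intervalIntegral.integral_of_le hB.le]
  have h1 : ∀ t ∈ Ioi (0 : ℝ), P.real {s | t < os i B s}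
      = (Ioo 0 B).indicator (fun t => Real.exp (-(r * t)) *
          ∑ l ∈ Finset.range (i + 1), (r * t) ^ l / (l.factorial : ℝ)) t := by
    intro t ht
    by_cases htB : t < B
    · rw [indicator_of_mem (show t ∈ Ioo 0 B from ⟨ht, htB⟩)]
      exact os_tail r B hr i t (le_of_lt ht) htB
    · rw [indicator_of_notMem (fun h : t ∈ Ioo 0 B => htB h.2)]
      have : {s : Multiset ℝ | t < os i B s} = ∅ := by
        ext s
        simp only [mem_ofPred_eq, mem_empty_iff_false, iff_false, not_lt]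
        exact (os_le _ _ _).trans (not_lt.mp htB)
      rw [this]
      simp
  rw [setIntegral_congr_fun measurableSet_Ioi h1, setIntegral_indicator measurableSet_Ioo]
  have h2 : Ioi (0 : ℝ) ∩ Ioo 0 B = Ioo 0 B :=
    Set.inter_eq_self_of_subset_right (fun x hx => hx.1)
  rw [h2, integral_Ioc_eq_integral_Ioo]

lemma hd_lin (r x : ℝ) : HasDerivAt (fun x : ℝ => r * x) r x :=
  ((hasDerivAt_id' x).const_mul r).congr_deriv (by ring)

lemma hd_exp_neg (r x : ℝ) :
    HasDerivAt (fun x : ℝ => Real.exp (-(r * x))) (Real.exp (-(r * x)) * (-r)) x := by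
  have h : HasDerivAt (fun x : ℝ => -(r * x)) (-r) x := (hd_lin r x).neg
  exact h.exp

lemma integral_os_zero (r B : ℝ) (hr : 0 < r) (hB : 0 < B) :
    ∫ s, os 0 B s ∂(PP (ENNReal.ofReal r • (volume.restrict (Ioo 0 B))))
      = (1 - Real.exp (-(r * B))) / r := by
  rw [integral_os r B hr hB 0]
  have hd : ∀ x ∈ uIcc (0 : ℝ) B, HasDerivAt (fun x : ℝ => -(Real.exp (-(r * x))) / r)
      (Real.exp (-(r * x)) * ∑ l ∈ Finset.range (0 + 1), (r * x) ^ l / (l.factorial : ℝ)) x := by
    intro x _
    have h2 : HasDerivAt (fun x : ℝ => -(Real.exp (-(r * x))) / r)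
      (-(Real.exp (-(r * x)) * (-r)) / r) x := ((hd_exp_neg r x).neg).div_const r
    refine h2.congr_deriv ?_
    simp only [zero_add, Finset.range_one, Finset.sum_singleton, pow_zero, Nat.factorial_zero,
      Nat.cast_one]
    field_simp
  rw [intervalIntegral.integral_eq_sub_of_hasDerivAt hd]
  · simp
    ring
  · apply Continuous.intervalIntegrable
    fun_prop

lemma integral_os_one (r B : ℝ) (hr : 0 < r) (hB : 0 < B) :
    ∫ s, os 1 B s ∂(PP (ENNReal.ofReal r • (volume.restrict (Ioo 0 B))))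
      = (2 - (r * B + 2) * Real.exp (-(r * B))) / r := by
  rw [integral_os r B hr hB 1]
  have hd : ∀ x ∈ uIcc (0 : ℝ) B, HasDerivAt (fun x : ℝ => -((r * x + 2) * Real.exp (-(r * x))) / r)
      (Real.exp (-(r * x)) * ∑ l ∈ Finset.range (1 + 1), (r * x) ^ l / (l.factorial : ℝ)) x := by
    intro x _
    have h0 : HasDerivAt (fun x : ℝ => r * x + 2) r x := (hd_lin r x).add_const 2
    have h2 : HasDerivAt (fun x : ℝ => -((r * x + 2) * Real.exp (-(r * x))) / r)
      (-(r * Real.exp (-(r * x)) + (r * x + 2) * (Real.exp (-(r * x)) * (-r))) / r) x :=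
      ((h0.mul (hd_exp_neg r x)).neg).div_const r
    refine h2.congr_deriv ?_
    simp only [Finset.sum_range_succ, Finset.sum_range_zero, zero_add, pow_zero, pow_one,
      Nat.factorial, Nat.cast_one]
    field_simp
    ring
  rw [intervalIntegral.integral_eq_sub_of_hasDerivAt hd]
  · simp
    ring
  · apply Continuous.intervalIntegrable
    fun_prop

lemma integral_os_two (r B : ℝ) (hr : 0 < r) (hB : 0 < B) :
    ∫ s, os 2 B s ∂(PP (ENNReal.ofReal r • (volume.restrict (Ioo 0 B))))
      = (3 - ((r * B) ^ 2 / 2 + 2 * (r * B) + 3) * Real.exp (-(r * B))) / r := by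
  rw [integral_os r B hr hB 2]
  have hd : ∀ x ∈ uIcc (0 : ℝ) B, HasDerivAt
      (fun x : ℝ => -(((r * x) ^ 2 / 2 + 2 * (r * x) + 3) * Real.exp (-(r * x))) / r)
      (Real.exp (-(r * x)) * ∑ l ∈ Finset.range (2 + 1), (r * x) ^ l / (l.factorial : ℝ)) x := by
    intro x _
    have hx := hd_lin r x
    have h0 : HasDerivAt (fun x : ℝ => (r * x) ^ 2 / 2 + 2 * (r * x) + 3)
        (((2 : ℕ) : ℝ) * (r * x) ^ (2 - 1) * r / 2 + 2 * r) x :=
      (((hx.pow 2).div_const 2).add (hx.const_mul 2)).add_const 3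
    have h2 : HasDerivAt
      (fun x : ℝ => -(((r * x) ^ 2 / 2 + 2 * (r * x) + 3) * Real.exp (-(r * x))) / r)
      (-((((2 : ℕ) : ℝ) * (r * x) ^ (2 - 1) * r / 2 + 2 * r) * Real.exp (-(r * x)) +
        ((r * x) ^ 2 / 2 + 2 * (r * x) + 3) * (Real.exp (-(r * x)) * (-r))) / r) x :=
      ((h0.mul (hd_exp_neg r x)).neg).div_const r
    refine h2.congr_deriv ?_
    simp only [Finset.sum_range_succ, Finset.sum_range_zero, zero_add, pow_zero, pow_one,
      Nat.factorial, Nat.cast_one]
    push_cast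
    field_simp
    ring
  rw [intervalIntegral.integral_eq_sub_of_hasDerivAt hd]
  · simp
    ring
  · apply Continuous.intervalIntegrable
    fun_prop

/-- the mean of the second order statistic -/
lemma integral_os_one_nb (p : Par) (h : ℕ) (g : (ℕ → ℝ) → ℝ) (hg : Measurable g)
    (hpos : ∀ᵐ w ∂(mu p h), 0 < g w ∧ g w ≤ p.B) (hm : ∫ w, g w ∂(mu p h) = p.m) :
    ∫ ξ, os 1 p.B (ξ.map fun q => q.1 / g q.2) ∂(nb p h) = p.m := by
  rw [integral_os_nb p h g hg hpos hm (f := os 1 p.B) (measurable_os 1 p.B)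
    (fun s => os_restr 1 p.B s), integral_os_one p.m p.B p.m_pos p.B_pos, ← p.hm, sq,
    mul_div_assoc, div_self p.m_pos.ne', mul_one]

/-- TA2 -/
theorem mu_mean (p : Par) (h j : ℕ) (hj : j ≤ 2 * p.k) : ∫ w, w j ∂(mu p h) = p.m := by
  induction h generalizing j with
  | zero =>
    unfold mu
    rw [integral_dirac' (fun w : ℕ → ℝ => w j) _ (measurable_pi_apply j).stronglyMeasurable]
    unfold vinit
    rw [if_pos hj]
  | succ h ih =>
    have h1 : ∫ w, w j ∂(mu p (h + 1)) = ∫ ξ, upd p ξ j ∂(nb p h) := by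
      have h2 : mu p (h + 1) = (nb p h).map (upd p) := rfl
      rw [h2, integral_map (measurable_upd p).aemeasurable
        (measurable_pi_apply j).aestronglyMeasurable]
    rw [h1]
    by_cases hj0 : j = 0
    · have : ∀ ξ, upd p ξ j = p.m := fun ξ => by
        unfold upd
        rw [if_pos hj0]
      simp_rw [this]
      simp
    · have : ∀ ξ, upd p ξ j = os 1 p.B (ξ.map fun q => q.1 / q.2 (j - 1)) := fun ξ => by
        unfold upd
        rw [if_neg hj0, if_pos hj]
      simp_rw [this]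
      exact integral_os_one_nb p h (fun w => w (j - 1)) (measurable_pi_apply (j - 1))
        (mu_pos p h (j - 1) (by omega)) (ih (j - 1) (by omega))

end Pool.Agent.TSPd97
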