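import Pool.Agent.TSPd97.UpDefs
import Pool.Agent.TSPd97.TreeAa

/-!
MP_076557_pr, package ST (helper7): laws of the message systems on the tree.
-/

set_option autoImplicit false

open MeasureTheory Set
open scoped ENNReal

namespace Pool.Agent.TSPd97

theorem measurable_wbar (p : Par) : Measurable (wbar p) := by
  unfold wbar
  exact (Finset.measurable_sum _ fun j _ => measurable_pi_apply j).div_const _

theorem measurable_qthr (p : Par) : Measurable (qthr p) := by
  unfold qthr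
  exact (measurable_os 1 p.B).comp (measurable_map_multiset
    (measurable_fst.div ((measurable_wbar p).comp measurable_snd)))

namespace ST

lemma measurable_fg : Measurable fg :=
  measurable_fst.prodMk (measurable_fst.comp measurable_snd)

lemma measurable_map_fg : Measurable (Multiset.map fg) := measurable_map_multiset measurable_fg

/-! ### sums over an element and the rest -/

section Gsum

variable {E M : Type*} [AddCommMonoid M]

open Classical in
/-- sum over the elements of a function of the element and the rest -/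
noncomputable def gsum (f : E → Multiset E → M) (ξ : Multiset E) : M :=
  (ξ.map (fun q => f q (ξ.erase q))).sum

lemma esum_eq_gsum (f : E → Multiset E → ℝ) (ξ : Multiset E) : esum f ξ = gsum f ξ := rfl

lemma gsum_ms (f : E → Multiset E → M) {n : ℕ} (x : Fin (n + 1) → E) :
    gsum f (ms x) = ∑ i, f (x i) (ms (fun j => x (i.succAbove j))) := by
  classical
  unfold gsum
  rw [map_ms]
  have h : ∀ i, f (x i) ((ms x).erase (x i)) = f (x i) (ms (fun j => x (i.succAbove j))) := by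
    intro i
    congr 1
    conv_lhs => rw [ms_succAbove x i]
    rw [Multiset.erase_cons_head]
  simp only [h]
  rfl

variable [MeasurableSpace E] [MeasurableSpace M] [MeasurableAdd₂ M]

omit [AddCommMonoid M] [MeasurableSpace M] [MeasurableAdd₂ M] in
lemma measurable_rest {n : ℕ} (i : Fin (n + 1)) :
    Measurable fun x : Fin (n + 1) → E => (x i, ms (fun j => x (i.succAbove j))) := by
  have h : Measurable fun (x : Fin (n + 1) → E) (j : Fin n) => x (i.succAbove j) :=
    measurable_pi_lambda _ (fun j => measurable_pi_apply (i.succAbove j))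
  exact (measurable_pi_apply i).prodMk (measurable_ms.comp h)

lemma measurable_gsum {f : E → Multiset E → M}
    (hf : Measurable fun q : E × Multiset E => f q.1 q.2) : Measurable (gsum f) := by
  refine measurable_of_ms (fun n => ?_)
  cases n with
  | zero =>
    have : (fun x : Fin 0 → E => gsum f (ms x)) = fun _ => gsum f 0 := by
      funext x
      rw [ms_zero]
    rw [this]
    exact measurable_const
  | succ n =>
    simp only [gsum_ms]
    refine Finset.measurable_sum _ (fun i _ => ?_)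
    exact hf.comp (measurable_rest i)

end Gsum

/-- Mecke formula, erase form -/
theorem PP_mecke_erase {E : Type*} [MeasurableSpace E] (ν : Measure E) [IsFiniteMeasure ν]
    {G : E → Multiset E → ℝ≥0∞}
    (hG : Measurable fun q : E × Multiset E => G q.1 q.2) :
    ∫⁻ s, gsum G s ∂(PP ν) = ∫⁻ a, ∫⁻ s, G a s ∂(PP ν) ∂ν := by
  have hm1 : Measurable (gsum G) := measurable_gsum hG
  have hm2 : ∀ a, Measurable fun s : Multiset E => G a s := fun a =>
    hG.comp (measurable_const.prodMk measurable_id)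
  rw [lintegral_PP ν hm1]
  have h2 : ∀ a, ∫⁻ s, G a s ∂(PP ν) = ∑' n : ℕ, eneg (ν univ) *
      ((n.factorial : ℕ) : ℝ≥0∞)⁻¹ * ∫⁻ x : Fin n → E, G a (ms x) ∂(Measure.pi fun _ => ν) :=
    fun a => lintegral_PP ν (hm2 a)
  simp_rw [h2]
  have hmeas : ∀ n : ℕ, Measurable fun q : E × (Fin n → E) => G q.1 (ms q.2) := by
    intro n
    exact hG.comp (measurable_fst.prodMk (measurable_ms.comp measurable_snd))
  rw [lintegral_tsum]
  · rw [tsum_eq_zero_add' ENNReal.summable]
    have h0 : eneg (ν univ) * ((Nat.factorial 0 : ℕ) : ℝ≥0∞)⁻¹ *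
        ∫⁻ x : Fin 0 → E, gsum G (ms x) ∂(Measure.pi fun _ => ν) = 0 := by
      have h00 : gsum G (0 : Multiset E) = 0 := rfl
      simp [h00]
    rw [h0, zero_add]
    congr 1
    funext n
    rw [lintegral_const_mul _ (hmeas n).lintegral_prod_right']
    simp_rw [gsum_ms]
    rw [lintegral_finsetSum]
    · have h4 : ∀ i : Fin (n + 1), ∫⁻ x : Fin (n + 1) → E,
          G (x i) (ms (fun j => x (i.succAbove j))) ∂(Measure.pi fun _ => ν)
          = ∫⁻ a, ∫⁻ y : Fin n → E, G a (ms y) ∂(Measure.pi fun _ => ν) ∂ν := by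
        intro i
        rw [lintegral_pi_succAbove ν i]
        · congr 1
          funext a
          congr 1
          funext y
          simp
        · exact hG.comp (measurable_rest i)
      rw [Finset.sum_congr rfl (fun i _ => h4 i)]
      rw [Finset.sum_const, Finset.card_univ, Fintype.card_fin, nsmul_eq_mul, ← mul_assoc]
      congr 1
      rw [mul_assoc, Nat.factorial_succ]
      congr 1
      rw [Nat.cast_mul, ENNReal.mul_inv (Or.inr (by simp)) (Or.inl (by simp))]
      rw [mul_comm, ← mul_assoc, ENNReal.mul_inv_cancel (by simp) (by simp), one_mul]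
    · intro i _
      exact hG.comp (measurable_rest i)
  · intro n
    exact ((hmeas n).lintegral_prod_right'.const_mul _).aemeasurable

lemma ofReal_gsum {E : Type*} (f : E → Multiset E → ℝ) (ξ : Multiset E)
    (hf : ∀ q ∈ ξ, ∀ ζ, 0 ≤ f q ζ) :
    ENNReal.ofReal (gsum f ξ) = gsum (fun q ζ => ENNReal.ofReal (f q ζ)) ξ := by
  classical
  unfold gsum
  have key : ∀ (s : Multiset E) (g : E → ℝ), (∀ q ∈ s, 0 ≤ g q) →
      0 ≤ (s.map g).sum ∧
        ENNReal.ofReal (s.map g).sum = (s.map fun q => ENNReal.ofReal (g q)).sum := by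
    intro s g
    induction s using Multiset.induction_on with
    | empty => intro _; simp
    | cons a s ih =>
      intro h
      obtain ⟨h1, h2⟩ := ih (fun q hq => h q (Multiset.mem_cons_of_mem hq))
      have h3 := h a (Multiset.mem_cons_self a s)
      rw [Multiset.map_cons, Multiset.sum_cons, Multiset.map_cons, Multiset.sum_cons]
      exact ⟨add_nonneg h3 h1, by rw [ENNReal.ofReal_add h3 h1, h2]⟩
  exact (key ξ (fun q => f q (ξ.erase q)) (fun q hq => hf q hq _)).2

end ST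

theorem measurable_updx (p : Par) : Measurable (updx p) := by
  unfold updx
  exact ((measurable_upd p).comp ST.measurable_map_fg).prodMk
    ((measurable_qthr p).comp ST.measurable_map_fg)

theorem measurable_pot (p : Par) (δ : ℝ) : Measurable (pot p δ) := by
  unfold pot
  have hl : ∀ j : ℕ, Measurable fun ξ : Multiset (ℝ × (ℕ → ℝ)) => ξ.map fun q => q.1 / q.2 j :=
    fun j => measurable_map_multiset
      (measurable_fst.div ((measurable_pi_apply j).comp measurable_snd))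
  refine Measurable.div_const (Finset.measurable_sum _ (fun j _ => ?_)) _
  exact (Real.measurable_log.comp (measurable_const.max
    ((measurable_os 1 p.B).comp (hl j)))).add
    (Real.measurable_log.comp (measurable_const.max
    ((measurable_os 2 p.B).comp (hl j))))

namespace ST

lemma measurableSet_sel (p : Par) :
    MeasurableSet {t : (ℝ × ((ℕ → ℝ) × ℝ)) × Multiset (ℝ × ((ℕ → ℝ) × ℝ)) |
      sel p t.1.1 (updx p t.2) t.1.2} := by
  have hu : Measurable fun t : (ℝ × ((ℕ → ℝ) × ℝ)) × Multiset (ℝ × ((ℕ → ℝ) × ℝ)) =>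
      updx p t.2 := (measurable_updx p).comp measurable_snd
  have hb : Measurable fun t : (ℝ × ((ℕ → ℝ) × ℝ)) × Multiset (ℝ × ((ℕ → ℝ) × ℝ)) => t.1.2 :=
    measurable_snd.comp measurable_fst
  have hs : Measurable fun t : (ℝ × ((ℕ → ℝ) × ℝ)) × Multiset (ℝ × ((ℕ → ℝ) × ℝ)) => t.1.1 :=
    measurable_fst.comp measurable_fst
  unfold sel
  refine measurableSet_lt hs (Measurable.min ?_ ?_)
  · exact ((measurable_wbar p).comp (measurable_fst.comp hb)).mul (measurable_snd.comp hu)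
  · exact ((measurable_wbar p).comp (measurable_fst.comp hu)).mul (measurable_snd.comp hb)

open Classical in
/-- the general selected functional -/
noncomputable def gfun (p : Par) (φ : ℝ → ℝ) (q : ℝ × ((ℕ → ℝ) × ℝ))
    (ζ : Multiset (ℝ × ((ℕ → ℝ) × ℝ))) : ℝ :=
  if sel p q.1 (updx p ζ) q.2 then φ q.1 else 0

lemma measurable_gfun (p : Par) {φ : ℝ → ℝ} (hφ : Measurable φ) :
    Measurable fun t : (ℝ × ((ℕ → ℝ) × ℝ)) × Multiset (ℝ × ((ℕ → ℝ) × ℝ)) =>
      gfun p φ t.1 t.2 := by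
  classical
  unfold gfun
  exact Measurable.ite (measurableSet_sel p) (hφ.comp (measurable_fst.comp measurable_fst))
    measurable_const

lemma dfun_eq (p : Par) (ξ : Multiset (ℝ × ((ℕ → ℝ) × ℝ))) :
    dfun p ξ = gsum (gfun p (fun _ => 1)) ξ := rfl

lemma cfun_eq (p : Par) (d : ℕ) (ξ : Multiset (ℝ × ((ℕ → ℝ) × ℝ))) :
    cfun p d ξ = gsum (gfun p (fun s => s ^ (1 / (d : ℝ)) / 2)) ξ := rfl

lemma measurable_phi (d : ℕ) : Measurable fun s : ℝ => s ^ (1 / (d : ℝ)) / 2 :=
  (measurable_id.pow_const _).div_const _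

end ST

theorem measurable_dfun (p : Par) : Measurable (dfun p) := by
  have h := ST.measurable_gsum (ST.measurable_gfun p (φ := fun _ => 1) measurable_const)
  exact h

theorem measurable_cfun (p : Par) (d : ℕ) : Measurable (cfun p d) := by
  have h := ST.measurable_gsum (ST.measurable_gfun p (ST.measurable_phi d))
  exact h

namespace ST

/-- truncation of a message vector -/
def trunc (j : ℕ) (w : ℕ → ℝ) : ℕ → ℝ := fun i => if i ≤ j then w i else 0

lemma measurable_trunc (j : ℕ) : Measurable (trunc j) := by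
  refine measurable_pi_lambda _ (fun i => ?_)
  unfold trunc
  split_ifs
  · exact measurable_pi_apply i
  · exact measurable_const

lemma trunc_upd_zero (p : Par) (ξ : Multiset (ℝ × (ℕ → ℝ))) :
    trunc 0 (upd p ξ) = trunc 0 (vinit p) := by
  funext i
  unfold trunc upd vinit
  by_cases hi : i = 0
  · subst hi; simp
  · rw [if_neg (by omega), if_neg (by omega)]

lemma trunc_upd_succ (p : Par) (j : ℕ) (ξ : Multiset (ℝ × (ℕ → ℝ))) :
    trunc (j + 1) (upd p ξ) = trunc (j + 1) (upd p (ξ.map (Prod.map id (trunc j)))) := by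
  funext i
  unfold trunc
  by_cases hi : i ≤ j + 1
  · rw [if_pos hi, if_pos hi]
    unfold upd
    by_cases h0 : i = 0
    · rw [if_pos h0, if_pos h0]
    · rw [if_neg h0, if_neg h0]
      by_cases h1 : i ≤ 2 * p.k
      · rw [if_pos h1, if_pos h1, Multiset.map_map]
        congr 1
        refine Multiset.map_congr rfl (fun q _ => ?_)
        simp only [Function.comp, Prod.map, id]
        rw [if_pos (by omega)]
      · rw [if_neg h1, if_neg h1]
  · rw [if_neg hi, if_neg hi]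

lemma trunc_upd_self (p : Par) (ξ : Multiset (ℝ × (ℕ → ℝ))) :
    trunc (2 * p.k) (upd p ξ) = upd p ξ := by
  funext i
  unfold trunc
  by_cases hi : i ≤ 2 * p.k
  · rw [if_pos hi]
  · rw [if_neg hi]
    unfold upd
    rw [if_neg (by omega), if_neg hi]

lemma trunc_vinit_self (p : Par) : trunc (2 * p.k) (vinit p) = vinit p := by
  funext i
  unfold trunc
  by_cases hi : i ≤ 2 * p.k
  · rw [if_pos hi]
  · rw [if_neg hi]
    unfold vinit
    rw [if_neg hi]

lemma mu_succ (p : Par) (h : ℕ) : mu p (h + 1) = (nb p h).map (upd p) := rfl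

lemma mu_map_trunc_self (p : Par) (h : ℕ) : (mu p h).map (trunc (2 * p.k)) = mu p h := by
  cases h with
  | zero =>
    unfold mu
    rw [Measure.map_dirac' (measurable_trunc _), trunc_vinit_self]
  | succ h =>
    rw [mu_succ, Measure.map_map (measurable_trunc _) (measurable_upd p)]
    congr 1
    funext ξ
    exact trunc_upd_self p ξ

lemma mu_map_trunc_succ (p : Par) (h j : ℕ) :
    (mu p (h + 1)).map (trunc (j + 1))
      = (PP ((leb (p.B ^ 2)).prod ((mu p h).map (trunc j)))).map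
          (fun ξ => trunc (j + 1) (upd p ξ)) := by
  rw [mu_succ, Measure.map_map (measurable_trunc _) (measurable_upd p)]
  have h1 : (leb (p.B ^ 2)).prod ((mu p h).map (trunc j))
      = ((leb (p.B ^ 2)).prod (mu p h)).map (Prod.map id (trunc j)) := by
    have h2 := Measure.map_prod_map (leb (p.B ^ 2)) (mu p h) (f := id) (g := trunc j)
      measurable_id (measurable_trunc j)
    rw [Measure.map_id] at h2
    exact h2
  have hm : Measurable (Prod.map (id : ℝ → ℝ) (trunc j)) :=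
    measurable_id.prodMap (measurable_trunc j)
  have h3 := PP_map ((leb (p.B ^ 2)).prod (mu p h)) hm
  have hm2 : Measurable fun ξ : Multiset (ℝ × (ℕ → ℝ)) => trunc (j + 1) (upd p ξ) :=
    (measurable_trunc _).comp (measurable_upd p)
  rw [h1, ← h3, Measure.map_map hm2 (measurable_map_multiset hm)]
  unfold nb
  congr 1
  funext ξ
  exact trunc_upd_succ p j ξ

lemma mu_trunc_stable (p : Par) (j : ℕ) : ∀ h : ℕ, j ≤ h →
    (mu p (h + 1)).map (trunc j) = (mu p h).map (trunc j) := by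
  induction j with
  | zero =>
    have key : ∀ h : ℕ, (mu p h).map (trunc 0) = Measure.dirac (trunc 0 (vinit p)) := by
      intro h
      cases h with
      | zero =>
        unfold mu
        rw [Measure.map_dirac' (measurable_trunc _)]
      | succ h =>
        rw [mu_succ, Measure.map_map (measurable_trunc _) (measurable_upd p)]
        have : (trunc 0 ∘ upd p) = fun _ => trunc 0 (vinit p) := by
          funext ξ
          exact trunc_upd_zero p ξ
        rw [this, Measure.map_const, measure_univ, one_smul]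
    intro h _
    rw [key, key]
  | succ j ih =>
    intro h hj
    obtain ⟨h', rfl⟩ : ∃ h', h = h' + 1 := ⟨h - 1, by omega⟩
    rw [mu_map_trunc_succ, mu_map_trunc_succ, ih h' (by omega)]

end ST

theorem mu_stable (p : Par) (h : ℕ) (hh : 2 * p.k ≤ h) : mu p (h + 1) = mu p h := by
  rw [← ST.mu_map_trunc_self p (h + 1), ← ST.mu_map_trunc_self p h]
  exact ST.mu_trunc_stable p (2 * p.k) h hh

theorem tmu_eq_mu (p : Par) (h : ℕ) : tmu (vinit p) (upd p) (p.B ^ 2) h = mu p h := by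
  induction h with
  | zero => rfl
  | succ h ih =>
    unfold tmu mu leb
    rw [ih]

namespace ST

lemma tmux_prob (p : Par) (h : ℕ) :
    IsProbabilityMeasure (tmu (vinitx p) (updx p) (p.B ^ 2) h) :=
  tmu_prob (vinitx p) (measurable_updx p) (p.B ^ 2) h

lemma troot_eq (p : Par) (h : ℕ) : troot (vinitx p) (updx p) (p.B ^ 2) h
    = PP ((leb (p.B ^ 2)).prod (tmu (vinitx p) (updx p) (p.B ^ 2) h)) := rfl

lemma tmux_succ (p : Par) (h : ℕ) : tmu (vinitx p) (updx p) (p.B ^ 2) (h + 1)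
    = (troot (vinitx p) (updx p) (p.B ^ 2) h).map (updx p) := rfl

lemma troot_prob (p : Par) (h : ℕ) :
    IsProbabilityMeasure (troot (vinitx p) (updx p) (p.B ^ 2) h) := by
  have := tmux_prob p h
  rw [troot_eq]
  infer_instance

/-- forgetting the thresholds -/
lemma troot_map_fg_aux (p : Par) (h : ℕ)
    (hfst : (tmu (vinitx p) (updx p) (p.B ^ 2) h).map Prod.fst = mu p h) :
    (troot (vinitx p) (updx p) (p.B ^ 2) h).map (Multiset.map fg) = nb p h := by
  have := tmux_prob p h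
  rw [troot_eq, PP_map _ measurable_fg]
  unfold nb
  have h2 := Measure.map_prod_map (leb (p.B ^ 2)) (tmu (vinitx p) (updx p) (p.B ^ 2) h)
    (f := id) (g := Prod.fst) measurable_id measurable_fst
  rw [Measure.map_id, hfst] at h2
  rw [h2]
  rfl

end ST

theorem tmux_fst (p : Par) (h : ℕ) :
    (tmu (vinitx p) (updx p) (p.B ^ 2) h).map Prod.fst = mu p h := by
  induction h with
  | zero =>
    unfold tmu mu
    rw [Measure.map_dirac' measurable_fst]
    rfl
  | succ h ih =>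
    have h1 := ST.troot_map_fg_aux p h ih
    rw [ST.tmux_succ, Measure.map_map measurable_fst (measurable_updx p), ST.mu_succ, ← h1,
      Measure.map_map (measurable_upd p) ST.measurable_map_fg]
    rfl

namespace ST

lemma troot_map_fg (p : Par) (h : ℕ) :
    (troot (vinitx p) (updx p) (p.B ^ 2) h).map (Multiset.map fg) = nb p h :=
  troot_map_fg_aux p h (tmux_fst p h)

lemma nb_stable (p : Par) (h : ℕ) (hh : 2 * p.k ≤ h) : nb p (h + 1) = nb p h := by
  unfold nb
  rw [mu_stable p h hh]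

end ST

namespace ST

lemma k_pos (p : Par) : (0 : ℝ) < p.k := by
  have := p.hk
  exact_mod_cast (by omega : 0 < p.k)

lemma wbar_bounds {p : Par} {w : ℕ → ℝ}
    (hw : ∀ j ∈ Finset.Ico p.k (2 * p.k), 0 < w j ∧ w j ≤ p.B) :
    0 < wbar p w ∧ wbar p w ≤ p.B := by
  have hk := k_pos p
  have hne : (Finset.Ico p.k (2 * p.k)).Nonempty := by
    rw [Finset.nonempty_Ico]
    have := p.hk
    omega
  unfold wbar
  refine ⟨div_pos (Finset.sum_pos (fun j hj => (hw j hj).1) hne) hk, ?_⟩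
  rw [div_le_iff₀ hk]
  have h1 : ∑ j ∈ Finset.Ico p.k (2 * p.k), w j ≤ ∑ _j ∈ Finset.Ico p.k (2 * p.k), p.B :=
    Finset.sum_le_sum (fun j hj => (hw j hj).2)
  rw [Finset.sum_const, Nat.card_Ico, nsmul_eq_mul] at h1
  have h2 : ((2 * p.k - p.k : ℕ) : ℝ) = p.k := by
    congr 1
    omega
  rw [h2] at h1
  linarith

lemma window_ae (p : Par) (h : ℕ) :
    ∀ᵐ w ∂(mu p h), ∀ j ∈ Finset.Ico p.k (2 * p.k), 0 < w j ∧ w j ≤ p.B := by
  rw [Filter.eventually_all_finset]
  intro j hj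
  exact mu_pos p h j (by have := Finset.mem_Ico.1 hj; omega)

lemma wbar_ae (p : Par) (h : ℕ) : ∀ᵐ w ∂(mu p h), 0 < wbar p w ∧ wbar p w ≤ p.B := by
  filter_upwards [window_ae p h] with w hw
  exact wbar_bounds hw

lemma measurableSet_wbar (p : Par) : MeasurableSet {w : ℕ → ℝ | 0 < wbar p w ∧ wbar p w ≤ p.B} :=
  (measurable_wbar p measurableSet_Ioi).inter (measurable_wbar p measurableSet_Iic)

lemma leb_ae (S : ℝ) : ∀ᵐ s ∂(leb S), 0 < s ∧ s ≤ S := by
  unfold leb
  filter_upwards [ae_restrict_mem measurableSet_Ioc] with s hs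
  exact hs

/-- points of the neighbourhood -/
lemma nb_points_ae (p : Par) (h : ℕ) :
    ∀ᵐ ξ ∂(nb p h), ∀ q ∈ ξ, q ∈ {q : ℝ × (ℕ → ℝ) | (0 < q.1 ∧ q.1 ≤ p.B ^ 2) ∧
      0 < wbar p q.2 ∧ wbar p q.2 ≤ p.B} := by
  have hA : MeasurableSet {q : ℝ × (ℕ → ℝ) | (0 < q.1 ∧ q.1 ≤ p.B ^ 2) ∧
      0 < wbar p q.2 ∧ wbar p q.2 ≤ p.B} :=
    (measurable_fst measurableSet_Ioc).inter (measurable_snd (measurableSet_wbar p))
  unfold nb
  refine ae_PP_forall _ hA ?_
  have ha' := (Measure.quasiMeasurePreserving_fst (μ := leb (p.B ^ 2))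
    (ν := mu p h)).ae (leb_ae (p.B ^ 2))
  have hb' := (Measure.quasiMeasurePreserving_snd (μ := leb (p.B ^ 2))
    (ν := mu p h)).ae (wbar_ae p h)
  have h3 : ∀ᵐ q ∂((leb (p.B ^ 2)).prod (mu p h)), q ∈ {q : ℝ × (ℕ → ℝ) |
      (0 < q.1 ∧ q.1 ≤ p.B ^ 2) ∧ 0 < wbar p q.2 ∧ wbar p q.2 ≤ p.B} := by
    filter_upwards [ha', hb'] with q hq1 hq2
    exact ⟨hq1, hq2⟩
  rw [ae_iff] at h3
  exact h3

/-- the good event for a neighbourhood -/
def Good (p : Par) (ξ : Multiset (ℝ × (ℕ → ℝ))) : Prop :=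
  (0 < wbar p (upd p ξ) ∧ wbar p (upd p ξ) ≤ p.B) ∧ 0 < qthr p ξ ∧ qthr p ξ ≤ p.B

lemma good_ae (p : Par) (h : ℕ) : ∀ᵐ ξ ∂(nb p h), Good p ξ := by
  have h1 := wbar_ae p (h + 1)
  rw [mu_succ, ae_map_iff (measurable_upd p).aemeasurable (measurableSet_wbar p)] at h1
  filter_upwards [h1, nb_points_ae p h] with ξ hξ1 hξ2
  refine ⟨hξ1, ?_, os_le _ _ _⟩
  unfold qthr
  refine os_pos p.B_pos ?_
  intro a ha
  rw [Multiset.mem_map] at ha
  obtain ⟨q, hq, rfl⟩ := ha
  exact div_pos (hξ2 q hq).1.1 (hξ2 q hq).2.1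

lemma mthr_bounds {p : Par} {ξ ξ' : Multiset (ℝ × (ℕ → ℝ))} (h : Good p ξ) (h' : Good p ξ') :
    0 < mthr p ξ ξ' ∧ mthr p ξ ξ' ≤ p.B ^ 2 := by
  unfold mthr
  obtain ⟨⟨a1, a2⟩, a3, a4⟩ := h
  obtain ⟨⟨b1, b2⟩, b3, b4⟩ := h'
  refine ⟨lt_min (mul_pos b1 a3) (mul_pos a1 b3), (min_le_left _ _).trans ?_⟩
  have := p.B_pos
  nlinarith [mul_le_mul b2 a4 a3.le this.le]

/-- points of the extended neighbourhood -/
lemma troot_points_ae (p : Par) (h : ℕ) :
    ∀ᵐ ξ ∂(troot (vinitx p) (updx p) (p.B ^ 2) h), ∀ q ∈ ξ,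
      (0 < q.1 ∧ q.1 ≤ p.B ^ 2) ∧ 0 < wbar p q.2.1 := by
  have h1 := nb_points_ae p h
  rw [← troot_map_fg p h] at h1
  have h2 := ae_of_ae_map measurable_map_fg.aemeasurable h1
  filter_upwards [h2] with ξ hξ q hq
  have h3 := hξ (fg q) (Multiset.mem_map_of_mem fg hq)
  exact ⟨h3.1, h3.2.1⟩

section Sel

open Classical in
lemma gsum_indicator {E : Type*} (R : E → Multiset E → Prop) (ξ : Multiset E) :
    gsum (fun q ζ => if R q ζ then (1 : ℝ) else 0) ξ
      = (Multiset.card (ξ.filter (fun q => R q (ξ.erase q))) : ℝ) := by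
  unfold gsum
  have key : ∀ (A : E → Prop) (s : Multiset E),
      (s.map fun q => if A q then (1 : ℝ) else 0).sum = (Multiset.card (s.filter A) : ℝ) := by
    intro A s
    induction s using Multiset.induction_on with
    | empty => simp
    | cons a s ih =>
      rw [Multiset.map_cons, Multiset.sum_cons, ih]
      by_cases ha : A a
      · rw [if_pos ha, Multiset.filter_cons_of_pos _ ha, Multiset.card_cons]
        push_cast
        ring
      · rw [if_neg ha, Multiset.filter_cons_of_neg _ ha, zero_add]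
  exact key _ ξ

open Classical in
lemma card_filter_le_two {E : Type*} (R : E → Multiset E → Prop) (val : E → ℝ) (ξ : Multiset E)
    (h : ∀ q ∈ ξ, R q (ξ.erase q) →
      Multiset.card (restr (Iic (val q)) ((ξ.erase q).map val)) ≤ 1) :
    Multiset.card (ξ.filter (fun q => R q (ξ.erase q))) ≤ 2 := by
  by_contra hcon
  rw [not_le] at hcon
  set F := ξ.filter (fun q => R q (ξ.erase q)) with hF
  have hne : F.toFinset.Nonempty := by
    rw [Multiset.toFinset_nonempty]
    intro h0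
    rw [h0] at hcon
    simp at hcon
  obtain ⟨q, hq, hmax⟩ := Finset.exists_max_image F.toFinset val hne
  rw [Multiset.mem_toFinset] at hq
  have hqξ : q ∈ ξ := Multiset.mem_of_mem_filter hq
  have hqA : R q (ξ.erase q) :=
    Multiset.of_mem_filter (p := fun q => R q (ξ.erase q)) hq
  have h6 := h q hqξ hqA
  have h8 : F.erase q ≤ ξ.erase q := Multiset.erase_le_erase q (Multiset.filter_le _ _)
  have h9 : Multiset.card (restr (Iic (val q)) ((F.erase q).map val))
      ≤ Multiset.card (restr (Iic (val q)) ((ξ.erase q).map val)) := by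
    unfold restr
    exact Multiset.card_le_card (Multiset.filter_le_filter _ (Multiset.map_le_map h8))
  rw [restr_eq_self (s := (F.erase q).map val) (by
    intro a ha
    rw [Multiset.mem_map] at ha
    obtain ⟨q', hq', rfl⟩ := ha
    exact hmax q' (Multiset.mem_toFinset.2 (Multiset.mem_of_mem_erase hq'))),
    Multiset.card_map, Multiset.card_erase_of_mem hq] at h9
  have h11 : Nat.pred (Multiset.card F) = Multiset.card F - 1 := rfl
  omega

lemma gsum_le {E : Type*} (f g : E → Multiset E → ℝ) (c : ℝ) (ξ : Multiset E)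
    (h : ∀ q ∈ ξ, ∀ ζ, 0 ≤ f q ζ ∧ f q ζ ≤ c * g q ζ) :
    0 ≤ gsum f ξ ∧ gsum f ξ ≤ c * gsum g ξ := by
  classical
  unfold gsum
  have key : ∀ (s : Multiset E), (∀ q ∈ s, q ∈ ξ) →
      0 ≤ (s.map fun q => f q (ξ.erase q)).sum ∧
      (s.map fun q => f q (ξ.erase q)).sum ≤ c * (s.map fun q => g q (ξ.erase q)).sum := by
    intro s
    induction s using Multiset.induction_on with
    | empty => intro _; simp
    | cons a s ih =>
      intro hs
      obtain ⟨i1, i2⟩ := ih (fun q hq => hs q (Multiset.mem_cons_of_mem hq))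
      have h3 := h a (hs a (Multiset.mem_cons_self a s)) (ξ.erase a)
      rw [Multiset.map_cons, Multiset.sum_cons, Multiset.map_cons, Multiset.sum_cons, mul_add]
      exact ⟨add_nonneg h3.1 i1, add_le_add h3.2 i2⟩
  exact key ξ (fun q hq => hq)

end Sel

lemma card_of_sel (p : Par) (q : ℝ × ((ℕ → ℝ) × ℝ)) (ζ : Multiset (ℝ × ((ℕ → ℝ) × ℝ)))
    (hq : 0 < wbar p q.2.1) (hsel : sel p q.1 (updx p ζ) q.2) :
    Multiset.card (restr (Iic (q.1 / wbar p q.2.1))
      (ζ.map fun q : ℝ × ((ℕ → ℝ) × ℝ) => q.1 / wbar p q.2.1)) ≤ 1 := by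
  have h4 : q.1 < wbar p q.2.1 * (updx p ζ).2 := lt_of_lt_of_le hsel (min_le_left _ _)
  have h5 : q.1 < wbar p q.2.1 * qthr p (ζ.map fg) := h4
  have h6 : q.1 / wbar p q.2.1 < qthr p (ζ.map fg) := by
    rw [div_lt_iff₀ hq, mul_comm]
    exact h5
  unfold qthr at h6
  rw [lt_os_iff, Multiset.map_map] at h6
  exact h6.2

open Classical in
/-- at most two elements are selected -/
lemma dfun_le_two (p : Par) (ξ : Multiset (ℝ × ((ℕ → ℝ) × ℝ)))
    (hξ : ∀ q ∈ ξ, (0 < q.1 ∧ q.1 ≤ p.B ^ 2) ∧ 0 < wbar p q.2.1) :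
    0 ≤ dfun p ξ ∧ dfun p ξ ≤ 2 := by
  have h1 := gsum_indicator (fun (q : ℝ × ((ℕ → ℝ) × ℝ)) ζ => sel p q.1 (updx p ζ) q.2) ξ
  have h2 := card_filter_le_two (fun (q : ℝ × ((ℕ → ℝ) × ℝ)) ζ => sel p q.1 (updx p ζ) q.2)
    (fun q => q.1 / wbar p q.2.1) ξ ?_
  · have h3 : dfun p ξ = gsum (fun (q : ℝ × ((ℕ → ℝ) × ℝ)) ζ =>
        if sel p q.1 (updx p ζ) q.2 then (1 : ℝ) else 0) ξ := rfl
    rw [h3, h1]
    exact ⟨by positivity, by exact_mod_cast h2⟩
  · intro q hq hsel
    exact card_of_sel p q _ (hξ q hq).2 hsel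

end ST

theorem dfun_bounds (p : Par) (h : ℕ) :
    ∀ᵐ ξ ∂(troot (vinitx p) (updx p) (p.B ^ 2) h), 0 ≤ dfun p ξ ∧ dfun p ξ ≤ 2 := by
  filter_upwards [ST.troot_points_ae p h] with ξ hξ
  exact ST.dfun_le_two p ξ hξ

theorem cfun_bounds (p : Par) (d h : ℕ) (hd : 2 ≤ d) :
    ∀ᵐ ξ ∂(troot (vinitx p) (updx p) (p.B ^ 2) h),
      0 ≤ cfun p d ξ ∧ cfun p d ξ ≤ (p.B ^ 2) ^ (1 / (d : ℝ)) := by
  filter_upwards [ST.troot_points_ae p h] with ξ hξ
  have h2 := (ST.dfun_le_two p ξ hξ).2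
  have hB : 0 ≤ (p.B ^ 2) ^ (1 / (d : ℝ)) := Real.rpow_nonneg (by positivity) _
  obtain ⟨k1, k2⟩ := ST.gsum_le (ST.gfun p (fun s => s ^ (1 / (d : ℝ)) / 2))
    (ST.gfun p (fun _ => 1)) ((p.B ^ 2) ^ (1 / (d : ℝ)) / 2) ξ (by
      intro a ha ζ
      obtain ⟨⟨a1, a2⟩, a3⟩ := hξ a ha
      unfold ST.gfun
      by_cases hsel : sel p a.1 (updx p ζ) a.2
      · rw [if_pos hsel, if_pos hsel, mul_one]
        have h4 : 0 ≤ a.1 ^ (1 / (d : ℝ)) := Real.rpow_nonneg a1.le _
        have h5 : a.1 ^ (1 / (d : ℝ)) ≤ (p.B ^ 2) ^ (1 / (d : ℝ)) :=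
          Real.rpow_le_rpow a1.le a2 (by positivity)
        constructor <;> linarith
      · rw [if_neg hsel, if_neg hsel, mul_zero]
        exact ⟨le_refl _, le_refl _⟩)
  rw [← ST.cfun_eq] at k1 k2
  rw [← ST.dfun_eq] at k2
  refine ⟨k1, k2.trans ?_⟩
  nlinarith

namespace ST

abbrev MN := Multiset (ℝ × (ℕ → ℝ))

lemma measurable_mthr (p : Par) : Measurable fun t : MN × MN => mthr p t.1 t.2 := by
  have hu : Measurable fun ξ : MN => wbar p (upd p ξ) := (measurable_wbar p).comp (measurable_upd p)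
  unfold mthr
  exact ((hu.comp measurable_snd).mul ((measurable_qthr p).comp measurable_fst)).min
    ((hu.comp measurable_fst).mul ((measurable_qthr p).comp measurable_snd))

open Classical in
/-- the integrand of the pair functional -/
noncomputable def pairI (p : Par) (φ : ℝ → ℝ) (ζ ζ' : MN) (s : ℝ) : ℝ≥0∞ :=
  ENNReal.ofReal (if s < mthr p ζ ζ' then φ s else 0)

/-- the pair functional -/
noncomputable def pairR (p : Par) (φ : ℝ → ℝ) (ζ ζ' : MN) : ℝ≥0∞ :=
  ∫⁻ s, pairI p φ ζ ζ' s ∂(leb (p.B ^ 2))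

lemma measurable_pairI (p : Par) {φ : ℝ → ℝ} (hφ : Measurable φ) :
    Measurable fun t : (MN × MN) × ℝ => pairI p φ t.1.1 t.1.2 t.2 := by
  classical
  unfold pairI
  refine Measurable.ennreal_ofReal (Measurable.ite ?_ (hφ.comp measurable_snd) measurable_const)
  exact measurableSet_lt measurable_snd ((measurable_mthr p).comp measurable_fst)

lemma measurable_pairR (p : Par) {φ : ℝ → ℝ} (hφ : Measurable φ) :
    Measurable fun t : MN × MN => pairR p φ t.1 t.2 := by
  unfold pairR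
  exact (measurable_pairI p hφ).lintegral_prod_right'

lemma gfun_updx (p : Par) (φ : ℝ → ℝ) (s : ℝ) (ξ ξ' : Multiset (ℝ × ((ℕ → ℝ) × ℝ))) :
    ENNReal.ofReal (gfun p φ (s, updx p ξ') ξ) = pairI p φ (ξ.map fg) (ξ'.map fg) s := rfl

lemma swap_aux {W X Z : Type*} [MeasurableSpace W] [MeasurableSpace X] [MeasurableSpace Z]
    (l : Measure ℝ) [SFinite l] (tm : Measure W) [SFinite tm] (T T' : Measure X) [SFinite T]
    [SFinite T'] (u : X → W) (hu : Measurable u) (htm : tm = T'.map u)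
    (F : (ℝ × W) → X → ℝ≥0∞) (hF : Measurable fun t : (ℝ × W) × X => F t.1 t.2)
    (r : X → Z) (hr : Measurable r) (R : Z → Z → ℝ≥0∞)
    (hRm : Measurable fun t : Z × Z => R t.1 t.2)
    (hR : ∀ ξ ξ', ∫⁻ s, F (s, u ξ') ξ ∂l = R (r ξ) (r ξ'))
    (N : Measure Z) [SFinite N] (hT : T.map r = N) (hT' : T'.map r = N) :
    ∫⁻ a, ∫⁻ ξ, F a ξ ∂T ∂(l.prod tm) = ∫⁻ ζ, ∫⁻ ζ', R ζ ζ' ∂N ∂N := by
  rw [lintegral_lintegral_swap hF.aemeasurable]
  have e3 : ∀ ξ : X, ∫⁻ a, F a ξ ∂(l.prod tm) = ∫⁻ ζ', R (r ξ) ζ' ∂N := by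
    intro ξ
    have hm : Measurable fun a : ℝ × W => F a ξ := hF.comp (measurable_id.prodMk measurable_const)
    rw [lintegral_prod_symm _ hm.aemeasurable, htm]
    have hm2 : Measurable fun w : W => ∫⁻ s, F (s, w) ξ ∂l := hm.lintegral_prod_left'
    rw [lintegral_map hm2 hu]
    simp_rw [hR]
    have hm3 : Measurable fun ζ' : Z => R (r ξ) ζ' :=
      hRm.comp (measurable_const.prodMk measurable_id)
    rw [← hT', lintegral_map hm3 hr]
  simp_rw [e3]
  have hm4 : Measurable fun ζ : Z => ∫⁻ ζ', R ζ ζ' ∂N := hRm.lintegral_prod_right'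
  have e6 := lintegral_map (μ := T) hm4 hr
  rw [hT] at e6
  exact e6.symm

lemma mean_aux (p : Par) (h : ℕ) (hh : 2 * p.k + 1 ≤ h) {φ : ℝ → ℝ} (hφ : Measurable φ)
    (hφ0 : ∀ s, 0 < s → 0 ≤ φ s) :
    ∫⁻ ξ, ENNReal.ofReal (gsum (gfun p φ) ξ) ∂(troot (vinitx p) (updx p) (p.B ^ 2) h)
      = ∫⁻ ζ, ∫⁻ ζ', pairR p φ ζ ζ' ∂(nb p h) ∂(nb p h) := by
  obtain ⟨h', rfl⟩ : ∃ h', h = h' + 1 := ⟨h - 1, by omega⟩
  have hp1 := tmux_prob p (h' + 1)
  have hp2 := troot_prob p (h' + 1)
  have hp3 := troot_prob p h'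
  have e1 : ∫⁻ ξ, ENNReal.ofReal (gsum (gfun p φ) ξ)
        ∂(troot (vinitx p) (updx p) (p.B ^ 2) (h' + 1))
      = ∫⁻ ξ, gsum (fun q ζ => ENNReal.ofReal (gfun p φ q ζ)) ξ
        ∂(troot (vinitx p) (updx p) (p.B ^ 2) (h' + 1)) := by
    refine lintegral_congr_ae ?_
    filter_upwards [troot_points_ae p (h' + 1)] with ξ hξ
    refine ofReal_gsum _ ξ (fun q hq ζ => ?_)
    unfold gfun
    split_ifs
    · exact hφ0 _ (hξ q hq).1.1
    · exact le_refl _
  have hG : Measurable fun t : (ℝ × ((ℕ → ℝ) × ℝ)) × Multiset (ℝ × ((ℕ → ℝ) × ℝ)) =>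
      ENNReal.ofReal (gfun p φ t.1 t.2) := (measurable_gfun p hφ).ennreal_ofReal
  have hT' : (troot (vinitx p) (updx p) (p.B ^ 2) h').map (Multiset.map fg) = nb p (h' + 1) := by
    rw [troot_map_fg, nb_stable p h' (by omega)]
  rw [e1, troot_eq, PP_mecke_erase _ hG, ← troot_eq]
  exact swap_aux (leb (p.B ^ 2)) (tmu (vinitx p) (updx p) (p.B ^ 2) (h' + 1))
    (troot (vinitx p) (updx p) (p.B ^ 2) (h' + 1)) (troot (vinitx p) (updx p) (p.B ^ 2) h')
    (updx p) (measurable_updx p) (tmux_succ p h')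
    (fun a ξ => ENNReal.ofReal (gfun p φ a ξ)) hG (Multiset.map fg) measurable_map_fg
    (pairR p φ) (measurable_pairR p hφ) (fun ξ ξ' => rfl) (nb p (h' + 1))
    (troot_map_fg p (h' + 1)) hT'

lemma integral_integral_toReal {α : Type*} [MeasurableSpace α] (μ : Measure α)
    [IsProbabilityMeasure μ] {g : α → α → ℝ} (hg : Measurable fun t : α × α => g t.1 t.2)
    (C : ℝ) (hb : ∀ᵐ x ∂μ, ∀ᵐ y ∂μ, 0 ≤ g x y ∧ g x y ≤ C) :
    ∫ x, ∫ y, g x y ∂μ ∂μ = (∫⁻ x, ∫⁻ y, ENNReal.ofReal (g x y) ∂μ ∂μ).toReal := by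
  have hgx : ∀ x, Measurable fun y => g x y := fun x =>
    hg.comp (measurable_const.prodMk measurable_id)
  have h1 : ∀ᵐ x ∂μ, ∫ y, g x y ∂μ = (∫⁻ y, ENNReal.ofReal (g x y) ∂μ).toReal := by
    filter_upwards [hb] with x hx
    refine integral_eq_lintegral_of_nonneg_ae ?_ (hgx x).aestronglyMeasurable
    filter_upwards [hx] with y hy
    exact hy.1
  rw [integral_congr_ae h1, integral_toReal]
  · exact (hg.ennreal_ofReal.lintegral_prod_right').aemeasurable
  · filter_upwards [hb] with x hx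
    have h2 : ∫⁻ y, ENNReal.ofReal (g x y) ∂μ ≤ ∫⁻ _y, ENNReal.ofReal C ∂μ := by
      refine lintegral_mono_ae ?_
      filter_upwards [hx] with y hy
      exact ENNReal.ofReal_le_ofReal hy.2
    rw [lintegral_const, measure_univ, mul_one] at h2
    exact lt_of_le_of_lt h2 ENNReal.ofReal_lt_top

lemma lintegral_leb_ite {S m : ℝ} (hm0 : 0 ≤ m) (hmS : m ≤ S) {φ : ℝ → ℝ}
    (hφ0 : ∀ s, 0 < s → 0 ≤ φ s) (hint : IntervalIntegrable φ volume 0 m)
    [DecidablePred fun s : ℝ => s < m] :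
    ∫⁻ s, ENNReal.ofReal (if s < m then φ s else 0) ∂(leb S)
      = ENNReal.ofReal (∫ s in (0 : ℝ)..m, φ s) := by
  have h1 : ∀ s : ℝ, ENNReal.ofReal (if s < m then φ s else 0)
      = (Iio m).indicator (fun s => ENNReal.ofReal (φ s)) s := by
    intro s
    by_cases hs : s < m
    · rw [if_pos hs, indicator_of_mem (show s ∈ Iio m from hs)]
    · rw [if_neg hs, indicator_of_notMem (show s ∉ Iio m from hs), ENNReal.ofReal_zero]
  simp_rw [h1]
  unfold leb
  rw [lintegral_indicator measurableSet_Iio, Measure.restrict_restrict measurableSet_Iio]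
  have h2 : Iio m ∩ Ioc 0 S = Ioo 0 m := by
    ext s
    simp only [mem_inter_iff, mem_Iio, mem_Ioc, mem_Ioo]
    constructor
    · rintro ⟨a, b, _⟩
      exact ⟨b, a⟩
    · rintro ⟨a, b⟩
      exact ⟨b, a, by linarith⟩
  rw [h2, Measure.restrict_congr_set Ioo_ae_eq_Ioc, intervalIntegral.integral_of_le hm0]
  have hint' : Integrable φ (volume.restrict (Ioc 0 m)) :=
    (intervalIntegrable_iff_integrableOn_Ioc_of_le hm0).1 hint
  rw [ofReal_integral_eq_lintegral_ofReal hint']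
  filter_upwards [ae_restrict_mem measurableSet_Ioc] with s hs
  exact hφ0 s hs.1

lemma mean_real (p : Par) (h : ℕ) (hh : 2 * p.k + 1 ≤ h) {φ : ℝ → ℝ} (hφ : Measurable φ)
    (hφ0 : ∀ s, 0 < s → 0 ≤ φ s) (Φ : ℝ → ℝ) (hΦm : Measurable Φ) (C : ℝ)
    (hΦ : ∀ m, 0 < m → m ≤ p.B ^ 2 → IntervalIntegrable φ volume 0 m ∧
      ∫ s in (0 : ℝ)..m, φ s = Φ m ∧ 0 ≤ Φ m ∧ Φ m ≤ C) :
    ∫ ξ, gsum (gfun p φ) ξ ∂(troot (vinitx p) (updx p) (p.B ^ 2) h)
      = ∫ ζ, ∫ ζ', Φ (mthr p ζ ζ') ∂(nb p h) ∂(nb p h) := by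
  have hm : Measurable (gsum (gfun p φ)) := measurable_gsum (measurable_gfun p hφ)
  rw [integral_eq_lintegral_of_nonneg_ae _ hm.aestronglyMeasurable]
  · rw [mean_aux p h hh hφ hφ0, integral_integral_toReal (nb p h)
      (g := fun ζ ζ' => Φ (mthr p ζ ζ')) (hΦm.comp (measurable_mthr p)) C]
    · congr 1
      refine lintegral_congr_ae ?_
      filter_upwards [good_ae p h] with ζ hζ
      refine lintegral_congr_ae ?_
      filter_upwards [good_ae p h] with ζ' hζ'
      obtain ⟨b1, b2⟩ := mthr_bounds hζ hζ'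
      obtain ⟨c1, c2, -, -⟩ := hΦ _ b1 b2
      unfold pairR pairI
      rw [lintegral_leb_ite b1.le b2 hφ0 c1, c2]
    · filter_upwards [good_ae p h] with ζ hζ
      filter_upwards [good_ae p h] with ζ' hζ'
      obtain ⟨b1, b2⟩ := mthr_bounds hζ hζ'
      obtain ⟨-, -, c3, c4⟩ := hΦ _ b1 b2
      exact ⟨c3, c4⟩
  · filter_upwards [troot_points_ae p h] with ξ hξ
    have := gsum_le (gfun p φ) (gfun p φ) 1 ξ (fun q hq ζ => ⟨by
      unfold gfun
      split_ifs
      · exact hφ0 _ (hξ q hq).1.1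
      · exact le_refl _, by rw [one_mul]⟩)
    exact this.1

end ST

theorem dfun_mean (p : Par) (h : ℕ) (hh : 2 * p.k + 1 ≤ h) :
    ∫ ξ, dfun p ξ ∂(troot (vinitx p) (updx p) (p.B ^ 2) h)
      = ∫ ξ, ∫ ξ', mthr p ξ ξ' ∂(nb p h) ∂(nb p h) := by
  have h1 := ST.mean_real p h hh (φ := fun _ => 1) measurable_const (fun _ _ => zero_le_one)
    (fun m => m) measurable_id (p.B ^ 2) (fun m hm hmB => ⟨intervalIntegrable_const, by simp,
      hm.le, hmB⟩)
  simp_rw [← ST.dfun_eq] at h1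
  exact h1

theorem cfun_mean (p : Par) (d h : ℕ) (hd : 2 ≤ d) (hh : 2 * p.k + 1 ≤ h) :
    ∫ ξ, cfun p d ξ ∂(troot (vinitx p) (updx p) (p.B ^ 2) h)
      = (1 / 2) * ∫ ξ, ∫ ξ', (mthr p ξ ξ') ^ (1 + 1 / (d : ℝ)) / (1 + 1 / (d : ℝ))
          ∂(nb p h) ∂(nb p h) := by
  have hd0 : (0 : ℝ) < d := by
    have : 0 < d := by omega
    exact_mod_cast this
  have hd1 : (0 : ℝ) < 1 / (d : ℝ) := by positivity
  have h1 := ST.mean_real p h hh (φ := fun s => s ^ (1 / (d : ℝ)) / 2) (ST.measurable_phi d)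
    (fun s hs => by positivity)
    (fun m => (1 / 2) * (m ^ (1 + 1 / (d : ℝ)) / (1 + 1 / (d : ℝ))))
    ((((measurable_id.pow_const _).div_const _)).const_mul _)
    ((1 / 2) * ((p.B ^ 2) ^ (1 + 1 / (d : ℝ)) / (1 + 1 / (d : ℝ)))) (fun m hm hmB => by
      refine ⟨?_, ?_, ?_, ?_⟩
      · exact (intervalIntegral.intervalIntegrable_rpow' (by linarith)).div_const _
      · rw [intervalIntegral.integral_div, integral_rpow (Or.inl (by linarith)),
          Real.zero_rpow (by positivity), sub_zero, add_comm (1 / (d : ℝ)) 1]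
        ring
      · positivity
      · gcongr)
  simp_rw [← ST.cfun_eq] at h1
  rw [h1]
  simp_rw [integral_const_mul]

end Pool.Agent.TSPd97
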