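import Pool.Agent.TSPd97.EucDefs

/-!
MP_076557_pr, package TLo: potentials bound the tour from below.
-/

set_option autoImplicit false

open MeasureTheory Set Filter Topology
open scoped ENNReal

namespace Pool.Agent.TSPd97

namespace TLo

lemma rot_ne {n : ℕ} (hn : 3 ≤ n) (i : Fin n) : finRotate n i ≠ i := by
  obtain ⟨m, rfl⟩ : ∃ m, n = m + 3 := ⟨n - 3, by omega⟩
  rw [finRotate_apply]
  intro h
  have h1 : (1 : Fin (m + 3)) = 0 := by
    have := congrArg (fun z => z - i) h
    simpa using this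
  exact absurd (congrArg Fin.val h1) (by simp)

lemma rot_rot_ne {n : ℕ} (hn : 3 ≤ n) (i : Fin n) : finRotate n i ≠ (finRotate n).symm i := by
  intro h
  have h2 : finRotate n (finRotate n i) = i := by rw [h, Equiv.apply_symm_apply]
  obtain ⟨m, rfl⟩ : ∃ m, n = m + 3 := ⟨n - 3, by omega⟩
  rw [finRotate_apply, finRotate_apply] at h2
  have h1 : (1 : Fin (m + 3)) + 1 = 0 := by
    have := congrArg (fun z => z - i) h2
    simpa [add_assoc] using this
  have h3 := congrArg Fin.val h1
  simp [Fin.val_add] at h3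
  rw [Nat.mod_eq_of_lt (by omega)] at h3
  omega

/-- a nonnegative symmetric function summed along a closed tour -/
lemma sum_tour_le {n : ℕ} (hn : 3 ≤ n) (g : Fin n → Fin n → ℝ) (hg0 : ∀ a b, 0 ≤ g a b)
    (hgs : ∀ a b, g a b = g b a) (σ : Equiv.Perm (Fin n)) :
    ∑ i, g (σ i) (σ (finRotate n i)) ≤ (1 / 2) * ∑ a, ∑ b, g a b := by
  classical
  have e1 : ∑ a, ∑ b, g a b = ∑ i, ∑ j, g (σ i) (σ j) := by
    rw [← Equiv.sum_comp σ (fun a => ∑ b, g a b)]
    refine Finset.sum_congr rfl fun i _ => ?_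
    rw [← Equiv.sum_comp σ (fun b => g (σ i) b)]
  have e2 : ∀ i, g (σ i) (σ (finRotate n i)) + g (σ i) (σ ((finRotate n).symm i))
      ≤ ∑ j, g (σ i) (σ j) := by
    intro i
    rw [← Finset.sum_pair (f := fun j => g (σ i) (σ j)) (rot_rot_ne hn i)]
    exact Finset.sum_le_sum_of_subset_of_nonneg (Finset.subset_univ _) fun j _ _ => hg0 _ _
  have e3 : ∑ i, g (σ i) (σ ((finRotate n).symm i)) = ∑ i, g (σ i) (σ (finRotate n i)) := by
    rw [← Equiv.sum_comp (finRotate n) (fun i => g (σ i) (σ ((finRotate n).symm i)))]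
    refine Finset.sum_congr rfl fun i _ => ?_
    rw [Equiv.symm_apply_apply, hgs]
  have e4 := Finset.sum_le_sum fun (i : Fin n) (_ : i ∈ Finset.univ) => e2 i
  rw [Finset.sum_add_distrib, e3, ← e1] at e4
  linarith

end TLo

open Classical in
theorem tour_lower {d : ℕ} (hd : 2 ≤ d) {K S : ℝ} (hK : 0 < K) (hS : 1 ≤ S) {n : ℕ} (hn : 3 ≤ n)
    (x : Fin n → Vd d) (hx : Function.Injective x) (pt : Fin n → ℝ)
    (hpt : ∀ i, pt i ≤ Real.log S) :
    K ^ (-(1 / (d : ℝ))) * ((n : ℝ) + (1 / d) * (∑ i, pt i - (1 / 2) * ∑ i, ∑ j,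
      (if x j ∈ Nb K S (x i) then
        max 0 (pt i / 2 + pt j / 2 - Real.log (sd K (x i) (x j))) else 0))) ≤ tsp x := by
  have hd0 : (0 : ℝ) < d := by positivity
  have hdn : d ≠ 0 := by omega
  unfold tsp
  refine le_ciInf fun σ => ?_
  set g : Fin n → Fin n → ℝ := fun i j => if x j ∈ Nb K S (x i) then
        max 0 (pt i / 2 + pt j / 2 - Real.log (sd K (x i) (x j))) else 0 with hg
  have hsd : ∀ i j, sd K (x i) (x j) = sd K (x j) (x i) := fun i j => by
    unfold sd; rw [dist_comm]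
  have hg0 : ∀ a b, 0 ≤ g a b := by
    intro a b
    simp only [hg]
    split_ifs
    · exact le_max_left _ _
    · exact le_rfl
  have hgs : ∀ a b, g a b = g b a := by
    intro a b
    have hN : x b ∈ Nb K S (x a) ↔ x a ∈ Nb K S (x b) := by
      unfold Nb
      simp only [Set.mem_ofPred_eq]
      rw [hsd]
    simp only [hg]
    by_cases h : x b ∈ Nb K S (x a)
    · rw [if_pos h, if_pos (hN.1 h), hsd a b, add_comm (pt a / 2)]
    · rw [if_neg h, if_neg (fun h' => h (hN.2 h'))]
  have hsum := TLo.sum_tour_le hn g hg0 hgs σ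
  -- each edge
  have hedge : ∀ i, K ^ (-(1 / (d : ℝ))) * (1 + (1 / d) * (pt (σ i) / 2 + pt (σ (finRotate n i)) / 2
      - g (σ i) (σ (finRotate n i)))) ≤ dist (x (σ i)) (x (σ (finRotate n i))) := by
    intro i
    set a := σ i
    set b := σ (finRotate n i)
    have hab : a ≠ b := fun h => TLo.rot_ne hn i (σ.injective h).symm
    have hdist : 0 < dist (x a) (x b) := dist_pos.2 fun h => hab (hx h)
    have hs0 : 0 < sd K (x a) (x b) := by unfold sd; positivity
    have hlog : pt a / 2 + pt b / 2 - g a b ≤ Real.log (sd K (x a) (x b)) := by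
      simp only [hg]
      split_ifs with h
      · have := le_max_right 0 (pt a / 2 + pt b / 2 - Real.log (sd K (x a) (x b)))
        linarith
      · have h1 : S < sd K (x a) (x b) := by
          by_contra hcon
          push Not at hcon
          exact h ⟨hs0, hcon⟩
        have h2 := Real.log_le_log (by linarith) h1.le
        have h3 := hpt a
        have h4 := hpt b
        linarith
    have hkey : K ^ (-(1 / (d : ℝ))) * (sd K (x a) (x b)) ^ (1 / (d : ℝ)) = dist (x a) (x b) := by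
      unfold sd
      rw [Real.mul_rpow hK.le (by positivity), ← mul_assoc, ← Real.rpow_add hK, neg_add_cancel,
        Real.rpow_zero, one_mul, one_div, Real.pow_rpow_inv_natCast hdist.le hdn]
    rw [← hkey]
    refine mul_le_mul_of_nonneg_left ?_ (by positivity)
    rw [Real.rpow_def_of_pos hs0]
    have h5 := Real.add_one_le_exp (Real.log (sd K (x a) (x b)) * (1 / (d : ℝ)))
    have h6 : (1 / (d : ℝ)) * (pt a / 2 + pt b / 2 - g a b)
        ≤ Real.log (sd K (x a) (x b)) * (1 / (d : ℝ)) := by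
      rw [mul_comm]
      exact mul_le_mul_of_nonneg_right hlog (by positivity)
    linarith
  refine le_trans ?_ (Finset.sum_le_sum fun i _ => hedge i)
  rw [← Finset.mul_sum]
  refine mul_le_mul_of_nonneg_left ?_ (by positivity)
  rw [Finset.sum_add_distrib, ← Finset.mul_sum, Finset.sum_sub_distrib, Finset.sum_add_distrib]
  have e1 : ∑ i, pt (σ i) / 2 = ∑ i, pt i / 2 := Equiv.sum_comp σ fun i => pt i / 2
  have e2 : ∑ i, pt (σ (finRotate n i)) / 2 = ∑ i, pt i / 2 := by
    rw [Equiv.sum_comp (finRotate n) fun i => pt (σ i) / 2, e1]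
  rw [e1, e2, ← Finset.sum_add_distrib]
  have e3 : ∑ i, (pt i / 2 + pt i / 2) = ∑ i, pt i := Finset.sum_congr rfl fun i _ => by ring
  rw [e3]
  have e4 : ∑ _i : Fin n, (1 : ℝ) = n := by simp
  rw [e4]
  have h7 : (1 / (d : ℝ)) * (∑ i, pt i - (1 / 2) * ∑ i, ∑ j, g i j)
      ≤ (1 / (d : ℝ)) * (∑ i, pt i - ∑ i, g (σ i) (σ (finRotate n i))) :=
    mul_le_mul_of_nonneg_left (by linarith) (by positivity)
  linarith

end Pool.Agent.TSPd97
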