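import Pool.Agent.TSPd97.TreeAa

/-!
MP_076557_pr, package TB (helper29): the master recursion for the message laws on the tree.
-/

set_option autoImplicit false

open MeasureTheory Set
open scoped ENNReal

namespace Pool.Agent.TSPd97

namespace TB

/-- `P(Poisson(x) ≤ 1)` -/
noncomputable def psi (x : ℝ) : ℝ := Real.exp (-x) * (1 + x)

lemma psi_nonneg {x : ℝ} (hx : 0 ≤ x) : 0 ≤ psi x := by
  unfold psi; positivity

lemma PP_card_le_one {E : Type*} [MeasurableSpace E] (ν : Measure E) [IsFiniteMeasure ν]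
    {A : Set E} (hA : MeasurableSet A) :
    PP ν {s | Multiset.card (restr A s) ≤ 1} = ENNReal.ofReal (psi (ν A).toReal) := by
  have h : {s : Multiset E | Multiset.card (restr A s) ≤ 1}
      = {s | Multiset.card (restr A s) = 0} ∪ {s | Multiset.card (restr A s) = 1} := by
    ext s
    simp only [mem_ofPred_eq, mem_union]
    omega
  have hm : Measurable fun s : Multiset E => Multiset.card (restr A s) :=
    measurable_mcard (measurable_restr_const hA measurable_id)
  have h1 : MeasurableSet {s : Multiset E | Multiset.card (restr A s) = 1} :=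
    hm (measurableSet_singleton 1)
  have hd : Disjoint {s : Multiset E | Multiset.card (restr A s) = 0}
      {s | Multiset.card (restr A s) = 1} := by
    rw [Set.disjoint_left]
    intro s h0 h1
    simp only [mem_ofPred_eq] at h0 h1
    omega
  rw [h, measure_union hd h1, PP_card_restr_eq ν hA, PP_card_restr_eq ν hA]
  have hfin : ν A ≠ ∞ := measure_ne_top ν A
  have hx : ν A = ENNReal.ofReal (ν A).toReal := (ENNReal.ofReal_toReal hfin).symm
  set x := (ν A).toReal with hxd
  have hx0 : 0 ≤ x := ENNReal.toReal_nonneg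
  unfold eneg psi
  rw [ENNReal.ofReal_mul (Real.exp_pos _).le, ENNReal.ofReal_add zero_le_one hx0, ← hx]
  simp only [← hxd, Nat.factorial_zero, Nat.factorial_one, Nat.cast_one, inv_one, mul_one,
    pow_zero, pow_one, ENNReal.ofReal_one]
  ring

lemma PP_event_le {E : Type*} [MeasurableSpace E] (ν : Measure E) [IsFiniteMeasure ν]
    {A B : Set E} (hA : MeasurableSet A) (hB : MeasurableSet B) :
    PP ν {s | Multiset.card (restr B s) ≤ 1 ∧ 1 < Multiset.card (restr A s)}
      ≤ ENNReal.ofReal (psi (ν B).toReal - psi (ν (A ∪ B)).toReal) := by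
  have hm : ∀ {C : Set E}, MeasurableSet C →
      MeasurableSet {s : Multiset E | Multiset.card (restr C s) ≤ 1} := fun hC =>
    (measurable_mcard (measurable_restr_const hC measurable_id)) measurableSet_Iic
  have hsub : {s : Multiset E | Multiset.card (restr (A ∪ B) s) ≤ 1}
      ⊆ {s | Multiset.card (restr B s) ≤ 1} := by
    intro s hs
    simp only [mem_ofPred_eq] at hs ⊢
    exact (card_restr_mono (subset_union_right) s).trans hs
  have h1 : {s : Multiset E | Multiset.card (restr B s) ≤ 1 ∧ 1 < Multiset.card (restr A s)}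
      ⊆ {s | Multiset.card (restr B s) ≤ 1} \ {s | Multiset.card (restr (A ∪ B) s) ≤ 1} := by
    intro s hs
    simp only [mem_ofPred_eq, mem_sdiff, not_le] at hs ⊢
    exact ⟨hs.1, hs.2.trans_le (card_restr_mono (subset_union_left) s)⟩
  refine (measure_mono h1).trans ?_
  rw [measure_sdiff hsub (hm (hA.union hB)).nullMeasurableSet (measure_ne_top _ _),
    PP_card_le_one ν hB, PP_card_le_one ν (hA.union hB), ENNReal.ofReal_sub]
  exact psi_nonneg ENNReal.toReal_nonneg

lemma leb_Iic {S r : ℝ} (h1 : r ≤ S) : leb S (Iic r) = ENNReal.ofReal r := by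
  unfold leb
  rw [Measure.restrict_apply measurableSet_Iic]
  have : Iic r ∩ Ioc 0 S = Ioc 0 r := by
    ext x
    simp only [mem_inter_iff, mem_Iic, mem_Ioc]
    constructor
    · rintro ⟨a, b, c⟩; exact ⟨b, a⟩
    · rintro ⟨a, b⟩; exact ⟨b, a, b.trans h1⟩
  rw [this, Real.volume_Ioc, sub_zero]

lemma nu_region (p : Par) (h : ℕ) {f : (ℕ → ℝ) → ℝ} (hf : Measurable f)
    (h0 : ∀ᵐ w ∂(mu p h), 0 ≤ f w ∧ f w ≤ p.B ^ 2) :
    ((leb (p.B ^ 2)).prod (mu p h)) {q : ℝ × (ℕ → ℝ) | q.1 ≤ f q.2}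
      = ∫⁻ w, ENNReal.ofReal (f w) ∂(mu p h) := by
  have hm : MeasurableSet {q : ℝ × (ℕ → ℝ) | q.1 ≤ f q.2} :=
    measurableSet_le measurable_fst (hf.comp measurable_snd)
  rw [Measure.prod_apply_symm hm]
  refine lintegral_congr_ae ?_
  filter_upwards [h0] with w hw
  have : (fun x : ℝ => (x, w)) ⁻¹' {q : ℝ × (ℕ → ℝ) | q.1 ≤ f q.2} = Iic (f w) := by
    ext x; simp
  rw [this, leb_Iic hw.2]

lemma par_B_pos (p : Par) : 0 < p.B := by
  have h1 := p.hk
  have h2 := p.hkB
  have h3 : (8 : ℝ) ≤ p.k := by exact_mod_cast h1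
  linarith

lemma par_m_pos (p : Par) : 0 < p.m := lt_of_lt_of_le one_pos p.hm1

lemma integrable_level (p : Par) (h j : ℕ) (hj : j ≤ 2 * p.k) :
    Integrable (fun w : ℕ → ℝ => w j) (mu p h) := by
  refine Integrable.of_bound (measurable_pi_apply j).aestronglyMeasurable p.B ?_
  filter_upwards [mu_pos p h j hj] with w hw
  rw [Real.norm_eq_abs, abs_of_pos hw.1]
  exact hw.2

lemma integrable_diff (p : Par) (h i j : ℕ) (hi : i ≤ 2 * p.k) (hj : j ≤ 2 * p.k) (u : ℝ) :
    Integrable (fun w : ℕ → ℝ => max 0 (u * w i - w j)) (mu p h) := by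
  have h1 := ((integrable_level p h i hi).const_mul u).sub (integrable_level p h j hj)
  have h2 := (integrable_zero (ℕ → ℝ) ℝ (mu p h)).sup h1
  exact h2

/-- the probability of the key event -/
lemma key_prob (p : Par) (h i j : ℕ) (hi : i ≤ 2 * p.k) (hj : j ≤ 2 * p.k)
    (u : ℝ) (hu0 : 0 < u) (hu1 : u ≤ 1) (a' : ℝ)
    (ha' : a' = (∫ w, max 0 (u * w j - w i) ∂(mu p h)) / p.m)
    (t : ℝ) (ht0 : 0 ≤ t) (ht : t < u * p.B) :
    (nb p h) {ξ | os 1 p.B (ξ.map fun q => q.1 / q.2 j) ≤ t ∧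
        t < u * os 1 p.B (ξ.map fun q => q.1 / q.2 i)}
      ≤ ENNReal.ofReal (psi (p.m / u * t) - psi ((1 + a') * (p.m / u * t))) := by
  have hB := par_B_pos p
  have hm := par_m_pos p
  set A : Set (ℝ × (ℕ → ℝ)) := (fun q => q.1 / q.2 j) ⁻¹' Iic t with hA
  set D : Set (ℝ × (ℕ → ℝ)) := (fun q => q.1 / q.2 i) ⁻¹' Iic (t / u) with hD
  have hmj : ∀ l : ℕ, Measurable (fun q : ℝ × (ℕ → ℝ) => q.1 / q.2 l) := fun l =>
    measurable_fst.div ((measurable_pi_apply l).comp measurable_snd)
  have hmA : MeasurableSet A := hmj j measurableSet_Iic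
  have hmD : MeasurableSet D := hmj i measurableSet_Iic
  have htB : t < p.B := ht.trans_le (by nlinarith)
  have htu : t / u < p.B := by rw [div_lt_iff₀ hu0]; linarith
  have htu0 : 0 ≤ t / u := div_nonneg ht0 hu0.le
  have hset : {ξ : Multiset (ℝ × (ℕ → ℝ)) | os 1 p.B (ξ.map fun q => q.1 / q.2 j) ≤ t ∧
        t < u * os 1 p.B (ξ.map fun q => q.1 / q.2 i)}
      = {ξ | Multiset.card (restr D ξ) ≤ 1 ∧ 1 < Multiset.card (restr A ξ)} := by
    ext ξ
    simp only [mem_ofPred_eq]
    rw [os_le_iff, restr_map, Multiset.card_map]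
    have h2 : t < u * os 1 p.B (ξ.map fun q => q.1 / q.2 i)
        ↔ t / u < os 1 p.B (ξ.map fun q => q.1 / q.2 i) := by
      rw [div_lt_iff₀ hu0, mul_comm]
    rw [h2, lt_os_iff, restr_map, Multiset.card_map]
    constructor
    · rintro ⟨h3 | h3, h4⟩
      · exact absurd h3 (not_le.2 htB)
      · exact ⟨h4.2, h3⟩
    · rintro ⟨h3, h4⟩
      exact ⟨Or.inr h4, htu, h3⟩
  rw [hset]
  unfold nb
  refine (PP_event_le _ hmA hmD).trans ?_
  have hνD : (((leb (p.B ^ 2)).prod (mu p h)) D).toReal = p.m / u * t := by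
    have e1 : ((leb (p.B ^ 2)).prod (mu p h)) D
        = ((leb (p.B ^ 2)).prod (mu p h)) {q : ℝ × (ℕ → ℝ) | q.1 ≤ (fun w : ℕ → ℝ => t / u * w i) q.2} := by
      refine measure_congr ?_
      have := (Measure.quasiMeasurePreserving_snd (μ := leb (p.B ^ 2)) (ν := mu p h)).ae
        (mu_pos p h i hi)
      filter_upwards [this] with q hq
      refine propext ?_
      change q.1 / q.2 i ≤ t / u ↔ q.1 ≤ t / u * q.2 i
      rw [div_le_iff₀ hq.1]
    rw [e1, nu_region p h ((measurable_pi_apply i).const_mul _)]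
    · rw [← integral_eq_lintegral_of_nonneg_ae]
      · rw [integral_const_mul, mu_mean p h i hi]
        ring
      · filter_upwards [mu_pos p h i hi] with w hw
        exact mul_nonneg htu0 hw.1.le
      · exact ((measurable_pi_apply i).const_mul _).aestronglyMeasurable
    · filter_upwards [mu_pos p h i hi] with w hw
      refine ⟨mul_nonneg htu0 hw.1.le, ?_⟩
      rw [sq]
      exact mul_le_mul htu.le hw.2 hw.1.le hB.le
  have hνAD : (((leb (p.B ^ 2)).prod (mu p h)) (A ∪ D)).toReal = (1 + a') * (p.m / u * t) := by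
    have e1 : ((leb (p.B ^ 2)).prod (mu p h)) (A ∪ D)
        = ((leb (p.B ^ 2)).prod (mu p h)) {q : ℝ × (ℕ → ℝ) | q.1 ≤
            (fun w : ℕ → ℝ => t / u * (w i + max 0 (u * w j - w i))) q.2} := by
      refine measure_congr ?_
      have h1 := (Measure.quasiMeasurePreserving_snd (μ := leb (p.B ^ 2)) (ν := mu p h)).ae
        (mu_pos p h i hi)
      have h2 := (Measure.quasiMeasurePreserving_snd (μ := leb (p.B ^ 2)) (ν := mu p h)).ae
        (mu_pos p h j hj)
      filter_upwards [h1, h2] with q hq1 hq2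
      refine propext ?_
      change (q.1 / q.2 j ≤ t ∨ q.1 / q.2 i ≤ t / u) ↔
        q.1 ≤ t / u * (q.2 i + max 0 (u * q.2 j - q.2 i))
      rw [div_le_iff₀ hq1.1, div_le_iff₀ hq2.1]
      have e2 : t / u * (q.2 i + max 0 (u * q.2 j - q.2 i))
          = max (t / u * q.2 i) (t * q.2 j) := by
        rcases le_total (u * q.2 j - q.2 i) 0 with h3 | h3
        · rw [max_eq_left h3, add_zero, max_eq_left]
          have : t * q.2 j = t / u * (u * q.2 j) := by field_simp
          rw [this]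
          exact mul_le_mul_of_nonneg_left (by linarith) htu0
        · rw [max_eq_right h3, max_eq_right]
          · field_simp; ring
          · have : t * q.2 j = t / u * (u * q.2 j) := by field_simp
            rw [this]
            exact mul_le_mul_of_nonneg_left (by linarith) htu0
      rw [e2, le_max_iff]
      exact or_comm
    have hmf : Measurable (fun w : ℕ → ℝ => t / u * (w i + max 0 (u * w j - w i))) := by
      have h0 : Measurable (fun w : ℕ → ℝ => w j) := measurable_pi_apply j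
      have h1 : Measurable (fun w : ℕ → ℝ => u * w j) := h0.const_mul u
      have h2 : Measurable (fun w : ℕ → ℝ => w i) := measurable_pi_apply i
      have h3 : Measurable (fun w : ℕ → ℝ => max 0 (u * w j - w i)) :=
        measurable_const.max (h1.sub h2)
      exact (h2.add h3).const_mul _
    rw [e1, nu_region p h hmf]
    · rw [← integral_eq_lintegral_of_nonneg_ae]
      · rw [integral_const_mul, integral_add (integrable_level p h i hi)
          (integrable_diff p h j i hj hi u), mu_mean p h i hi]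
        have : ∫ w, max 0 (u * w j - w i) ∂(mu p h) = p.m * a' := by
          rw [ha']; field_simp
        rw [this]
        ring
      · filter_upwards [mu_pos p h i hi] with w hw
        exact mul_nonneg htu0 (add_nonneg hw.1.le (le_max_left _ _))
      · exact hmf.aestronglyMeasurable
    · filter_upwards [mu_pos p h i hi, mu_pos p h j hj] with w hw1 hw2
      refine ⟨mul_nonneg htu0 (add_nonneg hw1.1.le (le_max_left _ _)), ?_⟩
      rw [sq]
      refine mul_le_mul htu.le ?_ (add_nonneg hw1.1.le (le_max_left _ _)) hB.le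
      rcases le_total (u * w j - w i) 0 with h3 | h3
      · rw [max_eq_left h3, add_zero]; exact hw1.2
      · rw [max_eq_right h3]
        nlinarith [hw2.1, hw2.2]
  rw [hνD, hνAD]

lemma psi_anti {x y : ℝ} (hx : 0 ≤ x) (hxy : x ≤ y) : psi y ≤ psi x := by
  unfold psi
  have h1 : Real.exp (-x) = Real.exp (-y) * Real.exp (y - x) := by
    rw [← Real.exp_add]; ring_nf
  rw [h1, mul_assoc]
  refine mul_le_mul_of_nonneg_left ?_ (Real.exp_pos _).le
  have h2 := Real.add_one_le_exp (y - x)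
  have h3 := mul_le_mul_of_nonneg_right h2 (by linarith : (0:ℝ) ≤ 1 + x)
  nlinarith [mul_nonneg hx (sub_nonneg.2 hxy)]

lemma continuous_psi : Continuous psi := by
  unfold psi
  fun_prop

lemma psi_int (c T : ℝ) (hc : c ≠ 0) :
    ∫ t in (0:ℝ)..T, psi (c * t) = (2 - Real.exp (-(c * T)) * (2 + c * T)) / c := by
  have hd : ∀ t ∈ Set.uIcc 0 T,
      HasDerivAt (fun t => -(Real.exp (-(c * t)) * (2 + c * t)) / c) (psi (c * t)) t := by
    intro t _
    have h1 : HasDerivAt (fun t => c * t) c t := by simpa using (hasDerivAt_id t).const_mul c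
    have h2 := (h1.neg.exp).mul (h1.const_add 2)
    have h3 : HasDerivAt (fun t => -(Real.exp (-(c * t)) * (2 + c * t)) / c)
        (-(Real.exp (-(c * t)) * (-c) * (2 + c * t) + Real.exp (-(c * t)) * c) / c) t :=
      h2.neg.div_const c
    refine h3.congr_deriv ?_
    unfold psi
    field_simp
    ring
  have hcont : Continuous (fun t => psi (c * t)) := continuous_psi.comp (by fun_prop)
  rw [intervalIntegral.integral_eq_sub_of_hasDerivAt hd (hcont.intervalIntegrable _ _)]
  simp only [mul_zero, neg_zero, Real.exp_zero, add_zero, one_mul]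
  field_simp
  ring

/-- the value of the integral of the key probabilities -/
lemma psi_diff_int (m u B b : ℝ) (hm : 0 < m) (hu : 0 < u) (hB : 0 < B) (hb : 1 ≤ b) :
    ∫ t in (0:ℝ)..(u * B), (psi (m / u * t) - psi (b * (m / u * t)))
      ≤ 2 * u / m * (1 - 1 / b) := by
  have hb0 : 0 < b := one_pos.trans_le hb
  have hc : 0 < m / u := div_pos hm hu
  have i1 : IntervalIntegrable (fun t => psi (m / u * t)) volume 0 (u * B) :=
    (continuous_psi.comp (by fun_prop)).intervalIntegrable _ _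
  have i2 : IntervalIntegrable (fun t => psi (b * (m / u * t))) volume 0 (u * B) :=
    (continuous_psi.comp (by fun_prop)).intervalIntegrable _ _
  have e2 : ∫ t in (0:ℝ)..(u * B), psi (b * (m / u * t))
      = ∫ t in (0:ℝ)..(u * B), psi ((b * (m / u)) * t) := by
    congr 1; funext t; rw [mul_assoc]
  rw [intervalIntegral.integral_sub i1 i2, e2, psi_int _ _ hc.ne', psi_int _ _ (by positivity)]
  have e3 : m / u * (u * B) = m * B := by field_simp
  have e4 : b * (m / u) * (u * B) = b * (m * B) := by field_simp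
  rw [e3, e4]
  set x := m * B with hx
  have hx0 : 0 < x := by positivity
  have key : Real.exp (-(b * x)) * (2 + b * x) / b ≤ Real.exp (-x) * (2 + x) := by
    rw [div_le_iff₀ hb0]
    have h1 : Real.exp (-(b * x)) ≤ Real.exp (-x) := by
      apply Real.exp_le_exp.2
      nlinarith
    calc Real.exp (-(b * x)) * (2 + b * x) ≤ Real.exp (-x) * (2 + b * x) :=
          mul_le_mul_of_nonneg_right h1 (by positivity)
      _ ≤ Real.exp (-x) * ((2 + x) * b) :=
          mul_le_mul_of_nonneg_left (by nlinarith) (Real.exp_pos _).le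
      _ = Real.exp (-x) * (2 + x) * b := by ring
  have e5 : (2 - Real.exp (-x) * (2 + x)) / (m / u)
      - (2 - Real.exp (-(b * x)) * (2 + b * x)) / (b * (m / u))
      = u / m * (2 * (1 - 1 / b) - (Real.exp (-x) * (2 + x)
          - Real.exp (-(b * x)) * (2 + b * x) / b)) := by
    field_simp
    ring
  rw [e5]
  have hum : 0 < u / m := div_pos hu hm
  have e6 : 2 * u / m * (1 - 1 / b) = u / m * (2 * (1 - 1 / b)) := by ring
  rw [e6]
  exact mul_le_mul_of_nonneg_left (by linarith) hum.le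

lemma layer_le (B : ℝ) (μ : Measure (ℕ → ℝ)) [SFinite μ] (i j : ℕ) (u : ℝ) (hu0 : 0 < u)
    (h0 : ∀ᵐ w ∂μ, 0 ≤ w j ∧ w i ≤ B) :
    ∫⁻ w, ENNReal.ofReal (max 0 (u * w i - w j)) ∂μ ≤
      ∫⁻ t in Ico 0 (u * B), μ {w | w j ≤ t ∧ t < u * w i} := by
  have hmi : Measurable (fun w : ℕ → ℝ => w i) := measurable_pi_apply i
  have hmj : Measurable (fun w : ℕ → ℝ => w j) := measurable_pi_apply j
  have hSm : MeasurableSet {q : (ℕ → ℝ) × ℝ | q.1 j ≤ q.2 ∧ q.2 < u * q.1 i} :=
    (measurableSet_le (hmj.comp measurable_fst) measurable_snd).inter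
      (measurableSet_lt measurable_snd ((hmi.comp measurable_fst).const_mul u))
  have e1 : ∫⁻ t in Ico 0 (u * B), μ {w | w j ≤ t ∧ t < u * w i}
      = (μ.prod (volume.restrict (Ico 0 (u * B))))
        {q : (ℕ → ℝ) × ℝ | q.1 j ≤ q.2 ∧ q.2 < u * q.1 i} := by
    rw [Measure.prod_apply_symm hSm]; rfl
  rw [e1, Measure.prod_apply hSm]
  refine lintegral_mono_ae ?_
  filter_upwards [h0] with w hw
  have e2 : Prod.mk w ⁻¹' {q : (ℕ → ℝ) × ℝ | q.1 j ≤ q.2 ∧ q.2 < u * q.1 i}
      = Ico (w j) (u * w i) := by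
    ext; simp
  have e3 : Ico (w j) (u * w i) ∩ Ico 0 (u * B) = Ico (w j) (u * w i) := by
    refine inter_eq_left.2 ?_
    intro t ht
    exact ⟨hw.1.trans ht.1, ht.2.trans_le (mul_le_mul_of_nonneg_left hw.2 hu0.le)⟩
  rw [e2, Measure.restrict_apply measurableSet_Ico, e3, Real.volume_Ico]
  rcases le_total (u * w i - w j) 0 with h | h
  · rw [max_eq_left h]; simp
  · rw [max_eq_right h]

lemma mu_succ_le (p : Par) (h i j : ℕ) (hi : i + 1 ≤ 2 * p.k) (hj : j + 1 ≤ 2 * p.k)
    (u : ℝ) (hu0 : 0 < u) (hu1 : u ≤ 1) (a' : ℝ)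
    (ha' : a' = (∫ w, max 0 (u * w j - w i) ∂(mu p h)) / p.m)
    (t : ℝ) (ht0 : 0 ≤ t) (ht : t < u * p.B) :
    mu p (h + 1) {w | w (j + 1) ≤ t ∧ t < u * w (i + 1)}
      ≤ ENNReal.ofReal (psi (p.m / u * t) - psi ((1 + a') * (p.m / u * t))) := by
  refine le_trans (le_of_eq ?_) (key_prob p h i j (by omega) (by omega) u hu0 hu1 a' ha' t ht0 ht)
  have hmi : Measurable (fun w : ℕ → ℝ => w (i + 1)) := measurable_pi_apply _
  have hmj : Measurable (fun w : ℕ → ℝ => w (j + 1)) := measurable_pi_apply _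
  have hm : MeasurableSet {w : ℕ → ℝ | w (j + 1) ≤ t ∧ t < u * w (i + 1)} :=
    (measurableSet_le hmj measurable_const).inter
      (measurableSet_lt measurable_const (hmi.const_mul u))
  change ((nb p h).map (upd p)) _ = _
  rw [Measure.map_apply (measurable_upd p) hm]
  congr 1
  ext ξ
  simp only [mem_preimage, mem_ofPred_eq, upd, Nat.add_eq_zero_iff, one_ne_zero, and_false,
    if_false, hi, hj, if_true, Nat.add_sub_cancel]

end TB

open TB

/-- TB1 -/
theorem master_step (p : Par) (h i j : ℕ) (hi : i + 1 ≤ 2 * p.k) (hj : j + 1 ≤ 2 * p.k)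
    (u : ℝ) (hu0 : 0 < u) (hu1 : u ≤ 1) (a a' : ℝ)
    (ha : a = (∫ w, max 0 (u * w (i + 1) - w (j + 1)) ∂(mu p (h + 1))) / p.m)
    (ha' : a' = (∫ w, max 0 (u * w j - w i) ∂(mu p h)) / p.m) :
    a ≤ (2 * u / p.m ^ 2) * (a' / (1 + a')) := by
  have hB := par_B_pos p
  have hm := par_m_pos p
  have ha'0 : 0 ≤ a' := by
    rw [ha']
    exact div_nonneg (integral_nonneg fun w => le_max_left _ _) hm.le
  have hfnn : ∀ t ∈ Ico (0:ℝ) (u * p.B),
      0 ≤ psi (p.m / u * t) - psi ((1 + a') * (p.m / u * t)) := by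
    intro t ht
    have h1 : 0 ≤ p.m / u * t := mul_nonneg (div_nonneg hm.le hu0.le) ht.1
    have := psi_anti h1 (by nlinarith : p.m / u * t ≤ (1 + a') * (p.m / u * t))
    linarith
  have hcont : Continuous fun t => psi (p.m / u * t) - psi ((1 + a') * (p.m / u * t)) :=
    (continuous_psi.comp (by fun_prop)).sub (continuous_psi.comp (by fun_prop))
  have key : ∫⁻ w, ENNReal.ofReal (max 0 (u * w (i + 1) - w (j + 1))) ∂(mu p (h + 1))
      ≤ ENNReal.ofReal (2 * u / p.m * (1 - 1 / (1 + a'))) := by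
    refine (layer_le p.B (mu p (h + 1)) (i + 1) (j + 1) u hu0 ?_).trans ?_
    · filter_upwards [mu_pos p (h + 1) (i + 1) hi, mu_pos p (h + 1) (j + 1) hj] with w h1 h2
      exact ⟨h2.1.le, h1.2⟩
    · calc ∫⁻ t in Ico 0 (u * p.B), mu p (h + 1) {w | w (j + 1) ≤ t ∧ t < u * w (i + 1)}
          ≤ ∫⁻ t in Ico 0 (u * p.B),
            ENNReal.ofReal (psi (p.m / u * t) - psi ((1 + a') * (p.m / u * t))) := by
            refine setLIntegral_mono' measurableSet_Ico ?_
            intro t ht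
            exact mu_succ_le p h i j hi hj u hu0 hu1 a' ha' t ht.1 ht.2
        _ = ENNReal.ofReal (∫ t in Ico 0 (u * p.B),
            (psi (p.m / u * t) - psi ((1 + a') * (p.m / u * t)))) := by
            rw [ofReal_integral_eq_lintegral_ofReal]
            · exact (hcont.integrableOn_Icc (a := 0) (b := u * p.B)).mono_set Ico_subset_Icc_self
            · exact (ae_restrict_iff' measurableSet_Ico).2 (Filter.Eventually.of_forall hfnn)
        _ ≤ _ := by
            refine ENNReal.ofReal_le_ofReal ?_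
            rw [integral_Ico_eq_integral_Ioc, ← intervalIntegral.integral_of_le (by positivity)]
            exact psi_diff_int p.m u p.B (1 + a') hm hu0 hB (by linarith)
  have hI : ∫ w, max 0 (u * w (i + 1) - w (j + 1)) ∂(mu p (h + 1))
      ≤ 2 * u / p.m * (1 - 1 / (1 + a')) := by
    have hnn : 0 ≤ᵐ[mu p (h + 1)] fun w : ℕ → ℝ => max 0 (u * w (i + 1) - w (j + 1)) :=
      Filter.Eventually.of_forall fun w => le_max_left _ _
    rw [integral_eq_lintegral_of_nonneg_ae hnn
      (integrable_diff p (h + 1) (i + 1) (j + 1) hi hj u).aestronglyMeasurable]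
    refine ENNReal.toReal_le_of_le_ofReal ?_ key
    have : 1 / (1 + a') ≤ 1 := by
      rw [div_le_one (by linarith)]; linarith
    have h2 : 0 ≤ 2 * u / p.m := by positivity
    exact mul_nonneg h2 (by linarith)
  rw [ha, div_le_iff₀ hm]
  refine hI.trans (le_of_eq ?_)
  have : 1 + a' ≠ 0 := by linarith
  field_simp
  ring

/-! ### iterating the master inequality -/

namespace TB

/-- `r + r^2 + ... + r^n` -/
noncomputable def gs (r : ℝ) (n : ℕ) : ℝ := ∑ l ∈ Finset.range n, r ^ (l + 1)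

lemma gs_zero (r : ℝ) : gs r 0 = 0 := by simp [gs]

lemma gs_succ (r : ℝ) (n : ℕ) : gs r (n + 1) = r * (1 + gs r n) := by
  unfold gs
  rw [Finset.sum_range_succ', mul_add, Finset.mul_sum, add_comm]
  congr 1
  · ring
  · refine Finset.sum_congr rfl (fun l _ => ?_)
    ring

lemma gs_succ' (r : ℝ) (n : ℕ) : gs r (n + 1) = gs r n + r ^ (n + 1) := by
  unfold gs
  rw [Finset.sum_range_succ]

lemma gs_nonneg {r : ℝ} (hr : 0 < r) (n : ℕ) : 0 ≤ gs r n := by
  unfold gs
  exact Finset.sum_nonneg fun l _ => by positivity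

lemma gs_mono {r : ℝ} (hr : 0 < r) {n m : ℕ} (h : n ≤ m) : gs r n ≤ gs r m := by
  unfold gs
  exact Finset.sum_le_sum_of_subset_of_nonneg (Finset.range_mono h)
    (fun l _ _ => by positivity)

lemma gs_amgm {r : ℝ} (hr : 0 < r) (q : ℕ) : (2 * q + 1) * r ^ (q + 1) ≤ gs r (2 * q + 1) := by
  induction q with
  | zero => rw [gs_succ, gs_zero]; simp
  | succ q ih =>
    have e : 2 * (q + 1) + 1 = (2 * q + 1 + 1) + 1 := by ring
    rw [e, gs_succ, gs_succ']
    push_cast
    have h1 := mul_le_mul_of_nonneg_left ih hr.le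
    have h2 : 0 ≤ r * (1 - r ^ (q + 1)) ^ 2 := by positivity
    have e2 : r ^ (2 * q + 1 + 1) = (r ^ (q + 1)) ^ 2 := by rw [← pow_mul]; ring_nf
    have e3 : r ^ (q + 1 + 1) = r * r ^ (q + 1) := by ring
    rw [e2, e3]
    nlinarith

lemma iter_bound (p : Par) (u : ℝ) (hu0 : 0 < u) (hu1 : u ≤ 1) (n : ℕ) :
    ∀ (h i j : ℕ), n + 1 ≤ h → n + 1 ≤ i → n + 1 ≤ j → i ≤ 2 * p.k → j ≤ 2 * p.k →
      (∫ w, max 0 (u * w i - w j) ∂(mu p h)) / p.m ≤ 1 / gs (p.m ^ 2 / (2 * u)) (n + 1) := by
  have hm := par_m_pos p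
  set r : ℝ := p.m ^ 2 / (2 * u) with hr
  have hr0 : 0 < r := by positivity
  have hr1 : 2 * u / p.m ^ 2 = 1 / r := by rw [hr, one_div_div]
  induction n with
  | zero =>
    intro h i j hh hi hj hi2 hj2
    obtain ⟨h, rfl⟩ : ∃ h', h = h' + 1 := ⟨h - 1, by omega⟩
    obtain ⟨i, rfl⟩ : ∃ i', i = i' + 1 := ⟨i - 1, by omega⟩
    obtain ⟨j, rfl⟩ : ∃ j', j = j' + 1 := ⟨j - 1, by omega⟩
    refine (master_step p h i j hi2 hj2 u hu0 hu1 _ _ rfl rfl).trans ?_
    rw [hr1, gs_succ, gs_zero, add_zero, mul_one]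
    set a' := (∫ w, max 0 (u * w j - w i) ∂(mu p h)) / p.m with ha'
    have ha'0 : 0 ≤ a' := div_nonneg (integral_nonneg fun w => le_max_left _ _) hm.le
    have h1 : a' / (1 + a') ≤ 1 := by
      rw [div_le_one (by linarith)]; linarith
    have h2 : 0 ≤ 1 / r := by positivity
    nlinarith
  | succ n ih =>
    intro h i j hh hi hj hi2 hj2
    obtain ⟨h, rfl⟩ : ∃ h', h = h' + 1 := ⟨h - 1, by omega⟩
    obtain ⟨i, rfl⟩ : ∃ i', i = i' + 1 := ⟨i - 1, by omega⟩
    obtain ⟨j, rfl⟩ : ∃ j', j = j' + 1 := ⟨j - 1, by omega⟩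
    refine (master_step p h i j hi2 hj2 u hu0 hu1 _ _ rfl rfl).trans ?_
    have h3 := ih h j i (by omega) (by omega) (by omega) (by omega) (by omega)
    rw [hr1, gs_succ r (n + 1)]
    set a' := (∫ w, max 0 (u * w j - w i) ∂(mu p h)) / p.m with ha'
    have ha'0 : 0 ≤ a' := div_nonneg (integral_nonneg fun w => le_max_left _ _) hm.le
    have hs : 0 < gs r (n + 1) := by
      rw [gs_succ]
      have := gs_nonneg hr0 n
      positivity
    set s := gs r (n + 1) with hsd
    have h4 : a' / (1 + a') ≤ 1 / (1 + s) := by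
      rw [div_le_div_iff₀ (by linarith) (by linarith)]
      rw [le_div_iff₀ hs] at h3
      linarith
    calc 1 / r * (a' / (1 + a')) ≤ 1 / r * (1 / (1 + s)) :=
          mul_le_mul_of_nonneg_left h4 (by positivity)
      _ = 1 / (r * (1 + s)) := by rw [one_div_mul_one_div]

lemma par_m_le (p : Par) : p.m ^ 2 ≤ 2 := by
  rw [p.hm]
  have h1 := par_B_pos p
  have h2 := par_m_pos p
  have : 0 ≤ (p.m * p.B + 2) * Real.exp (-(p.m * p.B)) := by positivity
  linarith

lemma par_g_pow (p : Par) (n : ℕ) (hn : (n : ℝ) ≤ p.k) : 1 / 2 ≤ (p.m ^ 2 / 2) ^ n := by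
  have hB := par_B_pos p
  have hm := par_m_pos p
  set z := p.m * p.B with hz
  have hk8 : (8 : ℝ) ≤ p.k := by exact_mod_cast p.hk
  have hkz : (p.k : ℝ) ≤ z := by
    have := p.hkB
    have := p.hm1
    nlinarith
  have hz8 : 8 ≤ z := hk8.trans hkz
  set ε : ℝ := (z + 2) * Real.exp (-z) / 2 with hε
  have hg : p.m ^ 2 / 2 = 1 + -ε := by
    rw [p.hm, hε]; ring
  have hexp : z * (z + 2) ≤ Real.exp z := by
    have h1 := Real.pow_div_factorial_le_exp z (by linarith) 3
    have h2 : ((Nat.factorial 3 : ℕ) : ℝ) = 6 := by norm_num [Nat.factorial]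
    rw [h2] at h1
    have h3 : z * (z + 2) ≤ z ^ 3 / 6 := by
      rw [le_div_iff₀ (by norm_num)]
      nlinarith [mul_nonneg (by linarith : (0:ℝ) ≤ z) (mul_nonneg (by linarith : (0:ℝ) ≤ z - 8)
        (by linarith : (0:ℝ) ≤ z))]
    exact h3.trans h1
  have hze : z * ε ≤ 1 / 2 := by
    have h1 : z * (z + 2) * Real.exp (-z) ≤ 1 := by
      rw [Real.exp_neg, ← div_eq_mul_inv, div_le_one (Real.exp_pos _)]
      exact hexp
    rw [hε]
    linarith
  have hε0 : 0 ≤ ε := by rw [hε]; positivity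
  have hε1 : ε ≤ 1 := by nlinarith
  rw [hg]
  refine le_trans ?_ (one_add_mul_le_pow (by linarith) n)
  have : (n : ℝ) * ε ≤ z * ε := mul_le_mul_of_nonneg_right (hn.trans hkz) hε0
  linarith

lemma diff_bound (p : Par) (u : ℝ) (hu0 : 0 < u) (hu1 : u ≤ 1) (h i j : ℕ) (hh : 2 * p.k ≤ h)
    (hi : p.k ≤ i) (hi2 : i ≤ 2 * p.k) (hj : p.k ≤ j) (hj2 : j ≤ 2 * p.k) :
    ∫ w, max 0 (u * w i - w j) ∂(mu p h) ≤ 4 / p.k * u ^ ((p.k - 1) / 2 + 1) := by
  have hm := par_m_pos p
  have hk := p.hk
  have hk8 : (8 : ℝ) ≤ p.k := by exact_mod_cast p.hk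
  set q : ℕ := (p.k - 1) / 2 with hq
  have hq1 : 2 * q + 1 ≤ p.k := by omega
  have hq2 : p.k ≤ 2 * q + 2 := by omega
  have hq2' : (p.k : ℝ) ≤ 2 * q + 2 := by exact_mod_cast hq2
  have h1 := iter_bound p u hu0 hu1 (p.k - 1) h i j (by omega) (by omega) (by omega) hi2 hj2
  have e1 : p.k - 1 + 1 = p.k := by omega
  rw [e1, div_le_iff₀ hm] at h1
  refine h1.trans ?_
  set r : ℝ := p.m ^ 2 / (2 * u) with hr
  have hr0 : 0 < r := by positivity
  have h2 : (2 * q + 1) * r ^ (q + 1) ≤ gs r p.k := (gs_amgm hr0 q).trans (gs_mono hr0 hq1)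
  have h3 : 1 / 2 / u ^ (q + 1) ≤ r ^ (q + 1) := by
    have e2 : r ^ (q + 1) = (p.m ^ 2 / 2) ^ (q + 1) / u ^ (q + 1) := by
      rw [← div_pow, hr]
      congr 1
      field_simp
    rw [e2]
    refine div_le_div_of_nonneg_right (par_g_pow p (q + 1) ?_) (by positivity)
    push_cast
    have : ((2 * q + 1 : ℕ) : ℝ) ≤ p.k := by exact_mod_cast hq1
    push_cast at this
    linarith
  have h4 : (2 * q + 1) * (1 / 2 / u ^ (q + 1)) ≤ gs r p.k :=
    (mul_le_mul_of_nonneg_left h3 (by positivity)).trans h2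
  have h5 : 0 < (2 * (q : ℝ) + 1) * (1 / 2 / u ^ (q + 1)) := by positivity
  have hm2 : p.m ≤ 3 / 2 := by
    have := par_m_le p
    nlinarith
  calc 1 / gs r p.k * p.m ≤ 1 / ((2 * q + 1) * (1 / 2 / u ^ (q + 1))) * p.m := by
        refine mul_le_mul_of_nonneg_right ?_ hm.le
        exact one_div_le_one_div_of_le h5 h4
    _ = 2 * p.m / (2 * q + 1) * u ^ (q + 1) := by
        field_simp
    _ ≤ 4 / p.k * u ^ (q + 1) := by
        refine mul_le_mul_of_nonneg_right ?_ (by positivity)
        rw [div_le_div_iff₀ (by positivity) (by linarith)]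
        nlinarith

lemma integral_F (X Y : ℝ) (hY : 0 < Y) (hXY : Y < X) :
    ∫ u in (Y / X)..1, 6 / u ^ 4 * (u * X - Y) = X ^ 3 / Y ^ 2 - 3 * X + 2 * Y := by
  have hX : 0 < X := hY.trans hXY
  have hc : 0 < Y / X := div_pos hY hX
  have hc1 : Y / X ≤ 1 := by rw [div_le_one hX]; exact hXY.le
  have hpos : ∀ u ∈ Set.uIcc (Y / X) 1, 0 < u := by
    intro u hu
    rw [Set.uIcc_of_le hc1] at hu
    exact hc.trans_le hu.1
  have hd : ∀ u ∈ Set.uIcc (Y / X) 1,
      HasDerivAt (fun u => -3 * X / u ^ 2 + 2 * Y / u ^ 3) (6 / u ^ 4 * (u * X - Y)) u := by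
    intro u hu
    have hu0 := hpos u hu
    have h1 : HasDerivAt (fun u : ℝ => u ^ 2) (2 * u) u := by
      simpa using hasDerivAt_pow 2 u
    have h2 : HasDerivAt (fun u : ℝ => u ^ 3) (3 * u ^ 2) u := by
      simpa using hasDerivAt_pow 3 u
    have h3 : HasDerivAt (fun u : ℝ => -3 * X / u ^ 2)
        ((0 * u ^ 2 - -3 * X * (2 * u)) / (u ^ 2) ^ 2) u :=
      (hasDerivAt_const u (-3 * X)).div h1 (by positivity)
    have h4 : HasDerivAt (fun u : ℝ => 2 * Y / u ^ 3)
        ((0 * u ^ 3 - 2 * Y * (3 * u ^ 2)) / (u ^ 3) ^ 2) u :=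
      (hasDerivAt_const u (2 * Y)).div h2 (by positivity)
    refine (h3.add h4).congr_deriv ?_
    field_simp
    ring
  have hcont : ContinuousOn (fun u : ℝ => 6 / u ^ 4 * (u * X - Y)) (Set.uIcc (Y / X) 1) := by
    refine ContinuousOn.mul ?_ (by fun_prop)
    exact continuousOn_const.div (by fun_prop) (fun u hu => by have := hpos u hu; positivity)
  rw [intervalIntegral.integral_eq_sub_of_hasDerivAt hd hcont.intervalIntegrable]
  field_simp
  ring

lemma pointwise_le (X Y : ℝ) (hX : 0 < X) (hY : 0 < Y) :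
    ENNReal.ofReal (X * (max 0 (X - Y)) ^ 2 / Y ^ 2)
      ≤ ∫⁻ u in Ioc (0:ℝ) 1, ENNReal.ofReal (6 / u ^ 4 * max 0 (u * X - Y)) := by
  rcases le_or_gt X Y with h | h
  · rw [max_eq_left (by linarith)]
    simp
  · rw [max_eq_right (by linarith)]
    have hc : 0 < Y / X := div_pos hY hX
    have hc1 : Y / X ≤ 1 := by rw [div_le_one hX]; exact h.le
    calc ENNReal.ofReal (X * (X - Y) ^ 2 / Y ^ 2)
        ≤ ENNReal.ofReal (∫ u in Ioc (Y / X) 1, 6 / u ^ 4 * (u * X - Y)) := by
          refine ENNReal.ofReal_le_ofReal ?_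
          rw [← intervalIntegral.integral_of_le hc1, integral_F X Y hY h]
          have e : X ^ 3 / Y ^ 2 - 3 * X + 2 * Y - X * (X - Y) ^ 2 / Y ^ 2
              = 2 * (X - Y) ^ 2 / Y := by
            field_simp
            ring
          have : 0 ≤ 2 * (X - Y) ^ 2 / Y := by positivity
          linarith
      _ = ∫⁻ u in Ioc (Y / X) 1, ENNReal.ofReal (6 / u ^ 4 * (u * X - Y)) := by
          rw [ofReal_integral_eq_lintegral_ofReal]
          · have hcont : ContinuousOn (fun u : ℝ => 6 / u ^ 4 * (u * X - Y)) (Icc (Y / X) 1) := by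
              refine ContinuousOn.mul ?_ (by fun_prop)
              exact continuousOn_const.div (by fun_prop)
                (fun u hu => by have := hc.trans_le hu.1; positivity)
            exact hcont.integrableOn_Icc.mono_set Ioc_subset_Icc_self
          · refine (ae_restrict_iff' measurableSet_Ioc).2 (Filter.Eventually.of_forall ?_)
            intro u hu
            have hu0 := hc.trans hu.1
            have h2 : Y < u * X := by
              have := (div_lt_iff₀ hX).1 hu.1
              exact this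
            change 0 ≤ 6 / u ^ 4 * (u * X - Y)
            exact mul_nonneg (by positivity) (by linarith)
      _ ≤ ∫⁻ u in Ioc (Y / X) 1, ENNReal.ofReal (6 / u ^ 4 * max 0 (u * X - Y)) := by
          refine setLIntegral_mono' measurableSet_Ioc ?_
          intro u hu
          refine ENNReal.ofReal_le_ofReal ?_
          exact mul_le_mul_of_nonneg_left (le_max_right _ _) (by positivity)
      _ ≤ _ := lintegral_mono_set (Ioc_subset_Ioc_left hc.le)

lemma lintegral_sq_le (p : Par) (h i j : ℕ) (hh : 2 * p.k ≤ h)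
    (hi : p.k ≤ i) (hi2 : i ≤ 2 * p.k) (hj : p.k ≤ j) (hj2 : j ≤ 2 * p.k) :
    ∫⁻ w, ENNReal.ofReal (w i * (max 0 (w i - w j)) ^ 2 / (w j) ^ 2) ∂(mu p h)
      ≤ ENNReal.ofReal (192 / (p.k : ℝ) ^ 2) := by
  have hk := p.hk
  have hk8 : (8 : ℝ) ≤ p.k := by exact_mod_cast p.hk
  set q : ℕ := (p.k - 1) / 2 with hq
  have hq2 : p.k ≤ 2 * q + 2 := by omega
  obtain ⟨n, hn⟩ : ∃ n, q = n + 3 := ⟨q - 3, by omega⟩
  have hmi : Measurable (fun w : ℕ → ℝ => w i) := measurable_pi_apply i
  have hmj : Measurable (fun w : ℕ → ℝ => w j) := measurable_pi_apply j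
  calc ∫⁻ w, ENNReal.ofReal (w i * (max 0 (w i - w j)) ^ 2 / (w j) ^ 2) ∂(mu p h)
      ≤ ∫⁻ w, (∫⁻ u in Ioc (0:ℝ) 1,
          ENNReal.ofReal (6 / u ^ 4 * max 0 (u * w i - w j))) ∂(mu p h) := by
        refine lintegral_mono_ae ?_
        filter_upwards [mu_pos p h i hi2, mu_pos p h j hj2] with w h1 h2
        exact pointwise_le _ _ h1.1 h2.1
    _ = ∫⁻ u in Ioc (0:ℝ) 1,
          (∫⁻ w, ENNReal.ofReal (6 / u ^ 4 * max 0 (u * w i - w j)) ∂(mu p h)) := by
        refine lintegral_lintegral_swap ?_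
        refine Measurable.aemeasurable ?_
        refine ENNReal.measurable_ofReal.comp ?_
        have g1 : Measurable (fun z : (ℕ → ℝ) × ℝ => z.2) := measurable_snd
        have g2 : Measurable (fun z : (ℕ → ℝ) × ℝ => z.1 i) := hmi.comp measurable_fst
        have g3 : Measurable (fun z : (ℕ → ℝ) × ℝ => z.1 j) := hmj.comp measurable_fst
        have g4 : Measurable (fun z : (ℕ → ℝ) × ℝ => max 0 (z.2 * z.1 i - z.1 j)) :=
          measurable_const.max ((g1.mul g2).sub g3)
        have g5 : Measurable (fun z : (ℕ → ℝ) × ℝ => 6 / z.2 ^ 4) :=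
          measurable_const.div (g1.pow_const 4)
        exact g5.mul g4
    _ ≤ ∫⁻ u in Ioc (0:ℝ) 1, ENNReal.ofReal (24 / p.k * u ^ n) := by
        refine setLIntegral_mono' measurableSet_Ioc ?_
        intro u hu
        have h1 := diff_bound p u hu.1 hu.2 h i j hh hi hi2 hj hj2
        have hint := integrable_diff p h i j hi2 hj2 u
        have hnn : 0 ≤ᵐ[mu p h] fun w : ℕ → ℝ => 6 / u ^ 4 * max 0 (u * w i - w j) :=
          Filter.Eventually.of_forall fun w =>
            mul_nonneg (by positivity) (le_max_left _ _)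
        rw [← ofReal_integral_eq_lintegral_ofReal (hint.const_mul _) hnn]
        refine ENNReal.ofReal_le_ofReal ?_
        rw [integral_const_mul]
        have hu0 := hu.1
        refine (mul_le_mul_of_nonneg_left h1 (by positivity)).trans (le_of_eq ?_)
        rw [← hq, hn]
        field_simp
        ring
    _ = ENNReal.ofReal (∫ u in Ioc (0:ℝ) 1, 24 / p.k * u ^ n) := by
        rw [ofReal_integral_eq_lintegral_ofReal]
        · have hcont : Continuous (fun u : ℝ => 24 / (p.k : ℝ) * u ^ n) := by fun_prop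
          exact (hcont.integrableOn_Icc (a := 0) (b := 1)).mono_set Ioc_subset_Icc_self
        · refine (ae_restrict_iff' measurableSet_Ioc).2 (Filter.Eventually.of_forall ?_)
          intro u hu
          have hu0 := hu.1
          change 0 ≤ 24 / (p.k : ℝ) * u ^ n
          positivity
    _ ≤ _ := by
        refine ENNReal.ofReal_le_ofReal ?_
        rw [← intervalIntegral.integral_of_le zero_le_one, intervalIntegral.integral_const_mul,
          integral_pow]
        have hk2 : (p.k : ℝ) ≤ 2 * (n + 3) + 2 := by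
          have : p.k ≤ 2 * (n + 3) + 2 := by omega
          exact_mod_cast this
        simp only [one_pow, zero_pow (Nat.succ_ne_zero n), sub_zero]
        rw [div_mul_div_comm, mul_one, div_le_div_iff₀ (by positivity) (by positivity)]
        nlinarith

end TB

/-- TB2 -/
theorem master_bound : ∃ C : ℝ, 0 < C ∧ ∀ (p : Par) (h i j : ℕ), 2 * p.k ≤ h → p.k ≤ i →
    i ≤ 2 * p.k → p.k ≤ j → j ≤ 2 * p.k →
    Integrable (fun w : ℕ → ℝ => w i * (max 0 (w i - w j)) ^ 2 / (w j) ^ 2) (mu p h) ∧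
    ∫ w, w i * (max 0 (w i - w j)) ^ 2 / (w j) ^ 2 ∂(mu p h) ≤ C / (p.k : ℝ) ^ 2 ∧
    ∫ w, |w i - w j| ∂(mu p h) ≤ C / (p.k : ℝ) := by
  refine ⟨192, by norm_num, ?_⟩
  intro p h i j hh hi hi2 hj hj2
  have hk8 : (8 : ℝ) ≤ p.k := by exact_mod_cast p.hk
  have hmi : Measurable (fun w : ℕ → ℝ => w i) := measurable_pi_apply i
  have hmj : Measurable (fun w : ℕ → ℝ => w j) := measurable_pi_apply j
  have hmeas : Measurable (fun w : ℕ → ℝ => w i * (max 0 (w i - w j)) ^ 2 / (w j) ^ 2) :=
    (hmi.mul ((measurable_const.max (hmi.sub hmj)).pow_const 2)).div (hmj.pow_const 2)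
  have hnn : 0 ≤ᵐ[mu p h] fun w : ℕ → ℝ => w i * (max 0 (w i - w j)) ^ 2 / (w j) ^ 2 := by
    filter_upwards [mu_pos p h i hi2] with w h1
    have := h1.1
    change 0 ≤ w i * (max 0 (w i - w j)) ^ 2 / (w j) ^ 2
    positivity
  have hle := lintegral_sq_le p h i j hh hi hi2 hj hj2
  refine ⟨?_, ?_, ?_⟩
  · refine ⟨hmeas.aestronglyMeasurable, ?_⟩
    rw [hasFiniteIntegral_iff_ofReal hnn]
    exact hle.trans_lt ENNReal.ofReal_lt_top
  · rw [integral_eq_lintegral_of_nonneg_ae hnn hmeas.aestronglyMeasurable]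
    exact ENNReal.toReal_le_of_le_ofReal (by positivity) hle
  · have h1 := diff_bound p 1 one_pos le_rfl h i j hh hi hi2 hj hj2
    have h2 := diff_bound p 1 one_pos le_rfl h j i hh hj hj2 hi hi2
    simp only [one_mul, one_pow, mul_one] at h1 h2
    have i1 := integrable_diff p h i j hi2 hj2 1
    have i2 := integrable_diff p h j i hj2 hi2 1
    simp only [one_mul] at i1 i2
    have e : ∫ w, |w i - w j| ∂(mu p h)
        = ∫ w, (max 0 (w i - w j) + max 0 (w j - w i)) ∂(mu p h) := by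
      congr 1
      funext w
      rcases le_total (w i) (w j) with h3 | h3
      · rw [abs_of_nonpos (by linarith), max_eq_left (by linarith), max_eq_right (by linarith)]
        ring
      · rw [abs_of_nonneg (by linarith), max_eq_right (by linarith), max_eq_left (by linarith)]
        ring
    rw [e, integral_add i1 i2]
    have : (4:ℝ) / p.k + 4 / p.k ≤ 192 / p.k := by
      rw [← add_div]
      exact div_le_div_of_nonneg_right (by norm_num) (by linarith)
    linarith

end Pool.Agent.TSPd97
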