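import Pool.Agent.TSPd97.TreeAb
import Pool.Agent.TSPd97.TreeB

/-!
MP_076557_pr, package TL (helper73): the lower bound on the tree.
-/

set_option autoImplicit false

open MeasureTheory Set
open scoped ENNReal

namespace Pool.Agent.TSPd97

namespace TL

/-! ### elementary facts -/

/-- order statistics after adding a point -/
lemma os_succ_cons (i : ℕ) (B f : ℝ) (T : Multiset ℝ) :
    os (i + 1) B (f ::ₘ T) = min (os (i + 1) B T) (max (os i B T) f) := by
  refine eq_of_forall_lt_iff (fun t => ?_)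
  rw [lt_min_iff, lt_max_iff, lt_os_iff, lt_os_iff, lt_os_iff]
  by_cases hf : f ≤ t
  · rw [restr_cons_mem _ (by simpa using hf), Multiset.card_cons]
    have : ¬ t < f := not_lt.2 hf
    constructor
    · rintro ⟨h1, h2⟩
      exact ⟨⟨h1, by omega⟩, Or.inl ⟨h1, by omega⟩⟩
    · rintro ⟨⟨h1, h2⟩, h3 | h3⟩
      · exact ⟨h1, by omega⟩
      · exact absurd h3 this
  · rw [restr_cons_not_mem _ (by simpa using hf)]
    constructor
    · rintro ⟨h1, h2⟩
      exact ⟨⟨h1, h2⟩, Or.inr (not_le.1 hf)⟩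
    · rintro ⟨h, _⟩
      exact h

/-- the product of the two clamped order statistics -/
lemma clamp_mul (δ t0 t1 t2 f : ℝ) (h01 : t0 ≤ t1) (h12 : t1 ≤ t2) :
    max δ (min t1 (max t0 f)) * max δ (min t2 (max t1 f))
      = min (max δ t2) (max (max δ t0) f) * max δ t1 := by
  have e1 : max δ (min t1 (max t0 f)) = min (max δ t1) (max (max δ t0) f) := by
    rw [max_min_distrib_left, max_assoc]
  have e2 : max δ (min t2 (max t1 f)) = min (max δ t2) (max (max δ t1) f) := by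
    rw [max_min_distrib_left, max_assoc]
  rw [e1, e2]
  have g1 : max δ t0 ≤ max δ t1 := max_le_max_left _ h01
  have g2 : max δ t1 ≤ max δ t2 := max_le_max_left _ h12
  rcases le_total f (max δ t1) with hf | hf
  · rw [min_eq_right (max_le g1 hf), max_eq_left hf, min_eq_right g2,
      min_eq_right ((max_le g1 hf).trans g2)]
  · rw [max_eq_right (g1.trans hf), min_eq_left hf, max_eq_right hf]
    ring

/-- `ln⁺ (D / s)` -/
noncomputable def lp (D s : ℝ) : ℝ := max 0 (Real.log (D / s))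

lemma lp_nonneg (D s : ℝ) : 0 ≤ lp D s := le_max_left _ _

lemma lp_of_le {D s : ℝ} (hs : 0 < s) (hD : s ≤ D) : lp D s = Real.log D - Real.log s := by
  unfold lp
  rw [Real.log_div (by linarith) (by linarith), max_eq_right]
  have := Real.log_le_log hs hD
  linarith

lemma lp_of_ge {D s : ℝ} (hs : 0 < s) (hD0 : 0 < D) (hD : D ≤ s) : lp D s = 0 := by
  unfold lp
  rw [max_eq_left]
  exact Real.log_nonpos (by positivity) ((div_le_one hs).2 hD)

lemma lp_mono {D D' s : ℝ} (hs : 0 < s) (hD0 : 0 < D) (hD : D ≤ D') : lp D s ≤ lp D' s := by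
  unfold lp
  refine max_le_max_left _ (Real.log_le_log (by positivity) ?_)
  exact div_le_div_of_nonneg_right hD hs.le

lemma lp_eq_indicator {D : ℝ} (hD : 0 < D) :
    EqOn (lp D) ((Ioc 0 D).indicator fun s => Real.log D - Real.log s) (Ioi 0) := by
  intro s hs
  have hs : 0 < s := hs
  by_cases h : s ≤ D
  · rw [indicator_of_mem (show s ∈ Ioc 0 D from ⟨hs, h⟩)]
    exact lp_of_le hs h
  · rw [indicator_of_notMem (fun h' => h h'.2)]
    exact lp_of_ge hs hD (not_le.1 h).le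

lemma lp_integrableOn {D : ℝ} (hD : 0 < D) : IntegrableOn (lp D) (Ioi 0) := by
  refine IntegrableOn.congr_fun ?_ (lp_eq_indicator hD).symm measurableSet_Ioi
  rw [IntegrableOn, integrable_indicator_iff measurableSet_Ioc, IntegrableOn,
    Measure.restrict_restrict measurableSet_Ioc,
    inter_eq_self_of_subset_left (Ioc_subset_Ioi_self)]
  have h1 : IntegrableOn Real.log (Ioc 0 D) :=
    (intervalIntegrable_iff_integrableOn_Ioc_of_le hD.le).1
      intervalIntegral.intervalIntegrable_log'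
  exact (integrableOn_const (by simp)).sub h1

lemma lp_integral {D : ℝ} (hD : 0 < D) : ∫ s in Ioi 0, lp D s = D := by
  rw [setIntegral_congr_fun measurableSet_Ioi (lp_eq_indicator hD),
    setIntegral_indicator measurableSet_Ioc, inter_eq_self_of_subset_right Ioc_subset_Ioi_self,
    ← intervalIntegral.integral_of_le hD.le, intervalIntegral.integral_sub (by simp)
      intervalIntegral.intervalIntegrable_log', _root_.integral_log]
  simp

/-- pointwise bound of one level of the pair term -/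
lemma pair_pointwise {s X δ a b τ : ℝ} (hs : 0 < s) (hX : 0 < X) (hδ : 0 < δ) (ha : 0 < a)
    (hab : a ≤ b) :
    Real.log (min b (max a (s / X))) - Real.log s + Real.log (max δ X) + τ
      ≤ lp (a * X) s + lp (b * δ) s
        + (lp (b * max δ X * Real.exp |τ|) s - lp (b * max δ X) s) := by
  have hb : 0 < b := ha.trans_le hab
  have hτ : τ ≤ |τ| := le_abs_self τ
  have hτ0 : 0 ≤ |τ| := abs_nonneg τ
  rcases le_or_gt δ X with hX' | hX'
  · rw [max_eq_right hX']
    have h0 := lp_nonneg (b * δ) s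
    have hbX : 0 < b * X := by positivity
    have hfac : Real.log (b * X * Real.exp |τ|) = Real.log (b * X) + |τ| := by
      rw [Real.log_mul hbX.ne' (Real.exp_pos _).ne', Real.log_exp]
    have hle : b * X ≤ b * X * Real.exp |τ| := by
      have := Real.one_le_exp hτ0
      nlinarith
    rcases le_or_gt s (b * X) with h1 | h1
    · -- s ≤ b X
      rw [lp_of_le hs h1, lp_of_le hs (h1.trans hle), hfac]
      have h2 : s / X ≤ b := by rw [div_le_iff₀ hX]; linarith
      have h3 : min b (max a (s / X)) = max a (s / X) := min_eq_right (max_le hab h2)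
      rw [h3]
      rcases le_or_gt s (a * X) with h4 | h4
      · rw [lp_of_le hs h4, Real.log_mul ha.ne' hX.ne']
        have h5 : s / X ≤ a := by rw [div_le_iff₀ hX]; linarith
        rw [max_eq_left h5]
        linarith
      · have h5 : a ≤ s / X := by rw [le_div_iff₀ hX]; linarith
        rw [max_eq_right h5, Real.log_div hs.ne' hX.ne']
        have := lp_nonneg (a * X) s
        linarith
    · have h2 : b ≤ s / X := by rw [le_div_iff₀ hX]; linarith
      have h3 : min b (max a (s / X)) = b := min_eq_left (h2.trans (le_max_right _ _))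
      rw [h3, lp_of_ge hs hbX h1.le]
      have h6 := lp_nonneg (a * X) s
      have h7 : Real.log (b * X * Real.exp |τ| / s) ≤ lp (b * X * Real.exp |τ|) s :=
        le_max_right _ _
      rw [Real.log_div (by positivity) hs.ne', hfac, Real.log_mul hb.ne' hX.ne'] at h7
      linarith
  · rw [max_eq_left hX'.le]
    have h6 := lp_nonneg (a * X) s
    have h7 : Real.log (b * δ * Real.exp |τ| / s) ≤ lp (b * δ * Real.exp |τ|) s :=
      le_max_right _ _
    rw [Real.log_div (by positivity) hs.ne', Real.log_mul (by positivity) (Real.exp_pos _).ne',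
      Real.log_exp, Real.log_mul hb.ne' hδ.ne'] at h7
    have h8 : Real.log (min b (max a (s / X))) ≤ Real.log b :=
      Real.log_le_log (lt_min hb (lt_max_of_lt_left ha)) (min_le_left _ _)
    linarith

lemma exp_div_sub_one_le {x : ℝ} (hx : 0 ≤ x) {k : ℕ} (hk : 1 ≤ k) :
    Real.exp (x / k) - 1 ≤ (Real.exp x - 1) / k := by
  have hk0 : (0 : ℝ) < k := by exact_mod_cast hk
  have h1 : (0 : ℝ) ≤ (Real.exp x - 1) / k :=
    div_nonneg (by linarith [Real.one_le_exp hx]) hk0.le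
  have h2 := one_add_mul_le_pow (a := (Real.exp x - 1) / k) (by linarith) k
  rw [mul_div_cancel₀ _ hk0.ne'] at h2
  have h3 : Real.exp (x / k) ^ k = Real.exp x := by
    rw [← Real.exp_nat_mul, mul_div_cancel₀ _ hk0.ne']
  have h4 : Real.exp (x / k) ^ k ≤ (1 + (Real.exp x - 1) / k) ^ k := by
    rw [h3]; linarith
  have := le_of_pow_le_pow_left₀ (by omega) (by linarith) h4
  linarith

/-- one side of the remainder bound -/
lemma rem_aux {P Q Z : ℝ} (hQ : 0 < Q) (hQP : Q ≤ P) (hZ : 0 < Z) :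
    Z * (P / Q - 1) ≤ |P - Q| + P * (max 0 (P - Q)) ^ 2 / Q ^ 2
      + Z * (max 0 (Z - Q)) ^ 2 / Q ^ 2 := by
  have hP : 0 < P := hQ.trans_le hQP
  rw [abs_of_nonneg (by linarith), max_eq_right (show 0 ≤ P - Q by linarith)]
  have e1 : Z * (P / Q - 1) = Z * (P - Q) / Q := by
    field_simp
  rw [e1]
  have h1 : P * (P - Q) / Q ≤ (P - Q) + P * (P - Q) ^ 2 / Q ^ 2 := by
    have e2 : P * (P - Q) / Q = (P - Q) + Q * (P - Q) ^ 2 / Q ^ 2 := by
      field_simp
      ring
    rw [e2]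
    gcongr
  rcases le_total Z P with hZP | hZP
  · have h2 : Z * (P - Q) / Q ≤ P * (P - Q) / Q := by
      gcongr
    have h3 : 0 ≤ Z * (max 0 (Z - Q)) ^ 2 / Q ^ 2 := by positivity
    linarith
  · rw [max_eq_right (show 0 ≤ Z - Q by linarith)]
    have h2 : (Z - P) * (P - Q) / Q ≤ Z * (Z - Q) ^ 2 / Q ^ 2 := by
      have e3 : Z * (Z - Q) ^ 2 / Q ^ 2 = (Z / Q) * ((Z - Q) ^ 2 / Q) := by
        field_simp
      have e4 : (1 : ℝ) ≤ Z / Q := by
        rw [le_div_iff₀ hQ]; linarith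
      have e5 : (Z - P) * (P - Q) ≤ (Z - Q) ^ 2 := by nlinarith
      have e6 : (Z - P) * (P - Q) / Q ≤ (Z - Q) ^ 2 / Q := by gcongr
      have e7 : 0 ≤ (Z - Q) ^ 2 / Q := by positivity
      rw [e3]
      nlinarith
    have e8 : Z * (P - Q) / Q = P * (P - Q) / Q + (Z - P) * (P - Q) / Q := by ring
    linarith

/-- the weight of the remainder: `Z (e^{|ln P - ln Q|/k} - 1)` -/
lemma rem_bound {P Q Z : ℝ} (hP : 0 < P) (hQ : 0 < Q) (hZ : 0 < Z) {k : ℕ} (hk : 1 ≤ k) :
    Z * (Real.exp |(Real.log P - Real.log Q) / k| - 1) ≤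
      (|P - Q| + P * (max 0 (P - Q)) ^ 2 / Q ^ 2 + Z * (max 0 (Z - Q)) ^ 2 / Q ^ 2
        + Q * (max 0 (Q - P)) ^ 2 / P ^ 2 + Z * (max 0 (Z - P)) ^ 2 / P ^ 2) / k := by
  have hk0 : (0 : ℝ) < k := by exact_mod_cast hk
  wlog h : Q ≤ P generalizing P Q with H
  · have := H hQ hP (le_of_not_ge h)
    have e : |(Real.log P - Real.log Q) / (k : ℝ)| = |(Real.log Q - Real.log P) / k| := by
      rw [abs_div, abs_div, abs_sub_comm]
    rw [e]
    refine this.trans (le_of_eq ?_)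
    rw [abs_sub_comm]
    ring
  have hlog : Real.log Q ≤ Real.log P := Real.log_le_log hQ h
  rw [abs_of_nonneg (div_nonneg (by linarith) hk0.le)]
  have h1 := exp_div_sub_one_le (x := Real.log P - Real.log Q) (by linarith) hk
  have h2 : Real.exp (Real.log P - Real.log Q) = P / Q := by
    rw [Real.exp_sub, Real.exp_log hP, Real.exp_log hQ]
  rw [h2] at h1
  have h3 : Z * (Real.exp ((Real.log P - Real.log Q) / k) - 1) ≤ Z * (P / Q - 1) / k := by
    have := mul_le_mul_of_nonneg_left h1 hZ.le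
    calc _ ≤ Z * ((P / Q - 1) / k) := this
      _ = _ := by ring
  refine h3.trans ?_
  gcongr
  have h4 := rem_aux hQ h hZ
  have h5 : 0 ≤ Q * (max 0 (Q - P)) ^ 2 / P ^ 2 := by positivity
  have h6 : 0 ≤ Z * (max 0 (Z - P)) ^ 2 / P ^ 2 := by positivity
  linarith

/-- clamping from below does not increase the quadratic term -/
lemma quad_clamp {δ x y : ℝ} (hx : 0 < x) (hy : 0 < y) :
    max δ x * (max 0 (max δ x - max δ y)) ^ 2 / (max δ y) ^ 2
      ≤ x * (max 0 (x - y)) ^ 2 / y ^ 2 := by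
  rcases le_or_gt (max δ x) (max δ y) with h | h
  · rw [max_eq_left (show max δ x - max δ y ≤ 0 by linarith)]
    simp only [ne_eq, OfNat.ofNat_ne_zero, not_false_eq_true, zero_pow, mul_zero, zero_div]
    positivity
  · have h1 : δ < x := by
      by_contra hc
      rw [max_eq_left (not_lt.1 hc)] at h
      exact absurd (le_max_left δ y) (not_le.2 h)
    rw [max_eq_right h1.le] at h ⊢
    have h2 : y ≤ max δ y := le_max_right _ _
    rw [max_eq_right (show 0 ≤ x - max δ y by linarith), max_eq_right (show 0 ≤ x - y by linarith)]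
    have h3 : 0 ≤ x - max δ y := by linarith
    gcongr

lemma abs_clamp (δ x y : ℝ) : |max δ x - max δ y| ≤ |x - y| := by
  have := abs_max_sub_max_le_abs x y δ
  rwa [max_comm x δ, max_comm y δ] at this

/-! ### the pair term -/

/-- lower clamp of a new point at level `j` -/
noncomputable def av (p : Par) (δ : ℝ) (j : ℕ) (ξ : Multiset (ℝ × (ℕ → ℝ))) : ℝ :=
  max δ (os 0 p.B (ξ.map fun q => q.1 / q.2 j))

/-- upper clamp of a new point at level `j` -/
noncomputable def bv (p : Par) (δ : ℝ) (j : ℕ) (ξ : Multiset (ℝ × (ℕ → ℝ))) : ℝ :=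
  max δ (os 2 p.B (ξ.map fun q => q.1 / q.2 j))

/-- the telescoping increment -/
noncomputable def tauv (p : Par) (δ : ℝ) (w : ℕ → ℝ) : ℝ :=
  (Real.log (max δ (w (2 * p.k))) - Real.log (max δ (w p.k))) / p.k

/-- one level of the pair term -/
noncomputable def pterm (p : Par) (δ : ℝ) (j : ℕ) (s : ℝ) (ξ : Multiset (ℝ × (ℕ → ℝ)))
    (w : ℕ → ℝ) : ℝ :=
  Real.log (min (bv p δ j ξ) (max (av p δ j ξ) (s / w j))) - Real.log s
    + Real.log (max δ (w j)) + tauv p δ w

lemma av_pos {p : Par} {δ : ℝ} (hδ : 0 < δ) (j : ℕ) (ξ : Multiset (ℝ × (ℕ → ℝ))) :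
    0 < av p δ j ξ := lt_max_of_lt_left hδ

lemma av_le_bv (p : Par) (δ : ℝ) (j : ℕ) (ξ : Multiset (ℝ × (ℕ → ℝ))) :
    av p δ j ξ ≤ bv p δ j ξ := max_le_max_left _ (os_mono (by norm_num) _ _)

lemma bv_pos {p : Par} {δ : ℝ} (hδ : 0 < δ) (j : ℕ) (ξ : Multiset (ℝ × (ℕ → ℝ))) :
    0 < bv p δ j ξ := lt_max_of_lt_left hδ

lemma upd_succ {p : Par} {j : ℕ} (hj : j < 2 * p.k) (ξ : Multiset (ℝ × (ℕ → ℝ))) :
    upd p ξ (j + 1) = os 1 p.B (ξ.map fun q => q.1 / q.2 j) := by
  unfold upd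
  rw [if_neg (by omega), if_pos (by omega)]
  rfl

/-- the two logarithms of one level of the potential after adding a point -/
lemma log_level {p : Par} {δ : ℝ} (hδ : 0 < δ) {j : ℕ} (hj : j < 2 * p.k) (s : ℝ) (w : ℕ → ℝ)
    (ξ : Multiset (ℝ × (ℕ → ℝ))) :
    Real.log (max δ (os 1 p.B (((s, w) ::ₘ ξ).map fun q => q.1 / q.2 j)))
      + Real.log (max δ (os 2 p.B (((s, w) ::ₘ ξ).map fun q => q.1 / q.2 j)))
      = Real.log (min (bv p δ j ξ) (max (av p δ j ξ) (s / w j)))
        + Real.log (max δ (upd p ξ (j + 1))) := by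
  have hpos : ∀ x : ℝ, max δ x ≠ 0 := fun x => (lt_max_of_lt_left hδ).ne'
  rw [Multiset.map_cons, show (2 : ℕ) = 1 + 1 from rfl, show (1 : ℕ) = 0 + 1 from rfl,
    os_succ_cons, os_succ_cons, ← Real.log_mul (hpos _) (hpos _)]
  rw [show ((0 : ℕ) + 1) = 1 from rfl, show ((1 : ℕ) + 1) = 2 from rfl]
  rw [clamp_mul δ _ _ _ _ (os_mono (by norm_num) _ _) (os_mono (by norm_num) _ _)]
  rw [Real.log_mul ?_ (hpos _), upd_succ hj]
  · rfl
  · have h1 : 0 < min (bv p δ j ξ) (max (av p δ j ξ) (s / w j)) :=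
      lt_min (bv_pos hδ j ξ) (lt_max_of_lt_left (av_pos hδ j ξ))
    exact h1.ne'

/-- the pair term as an average over the window -/
lemma pair_eq {p : Par} {δ : ℝ} (hδ : 0 < δ) (s : ℝ) (ξ ξ' : Multiset (ℝ × (ℕ → ℝ))) :
    pot p δ ((s, upd p ξ') ::ₘ ξ) / 2 + pot p δ ((s, upd p ξ) ::ₘ ξ') / 2 - Real.log s
      = (∑ j ∈ Finset.Ico p.k (2 * p.k),
          (pterm p δ j s ξ (upd p ξ') + pterm p δ j s ξ' (upd p ξ))) / (2 * p.k) := by
  have hk : (p.k : ℝ) ≠ 0 := by
    have := p.hk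
    exact_mod_cast (by omega : p.k ≠ 0)
  have hcard : ∀ c : ℝ, ∑ j ∈ Finset.Ico p.k (2 * p.k), c = p.k * c := by
    intro c
    rw [Finset.sum_const, Nat.card_Ico, nsmul_eq_mul]
    congr 2
    omega
  have htel : ∀ w : ℕ → ℝ, ∑ j ∈ Finset.Ico p.k (2 * p.k), Real.log (max δ (w (j + 1)))
      = ∑ j ∈ Finset.Ico p.k (2 * p.k), (Real.log (max δ (w j)) + tauv p δ w) := by
    intro w
    have h1 := Finset.sum_Ico_sub (fun j => Real.log (max δ (w j))) (show p.k ≤ 2 * p.k by omega)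
    rw [Finset.sum_sub_distrib] at h1
    rw [Finset.sum_add_distrib, hcard, tauv, mul_div_cancel₀ _ hk]
    linarith
  have hpot : ∀ (w : ℕ → ℝ) (η : Multiset (ℝ × (ℕ → ℝ))), pot p δ ((s, w) ::ₘ η)
      = ((∑ j ∈ Finset.Ico p.k (2 * p.k),
          Real.log (min (bv p δ j η) (max (av p δ j η) (s / w j))))
        + ∑ j ∈ Finset.Ico p.k (2 * p.k), Real.log (max δ (upd p η (j + 1)))) / p.k := by
    intro w η
    unfold pot
    rw [← Finset.sum_add_distrib]
    congr 1
    refine Finset.sum_congr rfl (fun j hj => ?_)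
    exact log_level hδ (Finset.mem_Ico.1 hj).2 s w η
  rw [hpot, hpot, htel, htel]
  unfold pterm
  simp only [Finset.sum_add_distrib, Finset.sum_sub_distrib, hcard]
  field_simp
  ring

/-- the integral over `s` of the pair term is bounded by `pairK ξ w + pairK ξ' w'` -/
noncomputable def pairK (p : Par) (δ : ℝ) (ξ : Multiset (ℝ × (ℕ → ℝ))) (w : ℕ → ℝ) : ℝ :=
  (∑ j ∈ Finset.Ico p.k (2 * p.k),
    (av p δ j ξ * w j + bv p δ j ξ * δ
      + bv p δ j ξ * (max δ (w j) * (Real.exp |tauv p δ w| - 1)))) / (2 * p.k)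

/-- the dominating function of one level -/
noncomputable def domf (p : Par) (δ : ℝ) (j : ℕ) (ξ : Multiset (ℝ × (ℕ → ℝ))) (w : ℕ → ℝ)
    (s : ℝ) : ℝ :=
  lp (av p δ j ξ * w j) s + lp (bv p δ j ξ * δ) s
    + (lp (bv p δ j ξ * max δ (w j) * Real.exp |tauv p δ w|) s
      - lp (bv p δ j ξ * max δ (w j)) s)

lemma domf_nonneg {p : Par} {δ : ℝ} (hδ : 0 < δ) (j : ℕ) (ξ : Multiset (ℝ × (ℕ → ℝ)))
    (w : ℕ → ℝ) {s : ℝ} (hs : 0 < s) : 0 ≤ domf p δ j ξ w s := by
  unfold domf
  have hb := bv_pos (p := p) hδ j ξ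
  have hm : 0 < max δ (w j) := lt_max_of_lt_left hδ
  have h1 : lp (bv p δ j ξ * max δ (w j)) s
      ≤ lp (bv p δ j ξ * max δ (w j) * Real.exp |tauv p δ w|) s := by
    refine lp_mono hs (by positivity) ?_
    have := Real.one_le_exp (abs_nonneg (tauv p δ w))
    exact le_mul_of_one_le_right (by positivity) this
  have h2 := lp_nonneg (av p δ j ξ * w j) s
  have h3 := lp_nonneg (bv p δ j ξ * δ) s
  linarith

lemma domf_integrableOn {p : Par} {δ : ℝ} (hδ : 0 < δ) (j : ℕ) (ξ : Multiset (ℝ × (ℕ → ℝ)))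
    (w : ℕ → ℝ) (hw : 0 < w j) : IntegrableOn (domf p δ j ξ w) (Ioi 0) := by
  have ha := av_pos (p := p) hδ j ξ
  have hb := bv_pos (p := p) hδ j ξ
  have hm : 0 < max δ (w j) := lt_max_of_lt_left hδ
  exact ((lp_integrableOn (by positivity)).add (lp_integrableOn (by positivity))).add
    ((lp_integrableOn (by positivity)).sub (lp_integrableOn (by positivity)))

lemma domf_integral {p : Par} {δ : ℝ} (hδ : 0 < δ) (j : ℕ) (ξ : Multiset (ℝ × (ℕ → ℝ)))
    (w : ℕ → ℝ) (hw : 0 < w j) : ∫ s in Ioi 0, domf p δ j ξ w s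
      = av p δ j ξ * w j + bv p δ j ξ * δ
      + bv p δ j ξ * (max δ (w j) * (Real.exp |tauv p δ w| - 1)) := by
  have ha := av_pos (p := p) hδ j ξ
  have hb := bv_pos (p := p) hδ j ξ
  have hm : 0 < max δ (w j) := lt_max_of_lt_left hδ
  have i1 := lp_integrableOn (D := av p δ j ξ * w j) (by positivity)
  have i2 := lp_integrableOn (D := bv p δ j ξ * δ) (by positivity)
  have i3 := lp_integrableOn (D := bv p δ j ξ * max δ (w j) * Real.exp |tauv p δ w|)
    (by positivity)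
  have i4 := lp_integrableOn (D := bv p δ j ξ * max δ (w j)) (by positivity)
  have i12 : IntegrableOn (fun s => lp (av p δ j ξ * w j) s + lp (bv p δ j ξ * δ) s) (Ioi 0) :=
    i1.add i2
  have i34 : IntegrableOn (fun s => lp (bv p δ j ξ * max δ (w j) * Real.exp |tauv p δ w|) s
      - lp (bv p δ j ξ * max δ (w j)) s) (Ioi 0) := i3.sub i4
  unfold domf
  rw [integral_add i12 i34, integral_add i1 i2, integral_sub i3 i4,
    lp_integral (by positivity), lp_integral (by positivity), lp_integral (by positivity),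
    lp_integral (by positivity)]
  ring

/-- the integral over `s` of the pair term -/
lemma lint_pair {p : Par} {δ : ℝ} (hδ : 0 < δ) (S : ℝ) (ξ ξ' : Multiset (ℝ × (ℕ → ℝ)))
    (h : ∀ j ∈ Finset.Ico p.k (2 * p.k), 0 < upd p ξ j)
    (h' : ∀ j ∈ Finset.Ico p.k (2 * p.k), 0 < upd p ξ' j) :
    ∫⁻ s, ENNReal.ofReal (max 0 (pot p δ ((s, upd p ξ') ::ₘ ξ) / 2
        + pot p δ ((s, upd p ξ) ::ₘ ξ') / 2 - Real.log s)) ∂(leb S)
      ≤ ENNReal.ofReal (pairK p δ ξ (upd p ξ') + pairK p δ ξ' (upd p ξ)) := by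
  have hk : (0 : ℝ) < p.k := by
    have := p.hk
    exact_mod_cast (by omega : 0 < p.k)
  set F : ℝ → ℝ := fun s => (∑ j ∈ Finset.Ico p.k (2 * p.k),
    (domf p δ j ξ (upd p ξ') s + domf p δ j ξ' (upd p ξ) s)) / (2 * p.k) with hF
  have hF0 : ∀ s : ℝ, 0 < s → 0 ≤ F s := fun s hs => div_nonneg (Finset.sum_nonneg (fun j _ =>
    add_nonneg (domf_nonneg hδ j _ _ hs) (domf_nonneg hδ j _ _ hs))) (by positivity)
  have hint : ∀ j ∈ Finset.Ico p.k (2 * p.k), IntegrableOn (fun s =>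
      domf p δ j ξ (upd p ξ') s + domf p δ j ξ' (upd p ξ) s) (Ioi 0) := fun j hj =>
    (domf_integrableOn hδ j _ _ (h' j hj)).add (domf_integrableOn hδ j _ _ (h j hj))
  have hFi : IntegrableOn F (Ioi 0) := (integrable_finsetSum _ hint).div_const _
  have hFI : ∫ s in Ioi 0, F s = pairK p δ ξ (upd p ξ') + pairK p δ ξ' (upd p ξ) := by
    rw [hF, integral_div, integral_finsetSum _ hint]
    unfold pairK
    rw [← add_div, ← Finset.sum_add_distrib]
    congr 1
    refine Finset.sum_congr rfl (fun j hj => ?_)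
    rw [integral_add (domf_integrableOn hδ j _ _ (h' j hj)) (domf_integrableOn hδ j _ _ (h j hj)),
      domf_integral hδ j _ _ (h' j hj), domf_integral hδ j _ _ (h j hj)]
  rw [← hFI, ofReal_integral_eq_lintegral_ofReal hFi
    ((ae_restrict_iff' measurableSet_Ioi).2 (Filter.Eventually.of_forall hF0))]
  have hsub : leb S ≤ volume.restrict (Ioi 0) :=
    Measure.restrict_mono (Ioc_subset_Ioi_self) le_rfl
  refine le_trans (lintegral_mono' hsub le_rfl) ?_
  refine setLIntegral_mono' measurableSet_Ioi (fun s hs => ?_)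
  have hs : 0 < s := hs
  refine ENNReal.ofReal_le_ofReal (max_le (hF0 s hs) ?_)
  rw [pair_eq hδ]
  refine div_le_div_of_nonneg_right (Finset.sum_le_sum (fun j hj => ?_)) (by positivity)
  exact add_le_add
    (pair_pointwise hs (h' j hj) hδ (av_pos hδ j ξ) (av_le_bv p δ j ξ))
    (pair_pointwise hs (h j hj) hδ (av_pos hδ j ξ') (av_le_bv p δ j ξ'))

/-! ### expectations -/

lemma mu_succ (p : Par) (h : ℕ) : mu p (h + 1) = (nb p h).map (upd p) := rfl

lemma measurable_level (j : ℕ) :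
    Measurable fun ξ : Multiset (ℝ × (ℕ → ℝ)) => ξ.map fun q => q.1 / q.2 j :=
  measurable_map_multiset (measurable_fst.div ((measurable_pi_apply j).comp measurable_snd))

lemma measurable_av (p : Par) (δ : ℝ) (j : ℕ) : Measurable (av p δ j) :=
  measurable_const.max ((measurable_os 0 p.B).comp (measurable_level j))

lemma measurable_bv (p : Par) (δ : ℝ) (j : ℕ) : Measurable (bv p δ j) :=
  measurable_const.max ((measurable_os 2 p.B).comp (measurable_level j))

lemma measurable_pot (p : Par) (δ : ℝ) : Measurable (pot p δ) := by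
  unfold pot
  refine Measurable.div_const (Finset.measurable_sum _ (fun j _ => ?_)) _
  exact (Real.measurable_log.comp (measurable_const.max
    ((measurable_os 1 p.B).comp (measurable_level j)))).add
    (Real.measurable_log.comp (measurable_const.max
    ((measurable_os 2 p.B).comp (measurable_level j))))

lemma measurable_tauv (p : Par) (δ : ℝ) : Measurable (tauv p δ) := by
  unfold tauv
  exact ((Real.measurable_log.comp (measurable_const.max (measurable_pi_apply _))).sub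
    (Real.measurable_log.comp (measurable_const.max (measurable_pi_apply _)))).div_const _

/-- the remainder of level `j` -/
noncomputable def remv (p : Par) (δ : ℝ) (j : ℕ) (w : ℕ → ℝ) : ℝ :=
  max δ (w j) * (Real.exp |tauv p δ w| - 1)

lemma measurable_remv (p : Par) (δ : ℝ) (j : ℕ) : Measurable (remv p δ j) := by
  unfold remv
  exact (measurable_const.max (measurable_pi_apply _)).mul
    ((Real.measurable_exp.comp (measurable_abs.comp (measurable_tauv p δ))).sub_const 1)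

lemma remv_nonneg {p : Par} {δ : ℝ} (hδ : 0 < δ) (j : ℕ) (w : ℕ → ℝ) : 0 ≤ remv p δ j w := by
  unfold remv
  have h1 := Real.one_le_exp (abs_nonneg (tauv p δ w))
  exact mul_nonneg (le_max_of_le_left hδ.le) (by linarith)

lemma upd_good (p : Par) (h : ℕ) :
    ∀ᵐ ξ ∂(nb p h), ∀ j ≤ 2 * p.k, 0 < upd p ξ j ∧ upd p ξ j ≤ p.B := by
  rw [ae_all_iff]
  intro j
  by_cases hj : j ≤ 2 * p.k
  · have h1 := mu_pos p (h + 1) j hj
    rw [mu_succ] at h1
    filter_upwards [ae_of_ae_map (measurable_upd p).aemeasurable h1] with ξ hξ _ using hξ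
  · exact Filter.Eventually.of_forall (fun _ h' => absurd h' hj)

lemma nb_good (p : Par) (h : ℕ) :
    ∀ᵐ ξ ∂(nb p h), ∀ q ∈ ξ, 0 < q.1 ∧ ∀ j ≤ 2 * p.k, 0 < q.2 j := by
  have hmeas : MeasurableSet {q : ℝ × (ℕ → ℝ) | 0 < q.1 ∧ ∀ j ≤ 2 * p.k, 0 < q.2 j} := by
    refine MeasurableSet.inter (measurable_fst measurableSet_Ioi) ?_
    have : {q : ℝ × (ℕ → ℝ) | ∀ j ≤ 2 * p.k, 0 < q.2 j}
        = ⋂ j : ℕ, ⋂ (_ : j ≤ 2 * p.k), {q : ℝ × (ℕ → ℝ) | 0 < q.2 j} := by
      ext q; simp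
    change MeasurableSet {q : ℝ × (ℕ → ℝ) | ∀ j ≤ 2 * p.k, 0 < q.2 j}
    rw [this]
    refine MeasurableSet.iInter (fun j => MeasurableSet.iInter (fun _ => ?_))
    exact ((measurable_pi_apply j).comp measurable_snd) measurableSet_Ioi
  have h1 : ∀ᵐ q ∂((leb (p.B ^ 2)).prod (mu p h)),
      q ∈ {q : ℝ × (ℕ → ℝ) | 0 < q.1 ∧ ∀ j ≤ 2 * p.k, 0 < q.2 j} := by
    have ha : ∀ᵐ s ∂(leb (p.B ^ 2)), 0 < s := by
      unfold leb
      rw [ae_restrict_iff' measurableSet_Ioc]
      exact Filter.Eventually.of_forall (fun s hs => hs.1)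
    have hb : ∀ᵐ w ∂(mu p h), ∀ j ≤ 2 * p.k, 0 < w j := by
      rw [ae_all_iff]
      intro j
      by_cases hj : j ≤ 2 * p.k
      · filter_upwards [mu_pos p h j hj] with w hw _ using hw.1
      · exact Filter.Eventually.of_forall (fun _ h' => absurd h' hj)
    have ha' := (Measure.quasiMeasurePreserving_fst (μ := leb (p.B ^ 2)) (ν := mu p h)).ae ha
    have hb' := (Measure.quasiMeasurePreserving_snd (μ := leb (p.B ^ 2)) (ν := mu p h)).ae hb
    filter_upwards [ha', hb'] with q hq1 hq2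
    exact ⟨hq1, hq2⟩
  exact ae_PP_forall _ hmeas (ae_iff.1 h1)

lemma os_level_nonneg (p : Par) (h i j : ℕ) (hj : j ≤ 2 * p.k) :
    ∀ᵐ ξ ∂(nb p h), 0 ≤ os i p.B (ξ.map fun q => q.1 / q.2 j) := by
  have hB : 0 ≤ p.B := le_trans (Nat.cast_nonneg _) p.hkB
  filter_upwards [nb_good p h] with ξ hξ
  refine os_nonneg hB (fun a ha => ?_)
  obtain ⟨q, hq, rfl⟩ := Multiset.mem_map.1 ha
  exact (div_pos (hξ q hq).1 ((hξ q hq).2 j hj)).le

lemma integrable_os_level (p : Par) (h i j : ℕ) (hj : j ≤ 2 * p.k) :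
    Integrable (fun ξ : Multiset (ℝ × (ℕ → ℝ)) => os i p.B (ξ.map fun q => q.1 / q.2 j))
      (nb p h) := by
  refine Integrable.of_bound ((measurable_os i p.B).comp (measurable_level j)).aestronglyMeasurable
    p.B ?_
  filter_upwards [os_level_nonneg p h i j hj] with ξ hξ
  rw [Real.norm_eq_abs, abs_of_nonneg hξ]
  exact os_le _ _ _

lemma clamp_level {p : Par} {δ : ℝ} (hδ : 0 < δ) (h i j : ℕ) (hj : j ≤ 2 * p.k) :
    Integrable (fun ξ : Multiset (ℝ × (ℕ → ℝ)) =>
      max δ (os i p.B (ξ.map fun q => q.1 / q.2 j))) (nb p h) ∧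
    ∫ ξ, max δ (os i p.B (ξ.map fun q => q.1 / q.2 j)) ∂(nb p h)
      ≤ δ + ∫ ξ, os i p.B (ξ.map fun q => q.1 / q.2 j) ∂(nb p h) := by
  have hI := integrable_os_level p h i j hj
  have hd : Integrable (fun ξ : Multiset (ℝ × (ℕ → ℝ)) =>
      δ + os i p.B (ξ.map fun q => q.1 / q.2 j)) (nb p h) := (integrable_const δ).add hI
  have hle : ∀ᵐ ξ ∂(nb p h), max δ (os i p.B (ξ.map fun q => q.1 / q.2 j))
      ≤ δ + os i p.B (ξ.map fun q => q.1 / q.2 j) := by
    filter_upwards [os_level_nonneg p h i j hj] with ξ hξ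
    exact max_le (by linarith) (by linarith)
  have hm : Integrable (fun ξ : Multiset (ℝ × (ℕ → ℝ)) =>
      max δ (os i p.B (ξ.map fun q => q.1 / q.2 j))) (nb p h) := by
    refine hd.mono' (measurable_const.max
      ((measurable_os i p.B).comp (measurable_level j))).aestronglyMeasurable ?_
    filter_upwards [hle] with ξ hξ
    rw [Real.norm_eq_abs, abs_of_nonneg (le_max_of_le_left hδ.le)]
    exact hξ
  refine ⟨hm, ?_⟩
  have := integral_mono_ae hm hd hle
  rwa [integral_add (integrable_const δ) hI, integral_const, probReal_univ, one_smul] at this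

lemma mean_av {p : Par} {δ : ℝ} (hδ : 0 < δ) (h j : ℕ) (hj : j ≤ 2 * p.k) :
    Integrable (av p δ j) (nb p h) ∧ ∫ ξ, av p δ j ξ ∂(nb p h) ≤ δ + 1 / p.m := by
  obtain ⟨h1, h2⟩ := clamp_level hδ h 0 j hj
  have h3 := (os_means p h (fun w => w j) (measurable_pi_apply j) (mu_pos p h j hj)
    (mu_mean p h j hj)).2.1
  exact ⟨h1, h2.trans (by linarith)⟩

lemma mean_bv {p : Par} {δ : ℝ} (hδ : 0 < δ) (h j : ℕ) (hj : j ≤ 2 * p.k) :
    Integrable (bv p δ j) (nb p h) ∧ ∫ ξ, bv p δ j ξ ∂(nb p h) ≤ δ + 3 / p.m := by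
  obtain ⟨h1, h2⟩ := clamp_level hδ h 2 j hj
  have h3 := (os_means p h (fun w => w j) (measurable_pi_apply j) (mu_pos p h j hj)
    (mu_mean p h j hj)).2.2.1
  exact ⟨h1, h2.trans (by linarith)⟩

lemma integrable_coord (p : Par) (h j : ℕ) (hj : j ≤ 2 * p.k) :
    Integrable (fun w : ℕ → ℝ => w j) (mu p h) := by
  refine Integrable.of_bound (measurable_pi_apply j).aestronglyMeasurable p.B ?_
  filter_upwards [mu_pos p h j hj] with w hw
  rw [Real.norm_eq_abs, abs_of_pos hw.1]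
  exact hw.2

lemma mean_upd (p : Par) (h j : ℕ) (hj : j ≤ 2 * p.k) :
    Integrable (fun ξ => upd p ξ j) (nb p h) ∧ ∫ ξ, upd p ξ j ∂(nb p h) = p.m := by
  have h1 := integrable_coord p (h + 1) j hj
  have h2 := mu_mean p (h + 1) j hj
  rw [mu_succ] at h1 h2
  rw [integral_map (measurable_upd p).aemeasurable
    (measurable_pi_apply j).aestronglyMeasurable] at h2
  exact ⟨(integrable_map_measure (measurable_pi_apply j).aestronglyMeasurable
    (measurable_upd p).aemeasurable).1 h1, h2⟩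

/-- the mean of the remainder -/
lemma mean_rem : ∃ C : ℝ, 0 < C ∧ ∀ (p : Par) (h : ℕ), 2 * p.k ≤ h →
    ∀ δ : ℝ, 0 < δ → ∀ j ∈ Finset.Ico p.k (2 * p.k),
    Integrable (fun ξ => remv p δ j (upd p ξ)) (nb p h) ∧
    ∫ ξ, remv p δ j (upd p ξ) ∂(nb p h) ≤ C / (p.k : ℝ) ^ 2 := by
  obtain ⟨C, hC, hM⟩ := master_bound
  refine ⟨5 * C, by positivity, fun p h hh δ hδ j hj => ?_⟩
  rw [Finset.mem_Ico] at hj
  have hk1 : 1 ≤ p.k := by have := p.hk; omega
  have hk : (1 : ℝ) ≤ p.k := by exact_mod_cast hk1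
  set φ : ℕ → ℕ → (ℕ → ℝ) → ℝ := fun a b w => w a * (max 0 (w a - w b)) ^ 2 / (w b) ^ 2 with hφ
  have hM' : ∀ a b : ℕ, p.k ≤ a → a ≤ 2 * p.k → p.k ≤ b → b ≤ 2 * p.k →
      Integrable (φ a b) (mu p (h + 1)) ∧ ∫ w, φ a b w ∂(mu p (h + 1)) ≤ C / (p.k : ℝ) ^ 2 :=
    fun a b h1 h2 h3 h4 => ⟨(hM p (h + 1) a b (by omega) h1 h2 h3 h4).1,
      (hM p (h + 1) a b (by omega) h1 h2 h3 h4).2.1⟩
  have hA := (hM p (h + 1) (2 * p.k) p.k (by omega) (by omega) le_rfl le_rfl (by omega)).2.2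
  have hAi : Integrable (fun w : ℕ → ℝ => |w (2 * p.k) - w p.k|) (mu p (h + 1)) :=
    ((integrable_coord p (h + 1) (2 * p.k) le_rfl).sub
      (integrable_coord p (h + 1) p.k (by omega))).abs
  obtain ⟨i1, b1⟩ := hM' (2 * p.k) p.k (by omega) le_rfl le_rfl (by omega)
  obtain ⟨i2, b2⟩ := hM' j p.k hj.1 (by omega) le_rfl (by omega)
  obtain ⟨i3, b3⟩ := hM' p.k (2 * p.k) le_rfl (by omega) (by omega) le_rfl
  obtain ⟨i4, b4⟩ := hM' j (2 * p.k) hj.1 (by omega) (by omega) le_rfl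
  set G : (ℕ → ℝ) → ℝ := fun w => (|w (2 * p.k) - w p.k| + φ (2 * p.k) p.k w + φ j p.k w
    + φ p.k (2 * p.k) w + φ j (2 * p.k) w) / p.k with hG
  have hGi : Integrable G (mu p (h + 1)) := ((((hAi.add i1).add i2).add i3).add i4).div_const _
  have hGI : ∫ w, G w ∂(mu p (h + 1)) ≤ 5 * C / (p.k : ℝ) ^ 2 := by
    have j1 : Integrable (fun w : ℕ → ℝ => |w (2 * p.k) - w p.k| + φ (2 * p.k) p.k w)
      (mu p (h + 1)) := hAi.add i1
    have j2 : Integrable (fun w : ℕ → ℝ => |w (2 * p.k) - w p.k| + φ (2 * p.k) p.k w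
      + φ j p.k w) (mu p (h + 1)) := j1.add i2
    have j3 : Integrable (fun w : ℕ → ℝ => |w (2 * p.k) - w p.k| + φ (2 * p.k) p.k w
      + φ j p.k w + φ p.k (2 * p.k) w) (mu p (h + 1)) := j2.add i3
    rw [hG, integral_div, integral_add j3 i4, integral_add j2 i3, integral_add j1 i2,
      integral_add hAi i1]
    have h1 : (∫ w, |w (2 * p.k) - w p.k| ∂(mu p (h + 1)) + ∫ w, φ (2 * p.k) p.k w ∂(mu p (h + 1))
        + ∫ w, φ j p.k w ∂(mu p (h + 1)) + ∫ w, φ p.k (2 * p.k) w ∂(mu p (h + 1))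
        + ∫ w, φ j (2 * p.k) w ∂(mu p (h + 1))) ≤ 5 * C / p.k := by
      have h2 : C / (p.k : ℝ) ^ 2 ≤ C / p.k := by
        apply div_le_div_of_nonneg_left hC.le (by positivity)
        nlinarith
      have h3 : 5 * C / (p.k : ℝ) = C / p.k + C / p.k + C / p.k + C / p.k + C / p.k := by ring
      rw [h3]
      linarith
    calc _ ≤ (5 * C / p.k) / p.k := by gcongr
      _ = _ := by rw [div_div, sq]
  have hpos : ∀ᵐ w ∂(mu p (h + 1)), ∀ i ≤ 2 * p.k, 0 < w i := by
    rw [ae_all_iff]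
    intro i
    by_cases hi : i ≤ 2 * p.k
    · filter_upwards [mu_pos p (h + 1) i hi] with w hw _ using hw.1
    · exact Filter.Eventually.of_forall (fun _ h' => absurd h' hi)
  have hle : ∀ᵐ w ∂(mu p (h + 1)), remv p δ j w ≤ G w := by
    filter_upwards [hpos] with w hw
    have hm : ∀ x : ℝ, 0 < max δ x := fun x => lt_max_of_lt_left hδ
    refine (rem_bound (hm (w (2 * p.k))) (hm (w p.k)) (hm (w j)) hk1).trans ?_
    rw [hG]
    refine div_le_div_of_nonneg_right ?_ (by positivity)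
    refine add_le_add (add_le_add (add_le_add (add_le_add ?_ ?_) ?_) ?_) ?_
    · exact abs_clamp _ _ _
    · exact quad_clamp (hw _ le_rfl) (hw _ (by omega))
    · exact quad_clamp (hw _ (by omega)) (hw _ (by omega))
    · exact quad_clamp (hw _ (by omega)) (hw _ le_rfl)
    · exact quad_clamp (hw _ (by omega)) (hw _ le_rfl)
  have hri : Integrable (remv p δ j) (mu p (h + 1)) := by
    refine hGi.mono' (measurable_remv p δ j).aestronglyMeasurable ?_
    filter_upwards [hle] with w hw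
    rw [Real.norm_eq_abs, abs_of_nonneg (remv_nonneg hδ j w)]
    exact hw
  have hrI := (integral_mono_ae hri hGi hle).trans hGI
  rw [mu_succ] at hri hrI
  rw [integral_map (measurable_upd p).aemeasurable
    (measurable_remv p δ j).aestronglyMeasurable] at hrI
  exact ⟨(integrable_map_measure (measurable_remv p δ j).aestronglyMeasurable
    (measurable_upd p).aemeasurable).1 hri, hrI⟩

lemma pair_integrable {p : Par} {h : ℕ} {δ : ℝ} (hδ : 0 < δ)
    (hr : ∀ j ∈ Finset.Ico p.k (2 * p.k),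
      Integrable (fun ξ => remv p δ j (upd p ξ)) (nb p h)) :
    Integrable (fun z : Multiset (ℝ × (ℕ → ℝ)) × Multiset (ℝ × (ℕ → ℝ)) =>
      pairK p δ z.1 (upd p z.2)) ((nb p h).prod (nb p h)) := by
  unfold pairK
  refine Integrable.div_const (integrable_finsetSum _ (fun j hj => ?_)) _
  have hj' : j ≤ 2 * p.k := (Finset.mem_Ico.1 hj).2.le
  have ha := (mean_av hδ h j hj').1
  have hb := (mean_bv hδ h j hj').1
  have hu := (mean_upd p h j hj').1
  exact ((ha.mul_prod hu).add (hb.mul_prod (integrable_const δ))).add (hb.mul_prod (hr j hj))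

lemma pair_mean {p : Par} {h : ℕ} {δ R : ℝ} (hδ : 0 < δ) (hδ1 : δ ≤ 1) (hR : 0 ≤ R)
    (hr : ∀ j ∈ Finset.Ico p.k (2 * p.k),
      Integrable (fun ξ => remv p δ j (upd p ξ)) (nb p h) ∧
        ∫ ξ, remv p δ j (upd p ξ) ∂(nb p h) ≤ R) :
    ∫ z : Multiset (ℝ × (ℕ → ℝ)) × Multiset (ℝ × (ℕ → ℝ)),
      pairK p δ z.1 (upd p z.2) ∂((nb p h).prod (nb p h)) ≤ 1 / 2 + 3 * δ + 2 * R := by
  have hm1 := p.hm1
  have hm0 : 0 < p.m := by linarith
  have hk : (0 : ℝ) < p.k := by
    have := p.hk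
    exact_mod_cast (by omega : 0 < p.k)
  have hm2 : p.m ≤ 2 := by
    have h1 := p.hm
    have hB : 0 ≤ p.B := le_trans (Nat.cast_nonneg _) p.hkB
    have h2 : 0 ≤ (p.m * p.B + 2) * Real.exp (-(p.m * p.B)) := by positivity
    nlinarith
  unfold pairK
  have hterm : ∀ j ∈ Finset.Ico p.k (2 * p.k),
      Integrable (fun z : Multiset (ℝ × (ℕ → ℝ)) × Multiset (ℝ × (ℕ → ℝ)) =>
        av p δ j z.1 * upd p z.2 j + bv p δ j z.1 * δ
        + bv p δ j z.1 * (max δ (upd p z.2 j) * (Real.exp |tauv p δ (upd p z.2)| - 1)))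
        ((nb p h).prod (nb p h)) ∧
      ∫ z : Multiset (ℝ × (ℕ → ℝ)) × Multiset (ℝ × (ℕ → ℝ)),
        (av p δ j z.1 * upd p z.2 j + bv p δ j z.1 * δ
        + bv p δ j z.1 * (max δ (upd p z.2 j) * (Real.exp |tauv p δ (upd p z.2)| - 1)))
        ∂((nb p h).prod (nb p h)) ≤ 1 + 6 * δ + 4 * R := by
    intro j hj
    have hj' : j ≤ 2 * p.k := (Finset.mem_Ico.1 hj).2.le
    obtain ⟨ha, hA⟩ := mean_av hδ h j hj'
    obtain ⟨hb, hB⟩ := mean_bv hδ h j hj'
    obtain ⟨hu, hU⟩ := mean_upd p h j hj'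
    obtain ⟨hri, hRI⟩ := hr j hj
    have i1 := ha.mul_prod hu
    have i2 := hb.mul_prod (integrable_const (μ := nb p h) δ)
    have i3 := hb.mul_prod hri
    refine ⟨(i1.add i2).add i3, ?_⟩
    have e : ∫ z : Multiset (ℝ × (ℕ → ℝ)) × Multiset (ℝ × (ℕ → ℝ)),
        (av p δ j z.1 * upd p z.2 j + bv p δ j z.1 * δ
        + bv p δ j z.1 * (max δ (upd p z.2 j) * (Real.exp |tauv p δ (upd p z.2)| - 1)))
        ∂((nb p h).prod (nb p h))
        = (∫ ξ, av p δ j ξ ∂(nb p h)) * (∫ ξ, upd p ξ j ∂(nb p h))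
          + (∫ ξ, bv p δ j ξ ∂(nb p h)) * (∫ _ξ, δ ∂(nb p h))
          + (∫ ξ, bv p δ j ξ ∂(nb p h)) * (∫ ξ, remv p δ j (upd p ξ) ∂(nb p h)) := by
      have i12 : Integrable (fun z : Multiset (ℝ × (ℕ → ℝ)) × Multiset (ℝ × (ℕ → ℝ)) =>
        av p δ j z.1 * upd p z.2 j + bv p δ j z.1 * δ) ((nb p h).prod (nb p h)) := i1.add i2
      have i3' : Integrable (fun z : Multiset (ℝ × (ℕ → ℝ)) × Multiset (ℝ × (ℕ → ℝ)) =>
        bv p δ j z.1 * (max δ (upd p z.2 j) * (Real.exp |tauv p δ (upd p z.2)| - 1)))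
        ((nb p h).prod (nb p h)) := i3
      rw [integral_add i12 i3', integral_add i1 i2]
      congr 1
      · congr 1
        · exact integral_prod_mul (fun ξ => av p δ j ξ) (fun ξ => upd p ξ j)
        · exact integral_prod_mul (fun ξ => bv p δ j ξ) (fun _ => δ)
      · exact integral_prod_mul (fun ξ => bv p δ j ξ) (fun ξ => remv p δ j (upd p ξ))
    rw [e, hU, integral_const, probReal_univ, one_smul]
    have hB0 : 0 ≤ ∫ ξ, bv p δ j ξ ∂(nb p h) :=
      integral_nonneg (fun ξ => (bv_pos hδ j ξ).le)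
    have h3m : 3 / p.m ≤ 3 := by
      rw [div_le_iff₀ hm0]; linarith
    have hB4 : ∫ ξ, bv p δ j ξ ∂(nb p h) ≤ 4 := by linarith
    have t1 : (∫ ξ, av p δ j ξ ∂(nb p h)) * p.m ≤ 1 + 2 * δ := by
      have := mul_le_mul_of_nonneg_right hA hm0.le
      rw [add_mul, one_div, inv_mul_cancel₀ hm0.ne'] at this
      nlinarith
    have t2 : (∫ ξ, bv p δ j ξ ∂(nb p h)) * δ ≤ 4 * δ :=
      mul_le_mul_of_nonneg_right hB4 hδ.le
    have t3 : (∫ ξ, bv p δ j ξ ∂(nb p h)) * (∫ ξ, remv p δ j (upd p ξ) ∂(nb p h)) ≤ 4 * R := by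
      have := mul_le_mul_of_nonneg_left hRI hB0
      nlinarith
    linarith
  rw [integral_div, integral_finsetSum _ (fun j hj => (hterm j hj).1)]
  have hsum := Finset.sum_le_sum (fun j hj => (hterm j hj).2)
  rw [Finset.sum_const, Nat.card_Ico, nsmul_eq_mul] at hsum
  have hcard : ((2 * p.k - p.k : ℕ) : ℝ) = p.k := by
    congr 1; omega
  rw [hcard] at hsum
  rw [div_le_iff₀ (by positivity)]
  nlinarith

/-- iterated Bochner integrals of nonnegative functions and iterated lower integrals -/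
lemma ofReal_iterated_le {A B C : Type*} [MeasurableSpace A] [MeasurableSpace B]
    [MeasurableSpace C] (μ : Measure A) (ν : Measure B) (κ : Measure C) (f : A → B → C → ℝ)
    (hf : ∀ a b c, 0 ≤ f a b c) :
    ENNReal.ofReal (∫ a, ∫ b, ∫ c, f a b c ∂κ ∂ν ∂μ)
      ≤ ∫⁻ a, ∫⁻ b, ∫⁻ c, ENNReal.ofReal (f a b c) ∂κ ∂ν ∂μ := by
  have h0 : 0 ≤ ∫ a, ∫ b, ∫ c, f a b c ∂κ ∂ν ∂μ :=
    integral_nonneg (fun a => integral_nonneg (fun b => integral_nonneg (fun c => hf a b c)))
  rw [← Real.enorm_of_nonneg h0]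
  refine (enorm_integral_le_lintegral_enorm _).trans (lintegral_mono (fun a => ?_))
  refine (enorm_integral_le_lintegral_enorm _).trans (lintegral_mono (fun b => ?_))
  refine (enorm_integral_le_lintegral_enorm _).trans (lintegral_mono (fun c => ?_))
  exact (Real.enorm_of_nonneg (hf a b c)).le

end TL

open TL in
theorem tree_lower : ∃ C : ℝ, 0 < C ∧ ∀ (p : Par) (h : ℕ), 2 * p.k ≤ h →
    ∀ δ : ℝ, 0 < δ → δ ≤ 1 →
    2 - Real.log 2 - 2 * Real.eulerMascheroniConstant - C * (1 / (p.k : ℝ) ^ 2 + δ)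
      ≤ ∫ ξ, pot p δ ξ ∂(nb p h)
        - (1 / 2) * ∫ s, ∫ ξ, ∫ ξ', max 0 (pot p δ ((s, upd p ξ') ::ₘ ξ) / 2
            + pot p δ ((s, upd p ξ) ::ₘ ξ') / 2 - Real.log s)
            ∂(nb p h) ∂(nb p h) ∂(leb (p.B ^ 2)) := by
  obtain ⟨C1, hC1, hL⟩ := os_log_means
  obtain ⟨C2, hC2, hRem⟩ := mean_rem
  refine ⟨C1 + 2 * C2 + 3, by positivity, fun p h hh δ hδ hδ1 => ?_⟩
  have hk : (0 : ℝ) < p.k := by
    have := p.hk
    exact_mod_cast (by omega : 0 < p.k)
  have hm1 := p.hm1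
  have hm0 : 0 < p.m := by linarith
  have hB1 : 1 ≤ p.B := by
    have h1 := p.hk
    have h2 := p.hkB
    have : (8 : ℝ) ≤ p.k := by exact_mod_cast h1
    linarith
  -- the mean of the potential
  have hpot : 5 / 2 - 2 * Real.eulerMascheroniConstant - 2 * Real.log p.m - C1 / (p.k : ℝ) ^ 2
      ≤ ∫ ξ, pot p δ ξ ∂(nb p h) := by
    unfold pot
    have hbd : ∀ i j : ℕ, Integrable (fun ξ : Multiset (ℝ × (ℕ → ℝ)) =>
        Real.log (max δ (os i p.B (ξ.map fun q => q.1 / q.2 j)))) (nb p h) := by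
      intro i j
      refine Integrable.of_bound (Real.measurable_log.comp (measurable_const.max
        ((measurable_os i p.B).comp (measurable_level j)))).aestronglyMeasurable
        (|Real.log δ| + Real.log p.B) (Filter.Eventually.of_forall (fun ξ => ?_))
      have h1 : Real.log δ ≤ Real.log (max δ (os i p.B (ξ.map fun q => q.1 / q.2 j))) :=
        Real.log_le_log hδ (le_max_left _ _)
      have h2 : Real.log (max δ (os i p.B (ξ.map fun q => q.1 / q.2 j))) ≤ Real.log p.B := by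
        refine Real.log_le_log (lt_max_of_lt_left hδ) (max_le (hδ1.trans hB1) (os_le _ _ _))
      rw [Real.norm_eq_abs, abs_le]
      have h3 := neg_abs_le (Real.log δ)
      have h4 := abs_nonneg (Real.log δ)
      have h5 : 0 ≤ Real.log p.B := Real.log_nonneg hB1
      constructor <;> linarith
    have hbd' : ∀ j ∈ Finset.Ico p.k (2 * p.k), Integrable (fun ξ : Multiset (ℝ × (ℕ → ℝ)) =>
        Real.log (max δ (os 1 p.B (ξ.map fun q => q.1 / q.2 j)))
          + Real.log (max δ (os 2 p.B (ξ.map fun q => q.1 / q.2 j)))) (nb p h) :=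
      fun j _ => (hbd 1 j).add (hbd 2 j)
    rw [integral_div, integral_finsetSum _ hbd', le_div_iff₀ hk]
    have hsum := Finset.sum_le_sum (s := Finset.Ico p.k (2 * p.k)) (fun j hj =>
      hL p h (fun w => w j) (measurable_pi_apply j)
        (mu_pos p h j (Finset.mem_Ico.1 hj).2.le) (mu_mean p h j (Finset.mem_Ico.1 hj).2.le)
        δ hδ hδ1)
    rw [Finset.sum_const, Nat.card_Ico, nsmul_eq_mul] at hsum
    have hcard : ((2 * p.k - p.k : ℕ) : ℝ) = p.k := by
      congr 1; omega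
    rw [hcard] at hsum
    rw [mul_comm]
    exact hsum
  -- the pair term
  set R : ℝ := C2 / (p.k : ℝ) ^ 2 with hR
  have hR0 : 0 ≤ R := by positivity
  have hr := hRem p h hh δ hδ
  set I : ℝ := ∫ s, ∫ ξ, ∫ ξ', max 0 (pot p δ ((s, upd p ξ') ::ₘ ξ) / 2
            + pot p δ ((s, upd p ξ) ::ₘ ξ') / 2 - Real.log s)
            ∂(nb p h) ∂(nb p h) ∂(leb (p.B ^ 2)) with hI
  have hKi := pair_integrable (h := h) hδ (fun j hj => (hr j hj).1)
  have hKI := pair_mean hδ hδ1 hR0 hr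
  have hKi' : Integrable (fun z : Multiset (ℝ × (ℕ → ℝ)) × Multiset (ℝ × (ℕ → ℝ)) =>
      pairK p δ z.2 (upd p z.1)) ((nb p h).prod (nb p h)) := hKi.swap
  have hKI' : ∫ z : Multiset (ℝ × (ℕ → ℝ)) × Multiset (ℝ × (ℕ → ℝ)),
      pairK p δ z.2 (upd p z.1) ∂((nb p h).prod (nb p h)) ≤ 1 / 2 + 3 * δ + 2 * R := by
    refine le_trans (le_of_eq ?_) hKI
    exact integral_prod_swap (fun z : Multiset (ℝ × (ℕ → ℝ)) × Multiset (ℝ × (ℕ → ℝ)) =>
      pairK p δ z.1 (upd p z.2))
  have hpair : I ≤ 1 + 6 * δ + 4 * R := by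
    have h1 := ofReal_iterated_le (leb (p.B ^ 2)) (nb p h) (nb p h)
      (fun s ξ ξ' => max 0 (pot p δ ((s, upd p ξ') ::ₘ ξ) / 2
            + pot p δ ((s, upd p ξ) ::ₘ ξ') / 2 - Real.log s)) (fun _ _ _ => le_max_left _ _)
    set F : ℝ → Multiset (ℝ × (ℕ → ℝ)) × Multiset (ℝ × (ℕ → ℝ)) → ℝ≥0∞ := fun s z =>
      ENNReal.ofReal (max 0 (pot p δ ((s, upd p z.2) ::ₘ z.1) / 2
            + pot p δ ((s, upd p z.1) ::ₘ z.2) / 2 - Real.log s)) with hF
    have hFm : Measurable (Function.uncurry F) := by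
      refine ENNReal.measurable_ofReal.comp (measurable_const.max ?_)
      refine Measurable.sub (Measurable.add ?_ ?_) ?_
      · refine Measurable.div_const ((measurable_pot p δ).comp (measurable_mcons ?_ ?_)) 2
        · exact measurable_fst.prodMk ((measurable_upd p).comp (measurable_snd.comp measurable_snd))
        · exact measurable_fst.comp measurable_snd
      · refine Measurable.div_const ((measurable_pot p δ).comp (measurable_mcons ?_ ?_)) 2
        · exact measurable_fst.prodMk ((measurable_upd p).comp (measurable_fst.comp measurable_snd))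
        · exact measurable_snd.comp measurable_snd
      · exact Real.measurable_log.comp measurable_fst
    have h2 : ∫⁻ s, ∫⁻ ξ, ∫⁻ ξ', ENNReal.ofReal (max 0 (pot p δ ((s, upd p ξ') ::ₘ ξ) / 2
            + pot p δ ((s, upd p ξ) ::ₘ ξ') / 2 - Real.log s))
            ∂(nb p h) ∂(nb p h) ∂(leb (p.B ^ 2))
        = ∫⁻ z, ∫⁻ s, F s z ∂(leb (p.B ^ 2)) ∂((nb p h).prod (nb p h)) := by
      rw [← lintegral_lintegral_swap hFm.aemeasurable]
      refine lintegral_congr (fun s => ?_)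
      rw [lintegral_prod (F s) (hFm.comp (measurable_const.prodMk measurable_id)).aemeasurable]
    have hg := upd_good p h
    have hg1 := (Measure.quasiMeasurePreserving_fst (μ := nb p h) (ν := nb p h)).ae hg
    have hg2 := (Measure.quasiMeasurePreserving_snd (μ := nb p h) (ν := nb p h)).ae hg
    have h3 : ∫⁻ z, ∫⁻ s, F s z ∂(leb (p.B ^ 2)) ∂((nb p h).prod (nb p h))
        ≤ ∫⁻ z, ENNReal.ofReal (pairK p δ z.1 (upd p z.2) + pairK p δ z.2 (upd p z.1))
          ∂((nb p h).prod (nb p h)) := by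
      refine lintegral_mono_ae ?_
      filter_upwards [hg1, hg2] with z hz1 hz2
      exact lint_pair hδ _ z.1 z.2 (fun j hj => (hz1 j (Finset.mem_Ico.1 hj).2.le).1)
        (fun j hj => (hz2 j (Finset.mem_Ico.1 hj).2.le).1)
    have hKnn : ∀ᵐ z ∂((nb p h).prod (nb p h)),
        0 ≤ pairK p δ z.1 (upd p z.2) + pairK p δ z.2 (upd p z.1) := by
      have hnn : ∀ (ξ : Multiset (ℝ × (ℕ → ℝ))) (w : ℕ → ℝ),
          (∀ j ≤ 2 * p.k, 0 < w j ∧ w j ≤ p.B) → 0 ≤ pairK p δ ξ w := by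
        intro ξ w hw
        unfold pairK
        refine div_nonneg (Finset.sum_nonneg (fun j hj => ?_)) (by positivity)
        have ha := av_pos (p := p) hδ j ξ
        have hb := bv_pos (p := p) hδ j ξ
        have hw' := (hw j (Finset.mem_Ico.1 hj).2.le).1
        have hrr := remv_nonneg (p := p) hδ j w
        unfold remv at hrr
        have := mul_nonneg hb.le hrr
        positivity
      filter_upwards [hg1, hg2] with z hz1 hz2
      exact add_nonneg (hnn _ _ hz2) (hnn _ _ hz1)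
    have hKK : Integrable (fun z : Multiset (ℝ × (ℕ → ℝ)) × Multiset (ℝ × (ℕ → ℝ)) =>
        pairK p δ z.1 (upd p z.2) + pairK p δ z.2 (upd p z.1)) ((nb p h).prod (nb p h)) :=
      hKi.add hKi'
    have h4 : ENNReal.ofReal I ≤ ENNReal.ofReal (∫ z, (pairK p δ z.1 (upd p z.2)
        + pairK p δ z.2 (upd p z.1)) ∂((nb p h).prod (nb p h))) := by
      rw [ofReal_integral_eq_lintegral_ofReal hKK hKnn]
      exact h1.trans (h2.le.trans h3)
    have h5 := (ENNReal.ofReal_le_ofReal_iff (integral_nonneg_of_ae hKnn)).1 h4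
    rw [integral_add hKi hKi'] at h5
    linarith
  -- conclusion
  have hlogm : 2 * Real.log p.m ≤ Real.log 2 := by
    have h1 := p.hm
    have h2 : 0 ≤ (p.m * p.B + 2) * Real.exp (-(p.m * p.B)) := by positivity
    have h3 : p.m ^ 2 ≤ 2 := by linarith
    have h4 := Real.log_le_log (by positivity) h3
    rwa [Real.log_pow, Nat.cast_ofNat] at h4
  have e1 : C1 / (p.k : ℝ) ^ 2 = C1 * (1 / (p.k : ℝ) ^ 2) := by ring
  have e2 : R = C2 * (1 / (p.k : ℝ) ^ 2) := by rw [hR]; ring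
  rw [e2] at hpair
  rw [e1] at hpot
  set K : ℝ := 1 / (p.k : ℝ) ^ 2 with hK
  have hK0 : 0 ≤ K := by positivity
  have e3 : 0 ≤ C1 * δ := by positivity
  have e4 : 0 ≤ C2 * δ := by positivity
  nlinarith

end Pool.Agent.TSPd97
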