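import Pool.Agent.TSPd97.RootLaw
import Pool.Agent.TSPd97.TourLower
import Pool.Agent.TSPd97.TreeL
import Pool.Agent.TSPd97.Deg
import Pool.Agent.TSPd97.Stable
import Pool.Agent.TSPd97.PoisInt

/-!
MP_076557_pr, package LF: the lower bound.
-/

set_option autoImplicit false

open MeasureTheory Set Filter Topology
open scoped ENNReal

namespace Pool.Agent.TSPd97

namespace LF

/-! ### iterated integrals -/

lemma lintegral3_eq {A B C : Type*} [MeasurableSpace A] [MeasurableSpace B]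
    [MeasurableSpace C] (μ : Measure A) [SFinite μ] (ν : Measure B) [IsProbabilityMeasure ν]
    (κ : Measure C) [IsProbabilityMeasure κ] (f : A → B → C → ℝ)
    (hf : Measurable fun t : A × B × C => f t.1 t.2.1 t.2.2)
    (hf0 : ∀ a b c, 0 ≤ f a b c) (bd : A → ℝ) (hbd : ∀ᵐ a ∂μ, ∀ b c, f a b c ≤ bd a)
    (hint : Integrable bd μ) :
    ∫⁻ a, ∫⁻ b, ∫⁻ c, ENNReal.ofReal (f a b c) ∂κ ∂ν ∂μ
      = ENNReal.ofReal (∫ a, ∫ b, ∫ c, f a b c ∂κ ∂ν ∂μ) := by
  have m2 : StronglyMeasurable fun t : A × B => ∫ c, f t.1 t.2 c ∂κ := by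
    have h : StronglyMeasurable fun t : (A × B) × C => f t.1.1 t.1.2 t.2 :=
      (hf.comp (measurable_fst.fst.prodMk (measurable_fst.snd.prodMk
        measurable_snd))).stronglyMeasurable
    exact h.integral_prod_right'
  have m1 : StronglyMeasurable fun a : A => ∫ b, ∫ c, f a b c ∂κ ∂ν := m2.integral_prod_right'
  have n2 : ∀ a b, 0 ≤ ∫ c, f a b c ∂κ := fun a b => integral_nonneg fun c => hf0 a b c
  have n1 : ∀ a, 0 ≤ ∫ b, ∫ c, f a b c ∂κ ∂ν := fun a => integral_nonneg fun b => n2 a b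
  have key : ∀ᵐ a ∂μ, (∀ b, ∫⁻ c, ENNReal.ofReal (f a b c) ∂κ
      = ENNReal.ofReal (∫ c, f a b c ∂κ)) ∧ (∀ b, ∫ c, f a b c ∂κ ≤ bd a) := by
    filter_upwards [hbd] with a ha
    have hi : ∀ b, Integrable (fun c => f a b c) κ := by
      intro b
      have hm : Measurable fun c => f a b c :=
        hf.comp (measurable_const.prodMk (measurable_const.prodMk measurable_id))
      refine Integrable.of_bound hm.aestronglyMeasurable (bd a) (ae_of_all _ fun c => ?_)
      rw [Real.norm_eq_abs, abs_of_nonneg (hf0 a b c)]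
      exact ha b c
    refine ⟨fun b => ?_, fun b => ?_⟩
    · exact (ofReal_integral_eq_lintegral_ofReal (hi b) (ae_of_all _ fun c => hf0 a b c)).symm
    · calc ∫ c, f a b c ∂κ ≤ ∫ _c, bd a ∂κ :=
            integral_mono (hi b) (integrable_const _) fun c => ha b c
        _ = bd a := by simp
  have key2 : ∀ᵐ a ∂μ, (∫⁻ b, ∫⁻ c, ENNReal.ofReal (f a b c) ∂κ ∂ν
      = ENNReal.ofReal (∫ b, ∫ c, f a b c ∂κ ∂ν)) ∧ (∫ b, ∫ c, f a b c ∂κ ∂ν ≤ bd a) := by
    filter_upwards [key] with a ha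
    have hi : Integrable (fun b => ∫ c, f a b c ∂κ) ν := by
      have hm : StronglyMeasurable fun b => ∫ c, f a b c ∂κ :=
        m2.comp_measurable (measurable_const.prodMk measurable_id)
      refine Integrable.of_bound hm.aestronglyMeasurable (bd a) (ae_of_all _ fun b => ?_)
      rw [Real.norm_eq_abs, abs_of_nonneg (n2 a b)]
      exact ha.2 b
    refine ⟨?_, ?_⟩
    · rw [ofReal_integral_eq_lintegral_ofReal hi (ae_of_all _ fun b => n2 a b)]
      exact lintegral_congr fun b => ha.1 b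
    · calc ∫ b, ∫ c, f a b c ∂κ ∂ν ≤ ∫ _b, bd a ∂ν :=
            integral_mono hi (integrable_const _) fun b => ha.2 b
        _ = bd a := by simp
  have hi : Integrable (fun a => ∫ b, ∫ c, f a b c ∂κ ∂ν) μ := by
    refine hint.mono' m1.aestronglyMeasurable ?_
    filter_upwards [key2] with a ha
    rw [Real.norm_eq_abs, abs_of_nonneg (n1 a)]
    exact ha.2
  rw [ofReal_integral_eq_lintegral_ofReal hi (ae_of_all _ n1)]
  exact lintegral_congr_ae (key2.mono fun a ha => ha.1)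

/-! ### bounds of the potential -/

lemma pot_bounds (p : Par) {δ : ℝ} (hδ : 0 < δ) (hδ1 : δ ≤ 1) (ξ : Multiset (ℝ × (ℕ → ℝ))) :
    2 * Real.log δ ≤ pot p δ ξ ∧ pot p δ ξ ≤ Real.log (p.B ^ 2) := by
  have hk : (0 : ℝ) < p.k := by
    have := p.hk
    exact_mod_cast (by omega : 0 < p.k)
  have hB1 : 1 ≤ p.B := by
    have h1 := p.hk
    have h2 := p.hkB
    have : (8 : ℝ) ≤ p.k := by exact_mod_cast h1
    linarith
  have hb : ∀ i j : ℕ, Real.log δ ≤ Real.log (max δ (os i p.B (ξ.map fun q => q.1 / q.2 j))) ∧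
      Real.log (max δ (os i p.B (ξ.map fun q => q.1 / q.2 j))) ≤ Real.log p.B := by
    intro i j
    refine ⟨Real.log_le_log hδ (le_max_left _ _), ?_⟩
    exact Real.log_le_log (lt_max_of_lt_left hδ) (max_le (hδ1.trans hB1) (os_le _ _ _))
  have hcard : ∀ c : ℝ, ∑ j ∈ Finset.Ico p.k (2 * p.k), c = p.k * c := by
    intro c
    rw [Finset.sum_const, Nat.card_Ico, nsmul_eq_mul]
    congr 2; omega
  unfold pot
  rw [le_div_iff₀ hk, div_le_iff₀ hk, Real.log_pow]
  constructor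
  · have h1 := Finset.sum_le_sum (s := Finset.Ico p.k (2 * p.k)) (fun j _ =>
      add_le_add (hb 1 j).1 (hb 2 j).1)
    rw [hcard] at h1
    refine le_trans (le_of_eq ?_) h1
    ring
  · have h1 := Finset.sum_le_sum (s := Finset.Ico p.k (2 * p.k)) (fun j _ =>
      add_le_add (hb 1 j).2 (hb 2 j).2)
    rw [hcard] at h1
    refine h1.trans (le_of_eq ?_)
    push_cast
    ring

/-- the pair term -/
noncomputable def gp (p : Par) (δ s : ℝ) (ξ ξ' : Multiset (ℝ × (ℕ → ℝ))) : ℝ :=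
  max 0 (pot p δ ((s, upd p ξ') ::ₘ ξ) / 2 + pot p δ ((s, upd p ξ) ::ₘ ξ') / 2 - Real.log s)

lemma gp_nonneg (p : Par) (δ s : ℝ) (ξ ξ' : Multiset (ℝ × (ℕ → ℝ))) : 0 ≤ gp p δ s ξ ξ' :=
  le_max_left _ _

lemma gp_le (p : Par) {δ : ℝ} (hδ : 0 < δ) (hδ1 : δ ≤ 1) {s : ℝ} (hs : 0 < s)
    (ξ ξ' : Multiset (ℝ × (ℕ → ℝ))) : gp p δ s ξ ξ' ≤ TL.lp (p.B ^ 2) s := by
  have hB1 : 1 ≤ p.B := by
    have h1 := p.hk
    have h2 := p.hkB
    have : (8 : ℝ) ≤ p.k := by exact_mod_cast h1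
    linarith
  unfold gp TL.lp
  refine max_le_max_left _ ?_
  rw [Real.log_div (by positivity) hs.ne']
  have h1 := (pot_bounds p hδ hδ1 ((s, upd p ξ') ::ₘ ξ)).2
  have h2 := (pot_bounds p hδ hδ1 ((s, upd p ξ) ::ₘ ξ')).2
  linarith

lemma measurable_gp (p : Par) (δ : ℝ) :
    Measurable fun t : ℝ × Multiset (ℝ × (ℕ → ℝ)) × Multiset (ℝ × (ℕ → ℝ)) =>
      gp p δ t.1 t.2.1 t.2.2 := by
  refine measurable_const.max ?_
  refine Measurable.sub (Measurable.add ?_ ?_) ?_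
  · refine Measurable.div_const ((TL.measurable_pot p δ).comp (measurable_mcons ?_ ?_)) 2
    · exact measurable_fst.prodMk ((measurable_upd p).comp (measurable_snd.comp measurable_snd))
    · exact measurable_fst.comp measurable_snd
  · refine Measurable.div_const ((TL.measurable_pot p δ).comp (measurable_mcons ?_ ?_)) 2
    · exact measurable_fst.prodMk ((measurable_upd p).comp (measurable_fst.comp measurable_snd))
    · exact measurable_snd.comp measurable_snd
  · exact Real.measurable_log.comp measurable_fst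

lemma lint_gp (p : Par) {δ : ℝ} (hδ : 0 < δ) (hδ1 : δ ≤ 1) (h : ℕ) :
    ∫⁻ s, ∫⁻ ξ, ∫⁻ ξ', ENNReal.ofReal (gp p δ s ξ ξ') ∂(nb p h) ∂(nb p h) ∂(leb (p.B ^ 2))
      = ENNReal.ofReal (∫ s, ∫ ξ, ∫ ξ', gp p δ s ξ ξ' ∂(nb p h) ∂(nb p h) ∂(leb (p.B ^ 2))) := by
  have hB1 : 1 ≤ p.B := by
    have h1 := p.hk
    have h2 := p.hkB
    have : (8 : ℝ) ≤ p.k := by exact_mod_cast h1
    linarith
  refine lintegral3_eq (leb (p.B ^ 2)) (nb p h) (nb p h) (gp p δ) (measurable_gp p δ)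
    (gp_nonneg p δ) (TL.lp (p.B ^ 2)) ?_ ?_
  · unfold leb
    filter_upwards [ae_restrict_mem measurableSet_Ioc] with s hs ξ ξ'
    exact gp_le p hδ hδ1 hs.1 ξ ξ'
  · have h1 := TL.lp_integrableOn (D := p.B ^ 2) (by positivity)
    exact h1.mono_set Ioc_subset_Ioi_self

/-! ### the deterministic inequality -/

lemma sum_map_ms {E : Type*} {n : ℕ} (x : Fin n → E) (f : E → ℝ≥0∞) :
    ((ms x).map f).sum = ∑ i, f (x i) := by
  unfold ms
  rw [Multiset.map_map]
  rfl

open Classical in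
lemma sum_restr_map {E : Type*} (A : Set E) (g : E → ℝ≥0∞) (s : Multiset E) :
    ((restr A s).map g).sum = (s.map fun z => if z ∈ A then g z else 0).sum := by
  induction s using Multiset.induction_on with
  | empty => simp
  | cons a s ih =>
    by_cases h : a ∈ A
    · rw [restr_cons_mem _ h, Multiset.map_cons, Multiset.sum_cons, Multiset.map_cons,
        Multiset.sum_cons, ih, if_pos h]
    · rw [restr_cons_not_mem _ h, Multiset.map_cons, Multiset.sum_cons, ih, if_neg h, zero_add]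

/-- potential sum -/
noncomputable def Ff (p : Par) {d : ℕ} (K δ : ℝ) (h : ℕ) (P : Multiset (Vd d)) : ℝ≥0∞ :=
  (P.map fun v => ENNReal.ofReal
    (1 + pot p δ (nbm (vinit p) (upd p) K (p.B ^ 2) h P v v) / d)).sum

/-- pair sum -/
noncomputable def Gf (p : Par) {d : ℕ} (K δ : ℝ) (h : ℕ) (P : Multiset (Vd d)) : ℝ≥0∞ :=
  (P.map fun v => ((restr (Nb K (p.B ^ 2) v) P).map fun w => ENNReal.ofReal
    (gp p δ (sd K v w) (nbm (vinit p) (upd p) K (p.B ^ 2) h P v w)
      (nbm (vinit p) (upd p) K (p.B ^ 2) h P w v) / (2 * d))).sum).sum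

open Classical in
lemma det_ineq (p : Par) {d : ℕ} (hd : 2 ≤ d) {K δ : ℝ} (hK : 0 < K) (hδ : 0 < δ) (hδ1 : δ ≤ 1)
    (h : ℕ) (hh : 2 * p.k ≤ h) (hδd : 0 ≤ 1 + 2 * Real.log δ / d)
    (hBd : Real.log (p.B ^ 2) ≤ d) {n : ℕ} (x : Fin n → Vd d) (hx : Function.Injective x) :
    Ff p K δ h (ms x) ≤ ENNReal.ofReal (K ^ (1 / (d : ℝ)) * tsp x)
      + (Gf p K δ h (ms x) + 4) := by
  have hd0 : (0 : ℝ) < d := by positivity
  have hB1 : 1 ≤ p.B := by
    have h1 := p.hk
    have h2 := p.hkB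
    have : (8 : ℝ) ≤ p.k := by exact_mod_cast h1
    linarith
  set P := ms x with hP
  set pt : Fin n → ℝ := fun i => pot p δ (nbm (vinit p) (upd p) K (p.B ^ 2) h P (x i) (x i))
    with hpt
  have hb : ∀ i, 0 ≤ 1 + pt i / d ∧ 1 + pt i / d ≤ 2 := by
    intro i
    have h1 := pot_bounds p hδ hδ1 (nbm (vinit p) (upd p) K (p.B ^ 2) h P (x i) (x i))
    constructor
    · have h2 : 2 * Real.log δ / d ≤ pt i / d := div_le_div_of_nonneg_right h1.1 hd0.le
      linarith
    · have h2 : pt i / d ≤ 1 := by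
        rw [div_le_one hd0]
        exact h1.2.trans hBd
      linarith
  have hF : Ff p K δ h P = ∑ i, ENNReal.ofReal (1 + pt i / d) := by
    unfold Ff
    rw [hP, sum_map_ms]
  by_cases hn : n ≤ 2
  · rw [hF]
    calc ∑ i, ENNReal.ofReal (1 + pt i / d) ≤ ∑ _i : Fin n, ENNReal.ofReal 2 :=
          Finset.sum_le_sum fun i _ => ENNReal.ofReal_le_ofReal (hb i).2
      _ = (n : ℝ≥0∞) * ENNReal.ofReal 2 := by simp
      _ ≤ (2 : ℕ) * ENNReal.ofReal 2 := by gcongr
      _ = 4 := by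
        rw [show ENNReal.ofReal 2 = 2 by simp]
        norm_num
      _ ≤ _ := le_trans (le_add_left le_rfl) (le_add_left le_rfl)
  · have hn3 : 3 ≤ n := by omega
    have htl := tour_lower hd hK (S := p.B ^ 2) (by nlinarith) hn3 x hx pt (fun i =>
      (pot_bounds p hδ hδ1 _).2)
    have hKd : 0 < K ^ (1 / (d : ℝ)) := by positivity
    rw [Real.rpow_neg hK.le, inv_mul_le_iff₀ hKd] at htl
    have hpair : ∀ i j, x j ∈ Nb K (p.B ^ 2) (x i) →
        max 0 (pt i / 2 + pt j / 2 - Real.log (sd K (x i) (x j)))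
          = gp p δ (sd K (x i) (x j)) (nbm (vinit p) (upd p) K (p.B ^ 2) h P (x i) (x j))
            (nbm (vinit p) (upd p) K (p.B ^ 2) h P (x j) (x i)) := by
      intro i j hij
      have hnd : P.Nodup := by
        rw [hP]
        exact Multiset.Nodup.map hx Finset.univ.nodup
      have hi : x i ∈ P := by rw [hP, mem_ms]; exact ⟨i, rfl⟩
      have hj : x j ∈ P := by rw [hP, mem_ms]; exact ⟨j, rfl⟩
      have hji : x i ∈ Nb K (p.B ^ 2) (x j) := by
        have h1 : 0 < sd K (x i) (x j) ∧ sd K (x i) (x j) ≤ p.B ^ 2 := hij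
        rw [sd_comm] at h1
        exact h1
      have e1 := nbm_pair p (by omega) hK h hh P hnd (x i) (x j) hj hij
      have e2 := nbm_pair p (by omega) hK h hh P hnd (x j) (x i) hi hji
      unfold gp
      rw [hpt]
      simp only
      rw [e1, e2, sd_comm K (x j) (x i)]
    have hG : Gf p K δ h P = ENNReal.ofReal (∑ i, ∑ j, (if x j ∈ Nb K (p.B ^ 2) (x i) then
        max 0 (pt i / 2 + pt j / 2 - Real.log (sd K (x i) (x j))) / (2 * d) else 0)) := by
      unfold Gf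
      rw [hP, sum_map_ms, ENNReal.ofReal_sum_of_nonneg]
      · refine Finset.sum_congr rfl fun i _ => ?_
        rw [sum_restr_map, sum_map_ms, ENNReal.ofReal_sum_of_nonneg]
        · refine Finset.sum_congr rfl fun j _ => ?_
          split_ifs with hij
          · rw [hpair i j hij]
          · simp
        · intro j _
          split_ifs
          · positivity
          · exact le_rfl
      · intro i _
        refine Finset.sum_nonneg fun j _ => ?_
        split_ifs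
        · positivity
        · exact le_rfl
    have hFr : Ff p K δ h P = ENNReal.ofReal (n + (1 / d) * ∑ i, pt i) := by
      rw [hF, ← ENNReal.ofReal_sum_of_nonneg fun i _ => (hb i).1]
      congr 1
      rw [Finset.sum_add_distrib, ← Finset.sum_div]
      simp
      ring
    rw [hFr, hG]
    have hT : 0 ≤ tsp x := Real.iInf_nonneg fun σ => Finset.sum_nonneg fun i _ => dist_nonneg
    calc ENNReal.ofReal (n + (1 / d) * ∑ i, pt i)
        ≤ ENNReal.ofReal (K ^ (1 / (d : ℝ)) * tsp x + ∑ i, ∑ j,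
          (if x j ∈ Nb K (p.B ^ 2) (x i) then
            max 0 (pt i / 2 + pt j / 2 - Real.log (sd K (x i) (x j))) / (2 * d) else 0)) := by
          refine ENNReal.ofReal_le_ofReal ?_
          have e : ∑ i, ∑ j, (if x j ∈ Nb K (p.B ^ 2) (x i) then
            max 0 (pt i / 2 + pt j / 2 - Real.log (sd K (x i) (x j))) / (2 * d) else 0)
            = (1 / d) * ((1 / 2) * ∑ i, ∑ j, (if x j ∈ Nb K (p.B ^ 2) (x i) then
            max 0 (pt i / 2 + pt j / 2 - Real.log (sd K (x i) (x j))) else 0)) := by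
            simp only [Finset.mul_sum]
            refine Finset.sum_congr rfl fun i _ => Finset.sum_congr rfl fun j _ => ?_
            split_ifs
            · field_simp
            · simp
          rw [e]
          rw [mul_sub] at htl
          linarith
      _ ≤ _ := by
          rw [ENNReal.ofReal_add (by positivity) ?_]
          · gcongr
            exact le_add_right le_rfl
          · refine Finset.sum_nonneg fun i _ => Finset.sum_nonneg fun j _ => ?_
            split_ifs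
            · positivity
            · exact le_rfl

/-! ### measurability -/

lemma measurable_nbm_vv (p : Par) {d : ℕ} (K : ℝ) (h : ℕ) :
    Measurable fun t : Multiset (Vd d) × Vd d =>
      nbm (vinit p) (upd p) K (p.B ^ 2) h t.1 t.2 t.2 :=
  measurable_nbm (vinit p) (measurable_upd p) K (p.B ^ 2) h measurable_fst measurable_snd
    measurable_snd

lemma measurable_Ff (p : Par) {d : ℕ} (K δ : ℝ) (h : ℕ) : Measurable (Ff p (d := d) K δ h) := by
  refine measurable_msum (f := fun (P : Multiset (Vd d)) v => ENNReal.ofReal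
    (1 + pot p δ (nbm (vinit p) (upd p) K (p.B ^ 2) h P v v) / d)) ?_ measurable_id
  have h1 := (TL.measurable_pot p δ).comp (measurable_nbm_vv p (d := d) K h)
  simp only [Function.comp_def] at h1
  have h2 := ENNReal.measurable_ofReal.comp ((h1.div_const (d : ℝ)).const_add 1)
  simp only [Function.comp_def] at h2
  exact h2

lemma measurable_pairsum {d : ℕ} (K S : ℝ) (f : Multiset (Vd d) → Vd d → Vd d → ℝ≥0∞)
    (hf : Measurable fun t : (Multiset (Vd d) × Vd d) × Vd d => f t.1.1 t.1.2 t.2) :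
    Measurable fun P : Multiset (Vd d) =>
      (P.map fun v => ((restr (Nb K S v) P).map fun w => f P v w).sum).sum := by
  refine measurable_msum (f := fun (P : Multiset (Vd d)) v =>
    ((restr (Nb K S v) P).map fun w => f P v w).sum) ?_ measurable_id
  refine measurable_msum (f := fun (t : Multiset (Vd d) × Vd d) w => f t.1 t.2 w) hf ?_
  refine measurable_restr (A := fun t : Multiset (Vd d) × Vd d => Nb K S t.2) ?_ measurable_fst
  exact measurableSet_Nb_prod (f := fun p : (Multiset (Vd d) × Vd d) × Vd d => p.1.2)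
    (g := fun p => p.2) (measurable_snd.comp measurable_fst) measurable_snd

lemma measurable_trip (p : Par) {d : ℕ} (K : ℝ) (h : ℕ) :
    Measurable fun t : (Multiset (Vd d) × Vd d) × Vd d =>
      (sd K t.1.2 t.2, nbm (vinit p) (upd p) K (p.B ^ 2) h t.1.1 t.1.2 t.2,
        nbm (vinit p) (upd p) K (p.B ^ 2) h t.1.1 t.2 t.1.2) := by
  have h1 : Measurable fun t : (Multiset (Vd d) × Vd d) × Vd d => t.1.1 :=
    measurable_fst.comp measurable_fst
  have h2 : Measurable fun t : (Multiset (Vd d) × Vd d) × Vd d => t.1.2 :=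
    measurable_snd.comp measurable_fst
  have h3 : Measurable fun t : (Multiset (Vd d) × Vd d) × Vd d => t.2 := measurable_snd
  refine (measurable_sd h2 h3).prodMk (Measurable.prodMk ?_ ?_)
  · exact measurable_nbm (vinit p) (measurable_upd p) K (p.B ^ 2) h h1 h2 h3
  · exact measurable_nbm (vinit p) (measurable_upd p) K (p.B ^ 2) h h1 h3 h2

lemma measurable_Gf (p : Par) {d : ℕ} (K δ : ℝ) (h : ℕ) : Measurable (Gf p (d := d) K δ h) := by
  refine measurable_pairsum K (p.B ^ 2) (fun P v w => ENNReal.ofReal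
    (gp p δ (sd K v w) (nbm (vinit p) (upd p) K (p.B ^ 2) h P v w)
      (nbm (vinit p) (upd p) K (p.B ^ 2) h P w v) / (2 * d))) ?_
  have h1 := (measurable_gp p δ).comp (measurable_trip p (d := d) K h)
  simp only [Function.comp_def] at h1
  have h2 := ENNReal.measurable_ofReal.comp (h1.div_const (2 * (d : ℝ)))
  simp only [Function.comp_def] at h2
  exact h2

/-! ### expectations -/

lemma troot_eq_nb (p : Par) (h : ℕ) : troot (vinit p) (upd p) (p.B ^ 2) h = nb p h := by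
  unfold troot
  rw [tmu_eq_mu]
  rfl

lemma integrable_pot (p : Par) {δ : ℝ} (hδ : 0 < δ) (hδ1 : δ ≤ 1) (h : ℕ) :
    Integrable (pot p δ) (nb p h) := by
  refine Integrable.of_bound (TL.measurable_pot p δ).aestronglyMeasurable
    (|2 * Real.log δ| + |Real.log (p.B ^ 2)|) (ae_of_all _ fun ξ => ?_)
  have h1 := pot_bounds p hδ hδ1 ξ
  rw [Real.norm_eq_abs, abs_le]
  have h2 := neg_abs_le (2 * Real.log δ)
  have h3 := le_abs_self (Real.log (p.B ^ 2))
  have h4 := abs_nonneg (2 * Real.log δ)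
  have h5 := abs_nonneg (Real.log (p.B ^ 2))
  constructor <;> linarith

lemma exp_Ff (p : Par) {d : ℕ} (hd : 2 ≤ d) {K δ : ℝ} (hK : 0 < K) (hδ : 0 < δ) (hδ1 : δ ≤ 1)
    (h : ℕ) (hδd : 0 ≤ 1 + 2 * Real.log δ / d) (hBd : Real.log (p.B ^ 2) ≤ d) :
    ENNReal.ofReal (K / vball d) * ENNReal.ofReal (1 + (∫ ξ, pot p δ ξ ∂(nb p h)) / d)
      ≤ ∫⁻ P, Ff p K δ h P ∂(PP (lam d K)) + ENNReal.ofReal (K / vball d) *
        ENNReal.ofReal (2 * (4 * eerr d (p.B ^ 2) h + 2 * d * ((h + 1) * rad d K (p.B ^ 2)))) := by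
  have hd0 : (0 : ℝ) < d := by positivity
  have hB1 : 1 ≤ p.B := by
    have h1 := p.hk
    have h2 := p.hkB
    have : (8 : ℝ) ≤ p.k := by exact_mod_cast h1
    linarith
  have hb : ∀ ξ, 0 ≤ 1 + pot p δ ξ / d ∧ 1 + pot p δ ξ / d ≤ 2 := by
    intro ξ
    have h1 := pot_bounds p hδ hδ1 ξ
    constructor
    · have h2 : 2 * Real.log δ / d ≤ pot p δ ξ / d := div_le_div_of_nonneg_right h1.1 hd0.le
      linarith
    · have h2 : pot p δ ξ / d ≤ 1 := by
        rw [div_le_one hd0]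
        exact h1.2.trans hBd
      linarith
  set G : Multiset (ℝ × (ℕ → ℝ)) → ℝ≥0∞ := fun ξ => ENNReal.ofReal ((1 + pot p δ ξ / d) / 2)
    with hG
  have hGm : Measurable G := by
    refine ENNReal.measurable_ofReal.comp (Measurable.div_const (measurable_const.add
      ((TL.measurable_pot p δ).div_const _)) _)
  have hG1 : ∀ ξ, G ξ ≤ 1 := by
    intro ξ
    rw [hG]
    simp only
    rw [ENNReal.ofReal_le_one]
    linarith [(hb ξ).2]
  have key := one_root_ge (vinit p) (upd p) (measurable_upd p) (d := d) (by omega) hK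
    (S := p.B ^ 2) (by nlinarith) h G hGm hG1
  rw [troot_eq_nb] at key
  have e1 : ∫⁻ ξ, G ξ ∂(nb p h) = ENNReal.ofReal ((1 + (∫ ξ, pot p δ ξ ∂(nb p h)) / d) / 2) := by
    have hi := integrable_pot p hδ hδ1 h
    have hi2 : Integrable (fun ξ => (1 + pot p δ ξ / d) / 2) (nb p h) :=
      ((integrable_const _).add (hi.div_const _)).div_const _
    have h0 : 0 ≤ᵐ[nb p h] fun ξ => (1 + pot p δ ξ / d) / 2 := ae_of_all _ fun ξ => by
      have := (hb ξ).1
      show 0 ≤ (1 + pot p δ ξ / d) / 2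
      positivity
    have e := ofReal_integral_eq_lintegral_ofReal hi2 h0
    rw [hG]
    simp only
    rw [← e]
    congr 1
    rw [integral_div, integral_add (integrable_const _) (hi.div_const _), integral_div]
    simp
  have e2 : (∫⁻ P, (P.map fun v => G (nbm (vinit p) (upd p) K (p.B ^ 2) h P v v)).sum
      ∂(PP (lam d K))) * 2 = ∫⁻ P, Ff p K δ h P ∂(PP (lam d K)) := by
    rw [← lintegral_mul_const' _ _ (by norm_num)]
    refine lintegral_congr fun P => ?_
    unfold Ff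
    rw [← Multiset.sum_map_mul_right]
    congr 1
    refine Multiset.map_congr rfl fun v _ => ?_
    rw [hG]
    simp only
    rw [show (2 : ℝ≥0∞) = ENNReal.ofReal 2 by simp, ← ENNReal.ofReal_mul' (by norm_num)]
    congr 1
    ring
  have key2 := mul_le_mul_left key (2 : ℝ≥0∞)
  rw [add_mul, e2, e1] at key2
  have e3 : ENNReal.ofReal (K / vball d)
      * ENNReal.ofReal ((1 + (∫ ξ, pot p δ ξ ∂(nb p h)) / d) / 2) * 2
      = ENNReal.ofReal (K / vball d)
        * ENNReal.ofReal (1 + (∫ ξ, pot p δ ξ ∂(nb p h)) / d) := by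
    rw [mul_assoc, show (2 : ℝ≥0∞) = ENNReal.ofReal 2 by simp, ← ENNReal.ofReal_mul' (by norm_num)]
    congr 2
    ring
  have e4 : ENNReal.ofReal (K / vball d)
      * ENNReal.ofReal (4 * eerr d (p.B ^ 2) h + 2 * d * ((h + 1) * rad d K (p.B ^ 2))) * 2
      = ENNReal.ofReal (K / vball d)
        * ENNReal.ofReal (2 * (4 * eerr d (p.B ^ 2) h
          + 2 * d * ((h + 1) * rad d K (p.B ^ 2)))) := by
    rw [mul_assoc, show (2 : ℝ≥0∞) = ENNReal.ofReal 2 by simp, ← ENNReal.ofReal_mul' (by norm_num)]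
    congr 2
    ring
  rw [e3, e4] at key2
  exact key2

lemma gp_split (p : Par) {δ : ℝ} (hδ : 0 < δ) (hδ1 : δ ≤ 1) {M : ℝ} (hM : 0 < M) {s : ℝ}
    (hs : 0 < s) (ξ ξ' : Multiset (ℝ × (ℕ → ℝ))) :
    gp p δ s ξ ξ' ≤ M * min 1 (gp p δ s ξ ξ' / M) + TL.lp (p.B ^ 2 * Real.exp (-M)) s := by
  have hB1 : 1 ≤ p.B := by
    have h1 := p.hk
    have h2 := p.hkB
    have : (8 : ℝ) ≤ p.k := by exact_mod_cast h1
    linarith
  rcases le_or_gt (gp p δ s ξ ξ') M with h | h
  · rw [min_eq_right ((div_le_one hM).2 h), mul_div_cancel₀ _ hM.ne']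
    linarith [TL.lp_nonneg (p.B ^ 2 * Real.exp (-M)) s]
  · rw [min_eq_left ((one_le_div hM).2 h.le)]
    have h1 := gp_le p hδ hδ1 hs ξ ξ'
    unfold TL.lp at h1
    have h2 : gp p δ s ξ ξ' ≤ Real.log (p.B ^ 2 / s) := by
      rcases le_max_iff.1 h1 with h3 | h3
      · linarith
      · exact h3
    have h4 : Real.log (p.B ^ 2 * Real.exp (-M) / s) ≤ TL.lp (p.B ^ 2 * Real.exp (-M)) s :=
      le_max_right _ _
    have h5 : Real.log (p.B ^ 2 * Real.exp (-M) / s) = Real.log (p.B ^ 2 / s) - M := by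
      rw [show p.B ^ 2 * Real.exp (-M) / s = p.B ^ 2 / s * Real.exp (-M) by ring,
        Real.log_mul (by positivity) (by positivity), Real.log_exp]
      ring
    linarith

lemma rad_nonneg (d : ℕ) {K S : ℝ} (hK : 0 < K) (hS : 0 ≤ S) : 0 ≤ rad d K S := by
  unfold rad
  positivity

lemma eerr_nonneg (d : ℕ) {S : ℝ} (hS : 0 ≤ S) (h : ℕ) : 0 ≤ eerr d S h := by
  unfold eerr
  positivity

lemma lint_lp {D S : ℝ} (hD : 0 < D) :
    ∫⁻ s in Ioc 0 S, ENNReal.ofReal (TL.lp D s) ≤ ENNReal.ofReal D := by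
  calc ∫⁻ s in Ioc 0 S, ENNReal.ofReal (TL.lp D s)
      ≤ ∫⁻ s in Ioi 0, ENNReal.ofReal (TL.lp D s) := lintegral_mono_set Ioc_subset_Ioi_self
    _ = ENNReal.ofReal (∫ s in Ioi 0, TL.lp D s) := by
        rw [ofReal_integral_eq_lintegral_ofReal (TL.lp_integrableOn hD)
          (ae_of_all _ fun s => TL.lp_nonneg D s)]
    _ = ENNReal.ofReal D := by rw [TL.lp_integral hD]

lemma measurable_lp (D : ℝ) : Measurable (TL.lp D) := by
  unfold TL.lp
  exact measurable_const.max (Real.measurable_log.comp (measurable_const.div measurable_id))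

lemma exp_Gf (p : Par) {d : ℕ} (hd : 2 ≤ d) {K δ M : ℝ} (hK : 0 < K) (hδ : 0 < δ) (hδ1 : δ ≤ 1)
    (hM : 0 < M) (h : ℕ) :
    ∫⁻ P, Gf p K δ h P ∂(PP (lam d K)) ≤ ENNReal.ofReal (K / vball d) *
      ENNReal.ofReal (((∫ s, ∫ ξ, ∫ ξ', gp p δ s ξ ξ' ∂(nb p h) ∂(nb p h) ∂(leb (p.B ^ 2)))
        + M * (p.B ^ 2 * (p.B ^ 2 * (10 * eerr d (p.B ^ 2) h
          + 2 * d * ((h + 2) * rad d K (p.B ^ 2)))))
        + p.B ^ 2 * Real.exp (-M)) / (2 * d)) := by
  have hd0 : (0 : ℝ) < d := by positivity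
  have hB1 : 1 ≤ p.B := by
    have h1 := p.hk
    have h2 := p.hkB
    have : (8 : ℝ) ≤ p.k := by exact_mod_cast h1
    linarith
  have hS1 : 1 ≤ p.B ^ 2 := by nlinarith
  have hS0 : 0 < p.B ^ 2 := by positivity
  set S := p.B ^ 2 with hS
  have hrad := rad_nonneg d hK hS0.le
  have heerr := eerr_nonneg d hS0.le h
  set J := ∫ s, ∫ ξ, ∫ ξ', gp p δ s ξ ξ' ∂(nb p h) ∂(nb p h) ∂(leb S) with hJ
  have hJ0 : 0 ≤ J := integral_nonneg fun s => integral_nonneg fun ξ => integral_nonneg fun ξ' =>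
    gp_nonneg p δ s ξ ξ'
  set E := S * (S * (10 * eerr d S h + 2 * d * ((h + 2) * rad d K S))) with hE
  have hE0 : 0 ≤ E := by positivity
  set g : ℝ → Multiset (ℝ × (ℕ → ℝ)) → Multiset (ℝ × (ℕ → ℝ)) → ℝ≥0∞ := fun s ξ ξ' =>
    ENNReal.ofReal (min 1 (gp p δ s ξ ξ' / M)) with hg
  set f : ℝ → ℝ≥0∞ := fun s => ENNReal.ofReal (TL.lp (S * Real.exp (-M)) s) with hf
  have hgm : Measurable fun t : ℝ × Multiset (ℝ × (ℕ → ℝ)) × Multiset (ℝ × (ℕ → ℝ)) =>
      g t.1 t.2.1 t.2.2 :=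
    ENNReal.measurable_ofReal.comp (measurable_const.min ((measurable_gp p δ).div_const M))
  have hfm : Measurable f := ENNReal.measurable_ofReal.comp (measurable_lp _)
  have hg1 : ∀ s ξ ξ', g s ξ ξ' ≤ 1 := by
    intro s ξ ξ'
    rw [hg]
    simp only
    rw [ENNReal.ofReal_le_one]
    exact min_le_left _ _
  have k1 := two_near_le (vinit p) (upd p) (measurable_upd p) (d := d) (by omega) hK (S := S)
    hS1 h g hgm hg1
  have k2 := pair_radial_le (d := d) (by omega) hK (S := S) hS1 f hfm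
  rw [troot_eq_nb, lintegral_add_right _ measurable_const, setLIntegral_const, Real.volume_Ioc,
    sub_zero, ← ENNReal.ofReal_mul (by positivity)] at k1
  -- the three-fold integral
  have k3 : ∫⁻ s in Ioc 0 S, ∫⁻ ξ, ∫⁻ ξ', g s ξ ξ' ∂(nb p h) ∂(nb p h)
      ≤ ENNReal.ofReal (1 / M) * ENNReal.ofReal J := by
    rw [hJ, ← lint_gp p hδ hδ1 h]
    rw [← lintegral_const_mul' _ _ ENNReal.ofReal_ne_top]
    refine lintegral_mono fun s => ?_
    rw [← lintegral_const_mul' _ _ ENNReal.ofReal_ne_top]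
    refine lintegral_mono fun ξ => ?_
    rw [← lintegral_const_mul' _ _ ENNReal.ofReal_ne_top]
    refine lintegral_mono fun ξ' => ?_
    rw [← ENNReal.ofReal_mul (by positivity)]
    refine ENNReal.ofReal_le_ofReal ((min_le_right _ _).trans (le_of_eq ?_))
    ring
  have k4 : ∫⁻ s in Ioc 0 S, f s ≤ ENNReal.ofReal (S * Real.exp (-M)) :=
    lint_lp (by positivity)
  -- the sums
  set Sg : Multiset (Vd d) → ℝ≥0∞ := fun P => (P.map fun v => ((restr (Nb K S v) P).map fun w =>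
        g (sd K v w) (nbm (vinit p) (upd p) K S h P v w)
          (nbm (vinit p) (upd p) K S h P w v)).sum).sum with hSg
  set Sf : Multiset (Vd d) → ℝ≥0∞ := fun P => (P.map fun v => ((restr (Nb K S v) P).map fun w =>
        f (sd K v w)).sum).sum with hSf
  have hSgm : Measurable Sg := by
    refine measurable_pairsum K S (fun P v w => g (sd K v w)
      (nbm (vinit p) (upd p) K S h P v w) (nbm (vinit p) (upd p) K S h P w v)) ?_
    have h1 := hgm.comp (measurable_trip p (d := d) K h)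
    simp only [Function.comp_def] at h1
    exact h1
  have k5 : ∀ P, Gf p K δ h P ≤ ENNReal.ofReal (1 / (2 * d)) * (ENNReal.ofReal M * Sg P + Sf P) := by
    intro P
    rw [hSg, hSf]
    simp only
    unfold Gf
    rw [← Multiset.sum_map_mul_left, ← Multiset.sum_map_add, ← Multiset.sum_map_mul_left]
    refine Multiset.sum_map_le_sum_map _ _ fun v hv => ?_
    rw [← Multiset.sum_map_mul_left, ← Multiset.sum_map_add, ← Multiset.sum_map_mul_left]
    refine Multiset.sum_map_le_sum_map _ _ fun w hw => ?_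
    have hs : 0 < sd K v w := (mem_restr.1 hw).2.1
    have h1 := gp_split p hδ hδ1 hM hs (nbm (vinit p) (upd p) K S h P v w)
      (nbm (vinit p) (upd p) K S h P w v)
    have h0 := gp_nonneg p δ (sd K v w) (nbm (vinit p) (upd p) K S h P v w)
      (nbm (vinit p) (upd p) K S h P w v)
    rw [hg, hf]
    simp only
    rw [← ENNReal.ofReal_mul hM.le, ← ENNReal.ofReal_add (by positivity) (TL.lp_nonneg _ _),
      ← ENNReal.ofReal_mul (by positivity)]
    refine ENNReal.ofReal_le_ofReal ?_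
    rw [div_eq_mul_one_div, mul_comm]
    exact mul_le_mul_of_nonneg_left h1 (by positivity)
  calc ∫⁻ P, Gf p K δ h P ∂(PP (lam d K))
      ≤ ∫⁻ P, ENNReal.ofReal (1 / (2 * d)) * (ENNReal.ofReal M * Sg P + Sf P) ∂(PP (lam d K)) :=
        lintegral_mono k5
    _ = ENNReal.ofReal (1 / (2 * d)) * (ENNReal.ofReal M * ∫⁻ P, Sg P ∂(PP (lam d K))
        + ∫⁻ P, Sf P ∂(PP (lam d K))) := by
        rw [lintegral_const_mul' _ _ ENNReal.ofReal_ne_top,
          lintegral_add_left (hSgm.const_mul _), lintegral_const_mul' _ _ ENNReal.ofReal_ne_top]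
    _ ≤ ENNReal.ofReal (1 / (2 * d)) * (ENNReal.ofReal M * (ENNReal.ofReal (K / vball d) *
        (ENNReal.ofReal (1 / M) * ENNReal.ofReal J + ENNReal.ofReal E))
        + ENNReal.ofReal (K / vball d) * ENNReal.ofReal (S * Real.exp (-M))) := by
        gcongr
        · refine k1.trans ?_
          gcongr
          rw [hE]
          exact le_of_eq (by ring)
        · exact k2.trans (by gcongr)
    _ = ENNReal.ofReal (K / vball d) *
        ENNReal.ofReal ((J + M * E + S * Real.exp (-M)) / (2 * d)) := by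
        have e1 : ENNReal.ofReal ((J + M * E + S * Real.exp (-M)) / (2 * d))
            = ENNReal.ofReal (1 / (2 * d)) * (ENNReal.ofReal M * (ENNReal.ofReal (1 / M)
              * ENNReal.ofReal J + ENNReal.ofReal E) + ENNReal.ofReal (S * Real.exp (-M))) := by
          rw [← ENNReal.ofReal_mul (by positivity), ← ENNReal.ofReal_add (by positivity) hE0,
            ← ENNReal.ofReal_mul hM.le, ← ENNReal.ofReal_add (by positivity) (by positivity),
            ← ENNReal.ofReal_mul (by positivity)]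
          congr 1
          field_simp
        rw [e1]
        ring

lemma vball_pos (d : ℕ) : 0 < vball d := by
  unfold vball
  apply ENNReal.toReal_pos
  · exact (Metric.measure_ball_pos _ _ one_pos).ne'
  · exact measure_ball_lt_top.ne

/-- the inequality for fixed `d` and `l` -/
lemma main_fixed (p : Par) {d : ℕ} (hd : 2 ≤ d) {l δ M : ℝ} (hl : 0 < l) (hδ : 0 < δ)
    (hδ1 : δ ≤ 1) (hM : 0 < M) (h : ℕ) (hh : 2 * p.k ≤ h) (hδd : 0 ≤ 1 + 2 * Real.log δ / d)
    (hBd : Real.log (p.B ^ 2) ≤ d) :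
    l * (1 + (∫ ξ, pot p δ ξ ∂(nb p h)) / d)
      ≤ (l * vball d) ^ (1 / (d : ℝ)) * poisTSP d l + 4
        + l * (2 * (4 * eerr d (p.B ^ 2) h + 2 * d * ((h + 1) * rad d (l * vball d) (p.B ^ 2))))
        + l * (((∫ s, ∫ ξ, ∫ ξ', gp p δ s ξ ξ' ∂(nb p h) ∂(nb p h) ∂(leb (p.B ^ 2)))
        + M * (p.B ^ 2 * (p.B ^ 2 * (10 * eerr d (p.B ^ 2) h
          + 2 * d * ((h + 2) * rad d (l * vball d) (p.B ^ 2)))))
        + p.B ^ 2 * Real.exp (-M)) / (2 * d)) := by
  have hd0 : (0 : ℝ) < d := by positivity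
  have hv := vball_pos d
  have hK : 0 < l * vball d := by positivity
  have hS0 : 0 ≤ p.B ^ 2 := by positivity
  have hrad := rad_nonneg d hK hS0
  have heerr := eerr_nonneg d hS0 h
  have hKv : l * vball d / vball d = l := by field_simp
  have h1 := exp_Ff p hd hK hδ hδ1 h hδd hBd
  have h2 := exp_Gf p hd hK hδ hδ1 hM h
  have h3 := le_poisTSP d hd l hl (Ff p (l * vball d) δ h) (fun P => Gf p (l * vball d) δ h P + 4)
    (measurable_Ff p (l * vball d) δ h) ((measurable_Gf p (l * vball d) δ h).add_const 4)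
    ((l * vball d) ^ (1 / (d : ℝ))) (by positivity) (fun n x hx _ => by
      exact det_ineq p hd hK hδ hδ1 h hh hδd hBd x hx)
  rw [lintegral_add_right _ measurable_const, lintegral_const, measure_univ, mul_one] at h3
  rw [hKv] at h1 h2
  have hT := poisTSP_nonneg d l hl.le
  have hJ0 : 0 ≤ ∫ s, ∫ ξ, ∫ ξ', gp p δ s ξ ξ' ∂(nb p h) ∂(nb p h) ∂(leb (p.B ^ 2)) :=
    integral_nonneg fun s => integral_nonneg fun ξ => integral_nonneg fun ξ' =>
      gp_nonneg p δ s ξ ξ'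
  generalize (∫ s, ∫ ξ, ∫ ξ', gp p δ s ξ ξ' ∂(nb p h) ∂(nb p h) ∂(leb (p.B ^ 2))) = J at *
  generalize (∫ ξ, pot p δ ξ ∂(nb p h)) = A at *
  generalize poisTSP d l = T at *
  generalize eerr d (p.B ^ 2) h = e at *
  generalize rad d (l * vball d) (p.B ^ 2) = r at *
  have n1 : 0 ≤ (l * vball d) ^ (1 / (d : ℝ)) * T := by positivity
  have n2 : 0 ≤ l * ((J + M * (p.B ^ 2 * (p.B ^ 2 * (10 * e
          + 2 * d * ((h + 2) * r)))) + p.B ^ 2 * Real.exp (-M)) / (2 * d)) := by positivity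
  have n3 : 0 ≤ l * (2 * (4 * e + 2 * d * ((h + 1) * r))) := by positivity
  rw [← ENNReal.ofReal_mul hl.le] at h2
  rw [← ENNReal.ofReal_mul hl.le, ← ENNReal.ofReal_mul hl.le] at h1
  generalize (l * vball d) ^ (1 / (d : ℝ)) * T = X1 at *
  generalize l * ((J + M * (p.B ^ 2 * (p.B ^ 2 * (10 * e
          + 2 * d * ((h + 2) * r)))) + p.B ^ 2 * Real.exp (-M)) / (2 * d)) = X2 at *
  generalize l * (2 * (4 * e + 2 * d * ((h + 1) * r))) = X3 at *
  have h4 : ENNReal.ofReal (l * (1 + A / d)) ≤ ENNReal.ofReal (X1 + (X2 + 4) + X3) := by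
    rw [ENNReal.ofReal_add (by positivity) n3, ENNReal.ofReal_add n1 (by positivity),
      ENNReal.ofReal_add n2 (by norm_num), show ENNReal.ofReal 4 = 4 by simp]
    refine h1.trans ?_
    gcongr
    refine h3.trans ?_
    gcongr
  have h5 := (ENNReal.ofReal_le_ofReal_iff (by positivity)).1 h4
  linarith

/-! ### asymptotics -/

lemma log_small (c : ℝ) (hc : 0 < c) : ∀ᶠ x : ℝ in atTop, Real.log (x ^ 2 + 3) ≤ c * √x := by
  have h1 := (isLittleO_log_rpow_atTop (show (0 : ℝ) < 1 / 2 by norm_num)).bound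
    (show 0 < c / 3 by positivity)
  filter_upwards [h1, eventually_ge_atTop (3 : ℝ)] with x hx hx3
  rw [Real.norm_eq_abs, Real.norm_eq_abs, abs_of_nonneg (Real.log_nonneg (by linarith)),
    ← Real.sqrt_eq_rpow, abs_of_nonneg (Real.sqrt_nonneg _)] at hx
  have h2 : x ^ 2 + 3 ≤ x ^ 3 := by nlinarith [sq_nonneg x, mul_nonneg (sq_nonneg x) (by linarith : (0:ℝ) ≤ x - 3)]
  have h3 := Real.log_le_log (by positivity) h2
  rw [Real.log_pow] at h3
  push_cast at h3
  linarith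

lemma eerr_small : ∀ᶠ d : ℕ in atTop,
    (8 + 5 * (d : ℝ) ^ 4) * eerr d ((d : ℝ) ^ 2) (2 * (⌈√(d : ℝ)⌉₊ + 8)) ≤ 1 / 2 / (d : ℝ) ^ 2 := by
  set c1 : ℝ := Real.log (16 / 15) with hc1
  have hc1p : 0 < c1 := Real.log_pos (by norm_num)
  have h1 := tendsto_natCast_atTop_atTop.eventually (log_small (c1 / 180) (by positivity))
  have h2 := tendsto_natCast_atTop_atTop.eventually
    (eventually_ge_atTop (4 * Real.log 16 / c1))
  filter_upwards [h1, h2, eventually_ge_atTop 1] with d hd1 hd2 hd3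
  have hd : (1 : ℝ) ≤ d := by exact_mod_cast hd3
  have hsq : 1 ≤ √(d : ℝ) := by rw [Real.one_le_sqrt]; exact hd
  have hsd : √(d : ℝ) * √(d : ℝ) = d := Real.mul_self_sqrt (by linarith)
  have hceil : (⌈√(d : ℝ)⌉₊ : ℝ) ≤ √(d : ℝ) + 1 := (Nat.ceil_lt_add_one (by positivity)).le
  set L := Real.log ((d : ℝ) ^ 2 + 3) with hL
  have hL0 : 0 ≤ L := Real.log_nonneg (by nlinarith)
  have hexpL : Real.exp L = (d : ℝ) ^ 2 + 3 := Real.exp_log (by positivity)
  set n : ℕ := 2 * (2 * (⌈√(d : ℝ)⌉₊ + 8)) + 2 with hn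
  have e1 : (15 / 16 : ℝ) ^ ((d : ℝ) / 2) = Real.exp (-(c1 * d / 2)) := by
    rw [Real.rpow_def_of_pos (by norm_num)]
    congr 1
    have : Real.log (15 / 16) = -c1 := by
      rw [hc1, ← Real.log_inv]; norm_num
    rw [this]; ring
  have e2 : ((d : ℝ) ^ 2 + 3) ^ n = Real.exp (n * L) := by
    rw [← hexpL, ← Real.exp_nat_mul]
  have e3 : (d : ℝ) ^ 2 * (8 + 5 * (d : ℝ) ^ 4) ≤ 8 * Real.exp (3 * L) := by
    have : Real.exp (3 * L) = ((d : ℝ) ^ 2 + 3) ^ 3 := by
      rw [← hexpL, ← Real.exp_nat_mul]; norm_num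
    rw [this]
    nlinarith [pow_nonneg (by linarith : (0:ℝ) ≤ d) 2, pow_nonneg (by linarith : (0:ℝ) ≤ d) 4,
      pow_nonneg (by linarith : (0:ℝ) ≤ d) 6]
  have hn3 : ((n : ℝ) + 3) ≤ 45 * √(d : ℝ) := by
    rw [hn]; push_cast; linarith
  have h5 : ((n : ℝ) + 3) * L ≤ c1 / 4 * d := by
    calc ((n : ℝ) + 3) * L ≤ (45 * √(d : ℝ)) * (c1 / 180 * √(d : ℝ)) := by gcongr
      _ = c1 / 4 * (√(d : ℝ) * √(d : ℝ)) := by ring
      _ = c1 / 4 * d := by rw [hsd]
  have h6 : Real.log 16 ≤ c1 / 4 * d := by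
    rw [div_le_iff₀ hc1p] at hd2
    linarith
  rw [le_div_iff₀ (by positivity)]
  unfold eerr
  rw [← hn, e1, e2]
  calc (8 + 5 * (d : ℝ) ^ 4) * (Real.exp (-(c1 * d / 2)) * Real.exp (n * L)) * (d : ℝ) ^ 2
      = ((d : ℝ) ^ 2 * (8 + 5 * (d : ℝ) ^ 4)) * (Real.exp (-(c1 * d / 2)) * Real.exp (n * L)) := by
        ring
    _ ≤ (8 * Real.exp (3 * L)) * (Real.exp (-(c1 * d / 2)) * Real.exp (n * L)) := by gcongr
    _ = 8 * Real.exp (-(c1 * d / 2) + ((n : ℝ) + 3) * L) := by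
        rw [Real.exp_add, add_mul, Real.exp_add]; ring
    _ ≤ 8 * Real.exp (-Real.log 16) := by
        gcongr
        linarith
    _ = 1 / 2 := by
        rw [Real.exp_neg, Real.exp_log (by norm_num)]; norm_num

lemma exp_small : ∀ᶠ d : ℕ in atTop, (d : ℝ) * Real.exp (-(d : ℝ)) / 2 ≤ 1 / 2 / (d : ℝ) ^ 2 := by
  have h1 := (Real.tendsto_pow_mul_exp_neg_atTop_nhds_zero 3).comp tendsto_natCast_atTop_atTop
  have h2 := h1.eventually (gt_mem_nhds (show (0 : ℝ) < 1 by norm_num))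
  filter_upwards [h2, eventually_ge_atTop 1] with d hd hd3
  have hd1 : (1 : ℝ) ≤ d := by exact_mod_cast hd3
  simp only [Function.comp_def] at hd
  rw [le_div_iff₀ (by positivity)]
  have : (d : ℝ) * Real.exp (-(d : ℝ)) / 2 * (d : ℝ) ^ 2 = ((d : ℝ) ^ 3 * Real.exp (-(d : ℝ))) / 2 := by
    ring
  rw [this]
  linarith

lemma rad_tendsto {d : ℕ} (hd : 1 ≤ d) (S : ℝ) :
    Tendsto (fun l : ℝ => rad d (l * vball d) S) atTop (𝓝 0) := by
  unfold rad
  have hv := vball_pos d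
  have h1 : Tendsto (fun l : ℝ => S / (l * vball d)) atTop (𝓝 0) :=
    Tendsto.const_div_atTop (tendsto_id.atTop_mul_const hv) S
  have hd0 : 0 < 1 / (d : ℝ) := by
    have : (0 : ℝ) < d := by exact_mod_cast hd
    positivity
  have h2 := h1.rpow_const (p := 1 / (d : ℝ)) (Or.inr hd0.le)
  rwa [Real.zero_rpow hd0.ne'] at h2

end LF

open LF in
theorem lower_final : ∃ C : ℝ, ∃ D : ℕ, ∀ d : ℕ, D ≤ d → ∀ᶠ l : ℝ in atTop,
    l ^ (((d : ℝ) - 1) / (d : ℝ)) * vball d ^ (-(1 / (d : ℝ)))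
      * (1 + (2 - Real.log 2 - 2 * Real.eulerMascheroniConstant) / d - C / (d : ℝ) ^ 2)
      ≤ poisTSP d l := by
  obtain ⟨C0, hC0, htree⟩ := tree_lower
  obtain ⟨D, hD⟩ := eventually_atTop.1 (eerr_small.and (exp_small.and (eventually_ge_atTop 25)))
  refine ⟨2 * C0 + 2, D, fun d hdD => ?_⟩
  obtain ⟨he, hx, hd25⟩ := hD d hdD
  have hd2 : 2 ≤ d := by omega
  have hd1 : 1 ≤ d := by omega
  have hdr : (25 : ℝ) ≤ d := by exact_mod_cast hd25
  have hd0 : (0 : ℝ) < d := by linarith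
  have hsd : √(d : ℝ) * √(d : ℝ) = d := Real.mul_self_sqrt hd0.le
  have hsq5 : 5 ≤ √(d : ℝ) := by
    rw [show (5 : ℝ) = √25 by
      rw [show (25 : ℝ) = 5 ^ 2 by norm_num, Real.sqrt_sq (by norm_num)]]
    exact Real.sqrt_le_sqrt hdr
  have hceil : (⌈√(d : ℝ)⌉₊ : ℝ) ≤ √(d : ℝ) + 1 := (Nat.ceil_lt_add_one (by positivity)).le
  have hceil2 : √(d : ℝ) ≤ (⌈√(d : ℝ)⌉₊ : ℝ) := Nat.le_ceil _
  set k : ℕ := ⌈√(d : ℝ)⌉₊ + 8 with hk
  have hkB : (k : ℝ) ≤ (d : ℝ) := by
    rw [hk]; push_cast; nlinarith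
  obtain ⟨p, hpk, hpB⟩ := exists_par k (by omega) (d : ℝ) hkB
  set δ : ℝ := 1 / d with hδ
  have hδ0 : 0 < δ := by positivity
  have hδ1 : δ ≤ 1 := by
    rw [hδ, div_le_one hd0]; linarith
  have hlog : 2 * Real.log d ≤ d := by
    have h1 : Real.log (√(d : ℝ)) ≤ √(d : ℝ) - 1 := Real.log_le_sub_one_of_pos (by positivity)
    have h2 : Real.log d = 2 * Real.log (√(d : ℝ)) := by
      conv_lhs => rw [← hsd]
      rw [Real.log_mul (by positivity) (by positivity)]
      ring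
    rw [h2]
    nlinarith [sq_nonneg (√(d : ℝ) - 2)]
  have hBd : Real.log (p.B ^ 2) ≤ d := by
    rw [hpB, Real.log_pow]; push_cast; exact hlog
  have hδd : 0 ≤ 1 + 2 * Real.log δ / d := by
    rw [hδ, one_div, Real.log_inv]
    have : 2 * Real.log d / d ≤ 1 := by rw [div_le_one hd0]; exact hlog
    have e : 2 * -Real.log (d : ℝ) / d = -(2 * Real.log d / d) := by ring
    rw [e]
    linarith
  have ht := htree p (2 * p.k) le_rfl δ hδ0 hδ1
  set h : ℕ := 2 * p.k with hh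
  have hherr : eerr d (p.B ^ 2) h = eerr d ((d : ℝ) ^ 2) (2 * (⌈√(d : ℝ)⌉₊ + 8)) := by
    rw [hpB, hh, hpk]
  have hk2 : 1 / (p.k : ℝ) ^ 2 ≤ 1 / d := by
    rw [hpk]
    refine one_div_le_one_div_of_le hd0 ?_
    have : √(d : ℝ) ≤ k := by rw [hk]; push_cast; linarith
    nlinarith
  -- the terms tending to zero with `l`
  have hr := rad_tendsto hd1 (p.B ^ 2)
  have hlim : Tendsto (fun l : ℝ => 4 / l + (4 * d * (h + 1) + (d : ℝ) ^ 5 * (h + 2))
      * rad d (l * vball d) (p.B ^ 2)) atTop (𝓝 0) := by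
    have h1 : Tendsto (fun l : ℝ => 4 / l) atTop (𝓝 0) := tendsto_id.const_div_atTop 4
    have h2 := h1.add (hr.const_mul (4 * d * (h + 1) + (d : ℝ) ^ 5 * (h + 2)))
    simpa using h2
  have hev := hlim.eventually (gt_mem_nhds (show (0 : ℝ) < 1 / (d : ℝ) ^ 2 by positivity))
  filter_upwards [hev, eventually_gt_atTop (0 : ℝ)] with l hl hl0
  have hv := LF.vball_pos d
  have hmain := main_fixed p hd2 hl0 hδ0 hδ1 hd0 h le_rfl hδd hBd
  have hT := poisTSP_nonneg d l hl0.le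
  rw [hherr] at hmain
  have hJdef : (∫ s, ∫ ξ, ∫ ξ', max 0 (pot p δ ((s, upd p ξ') ::ₘ ξ) / 2
            + pot p δ ((s, upd p ξ) ::ₘ ξ') / 2 - Real.log s)
            ∂(nb p h) ∂(nb p h) ∂(leb (p.B ^ 2)))
      = ∫ s, ∫ ξ, ∫ ξ', gp p δ s ξ ξ' ∂(nb p h) ∂(nb p h) ∂(leb (p.B ^ 2)) := rfl
  rw [hJdef] at ht
  generalize (∫ s, ∫ ξ, ∫ ξ', gp p δ s ξ ξ' ∂(nb p h) ∂(nb p h) ∂(leb (p.B ^ 2))) = J at *
  generalize (∫ ξ, pot p δ ξ ∂(nb p h)) = A at *
  generalize eerr d ((d : ℝ) ^ 2) (2 * (⌈√(d : ℝ)⌉₊ + 8)) = e at *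
  generalize rad d (l * vball d) (p.B ^ 2) = r at *
  rw [hpB] at hmain
  set c := 2 - Real.log 2 - 2 * Real.eulerMascheroniConstant with hc
  -- the lower bound in the form `c * T ≥ l * (...)`
  have hfac : l ^ (((d : ℝ) - 1) / (d : ℝ)) * vball d ^ (-(1 / (d : ℝ)))
      * (l * vball d) ^ (1 / (d : ℝ)) = l := by
    rw [Real.mul_rpow hl0.le hv.le, Real.rpow_neg hv.le]
    have h1 : 0 < vball d ^ (1 / (d : ℝ)) := by positivity
    have h2 : l ^ (((d : ℝ) - 1) / (d : ℝ)) * l ^ (1 / (d : ℝ)) = l := by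
      rw [← Real.rpow_add hl0]
      have : ((d : ℝ) - 1) / (d : ℝ) + 1 / (d : ℝ) = 1 := by field_simp; ring
      rw [this, Real.rpow_one]
    calc l ^ (((d : ℝ) - 1) / (d : ℝ)) * (vball d ^ (1 / (d : ℝ)))⁻¹
        * (l ^ (1 / (d : ℝ)) * vball d ^ (1 / (d : ℝ)))
        = (l ^ (((d : ℝ) - 1) / (d : ℝ)) * l ^ (1 / (d : ℝ)))
          * ((vball d ^ (1 / (d : ℝ)))⁻¹ * vball d ^ (1 / (d : ℝ))) := by ring
      _ = l := by rw [h2, inv_mul_cancel₀ h1.ne', mul_one]
  have hpos : 0 < l ^ (((d : ℝ) - 1) / (d : ℝ)) * vball d ^ (-(1 / (d : ℝ))) := by positivity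
  have hX : l * (1 + c / d - (2 * C0 + 2) / (d : ℝ) ^ 2)
      ≤ (l * vball d) ^ (1 / (d : ℝ)) * poisTSP d l := by
    have h1 : (A - 1 / 2 * J) / d ≥ (c - C0 * (1 / d + 1 / d)) / d := by
      refine div_le_div_of_nonneg_right ?_ hd0.le
      refine le_trans ?_ ht
      rw [hδ]
      have : C0 * (1 / (p.k : ℝ) ^ 2 + 1 / d) ≤ C0 * (1 / d + 1 / d) := by gcongr
      linarith
    have h2 : 2 * (4 * e + 2 * d * ((h + 1) * r))
        + (J + d * ((d : ℝ) ^ 2 * ((d : ℝ) ^ 2 * (10 * e + 2 * d * ((h + 2) * r))))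
          + (d : ℝ) ^ 2 * Real.exp (-(d : ℝ))) / (2 * d) + 4 / l
        = J / 2 / d + ((8 + 5 * (d : ℝ) ^ 4) * e + (d : ℝ) * Real.exp (-(d : ℝ)) / 2)
          + (4 / l + (4 * d * (h + 1) + (d : ℝ) ^ 5 * (h + 2)) * r) := by
      field_simp
      ring
    have h3 : (8 + 5 * (d : ℝ) ^ 4) * e + (d : ℝ) * Real.exp (-(d : ℝ)) / 2
        + (4 / l + (4 * d * (h + 1) + (d : ℝ) ^ 5 * (h + 2)) * r) ≤ 2 / (d : ℝ) ^ 2 := by
      have e1 : (1 : ℝ) / 2 / (d : ℝ) ^ 2 + 1 / 2 / (d : ℝ) ^ 2 + 1 / (d : ℝ) ^ 2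
          = 2 / (d : ℝ) ^ 2 := by ring
      linarith
    have h4 : 1 + c / d - (2 * C0 + 2) / (d : ℝ) ^ 2 ≤ 1 + A / d
        - (2 * (4 * e + 2 * d * ((h + 1) * r))
        + (J + d * ((d : ℝ) ^ 2 * ((d : ℝ) ^ 2 * (10 * e + 2 * d * ((h + 2) * r))))
          + (d : ℝ) ^ 2 * Real.exp (-(d : ℝ))) / (2 * d) + 4 / l) := by
      rw [h2]
      have e1 : (A - 1 / 2 * J) / d = A / d - J / 2 / d := by ring
      have e2 : (c - C0 * (1 / d + 1 / d)) / d = c / d - 2 * C0 / (d : ℝ) ^ 2 := by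
        field_simp
        ring
      have e3 : (2 * C0 + 2) / (d : ℝ) ^ 2 = 2 * C0 / (d : ℝ) ^ 2 + 2 / (d : ℝ) ^ 2 := by ring
      rw [e1, e2] at h1
      rw [e3]
      linarith
    have h5 := mul_le_mul_of_nonneg_left h4 hl0.le
    have h6 : l * (1 + A / d
        - (2 * (4 * e + 2 * d * ((h + 1) * r))
        + (J + d * ((d : ℝ) ^ 2 * ((d : ℝ) ^ 2 * (10 * e + 2 * d * ((h + 2) * r))))
          + (d : ℝ) ^ 2 * Real.exp (-(d : ℝ))) / (2 * d) + 4 / l))
        = l * (1 + A / d) - l * (2 * (4 * e + 2 * d * ((h + 1) * r)))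
          - l * ((J + d * ((d : ℝ) ^ 2 * ((d : ℝ) ^ 2 * (10 * e + 2 * d * ((h + 2) * r))))
          + (d : ℝ) ^ 2 * Real.exp (-(d : ℝ))) / (2 * d)) - 4 := by
      have : l * (4 / l) = 4 := by field_simp
      linear_combination -this
    rw [h6] at h5
    linarith
  refine le_of_mul_le_mul_right ?_ (show 0 < (l * vball d) ^ (1 / (d : ℝ)) by positivity)
  calc l ^ (((d : ℝ) - 1) / (d : ℝ)) * vball d ^ (-(1 / (d : ℝ)))
      * (1 + c / d - (2 * C0 + 2) / (d : ℝ) ^ 2) * (l * vball d) ^ (1 / (d : ℝ))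
      = (l ^ (((d : ℝ) - 1) / (d : ℝ)) * vball d ^ (-(1 / (d : ℝ)))
        * (l * vball d) ^ (1 / (d : ℝ))) * (1 + c / d - (2 * C0 + 2) / (d : ℝ) ^ 2) := by ring
    _ = l * (1 + c / d - (2 * C0 + 2) / (d : ℝ) ^ 2) := by rw [hfac]
    _ ≤ (l * vball d) ^ (1 / (d : ℝ)) * poisTSP d l := hX
    _ = _ := by ring

end Pool.Agent.TSPd97
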