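import Pool.Agent.TSPd97.TreeU1e

/-!
MP_076557_pr, package TU1 (helper12): the missing degree on the tree (`tree_missing`).
-/

set_option autoImplicit false

open MeasureTheory Set
open scoped ENNReal

namespace Pool.Agent.TSPd97.TU1

/-- points of the marked neighbourhood are good -/
lemma ae_good (p : Par) (h : ℕ) : ∀ᵐ ξ ∂(nb p h), ∀ q ∈ ξ, good p q := by
  have hset : MeasurableSet {q : ℝ × (ℕ → ℝ) | good p q} := by
    have h1 : {q : ℝ × (ℕ → ℝ) | good p q}
        = {q | 0 < q.1} ∩ ⋂ j : ℕ, {q | j ≤ 2 * p.k → 0 < q.2 j ∧ q.2 j ≤ p.B} := by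
      ext q
      simp only [good, mem_ofPred_eq, mem_inter_iff, mem_iInter]
    rw [h1]
    refine (measurable_fst measurableSet_Ioi).inter (MeasurableSet.iInter fun j => ?_)
    by_cases hj : j ≤ 2 * p.k
    · have h2 : {q : ℝ × (ℕ → ℝ) | j ≤ 2 * p.k → 0 < q.2 j ∧ q.2 j ≤ p.B}
          = (fun q : ℝ × (ℕ → ℝ) => q.2 j) ⁻¹' (Ioc 0 p.B) := by
        ext q
        simp [hj]
      rw [h2]
      exact ((measurable_pi_apply j).comp measurable_snd) measurableSet_Ioc
    · have h2 : {q : ℝ × (ℕ → ℝ) | j ≤ 2 * p.k → 0 < q.2 j ∧ q.2 j ≤ p.B} = univ := by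
        ext q
        simp [hj]
      rw [h2]
      exact MeasurableSet.univ
  have := ae_PP_forall ((leb (p.B ^ 2)).prod (mu p h)) hset (by
    have h1 : ∀ᵐ q ∂((leb (p.B ^ 2)).prod (mu p h)), good p q := by
      have ha : ∀ᵐ s ∂(leb (p.B ^ 2)), 0 < s := by
        unfold leb
        rw [ae_restrict_iff' measurableSet_Ioc]
        exact Filter.Eventually.of_forall fun s hs => hs.1
      have ha' := (Measure.quasiMeasurePreserving_fst (μ := leb (p.B ^ 2)) (ν := mu p h)).ae ha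
      have hb' := (Measure.quasiMeasurePreserving_snd (μ := leb (p.B ^ 2)) (ν := mu p h)).ae
        (ae_goodw p h)
      filter_upwards [ha', hb'] with q hq1 hq2
      exact ⟨hq1, hq2⟩
    exact h1)
  exact this

lemma cube_exp (B : ℝ) (hB : 0 < B) : B * (2 * Real.exp (-(B / 4 / 2))) ≤ 6144 / B ^ 2 := by
  rw [le_div_iff₀ (by positivity)]
  have h1 := Real.pow_div_factorial_le_exp (B / 8) (by positivity) 3
  have h2 : Real.exp (B / 8) * Real.exp (-(B / 4 / 2)) = 1 := by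
    rw [← Real.exp_add]
    have : B / 8 + -(B / 4 / 2) = 0 := by ring
    rw [this, Real.exp_zero]
  have h3 : (0 : ℝ) < Real.exp (-(B / 4 / 2)) := Real.exp_pos _
  have h4 : (B / 8) ^ 3 / 6 * Real.exp (-(B / 4 / 2)) ≤ 1 := by
    rw [← h2]
    have : ((Nat.factorial 3 : ℕ) : ℝ) = 6 := by norm_num [Nat.factorial]
    rw [this] at h1
    gcongr
  nlinarith

/-- main estimate: `E |qthr - wplus| = O(1/k^2)` -/
lemma lintegral_qthr_sub_wplus : ∃ C : ℝ, 0 < C ∧ ∀ (p : Par) (h : ℕ), 2 * p.k ≤ h →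
    ∫⁻ ξ, ENNReal.ofReal |qthr p ξ - wplus p ξ| ∂(nb p h) ≤ ENNReal.ofReal (C / (p.k : ℝ) ^ 2) := by
  classical
  obtain ⟨C, hC, hM⟩ := master_bound
  refine ⟨6144 + 20736 * C, by positivity, fun p h hh => ?_⟩
  have hk := (kpos p)
  have hB := (Bpos p)
  have hkB := p.hkB
  have h1 : ∫⁻ ξ, ENNReal.ofReal |qthr p ξ - wplus p ξ| ∂(nb p h)
      ≤ ∫⁻ ξ, ((if Multiset.card (restr {v | Fv p v < p.B / 4} ξ) ≤ 1 then ENNReal.ofReal p.B else 0)
        + (ξ.map fun y => ind2 (Fv p) (p.B / 2) y ξ * (Pe p y + (ξ.map (Ke p y)).sum)).sum)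
          ∂(nb p h) := by
    apply lintegral_mono_ae
    filter_upwards [ae_good p h] with ξ hξ
    exact path_ennreal p ξ hξ
  refine h1.trans ?_
  have hA : MeasurableSet {v : ℝ × (ℕ → ℝ) | Fv p v < p.B / 4} := (measurable_Fv p) measurableSet_Iio
  have hmc : Measurable fun ξ : Multiset (ℝ × (ℕ → ℝ)) =>
      Multiset.card (restr {v | Fv p v < p.B / 4} ξ) :=
    measurable_mcard (measurable_restr_const hA measurable_id)
  have hset : MeasurableSet {ξ : Multiset (ℝ × (ℕ → ℝ)) |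
      Multiset.card (restr {v | Fv p v < p.B / 4} ξ) ≤ 1} := hmc measurableSet_Iic
  have hm1 : Measurable fun ξ : Multiset (ℝ × (ℕ → ℝ)) =>
      (if Multiset.card (restr {v | Fv p v < p.B / 4} ξ) ≤ 1 then ENNReal.ofReal p.B else 0) :=
    Measurable.ite hset measurable_const measurable_const
  rw [lintegral_add_left hm1]
  have hT : ∫⁻ ξ, (if Multiset.card (restr {v | Fv p v < p.B / 4} ξ) ≤ 1 then ENNReal.ofReal p.B
      else 0) ∂(nb p h) ≤ ENNReal.ofReal (6144 / (p.k : ℝ) ^ 2) := by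
    have e1 : ∀ ξ : Multiset (ℝ × (ℕ → ℝ)),
        (if Multiset.card (restr {v | Fv p v < p.B / 4} ξ) ≤ 1 then ENNReal.ofReal p.B else 0)
        = ({ξ : Multiset (ℝ × (ℕ → ℝ)) |
            Multiset.card (restr {v | Fv p v < p.B / 4} ξ) ≤ 1}).indicator
              (fun _ => ENNReal.ofReal p.B) ξ := by
      intro ξ
      by_cases hc : Multiset.card (restr {v | Fv p v < p.B / 4} ξ) ≤ 1
      · rw [if_pos hc, indicator_of_mem (by simpa using hc)]
      · rw [if_neg hc, indicator_of_notMem (by simpa using hc)]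
    simp_rw [e1]
    rw [lintegral_indicator_const hset]
    have h2 := PP_card_restr_le_one_le ((leb (p.B ^ 2)).prod (mu p h)) hA (p.m * (p.B / 4)) (p.B / 4)
      (by positivity) (by have := p.hm1; nlinarith)
      (nu_Fv_lt p h (p.B / 4) (by positivity) (by linarith))
    calc ENNReal.ofReal p.B * (nb p h) {ξ | Multiset.card (restr {v | Fv p v < p.B / 4} ξ) ≤ 1}
        ≤ ENNReal.ofReal p.B * ENNReal.ofReal (2 * Real.exp (-(p.B / 4 / 2))) :=
          mul_le_mul_right h2 _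
      _ = ENNReal.ofReal (p.B * (2 * Real.exp (-(p.B / 4 / 2)))) := by
          rw [← ENNReal.ofReal_mul hB.le]
      _ ≤ ENNReal.ofReal (6144 / (p.k : ℝ) ^ 2) := by
          apply ENNReal.ofReal_le_ofReal
          refine (cube_exp p.B hB).trans ?_
          gcongr
  have hP := lintegral_pair_le p h
  set c : ℝ≥0∞ := ENNReal.ofReal (C / (p.k : ℝ) ^ 2) with hc
  have hMc : ∀ i j, p.k ≤ i → i ≤ 2 * p.k → p.k ≤ j → j ≤ 2 * p.k →
      ∫⁻ w, ENNReal.ofReal (Mf i j w) ∂(mu p h) ≤ c := by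
    intro i j h1 h2 h3 h4
    obtain ⟨hint, hb, _⟩ := hM p h i j hh h1 h2 h3 h4
    have hnn : 0 ≤ᵐ[mu p h] fun w : ℕ → ℝ => w i * (max 0 (w i - w j)) ^ 2 / (w j) ^ 2 := by
      filter_upwards [ae_goodw p h] with w hw
      have := (hw i h2).1
      simp only [Pi.zero_apply]
      positivity
    have := ofReal_integral_eq_lintegral_ofReal hint hnn
    unfold Mf
    rw [← this]
    exact ENNReal.ofReal_le_ofReal hb
  have hm2 : ENNReal.ofReal p.m ≤ 2 := by
    have := ENNReal.ofReal_le_ofReal (mle p)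
    simpa using this
  have hP2 : ∫⁻ ξ, (ξ.map fun y => ind2 (Fv p) (p.B / 2) y ξ * (Pe p y + (ξ.map (Ke p y)).sum)).sum
        ∂(nb p h) ≤ 20736 * c := by
    refine hP.trans (ofReal_avg_le p _ _ fun j hj => ?_)
    obtain ⟨he, ha⟩ := ej_aj_le p h c hMc j hj
    calc 128 * ej p h j + 2048 * (ENNReal.ofReal p.m * aj p h j + ENNReal.ofReal p.m * ej p h j)
        ≤ 128 * (2 * c) + 2048 * (2 * (3 * c) + 2 * (2 * c)) := by gcongr
      _ = 20736 * c := by ring
  calc _ ≤ ENNReal.ofReal (6144 / (p.k : ℝ) ^ 2) + 20736 * c := add_le_add hT hP2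
    _ = ENNReal.ofReal ((6144 + 20736 * C) / (p.k : ℝ) ^ 2) := by
        rw [hc, show (20736 : ℝ≥0∞) = ENNReal.ofReal 20736 by simp,
          ← ENNReal.ofReal_mul (by norm_num), ← ENNReal.ofReal_add (by positivity) (by positivity)]
        congr 1
        ring

lemma sum_Ico_telescope (f : ℕ → ℝ) (a b : ℕ) (hab : a ≤ b) :
    ∑ j ∈ Finset.Ico a b, (f (j + 1) - f j) = f b - f a := by
  induction b, hab using Nat.le_induction with
  | base => simp
  | succ b hb ih =>
    rw [Finset.sum_Ico_succ_top hb, ih]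
    ring

lemma wplus_sub_wbar (p : Par) (ξ : Multiset (ℝ × (ℕ → ℝ))) :
    wplus p ξ - wbar p (upd p ξ) = (upd p ξ (2 * p.k) - upd p ξ p.k) / p.k := by
  have h1 : wplus p ξ = (∑ j ∈ Finset.Ico p.k (2 * p.k), upd p ξ (j + 1)) / p.k := by
    unfold wplus
    congr 1
    apply Finset.sum_congr rfl
    intro j hj
    rw [Finset.mem_Ico] at hj
    unfold upd
    rw [if_neg (by omega), if_pos (by omega)]
    simp
  rw [h1]
  unfold wbar
  rw [← sub_div, ← Finset.sum_sub_distrib, sum_Ico_telescope (upd p ξ) _ _ (by omega)]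

lemma nb_map_upd (p : Par) (h : ℕ) : (nb p h).map (upd p) = mu p (h + 1) := rfl

lemma measurable_qthr (p : Par) : Measurable (qthr p) := by
  unfold qthr
  exact (measurable_os 1 p.B).comp (measurable_map_multiset (measurable_Fv p))

lemma measurable_wplus (p : Par) : Measurable (wplus p) := by
  unfold wplus
  refine (Finset.measurable_sum _ fun j _ => ?_).div_const _
  exact (measurable_os 1 p.B).comp (measurable_map_multiset
    (measurable_fst.div ((measurable_pi_apply j).comp measurable_snd)))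

/-- `E |qthr - wbar(upd)| = O(1/k^2)` -/
lemma integral_qthr_sub_wbar : ∃ C : ℝ, 0 < C ∧ ∀ (p : Par) (h : ℕ), 2 * p.k ≤ h →
    ∫⁻ ξ, ENNReal.ofReal |qthr p ξ - wbar p (upd p ξ)| ∂(nb p h)
      ≤ ENNReal.ofReal (C / (p.k : ℝ) ^ 2) := by
  obtain ⟨C1, hC1, hM⟩ := master_bound
  obtain ⟨C2, hC2, hQ⟩ := lintegral_qthr_sub_wplus
  refine ⟨C1 + C2, by positivity, fun p h hh => ?_⟩
  have hk := (kpos p)
  have h1 : ∀ ξ, ENNReal.ofReal |qthr p ξ - wbar p (upd p ξ)|
      ≤ ENNReal.ofReal |qthr p ξ - wplus p ξ|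
        + ENNReal.ofReal (1 / p.k) * ENNReal.ofReal |upd p ξ (2 * p.k) - upd p ξ p.k| := by
    intro ξ
    rw [← ENNReal.ofReal_mul (by positivity), ← ENNReal.ofReal_add (abs_nonneg _) (by positivity)]
    apply ENNReal.ofReal_le_ofReal
    have h2 := abs_sub_le (qthr p ξ) (wplus p ξ) (wbar p (upd p ξ))
    rw [wplus_sub_wbar, abs_div, abs_of_pos hk] at h2
    calc _ ≤ _ := h2
      _ = _ := by ring
  refine (lintegral_mono h1).trans ?_
  have hm : Measurable fun ξ => ENNReal.ofReal |qthr p ξ - wplus p ξ| :=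
    (((measurable_qthr p).sub (measurable_wplus p)).abs).ennreal_ofReal
  have hm0 : Measurable fun w : ℕ → ℝ => w (2 * p.k) - w p.k :=
    (measurable_pi_apply (2 * p.k)).sub (measurable_pi_apply p.k)
  have hm2 : Measurable fun w : ℕ → ℝ => ENNReal.ofReal |w (2 * p.k) - w p.k| :=
    hm0.abs.ennreal_ofReal
  have hm3 : Measurable fun ξ => ENNReal.ofReal |upd p ξ (2 * p.k) - upd p ξ p.k| :=
    hm2.comp (measurable_upd p)
  rw [lintegral_add_left hm, lintegral_const_mul _ hm3]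
  have h3 : ∫⁻ ξ, ENNReal.ofReal |upd p ξ (2 * p.k) - upd p ξ p.k| ∂(nb p h)
      ≤ ENNReal.ofReal (C1 / p.k) := by
    have e : ∫⁻ ξ, ENNReal.ofReal |upd p ξ (2 * p.k) - upd p ξ p.k| ∂(nb p h)
        = ∫⁻ w, ENNReal.ofReal |w (2 * p.k) - w p.k| ∂(mu p (h + 1)) := by
      rw [← nb_map_upd, lintegral_map hm2 (measurable_upd p)]
    rw [e]
    obtain ⟨_, _, hb⟩ := hM p (h + 1) (2 * p.k) p.k (by omega) (by omega) (by omega) (by omega)
      (by omega)
    rw [← ofReal_integral_eq_lintegral_ofReal]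
    · exact ENNReal.ofReal_le_ofReal hb
    · exact ((integrable_coord p (h + 1) _ (by omega)).sub
        (integrable_coord p (h + 1) _ (by omega))).abs
    · exact Filter.Eventually.of_forall fun w => abs_nonneg _
  calc _ ≤ ENNReal.ofReal (C2 / (p.k : ℝ) ^ 2) + ENNReal.ofReal (1 / p.k) * ENNReal.ofReal (C1 / p.k) :=
        add_le_add (hQ p h hh) (mul_le_mul_right h3 _)
    _ = _ := by
        rw [← ENNReal.ofReal_mul (by positivity), ← ENNReal.ofReal_add (by positivity) (by positivity)]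
        congr 1
        field_simp
        ring

/-! ### assembly -/

lemma upd_bounds (p : Par) (ξ : Multiset (ℝ × (ℕ → ℝ))) (hg : ∀ q ∈ ξ, good p q) (j : ℕ)
    (hj : j ∈ Finset.Ico p.k (2 * p.k)) : 0 ≤ upd p ξ j ∧ upd p ξ j ≤ p.B := by
  rw [Finset.mem_Ico] at hj
  have hk8 := p.hk
  unfold upd
  rw [if_neg (by omega), if_pos (by omega)]
  refine ⟨os_nonneg (Bpos p).le ?_, os_le _ _ _⟩
  intro a ha
  rw [Multiset.mem_map] at ha
  obtain ⟨q, hq, rfl⟩ := ha
  exact (div_pos (hg q hq).1 ((hg q hq).2 (j - 1) (by omega)).1).le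

lemma wbar_upd_bounds (p : Par) (ξ : Multiset (ℝ × (ℕ → ℝ))) (hg : ∀ q ∈ ξ, good p q) :
    0 ≤ wbar p (upd p ξ) ∧ wbar p (upd p ξ) ≤ p.B := by
  have hk := (kpos p)
  unfold wbar
  constructor
  · apply div_nonneg _ hk.le
    exact Finset.sum_nonneg fun j hj => (upd_bounds p ξ hg j hj).1
  · have := avg_mono p (fun j hj => (upd_bounds p ξ hg j hj).2)
    rwa [sum_const_window] at this

lemma qthr_bounds (p : Par) (ξ : Multiset (ℝ × (ℕ → ℝ))) (hg : ∀ q ∈ ξ, good p q) :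
    0 ≤ qthr p ξ ∧ qthr p ξ ≤ p.B := by
  constructor
  · apply os_nonneg (Bpos p).le
    intro a ha
    rw [Multiset.mem_map] at ha
    obtain ⟨q, hq, rfl⟩ := ha
    exact (div_pos (hg q hq).1 (wbar_pos p (hg q hq).2).1).le
  · exact os_le _ _ _

lemma measurable_wbar_upd (p : Par) : Measurable fun ξ => wbar p (upd p ξ) :=
  (measurable_wbar p).comp (measurable_upd p)

lemma integrable_wbar_upd (p : Par) (h : ℕ) : Integrable (fun ξ => wbar p (upd p ξ)) (nb p h) := by
  refine Integrable.of_bound (measurable_wbar_upd p).aestronglyMeasurable p.B ?_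
  filter_upwards [ae_good p h] with ξ hξ
  have := wbar_upd_bounds p ξ hξ
  rw [Real.norm_eq_abs, abs_of_nonneg this.1]
  exact this.2

lemma integrable_qthr (p : Par) (h : ℕ) : Integrable (qthr p) (nb p h) := by
  refine Integrable.of_bound (measurable_qthr p).aestronglyMeasurable p.B ?_
  filter_upwards [ae_good p h] with ξ hξ
  have := qthr_bounds p ξ hξ
  rw [Real.norm_eq_abs, abs_of_nonneg this.1]
  exact this.2

lemma integral_wbar_upd (p : Par) (h : ℕ) : ∫ ξ, wbar p (upd p ξ) ∂(nb p h) = p.m := by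
  have h1 := integral_map (μ := nb p h) (measurable_upd p).aemeasurable
    (f := wbar p) (measurable_wbar p).aestronglyMeasurable
  rw [nb_map_upd, mean_wbar] at h1
  exact h1.symm

lemma integral_qthr (p : Par) (h : ℕ) : ∫ ξ, qthr p ξ ∂(nb p h) = p.m := by
  have hpos : ∀ᵐ w ∂(mu p h), 0 < wbar p w ∧ wbar p w ≤ p.B := by
    filter_upwards [ae_goodw p h] with w hw
    exact wbar_pos p hw
  exact (os_means p h (wbar p) (measurable_wbar p) hpos (mean_wbar p h)).1

/-- assembly for general functions -/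
lemma assembly {Ω : Type*} [MeasurableSpace Ω] (P : Measure Ω) [IsProbabilityMeasure P]
    (a b : Ω → ℝ) (ma : Measurable a) (mb : Measurable b) (B m : ℝ) (hB : 0 < B)
    (hga : ∀ᵐ ξ ∂P, 0 ≤ a ξ ∧ a ξ ≤ B) (hgb : ∀ᵐ ξ ∂P, 0 ≤ b ξ ∧ b ξ ≤ B)
    (hEa : ∫ ξ, a ξ ∂P = m) (hEb : ∫ ξ, b ξ ∂P = m) :
    (∫ ξ, ∫ ξ', min (a ξ' * b ξ) (a ξ * b ξ') ∂P ∂P ≤ m ^ 2) ∧
    m ^ 2 - m * ∫ ξ, |b ξ - a ξ| ∂P ≤ ∫ ξ, ∫ ξ', min (a ξ' * b ξ) (a ξ * b ξ') ∂P ∂P := by
  have hia : Integrable a P := by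
    refine Integrable.of_bound ma.aestronglyMeasurable B ?_
    filter_upwards [hga] with ξ hξ
    rw [Real.norm_eq_abs, abs_of_nonneg hξ.1]
    exact hξ.2
  have hib : Integrable b P := by
    refine Integrable.of_bound mb.aestronglyMeasurable B ?_
    filter_upwards [hgb] with ξ hξ
    rw [Real.norm_eq_abs, abs_of_nonneg hξ.1]
    exact hξ.2
  have hid : Integrable (fun ξ => |b ξ - a ξ|) P := (hib.sub hia).abs
  set Δ := ∫ ξ, |b ξ - a ξ| ∂P with hΔ
  have hmeas : Measurable fun q : Ω × Ω => min (a q.2 * b q.1) (a q.1 * b q.2) :=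
    ((ma.comp measurable_snd).mul (mb.comp measurable_fst)).min
      ((ma.comp measurable_fst).mul (mb.comp measurable_snd))
  -- inner integrability
  have hinner : ∀ ξ, Integrable (fun ξ' => min (a ξ' * b ξ) (a ξ * b ξ')) P := by
    intro ξ
    have hf : Measurable fun ξ' => min (a ξ' * b ξ) (a ξ * b ξ') :=
      hmeas.comp (measurable_const.prodMk measurable_id)
    refine Integrable.mono' ((hia.abs.mul_const |b ξ|).add (hib.abs.const_mul |a ξ|))
      hf.aestronglyMeasurable (Filter.Eventually.of_forall fun ξ' => ?_)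
    rw [Real.norm_eq_abs]
    simp only [Pi.add_apply]
    have h1 : |min (a ξ' * b ξ) (a ξ * b ξ')| ≤ |a ξ' * b ξ| + |a ξ * b ξ'| := by
      rcases min_choice (a ξ' * b ξ) (a ξ * b ξ') with h | h <;> rw [h]
      · have := abs_nonneg (a ξ * b ξ'); linarith
      · have := abs_nonneg (a ξ' * b ξ); linarith
    rw [abs_mul, abs_mul] at h1
    exact h1
  have hlow : ∀ᵐ ξ ∂P, (m * b ξ + a ξ * m) / 2 - (m * |b ξ - a ξ| + a ξ * Δ) / 2
      ≤ ∫ ξ', min (a ξ' * b ξ) (a ξ * b ξ') ∂P := by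
    filter_upwards [hga] with ξ hξ
    have haξ := hξ.1
    have e : (m * b ξ + a ξ * m) / 2 - (m * |b ξ - a ξ| + a ξ * Δ) / 2
        = ∫ ξ', ((a ξ' * b ξ + a ξ * b ξ') / 2 - (a ξ' * |b ξ - a ξ| + a ξ * |b ξ' - a ξ'|) / 2)
          ∂P := by
      have i1 : Integrable (fun ξ' => (a ξ' * b ξ + a ξ * b ξ') / 2) P :=
        ((hia.mul_const (b ξ)).add (hib.const_mul (a ξ))).div_const 2
      have i2 : Integrable (fun ξ' => (a ξ' * |b ξ - a ξ| + a ξ * |b ξ' - a ξ'|) / 2) P :=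
        ((hia.mul_const |b ξ - a ξ|).add (hid.const_mul (a ξ))).div_const 2
      rw [integral_sub i1 i2, integral_div, integral_div,
        integral_add (hia.mul_const _) (hib.const_mul _),
        integral_add (hia.mul_const _) (hid.const_mul _), integral_mul_const,
        integral_const_mul, integral_mul_const, integral_const_mul, hEa, hEb]
    rw [e]
    apply integral_mono_ae
    · exact (((hia.mul_const _).add (hib.const_mul _)).div_const _).sub
        (((hia.mul_const _).add (hid.const_mul _)).div_const _)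
    · exact hinner ξ
    · filter_upwards [hga] with ξ' hξ'
      have haξ' := hξ'.1
      have h1 : |a ξ' * b ξ - a ξ * b ξ'| ≤ a ξ' * |b ξ - a ξ| + a ξ * |b ξ' - a ξ'| := by
        have e1 : a ξ' * b ξ - a ξ * b ξ' = a ξ' * (b ξ - a ξ) - a ξ * (b ξ' - a ξ') := by ring
        rw [e1]
        refine (abs_sub _ _).trans ?_
        rw [abs_mul, abs_mul, abs_of_nonneg haξ, abs_of_nonneg haξ']
      have h2 : min (a ξ' * b ξ) (a ξ * b ξ')
          = (a ξ' * b ξ + a ξ * b ξ') / 2 - |a ξ' * b ξ - a ξ * b ξ'| / 2 := by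
        rcases le_total (a ξ' * b ξ) (a ξ * b ξ') with hle | hle
        · rw [min_eq_left hle, abs_of_nonpos (by linarith)]; ring
        · rw [min_eq_right hle, abs_of_nonneg (by linarith)]; ring
      rw [h2]
      linarith
  have hupp : ∀ ξ, ∫ ξ', min (a ξ' * b ξ) (a ξ * b ξ') ∂P ≤ m * b ξ := by
    intro ξ
    have e : m * b ξ = ∫ ξ', a ξ' * b ξ ∂P := by
      rw [integral_mul_const, hEa]
    rw [e]
    apply integral_mono (hinner ξ) (hia.mul_const _)
    intro ξ'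
    exact min_le_left _ _
  have houter : Integrable (fun ξ => ∫ ξ', min (a ξ' * b ξ) (a ξ * b ξ') ∂P) P := by
    have hsm : StronglyMeasurable fun ξ => ∫ ξ', min (a ξ' * b ξ) (a ξ * b ξ') ∂P :=
      hmeas.stronglyMeasurable.integral_prod_right'
    refine Integrable.of_bound hsm.aestronglyMeasurable (B ^ 2) ?_
    filter_upwards [hga, hgb] with ξ ha1 hb1
    refine (norm_integral_le_of_norm_le_const (C := B ^ 2) ?_).trans ?_
    · filter_upwards [hga, hgb] with ξ' ha2 hb2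
      rw [Real.norm_eq_abs, abs_of_nonneg]
      · refine (min_le_left _ _).trans ?_
        have : a ξ' * b ξ ≤ B * B := mul_le_mul ha2.2 hb1.2 hb1.1 hB.le
        linarith
      · exact le_min (mul_nonneg ha2.1 hb1.1) (mul_nonneg ha1.1 hb2.1)
    · simp
  constructor
  · calc ∫ ξ, ∫ ξ', min (a ξ' * b ξ) (a ξ * b ξ') ∂P ∂P ≤ ∫ ξ, m * b ξ ∂P :=
          integral_mono houter (hib.const_mul _) hupp
      _ = m ^ 2 := by rw [integral_const_mul, hEb]; ring
  · have h1 : ∫ ξ, ((m * b ξ + a ξ * m) / 2 - (m * |b ξ - a ξ| + a ξ * Δ) / 2) ∂P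
        ≤ ∫ ξ, ∫ ξ', min (a ξ' * b ξ) (a ξ * b ξ') ∂P ∂P := by
      apply integral_mono_ae _ houter hlow
      exact (((hib.const_mul _).add (hia.mul_const _)).div_const _).sub
        (((hid.const_mul _).add (hia.mul_const _)).div_const _)
    have e : ∫ ξ, ((m * b ξ + a ξ * m) / 2 - (m * |b ξ - a ξ| + a ξ * Δ) / 2) ∂P
        = m ^ 2 - m * Δ := by
      have i1 : Integrable (fun ξ => (m * b ξ + a ξ * m) / 2) P :=
        ((hib.const_mul m).add (hia.mul_const m)).div_const 2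
      have i2 : Integrable (fun ξ => (m * |b ξ - a ξ| + a ξ * Δ) / 2) P :=
        ((hid.const_mul m).add (hia.mul_const Δ)).div_const 2
      rw [integral_sub i1 i2, integral_div, integral_div,
        integral_add (hib.const_mul _) (hia.mul_const _),
        integral_add (hid.const_mul _) (hia.mul_const _), integral_const_mul,
        integral_mul_const, integral_const_mul, integral_mul_const, hEa, hEb]
      ring
    rw [e] at h1
    exact h1

lemma m_sq_ge (p : Par) : 2 - 32 / (p.k : ℝ) ^ 2 ≤ p.m ^ 2 := by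
  have hk := (kpos p)
  have h4 : (p.m * p.B + 2) * Real.exp (-(p.m * p.B)) ≤ 32 / (p.k : ℝ) ^ 2 := by
    set x := p.m * p.B with hx
    have hxk : (p.k : ℝ) ≤ x := by
      have := p.hm1
      have := p.hkB
      nlinarith
    have hx0 : 0 < x := lt_of_lt_of_le hk hxk
    have hx1 : (8 : ℝ) ≤ x := by
      have : (8 : ℝ) ≤ p.k := by exact_mod_cast p.hk
      linarith
    rw [le_div_iff₀ (by positivity)]
    have h5 := Real.pow_div_factorial_le_exp x hx0.le 3
    have h6 : ((Nat.factorial 3 : ℕ) : ℝ) = 6 := by norm_num [Nat.factorial]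
    rw [h6] at h5
    have h7 : Real.exp x * Real.exp (-x) = 1 := by
      rw [← Real.exp_add]; simp
    have h9 : (x + 2) * (p.k : ℝ) ^ 2 ≤ 32 * Real.exp x := by
      have h10 : (p.k : ℝ) ^ 2 ≤ x ^ 2 := by gcongr
      have h11 : (x + 2) * x ^ 2 ≤ 32 * (x ^ 3 / 6) := by nlinarith [sq_nonneg x]
      have h12 : (x + 2) * (p.k : ℝ) ^ 2 ≤ (x + 2) * x ^ 2 := by gcongr
      linarith
    calc (x + 2) * Real.exp (-x) * (p.k : ℝ) ^ 2 = ((x + 2) * (p.k : ℝ) ^ 2) * Real.exp (-x) := by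
          ring
      _ ≤ (32 * Real.exp x) * Real.exp (-x) := by gcongr
      _ = 32 := by rw [mul_assoc, h7]; ring
  rw [p.hm]
  linarith

end Pool.Agent.TSPd97.TU1

namespace Pool.Agent.TSPd97

open TU1

theorem tree_missing : ∃ C : ℝ, 0 < C ∧ ∀ (p : Par) (h : ℕ), 2 * p.k ≤ h →
    (∫ ξ, ∫ ξ', mthr p ξ ξ' ∂(nb p h) ∂(nb p h) ≤ 2) ∧
    2 - C / (p.k : ℝ) ^ 2 ≤ ∫ ξ, ∫ ξ', mthr p ξ ξ' ∂(nb p h) ∂(nb p h) := by
  obtain ⟨C, hC, hQ⟩ := integral_qthr_sub_wbar
  refine ⟨2 * C + 32, by positivity, fun p h hh => ?_⟩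
  have hk := (kpos p)
  have hm := (mpos p)
  have hm2 := (msqle p)
  have hml := (mle p)
  have hga : ∀ᵐ ξ ∂(nb p h), 0 ≤ wbar p (upd p ξ) ∧ wbar p (upd p ξ) ≤ p.B := by
    filter_upwards [ae_good p h] with ξ hξ
    exact wbar_upd_bounds p ξ hξ
  have hgb : ∀ᵐ ξ ∂(nb p h), 0 ≤ qthr p ξ ∧ qthr p ξ ≤ p.B := by
    filter_upwards [ae_good p h] with ξ hξ
    exact qthr_bounds p ξ hξ
  obtain ⟨hU, hL⟩ := assembly (nb p h) (fun ξ => wbar p (upd p ξ)) (qthr p)
    (measurable_wbar_upd p) (measurable_qthr p) p.B p.m (Bpos p) hga hgb (integral_wbar_upd p h)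
    (integral_qthr p h)
  have hid : Integrable (fun ξ => |qthr p ξ - wbar p (upd p ξ)|) (nb p h) :=
    ((integrable_qthr p h).sub (integrable_wbar_upd p h)).abs
  have hΔle : ∫ ξ, |qthr p ξ - wbar p (upd p ξ)| ∂(nb p h) ≤ C / (p.k : ℝ) ^ 2 := by
    have h1 := ofReal_integral_eq_lintegral_ofReal hid
      (Filter.Eventually.of_forall fun ξ => abs_nonneg _)
    have h2 := hQ p h hh
    rw [← h1] at h2
    exact (ENNReal.ofReal_le_ofReal_iff (by positivity)).1 h2
  refine ⟨hU.trans hm2, le_trans ?_ hL⟩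
  have h3 := m_sq_ge p
  have h4 : p.m * ∫ ξ, |qthr p ξ - wbar p (upd p ξ)| ∂(nb p h) ≤ 2 * (C / (p.k : ℝ) ^ 2) := by
    have h0 : 0 ≤ ∫ ξ, |qthr p ξ - wbar p (upd p ξ)| ∂(nb p h) :=
      integral_nonneg fun ξ => abs_nonneg _
    have h00 : 0 ≤ C / (p.k : ℝ) ^ 2 := by positivity
    nlinarith
  have h5 : (2 * C + 32) / (p.k : ℝ) ^ 2 = 2 * (C / (p.k : ℝ) ^ 2) + 32 / (p.k : ℝ) ^ 2 := by
    rw [add_div]; ring
  rw [h5]
  linarith

end Pool.Agent.TSPd97
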