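import Pool.Agent.TSPd97.TreeAb
import Pool.Agent.TSPd97.TreeU1

/-!
MP_076557_pr (package TU2): the cost of the selected edges on the tree.
-/

set_option autoImplicit false

open MeasureTheory Set
open scoped ENNReal

namespace Pool.Agent.TSPd97

namespace U2

/-! ### real inequalities -/

lemma mul_log_sq_le {Y : ℝ} (hY : 0 ≤ Y) : Y * (Real.log Y) ^ 2 ≤ 4 * (1 + Y ^ 2) := by
  rcases hY.eq_or_lt with h | h
  · rw [← h]; norm_num
  have hs : 0 < √Y := Real.sqrt_pos.2 h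
  have hsq : √Y ^ 2 = Y := Real.sq_sqrt hY
  have hlog : Real.log Y = 2 * Real.log √Y := by
    conv_lhs => rw [← hsq]
    rw [Real.log_pow]; norm_num
  have h1 : Real.log √Y ≤ √Y - 1 := Real.log_le_sub_one_of_pos hs
  have h2 : -Real.log √Y ≤ (√Y)⁻¹ - 1 := by
    rw [← Real.log_inv]; exact Real.log_le_sub_one_of_pos (inv_pos.2 hs)
  rcases le_total 1 Y with h3 | h3
  · have hs1 : 1 ≤ √Y := by rw [← Real.sqrt_one]; exact Real.sqrt_le_sqrt h3
    have h0 : 0 ≤ Real.log √Y := Real.log_nonneg hs1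
    have h4 : (Real.log Y) ^ 2 ≤ 4 * Y := by
      rw [hlog]
      have : Real.log √Y ≤ √Y := by linarith
      nlinarith
    nlinarith
  · have hs1 : √Y ≤ 1 := by rw [← Real.sqrt_one]; exact Real.sqrt_le_sqrt h3
    have h0 : Real.log √Y ≤ 0 := Real.log_nonpos hs.le hs1
    have h5 : √Y * (-Real.log √Y) ≤ 1 := by
      have := mul_le_mul_of_nonneg_left h2 hs.le
      rw [mul_sub, mul_inv_cancel₀ hs.ne'] at this
      nlinarith
    have h6 : 0 ≤ √Y * (-Real.log √Y) := mul_nonneg hs.le (by linarith)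
    have h7 : Y * (Real.log Y) ^ 2 = 4 * (√Y * (-Real.log √Y)) ^ 2 := by
      rw [hlog]; nth_rewrite 1 [← hsq]; ring
    rw [h7]
    nlinarith

lemma exp_le_quad {t : ℝ} (ht : t ≤ 1) : Real.exp t ≤ 1 + t + t ^ 2 := by
  rcases le_total 0 t with h | h
  · have := Real.exp_bound' h ht (n := 2) (by norm_num)
    simp [Finset.sum_range_succ, Nat.factorial] at this
    nlinarith
  · -- `exp t * (1 - t + ...)`
    have h1 : 1 - t ≤ Real.exp (-t) := by
      have := Real.add_one_le_exp (-t); linarith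
    have h2 : Real.exp t ≤ 1 / (1 - t) := by
      rw [le_div_iff₀ (by linarith)]
      calc Real.exp t * (1 - t) ≤ Real.exp t * Real.exp (-t) :=
            mul_le_mul_of_nonneg_left h1 (Real.exp_pos _).le
        _ = 1 := by rw [← Real.exp_add]; simp
    refine h2.trans ?_
    rw [div_le_iff₀ (by linarith)]
    nlinarith [mul_nonneg (sq_nonneg t) (neg_nonneg.2 h)]

/-- `x ↦ x^(1+ε)/(1+ε) - x - ε (x log x - x)` is monotone. -/
lemma key_mono {ε : ℝ} (hε : 0 < ε) {M Y : ℝ} (hM : 0 ≤ M) (hMY : M ≤ Y) :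
    (Y - M) + ε * ((Y * Real.log Y - Y) - (M * Real.log M - M)) ≤
      Y ^ (1 + ε) / (1 + ε) - M ^ (1 + ε) / (1 + ε) := by
  have hmono : MonotoneOn (fun x : ℝ => x ^ (1 + ε) / (1 + ε) - x - ε * (x * Real.log x - x))
      (Ici 0) := by
    refine monotoneOn_of_deriv_nonneg (convex_Ici 0) ?_ ?_ ?_
    · refine Continuous.continuousOn ?_
      refine Continuous.sub (Continuous.sub ?_ continuous_id) ?_
      · exact (Real.continuous_rpow_const (by linarith)).div_const _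
      · exact continuous_const.mul (Real.continuous_mul_log.sub continuous_id)
    · intro x hx
      rw [interior_Ici] at hx
      have hx0 : x ≠ 0 := (show (0 : ℝ) < x from hx).ne'
      refine DifferentiableAt.differentiableWithinAt ?_
      refine DifferentiableAt.sub (DifferentiableAt.sub ?_ differentiableAt_id) ?_
      · exact (Real.differentiableAt_rpow_const_of_ne _ hx0).div_const _
      · exact ((differentiableAt_id.mul (Real.differentiableAt_log hx0)).sub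
          differentiableAt_id).const_mul _
    · intro x hx
      rw [interior_Ici] at hx
      have hx' : (0 : ℝ) < x := hx
      have hx0 : x ≠ 0 := hx'.ne'
      have h1 : HasDerivAt (fun x : ℝ => x ^ (1 + ε) / (1 + ε)) (x ^ ε) x := by
        have h := (Real.hasDerivAt_rpow_const (p := 1 + ε) (Or.inl hx0)).div_const (1 + ε)
        have e : (1 + ε) * x ^ (1 + ε - 1) / (1 + ε) = x ^ ε := by
          rw [add_sub_cancel_left]
          field_simp
        rwa [e] at h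
      have h2 : HasDerivAt (fun x : ℝ => x * Real.log x - x) (Real.log x) x := by
        have h := (Real.hasDerivAt_mul_log hx0).sub (hasDerivAt_id x)
        have e : Real.log x + 1 - 1 = Real.log x := by ring
        rw [e] at h
        exact h
      have h3 := ((h1.sub (hasDerivAt_id x)).sub (h2.const_mul ε)).deriv
      have h4 : deriv (fun x : ℝ => x ^ (1 + ε) / (1 + ε) - x - ε * (x * Real.log x - x)) x =
          x ^ ε - 1 - ε * Real.log x := h3
      rw [h4, Real.rpow_def_of_pos hx']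
      have := Real.add_one_le_exp (Real.log x * ε)
      nlinarith
  have := hmono (show M ∈ Ici (0 : ℝ) from hM) (show Y ∈ Ici (0 : ℝ) from hM.trans hMY) hMY
  simp only at this
  linarith

lemma log_part {D : ℝ} (hD : 0 < D) {M Y : ℝ} (hM : 0 ≤ M) (hMY : M ≤ Y) :
    -(2 * Real.log D * (Y - M)) - 1 / D ^ 2 ≤
      (Y * Real.log Y - Y) - (M * Real.log M - M) := by
  have hD2 : 0 < D ^ 2 := by positivity
  -- `K x = x log x - x + 2 log D x`, `D^2 K (x) = y log y - y` with `y = D^2 x`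
  have hK : ∀ x : ℝ, 0 ≤ x → x * Real.log x - x + 2 * Real.log D * x =
      (1 / D ^ 2) * ((D ^ 2 * x) * Real.log (D ^ 2 * x) - D ^ 2 * x) := by
    intro x hx
    rcases hx.eq_or_lt with h | h
    · rw [← h]; simp
    · rw [Real.log_mul hD2.ne' h.ne', Real.log_pow]
      push_cast
      field_simp
      ring
  have hmain : -1 ≤ ((D ^ 2 * Y) * Real.log (D ^ 2 * Y) - D ^ 2 * Y) -
      ((D ^ 2 * M) * Real.log (D ^ 2 * M) - D ^ 2 * M) := by
    have hY0 : 0 ≤ D ^ 2 * Y := by have := hM.trans hMY; positivity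
    have hM0 : 0 ≤ D ^ 2 * M := by positivity
    have hle : D ^ 2 * M ≤ D ^ 2 * Y := by gcongr
    generalize D ^ 2 * Y = y at hY0 hle
    generalize D ^ 2 * M = x at hM0 hle
    have hy : -1 ≤ y * Real.log y - y := by
      rcases hY0.eq_or_lt with h | h
      · rw [← h]; norm_num
      · have h2 : -Real.log y ≤ y⁻¹ - 1 := by
          rw [← Real.log_inv]; exact Real.log_le_sub_one_of_pos (inv_pos.2 h)
        have := mul_le_mul_of_nonneg_left h2 h.le
        rw [mul_sub, mul_inv_cancel₀ h.ne'] at this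
        linarith
    rcases hM0.eq_or_lt with h | h
    · rw [← h]; simpa using hy
    rcases le_total (Real.log x) 1 with hx | hx
    · have : x * Real.log x - x ≤ 0 := by nlinarith
      linarith
    · have hxy : Real.log x ≤ Real.log y := Real.log_le_log h hle
      have : x * Real.log x - x ≤ y * Real.log y - y := by nlinarith
      linarith
  have h1 := hK Y (hM.trans hMY)
  have h2 := hK M hM
  have h3 := mul_le_mul_of_nonneg_left hmain (show 0 ≤ 1 / D ^ 2 by positivity)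
  rw [mul_sub, ← h1, ← h2] at h3
  linarith

lemma quad_aux {ε Y l : ℝ} (hε0 : 0 < ε) (hε1 : ε ≤ 1 / 2) (hY0 : 0 ≤ Y)
    (hYl : Y * l ^ 2 ≤ 4 * (1 + Y ^ 2)) :
    Y * (l ^ 2 - l + 1) + ε * (Y * (l - l ^ 2)) + ε ^ 2 * (Y * l ^ 2) ≤ 16 * (1 + Y ^ 2) := by
  have a1 : -(Y * l) ≤ (Y * l ^ 2 + Y) / 2 := by
    have := mul_nonneg hY0 (sq_nonneg (l + 1))
    have e : Y * (l + 1) ^ 2 = Y * l ^ 2 + 2 * (Y * l) + Y := by ring
    linarith
  have a2 : Y * l ≤ (Y * l ^ 2 + Y) / 2 := by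
    have := mul_nonneg hY0 (sq_nonneg (l - 1))
    have e : Y * (l - 1) ^ 2 = Y * l ^ 2 - 2 * (Y * l) + Y := by ring
    linarith
  have a3 : 0 ≤ Y * l ^ 2 := by positivity
  have a4 : 2 * Y ≤ 1 + Y ^ 2 := by
    have := sq_nonneg (Y - 1)
    have e : (Y - 1) ^ 2 = Y ^ 2 - 2 * Y + 1 := by ring
    linarith
  have a5 : ε * (Y * (l - l ^ 2)) ≤ (Y * l ^ 2 + Y) / 4 := by
    have e : Y * (l - l ^ 2) = Y * l - Y * l ^ 2 := by ring
    have h1 : Y * (l - l ^ 2) ≤ (Y * l ^ 2 + Y) / 2 := by rw [e]; linarith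
    have h2 : ε * (Y * (l - l ^ 2)) ≤ ε * ((Y * l ^ 2 + Y) / 2) :=
      mul_le_mul_of_nonneg_left h1 hε0.le
    have h3 : ε * ((Y * l ^ 2 + Y) / 2) ≤ 1 / 2 * ((Y * l ^ 2 + Y) / 2) :=
      mul_le_mul_of_nonneg_right hε1 (by positivity)
    linarith
  have a6 : ε ^ 2 * (Y * l ^ 2) ≤ 1 / 4 * (Y * l ^ 2) := by
    have h1 : ε ^ 2 ≤ (1 / 2) ^ 2 := pow_le_pow_left₀ hε0.le hε1 2
    have h2 : (1 / 2 : ℝ) ^ 2 = 1 / 4 := by norm_num
    rw [h2] at h1
    exact mul_le_mul_of_nonneg_right h1 a3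
  have a7 : Y * (l ^ 2 - l + 1) = Y * l ^ 2 - Y * l + Y := by ring
  rw [a7]
  linarith

/-- the pointwise inequality -/
lemma point {d : ℝ} (hd : 2 ≤ d) {M Y : ℝ} (hM : 0 ≤ M) (hMY : M ≤ Y)
    (hY : Real.log Y ≤ d) :
    M ^ (1 + 1 / d) / (1 + 1 / d) ≤ M + (Y * Real.log Y - Y) / d + 16 * (1 + Y ^ 2) / d ^ 2
      + 2 * Real.log d / d * (Y - M) + 1 / d ^ 3 := by
  have hd0 : 0 < d := by linarith
  have hY0 : 0 ≤ Y := hM.trans hMY
  set ε := 1 / d with hε
  have hε0 : 0 < ε := by positivity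
  have hε1 : ε ≤ 1 / 2 := by
    rw [hε]; exact one_div_le_one_div_of_le (by norm_num) hd
  have h1 := key_mono hε0 hM hMY
  have h2 := log_part hd0 hM hMY
  -- bound for `Y^(1+ε)/(1+ε)`
  have h3 : Y ^ (1 + ε) / (1 + ε) ≤ Y + ε * (Y * Real.log Y - Y) + ε ^ 2 * (16 * (1 + Y ^ 2)) := by
    rcases hY0.eq_or_lt with h | h
    · rw [← h, Real.zero_rpow (by linarith)]
      simp; positivity
    have e1 : Y ^ (1 + ε) = Y * Real.exp (Real.log Y * ε) := by
      rw [Real.rpow_add h, Real.rpow_one, Real.rpow_def_of_pos h]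
    have hle1 : Real.log Y * ε ≤ 1 := by
      rw [hε, mul_one_div, div_le_one hd0]; exact hY
    have h4 := exp_le_quad hle1
    have h5 : Y ^ (1 + ε) ≤ Y * (1 + Real.log Y * ε + (Real.log Y * ε) ^ 2) := by
      rw [e1]; exact mul_le_mul_of_nonneg_left h4 hY0
    have h6 : 1 / (1 + ε) ≤ 1 - ε + ε ^ 2 := by
      rw [div_le_iff₀ (by linarith)]
      nlinarith [pow_pos hε0 3]
    have h7 : 0 ≤ Y ^ (1 + ε) := Real.rpow_nonneg hY0 _
    have h8 : 0 ≤ 1 - ε + ε ^ 2 := by nlinarith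
    have h9 : Y ^ (1 + ε) / (1 + ε) ≤
        (1 - ε + ε ^ 2) * (Y * (1 + Real.log Y * ε + (Real.log Y * ε) ^ 2)) := by
      rw [div_eq_mul_one_div, mul_comm]
      calc 1 / (1 + ε) * Y ^ (1 + ε) ≤ (1 - ε + ε ^ 2) * Y ^ (1 + ε) := by gcongr
        _ ≤ _ := by gcongr
    refine h9.trans ?_
    set l := Real.log Y with hl
    have hYl : Y * l ^ 2 ≤ 4 * (1 + Y ^ 2) := mul_log_sq_le hY0
    have e2 : (1 - ε + ε ^ 2) * (Y * (1 + l * ε + (l * ε) ^ 2)) =
        Y + ε * (Y * l - Y) + ε ^ 2 * (Y * (l ^ 2 - l + 1) + ε * (Y * (l - l ^ 2))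
          + ε ^ 2 * (Y * l ^ 2)) := by ring
    rw [e2]
    have h10 : Y * (l ^ 2 - l + 1) + ε * (Y * (l - l ^ 2)) + ε ^ 2 * (Y * l ^ 2) ≤
        16 * (1 + Y ^ 2) := quad_aux hε0 hε1 hY0 hYl
    have h11 := mul_le_mul_of_nonneg_left h10 (show 0 ≤ ε ^ 2 by positivity)
    linarith
  have h12 := mul_le_mul_of_nonneg_left h2 hε0.le
  have e3 : ε * (-(2 * Real.log d * (Y - M)) - 1 / d ^ 2) =
      -(2 * Real.log d / d * (Y - M)) - 1 / d ^ 3 := by
    rw [hε]; field_simp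
  rw [e3] at h12
  have e4 : ε * (Y * Real.log Y - Y) = (Y * Real.log Y - Y) / d := by rw [hε]; ring
  have e5 : ε ^ 2 * (16 * (1 + Y ^ 2)) = 16 * (1 + Y ^ 2) / d ^ 2 := by rw [hε]; field_simp
  rw [e4, e5] at h3
  linarith

lemma lin {Z : Type*} [MeasurableSpace Z] (π : Measure Z) [IsProbabilityMeasure π]
    {f1 f2 f3 f4 : Z → ℝ} (h1 : Integrable f1 π) (h2 : Integrable f2 π) (h3 : Integrable f3 π)
    (h4 : Integrable f4 π) (d c e : ℝ) :
    Integrable (fun z => f1 z + (f2 z - f3 z) / d + 16 * (1 + f4 z) / d ^ 2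
      + c * (f3 z - f1 z) + e) π ∧
    ∫ z, (f1 z + (f2 z - f3 z) / d + 16 * (1 + f4 z) / d ^ 2 + c * (f3 z - f1 z) + e) ∂π =
      (∫ z, f1 z ∂π) + ((∫ z, f2 z ∂π) - ∫ z, f3 z ∂π) / d
        + 16 * (1 + ∫ z, f4 z ∂π) / d ^ 2 + c * ((∫ z, f3 z ∂π) - ∫ z, f1 z ∂π) + e := by
  have e0 : ∀ z, f1 z + (f2 z - f3 z) / d + 16 * (1 + f4 z) / d ^ 2 + c * (f3 z - f1 z) + e =
      (1 - c) * f1 z + (1 / d) * f2 z + (c - 1 / d) * f3 z + (16 / d ^ 2) * f4 z
        + (16 / d ^ 2 + e) := by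
    intro z; ring
  have g1 : Integrable (fun z => (1 - c) * f1 z) π := h1.const_mul _
  have g2 : Integrable (fun z => (1 / d) * f2 z) π := h2.const_mul _
  have g3 : Integrable (fun z => (c - 1 / d) * f3 z) π := h3.const_mul _
  have g4 : Integrable (fun z => (16 / d ^ 2) * f4 z) π := h4.const_mul _
  have g5 : Integrable (fun _ : Z => (16 / d ^ 2 + e)) π := integrable_const _
  have g12 : Integrable (fun z => (1 - c) * f1 z + (1 / d) * f2 z) π := g1.add g2
  have g123 : Integrable (fun z => (1 - c) * f1 z + (1 / d) * f2 z + (c - 1 / d) * f3 z) π :=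
    g12.add g3
  have g1234 : Integrable (fun z => (1 - c) * f1 z + (1 / d) * f2 z + (c - 1 / d) * f3 z
      + (16 / d ^ 2) * f4 z) π := g123.add g4
  simp_rw [e0]
  refine ⟨g1234.add g5, ?_⟩
  rw [integral_add g1234 g5, integral_add g123 g4, integral_add g12 g3, integral_add g1 g2,
    integral_const_mul, integral_const_mul, integral_const_mul, integral_const_mul]
  simp only [integral_const, probReal_univ, smul_eq_mul, one_mul]
  ring

/-- the integrated inequality -/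
lemma core {X : Type*} [MeasurableSpace X] (ν : Measure X) [IsProbabilityMeasure ν]
    (a b : X → ℝ) (ha : Measurable a) (hb : Measurable b) {B : ℝ} (hB1 : 1 ≤ B)
    (hpa : ∀ᵐ x ∂ν, 0 ≤ a x ∧ a x ≤ B) (hpb : ∀ᵐ x ∂ν, 0 ≤ b x ∧ b x ≤ B)
    {m L K : ℝ} (hm : 0 ≤ m) (hma : ∫ x, a x ∂ν = m) (hmb : ∫ x, b x ∂ν = m)
    (hLa : ∫ x, a x * Real.log (a x) ∂ν ≤ L) (hLb : ∫ x, b x * Real.log (b x) ∂ν ≤ L)
    (hKa : ∫ x, (a x) ^ 2 ∂ν ≤ K) (hKb : ∫ x, (b x) ^ 2 ∂ν ≤ K)
    {d : ℝ} (hd : 2 ≤ d) (hBd : 2 * Real.log B ≤ d) :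
    ∫ x, ∫ x', (min (a x' * b x) (a x * b x')) ^ (1 + 1 / d) / (1 + 1 / d) ∂ν ∂ν ≤
      (∫ x, ∫ x', min (a x' * b x) (a x * b x') ∂ν ∂ν) + (2 * (m * L) - m ^ 2) / d
        + 16 * (1 + K ^ 2) / d ^ 2
        + 2 * Real.log d / d * (m ^ 2 - ∫ x, ∫ x', min (a x' * b x) (a x * b x') ∂ν ∂ν)
        + 1 / d ^ 3 := by
  have hd0 : 0 < d := by linarith
  have hB0 : 0 < B := by linarith
  have ha2 : Measurable fun z : X × X => a z.2 := ha.comp measurable_snd
  have hb1 : Measurable fun z : X × X => b z.1 := hb.comp measurable_fst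
  have ha1 : Measurable fun z : X × X => a z.1 := ha.comp measurable_fst
  have hb2 : Measurable fun z : X × X => b z.2 := hb.comp measurable_snd
  have hq1 : ∀ᵐ z : X × X ∂(ν.prod ν), (0 ≤ a z.1 ∧ a z.1 ≤ B) ∧ (0 ≤ b z.1 ∧ b z.1 ≤ B) :=
    (Measure.quasiMeasurePreserving_fst (μ := ν) (ν := ν)).ae (hpa.and hpb)
  have hq2 : ∀ᵐ z : X × X ∂(ν.prod ν), (0 ≤ a z.2 ∧ a z.2 ≤ B) ∧ (0 ≤ b z.2 ∧ b z.2 ≤ B) :=
    (Measure.quasiMeasurePreserving_snd (μ := ν) (ν := ν)).ae (hpa.and hpb)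
  have hcont : ∀ x : ℝ, 0 ≤ x → x ≤ B → |x * Real.log x| ≤ B ^ 2 + 1 := by
    intro x h0 h1
    rcases h0.eq_or_lt with h | h
    · rw [← h]; simp; positivity
    · have h2 : Real.log x ≤ x - 1 := Real.log_le_sub_one_of_pos h
      have h3 : -Real.log x ≤ x⁻¹ - 1 := by
        rw [← Real.log_inv]; exact Real.log_le_sub_one_of_pos (inv_pos.2 h)
      have h4 := mul_le_mul_of_nonneg_left h3 h.le
      rw [mul_sub, mul_inv_cancel₀ h.ne'] at h4
      rw [abs_le]
      constructor <;> nlinarith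
  -- integrability
  have iY : Integrable (fun z : X × X => a z.2 * b z.1) (ν.prod ν) := by
    refine Integrable.of_bound (ha2.mul hb1).aestronglyMeasurable (B * B) ?_
    filter_upwards [hq1, hq2] with z h1 h2
    rw [Real.norm_of_nonneg (mul_nonneg h2.1.1 h1.2.1)]
    exact mul_le_mul h2.1.2 h1.2.2 h1.2.1 hB0.le
  have iM : Integrable (fun z : X × X => min (a z.2 * b z.1) (a z.1 * b z.2)) (ν.prod ν) := by
    refine Integrable.of_bound ((ha2.mul hb1).min (ha1.mul hb2)).aestronglyMeasurable (B * B) ?_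
    filter_upwards [hq1, hq2] with z h1 h2
    have h3 := mul_nonneg h2.1.1 h1.2.1
    have h4 := mul_nonneg h1.1.1 h2.2.1
    rw [Real.norm_of_nonneg (le_min h3 h4)]
    exact (min_le_left _ _).trans (mul_le_mul h2.1.2 h1.2.2 h1.2.1 hB0.le)
  have iF : Integrable (fun z : X × X => (min (a z.2 * b z.1) (a z.1 * b z.2)) ^ (1 + 1 / d)
      / (1 + 1 / d)) (ν.prod ν) := by
    have hpow : 0 ≤ 1 + 1 / d := by positivity
    refine Integrable.of_bound ((((ha2.mul hb1).min (ha1.mul hb2)).pow_const _).div_const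
      _).aestronglyMeasurable ((B * B) ^ (1 + 1 / d) / (1 + 1 / d)) ?_
    filter_upwards [hq1, hq2] with z h1 h2
    have h3 := mul_nonneg h2.1.1 h1.2.1
    have h4 := mul_nonneg h1.1.1 h2.2.1
    have h5 := le_min h3 h4
    rw [Real.norm_of_nonneg (by positivity)]
    have h6 : min (a z.2 * b z.1) (a z.1 * b z.2) ≤ B * B :=
      (min_le_left _ _).trans (mul_le_mul h2.1.2 h1.2.2 h1.2.1 hB0.le)
    gcongr
  have iYl : Integrable (fun z : X × X => (a z.2 * b z.1) * Real.log (a z.2 * b z.1))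
      (ν.prod ν) := by
    refine Integrable.of_bound ((ha2.mul hb1).mul (ha2.mul hb1).log).aestronglyMeasurable
      ((B * B) ^ 2 + 1) ?_
    filter_upwards [hq1, hq2] with z h1 h2
    have h3 := mul_nonneg h2.1.1 h1.2.1
    have h6 : a z.2 * b z.1 ≤ B * B := mul_le_mul h2.1.2 h1.2.2 h1.2.1 hB0.le
    rw [Real.norm_eq_abs]
    rcases h3.eq_or_lt with h | h
    · rw [← h]; simp; positivity
    · have h7 : Real.log (a z.2 * b z.1) ≤ a z.2 * b z.1 - 1 := Real.log_le_sub_one_of_pos h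
      have h8 : -Real.log (a z.2 * b z.1) ≤ (a z.2 * b z.1)⁻¹ - 1 := by
        rw [← Real.log_inv]; exact Real.log_le_sub_one_of_pos (inv_pos.2 h)
      have h9 := mul_le_mul_of_nonneg_left h8 h.le
      rw [mul_sub, mul_inv_cancel₀ h.ne'] at h9
      rw [abs_le]
      constructor <;> nlinarith
  have iY2 : Integrable (fun z : X × X => (a z.2 * b z.1) ^ 2) (ν.prod ν) := by
    refine Integrable.of_bound ((ha2.mul hb1).pow_const 2).aestronglyMeasurable ((B * B) ^ 2) ?_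
    filter_upwards [hq1, hq2] with z h1 h2
    have h3 := mul_nonneg h2.1.1 h1.2.1
    have h6 : a z.2 * b z.1 ≤ B * B := mul_le_mul h2.1.2 h1.2.2 h1.2.1 hB0.le
    rw [Real.norm_of_nonneg (by positivity)]
    gcongr
  -- values
  have vY : ∫ z : X × X, a z.2 * b z.1 ∂(ν.prod ν) = m ^ 2 := by
    have h := integral_prod_mul (μ := ν) (ν := ν) (fun x => b x) (fun y => a y)
    rw [hma, hmb] at h
    rw [pow_two, ← h]
    exact integral_congr_ae (Filter.Eventually.of_forall fun z => mul_comm _ _)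
  have vY2 : ∫ z : X × X, (a z.2 * b z.1) ^ 2 ∂(ν.prod ν) ≤ K ^ 2 := by
    have h := integral_prod_mul (μ := ν) (ν := ν) (fun x => (b x) ^ 2) (fun y => (a y) ^ 2)
    have e : ∫ z : X × X, (a z.2 * b z.1) ^ 2 ∂(ν.prod ν) =
        (∫ x, (b x) ^ 2 ∂ν) * ∫ x, (a x) ^ 2 ∂ν := by
      rw [← h]
      exact integral_congr_ae (Filter.Eventually.of_forall fun z => by simp only; ring)
    rw [e, pow_two K]
    have h1 : 0 ≤ ∫ x, (b x) ^ 2 ∂ν := integral_nonneg fun x => by positivity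
    have h2 : 0 ≤ ∫ x, (a x) ^ 2 ∂ν := integral_nonneg fun x => by positivity
    exact mul_le_mul hKb hKa h2 (h1.trans hKb)
  have vYl : ∫ z : X × X, (a z.2 * b z.1) * Real.log (a z.2 * b z.1) ∂(ν.prod ν) ≤
      2 * (m * L) := by
    have h1 := integral_prod_mul (μ := ν) (ν := ν) (fun x => b x)
      (fun y => a y * Real.log (a y))
    have h2 := integral_prod_mul (μ := ν) (ν := ν) (fun x => b x * Real.log (b x))
      (fun y => a y)
    have ia : Integrable (fun x => a x * Real.log (a x)) ν := by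
      refine Integrable.of_bound (ha.mul ha.log).aestronglyMeasurable (B ^ 2 + 1) ?_
      filter_upwards [hpa] with x hx
      exact hcont _ hx.1 hx.2
    have ib : Integrable (fun x => b x * Real.log (b x)) ν := by
      refine Integrable.of_bound (hb.mul hb.log).aestronglyMeasurable (B ^ 2 + 1) ?_
      filter_upwards [hpb] with x hx
      exact hcont _ hx.1 hx.2
    have ia0 : Integrable a ν := by
      refine Integrable.of_bound ha.aestronglyMeasurable B ?_
      filter_upwards [hpa] with x hx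
      rw [Real.norm_of_nonneg hx.1]; exact hx.2
    have ib0 : Integrable b ν := by
      refine Integrable.of_bound hb.aestronglyMeasurable B ?_
      filter_upwards [hpb] with x hx
      rw [Real.norm_of_nonneg hx.1]; exact hx.2
    have e : ∫ z : X × X, (a z.2 * b z.1) * Real.log (a z.2 * b z.1) ∂(ν.prod ν) =
        (∫ x, b x ∂ν) * (∫ x, a x * Real.log (a x) ∂ν) +
        (∫ x, b x * Real.log (b x) ∂ν) * ∫ x, a x ∂ν := by
      rw [← h1, ← h2, ← integral_add (ib0.mul_prod ia) (ib.mul_prod ia0)]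
      refine integral_congr_ae (Filter.Eventually.of_forall fun z => ?_)
      simp only
      rcases eq_or_ne (a z.2) 0 with h | h
      · rw [h]; simp
      rcases eq_or_ne (b z.1) 0 with h' | h'
      · rw [h']; simp
      rw [Real.log_mul h h']
      ring
    rw [e, hma, hmb]
    nlinarith [mul_le_mul_of_nonneg_left hLa hm, mul_le_mul_of_nonneg_right hLb hm]
  -- rewrite the double integrals
  have eF : ∫ x, ∫ x', (min (a x' * b x) (a x * b x')) ^ (1 + 1 / d) / (1 + 1 / d) ∂ν ∂ν =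
      ∫ z : X × X, (min (a z.2 * b z.1) (a z.1 * b z.2)) ^ (1 + 1 / d) / (1 + 1 / d)
        ∂(ν.prod ν) :=
    integral_integral (f := fun x x' => (min (a x' * b x) (a x * b x')) ^ (1 + 1 / d)
      / (1 + 1 / d)) iF
  have eM : ∫ x, ∫ x', min (a x' * b x) (a x * b x') ∂ν ∂ν =
      ∫ z : X × X, min (a z.2 * b z.1) (a z.1 * b z.2) ∂(ν.prod ν) :=
    integral_integral (f := fun x x' => min (a x' * b x) (a x * b x')) iM
  rw [eF, eM]
  have hlogd : 0 ≤ Real.log d := Real.log_nonneg (by linarith)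
  set EM := ∫ z : X × X, min (a z.2 * b z.1) (a z.1 * b z.2) ∂(ν.prod ν) with hEM
  have hint : ∫ z : X × X, (min (a z.2 * b z.1) (a z.1 * b z.2)) ^ (1 + 1 / d) / (1 + 1 / d)
        ∂(ν.prod ν) ≤ ∫ z : X × X, (min (a z.2 * b z.1) (a z.1 * b z.2)
          + ((a z.2 * b z.1) * Real.log (a z.2 * b z.1) - a z.2 * b z.1) / d
          + 16 * (1 + (a z.2 * b z.1) ^ 2) / d ^ 2
          + 2 * Real.log d / d * (a z.2 * b z.1 - min (a z.2 * b z.1) (a z.1 * b z.2))
          + 1 / d ^ 3) ∂(ν.prod ν) := by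
    refine integral_mono_ae iF ?_ ?_
    · exact (lin (ν.prod ν) iM iYl iY iY2 d (2 * Real.log d / d) (1 / d ^ 3)).1
    · filter_upwards [hq1, hq2] with z h1 h2
      have h3 := mul_nonneg h2.1.1 h1.2.1
      have h4 := mul_nonneg h1.1.1 h2.2.1
      refine point hd (le_min h3 h4) (min_le_left _ _) ?_
      rcases h3.eq_or_lt with h | h
      · rw [← h]; simp; linarith
      · have h6 : a z.2 * b z.1 ≤ B * B := mul_le_mul h2.1.2 h1.2.2 h1.2.1 hB0.le
        calc Real.log (a z.2 * b z.1) ≤ Real.log (B * B) := Real.log_le_log h h6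
          _ = 2 * Real.log B := by rw [Real.log_mul hB0.ne' hB0.ne']; ring
          _ ≤ d := hBd
  refine hint.trans ?_
  rw [(lin (ν.prod ν) iM iYl iY iY2 d (2 * Real.log d / d) (1 / d ^ 3)).2, vY, ← hEM]
  gcongr

/-! ### the averaged message -/

lemma measurable_wbar (p : Par) : Measurable (wbar p) := by
  unfold wbar
  exact (Finset.measurable_fun_sum _ (fun j _ => measurable_pi_apply j)).div_const _

lemma k_pos (p : Par) : (0 : ℝ) < p.k := by
  have := p.hk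
  exact_mod_cast (by omega : 0 < p.k)

lemma window_ae (p : Par) (h : ℕ) :
    ∀ᵐ w ∂(mu p h), ∀ j ∈ Finset.Ico p.k (2 * p.k), 0 < w j ∧ w j ≤ p.B := by
  rw [Filter.eventually_all_finset]
  intro j hj
  exact mu_pos p h j (by have := Finset.mem_Ico.1 hj; omega)

lemma wbar_bounds {p : Par} {w : ℕ → ℝ}
    (hw : ∀ j ∈ Finset.Ico p.k (2 * p.k), 0 < w j ∧ w j ≤ p.B) :
    0 < wbar p w ∧ wbar p w ≤ p.B := by
  have hk := k_pos p
  have hk8 := p.hk
  constructor
  · unfold wbar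
    refine div_pos (Finset.sum_pos (fun j hj => (hw j hj).1) ?_) hk
    rw [Finset.nonempty_Ico]; omega
  · unfold wbar
    rw [div_le_iff₀ hk]
    calc ∑ j ∈ Finset.Ico p.k (2 * p.k), w j ≤ ∑ j ∈ Finset.Ico p.k (2 * p.k), p.B :=
          Finset.sum_le_sum fun j hj => (hw j hj).2
      _ = p.B * p.k := by
          rw [Finset.sum_const, Nat.card_Ico, nsmul_eq_mul, mul_comm]
          congr 2
          omega

lemma wbar_pos_ae (p : Par) (h : ℕ) :
    ∀ᵐ w ∂(mu p h), 0 < wbar p w ∧ wbar p w ≤ p.B := by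
  filter_upwards [window_ae p h] with w hw
  exact wbar_bounds hw

/-- Jensen's inequality for the average over the window -/
lemma jensen {p : Par} {φ : ℝ → ℝ} (hφ : ConvexOn ℝ (Ici 0) φ) {w : ℕ → ℝ}
    (hw : ∀ j ∈ Finset.Ico p.k (2 * p.k), 0 ≤ w j) :
    φ (wbar p w) ≤ (∑ j ∈ Finset.Ico p.k (2 * p.k), φ (w j)) / p.k := by
  have hk := k_pos p
  have hc : (Finset.Ico p.k (2 * p.k)).card = p.k := by rw [Nat.card_Ico]; omega
  have h := hφ.map_sum_le (t := Finset.Ico p.k (2 * p.k)) (w := fun _ => 1 / (p.k : ℝ))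
    (p := w) (fun _ _ => by positivity) (by
      rw [Finset.sum_const, hc, nsmul_eq_mul]; field_simp) (fun j hj => hw j hj)
  simp only [smul_eq_mul] at h
  rw [← Finset.mul_sum, ← Finset.mul_sum] at h
  unfold wbar
  rw [div_eq_mul_one_div, mul_comm, div_eq_mul_one_div (∑ j ∈ Finset.Ico p.k (2 * p.k), φ (w j)),
    mul_comm (∑ j ∈ Finset.Ico p.k (2 * p.k), φ (w j))]
  exact h

lemma wbar_mean (p : Par) (h : ℕ) : ∫ w, wbar p w ∂(mu p h) = p.m := by
  have hk := k_pos p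
  unfold wbar
  rw [integral_div, integral_finsetSum]
  · rw [Finset.sum_congr rfl (fun j hj => mu_mean p h j
      (by have := Finset.mem_Ico.1 hj; omega)), Finset.sum_const, Nat.card_Ico, nsmul_eq_mul]
    have : ((2 * p.k - p.k : ℕ) : ℝ) = p.k := by congr 1; omega
    rw [this]
    field_simp
  · intro j hj
    refine Integrable.of_bound (measurable_pi_apply j).aestronglyMeasurable p.B ?_
    filter_upwards [mu_pos p h j (by have := Finset.mem_Ico.1 hj; omega)] with w hw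
    rw [Real.norm_of_nonneg hw.1.le]
    exact hw.2

/-! ### one order statistic -/

lemma measurable_osg (p : Par) {g : (ℕ → ℝ) → ℝ} (hg : Measurable g) :
    Measurable fun ξ : Multiset (ℝ × (ℕ → ℝ)) => os 1 p.B (ξ.map fun q => q.1 / g q.2) :=
  (measurable_os 1 p.B).comp (measurable_map_multiset (measurable_div_weight hg))

lemma osg_ae (p : Par) (h : ℕ) (g : (ℕ → ℝ) → ℝ) (hg : Measurable g)
    (hpos : ∀ᵐ w ∂(mu p h), 0 < g w ∧ g w ≤ p.B) :
    ∀ᵐ ξ ∂(nb p h), 0 < os 1 p.B (ξ.map fun q => q.1 / g q.2)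
      ∧ os 1 p.B (ξ.map fun q => q.1 / g q.2) ≤ p.B := by
  have hA : MeasurableSet {q : ℝ × (ℕ → ℝ) | 0 < q.1 ∧ 0 < g q.2} :=
    (measurableSet_lt measurable_const measurable_fst).inter
      (measurableSet_lt measurable_const (hg.comp measurable_snd))
  have h1 : ∀ᵐ q ∂((leb (p.B ^ 2)).prod (mu p h)), 0 < q.1 ∧ 0 < g q.2 := by
    have ha : ∀ᵐ s ∂(leb (p.B ^ 2)), 0 < s := by
      unfold leb
      filter_upwards [ae_restrict_mem measurableSet_Ioc] with s hs
      exact hs.1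
    have ha' := (Measure.quasiMeasurePreserving_fst (μ := leb (p.B ^ 2))
      (ν := mu p h)).ae ha
    have hb' := (Measure.quasiMeasurePreserving_snd (μ := leb (p.B ^ 2))
      (ν := mu p h)).ae hpos
    filter_upwards [ha', hb'] with q hq1 hq2
    exact ⟨hq1, hq2.1⟩
  have h2 := ae_PP_forall ((leb (p.B ^ 2)).prod (mu p h)) hA (by
    rw [ae_iff] at h1
    exact h1)
  unfold nb
  filter_upwards [h2] with ξ hξ
  refine ⟨os_pos p.B_pos ?_, os_le _ _ _⟩
  intro a ha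
  rw [Multiset.mem_map] at ha
  obtain ⟨q, hq, rfl⟩ := ha
  exact div_pos (hξ q hq).1 (hξ q hq).2

lemma os_sq (p : Par) (h : ℕ) (g : (ℕ → ℝ) → ℝ) (hg : Measurable g)
    (hpos : ∀ᵐ w ∂(mu p h), 0 < g w ∧ g w ≤ p.B) (hm : ∫ w, g w ∂(mu p h) = p.m) :
    ∫ ξ, (os 1 p.B (ξ.map fun q => q.1 / g q.2)) ^ 2 ∂(nb p h) ≤ 6 := by
  have hm0 := p.m_pos
  have hB0 := p.B_pos
  have hsq : Measurable fun x : ℝ => x ^ 2 := measurable_id.pow_const 2
  rw [integral_os_nb p h g hg hpos hm (f := fun s => (os 1 p.B s) ^ 2)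
    (hsq.comp (measurable_os 1 p.B)) (fun s => by simp only [os_restr]),
    integral_os_law hm0 hB0 1 (f := fun x => x ^ 2) hsq]
  have hmin : Measurable fun x : ℝ => min p.B x := measurable_const.min measurable_id
  have h1 : ∫ x in Ioi (0 : ℝ), gdens p.m 1 x * (min p.B x) ^ 2 ≤
      ∫ x in Ioi (0 : ℝ), gdens p.m 1 x * x ^ 2 := by
    refine setIntegral_mono_on ?_ (gdens_sq_integrable hm0 1) measurableSet_Ioi (fun x hx => ?_)
    · refine Integrable.mul_bdd (c := p.B ^ 2) (gdens_integrableOn hm0 1 le_rfl)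
        (hsq.comp hmin).aestronglyMeasurable ?_
      filter_upwards [ae_restrict_mem measurableSet_Ioi] with x hx
      have hx0 : (0 : ℝ) < x := hx
      have h2 : 0 < min p.B x := lt_min hB0 hx0
      rw [Real.norm_of_nonneg (by positivity)]
      exact pow_le_pow_left₀ h2.le (min_le_left _ _) 2
    · have hx0 : (0 : ℝ) < x := hx
      refine mul_le_mul_of_nonneg_left ?_ (gdens_nonneg hm0 1 hx0.le)
      exact pow_le_pow_left₀ (lt_min hB0 hx0).le (min_le_right _ _) 2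
  refine h1.trans ?_
  rw [gdens_sq_integral hm0 1]
  have h3 : ((1 + 2 : ℕ).factorial : ℝ) = 6 := by norm_num [Nat.factorial]
  rw [h3, Nat.factorial_one, Nat.cast_one, one_mul, div_le_iff₀ (by positivity)]
  nlinarith [p.hm1]

/-! ### the two factors -/

lemma measurable_a (p : Par) : Measurable fun ξ : Multiset (ℝ × (ℕ → ℝ)) => wbar p (upd p ξ) :=
  (measurable_wbar p).comp (measurable_upd p)

lemma upd_window_ae (p : Par) (h : ℕ) :
    ∀ᵐ ξ ∂(nb p h), ∀ j ∈ Finset.Ico p.k (2 * p.k), 0 < upd p ξ j ∧ upd p ξ j ≤ p.B := by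
  have h1 := window_ae p (h + 1)
  have h2 : mu p (h + 1) = (nb p h).map (upd p) := rfl
  rw [h2] at h1
  exact ae_of_ae_map (measurable_upd p).aemeasurable h1

lemma a_mean (p : Par) (h : ℕ) : ∫ ξ, wbar p (upd p ξ) ∂(nb p h) = p.m := by
  have h1 := wbar_mean p (h + 1)
  have h2 : mu p (h + 1) = (nb p h).map (upd p) := rfl
  rw [h2, integral_map (measurable_upd p).aemeasurable
    (measurable_wbar p).aestronglyMeasurable] at h1
  exact h1

lemma a_convex (p : Par) (h : ℕ) {φ : ℝ → ℝ} (hφ : ConvexOn ℝ (Ici 0) φ) (hφm : Measurable φ)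
    {D c : ℝ} (hD : ∀ x, 0 < x → x ≤ p.B → |φ x| ≤ D)
    (hc : ∀ j ∈ Finset.Ico p.k (2 * p.k), ∫ ξ, φ (upd p ξ j) ∂(nb p h) ≤ c) :
    ∫ ξ, φ (wbar p (upd p ξ)) ∂(nb p h) ≤ c := by
  have hk := k_pos p
  have hj : ∀ j ∈ Finset.Ico p.k (2 * p.k), Integrable (fun ξ => φ (upd p ξ j)) (nb p h) := by
    intro j hj
    refine Integrable.of_bound (hφm.comp ((measurable_pi_apply j).comp
      (measurable_upd p))).aestronglyMeasurable D ?_
    filter_upwards [upd_window_ae p h] with ξ hξ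
    exact hD _ (hξ j hj).1 (hξ j hj).2
  have ha : Integrable (fun ξ => φ (wbar p (upd p ξ))) (nb p h) := by
    refine Integrable.of_bound (hφm.comp (measurable_a p)).aestronglyMeasurable D ?_
    filter_upwards [upd_window_ae p h] with ξ hξ
    have := wbar_bounds hξ
    exact hD _ this.1 this.2
  calc ∫ ξ, φ (wbar p (upd p ξ)) ∂(nb p h)
      ≤ ∫ ξ, (∑ j ∈ Finset.Ico p.k (2 * p.k), φ (upd p ξ j)) / p.k ∂(nb p h) := by
        refine integral_mono_ae ha ((integrable_finsetSum _ hj).div_const _) ?_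
        filter_upwards [upd_window_ae p h] with ξ hξ
        exact jensen hφ fun j hj => (hξ j hj).1.le
    _ = (∑ j ∈ Finset.Ico p.k (2 * p.k), ∫ ξ, φ (upd p ξ j) ∂(nb p h)) / p.k := by
        rw [integral_div, integral_finsetSum _ hj]
    _ ≤ (∑ j ∈ Finset.Ico p.k (2 * p.k), c) / p.k := by
        refine div_le_div_of_nonneg_right (Finset.sum_le_sum hc) hk.le
    _ = c := by
        rw [Finset.sum_const, Nat.card_Ico, nsmul_eq_mul]
        have : ((2 * p.k - p.k : ℕ) : ℝ) = p.k := by congr 1; omega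
        rw [this]
        field_simp

lemma upd_eq {p : Par} {j : ℕ} (hj : j ∈ Finset.Ico p.k (2 * p.k))
    (ξ : Multiset (ℝ × (ℕ → ℝ))) :
    upd p ξ j = os 1 p.B (ξ.map fun q => q.1 / q.2 (j - 1)) := by
  have h1 := Finset.mem_Ico.1 hj
  have h2 := p.hk
  unfold upd
  rw [if_neg (by omega), if_pos (by omega)]

/-- the error `tau` in `m ^ 2 = 2 - tau` -/
lemma tau_le (p : Par) : 0 ≤ 2 - p.m ^ 2 ∧ 2 - p.m ^ 2 ≤ 12 / (p.k : ℝ) ^ 2 := by
  have hk := k_pos p
  have hm0 := p.m_pos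
  have hB0 := p.B_pos
  have hx : (8 : ℝ) ≤ p.m * p.B := by nlinarith [p.hm1, p.eight_le_B]
  have hkx : (p.k : ℝ) ≤ p.m * p.B := by nlinarith [p.hm1, p.hkB]
  have e : 2 - p.m ^ 2 = (p.m * p.B + 2) * Real.exp (-(p.m * p.B)) := by
    rw [p.hm]; ring
  rw [e]
  set x := p.m * p.B with hxd
  have hx0 : 0 < x := by linarith
  refine ⟨by positivity, ?_⟩
  have h1 : x ^ 3 / 6 ≤ Real.exp x := by
    have := Real.pow_div_factorial_le_exp x hx0.le 3
    norm_num [Nat.factorial] at this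
    exact this
  have h2 : Real.exp (-x) ≤ 6 / x ^ 3 := by
    rw [Real.exp_neg, inv_eq_one_div, div_le_div_iff₀ (Real.exp_pos _) (by positivity)]
    linarith
  calc (x + 2) * Real.exp (-x) ≤ (2 * x) * (6 / x ^ 3) := by
        refine mul_le_mul (by linarith) h2 (Real.exp_pos _).le (by positivity)
    _ = 12 / x ^ 2 := by field_simp; ring
    _ ≤ 12 / (p.k : ℝ) ^ 2 := by gcongr

/-- final arithmetic -/
lemma arith {m k d γ EM J C₁ lm l2 ld : ℝ} (hd : 2 ≤ d) (hk : 0 < k)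
    (hm : 0 ≤ 2 - m ^ 2) (hm2 : 2 - m ^ 2 ≤ 12 / k ^ 2)
    (hlog : l2 - 2 * lm ≤ 2 - m ^ 2) (hld : 1 / 2 ≤ ld) (hdk : d * ld ≤ k ^ 2)
    (hC : 0 < C₁) (hEM : 2 - C₁ / k ^ 2 ≤ EM)
    (hJ : J ≤ EM + (2 * (3 - 2 * γ - 2 * lm) - m ^ 2) / d + 16 * (1 + 6 ^ 2) / d ^ 2
        + 2 * ld / d * (m ^ 2 - EM) + 1 / d ^ 3) :
    (1 / 2) * J ≤ 1 + (2 - l2 - 2 * γ) / d - (2 - EM) / 2 + (400 + C₁) / d ^ 2 := by
  have hd0 : 0 < d := by linarith
  have hk2 : 0 < k ^ 2 := by positivity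
  have hld0 : 0 < ld := by linarith
  -- `12 / k ^ 2 ≤ 24 / d`
  have h1 : 12 / k ^ 2 ≤ 24 / d := by
    rw [div_le_div_iff₀ hk2 hd0]
    nlinarith
  have h2 : (m ^ 2 - EM) ≤ C₁ / k ^ 2 := by linarith
  have h3 : 2 * ld / d * (m ^ 2 - EM) ≤ 2 * C₁ / d ^ 2 := by
    calc 2 * ld / d * (m ^ 2 - EM) ≤ 2 * ld / d * (C₁ / k ^ 2) :=
          mul_le_mul_of_nonneg_left h2 (by positivity)
      _ ≤ 2 * ld / d * (C₁ / (d * ld)) := by gcongr
      _ = 2 * C₁ / d ^ 2 := by field_simp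
  have h4 : (2 * (3 - 2 * γ - 2 * lm) - m ^ 2) / d ≤
      2 * (2 - l2 - 2 * γ) / d + 72 / d ^ 2 := by
    have h5 : 2 * (3 - 2 * γ - 2 * lm) - m ^ 2 ≤ 2 * (2 - l2 - 2 * γ) + 72 / d := by
      have : 72 / d = 3 * (24 / d) := by ring
      rw [this]
      linarith
    calc (2 * (3 - 2 * γ - 2 * lm) - m ^ 2) / d
        ≤ (2 * (2 - l2 - 2 * γ) + 72 / d) / d := div_le_div_of_nonneg_right h5 hd0.le
      _ = 2 * (2 - l2 - 2 * γ) / d + 72 / d ^ 2 := by field_simp
  have h6 : 1 / d ^ 3 ≤ 1 / d ^ 2 := by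
    refine one_div_le_one_div_of_le (by positivity) ?_
    nlinarith [pow_pos hd0 2]
  have e1 : (400 + C₁) / d ^ 2 = 400 * (1 / d ^ 2) + C₁ / d ^ 2 := by ring
  have e2 : 16 * (1 + 6 ^ 2) / d ^ 2 = 592 * (1 / d ^ 2) := by ring
  have e3 : 2 * C₁ / d ^ 2 = 2 * (C₁ / d ^ 2) := by ring
  have e4 : 72 / d ^ 2 = 72 * (1 / d ^ 2) := by ring
  have e5 : 2 * (2 - l2 - 2 * γ) / d = 2 * ((2 - l2 - 2 * γ) / d) := by ring
  have h7 : 0 < 1 / d ^ 2 := by positivity
  rw [e1]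
  rw [e2] at hJ
  rw [e3] at h3
  rw [e4, e5] at h4
  linarith

end U2

open U2 in
theorem tree_cost : ∃ C : ℝ, 0 < C ∧ ∀ (p : Par) (h d : ℕ), 2 * p.k ≤ h → 2 ≤ d →
    2 * Real.log p.B ≤ d → (d : ℝ) * Real.log d ≤ (p.k : ℝ) ^ 2 →
    (1 / 2) * ∫ ξ, ∫ ξ', (mthr p ξ ξ') ^ (1 + 1 / (d : ℝ)) / (1 + 1 / (d : ℝ))
        ∂(nb p h) ∂(nb p h)
      ≤ 1 + (2 - Real.log 2 - 2 * Real.eulerMascheroniConstant) / d
        - (2 - ∫ ξ, ∫ ξ', mthr p ξ ξ' ∂(nb p h) ∂(nb p h)) / 2 + C / (d : ℝ) ^ 2 := by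
  obtain ⟨C₁, hC₁, hmiss⟩ := tree_missing
  refine ⟨400 + C₁, by linarith, ?_⟩
  intro p h d hh hd hBd hdk
  have hk := k_pos p
  have hm0 := p.m_pos
  have hB0 := p.B_pos
  have hB1 : 1 ≤ p.B := by linarith [p.eight_le_B]
  have hd2 : (2 : ℝ) ≤ d := by exact_mod_cast hd
  have hdR : (0 : ℝ) < d := by linarith
  set L := (3 - 2 * Real.eulerMascheroniConstant - 2 * Real.log p.m) / p.m with hL
  -- the two factors
  have hb := os_means p h (wbar p) (measurable_wbar p) (wbar_pos_ae p h) (wbar_mean p h)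
  have hb2 := os_sq p h (wbar p) (measurable_wbar p) (wbar_pos_ae p h) (wbar_mean p h)
  have hbpos := osg_ae p h (wbar p) (measurable_wbar p) (wbar_pos_ae p h)
  have hja : ∀ j ∈ Finset.Ico p.k (2 * p.k),
      ∫ ξ, upd p ξ j * Real.log (upd p ξ j) ∂(nb p h) ≤ L := by
    intro j hj
    have h1 := Finset.mem_Ico.1 hj
    have h2 := os_means p h (fun w => w (j - 1)) (measurable_pi_apply (j - 1))
      (mu_pos p h (j - 1) (by omega)) (mu_mean p h (j - 1) (by omega))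
    simp_rw [upd_eq hj]
    exact h2.2.2.2
  have hja2 : ∀ j ∈ Finset.Ico p.k (2 * p.k), ∫ ξ, (upd p ξ j) ^ 2 ∂(nb p h) ≤ 6 := by
    intro j hj
    have h1 := Finset.mem_Ico.1 hj
    have h2 := os_sq p h (fun w => w (j - 1)) (measurable_pi_apply (j - 1))
      (mu_pos p h (j - 1) (by omega)) (mu_mean p h (j - 1) (by omega))
    simp_rw [upd_eq hj]
    exact h2
  have hLa : ∫ ξ, wbar p (upd p ξ) * Real.log (wbar p (upd p ξ)) ∂(nb p h) ≤ L :=
    a_convex p h (φ := fun x => x * Real.log x) Real.convexOn_mul_log measurable_xlogx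
      (fun x h0 h1 => abs_xlogx_le hB1 h0 h1) hja
  have hKa : ∫ ξ, (wbar p (upd p ξ)) ^ 2 ∂(nb p h) ≤ 6 := by
    refine a_convex p h (φ := fun x => x ^ 2) ((even_two.convexOn_pow).subset (subset_univ _)
      (convex_Ici 0)) (measurable_id.pow_const 2) (D := p.B ^ 2) (fun x h0 h1 => ?_) hja2
    rw [abs_of_nonneg (by positivity)]
    exact pow_le_pow_left₀ h0.le h1 2
  have hapos : ∀ᵐ ξ ∂(nb p h), 0 ≤ wbar p (upd p ξ) ∧ wbar p (upd p ξ) ≤ p.B := by
    filter_upwards [upd_window_ae p h] with ξ hξ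
    exact ⟨(wbar_bounds hξ).1.le, (wbar_bounds hξ).2⟩
  have hbpos' : ∀ᵐ ξ ∂(nb p h), 0 ≤ qthr p ξ ∧ qthr p ξ ≤ p.B := by
    filter_upwards [hbpos] with ξ hξ
    exact ⟨hξ.1.le, hξ.2⟩
  have hcore := core (nb p h) (fun ξ => wbar p (upd p ξ)) (qthr p) (measurable_a p)
    (measurable_osg p (measurable_wbar p)) hB1 hapos hbpos' hm0.le (a_mean p h) hb.1 hLa
    hb.2.2.2 hKa hb2 hd2 hBd
  have hmL : p.m * L = 3 - 2 * Real.eulerMascheroniConstant - 2 * Real.log p.m := by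
    rw [hL]; field_simp
  rw [hmL] at hcore
  obtain ⟨hEM1, hEM2⟩ := hmiss p h hh
  have htau := tau_le p
  have hlog : Real.log 2 - 2 * Real.log p.m ≤ 2 - p.m ^ 2 := by
    have e : Real.log 2 - 2 * Real.log p.m = Real.log (2 / p.m ^ 2) := by
      rw [Real.log_div (by norm_num) (by positivity), Real.log_pow]; norm_num
    rw [e]
    have h1 : Real.log (2 / p.m ^ 2) ≤ 2 / p.m ^ 2 - 1 :=
      Real.log_le_sub_one_of_pos (by positivity)
    have h2 : 2 / p.m ^ 2 - 1 ≤ 2 - p.m ^ 2 := by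
      have hmm : 1 ≤ p.m ^ 2 := by nlinarith [p.hm1]
      rw [sub_le_iff_le_add, div_le_iff₀ (by positivity)]
      nlinarith [mul_nonneg htau.1 (sub_nonneg.2 hmm)]
    linarith
  have hld : 1 / 2 ≤ Real.log d := by
    have h1 := Real.log_two_gt_d9
    have h2 := Real.log_le_log (by norm_num) hd2
    linarith
  exact arith hd2 hk htau.1 htau.2 hlog hld hdk hC₁ hEM2 hcore

end Pool.Agent.TSPd97
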