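import Pool.Agent.TSPd97.UppD
import Pool.Agent.TSPd97.TreeU2

/-!
MP_076557_pr, package UF: the upper bound.
-/

set_option autoImplicit false

open MeasureTheory Set Filter Topology
open scoped ENNReal

namespace Pool.Agent.TSPd97

namespace UF

lemma rad_tendsto {d : ℕ} (hd : 1 ≤ d) (S : ℝ) :
    Tendsto (fun l : ℝ => rad d (l * vball d) S) atTop (𝓝 0) := by
  unfold rad
  have hv := vball_pos' d
  have h1 : Tendsto (fun l : ℝ => l * vball d) atTop atTop :=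
    tendsto_id.atTop_mul_const hv
  have h2 : Tendsto (fun l : ℝ => S / (l * vball d)) atTop (𝓝 0) :=
    tendsto_const_nhds.div_atTop h1
  have hd0 : (0 : ℝ) < d := by positivity
  have h3 := h2.rpow_const (p := 1 / (d : ℝ)) (Or.inr (by positivity))
  rwa [Real.zero_rpow (by positivity)] at h3

lemma rad_nonneg {d : ℕ} {K S : ℝ} (hK : 0 ≤ K) (hS : 0 ≤ S) : 0 ≤ rad d K S := by
  unfold rad
  exact Real.rpow_nonneg (div_nonneg hS hK) _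

lemma L_eq {d : ℕ} (hd : 1 ≤ d) {l : ℝ} (hl : 0 < l) :
    l ^ (((d : ℝ) - 1) / d) = l ^ (-(1 / (d : ℝ))) * l := by
  have hd0 : (0 : ℝ) < d := by positivity
  have e : ((d : ℝ) - 1) / d = -(1 / (d : ℝ)) + 1 := by
    field_simp
    ring
  rw [e, Real.rpow_add hl, Real.rpow_one]

lemma scale_eq {d : ℕ} (hd : 1 ≤ d) {l : ℝ} (hl : 0 < l) :
    (l * vball d) ^ (-(1 / (d : ℝ))) * l
      = l ^ (((d : ℝ) - 1) / d) * vball d ^ (-(1 / (d : ℝ))) := by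
  have hv := vball_pos' d
  rw [Real.mul_rpow hl.le hv.le, L_eq hd hl]
  ring

lemma kappa_le {d : ℕ} (hL : Large d) {l : ℝ} (hl : 0 < l) :
    (l / (d : ℝ) ^ 2) ^ (-(1 / (d : ℝ))) * l ≤ 4 * l ^ (((d : ℝ) - 1) / d) := by
  have h1 := hL.r1
  have hd : (0 : ℝ) < d := by linarith
  have e : (l / (d : ℝ) ^ 2) ^ (-(1 / (d : ℝ))) * l
      = ((d : ℝ) ^ 2) ^ (1 / (d : ℝ)) * l ^ (((d : ℝ) - 1) / d) := by
    rw [Real.div_rpow hl.le (by positivity), Real.rpow_neg (by positivity : (0 : ℝ) ≤ (d : ℝ) ^ 2)]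
    rw [L_eq (by have := hL.ge; omega) hl]
    have h2 : ((d : ℝ) ^ 2) ^ (1 / (d : ℝ)) ≠ 0 := by positivity
    field_simp
  rw [e]
  exact mul_le_mul_of_nonneg_right hL.S_root (Real.rpow_nonneg hl.le _)

/-- combination of all the estimates, numbers only -/
lemma combine (d L V l u cE ρ C0 C1 C2 C3 A S1 D1 e1 EC E1 X κp κ : ℝ) (hd : 0 < d)
    (hL : 0 ≤ L) (hV : 0 ≤ V) (hu : 0 ≤ u) (hC0 : 0 ≤ C0)
    (hul : u * l = L * V) (hEC : EC ≤ l * (A + S1 * e1))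
    (hA : A ≤ 1 + cE / d - ρ / 2 + C2 / d ^ 2) (hS1 : S1 ≤ 4) (he0 : 0 ≤ e1)
    (he1 : e1 ≤ 1 / d ^ 2) (hE1 : E1 ≤ l * (ρ + 2 * e1)) (hD10 : 0 ≤ D1) (hD12 : D1 ≤ 2)
    (hDρ : (D1 - 1) * ρ ≤ 8 * C1 / d ^ 2) (hX : X ≤ C3 * (l / d ^ 2))
    (hκ : κ = l / d ^ 2) (hκp : 0 ≤ κp) (hκl : κp * l ≤ 4 * L)
    (hs : Real.sqrt d ≤ 10 * V) (hs2 : Real.sqrt d ≤ L * V / d ^ 2) (hC3 : 0 ≤ C3) :
    u * EC + u * D1 * E1 / 2 + C0 * Real.sqrt d * (κp * (κ + X)) + Real.sqrt d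
      ≤ L * V * (1 + cE / d + (C2 + 4 * C1 + 7 + 40 * C0 * (1 + C3)) / d ^ 2) := by
  have hd2 : 0 < d ^ 2 := by positivity
  have a1 : u * EC ≤ L * V * (A + S1 * e1) := by
    rw [← hul, mul_assoc]
    exact mul_le_mul_of_nonneg_left hEC hu
  have a2 : u * D1 * E1 / 2 ≤ L * V * (D1 * (ρ + 2 * e1) / 2) := by
    rw [← hul]
    have := mul_le_mul_of_nonneg_left hE1 (by positivity : 0 ≤ u * D1 / 2)
    linarith
  have hLV : 0 ≤ L * V := mul_nonneg hL hV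
  have a3 : A + S1 * e1 + D1 * (ρ + 2 * e1) / 2 ≤ 1 + cE / d + (C2 + 4 * C1 + 6) / d ^ 2 := by
    have b1 : S1 * e1 ≤ 4 * (1 / d ^ 2) := mul_le_mul hS1 he1 he0 (by norm_num)
    have b2 : D1 * e1 ≤ 2 * (1 / d ^ 2) := mul_le_mul hD12 he1 he0 (by norm_num)
    have b3 : (C2 + 4 * C1 + 6) / d ^ 2 = C2 / d ^ 2 + (8 * C1 / d ^ 2) / 2 + 6 * (1 / d ^ 2) := by
      ring
    rw [b3]
    linarith
  have a4 : C0 * Real.sqrt d * (κp * (κ + X)) ≤ L * V * (40 * C0 * (1 + C3) / d ^ 2) := by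
    have b1 : κ + X ≤ (1 + C3) * (l / d ^ 2) := by
      rw [hκ]; linarith
    have b2 : κp * (κ + X) ≤ (1 + C3) / d ^ 2 * (4 * L) := by
      calc κp * (κ + X) ≤ κp * ((1 + C3) * (l / d ^ 2)) := mul_le_mul_of_nonneg_left b1 hκp
        _ = (1 + C3) / d ^ 2 * (κp * l) := by ring
        _ ≤ (1 + C3) / d ^ 2 * (4 * L) := mul_le_mul_of_nonneg_left hκl (by positivity)
    calc C0 * Real.sqrt d * (κp * (κ + X)) ≤ C0 * Real.sqrt d * ((1 + C3) / d ^ 2 * (4 * L)) :=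
          mul_le_mul_of_nonneg_left b2 (by positivity)
      _ ≤ C0 * (10 * V) * ((1 + C3) / d ^ 2 * (4 * L)) := by
          apply mul_le_mul_of_nonneg_right _ (by positivity)
          exact mul_le_mul_of_nonneg_left hs hC0
      _ = L * V * (40 * C0 * (1 + C3) / d ^ 2) := by ring
  have a5 := mul_le_mul_of_nonneg_left a3 hLV
  have a6 : L * V * (1 + cE / d + (C2 + 4 * C1 + 7 + 40 * C0 * (1 + C3)) / d ^ 2)
      = L * V * (1 + cE / d + (C2 + 4 * C1 + 6) / d ^ 2)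
        + L * V * (40 * C0 * (1 + C3) / d ^ 2) + L * V / d ^ 2 := by ring
  rw [a6]
  linarith

/-- arithmetic for the case of a not too small missing degree -/
lemma caseB_arith (d ρ C1 χ T : ℝ) (hd : 100 ≤ d) (hC1 : 0 < C1) (hC1d : C1 ≤ d)
    (hcase : 1 / d ^ 2 < ρ) (hρ3 : ρ ≤ C1 / (d * Real.sqrt d)) (c1 : 2 ≤ χ)
    (c2 : Real.sqrt d ≤ χ) (c3 : χ ≤ 2 * Real.sqrt d) (hT1 : d ^ 4 / 2 ≤ T) (hT2 : T ≤ d ^ 4) :
    (Real.sqrt (ρ * T / (2 * χ))) ^ 2 = ρ * T / (2 * χ) ∧ 1 ≤ Real.sqrt (ρ * T / (2 * χ)) ∧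
    Real.sqrt (ρ * T / (2 * χ)) ≤ d ^ 2 ∧
    ρ / Real.sqrt (ρ * T / (2 * χ)) ≤ Real.sqrt C1 / d ^ 2 ∧ ρ / χ ≤ C1 / d ^ 2 := by
  have hd0 : 0 < d := by linarith
  have hρp : 0 < ρ := lt_trans (by positivity) hcase
  have hρ0 : 0 ≤ ρ := hρp.le
  have hsq : Real.sqrt d * Real.sqrt d = d := Real.mul_self_sqrt hd0.le
  have hs10 : (10 : ℝ) ≤ Real.sqrt d := by
    rw [Real.le_sqrt (by norm_num) hd0.le]
    linarith
  have hχ0 : 0 < χ := by linarith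
  have hT0 : 0 < T := lt_of_lt_of_le (by positivity) hT1
  have hμ0 : 0 < ρ * T / (2 * χ) := by positivity
  set s : ℝ := Real.sqrt (ρ * T / (2 * χ)) with hs
  have hs2 : s ^ 2 = ρ * T / (2 * χ) := Real.sq_sqrt hμ0.le
  have hμd : ρ * d ^ 3 ≤ s ^ 2 := by
    rw [hs2, le_div_iff₀ (by positivity)]
    have a1 : d ^ 3 * (2 * χ) ≤ T := by
      refine le_trans ?_ hT1
      have a2 : 2 * χ ≤ d / 2 := by nlinarith
      calc d ^ 3 * (2 * χ) ≤ d ^ 3 * (d / 2) := mul_le_mul_of_nonneg_left a2 (by positivity)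
        _ = d ^ 4 / 2 := by ring
    calc ρ * d ^ 3 * (2 * χ) = ρ * (d ^ 3 * (2 * χ)) := by ring
      _ ≤ ρ * T := mul_le_mul_of_nonneg_left a1 hρ0
  have hs0 : 0 ≤ s := Real.sqrt_nonneg _
  have hs1 : 1 ≤ s := by
    have a1 : 1 ≤ s ^ 2 := by
      refine le_trans ?_ hμd
      have a2 : 1 / d ^ 2 * d ^ 3 ≤ ρ * d ^ 3 :=
        mul_le_mul_of_nonneg_right hcase.le (by positivity)
      have a3 : 1 / d ^ 2 * d ^ 3 = d := by field_simp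
      linarith
    by_contra hcon
    push Not at hcon
    nlinarith
  refine ⟨hs2, hs1, ?_, ?_, ?_⟩
  · have a1 : s ^ 2 ≤ (d ^ 2) ^ 2 := by
      rw [hs2, div_le_iff₀ (by positivity)]
      have a2 : ρ ≤ 2 := by
        refine hρ3.trans ?_
        rw [div_le_iff₀ (by positivity)]
        nlinarith
      calc ρ * T ≤ 2 * d ^ 4 := mul_le_mul a2 hT2 hT0.le (by norm_num)
        _ = (d ^ 2) ^ 2 * 2 := by ring
        _ ≤ (d ^ 2) ^ 2 * (2 * χ) := by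
            apply mul_le_mul_of_nonneg_left _ (by positivity)
            linarith
    exact (pow_le_pow_iff_left₀ hs0 (by positivity) (by norm_num)).1 a1
  · have hsp : 0 < s := by linarith
    have a1 : (ρ / s) ^ 2 ≤ (Real.sqrt C1 / d ^ 2) ^ 2 := by
      rw [div_pow, div_pow, Real.sq_sqrt hC1.le]
      rw [div_le_div_iff₀ (by positivity) (by positivity)]
      have a2 : ρ * d ≤ C1 := by
        have := hρ3
        rw [le_div_iff₀ (by positivity)] at this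
        have a3 : ρ * d ≤ ρ * (d * Real.sqrt d) := by
          apply mul_le_mul_of_nonneg_left _ hρ0
          nlinarith
        linarith
      calc ρ ^ 2 * (d ^ 2) ^ 2 = (ρ * d) * (ρ * d ^ 3) := by ring
        _ ≤ C1 * s ^ 2 := mul_le_mul a2 hμd (by positivity) hC1.le
    exact (pow_le_pow_iff_left₀ (by positivity) (by positivity) (by norm_num)).1 a1
  · calc ρ / χ ≤ (C1 / (d * Real.sqrt d)) / Real.sqrt d :=
          div_le_div₀ (by positivity) hρ3 (by positivity) c2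
      _ = C1 / d ^ 2 := by
          rw [div_div, mul_assoc, hsq, sq]

lemma caseB_X (d ρ C1 C3 χ s Δ e1 e2 e3 l EZ X : ℝ) (hd : 100 ≤ d) (hC1 : 0 < C1)
    (hC3 : C3 = C1 + 3 * Real.sqrt C1 + 30) (hl0 : 0 < l)
    (hs1 : 1 ≤ s) (hsd : s ≤ d ^ 2) (hρs : ρ / s ≤ Real.sqrt C1 / d ^ 2)
    (hρχ : ρ / χ ≤ C1 / d ^ 2) (hΔ : Δ = d ^ 4) (he10 : 0 ≤ e1) (he1b : e1 ≤ 1 / d ^ 10)
    (he2b : e2 ≤ 1 / d ^ 10) (he3b : e3 ≤ 1 / d ^ 10) (hEZb : EZ ≤ l / d ^ 2)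
    (hXb : X ≤ l * ((ρ / 2) * (1 / χ + 6 / s) + 1 / d ^ 2
        + (2 * (5 + s) * e1 + 8 * Δ * e2 + 8 * Δ ^ 2 * e3)) + EZ) :
    X ≤ C3 * (l / d ^ 2) := by
  have hd0 : 0 < d := by linarith
  refine hXb.trans ?_
  have a1 : (ρ / 2) * (1 / χ + 6 / s) ≤ (C1 + 3 * Real.sqrt C1) / d ^ 2 := by
    have a3 : (ρ / 2) * (1 / χ + 6 / s) = (ρ / χ) / 2 + 3 * (ρ / s) := by ring
    have a4 : (C1 + 3 * Real.sqrt C1) / d ^ 2
        = C1 / d ^ 2 + 3 * (Real.sqrt C1 / d ^ 2) := by ring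
    have a5 : 0 ≤ C1 / d ^ 2 := by positivity
    rw [a3, a4]
    linarith
  have a6 : 2 * (5 + s) * e1 + 8 * Δ * e2 + 8 * Δ ^ 2 * e3 ≤ 28 / d ^ 2 := by
    have g1 : 2 * (5 + s) * e1 ≤ (12 * d ^ 2) * (1 / d ^ 10) := by
      apply mul_le_mul _ he1b he10 (by positivity)
      nlinarith
    have g2 : 8 * Δ * e2 ≤ 8 * Δ * (1 / d ^ 10) :=
      mul_le_mul_of_nonneg_left he2b (by rw [hΔ]; positivity)
    have g3 : 8 * Δ ^ 2 * e3 ≤ 8 * Δ ^ 2 * (1 / d ^ 10) :=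
      mul_le_mul_of_nonneg_left he3b (by positivity)
    have g4 : (12 * d ^ 2) * (1 / d ^ 10) ≤ 12 / d ^ 2 := by
      rw [mul_one_div, div_le_div_iff₀ (by positivity) (by positivity)]
      have : d ^ 4 ≤ d ^ 10 := pow_le_pow_right₀ (by linarith) (by norm_num)
      nlinarith
    have g5 : 8 * Δ * (1 / d ^ 10) ≤ 8 / d ^ 2 := by
      rw [hΔ, mul_one_div, div_le_div_iff₀ (by positivity) (by positivity)]
      have : d ^ 6 ≤ d ^ 10 := pow_le_pow_right₀ (by linarith) (by norm_num)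
      nlinarith
    have g6 : 8 * Δ ^ 2 * (1 / d ^ 10) = 8 / d ^ 2 := by
      rw [hΔ]
      field_simp
    have g7 : 28 / d ^ 2 = 12 / d ^ 2 + 8 / d ^ 2 + 8 / d ^ 2 := by
      ring
    rw [g7]
    linarith
  have a8 : l * ((ρ / 2) * (1 / χ + 6 / s) + 1 / d ^ 2
      + (2 * (5 + s) * e1 + 8 * Δ * e2 + 8 * Δ ^ 2 * e3))
      ≤ l * ((C1 + 3 * Real.sqrt C1) / d ^ 2 + 1 / d ^ 2 + 28 / d ^ 2) := by
    apply mul_le_mul_of_nonneg_left _ hl0.le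
    linarith
  have a9 : C3 * (l / d ^ 2) = l * ((C1 + 3 * Real.sqrt C1) / d ^ 2
      + 1 / d ^ 2 + 28 / d ^ 2) + l / d ^ 2 := by
    rw [hC3]
    ring
  rw [a9]
  linarith

lemma T_bd (d : ℝ) (hd : 100 ≤ d) : d ^ 4 / 2 ≤ d ^ 4 - d ^ 2 ∧ d ^ 4 - d ^ 2 ≤ d ^ 4 := by
  have h1 : (2 : ℝ) ≤ d ^ 2 := by nlinarith
  have h2 : d ^ 4 = d ^ 2 * d ^ 2 := by ring
  constructor
  · rw [h2]; nlinarith
  · linarith

end UF

open UF in
theorem upper_final : ∃ C : ℝ, ∃ D : ℕ, ∀ d : ℕ, D ≤ d → ∀ᶠ l : ℝ in atTop,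
    poisTSP d l ≤ l ^ (((d : ℝ) - 1) / (d : ℝ)) * vball d ^ (-(1 / (d : ℝ)))
      * (1 + (2 - Real.log 2 - 2 * Real.eulerMascheroniConstant) / d + C / (d : ℝ) ^ 2) := by
  obtain ⟨C0, hC0, HB⟩ := poisTSP_bounds
  obtain ⟨C1, hC1, HM⟩ := tree_missing
  obtain ⟨C2, hC2, HC⟩ := tree_cost
  set cE : ℝ := 2 - Real.log 2 - 2 * Real.eulerMascheroniConstant with hcE
  set C3 : ℝ := C1 + 3 * Real.sqrt C1 + 30 with hC3
  have hC30 : 0 ≤ C3 := by positivity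
  obtain ⟨D, hD⟩ := eventually_atTop.1 (large_eventually.and (sqrt_le_vball.and
    ((tendsto_natCast_atTop_atTop (R := ℝ)).eventually_ge_atTop C1)))
  refine ⟨C2 + 4 * C1 + 7 + 40 * C0 * (1 + C3), D, fun d hdD => ?_⟩
  obtain ⟨hL, hVs, hC1d⟩ := hD d hdD
  have hr := hL.r1
  have hd0 : (0 : ℝ) < d := by linarith
  have hd2 : 2 ≤ d := by have := hL.ge; omega
  have hd1 : 1 ≤ d := by omega
  obtain ⟨p, hpk, hpB⟩ := exists_par (kk d) hL.k8 (d : ℝ) (by exact_mod_cast hL.kd)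
  set h : ℕ := 2 * kk d + 1 with hh
  set ρ : ℝ := 2 - ∫ ξ, ∫ ξ', mthr p ξ ξ' ∂(nb p h) ∂(nb p h) with hρ
  have hm := HM p h (by rw [hpk]; omega)
  have hρ0 : 0 ≤ ρ := by rw [hρ]; linarith [hm.1]
  have hρ2 : ρ ≤ C1 / (kk d : ℝ) ^ 2 := by rw [hρ, ← hpk]; linarith [hm.2]
  have hsq : Real.sqrt d * Real.sqrt d = d := Real.mul_self_sqrt hd0.le
  have hs10 : (10 : ℝ) ≤ Real.sqrt d := by
    rw [Real.le_sqrt (by norm_num) hd0.le]
    linarith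
  have hρ3 : ρ ≤ C1 / (d * Real.sqrt d) := by
    refine hρ2.trans ?_
    apply div_le_div_of_nonneg_left hC1.le (by positivity)
    rw [← hL.rpow_three_half]
    exact hL.ksq
  have hcost := HC p h d (by rw [hpk]; omega) hd2 (by rw [hpB]; exact hL.two_log)
    (by rw [hpk]; exact hL.dlog)
  rw [← hρ] at hcost
  set A : ℝ := (1 / 2) * ∫ ξ, ∫ ξ', (mthr p ξ ξ') ^ (1 + 1 / (d : ℝ)) / (1 + 1 / (d : ℝ))
        ∂(nb p h) ∂(nb p h) with hA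
  set V : ℝ := vball d ^ (-(1 / (d : ℝ))) with hV
  have hv := vball_pos' d
  have hV0 : 0 < V := Real.rpow_pos_of_pos hv _
  set Δ : ℝ := (d : ℝ) ^ 4 with hΔ
  have hΔ0 : 0 < Δ := by positivity
  obtain ⟨hD1, hD1b, hD12⟩ := hL.Δ_root
  rw [← hΔ] at hD1 hD1b hD12
  have hB2 : p.B ^ 2 = (d : ℝ) ^ 2 := by rw [hpB]
  have hBΔ : p.B ^ 2 ≤ Δ := by
    rw [hB2, hΔ]
    exact pow_le_pow_right₀ (by linarith) (by norm_num)
  have hΔB : Δ ≤ 2 ^ d * p.B ^ 2 := by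
    rw [hB2, hΔ]
    calc (d : ℝ) ^ 4 = (d : ℝ) ^ 2 * (d : ℝ) ^ 2 := by ring
      _ ≤ 2 ^ d * (d : ℝ) ^ 2 := mul_le_mul_of_nonneg_right hL.two_pow (by positivity)
  -- large intensity
  have ev1 : ∀ᶠ l : ℝ in atTop, 2 * d * (((h : ℝ) + 1) * rad d (l * vball d) (p.B ^ 2)
      + rad d (l * vball d) Δ) ≤ 1 / (2 * (d : ℝ) ^ 10) := by
    have t1 := (rad_tendsto hd1 (p.B ^ 2)).const_mul ((h : ℝ) + 1)
    have t2 := (t1.add (rad_tendsto hd1 Δ)).const_mul (2 * (d : ℝ))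
    simp only [mul_zero, add_zero] at t2
    have hpos : (0 : ℝ) < 1 / (2 * (d : ℝ) ^ 10) := by positivity
    exact (t2.eventually (gt_mem_nhds hpos)).mono (fun l hl => le_of_lt hl)
  have ev2 : ∀ᶠ l : ℝ in atTop, Real.sqrt d * (d : ℝ) ^ 2 / V ≤ l ^ (((d : ℝ) - 1) / d) := by
    have hexp : (0 : ℝ) < ((d : ℝ) - 1) / d := by
      apply div_pos <;> linarith
    exact (tendsto_rpow_atTop hexp).eventually_ge_atTop _
  filter_upwards [ev1, ev2, eventually_gt_atTop 0] with l hl1 hl2 hl0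
  set L : ℝ := l ^ (((d : ℝ) - 1) / d) with hLdef
  have hL0 : 0 < L := Real.rpow_pos_of_pos hl0 _
  have hK : 0 < l * vball d := by positivity
  have hKv : l * vball d / vball d = l := by field_simp
  set u : ℝ := (l * vball d) ^ (-(1 / (d : ℝ))) with hu
  have hu0 : 0 < u := Real.rpow_pos_of_pos hK _
  have hul : u * l = L * V := scale_eq hd1 hl0
  have hrad1 : 0 ≤ rad d (l * vball d) (p.B ^ 2) := rad_nonneg hK.le (by positivity)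
  have hrad2 : 0 ≤ rad d (l * vball d) Δ := rad_nonneg hK.le hΔ0.le
  obtain ⟨-, -, -, -, b1, b2, b3, b4⟩ := upper_moments p hd2 hK hBΔ hΔB h (by rw [hpk]) ρ _ _ _
    hρ rfl rfl rfl
  rw [hKv] at b1 b2 b3 b4
  rw [← hA] at b4
  set E1 := ∫ P, N1f p (d := d) (l * vball d) h P ∂(PP (lam d (l * vball d))) with hE1
  set E2 := ∫ P, N2f p (d := d) (l * vball d) Δ h P ∂(PP (lam d (l * vball d))) with hE2
  set E3 := ∫ P, N3f p (d := d) (l * vball d) Δ h P ∂(PP (lam d (l * vball d))) with hE3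
  set EC := ∫ P, Cf p (d := d) (l * vball d) h P ∂(PP (lam d (l * vball d))) with hEC
  set e1 := 4 * eerr d (p.B ^ 2) h + 2 * d * ((h + 1) * rad d (l * vball d) (p.B ^ 2)) with he1
  set e2 := 9 * eerr d (p.B ^ 2) h
      + 2 * d * ((h + 1) * rad d (l * vball d) (p.B ^ 2) + rad d (l * vball d) Δ) with he2
  set e3 := 17 * eerr d (p.B ^ 2) h
      + 2 * d * ((h + 1) * rad d (l * vball d) (p.B ^ 2) + rad d (l * vball d) Δ) with he3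
  have herr0 : 0 ≤ eerr d (p.B ^ 2) h := by unfold eerr; positivity
  have herr : eerr d (p.B ^ 2) h ≤ 1 / (34 * (d : ℝ) ^ 10) := by
    rw [hB2]; exact hL.eerr_le
  have hq : (0 : ℝ) < (d : ℝ) ^ 10 := by positivity
  have herr' : eerr d (p.B ^ 2) h ≤ (1 / 34) * (1 / (d : ℝ) ^ 10) := by
    refine herr.trans (le_of_eq ?_)
    field_simp
  have hl1' : 2 * d * (((h : ℝ) + 1) * rad d (l * vball d) (p.B ^ 2)
      + rad d (l * vball d) Δ) ≤ (1 / 2) * (1 / (d : ℝ) ^ 10) := by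
    refine hl1.trans (le_of_eq ?_)
    field_simp
  have hr1 : 0 ≤ 2 * (d : ℝ) * (((h : ℝ) + 1) * rad d (l * vball d) (p.B ^ 2)) := by positivity
  have hr2 : 0 ≤ 2 * (d : ℝ) * rad d (l * vball d) Δ := by positivity
  have he10 : 0 ≤ e1 := by rw [he1]; positivity
  have he20 : 0 ≤ e2 := by rw [he2]; positivity
  have he30 : 0 ≤ e3 := by rw [he3]; positivity
  have hq0 : 0 < 1 / (d : ℝ) ^ 10 := by positivity
  have he1b : e1 ≤ 1 / (d : ℝ) ^ 10 := by rw [he1]; linarith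
  have he2b : e2 ≤ 1 / (d : ℝ) ^ 10 := by rw [he2]; linarith
  have he3b : e3 ≤ 1 / (d : ℝ) ^ 10 := by rw [he3]; linarith
  have hd10 : 1 / (d : ℝ) ^ 10 ≤ 1 / (d : ℝ) ^ 2 := by
    apply one_div_le_one_div_of_le (by positivity)
    exact pow_le_pow_right₀ (by linarith) (by norm_num)
  obtain ⟨c1, c2, c3⟩ := hL.chi_bd
  set χ : ℕ := ⌈Real.sqrt d⌉₊ with hχ
  set EZ : ℝ := l * ((15 / 16 : ℝ) ^ ((d : ℝ) / 2) * (2 * ((d ^ 2 : ℕ) : ℝ) + 2)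
    * (p.B ^ 2 + 2 * h + 4) ^ (2 * h + 4)) with hEZ
  have hEZb : EZ ≤ l / (d : ℝ) ^ 2 := by
    rw [hEZ, hB2]
    have := mul_le_mul_of_nonneg_left hL.cyc_le hl0.le
    rw [mul_one_div] at this
    exact this
  have hmc : 1 ≤ d ^ 2 := Nat.one_le_pow _ _ (by omega)
  have hmcr : l / ((d ^ 2 : ℕ) : ℝ) = l / (d : ℝ) ^ 2 := by push_cast; rfl
  have hκ0 : 0 < l / (d : ℝ) ^ 2 := by positivity
  have hκp0 : 0 ≤ (l / (d : ℝ) ^ 2) ^ (-(1 / (d : ℝ))) := Real.rpow_nonneg hκ0.le _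
  have hκl := kappa_le hL hl0
  rw [← hLdef] at hκl
  have hS10 : 0 ≤ (p.B ^ 2) ^ (1 / (d : ℝ)) := Real.rpow_nonneg (by positivity) _
  have hS1 : (p.B ^ 2) ^ (1 / (d : ℝ)) ≤ 4 := by rw [hB2]; exact hL.S_root
  have hDρ : (Δ ^ (1 / (d : ℝ)) - 1) * ρ ≤ 8 * C1 / (d : ℝ) ^ 2 := by
    have a1 : Δ ^ (1 / (d : ℝ)) - 1 ≤ 8 * Real.sqrt d / d := by linarith
    calc (Δ ^ (1 / (d : ℝ)) - 1) * ρ ≤ (8 * Real.sqrt d / d) * (C1 / (d * Real.sqrt d)) :=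
          mul_le_mul a1 hρ3 hρ0 (by positivity)
      _ = 8 * C1 / (d : ℝ) ^ 2 := by
          field_simp
  have hsL : Real.sqrt d ≤ L * V / (d : ℝ) ^ 2 := by
    rw [le_div_iff₀ (by positivity)]
    rwa [div_le_iff₀ hV0] at hl2
  by_cases hcase : ρ ≤ 1 / (d : ℝ) ^ 2
  · -- Case A
    have main := (HB p d hd2 l hl0 Δ hBΔ hΔB h (by rw [hpk]) χ c1 1 one_pos (d ^ 2) hmc
      (l / (d : ℝ) ^ 2) hκ0 E1 E2 E3 EC EZ hE1 hE2 hE3 hEC hEZ).2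
    rw [← hu, hmcr] at main
    have hX : E1 / 2 + EZ + l / (d : ℝ) ^ 2 ≤ C3 * (l / (d : ℝ) ^ 2) := by
      have a1 : E1 ≤ 3 * (l / (d : ℝ) ^ 2) := by
        refine b1.trans ?_
        calc l * (ρ + 2 * e1) ≤ l * (1 / (d : ℝ) ^ 2 + 2 * (1 / (d : ℝ) ^ 2)) := by
              apply mul_le_mul_of_nonneg_left _ hl0.le
              linarith
          _ = 3 * (l / (d : ℝ) ^ 2) := by ring
      have a2 : 30 * (l / (d : ℝ) ^ 2) ≤ C3 * (l / (d : ℝ) ^ 2) := by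
        apply mul_le_mul_of_nonneg_right _ hκ0.le
        rw [hC3]
        have := Real.sqrt_nonneg C1
        linarith
      linarith
    refine main.trans ?_
    have comb := combine d L V l u cE ρ C0 C1 C2 C3 A ((p.B ^ 2) ^ (1 / (d : ℝ))) 0 e1 EC E1
      (E1 / 2 + EZ + l / (d : ℝ) ^ 2) ((l / (d : ℝ) ^ 2) ^ (-(1 / (d : ℝ)))) (l / (d : ℝ) ^ 2)
      hd0 hL0.le hV0.le hu0.le hC0.le hul b4 hcost hS1 he10 (he1b.trans hd10) b1 le_rfl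
      (by norm_num) (by
        have : (0 - 1) * ρ ≤ 0 := by linarith
        exact this.trans (by positivity)) hX rfl hκp0 hκl hVs hsL hC30
    simp only [mul_zero, zero_mul, zero_div, add_zero] at comb
    exact comb
  · -- Case B
    push Not at hcase
    have hρp : 0 < ρ := lt_trans (by positivity) hcase
    have hTe : Δ - p.B ^ 2 = (d : ℝ) ^ 4 - (d : ℝ) ^ 2 := by rw [hΔ, hB2]
    obtain ⟨hT1, hT2⟩ := T_bd d hr
    rw [hTe] at b2 b3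
    obtain ⟨hs2, hs1, hsd, hρs, hρχ⟩ := caseB_arith d ρ C1 χ ((d : ℝ) ^ 4 - (d : ℝ) ^ 2) hr hC1
      hC1d hcase hρ3 (by exact_mod_cast c1) c2 c3 hT1 hT2
    set s : ℝ := Real.sqrt (ρ * ((d : ℝ) ^ 4 - (d : ℝ) ^ 2) / (2 * χ)) with hs
    have main := (HB p d hd2 l hl0 Δ hBΔ hΔB h (by rw [hpk]) χ c1 s (lt_of_lt_of_le one_pos hs1)
      (d ^ 2) hmc (l / (d : ℝ) ^ 2) hκ0 E1 E2 E3 EC EZ hE1 hE2 hE3 hEC hEZ).1
    rw [← hu] at main
    have hXb := EX_bound χ c1 s ρ ((d : ℝ) ^ 4 - (d : ℝ) ^ 2) Δ hs1 hρp hΔ0.le hs2 (d ^ 2) l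
      e1 e2 e3 E1 E2 E3 EZ hl0.le he10 he20 he30 b1 b2 b3
    have a7 : 1 / ((d ^ 2 : ℕ) : ℝ) = 1 / (d : ℝ) ^ 2 := by push_cast; rfl
    rw [a7] at hXb
    have hX := caseB_X d ρ C1 C3 χ s Δ e1 e2 e3 l EZ _ hr hC1 hC3 hl0 hs1 hsd hρs hρχ hΔ he10
      he1b he2b he3b hEZb hXb
    refine main.trans ?_
    exact combine d L V l u cE ρ C0 C1 C2 C3 A ((p.B ^ 2) ^ (1 / (d : ℝ))) (Δ ^ (1 / (d : ℝ)))
      e1 EC E1 (Xlin χ (s ^ 2) s (d ^ 2) E1 E2 E3 EZ l) ((l / (d : ℝ) ^ 2) ^ (-(1 / (d : ℝ))))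
      (l / (d : ℝ) ^ 2)
      hd0 hL0.le hV0.le hu0.le hC0.le hul b4 hcost hS1 he10 (he1b.trans hd10) b1
      (zero_le_one.trans hD1) hD12 hDρ hX rfl hκp0 hκl hVs hsL hC30

end Pool.Agent.TSPd97
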