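import Pool.Agent.TSPd97.Defs

/-!
Package T1 of MP_076557_pr (helper84): the asymptotics of `v_d^{-1/d}` with relative error
`O(d^{-2})`.
-/

set_option autoImplicit false

open MeasureTheory ProbabilityTheory Filter Topology

namespace Pool.Agent.TSPd97

namespace T1

open Real Nat in
theorem log_fact_upper (n : ℕ) (hn : 1 ≤ n) :
    Real.log (n ! : ℝ) ≤ n * Real.log n - n + Real.log n / 2 + Real.log (2 * π) / 2
      + 1 / (12 * n) := by
  have hn0 : (0 : ℝ) < n := by exact_mod_cast hn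
  -- monotone sequence
  set h : ℕ → ℝ := fun k => Real.log (Stirling.stirlingSeq (k + 1)) - 1 / (12 * ((k : ℝ) + 1))
    with hh
  have hmono : Monotone h := by
    refine monotone_nat_of_le_succ fun k => ?_
    have h1 := Stirling.log_stirlingSeq_sdiff_le (k + 1)
    have hk : (0 : ℝ) < (k : ℝ) + 1 := by positivity
    have h2 : (1 : ℝ) / (12 * ((k + 1 : ℕ) : ℝ) * (((k + 1 : ℕ) : ℝ) + 1))
        = 1 / (12 * ((k : ℝ) + 1)) - 1 / (12 * (((k + 1 : ℕ) : ℝ) + 1)) := by
      push_cast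
      field_simp
      ring
    rw [h2] at h1
    simp only [hh]
    linarith
  have hlim : Tendsto h atTop (𝓝 (Real.log (Real.sqrt π))) := by
    have h1 : Tendsto (fun k : ℕ => Real.log (Stirling.stirlingSeq (k + 1))) atTop
        (𝓝 (Real.log (Real.sqrt π))) := by
      have := Stirling.tendsto_stirlingSeq_sqrt_pi.comp (tendsto_add_atTop_nat 1)
      exact ((Real.continuousAt_log (by positivity)).tendsto).comp this
    have h2 : Tendsto (fun k : ℕ => (1 : ℝ) / (12 * ((k : ℝ) + 1))) atTop (𝓝 0) := by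
      have := (tendsto_one_div_add_atTop_nhds_zero_nat (𝕜 := ℝ)).const_mul (1 / 12 : ℝ)
      rw [mul_zero] at this
      refine this.congr fun k => ?_
      have hk : (0 : ℝ) < (k : ℝ) + 1 := by positivity
      field_simp
    have := h1.sub h2
    rw [sub_zero] at this
    exact this
  obtain ⟨m, rfl⟩ : ∃ m, n = m + 1 := ⟨n - 1, by omega⟩
  have h3 : h m ≤ Real.log (Real.sqrt π) := hmono.ge_of_tendsto hlim m
  simp only [hh] at h3
  rw [Stirling.log_stirlingSeq_formula] at h3
  have hm0 : (0 : ℝ) < ((m + 1 : ℕ) : ℝ) := hn0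
  rw [Real.log_div hm0.ne' (Real.exp_pos 1).ne', Real.log_exp,
    Real.log_mul two_ne_zero hm0.ne', Real.log_sqrt Real.pi_pos.le] at h3
  rw [Real.log_mul two_ne_zero Real.pi_pos.ne']
  have h4 : (12 : ℝ) * ((m : ℝ) + 1) = 12 * ((m + 1 : ℕ) : ℝ) := by push_cast; ring
  rw [h4] at h3
  nlinarith [h3]

/-- Stirling for `Γ(d/2+1)` with error `O(1/d)`. -/
theorem log_gamma_half (d : ℕ) (hd : 2 ≤ d) :
    |Real.log (Real.Gamma ((d : ℝ) / 2 + 1)) -
      ((d : ℝ) / 2 * Real.log ((d : ℝ) / 2) - (d : ℝ) / 2 + Real.log (Real.pi * d) / 2)|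
      ≤ 4 / d := by
  have hd0 : (2 : ℝ) ≤ d := by exact_mod_cast hd
  have hdpos : (0 : ℝ) < d := by linarith
  rcases Nat.even_or_odd' d with ⟨k, hk | hk⟩
  · -- even
    have hk1 : 1 ≤ k := by omega
    have hk0 : (0 : ℝ) < k := by exact_mod_cast hk1
    have hdk : (d : ℝ) = 2 * k := by rw [hk]; push_cast; ring
    have e1 : (d : ℝ) / 2 = k := by rw [hdk]; ring
    rw [e1, Real.Gamma_nat_eq_factorial]
    have h1 := log_fact_upper k hk1
    have h2 := Stirling.le_log_factorial_stirling (n := k) (by omega)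
    have e2 : Real.log (Real.pi * d) = Real.log (2 * Real.pi) + Real.log k := by
      rw [hdk, ← Real.log_mul (by positivity) hk0.ne']
      congr 1
      ring
    rw [e2, abs_le]
    have h3 : (1 : ℝ) / (12 * k) ≤ 4 / d := by
      rw [hdk, div_le_div_iff₀ (by positivity) (by positivity)]
      nlinarith
    have h4 : (0 : ℝ) ≤ 4 / d := by positivity
    constructor
    · linarith
    · linarith
  · -- odd
    have hk1 : 1 ≤ k := by omega
    have hk0 : (0 : ℝ) < k := by exact_mod_cast hk1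
    have hk1' : (1 : ℝ) ≤ k := by exact_mod_cast hk1
    have hdk : (d : ℝ) = 2 * k + 1 := by rw [hk]; push_cast; ring
    have e1 : (d : ℝ) / 2 = k + 1 / 2 := by rw [hdk]; ring
    rw [e1]
    have hconv := Real.convexOn_log_Gamma
    have hG1 : Real.Gamma ((k : ℝ) + 1) = (k.factorial : ℝ) := Real.Gamma_nat_eq_factorial k
    have hG2 : Real.Gamma ((k : ℝ) + 1 + 1) = ((k : ℝ) + 1) * (k.factorial : ℝ) := by
      rw [Real.Gamma_add_one (by positivity), hG1]
    have hG3 : Real.Gamma ((k : ℝ) + 1 / 2 + 1 + 1)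
        = ((k : ℝ) + 1 / 2 + 1) * Real.Gamma ((k : ℝ) + 1 / 2 + 1) :=
      Real.Gamma_add_one (by positivity)
    have hGpos : 0 < Real.Gamma ((k : ℝ) + 1 / 2 + 1) := Real.Gamma_pos_of_pos (by positivity)
    have hfpos : (0 : ℝ) < (k.factorial : ℝ) := by exact_mod_cast Nat.factorial_pos k
    -- upper bound
    have hup : Real.log (Real.Gamma ((k : ℝ) + 1 / 2 + 1))
        ≤ Real.log (k.factorial : ℝ) + Real.log ((k : ℝ) + 1) / 2 := by
      have m1 : (k : ℝ) + 1 ∈ Set.Ioi (0 : ℝ) := Set.mem_Ioi.2 (by positivity)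
      have m2 : (k : ℝ) + 1 + 1 ∈ Set.Ioi (0 : ℝ) := Set.mem_Ioi.2 (by positivity)
      have := hconv.2 m1 m2 (by norm_num : (0 : ℝ) ≤ 1 / 2) (by norm_num : (0 : ℝ) ≤ 1 / 2)
        (by norm_num)
      simp only [smul_eq_mul, Function.comp_apply] at this
      rw [show (1 : ℝ) / 2 * ((k : ℝ) + 1) + 1 / 2 * ((k : ℝ) + 1 + 1) = (k : ℝ) + 1 / 2 + 1 by ring,
        hG1, hG2, Real.log_mul (by positivity) hfpos.ne'] at this
      linarith
    have hlow : Real.log (k.factorial : ℝ) + Real.log ((k : ℝ) + 1)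
        - Real.log ((k : ℝ) + 1 / 2 + 1) / 2 ≤ Real.log (Real.Gamma ((k : ℝ) + 1 / 2 + 1)) := by
      have m1 : (k : ℝ) + 1 / 2 + 1 ∈ Set.Ioi (0 : ℝ) := Set.mem_Ioi.2 (by positivity)
      have m2 : (k : ℝ) + 1 / 2 + 1 + 1 ∈ Set.Ioi (0 : ℝ) := Set.mem_Ioi.2 (by positivity)
      have := hconv.2 m1 m2 (by norm_num : (0 : ℝ) ≤ 1 / 2) (by norm_num : (0 : ℝ) ≤ 1 / 2)
        (by norm_num)
      simp only [smul_eq_mul, Function.comp_apply] at this
      rw [show (1 : ℝ) / 2 * ((k : ℝ) + 1 / 2 + 1) + 1 / 2 * ((k : ℝ) + 1 / 2 + 1 + 1)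
          = (k : ℝ) + 1 + 1 by ring,
        hG2, hG3, Real.log_mul (by positivity) hfpos.ne',
        Real.log_mul (by positivity) hGpos.ne'] at this
      linarith
    have h1 := log_fact_upper k hk1
    have h2 := Stirling.le_log_factorial_stirling (n := k) (by omega)
    have e2 : Real.log (Real.pi * d)
        = Real.log (2 * Real.pi) + Real.log ((k : ℝ) + 1 / 2) := by
      rw [hdk, ← Real.log_mul (by positivity) (by positivity)]
      congr 1
      ring
    rw [e2]
    -- elementary logarithm bounds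
    have key : ∀ a b : ℝ, 0 < a → 0 < b → Real.log a - Real.log b ≤ (a - b) / b := by
      intro a b ha hb
      rw [← Real.log_div ha.ne' hb.ne']
      have := Real.log_le_sub_one_of_pos (div_pos ha hb)
      have e : a / b - 1 = (a - b) / b := by field_simp
      linarith
    have k0 : (0 : ℝ) < (k : ℝ) + 1 / 2 := by positivity
    have k1 : (0 : ℝ) < (k : ℝ) + 1 := by positivity
    have k2 : (0 : ℝ) < (k : ℝ) + 1 / 2 + 1 := by positivity
    have a1 := key ((k : ℝ) + 1 / 2) k k0 hk0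
    have a2 := key k ((k : ℝ) + 1 / 2) hk0 k0
    have a3 := key ((k : ℝ) + 1) ((k : ℝ) + 1 / 2) k1 k0
    have a4 := key ((k : ℝ) + 1 / 2) ((k : ℝ) + 1) k0 k1
    have a5 := key ((k : ℝ) + 1 / 2 + 1) ((k : ℝ) + 1) k2 k1
    -- multiplied forms
    have b1 : ((k : ℝ) + 1 / 2) * (Real.log ((k : ℝ) + 1 / 2) - Real.log k)
        ≤ 1 / 2 + 1 / (4 * k) := by
      have := mul_le_mul_of_nonneg_left a1 k0.le
      have e : ((k : ℝ) + 1 / 2) * (((k : ℝ) + 1 / 2 - k) / k) = 1 / 2 + 1 / (4 * k) := by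
        field_simp
        ring
      linarith
    have b2 : 1 / 2 ≤ ((k : ℝ) + 1 / 2) * (Real.log ((k : ℝ) + 1 / 2) - Real.log k) := by
      have := mul_le_mul_of_nonneg_left a2 k0.le
      have e : ((k : ℝ) + 1 / 2) * ((k - ((k : ℝ) + 1 / 2)) / ((k : ℝ) + 1 / 2)) = -(1 / 2) := by
        field_simp
        ring
      linarith
    have c3 : ((k : ℝ) + 1 - ((k : ℝ) + 1 / 2)) / ((k : ℝ) + 1 / 2) = 1 / d := by
      rw [hdk]
      field_simp
      ring
    have c4 : ((k : ℝ) + 1 / 2 - ((k : ℝ) + 1)) / ((k : ℝ) + 1) ≤ 0 := by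
      apply div_nonpos_of_nonpos_of_nonneg _ k1.le
      linarith
    have c5 : ((k : ℝ) + 1 / 2 + 1 - ((k : ℝ) + 1)) / ((k : ℝ) + 1) ≤ 1 / d := by
      rw [hdk, div_le_div_iff₀ k1 (by positivity)]
      nlinarith
    have c6 : (1 : ℝ) / (4 * k) ≤ (3 / 4) * (1 / d) := by
      rw [hdk, ← mul_div_assoc, div_le_div_iff₀ (by positivity) (by positivity)]
      nlinarith
    have c7 : (1 : ℝ) / (12 * k) ≤ (1 / 4) * (1 / d) := by
      rw [hdk, ← mul_div_assoc, div_le_div_iff₀ (by positivity) (by positivity)]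
      nlinarith
    have c8 : (4 : ℝ) / d = 4 * (1 / d) := by ring
    have c9 : (0 : ℝ) < 1 / d := by positivity
    rw [c3] at a3
    rw [c8, abs_le]
    generalize (1 : ℝ) / d = δ at *
    generalize Real.log (Real.Gamma ((k : ℝ) + 1 / 2 + 1)) = LG at *
    generalize Real.log (k.factorial : ℝ) = LF at *
    generalize Real.log ((k : ℝ) + 1 / 2 + 1) = L2 at *
    generalize Real.log ((k : ℝ) + 1 / 2) = L0 at *
    generalize Real.log ((k : ℝ) + 1) = L1 at *
    generalize Real.log (k : ℝ) = LK at *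
    generalize Real.log (2 * Real.pi) = LP at *
    have d4 := a4.trans c4
    have d5 := a5.trans c5
    constructor
    · nlinarith
    · nlinarith

theorem vball_pos (d : ℕ) : 0 < vball d := by
  unfold vball
  apply ENNReal.toReal_pos
  · exact (Metric.measure_ball_pos _ _ one_pos).ne'
  · exact measure_ball_lt_top.ne

theorem vball_eq (d : ℕ) (hd : 1 ≤ d) :
    vball d = Real.sqrt Real.pi ^ d / Real.Gamma ((d : ℝ) / 2 + 1) := by
  have : Nonempty (Fin d) := ⟨⟨0, hd⟩⟩
  unfold vball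
  rw [EuclideanSpace.volume_ball]
  simp only [ENNReal.ofReal_one, one_pow, one_mul, Fintype.card_fin]
  rw [ENNReal.toReal_ofReal]
  have := Real.Gamma_pos_of_pos (s := (d : ℝ) / 2 + 1) (by positivity)
  positivity

end T1

/-- PACKAGE T1: `v_d^{-1/d} = pref d (1 + O(d^{-2}))` (Stirling). -/
theorem vball_asymp : ∃ C : ℝ, ∃ D : ℕ, ∀ d : ℕ, D ≤ d →
    |vball d ^ (-(1 / (d : ℝ))) - pref d| ≤ C * pref d / (d : ℝ) ^ 2 := by
  refine ⟨8, 2, fun d hd => ?_⟩
  have hd0 : (2 : ℝ) ≤ d := by exact_mod_cast hd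
  have hdpos : (0 : ℝ) < d := by linarith
  have hG : 0 < Real.Gamma ((d : ℝ) / 2 + 1) := Real.Gamma_pos_of_pos (by positivity)
  have hpi := Real.pi_pos
  have hprefpos : 0 < pref d := by
    unfold pref
    have := Real.exp_pos 1
    positivity
  have hvpos := T1.vball_pos d
  -- logarithms
  have hlogv : Real.log (vball d) = (d : ℝ) * (Real.log Real.pi / 2)
      - Real.log (Real.Gamma ((d : ℝ) / 2 + 1)) := by
    rw [T1.vball_eq d (by omega), Real.log_div (by positivity) hG.ne', Real.log_pow,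
      Real.log_sqrt hpi.le]
  have hlogp : Real.log (pref d) = (Real.log d - Real.log 2 - Real.log Real.pi - 1) / 2
      + 1 / (2 * (d : ℝ)) * Real.log (Real.pi * d) := by
    unfold pref
    rw [Real.log_mul (by have := Real.exp_pos 1; positivity) (by positivity),
      Real.log_rpow (by positivity), Real.log_sqrt (by have := Real.exp_pos 1; positivity),
      Real.log_div hdpos.ne' (by have := Real.exp_pos 1; positivity),
      Real.log_mul (by positivity) (Real.exp_pos 1).ne',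
      Real.log_mul two_ne_zero hpi.ne', Real.log_exp]
    ring
  have hst := T1.log_gamma_half d hd
  set δ : ℝ := -(1 / (d : ℝ)) * Real.log (vball d) - Real.log (pref d) with hδ
  have hδle : |δ| ≤ 4 / (d : ℝ) ^ 2 := by
    have e : δ = (1 / (d : ℝ)) * (Real.log (Real.Gamma ((d : ℝ) / 2 + 1)) -
      ((d : ℝ) / 2 * Real.log ((d : ℝ) / 2) - (d : ℝ) / 2 + Real.log (Real.pi * d) / 2)) := by
      rw [hδ, hlogv, hlogp, Real.log_div hdpos.ne' two_ne_zero]
      field_simp
      ring
    rw [e, abs_mul, abs_of_pos (by positivity : (0 : ℝ) < 1 / d)]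
    calc 1 / (d : ℝ) * _ ≤ 1 / (d : ℝ) * (4 / d) :=
          mul_le_mul_of_nonneg_left hst (by positivity)
      _ = 4 / (d : ℝ) ^ 2 := by field_simp
  have hδ1 : |δ| ≤ 1 := by
    refine hδle.trans ?_
    rw [div_le_one (by positivity)]
    nlinarith
  have hexp : vball d ^ (-(1 / (d : ℝ))) = pref d * Real.exp δ := by
    rw [Real.rpow_def_of_pos hvpos, hδ, Real.exp_sub, Real.exp_log hprefpos]
    rw [mul_comm (Real.log (vball d))]
    field_simp
  rw [hexp]
  have hb := Real.abs_exp_sub_one_le hδ1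
  calc |pref d * Real.exp δ - pref d| = pref d * |Real.exp δ - 1| := by
        rw [← abs_of_pos hprefpos, ← abs_mul, abs_of_pos hprefpos]
        congr 1
        ring
    _ ≤ pref d * (2 * |δ|) := mul_le_mul_of_nonneg_left hb hprefpos.le
    _ ≤ pref d * (2 * (4 / (d : ℝ) ^ 2)) := by
        apply mul_le_mul_of_nonneg_left _ hprefpos.le
        linarith
    _ = 8 * pref d / (d : ℝ) ^ 2 := by ring

end Pool.Agent.TSPd97
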