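import Pool.Agent.TSPd97.EucDefs

/-!
Work package G2 for MP_076557_pr (helper97), by helper68: restrictions of a Poisson process to
almost disjoint sets.
-/

set_option autoImplicit false

open MeasureTheory Set
open scoped ENNReal

namespace Pool.Agent.TSPd97

/-- comparison of two integrals of `[0,1]`-valued functions which agree off a set -/
lemma lintegral_le_add_of_eq_off {Ω : Type*} [MeasurableSpace Ω] (μ : Measure Ω)
    {F₁ F₂ : Ω → ℝ≥0∞} (h₂ : Measurable F₂) (h1 : ∀ ω, F₁ ω ≤ 1) (N : Set Ω)
    (h : ∀ᵐ ω ∂μ, ω ∉ N → F₁ ω = F₂ ω) :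
    ∫⁻ ω, F₁ ω ∂μ ≤ ∫⁻ ω, F₂ ω ∂μ + μ N := by
  classical
  calc ∫⁻ ω, F₁ ω ∂μ ≤ ∫⁻ ω, (F₂ ω + N.indicator (fun _ => (1 : ℝ≥0∞)) ω) ∂μ := by
        refine lintegral_mono_ae ?_
        filter_upwards [h] with ω hω
        by_cases hN : ω ∈ N
        · rw [indicator_of_mem hN]
          exact (h1 ω).trans le_add_self
        · rw [hω hN]
          exact le_self_add
    _ = ∫⁻ ω, F₂ ω ∂μ + ∫⁻ ω, N.indicator (fun _ => (1 : ℝ≥0∞)) ω ∂μ := lintegral_add_left h₂ _
    _ ≤ ∫⁻ ω, F₂ ω ∂μ + μ N := by
        gcongr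
        exact lintegral_indicator_one_le N

/-- The restrictions of a Poisson process with intensity `ν.restrict A` to the sets `B i` are,
up to the measure of the overlaps, independent Poisson processes with intensities `ν.restrict (B i)`. -/
theorem couple_family {E : Type*} [MeasurableSpace E] (ν : Measure E) [IsFiniteMeasure ν] {q : ℕ}
    (A : Set E) (hA : MeasurableSet A) (B : Fin q → Set E) (hB : ∀ i, MeasurableSet (B i))
    (G : (Fin q → Multiset E) → ℝ≥0∞) (hG : Measurable G) (hG1 : ∀ s, G s ≤ 1) :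
    ∫⁻ s, G (fun i => restr (B i) s) ∂(PP (ν.restrict A))
      ≤ ∫⁻ ζ, G ζ ∂(Measure.pi fun i => PP (ν.restrict (B i)))
        + (∑ i, ν (B i \ A) + 2 * ∑ i, ∑ j, (if i = j then 0 else ν (B i ∩ B j))) := by
  classical
  set S : ℝ≥0∞ := ∑ i, ∑ j, (if i = j then 0 else ν (B i ∩ B j)) with hS
  -- the disjoint pieces
  let O : Fin q → Set E := fun i => ⋃ j : Fin q, if i = j then ∅ else B j
  have hOm : ∀ i, MeasurableSet (O i) := fun i => by
    refine MeasurableSet.iUnion fun j => ?_
    split_ifs
    · exact MeasurableSet.empty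
    · exact hB j
  let C : Fin q → Set E := fun i => (B i ∩ A) \ O i
  have hC : ∀ i, MeasurableSet (C i) := fun i => ((hB i).inter hA).diff (hOm i)
  have hCd : Pairwise (Function.onFun Disjoint C) := by
    intro i j hij
    rw [Function.onFun, Set.disjoint_left]
    rintro x ⟨⟨-, -⟩, hx2⟩ ⟨⟨hx3, -⟩, -⟩
    apply hx2
    refine mem_iUnion.2 ⟨j, ?_⟩
    rw [if_neg hij]
    exact hx3
  have hCA : ∀ i, C i ⊆ A := fun i x hx => hx.1.2
  have hCB : ∀ i, C i ⊆ B i := fun i x hx => hx.1.1
  have hrm : ∀ (D : Fin q → Set E), (∀ i, MeasurableSet (D i)) →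
      Measurable fun (s : Multiset E) (i : Fin q) => restr (D i) s := fun D hD =>
    measurable_pi_lambda _ (fun i => measurable_restr_const (hD i) measurable_id)
  -- overlaps
  let N : Set E := ⋃ i : Fin q, B i ∩ O i
  have hNm : MeasurableSet N := MeasurableSet.iUnion fun i => (hB i).inter (hOm i)
  have hBO : ∀ i, ν (B i ∩ O i) ≤ ∑ j, (if i = j then 0 else ν (B i ∩ B j)) := by
    intro i
    have h1 : B i ∩ O i ⊆ ⋃ j : Fin q, (if i = j then ∅ else B i ∩ B j) := by
      rintro x ⟨hx, hx2⟩
      obtain ⟨j, hj⟩ := mem_iUnion.1 hx2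
      refine mem_iUnion.2 ⟨j, ?_⟩
      split_ifs at hj ⊢ with h
      · exact hj
      · exact ⟨hx, hj⟩
    refine (measure_mono h1).trans ((measure_iUnion_fintype_le ν _).trans ?_)
    refine Finset.sum_le_sum fun j _ => ?_
    split_ifs
    · simp
    · exact le_rfl
  have hνN : ν N ≤ S := by
    refine (measure_iUnion_fintype_le ν _).trans ?_
    exact Finset.sum_le_sum fun i _ => hBO i
  -- step 1
  have s1 : ∫⁻ s, G (fun i => restr (B i) s) ∂(PP (ν.restrict A))
      ≤ ∫⁻ s, G (fun i => restr (C i) s) ∂(PP (ν.restrict A)) + S := by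
    have hae : ∀ᵐ s ∂(PP (ν.restrict A)), ∀ a ∈ s, a ∈ A :=
      ae_PP_forall _ hA (by rw [Measure.restrict_apply hA.compl]; simp)
    refine (lintegral_le_add_of_eq_off (PP (ν.restrict A))
      (F₁ := fun s => G (fun i => restr (B i) s)) (F₂ := fun s => G (fun i => restr (C i) s))
      (hG.comp (hrm C hC)) (fun s => hG1 _) {s | restr N s ≠ 0} ?_).trans ?_
    · filter_upwards [hae] with s hs hsN
      have hsN' : restr N s = 0 := by simpa using hsN
      rw [restr_eq_zero] at hsN'
      congr 1
      funext i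
      refine restr_congr fun a ha => ⟨fun h => ⟨⟨h, hs a ha⟩, fun hO => ?_⟩, fun h => hCB i h⟩
      exact hsN' a ha (mem_iUnion.2 ⟨i, h, hO⟩)
    · gcongr
      refine (PP_hit (ν.restrict A) hNm).trans ?_
      exact (Measure.restrict_apply_le _ _).trans hνN
  -- step 2
  have s2 : ∫⁻ s, G (fun i => restr (C i) s) ∂(PP (ν.restrict A))
      = ∫⁻ ζ, G (fun i => restr (C i) (ζ i)) ∂(Measure.pi fun i => PP (ν.restrict (B i))) := by
    have h1 := PP_family (ν.restrict A) C hC hCd
    have h2 : ∀ i, (ν.restrict A).restrict (C i) = ν.restrict (C i) := fun i => by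
      rw [Measure.restrict_restrict (hC i), inter_eq_left.2 (hCA i)]
    have h3 : ∀ i, (ν.restrict (B i)).restrict (C i) = ν.restrict (C i) := fun i => by
      rw [Measure.restrict_restrict (hC i), inter_eq_left.2 (hCB i)]
    simp_rw [h2] at h1
    have h4 : (Measure.pi fun i => PP (ν.restrict (B i))).map
        (fun (ζ : Fin q → Multiset E) (i : Fin q) => restr (C i) (ζ i))
        = Measure.pi fun i => PP (ν.restrict (C i)) := by
      have hmi : ∀ i, Measurable (restr (C i) : Multiset E → Multiset E) := fun i =>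
        measurable_restr_const (hC i) measurable_id
      rw [Measure.pi_map_pi (f := fun i => (restr (C i) : Multiset E → Multiset E))
        (fun i => (hmi i).aemeasurable)]
      congr 1
      funext i
      have := PP_restr (ν.restrict (B i)) (hC i)
      rw [h3] at this
      exact this
    have hm : Measurable (fun (ζ : Fin q → Multiset E) (i : Fin q) => restr (C i) (ζ i)) :=
      measurable_pi_lambda _ fun i => measurable_restr_const (hC i) (measurable_pi_apply i)
    rw [← lintegral_map hG (hrm C hC), h1, ← h4, lintegral_map hG hm]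
  -- step 3
  have s3 : ∫⁻ ζ, G (fun i => restr (C i) (ζ i)) ∂(Measure.pi fun i => PP (ν.restrict (B i)))
      ≤ ∫⁻ ζ, G ζ ∂(Measure.pi fun i => PP (ν.restrict (B i))) + (∑ i, ν (B i \ A) + S) := by
    refine (lintegral_le_add_of_eq_off _
      (F₁ := fun ζ : Fin q → Multiset E => G (fun i => restr (C i) (ζ i))) (F₂ := G) hG
      (fun _ => hG1 _) (⋃ i : Fin q, {ζ | restr (C i)ᶜ (ζ i) ≠ 0}) ?_).trans ?_
    · refine Filter.Eventually.of_forall fun ζ hζ => ?_
      congr 1
      funext i
      refine restr_eq_self fun a ha => ?_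
      by_contra hc
      apply hζ
      refine mem_iUnion.2 ⟨i, fun h0 => ?_⟩
      rw [restr_eq_zero] at h0
      exact h0 a ha hc
    · gcongr
      refine (measure_iUnion_fintype_le _ _).trans ?_
      rw [hS, ← Finset.sum_add_distrib]
      refine Finset.sum_le_sum fun i _ => ?_
      have h1 : (Measure.pi fun i => PP (ν.restrict (B i))) {ζ | restr (C i)ᶜ (ζ i) ≠ 0}
          = PP (ν.restrict (B i)) {s | restr (C i)ᶜ s ≠ 0} := by
        have hset : MeasurableSet {s : Multiset E | restr (C i)ᶜ s ≠ 0} := by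
          have : {s : Multiset E | restr (C i)ᶜ s ≠ 0}
              = {s | Multiset.card (restr (C i)ᶜ s) ≠ 0} := by
            ext s; simp
          rw [this]
          exact (measurable_mcard (measurable_restr_const (hC i).compl measurable_id))
            (measurableSet_singleton 0).compl
        have h2 := (measurePreserving_eval (fun i => PP (ν.restrict (B i))) i).measure_preimage
          hset.nullMeasurableSet
        exact h2
      rw [h1]
      refine (PP_hit (ν.restrict (B i)) (hC i).compl).trans ?_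
      rw [Measure.restrict_apply (hC i).compl]
      have h3 : (C i)ᶜ ∩ B i ⊆ (B i \ A) ∪ (B i ∩ O i) := by
        rintro x ⟨hx, hxB⟩
        by_cases hxA : x ∈ A
        · right
          refine ⟨hxB, ?_⟩
          by_contra hxO
          exact hx ⟨⟨hxB, hxA⟩, hxO⟩
        · left
          exact ⟨hxB, hxA⟩
      refine (measure_mono h3).trans ((measure_union_le _ _).trans ?_)
      gcongr
      exact hBO i
  calc ∫⁻ s, G (fun i => restr (B i) s) ∂(PP (ν.restrict A))
      ≤ ∫⁻ ζ, G ζ ∂(Measure.pi fun i => PP (ν.restrict (B i))) + (∑ i, ν (B i \ A) + S) + S := by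
        refine s1.trans ?_
        rw [s2]
        gcongr
    _ = ∫⁻ ζ, G ζ ∂(Measure.pi fun i => PP (ν.restrict (B i)))
        + (∑ i, ν (B i \ A) + 2 * S) := by
        rw [two_mul, add_assoc, add_assoc]

end Pool.Agent.TSPd97
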