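import Pool.Agent.TSPd97.CycleB

/-!
MP_076557_pr, package CY, part 3: short cycles of the selected graph are rare.
-/

set_option autoImplicit false

open MeasureTheory Set
open scoped ENNReal

namespace Pool.Agent.TSPd97

namespace CY

variable {d : ℕ} {K S : ℝ}

lemma card_restr_toFinset {E : Type*} [DecidableEq E] {η : Multiset E} (hη : η.Nodup)
    (A : Set E) [DecidablePred (· ∈ A)] :
    Multiset.card (restr A η) = (η.toFinset.filter (· ∈ A)).card := by
  have h1 : restr A η = η.filter (· ∈ A) := by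
    unfold restr
    congr
  rw [h1, ← Multiset.toFinset_filter, Multiset.toFinset_card_of_nodup (hη.filter _)]

open Classical in
/-- indicator of reachability -/
noncomputable def FRi (p : Par) (K : ℝ) (h m : ℕ) (η : Multiset (Vd d)) (x y : Vd d) : ℝ≥0∞ :=
  if FR (FE p K h η) {z | z ∈ η} m x y then 1 else 0

lemma sum_FRi {p : Par} {h m : ℕ} (η : Multiset (Vd d)) (x : Vd d) (t : Multiset (Vd d)) :
    (t.map fun y => FRi p K h m η x y).sum =
      (Multiset.card (restr {y | FR (FE p K h η) {z | z ∈ η} m x y} t) : ℝ≥0∞) := by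
  rw [← sum_map_indicator_one]
  congr 1

lemma sum_FRi_le (p : Par) (hd : 1 ≤ d) (hK : 0 < K) (h : ℕ) (hh : 2 * p.k + 1 ≤ h) (m : ℕ)
    {η : Multiset (Vd d)} (hη : η.Nodup) {x : Vd d} (hx : x ∈ η) :
    (η.map fun y => FRi p K h m η x y).sum ≤ 2 * (m : ℝ≥0∞) + 1 := by
  classical
  rw [sum_FRi]
  have hdeg : ∀ x ∈ η.toFinset, (η.toFinset.filter (FE p K h η x)).card ≤ 2 := by
    intro x _
    have h1 := FE_degree p hd hK h hh η hη x
    rw [card_restr_toFinset hη] at h1
    exact h1
  have h2 := (ball_card η.toFinset (FE p K h η) (FE_symm p K h η) hdeg x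
    (Multiset.mem_toFinset.2 hx) m).1
  rw [card_restr_toFinset hη]
  have h3 : (η.toFinset : Set (Vd d)) = {z | z ∈ η} := by
    ext z; simp
  rw [h3] at h2
  have h4 : (η.toFinset.filter (· ∈ {y | FR (FE p K h η) {z | z ∈ η} m x y})).card ≤ 2 * m + 1 := by
    refine le_trans (le_of_eq ?_) h2
    congr 1
  exact_mod_cast h4

lemma FRi_comm (p : Par) (h m : ℕ) {η : Multiset (Vd d)} {x y : Vd d} (hx : x ∈ η) (hy : y ∈ η) :
    FRi p K h m η x y = FRi p K h m η y x := by
  unfold FRi
  by_cases h1 : FR (FE p K h η) {z | z ∈ η} m x y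
  · rw [if_pos h1, if_pos (FR_symm (FE_symm p K h η) hy h1)]
  · rw [if_neg h1, if_neg fun h2 => h1 (FR_symm (FE_symm p K h η) hx h2)]

/-- number of connections -/
noncomputable def Con (p : Par) (K : ℝ) (h m : ℕ) (η : Multiset (Vd d)) (a b : Vd d) : ℝ≥0∞ :=
  (η.map fun x => Tn K (p.B ^ 2) η (h + 1) (dl a) x *
    (η.map fun y => FRi p K h m η x y * Tn K (p.B ^ 2) η (h + 1) (dl b) y).sum).sum

lemma con_ge (p : Par) (h m : ℕ) {η : Multiset (Vd d)} {a b : Vd d} (hc : Conn p K h m η a b) :
    1 ≤ Con p K h m η a b := by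
  obtain ⟨x, hx, y, hy, h1, h2, h3⟩ := hc
  unfold Con
  refine le_trans ?_ (single_le_sum (f := fun x => Tn K (p.B ^ 2) η (h + 1) (dl a) x *
    (η.map fun y => FRi p K h m η x y * Tn K (p.B ^ 2) η (h + 1) (dl b) y).sum) hx)
  have e1 := GW_le h1
  have e2 : 1 ≤ (η.map fun y => FRi p K h m η x y * Tn K (p.B ^ 2) η (h + 1) (dl b) y).sum := by
    refine le_trans ?_ (single_le_sum (f := fun y => FRi p K h m η x y *
      Tn K (p.B ^ 2) η (h + 1) (dl b) y) hy)
    have e3 : FRi p K h m η x y = 1 := by unfold FRi; rw [if_pos h2]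
    simp only [e3, one_mul]
    exact GW_le h3
  calc (1 : ℝ≥0∞) = 1 * 1 := (one_mul 1).symm
    _ ≤ _ := mul_le_mul' e1 e2

lemma mul_le_sq_add (a b : ℝ≥0∞) : a * b ≤ a * a + b * b := by
  rcases le_total a b with h | h
  · exact (mul_le_mul' h le_rfl).trans le_add_self
  · exact (mul_le_mul' le_rfl h).trans le_self_add

/-- total number of connections -/
theorem con_sum (p : Par) (hd : 1 ≤ d) (hK : 0 < K) (h : ℕ) (hh : 2 * p.k + 1 ≤ h) (m : ℕ)
    {η : Multiset (Vd d)} (hη : η.Nodup) :
    (η.map fun a => (η.map fun b => Con p K h m η a b).sum).sum ≤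
      2 * (2 * (m : ℝ≥0∞) + 1) *
        (η.map fun x => Tn K (p.B ^ 2) η ((h + 1) + (h + 1)) (fun _ => 1) x).sum := by
  set n := h + 1 with hn
  set S := p.B ^ 2 with hS
  set W : Vd d → ℝ≥0∞ := Tn K S η n (fun _ => 1) with hW
  set F : Vd d → Vd d → ℝ≥0∞ := FRi p K h m η with hF
  have hdlW : ∀ y ∈ η, (η.map fun b => Tn K S η n (dl b) y).sum ≤ W y := by
    intro y hy
    rw [← Tn_sum]
    exact Tn_mono (fun z _ => sum_dl_le hη z) n y hy
  -- sum over b
  have h1 : ∀ a, (η.map fun b => Con p K h m η a b).sum ≤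
      (η.map fun x => Tn K S η n (dl a) x * (η.map fun y => F x y * W y).sum).sum := by
    intro a
    unfold Con
    rw [Multiset.sum_map_sum_map]
    refine sum_map_mono fun x _ => ?_
    rw [Multiset.sum_map_mul_left]
    refine mul_le_mul' le_rfl ?_
    rw [Multiset.sum_map_sum_map]
    refine sum_map_mono fun y hy => ?_
    rw [Multiset.sum_map_mul_left]
    exact mul_le_mul' le_rfl (hdlW y hy)
  have h2 : (η.map fun a => (η.map fun b => Con p K h m η a b).sum).sum ≤
      (η.map fun x => (η.map fun y => F x y * (W x * W y)).sum).sum := by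
    refine (sum_map_mono fun a _ => h1 a).trans ?_
    rw [Multiset.sum_map_sum_map]
    refine sum_map_mono fun x hx => ?_
    rw [Multiset.sum_map_mul_right]
    refine (mul_le_mul' (hdlW x hx) le_rfl).trans ?_
    rw [← Multiset.sum_map_mul_left]
    refine sum_map_mono fun y _ => le_of_eq ?_
    ring
  have h3 : (η.map fun x => (η.map fun y => F x y * (W x * W y)).sum).sum ≤
      (η.map fun x => (η.map fun y => F x y * (W x * W x)).sum).sum +
      (η.map fun x => (η.map fun y => F x y * (W y * W y)).sum).sum := by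
    rw [← Multiset.sum_map_add]
    refine sum_map_mono fun x _ => ?_
    rw [← Multiset.sum_map_add]
    refine sum_map_mono fun y _ => ?_
    rw [← mul_add]
    exact mul_le_mul' le_rfl (mul_le_sq_add _ _)
  have h4 : (η.map fun x => (η.map fun y => F x y * (W x * W x)).sum).sum ≤
      (2 * (m : ℝ≥0∞) + 1) * (η.map fun x => W x * W x).sum := by
    rw [← Multiset.sum_map_mul_left]
    refine sum_map_mono fun x hx => ?_
    rw [Multiset.sum_map_mul_right]
    exact mul_le_mul' (sum_FRi_le p hd hK h hh m hη hx) le_rfl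
  have h5 : (η.map fun x => (η.map fun y => F x y * (W y * W y)).sum).sum ≤
      (2 * (m : ℝ≥0∞) + 1) * (η.map fun x => W x * W x).sum := by
    rw [Multiset.sum_map_sum_map]
    rw [← Multiset.sum_map_mul_left]
    refine sum_map_mono fun y hy => ?_
    rw [Multiset.sum_map_mul_right]
    refine mul_le_mul' ?_ le_rfl
    refine le_trans (le_of_eq ?_) (sum_FRi_le p hd hK h hh m hη hy)
    congr 1
    refine Multiset.map_congr rfl fun x hx => ?_
    exact FRi_comm p h m hx hy
  have h6 : (η.map fun x => W x * W x).sum =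
      (η.map fun x => Tn K S η (n + n) (fun _ => 1) x).sum := Tn_sq η n
  refine h2.trans (h3.trans ((add_le_add h4 h5).trans (le_of_eq ?_)))
  rw [h6]
  ring

/-! ### measurability -/

section meas

variable {T : Type*} [MeasurableSpace T]

lemma measurableSet_eq_pt {f g : T → Vd d} (hf : Measurable f) (hg : Measurable g) :
    MeasurableSet {t | f t = g t} := measurableSet_eq_fun hf hg

lemma measurableSet_FR (p : Par) (h m : ℕ) :
    MeasurableSet {t : Multiset (Vd d) × Vd d × Vd d |
      FR (FE p K h t.1) {z | z ∈ t.1} m t.2.1 t.2.2} := by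
  induction m with
  | zero =>
    exact measurableSet_eq_pt (measurable_fst.comp measurable_snd)
      (measurable_snd.comp measurable_snd)
  | succ m ih =>
    have hE := measurableSet_FE p (d := d) K h
    have h1 : {t : Multiset (Vd d) × Vd d × Vd d |
        FR (FE p K h t.1) {z | z ∈ t.1} (m + 1) t.2.1 t.2.2} =
        {t | FR (FE p K h t.1) {z | z ∈ t.1} m t.2.1 t.2.2} ∪
        {t | Multiset.card (restr {z | FR (FE p K h t.1) {z | z ∈ t.1} m t.2.1 z ∧
          FE p K h t.1 z t.2.2} t.1) ≠ 0} := by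
      ext t
      simp only [mem_ofPred_eq, mem_union, FR]
      refine or_congr Iff.rfl ?_
      rw [← pos_iff_ne_zero, Multiset.card_pos_iff_exists_mem]
      constructor
      · rintro ⟨z, hz, h1, h2⟩
        exact ⟨z, mem_restr.2 ⟨hz, h1, h2⟩⟩
      · rintro ⟨z, hz⟩
        rw [mem_restr] at hz
        exact ⟨z, hz.1, hz.2.1, hz.2.2⟩
    rw [h1]
    refine ih.union ?_
    have h2 : Measurable fun t : Multiset (Vd d) × Vd d × Vd d =>
        Multiset.card (restr {z | FR (FE p K h t.1) {z | z ∈ t.1} m t.2.1 z ∧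
          FE p K h t.1 z t.2.2} t.1) := by
      refine measurable_mcard (measurable_restr (A := fun t : Multiset (Vd d) × Vd d × Vd d =>
        {z | FR (FE p K h t.1) {z | z ∈ t.1} m t.2.1 z ∧ FE p K h t.1 z t.2.2}) ?_ measurable_fst)
      have a1 : Measurable fun q : (Multiset (Vd d) × Vd d × Vd d) × Vd d =>
          (q.1.1, q.1.2.1, q.2) :=
        (measurable_fst.comp measurable_fst).prodMk
          ((measurable_fst.comp (measurable_snd.comp measurable_fst)).prodMk measurable_snd)
      have a2 : Measurable fun q : (Multiset (Vd d) × Vd d × Vd d) × Vd d =>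
          (q.1.1, q.2, q.1.2.2) :=
        (measurable_fst.comp measurable_fst).prodMk
          (measurable_snd.prodMk (measurable_snd.comp (measurable_snd.comp measurable_fst)))
      exact (a1 ih).inter (a2 hE)
    exact h2 (measurableSet_singleton 0).compl

lemma measurable_FRi (p : Par) (h m : ℕ) {η : T → Multiset (Vd d)} (hη : Measurable η)
    {f g : T → Vd d} (hf : Measurable f) (hg : Measurable g) :
    Measurable fun t => FRi p K h m (η t) (f t) (g t) := by
  unfold FRi
  refine Measurable.ite ?_ measurable_const measurable_const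
  exact (hη.prodMk (hf.prodMk hg)) (measurableSet_FR (K := K) p h m)

lemma measurable_Tn' {η : T → Multiset (Vd d)} (hη : Measurable η) {f : T → Vd d → ℝ≥0∞}
    (hf : Measurable fun p : T × Vd d => f p.1 p.2) (n : ℕ) {g : T → Vd d} (hg : Measurable g) :
    Measurable fun t => Tn K S (η t) n (f t) (g t) :=
  (measurable_Tn (K := K) (S := S) hη hf n).comp (measurable_id.prodMk hg)

lemma measurable_Con (p : Par) (h m : ℕ) {η : T → Multiset (Vd d)} (hη : Measurable η)
    {f g : T → Vd d} (hf : Measurable f) (hg : Measurable g) :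
    Measurable fun t => Con p K h m (η t) (f t) (g t) := by
  unfold Con
  refine measurable_msum (f := fun t x => Tn K (p.B ^ 2) (η t) (h + 1) (dl (f t)) x *
    ((η t).map fun y => FRi p K h m (η t) x y *
      Tn K (p.B ^ 2) (η t) (h + 1) (dl (g t)) y).sum) ?_ hη
  refine Measurable.mul ?_ ?_
  · exact measurable_Tn' (f := fun q : T × Vd d => dl (f q.1)) (hη.comp measurable_fst)
      (measurable_dl ((hf.comp measurable_fst).comp measurable_fst) measurable_snd) (h + 1)
      measurable_snd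
  · refine measurable_msum (f := fun (t : T × Vd d) y => FRi p K h m (η t.1) t.2 y *
      Tn K (p.B ^ 2) (η t.1) (h + 1) (dl (g t.1)) y) ?_ (hη.comp measurable_fst)
    refine Measurable.mul ?_ ?_
    · exact measurable_FRi p h m (hη.comp (measurable_fst.comp measurable_fst))
        (measurable_snd.comp measurable_fst) measurable_snd
    · exact measurable_Tn' (f := fun q : (T × Vd d) × Vd d => dl (g q.1.1))
        (hη.comp (measurable_fst.comp measurable_fst))
        (measurable_dl ((hg.comp (measurable_fst.comp measurable_fst)).comp measurable_fst)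
          measurable_snd) (h + 1) measurable_snd

end meas

/-! ### almost surely simple -/

lemma ae_notMem (hd : 1 ≤ d) (K : ℝ) (a : Vd d) : ∀ᵐ s ∂(PP (lam d K)), a ∉ s := by
  have h1 := PP_hit (lam d K) (measurableSet_singleton a)
  rw [lam_singleton hd K a] at h1
  have h2 : PP (lam d K) {s | restr {a} s ≠ 0} = 0 := le_antisymm h1 zero_le
  rw [ae_iff]
  refine measure_mono_null ?_ h2
  intro s hs
  simp only [mem_ofPred_eq, not_not] at hs ⊢
  intro h0
  exact restr_eq_zero.1 h0 a hs rfl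

lemma ae_nodup' (hd : 1 ≤ d) (K : ℝ) : ∀ᵐ P ∂(PP (lam d K)), P.Nodup := by
  classical
  have hm : Measurable fun q : Vd d × Multiset (Vd d) =>
      Multiset.card (restr {q.1} q.2) := by
    refine measurable_mcard (measurable_restr (A := fun q : Vd d × Multiset (Vd d) => {q.1}) ?_
      measurable_snd)
    exact measurableSet_eq_fun measurable_snd (measurable_fst.comp measurable_fst)
  have hG : Measurable fun q : Vd d × Multiset (Vd d) =>
      if 2 ≤ Multiset.card (restr {q.1} q.2) then (1 : ℝ≥0∞) else 0 :=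
    Measurable.ite (hm measurableSet_Ici) measurable_const measurable_const
  have h1 := PP_mecke (lam d K) (G := fun a s =>
    if 2 ≤ Multiset.card (restr {a} s) then (1 : ℝ≥0∞) else 0) hG
  have h2 : ∫⁻ a, ∫⁻ s, (if 2 ≤ Multiset.card (restr {a} (a ::ₘ s)) then (1 : ℝ≥0∞) else 0)
      ∂(PP (lam d K)) ∂(lam d K) = 0 := by
    have h3 : ∀ a : Vd d, ∫⁻ s, (if 2 ≤ Multiset.card (restr {a} (a ::ₘ s)) then (1 : ℝ≥0∞) else 0)
        ∂(PP (lam d K)) = 0 := by
      intro a
      have h4 : ∀ᵐ s ∂(PP (lam d K)),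
          (if 2 ≤ Multiset.card (restr {a} (a ::ₘ s)) then (1 : ℝ≥0∞) else 0) = 0 := by
        filter_upwards [ae_notMem hd K a] with s hs
        rw [if_neg]
        rw [restr_cons_mem _ (mem_singleton a), Multiset.card_cons]
        have : restr {a} s = 0 := restr_eq_zero.2 fun b hb hba => hs (by
          rw [mem_singleton_iff] at hba; rwa [hba] at hb)
        rw [this]
        simp
      rw [lintegral_congr_ae h4]
      simp
    simp [h3]
  rw [h2] at h1
  have hm2 : Measurable fun s : Multiset (Vd d) => (s.map fun a =>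
      if 2 ≤ Multiset.card (restr {a} s) then (1 : ℝ≥0∞) else 0).sum :=
    measurable_msum (f := fun s a => if 2 ≤ Multiset.card (restr {a} s) then (1 : ℝ≥0∞) else 0)
      (hG.comp measurable_swap) measurable_id
  rw [lintegral_eq_zero_iff hm2] at h1
  filter_upwards [h1] with s hs
  rw [Multiset.nodup_iff_count_le_one]
  intro a
  by_contra hcon
  have ha : a ∈ s := Multiset.count_pos.1 (by omega)
  have h5 : (if 2 ≤ Multiset.card (restr {a} s) then (1 : ℝ≥0∞) else 0) ≤ 0 := by
    have := single_le_sum (f := fun a =>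
      if 2 ≤ Multiset.card (restr {a} s) then (1 : ℝ≥0∞) else 0) ha
    exact this.trans (le_of_eq hs)
  have h6 : Multiset.card (restr {a} s) = s.count a := by
    rw [Multiset.count_eq_card_filter_eq]
    unfold restr
    have h7 : (fun b => b ∈ ({a} : Set (Vd d))) = (fun b => a = b) := by
      funext b
      rw [mem_singleton_iff]
      exact propext eq_comm
    simp only [h7]
  rw [if_pos (by rw [h6]; omega)] at h5
  exact absurd h5 (by simp)

/-! ### the counting functional -/

open Classical in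
/-- the weight of a pair -/
noncomputable def Cn (p : Par) (K : ℝ) (h m : ℕ) (η : Multiset (Vd d)) (a b : Vd d) : ℝ≥0∞ :=
  if a = b then 0 else if dist a b ≤ rad d K (p.B ^ 2) / 2 then 1 else Con p K h m η a b

/-- pairs of connected neighbours of `w` -/
noncomputable def fw (p : Par) (K : ℝ) (h m : ℕ) (w : Vd d) (η : Multiset (Vd d)) : ℝ≥0∞ :=
  (η.map fun a => (η.map fun b =>
    Cn p K h m η a b * (G1 K (p.B ^ 2) a w * G1 K (p.B ^ 2) b w)).sum).sum

lemma fw_ge (p : Par) (hd : 1 ≤ d) (h m : ℕ) (η : Multiset (Vd d)) (w : Vd d) (hw : w ∉ η)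
    (hc : ShortCyc p K h m (w ::ₘ η) w) : 1 ≤ fw p K h m w η := by
  obtain ⟨a, ha, b, hb, hab, hwa, hwb, hcon⟩ := shortCyc_conn p hd h m η w hw hc
  unfold fw
  refine le_trans ?_ (single_le_sum (f := fun a => (η.map fun b =>
    Cn p K h m η a b * (G1 K (p.B ^ 2) a w * G1 K (p.B ^ 2) b w)).sum) ha)
  refine le_trans ?_ (single_le_sum (f := fun b =>
    Cn p K h m η a b * (G1 K (p.B ^ 2) a w * G1 K (p.B ^ 2) b w)) hb)
  have e1 : G1 K (p.B ^ 2) a w = 1 := by unfold G1; rw [if_pos (Nb_subset_Bs _ hwa)]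
  have e2 : G1 K (p.B ^ 2) b w = 1 := by unfold G1; rw [if_pos (Nb_subset_Bs _ hwb)]
  simp only [e1, e2, mul_one]
  unfold Cn
  rw [if_neg hab]
  split_ifs
  · exact le_rfl
  · exact con_ge p h m hcon

section meas2

variable {T : Type*} [MeasurableSpace T]

lemma measurable_Cn (p : Par) (h m : ℕ) {η : T → Multiset (Vd d)} (hη : Measurable η)
    {f g : T → Vd d} (hf : Measurable f) (hg : Measurable g) :
    Measurable fun t => Cn p K h m (η t) (f t) (g t) := by
  unfold Cn
  refine Measurable.ite (measurableSet_eq_fun hf hg) measurable_const ?_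
  refine Measurable.ite ?_ measurable_const (measurable_Con p h m hη hf hg)
  exact (hf.dist hg) measurableSet_Iic

lemma measurable_fw (p : Par) (h m : ℕ) {η : T → Multiset (Vd d)} (hη : Measurable η)
    {w : T → Vd d} (hw : Measurable w) :
    Measurable fun t => fw p K h m (w t) (η t) := by
  unfold fw
  refine measurable_msum (f := fun t a => ((η t).map fun b =>
    Cn p K h m (η t) a b * (G1 K (p.B ^ 2) a (w t) * G1 K (p.B ^ 2) b (w t))).sum) ?_ hη
  refine measurable_msum (f := fun (t : T × Vd d) b =>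
    Cn p K h m (η t.1) t.2 b * (G1 K (p.B ^ 2) t.2 (w t.1) * G1 K (p.B ^ 2) b (w t.1))) ?_
    (hη.comp measurable_fst)
  refine Measurable.mul ?_ (Measurable.mul ?_ ?_)
  · exact measurable_Cn p h m (hη.comp (measurable_fst.comp measurable_fst))
      (measurable_snd.comp measurable_fst) measurable_snd
  · exact measurable_G1 (measurable_snd.comp measurable_fst)
      (hw.comp (measurable_fst.comp measurable_fst))
  · exact measurable_G1 measurable_snd (hw.comp (measurable_fst.comp measurable_fst))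

end meas2

/-- interchange of a finite sum and an integral -/
lemma lintegral_msum {E F : Type*} [MeasurableSpace E] (ν : Measure E) (η : Multiset F)
    (f : F → E → ℝ≥0∞) (hf : ∀ a, Measurable (f a)) :
    ∫⁻ w, (η.map fun a => f a w).sum ∂ν = (η.map fun a => ∫⁻ w, f a w ∂ν).sum := by
  induction η using Multiset.induction_on with
  | empty => simp
  | cons a η ih =>
    simp only [Multiset.map_cons, Multiset.sum_cons]
    rw [lintegral_add_left (hf a), ih]

lemma measurable_msum_const {E F : Type*} [MeasurableSpace E] (η : Multiset F)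
    (f : F → E → ℝ≥0∞) (hf : ∀ a, Measurable (f a)) :
    Measurable fun w => (η.map fun a => f a w).sum := by
  induction η using Multiset.induction_on with
  | empty => simp
  | cons a η ih =>
    simp only [Multiset.map_cons, Multiset.sum_cons]
    exact (hf a).add ih

lemma lint_G1 (a b : Vd d) : ∫⁻ w, G1 K S a w * G1 K S b w ∂(lam d K) =
    lam d K (Bs K S a ∩ Bs K S b) := by
  have h1 : ∀ w, G1 K S a w * G1 K S b w = (Bs K S a ∩ Bs K S b).indicator 1 w := by
    intro w
    unfold G1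
    by_cases h1 : w ∈ Bs K S a
    · by_cases h2 : w ∈ Bs K S b
      · rw [if_pos h1, if_pos h2,
          indicator_of_mem (show w ∈ Bs K S a ∩ Bs K S b from ⟨h1, h2⟩)]
        simp
      · rw [if_pos h1, if_neg h2, indicator_of_notMem fun h => h2 h.2]; simp
    · rw [if_neg h1, indicator_of_notMem fun h => h1 h.1]; simp
  simp only [h1]
  exact lintegral_indicator_one ((measurableSet_Bs K S a).inter (measurableSet_Bs K S b))

open Classical in
/-- close pairs -/
noncomputable def Hc (K S : ℝ) (a b : Vd d) : ℝ≥0∞ :=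
  if a = b then 0 else if dist a b ≤ rad d K S / 2 then 1 else 0

/-- integrating out `w` -/
lemma lint_fw (p : Par) (hd : 1 ≤ d) (hK : 0 < K) (h m : ℕ) (η : Multiset (Vd d)) :
    ∫⁻ w, fw p K h m w η ∂(lam d K) ≤
      ENNReal.ofReal (p.B ^ 2) * (η.map fun a => (η.map fun b => Hc K (p.B ^ 2) a b).sum).sum +
      ENNReal.ofReal (p.B ^ 2 * (15 / 16 : ℝ) ^ ((d : ℝ) / 2)) *
        (η.map fun a => (η.map fun b => Con p K h m η a b).sum).sum := by
  have hS : 0 ≤ p.B ^ 2 := sq_nonneg _
  unfold fw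
  have hm1 : ∀ a b : Vd d, Measurable fun w =>
      Cn p K h m η a b * (G1 K (p.B ^ 2) a w * G1 K (p.B ^ 2) b w) := fun a b =>
    measurable_const.mul ((measurable_G1 measurable_const measurable_id).mul
      (measurable_G1 measurable_const measurable_id))
  rw [lintegral_msum _ _ _ fun a => measurable_msum_const _ _ fun b => hm1 a b]
  simp only [lintegral_msum _ _ _ fun b => hm1 _ b]
  rw [← Multiset.sum_map_mul_left, ← Multiset.sum_map_mul_left, ← Multiset.sum_map_add]
  refine sum_map_mono fun a _ => ?_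
  rw [← Multiset.sum_map_mul_left, ← Multiset.sum_map_mul_left, ← Multiset.sum_map_add]
  refine sum_map_mono fun b _ => ?_
  have hm2 : Measurable fun w : Vd d => G1 K (p.B ^ 2) a w * G1 K (p.B ^ 2) b w :=
    (measurable_G1 measurable_const measurable_id).mul
      (measurable_G1 measurable_const measurable_id)
  rw [lintegral_const_mul _ hm2, lint_G1]
  unfold Cn Hc
  by_cases hab : a = b
  · rw [if_pos hab]; simp
  · rw [if_neg hab, if_neg hab]
    by_cases hdist : dist a b ≤ rad d K (p.B ^ 2) / 2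
    · rw [if_pos hdist, if_pos hdist, one_mul, mul_one]
      refine le_trans ?_ le_self_add
      exact (measure_mono inter_subset_left).trans (lam_Bs_le hd hK hS a)
    · rw [if_neg hdist, if_neg hdist, mul_zero, zero_add, mul_comm]
      exact mul_le_mul' (lam_inter_le hd hK hS a b (not_le.1 hdist).le) le_rfl

/-- close pairs are rare -/
lemma lint_Hc (hd : 1 ≤ d) (hK : 0 < K) (hS : 0 ≤ S) :
    ∫⁻ η, (η.map fun a => (η.map fun b => Hc K S a b).sum).sum ∂(PP (lam d K)) ≤
      ENNReal.ofReal (K / vball d) *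
        ENNReal.ofReal (S * (15 / 16 : ℝ) ^ ((d : ℝ) / 2)) := by
  have hmH : ∀ {T : Type} [MeasurableSpace T] {f g : T → Vd d}, Measurable f → Measurable g →
      Measurable fun t => Hc K S (f t) (g t) := by
    intro T _ f g hf hg
    unfold Hc
    refine Measurable.ite (measurableSet_eq_fun hf hg) measurable_const ?_
    exact Measurable.ite ((hf.dist hg) measurableSet_Iic) measurable_const measurable_const
  rw [PP_mecke (lam d K) (G := fun a η => (η.map fun b => Hc K S a b).sum)
    (measurable_msum (f := fun (q : Vd d × Multiset (Vd d)) b => Hc K S q.1 b)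
      (hmH (measurable_fst.comp measurable_fst) measurable_snd) measurable_snd)]
  have h1 : ∀ a : Vd d, ∫⁻ η, ((a ::ₘ η).map fun b => Hc K S a b).sum ∂(PP (lam d K)) ≤
      ENNReal.ofReal (S * (15 / 16 : ℝ) ^ ((d : ℝ) / 2)) := by
    intro a
    have h2 : ∀ η : Multiset (Vd d), ((a ::ₘ η).map fun b => Hc K S a b).sum =
        (η.map fun b => Hc K S a b).sum := by
      intro η
      rw [Multiset.map_cons, Multiset.sum_cons]
      have : Hc K S a a = 0 := by unfold Hc; rw [if_pos rfl]
      rw [this, zero_add]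
    simp only [h2]
    rw [PP_campbell (lam d K) (f := fun b => Hc K S a b) (hmH measurable_const measurable_id)]
    refine le_trans ?_ (lam_half_le hd hK hS a)
    have hms : MeasurableSet {z : Vd d | dist a z ≤ rad d K S / 2} :=
      (measurable_const.dist measurable_id) measurableSet_Iic
    rw [← lintegral_indicator_one hms]
    refine lintegral_mono fun b => ?_
    unfold Hc
    by_cases hab : a = b
    · rw [if_pos hab]; exact zero_le
    · rw [if_neg hab]
      by_cases hdist : dist a b ≤ rad d K S / 2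
      · rw [if_pos hdist, indicator_of_mem (show b ∈ {z : Vd d | dist a z ≤ rad d K S / 2} from hdist)]
        simp
      · rw [if_neg hdist]; exact zero_le
  refine (lintegral_mono h1).trans ?_
  rw [lintegral_const, lam_univ, mul_comm]

/-- the expected number of closed walks -/
lemma lint_walks (hd : 1 ≤ d) (hK : 0 < K) (hS : 0 ≤ S) (L : ℕ) :
    ∫⁻ η, (η.map fun x => Tn K S η L (fun _ => 1) x).sum ∂(PP (lam d K)) ≤
      ENNReal.ofReal (K / vball d) * (ENNReal.ofReal S + 1 + (L : ℝ≥0∞)) ^ L := by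
  rw [PP_mecke (lam d K) (G := fun x η => Tn K S η L (fun _ => 1) x)
    (measurable_Tn' (f := fun _ _ => 1) measurable_snd measurable_const L measurable_fst)]
  have h1 : ∀ x : Vd d, ∫⁻ η, Tn K S (x ::ₘ η) L (fun _ => 1) x ∂(PP (lam d K)) ≤
      (ENNReal.ofReal S + 1 + (L : ℝ≥0∞)) ^ L := by
    intro x
    have := walks_le hd hK hS L {x} x
    simpa using this
  refine (lintegral_mono h1).trans ?_
  rw [lintegral_const, lam_univ, mul_comm]

/-- numerical comparison -/
lemma num_bound (S q v : ℝ) (hS : 0 ≤ S) (hq0 : 0 ≤ q) (hv : 0 ≤ v) (h m : ℕ) :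
    ENNReal.ofReal S * (ENNReal.ofReal v * ENNReal.ofReal (S * q)) +
      ENNReal.ofReal (S * q) * (2 * (2 * (m : ℝ≥0∞) + 1) * (ENNReal.ofReal v *
        (ENNReal.ofReal S + 1 + (((h + 1) + (h + 1) : ℕ) : ℝ≥0∞)) ^ ((h + 1) + (h + 1)))) ≤
    ENNReal.ofReal (v * (q * (2 * m + 2) * (S + 2 * h + 4) ^ (2 * h + 4))) := by
  have e1 : (ENNReal.ofReal S + 1 + (((h + 1) + (h + 1) : ℕ) : ℝ≥0∞)) ^ ((h + 1) + (h + 1)) =
      ENNReal.ofReal ((S + 1 + ((h + 1) + (h + 1) : ℕ)) ^ ((h + 1) + (h + 1))) := by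
    rw [ENNReal.ofReal_pow (by positivity), ENNReal.ofReal_add (by positivity) (by positivity),
      ENNReal.ofReal_add hS (by norm_num), ENNReal.ofReal_one, ENNReal.ofReal_natCast]
  have e2 : (2 * (2 * (m : ℝ≥0∞) + 1)) = ENNReal.ofReal (2 * (2 * m + 1)) := by
    rw [ENNReal.ofReal_mul (by norm_num), ENNReal.ofReal_add (by positivity) (by norm_num),
      ENNReal.ofReal_mul (by norm_num), ENNReal.ofReal_natCast]
    norm_num
  rw [e1, e2, ← ENNReal.ofReal_mul hv, ← ENNReal.ofReal_mul hS,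
    ← ENNReal.ofReal_mul hv, ← ENNReal.ofReal_mul (by positivity),
    ← ENNReal.ofReal_mul (by positivity), ← ENNReal.ofReal_add (by positivity) (by positivity)]
  refine ENNReal.ofReal_le_ofReal ?_
  have hn2 : (h + 1) + (h + 1) = 2 * h + 2 := by omega
  rw [hn2]
  obtain ⟨Y, hY⟩ : ∃ Y : ℝ, Y = S + 2 * h + 4 := ⟨_, rfl⟩
  obtain ⟨X, hXd⟩ : ∃ X : ℝ, X = S + 1 + ((2 * h + 2 : ℕ) : ℝ) := ⟨_, rfl⟩
  rw [← hY, ← hXd]
  have hX : X ≤ Y := by
    rw [hY, hXd]; push_cast; linarith
  have hX0 : 0 ≤ X := by rw [hXd]; positivity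
  have hpow : X ^ (2 * h + 2) ≤ Y ^ (2 * h + 2) := pow_le_pow_left₀ hX0 hX _
  have hh0 : (0 : ℝ) ≤ h := Nat.cast_nonneg h
  have hY1 : 1 ≤ Y := by rw [hY]; linarith
  have hY0 : 0 ≤ Y := by linarith
  have hYS : S + 4 ≤ Y := by rw [hY]; linarith
  have hYp : 1 ≤ Y ^ (2 * h + 2) := one_le_pow₀ hY1
  have hY2 : 2 * S ≤ Y ^ 2 := by nlinarith
  have hY3 : S ^ 2 ≤ Y ^ 2 := pow_le_pow_left₀ hS (by linarith) 2
  have hm0 : (0 : ℝ) ≤ m := Nat.cast_nonneg m
  have a1 : 2 * (2 * (m : ℝ) + 1) * S * X ^ (2 * h + 2) ≤ (2 * m + 1) * Y ^ (2 * h + 4) := by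
    calc 2 * (2 * (m : ℝ) + 1) * S * X ^ (2 * h + 2)
        ≤ 2 * (2 * (m : ℝ) + 1) * S * Y ^ (2 * h + 2) :=
          mul_le_mul_of_nonneg_left hpow (by positivity)
      _ = ((2 * m + 1) * Y ^ (2 * h + 2)) * (2 * S) := by ring
      _ ≤ ((2 * m + 1) * Y ^ (2 * h + 2)) * Y ^ 2 :=
          mul_le_mul_of_nonneg_left hY2 (by positivity)
      _ = (2 * m + 1) * Y ^ (2 * h + 4) := by ring
  have a2 : S * S ≤ Y ^ (2 * h + 4) := by
    calc S * S = S ^ 2 * 1 := by ring
      _ ≤ Y ^ 2 * Y ^ (2 * h + 2) := mul_le_mul hY3 hYp (by norm_num) (by positivity)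
      _ = Y ^ (2 * h + 4) := by ring
  have hfin : S * S + 2 * (2 * (m : ℝ) + 1) * S * X ^ (2 * h + 2) ≤
      (2 * m + 2) * Y ^ (2 * h + 4) := by
    have : (2 * (m : ℝ) + 2) * Y ^ (2 * h + 4) =
      (2 * m + 1) * Y ^ (2 * h + 4) + Y ^ (2 * h + 4) := by ring
    linarith
  calc S * (v * (S * q)) + S * q * (2 * (2 * (m : ℝ) + 1) * (v * X ^ (2 * h + 2)))
      = (v * q) * (S * S + 2 * (2 * (m : ℝ) + 1) * S * X ^ (2 * h + 2)) := by ring
    _ ≤ (v * q) * ((2 * m + 2) * Y ^ (2 * h + 4)) :=
        mul_le_mul_of_nonneg_left hfin (by positivity)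
    _ = v * (q * (2 * m + 2) * Y ^ (2 * h + 4)) := by ring

lemma measurable_Hsum : Measurable fun η : Multiset (Vd d) =>
    (η.map fun a => (η.map fun b => Hc K S a b).sum).sum := by
  refine measurable_msum (f := fun (η : Multiset (Vd d)) a =>
    (η.map fun b => Hc K S a b).sum) ?_ measurable_id
  refine measurable_msum (f := fun (q : Multiset (Vd d) × Vd d) b => Hc K S q.2 b) ?_
    measurable_fst
  unfold Hc
  refine Measurable.ite (measurableSet_eq_fun (measurable_snd.comp measurable_fst)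
    measurable_snd) measurable_const ?_
  exact Measurable.ite (((measurable_snd.comp measurable_fst).dist measurable_snd)
    measurableSet_Iic) measurable_const measurable_const

lemma measurable_Wsum (L : ℕ) : Measurable fun η : Multiset (Vd d) =>
    (η.map fun x => Tn K S η L (fun _ => 1) x).sum :=
  measurable_msum (f := fun (η : Multiset (Vd d)) x => Tn K S η L (fun _ => 1) x)
    (measurable_Tn' (f := fun _ _ => 1) measurable_fst measurable_const _ measurable_snd)
    measurable_id

lemma lint_lin {E : Type*} [MeasurableSpace E] (ν : Measure E) {A B : E → ℝ≥0∞}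
    (hA : Measurable A) (hB : Measurable B) (c₁ c₂ c₃ : ℝ≥0∞) :
    ∫⁻ x, (c₁ * A x + c₂ * (c₃ * B x)) ∂ν = c₁ * ∫⁻ x, A x ∂ν + c₂ * (c₃ * ∫⁻ x, B x ∂ν) := by
  rw [lintegral_add_left (hA.const_mul c₁), lintegral_const_mul _ hA,
    lintegral_const_mul _ (hB.const_mul c₃), lintegral_const_mul _ hB]

lemma lint_total (p : Par) (hd : 1 ≤ d) (hK : 0 < K) (h : ℕ) (hh : 2 * p.k + 1 ≤ h) (m : ℕ) :
    ∫⁻ η, ∫⁻ w, fw p K h m w η ∂(lam d K) ∂(PP (lam d K)) ≤
      ENNReal.ofReal (p.B ^ 2) * (ENNReal.ofReal (K / vball d) *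
        ENNReal.ofReal (p.B ^ 2 * (15 / 16 : ℝ) ^ ((d : ℝ) / 2))) +
      ENNReal.ofReal (p.B ^ 2 * (15 / 16 : ℝ) ^ ((d : ℝ) / 2)) *
        (2 * (2 * (m : ℝ≥0∞) + 1) * (ENNReal.ofReal (K / vball d) *
        (ENNReal.ofReal (p.B ^ 2) + 1 + (((h + 1) + (h + 1) : ℕ) : ℝ≥0∞)) ^
          ((h + 1) + (h + 1)))) := by
  have hS : 0 ≤ p.B ^ 2 := sq_nonneg _
  have h2 : ∀ᵐ η ∂(PP (lam d K)), ∫⁻ w, fw p K h m w η ∂(lam d K) ≤
      ENNReal.ofReal (p.B ^ 2) * (η.map fun a => (η.map fun b => Hc K (p.B ^ 2) a b).sum).sum +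
      ENNReal.ofReal (p.B ^ 2 * (15 / 16 : ℝ) ^ ((d : ℝ) / 2)) * (2 * (2 * (m : ℝ≥0∞) + 1) *
        (η.map fun x => Tn K (p.B ^ 2) η ((h + 1) + (h + 1)) (fun _ => 1) x).sum) := by
    filter_upwards [ae_nodup' hd K] with η hη
    refine (lint_fw p hd hK h m η).trans ?_
    exact add_le_add le_rfl (mul_le_mul' le_rfl (con_sum p hd hK h hh m hη))
  refine (lintegral_mono_ae h2).trans ?_
  rw [lint_lin (PP (lam d K)) (measurable_Hsum (K := K) (S := p.B ^ 2))
    (measurable_Wsum (K := K) (S := p.B ^ 2) ((h + 1) + (h + 1)))]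
  exact add_le_add (mul_le_mul' le_rfl (lint_Hc hd hK hS))
    (mul_le_mul' le_rfl (mul_le_mul' le_rfl (lint_walks hd hK hS _)))

/-- the functional -/
noncomputable def Zf (p : Par) (K : ℝ) (h m : ℕ) (P : Multiset (Vd d)) : ℝ≥0∞ :=
  (P.map fun w => fw p K h m w (restr {w}ᶜ P)).sum

lemma restr_compl_self {w : Vd d} {η : Multiset (Vd d)} (hw : w ∉ η) :
    restr {w}ᶜ (w ::ₘ η) = η := by
  rw [restr_cons_not_mem _ (by simp)]
  refine restr_eq_self fun a ha => ?_
  simp only [mem_compl_iff, mem_singleton_iff]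
  rintro rfl
  exact hw ha

lemma measurable_Zf_aux (p : Par) (h m : ℕ) : Measurable fun q : Vd d × Multiset (Vd d) =>
    fw p K h m q.1 (restr {q.1}ᶜ q.2) := by
  have hmr : Measurable fun q : Vd d × Multiset (Vd d) => restr {q.1}ᶜ q.2 := by
    refine measurable_restr (A := fun q : Vd d × Multiset (Vd d) => {q.1}ᶜ) ?_ measurable_snd
    exact (measurableSet_eq_fun (f := fun q : (Vd d × Multiset (Vd d)) × Vd d => q.2)
      (g := fun q => q.1.1) measurable_snd (measurable_fst.comp measurable_fst)).compl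
  exact measurable_fw p h m hmr measurable_fst

lemma measurable_Zf (p : Par) (h m : ℕ) : Measurable (Zf (d := d) p K h m) := by
  have hmr : Measurable fun q : Multiset (Vd d) × Vd d => restr {q.2}ᶜ q.1 := by
    refine measurable_restr (A := fun q : Multiset (Vd d) × Vd d => {q.2}ᶜ) ?_ measurable_fst
    exact (measurableSet_eq_fun (f := fun q : (Multiset (Vd d) × Vd d) × Vd d => q.2)
      (g := fun q => q.1.2) measurable_snd (measurable_snd.comp measurable_fst)).compl
  have h0 : Measurable fun q : Multiset (Vd d) × Vd d => fw p K h m q.2 (restr {q.2}ᶜ q.1) :=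
    measurable_fw p h m hmr measurable_snd
  exact measurable_msum (f := fun (P : Multiset (Vd d)) w => fw p K h m w (restr {w}ᶜ P)) h0
    measurable_id

lemma Zf_ge (p : Par) (hd : 1 ≤ d) (h m : ℕ) (P : Multiset (Vd d)) (hP : P.Nodup) :
    (Multiset.card (restr {w | ShortCyc p K h m P w} P) : ℝ≥0∞) ≤ Zf p K h m P := by
  rw [← sum_map_indicator_one]
  refine sum_map_mono fun w hw => ?_
  by_cases hc : w ∈ {w | ShortCyc p K h m P w}
  · rw [indicator_of_mem hc]
    obtain ⟨η, rfl⟩ := Multiset.exists_cons_of_mem hw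
    have hwη : w ∉ η := (Multiset.nodup_cons.1 hP).1
    rw [restr_compl_self hwη]
    exact fw_ge p hd h m η w hwη hc
  · rw [indicator_of_notMem hc]; exact zero_le

lemma lint_Zf (p : Par) (hd : 1 ≤ d) (h m : ℕ) :
    ∫⁻ P, Zf p K h m P ∂(PP (lam d K)) =
      ∫⁻ η, ∫⁻ w, fw p K h m w η ∂(lam d K) ∂(PP (lam d K)) := by
  unfold Zf
  rw [PP_mecke (lam d K) (G := fun w P => fw p K h m w (restr {w}ᶜ P)) (measurable_Zf_aux p h m)]
  have h1 : ∀ w : Vd d, ∫⁻ η, fw p K h m w (restr {w}ᶜ (w ::ₘ η)) ∂(PP (lam d K)) =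
      ∫⁻ η, fw p K h m w η ∂(PP (lam d K)) := by
    intro w
    refine lintegral_congr_ae ?_
    filter_upwards [ae_notMem hd K w] with η hη
    rw [restr_compl_self hη]
  rw [lintegral_congr h1]
  have h2 : Measurable fun q : Vd d × Multiset (Vd d) => fw p K h m q.1 q.2 :=
    measurable_fw p h m measurable_snd measurable_fst
  exact lintegral_lintegral_swap h2.aemeasurable

end CY

open CY in
theorem cycle_count (p : Par) {d : ℕ} (hd : 1 ≤ d) {K : ℝ} (hK : 0 < K) (h : ℕ)
    (hh : 2 * p.k + 1 ≤ h) (m : ℕ) :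
    ∃ Z : Multiset (Vd d) → ℝ≥0∞, Measurable Z ∧
      (∀ P : Multiset (Vd d), P.Nodup →
        (Multiset.card (restr {w | ShortCyc p K h m P w} P) : ℝ≥0∞) ≤ Z P) ∧
      ∫⁻ P, Z P ∂(PP (lam d K)) ≤ ENNReal.ofReal (K / vball d *
        ((15 / 16 : ℝ) ^ ((d : ℝ) / 2) * (2 * m + 2) * (p.B ^ 2 + 2 * h + 4) ^ (2 * h + 4))) := by
  have hvK : 0 ≤ K / vball d := by
    have : 0 ≤ vball d := ENNReal.toReal_nonneg
    positivity
  have h2 := (lint_Zf (K := K) p hd h m).le.trans (lint_total p hd hK h hh m)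
  have h3 := num_bound (p.B ^ 2) ((15 / 16 : ℝ) ^ ((d : ℝ) / 2)) (K / vball d) (sq_nonneg _)
    (Real.rpow_nonneg (by norm_num) _) hvK h m
  exact ⟨Zf p K h m, measurable_Zf p h m, Zf_ge p hd h m, h2.trans h3⟩

end Pool.Agent.TSPd97
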