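import Pool.Agent.TSPd97.UpDefs
import Pool.Agent.TSPd97.Deg

/-!
MP_076557_pr, package CY, part 1: deterministic facts (locality of the selected graph, balls in
graphs of maximum degree two).
-/

set_option autoImplicit false

open MeasureTheory Set
open scoped ENNReal

namespace Pool.Agent.TSPd97

namespace CY

/-! ### balls in graphs of maximum degree two -/

/-- reachability by at most `j` steps of the relation `R` with intermediate points in `V` -/
def FR {α : Type*} (R : α → α → Prop) (V : Set α) : ℕ → α → α → Prop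
  | 0, x, y => x = y
  | j + 1, x, y => FR R V j x y ∨ ∃ z ∈ V, FR R V j x z ∧ R z y

section ball

variable {α : Type*} {R : α → α → Prop} {V : Set α}

lemma FR_mono {i j : ℕ} (hij : i ≤ j) {x y : α} (h : FR R V i x y) : FR R V j x y := by
  induction hij with
  | refl => exact h
  | step _ ih => exact Or.inl ih

lemma FR_refl (j : ℕ) (x : α) : FR R V j x x := FR_mono (Nat.zero_le j) rfl

/-- prepend a step -/
lemma FR_cons {j : ℕ} {x z y : α} (hxz : R x z) (hx : x ∈ V)
    (h : FR R V j z y) : FR R V (j + 1) x y := by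
  induction j generalizing y with
  | zero =>
    have : z = y := h
    subst this
    exact Or.inr ⟨x, hx, rfl, hxz⟩
  | succ j ih =>
    rcases h with h | ⟨u, hu, h1, h2⟩
    · exact Or.inl (ih h)
    · exact Or.inr ⟨u, hu, ih h1, h2⟩

lemma FR_symm (hR : ∀ x y, R x y → R y x) {j : ℕ} {x y : α} (hy : y ∈ V)
    (h : FR R V j x y) : FR R V j y x := by
  induction j generalizing y with
  | zero => exact Eq.symm h
  | succ j ih =>
    rcases h with h | ⟨u, hu, h1, h2⟩
    · exact Or.inl (ih hy h)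
    · exact FR_cons (hR _ _ h2) hy (ih hu h1)

open Classical in
/-- In a graph of maximum degree two, balls of radius `j` have at most `2j+1` elements. -/
theorem ball_card (V : Finset α) (R : α → α → Prop) (hR : ∀ x y, R x y → R y x)
    (hdeg : ∀ x ∈ V, (V.filter (R x)).card ≤ 2) (x : α) (hx : x ∈ V) (j : ℕ) :
    (V.filter (FR R (V : Set α) j x)).card ≤ 2 * j + 1 ∧
      ∑ v ∈ V.filter (fun v => ¬ FR R (V : Set α) j x v),
        ((V.filter (FR R (V : Set α) j x)).filter (R v)).card ≤ 2 := by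
  induction j with
  | zero =>
    have h0 : V.filter (FR R (V : Set α) 0 x) = {x} := by
      ext y
      simp only [Finset.mem_filter, Finset.mem_singleton]
      constructor
      · rintro ⟨_, h⟩; exact (show x = y from h).symm
      · rintro rfl; exact ⟨hx, rfl⟩
    refine ⟨by rw [h0]; simp, ?_⟩
    rw [h0]
    calc ∑ v ∈ V.filter (fun v => ¬ FR R (V : Set α) 0 x v), (({x} : Finset α).filter (R v)).card
        ≤ ∑ v ∈ V, (({x} : Finset α).filter (R v)).card :=
          Finset.sum_le_sum_of_subset (Finset.filter_subset _ _)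
      _ = (V.filter (R x)).card := by
          rw [Finset.card_filter]
          refine Finset.sum_congr rfl fun v _ => ?_
          rw [Finset.card_filter, Finset.sum_singleton]
          by_cases h : R v x
          · rw [if_pos h, if_pos (hR _ _ h)]
          · rw [if_neg h, if_neg fun h' => h (hR _ _ h')]
      _ ≤ 2 := hdeg x hx
  | succ j ih =>
    obtain ⟨ih1, ih2⟩ := ih
    set B := V.filter (FR R (V : Set α) j x) with hB
    set B' := V.filter (FR R (V : Set α) (j + 1) x) with hB'
    set N := B' \ B with hN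
    have hBB' : B ⊆ B' := by
      intro y hy
      rw [hB, Finset.mem_filter] at hy
      rw [hB', Finset.mem_filter]
      exact ⟨hy.1, Or.inl hy.2⟩
    -- new vertices have a neighbour in `B`
    have hNin : ∀ v ∈ N, 1 ≤ (B.filter (R v)).card := by
      intro v hv
      rw [hN, Finset.mem_sdiff] at hv
      obtain ⟨hv1, hv2⟩ := hv
      rw [hB', Finset.mem_filter] at hv1
      obtain ⟨hvV, h | ⟨z, hz, hz1, hz2⟩⟩ := hv1
      · exact absurd (Finset.mem_filter.2 ⟨hvV, h⟩) hv2
      · refine Finset.card_pos.2 ⟨z, ?_⟩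
        rw [Finset.mem_filter, hB, Finset.mem_filter]
        exact ⟨⟨hz, hz1⟩, hR _ _ hz2⟩
    have hNsub : N ⊆ V.filter (fun v => ¬ FR R (V : Set α) j x v) := by
      intro v hv
      rw [hN, Finset.mem_sdiff] at hv
      have hvV : v ∈ V := (Finset.mem_filter.1 hv.1).1
      exact Finset.mem_filter.2 ⟨hvV, fun h => hv.2 (Finset.mem_filter.2 ⟨hvV, h⟩)⟩
    have hsum : ∑ v ∈ N, (B.filter (R v)).card ≤ 2 :=
      (Finset.sum_le_sum_of_subset hNsub).trans ih2
    constructor
    · have h1 : N.card ≤ ∑ v ∈ N, (B.filter (R v)).card := by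
        have := Finset.sum_le_sum hNin
        simpa using this
      have h2 : B'.card = B.card + N.card := by
        rw [hN, Finset.card_sdiff_of_subset hBB']
        have := Finset.card_le_card hBB'
        omega
      omega
    · refine le_trans ?_ hsum
      -- neighbours in `B'` of outside vertices are new
      have h1 : ∀ v ∈ V.filter (fun v => ¬ FR R (V : Set α) (j + 1) x v),
          B'.filter (R v) = N.filter (R v) := by
        intro v hv
        rw [Finset.mem_filter] at hv
        ext u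
        simp only [Finset.mem_filter, hN, Finset.mem_sdiff]
        constructor
        · rintro ⟨hu, hvu⟩
          refine ⟨⟨hu, fun huB => hv.2 ?_⟩, hvu⟩
          rw [hB, Finset.mem_filter] at huB
          exact Or.inr ⟨u, huB.1, huB.2, hR _ _ hvu⟩
        · rintro ⟨⟨hu, _⟩, hvu⟩
          exact ⟨hu, hvu⟩
      rw [Finset.sum_congr rfl fun v hv => congrArg Finset.card (h1 v hv)]
      have h2 := Finset.sum_card_bipartiteAbove_eq_sum_card_bipartiteBelow
        (s := V.filter (fun v => ¬ FR R (V : Set α) (j + 1) x v)) (t := N) R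
      simp only [Finset.bipartiteAbove, Finset.bipartiteBelow] at h2
      rw [h2]
      refine Finset.sum_le_sum fun u hu => ?_
      have huV : u ∈ V := by
        rw [hN, Finset.mem_sdiff] at hu
        exact (Finset.mem_filter.1 hu.1).1
      have h3 := hdeg u huV
      have h4 := hNin u hu
      have h5 : ((V.filter (fun v => ¬ FR R (V : Set α) (j + 1) x v)).filter
          (fun v => R v u)).card + (B.filter (R u)).card ≤ (V.filter (R u)).card := by
        rw [← Finset.card_union_of_disjoint]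
        · refine Finset.card_le_card fun v hv => ?_
          rw [Finset.mem_union, Finset.mem_filter, Finset.mem_filter, Finset.mem_filter] at hv
          rw [Finset.mem_filter]
          rcases hv with ⟨⟨hvV, _⟩, h⟩ | ⟨hvB, h⟩
          · exact ⟨hvV, hR _ _ h⟩
          · exact ⟨(Finset.mem_filter.1 hvB).1, h⟩
        · rw [Finset.disjoint_left]
          intro v hv hv'
          rw [Finset.mem_filter, Finset.mem_filter] at hv
          rw [Finset.mem_filter] at hv'
          exact hv.1.2 (Or.inl (Finset.mem_filter.1 hv'.1).2)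
      omega

end ball

/-! ### locality -/

section loc

variable {d : ℕ} {K S : ℝ}

/-- walks of `n` steps in the configuration `η` -/
def GW (K S : ℝ) (η : Multiset (Vd d)) : ℕ → Vd d → Vd d → Prop
  | 0, x, a => x = a
  | n + 1, x, a => ∃ z ∈ η, z ∈ Bs K S x ∧ GW K S η n z a

lemma self_mem_Bs (hd : 1 ≤ d) (hS : 0 ≤ S) (x : Vd d) : x ∈ Bs K S x := by
  change sd K x x ≤ S
  rw [sd_self hd]; exact hS

lemma GW_stay (hd : 1 ≤ d) (hS : 0 ≤ S) {η : Multiset (Vd d)} {x : Vd d} (hx : x ∈ η) (n : ℕ) :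
    GW K S η n x x := by
  induction n with
  | zero => rfl
  | succ n ih => exact ⟨x, hx, self_mem_Bs hd hS x, ih⟩

lemma GW_succ (hd : 1 ≤ d) (hS : 0 ≤ S) {η : Multiset (Vd d)} {x a : Vd d} (hx : x ∈ η) {n : ℕ}
    (h : GW K S η n x a) : GW K S η (n + 1) x a :=
  ⟨x, hx, self_mem_Bs hd hS x, h⟩

lemma Nb_subset_Bs (x : Vd d) : Nb K S x ⊆ Bs K S x := fun _ h => h.2

lemma Nb_symm {x y : Vd d} (h : y ∈ Nb K S x) : x ∈ Nb K S y := by
  change 0 < sd K y x ∧ sd K y x ≤ S
  rw [sd_comm]; exact h

lemma Bs_symm {x y : Vd d} (h : y ∈ Bs K S x) : x ∈ Bs K S y := by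
  change sd K y x ≤ S
  rw [sd_comm]; exact h

/-- If adding `w` changes a message then `w` is near the endpoint of a short walk. -/
theorem locality {V : Type*} (v0 : V) (Ψ : Multiset (ℝ × V) → V) (hd : 1 ≤ d) (hS : 0 ≤ S)
    (η : Multiset (Vd d)) (w : Vd d) (n : ℕ) : ∀ v ∈ η, ∀ u,
      msg v0 Ψ K S n (w ::ₘ η) v u ≠ msg v0 Ψ K S n η v u →
      ∃ b ∈ η, w ∈ Nb K S b ∧ GW K S η n v b := by
  induction n with
  | zero => intro v _ u h; exact absurd rfl h
  | succ n ih =>
    intro v hv u h
    by_cases hw : w ∈ Nb K S v \ {u}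
    · exact ⟨v, hv, hw.1, GW_stay hd hS hv _⟩
    · have h1 : restr (Nb K S v \ {u}) (w ::ₘ η) = restr (Nb K S v \ {u}) η :=
        restr_cons_not_mem _ hw
      by_contra hcon
      apply h
      rw [msg_succ, msg_succ]
      congr 1
      unfold nbm
      rw [h1]
      refine Multiset.map_congr rfl fun z hz => ?_
      rw [mem_restr] at hz
      congr 1
      by_contra hne
      obtain ⟨b, hb, hwb, hG⟩ := ih z hz.1 v hne
      exact hcon ⟨b, hb, hwb, z, hz.1, Nb_subset_Bs _ hz.2.1, hG⟩

variable (p : Par)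

/-- If an edge of the selected graph of `w ::ₘ η` is missing in the one of `η`, both endpoints are
at the origin of a walk to a point near `w`. -/
theorem edge_loc (hd : 1 ≤ d) (h : ℕ) (η : Multiset (Vd d)) (w : Vd d) {x y : Vd d}
    (hx : x ∈ η) (hy : y ∈ η) (h1 : FE p K h (w ::ₘ η) x y) (h2 : ¬ FE p K h η x y) :
    (∃ b ∈ η, w ∈ Nb K (p.B ^ 2) b ∧ GW K (p.B ^ 2) η (h + 1) x b ∧
      GW K (p.B ^ 2) η (h + 1) y b) := by
  have hS : 0 ≤ p.B ^ 2 := sq_nonneg _
  have hxy : y ∈ Nb K (p.B ^ 2) x := h1.1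
  by_cases hA : msg (vinitx p) (updx p) K (p.B ^ 2) h (w ::ₘ η) x y =
      msg (vinitx p) (updx p) K (p.B ^ 2) h η x y
  · by_cases hB : msg (vinitx p) (updx p) K (p.B ^ 2) h (w ::ₘ η) y x =
        msg (vinitx p) (updx p) K (p.B ^ 2) h η y x
    · exfalso
      apply h2
      refine ⟨hxy, ?_⟩
      have := h1.2
      rw [hA, hB] at this
      exact this
    · obtain ⟨b, hb, hwb, hG⟩ := locality (vinitx p) (updx p) hd hS η w h y hy x hB
      exact ⟨b, hb, hwb, ⟨y, hy, Nb_subset_Bs _ hxy, hG⟩, GW_succ hd hS hy hG⟩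
  · obtain ⟨b, hb, hwb, hG⟩ := locality (vinitx p) (updx p) hd hS η w h x hx y hA
    exact ⟨b, hb, hwb, GW_succ hd hS hx hG, ⟨x, hx, Bs_symm (Nb_subset_Bs _ hxy), hG⟩⟩

/-- two different neighbours of `w` which are connected in `η` -/
def Conn (K : ℝ) (h m : ℕ) (η : Multiset (Vd d)) (a b : Vd d) : Prop :=
  ∃ x ∈ η, ∃ y ∈ η, GW K (p.B ^ 2) η (h + 1) x a ∧ FR (FE p K h η) {z | z ∈ η} m x y ∧
    GW K (p.B ^ 2) η (h + 1) y b

/-- following a path of the selected graph of `w ::ₘ η` -/
theorem follow (hd : 1 ≤ d) (h : ℕ) (η : Multiset (Vd d)) (w a : Vd d) :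
    ∀ (t : List (Vd d)) (v : Vd d) (i : ℕ), v ∈ η → (∀ z ∈ t, z ∈ η) →
      (v :: t).IsChain (FE p K h (w ::ₘ η)) →
      (∃ x ∈ η, GW K (p.B ^ 2) η (h + 1) x a ∧ FR (FE p K h η) {z | z ∈ η} i x v) →
      (∃ b ∈ η, b ≠ a ∧ w ∈ Nb K (p.B ^ 2) b ∧ Conn p K h (i + t.length) η a b) ∨
      (∃ x ∈ η, GW K (p.B ^ 2) η (h + 1) x a ∧
        FR (FE p K h η) {z | z ∈ η} (i + t.length) x ((v :: t).getLast (by simp))) := by
  intro t
  induction t with
  | nil =>
    intro v i _ _ _ hinv
    exact Or.inr (by simpa using hinv)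
  | cons u t ih =>
    intro v i hv ht hch hinv
    have hu : u ∈ η := ht u (by simp)
    have ht' : ∀ z ∈ t, z ∈ η := fun z hz => ht z (by simp [hz])
    rw [List.isChain_cons_cons] at hch
    obtain ⟨hvu, hch'⟩ := hch
    obtain ⟨x, hx, hxa, hxv⟩ := hinv
    have hlen : i + (u :: t).length = (i + 1) + t.length := by simp; omega
    by_cases hE : FE p K h η v u
    · have := ih u (i + 1) hu ht' hch' ⟨x, hx, hxa, Or.inr ⟨v, hv, hxv, hE⟩⟩
      rw [hlen]
      simpa using this
    · obtain ⟨b, hb, hwb, hvb, hub⟩ := edge_loc p hd h η w hv hu hvu hE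
      by_cases hba : b = a
      · subst hba
        have := ih u (i + 1) hu ht' hch' ⟨u, hu, hub, FR_refl _ _⟩
        rw [hlen]
        simpa using this
      · left
        exact ⟨b, hb, hba, hwb, x, hx, v, hv, hxa, FR_mono (Nat.le_add_right _ _) hxv, hvb⟩

theorem shortCyc_conn (hd : 1 ≤ d) (h m : ℕ) (η : Multiset (Vd d)) (w : Vd d)
    (hw : w ∉ η) (hc : ShortCyc p K h m (w ::ₘ η) w) :
    ∃ a ∈ η, ∃ b ∈ η, a ≠ b ∧ w ∈ Nb K (p.B ^ 2) a ∧ w ∈ Nb K (p.B ^ 2) b ∧
      Conn p K h m η a b := by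
  obtain ⟨l, hnd, hl3, hlm, hmem, hch, hne, hhead, hlast⟩ := hc
  match l, hne, hnd, hl3, hlm, hmem, hch, hhead, hlast with
  | w' :: v :: u :: t, _, hnd, _, hlm, hmem, hch, hhead, hlast =>
    simp only [List.head_cons] at hhead
    subst hhead
    have hη : ∀ z ∈ v :: u :: t, z ∈ η := by
      intro z hz
      have h1 := hmem z (by simp only [List.mem_cons] at hz ⊢; tauto)
      rw [Multiset.mem_cons] at h1
      rcases h1 with h1 | h1
      · exfalso
        rw [List.nodup_cons] at hnd
        exact hnd.1 (h1 ▸ hz)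
      · exact h1
    rw [List.isChain_cons_cons] at hch
    have hv : v ∈ η := hη v (by simp)
    have hS : 0 ≤ p.B ^ 2 := sq_nonneg _
    have hwv : w' ∈ Nb K (p.B ^ 2) v := Nb_symm hch.1.1
    have hlast' : (w' :: v :: u :: t).getLast (by simp) = (v :: u :: t).getLast (by simp) := by
      simp
    have hlmem : (v :: u :: t).getLast (by simp) ∈ η := hη _ (List.getLast_mem _)
    rcases follow p hd h η w' v (u :: t) v 0 hv (fun z hz => hη z (by simp at hz ⊢; tauto))
      hch.2 ⟨v, hv, GW_stay hd hS hv _, FR_refl _ _⟩ with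
      ⟨b, hb, hba, hwb, hcon⟩ | ⟨x, hx, hxa, hxl⟩
    · refine ⟨v, hv, b, hb, Ne.symm hba, hwv, hwb, ?_⟩
      obtain ⟨x, hx, y, hy, h1, h2, h3⟩ := hcon
      refine ⟨x, hx, y, hy, h1, FR_mono ?_ h2, h3⟩
      simp at hlm ⊢; omega
    · refine ⟨v, hv, (v :: u :: t).getLast (by simp), hlmem, ?_, hwv, ?_, ?_⟩
      · intro hcon
        rw [List.nodup_cons, List.nodup_cons] at hnd
        apply hnd.2.1
        rw [List.getLast_cons (by simp)] at hcon
        rw [hcon]
        exact List.getLast_mem _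
      · have := hlast.1
        rw [hlast'] at this
        exact this
      · refine ⟨x, hx, _, hlmem, hxa, FR_mono ?_ hxl, GW_stay hd hS hlmem _⟩
        simp at hlm ⊢; omega

end loc

end CY

end Pool.Agent.TSPd97
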