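import Pool.Agent.TSPd97.CycleA
import Pool.Agent.TSPd97.Geo1

/-!
MP_076557_pr, package CY, part 2: counting walks.
-/

set_option autoImplicit false

open MeasureTheory Set
open scoped ENNReal

namespace Pool.Agent.TSPd97

namespace CY

variable {d : ℕ} {K S : ℝ}

open Classical in
/-- adjacency (distance at most the radius) -/
noncomputable def G1 (K S : ℝ) (x z : Vd d) : ℝ≥0∞ := if z ∈ Bs K S x then 1 else 0

lemma G1_comm (x z : Vd d) : G1 K S x z = G1 K S z x := by
  unfold G1
  by_cases h : z ∈ Bs K S x
  · rw [if_pos h, if_pos (Bs_symm h)]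
  · rw [if_neg h, if_neg fun h' => h (Bs_symm h')]

/-- the `n`-th power of the adjacency operator -/
noncomputable def Tn (K S : ℝ) (η : Multiset (Vd d)) : ℕ → (Vd d → ℝ≥0∞) → Vd d → ℝ≥0∞
  | 0, f => f
  | n + 1, f => fun x => (η.map fun z => G1 K S x z * Tn K S η n f z).sum

lemma Tn_zero (η : Multiset (Vd d)) (f : Vd d → ℝ≥0∞) : Tn K S η 0 f = f := rfl

lemma Tn_succ (η : Multiset (Vd d)) (n : ℕ) (f : Vd d → ℝ≥0∞) (x : Vd d) :
    Tn K S η (n + 1) f x = (η.map fun z => G1 K S x z * Tn K S η n f z).sum := rfl

lemma sum_map_mono {E : Type*} {η : Multiset E} {f g : E → ℝ≥0∞} (h : ∀ z ∈ η, f z ≤ g z) :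
    (η.map f).sum ≤ (η.map g).sum := Multiset.sum_map_le_sum_map f g h

lemma single_le_sum {E : Type*} {η : Multiset E} {f : E → ℝ≥0∞} {z : E} (h : z ∈ η) :
    f z ≤ (η.map f).sum :=
  Multiset.single_le_sum (fun x _ => zero_le) _ (Multiset.mem_map_of_mem f h)

lemma Tn_mono {η : Multiset (Vd d)} {f g : Vd d → ℝ≥0∞} (h : ∀ z ∈ η, f z ≤ g z) (n : ℕ) :
    ∀ x ∈ η, Tn K S η n f x ≤ Tn K S η n g x := by
  induction n with
  | zero => exact h
  | succ n ih =>
    intro x _
    rw [Tn_succ, Tn_succ]
    exact sum_map_mono fun z hz => mul_le_mul_right (ih z hz) _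

lemma Tn_add (η : Multiset (Vd d)) (n m : ℕ) (f : Vd d → ℝ≥0∞) :
    Tn K S η (n + m) f = Tn K S η n (Tn K S η m f) := by
  induction n with
  | zero => simp [Tn_zero]
  | succ n ih =>
    funext x
    rw [show n + 1 + m = (n + m) + 1 by ring, Tn_succ, Tn_succ, ih]

/-- linearity -/
lemma Tn_sum {E : Type*} (η : Multiset (Vd d)) (t : Multiset E) (f : E → Vd d → ℝ≥0∞) (n : ℕ)
    (x : Vd d) :
    Tn K S η n (fun z => (t.map fun a => f a z).sum) x = (t.map fun a => Tn K S η n (f a) x).sum := by
  induction n generalizing x with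
  | zero => rfl
  | succ n ih =>
    rw [Tn_succ]
    simp only [ih]
    simp only [Tn_succ]
    rw [Multiset.sum_map_sum_map]
    congr 1
    refine Multiset.map_congr rfl fun z _ => ?_
    rw [Multiset.sum_map_mul_left]

/-- symmetry -/
lemma Tn_symm (η : Multiset (Vd d)) (n : ℕ) (f g : Vd d → ℝ≥0∞) :
    (η.map fun x => f x * Tn K S η n g x).sum = (η.map fun x => Tn K S η n f x * g x).sum := by
  induction n generalizing f g with
  | zero => rfl
  | succ n ih =>
    have h1 : ∀ f g : Vd d → ℝ≥0∞, (η.map fun x => f x * Tn K S η 1 g x).sum =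
        (η.map fun x => Tn K S η 1 f x * g x).sum := by
      intro f g
      have e1 : ∀ x, f x * Tn K S η 1 g x = (η.map fun z => f x * (G1 K S x z * g z)).sum := by
        intro x
        rw [Multiset.sum_map_mul_left]; rfl
      have e2 : ∀ x, Tn K S η 1 f x * g x = (η.map fun z => G1 K S x z * f z * g x).sum := by
        intro x
        rw [Multiset.sum_map_mul_right]; rfl
      simp only [e1, e2]
      rw [Multiset.sum_map_sum_map]
      congr 1
      refine Multiset.map_congr rfl fun z _ => ?_
      congr 1
      refine Multiset.map_congr rfl fun x _ => ?_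
      rw [G1_comm x z]
      ring
    rw [Tn_add η n 1 g, ih f (Tn K S η 1 g), h1, ← Tn_add η 1 n f, add_comm 1 n]

lemma Tn_sq (η : Multiset (Vd d)) (n : ℕ) :
    (η.map fun x => Tn K S η n (fun _ => 1) x * Tn K S η n (fun _ => 1) x).sum =
      (η.map fun x => Tn K S η (n + n) (fun _ => 1) x).sum := by
  rw [Tn_symm, ← Tn_add]
  simp

open Classical in
/-- point mass -/
noncomputable def dl (b y : Vd d) : ℝ≥0∞ := if y = b then 1 else 0

lemma sum_dl_le {η : Multiset (Vd d)} (hη : η.Nodup) (z : Vd d) :
    (η.map fun a => dl a z).sum ≤ 1 := by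
  classical
  have h : ∀ s : Multiset (Vd d), (s.map fun a => dl a z).sum = (s.count z : ℝ≥0∞) := by
    intro s
    induction s using Multiset.induction_on with
    | empty => simp
    | cons a s ih =>
      rw [Multiset.map_cons, Multiset.sum_cons, ih, Multiset.count_cons]
      unfold dl
      by_cases h : z = a
      · rw [if_pos h, if_pos h]; push_cast; ring
      · rw [if_neg h, if_neg h]; simp
  rw [h]
  exact_mod_cast Multiset.nodup_iff_count_le_one.1 hη z

lemma GW_le {η : Multiset (Vd d)} {n : ℕ} {x a : Vd d} (h : GW K S η n x a) :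
    1 ≤ Tn K S η n (dl a) x := by
  induction n generalizing x with
  | zero =>
    have : x = a := h
    rw [Tn_zero]; unfold dl; rw [if_pos this]
  | succ n ih =>
    obtain ⟨z, hz, hzx, hG⟩ := h
    rw [Tn_succ]
    refine le_trans ?_ (single_le_sum (f := fun z => G1 K S x z * Tn K S η n (dl a) z) hz)
    have h1 : G1 K S x z = 1 := by unfold G1; rw [if_pos hzx]
    simp only [h1, one_mul]
    exact ih hG

section meas

variable {T : Type*} [MeasurableSpace T]

lemma measurable_G1 {f g : T → Vd d} (hf : Measurable f) (hg : Measurable g) :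
    Measurable fun t => G1 K S (f t) (g t) := by
  unfold G1
  refine Measurable.ite ?_ measurable_const measurable_const
  exact (measurable_sd hf hg) measurableSet_Iic

lemma measurable_Tn {η : T → Multiset (Vd d)} (hη : Measurable η) {f : T → Vd d → ℝ≥0∞}
    (hf : Measurable fun p : T × Vd d => f p.1 p.2) (n : ℕ) :
    Measurable fun p : T × Vd d => Tn K S (η p.1) n (f p.1) p.2 := by
  induction n with
  | zero => exact hf
  | succ n ih =>
    simp only [Tn_succ]
    refine measurable_msum (f := fun (p : T × Vd d) z =>
      G1 K S p.2 z * Tn K S (η p.1) n (f p.1) z) ?_ (hη.comp measurable_fst)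
    refine (measurable_G1 (measurable_snd.comp measurable_fst) measurable_snd).mul ?_
    exact ih.comp ((measurable_fst.comp measurable_fst).prodMk measurable_snd)

lemma measurable_dl {f g : T → Vd d} (hf : Measurable f) (hg : Measurable g) :
    Measurable fun t => dl (f t) (g t) := by
  unfold dl
  refine Measurable.ite ?_ measurable_const measurable_const
  exact measurableSet_eq_fun hg hf

end meas

instance (d : ℕ) (K : ℝ) : IsFiniteMeasure (lam d K) := by
  infer_instance

/-- expected number of walks -/
theorem walks_le (hd : 1 ≤ d) (hK : 0 < K) (hS : 0 ≤ S) (L : ℕ) : ∀ (K₁ : Multiset (Vd d))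
    (x : Vd d), ∫⁻ η, Tn K S (K₁ + η) L (fun _ => 1) x ∂(PP (lam d K)) ≤
      (ENNReal.ofReal S + (Multiset.card K₁ : ℝ≥0∞) + (L : ℝ≥0∞)) ^ L := by
  induction L with
  | zero =>
    intro K₁ x
    simp [Tn_zero]
  | succ L ih =>
    intro K₁ x
    set A : ℝ≥0∞ := ENNReal.ofReal S with hA
    set c : ℝ≥0∞ := (Multiset.card K₁ : ℝ≥0∞) with hc
    have hm : ∀ (K₂ : Multiset (Vd d)), Measurable fun p : Multiset (Vd d) × Vd d =>
        Tn K S (K₂ + p.1) L (fun _ => 1) p.2 := by
      intro K₂
      have := measurable_Tn (K := K) (S := S) (T := Multiset (Vd d)) (η := fun η => K₂ + η)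
        (measurable_madd measurable_const measurable_id) (f := fun _ _ => 1) measurable_const L
      exact this
    have h1 : ∀ η : Multiset (Vd d), Tn K S (K₁ + η) (L + 1) (fun _ => 1) x =
        (K₁.map fun z => G1 K S x z * Tn K S (K₁ + η) L (fun _ => 1) z).sum +
        (η.map fun z => G1 K S x z * Tn K S (K₁ + η) L (fun _ => 1) z).sum := by
      intro η
      rw [Tn_succ, Multiset.map_add, Multiset.sum_add]
    simp only [h1]
    have hmG : ∀ z : Vd d, Measurable fun η : Multiset (Vd d) =>
        G1 K S x z * Tn K S (K₁ + η) L (fun _ => 1) z := fun z =>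
      measurable_const.mul ((hm K₁).comp (measurable_id.prodMk measurable_const))
    rw [lintegral_add_left]
    · have hfirst : ∫⁻ η, (K₁.map fun z => G1 K S x z *
          Tn K S (K₁ + η) L (fun _ => 1) z).sum ∂(PP (lam d K)) ≤ c * (A + c + L) ^ L := by
        have h2 : ∀ t : Multiset (Vd d), ∫⁻ η, (t.map fun z => G1 K S x z *
            Tn K S (K₁ + η) L (fun _ => 1) z).sum ∂(PP (lam d K)) ≤
              (Multiset.card t : ℝ≥0∞) * (A + c + L) ^ L := by
          intro t
          induction t using Multiset.induction_on with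
          | empty => simp
          | cons a t iht =>
            simp only [Multiset.map_cons, Multiset.sum_cons, Multiset.card_cons]
            rw [lintegral_add_left (hmG a)]
            push_cast
            rw [add_mul, one_mul, add_comm]
            refine add_le_add iht ?_
            refine le_trans (lintegral_mono fun η => ?_) (ih K₁ a)
            have : G1 K S x a ≤ 1 := by unfold G1; split_ifs <;> simp
            calc G1 K S x a * Tn K S (K₁ + η) L (fun _ => 1) a
                ≤ 1 * Tn K S (K₁ + η) L (fun _ => 1) a := mul_le_mul_left this _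
              _ = _ := one_mul _
        exact h2 K₁
      have hsecond : ∫⁻ η, (η.map fun z => G1 K S x z *
          Tn K S (K₁ + η) L (fun _ => 1) z).sum ∂(PP (lam d K)) ≤ A * (A + c + L + 1) ^ L := by
        rw [PP_mecke (lam d K) (G := fun z η => G1 K S x z * Tn K S (K₁ + η) L (fun _ => 1) z)]
        · have h3 : ∀ z : Vd d, ∫⁻ η, G1 K S x z * Tn K S (K₁ + z ::ₘ η) L (fun _ => 1) z
              ∂(PP (lam d K)) ≤ (Bs K S x).indicator (fun _ => (A + c + L + 1) ^ L) z := by
            intro z
            by_cases hz : z ∈ Bs K S x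
            · rw [indicator_of_mem hz]
              have h4 : G1 K S x z = 1 := by unfold G1; rw [if_pos hz]
              simp only [h4, one_mul]
              have h5 := ih (z ::ₘ K₁) z
              have h6 : ∀ η : Multiset (Vd d), K₁ + z ::ₘ η = z ::ₘ K₁ + η := by
                intro η
                rw [Multiset.add_cons, Multiset.cons_add]
              simp only [h6]
              refine h5.trans (le_of_eq ?_)
              rw [Multiset.card_cons]
              push_cast
              rw [← hc]
              ring
            · rw [indicator_of_notMem hz]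
              have h4 : G1 K S x z = 0 := by unfold G1; rw [if_neg hz]
              simp [h4]
          refine (lintegral_mono h3).trans ?_
          rw [lintegral_indicator_const (measurableSet_Bs K S x), mul_comm]
          exact mul_le_mul_left (lam_Bs_le hd hK hS x) _
        · exact (measurable_G1 measurable_const measurable_fst).mul
            ((hm K₁).comp (measurable_snd.prodMk measurable_fst))
      refine (add_le_add hfirst hsecond).trans ?_
      have h7 : (A + c + L) ^ L ≤ (A + c + L + 1) ^ L := pow_le_pow_left' le_self_add L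
      have h8 : A + c ≤ A + c + L + 1 := by
        rw [add_assoc (A + c)]
        exact le_self_add
      calc c * (A + c + L) ^ L + A * (A + c + L + 1) ^ L
          ≤ c * (A + c + L + 1) ^ L + A * (A + c + L + 1) ^ L := by gcongr
        _ = (A + c) * (A + c + L + 1) ^ L := by ring
        _ ≤ (A + c + L + 1) * (A + c + L + 1) ^ L := mul_le_mul_left h8 _
        _ = (A + c + ((L + 1 : ℕ) : ℝ≥0∞)) ^ (L + 1) := by
            push_cast
            rw [pow_succ]
            ring
    · refine measurable_msum (f := fun (η : Multiset (Vd d)) z =>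
        G1 K S x z * Tn K S (K₁ + η) L (fun _ => 1) z) ?_ measurable_const
      exact (measurable_G1 measurable_const measurable_snd).mul (hm K₁)

end CY

end Pool.Agent.TSPd97
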