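import Mathlib

/-!
MP_076557_pr (TSP constant in high dimension; helper97): common definitions.
-/

set_option autoImplicit false

open MeasureTheory ProbabilityTheory Filter Topology

namespace Pool.Agent.TSPd97

/-- length of the shortest closed tour -/
noncomputable def tsp {X : Type*} [PseudoMetricSpace X] {n : ℕ} (x : Fin n → X) : ℝ :=
  ⨅ σ : Equiv.Perm (Fin n), ∑ i : Fin n, dist (x (σ i)) (x (σ (finRotate n i)))

/-- unit cube -/
def cube (d : ℕ) : Set (EuclideanSpace ℝ (Fin d)) := {x | ∀ j, x j ∈ Set.Icc (0 : ℝ) 1}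

/-- sum of a function of pairs along the consecutive pairs of a list -/
def chainSum {A : Type*} (w : A → A → ℝ) : List A → ℝ
  | [] => 0
  | [_] => 0
  | a :: b :: l => w a b + chainSum w (b :: l)

/-- length of the path visiting the indices of a list in order -/
noncomputable def plen {X : Type*} [PseudoMetricSpace X] {n : ℕ} (x : Fin n → X) :
    List (Fin n) → ℝ := chainSum (fun a b => dist (x a) (x b))

/-- `φ (first) + φ (last)` for a nonempty list, `0` for the empty list -/
noncomputable def endSum {A : Type*} (φ : A → ℝ) (p : List A) : ℝ :=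
  match p with
  | [] => 0
  | a :: l => φ a + φ ((a :: l).getLast (List.cons_ne_nil a l))

/-- Poissonised expected tour length in the unit cube. -/
noncomputable def poisTSP (d : ℕ) (lam : ℝ) : ℝ :=
  ∑' n : ℕ, Real.exp (-lam) * lam ^ n / (n.factorial : ℝ) *
    ∫ x : Fin n → EuclideanSpace ℝ (Fin d), tsp x
      ∂(Measure.pi fun _ => (volume : Measure (EuclideanSpace ℝ (Fin d))).restrict (cube d))

/-- volume of the unit ball of `ℝ^d` -/
noncomputable def vball (d : ℕ) : ℝ :=
  (volume (Metric.ball (0 : EuclideanSpace ℝ (Fin d)) 1)).toReal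

/-- the leading factor -/
noncomputable def pref (d : ℕ) : ℝ :=
  Real.sqrt ((d : ℝ) / (2 * Real.pi * Real.exp 1)) * (Real.pi * d) ^ (1 / (2 * (d : ℝ)))

end Pool.Agent.TSPd97
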