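import Pool.Agent.TSPd97.PP2
import Pool.Agent.TSPd97.Defs

/-!
MP_076557_pr, helper97: point configurations in the cube, messages on them.
-/

set_option autoImplicit false

open MeasureTheory Set
open scoped ENNReal

namespace Pool.Agent.TSPd97

/-- Euclidean space -/
abbrev Vd (d : ℕ) := EuclideanSpace ℝ (Fin d)

/-- scaled distance `K |x-y|^d` (`K` = intensity times the volume of the unit ball) -/
noncomputable def sd {d : ℕ} (K : ℝ) (x y : Vd d) : ℝ := K * dist x y ^ d

/-- closed ball for the scaled distance -/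
def Bs {d : ℕ} (K S : ℝ) (x : Vd d) : Set (Vd d) := {z | sd K x z ≤ S}

/-- neighbours of a point -/
def Nb {d : ℕ} (K S : ℝ) (x : Vd d) : Set (Vd d) := {z | 0 < sd K x z ∧ sd K x z ≤ S}

/-- radius of `Bs K S x` -/
noncomputable def rad (d : ℕ) (K S : ℝ) : ℝ := (S / K) ^ (1 / (d : ℝ))

/-- intensity measure on the cube -/
noncomputable def lam (d : ℕ) (K : ℝ) : Measure (Vd d) :=
  ENNReal.ofReal (K / vball d) • (volume.restrict (cube d))

/-- the points at distance at least `ρ` from the complement of the cube -/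
def inner (d : ℕ) (ρ : ℝ) : Set (Vd d) := {x | Metric.closedBall x ρ ⊆ cube d}

section Msg

variable {V : Type*} {d : ℕ}

/-- messages: `msg h P v u` is the message of depth `h` of `v` in the configuration `P`,
ignoring the point `u` -/
noncomputable def msg (v0 : V) (Ψ : Multiset (ℝ × V) → V) (K S : ℝ) :
    ℕ → Multiset (Vd d) → Vd d → Vd d → V
  | 0, _, _, _ => v0
  | h + 1, P, v, u => Ψ ((restr (Nb K S v \ {u}) P).map
      (fun z => (sd K v z, msg v0 Ψ K S h P z v)))

/-- marked neighbourhood of `v` in `P`, ignoring `u` -/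
noncomputable def nbm (v0 : V) (Ψ : Multiset (ℝ × V) → V) (K S : ℝ) (h : ℕ)
    (P : Multiset (Vd d)) (v u : Vd d) : Multiset (ℝ × V) :=
  (restr (Nb K S v \ {u}) P).map (fun z => (sd K v z, msg v0 Ψ K S h P z v))

lemma msg_succ (v0 : V) (Ψ : Multiset (ℝ × V) → V) (K S : ℝ) (h : ℕ)
    (P : Multiset (Vd d)) (v u : Vd d) :
    msg v0 Ψ K S (h + 1) P v u = Ψ (nbm v0 Ψ K S h P v u) := rfl

/-- the laws of the messages on the tree -/
noncomputable def tmu [MeasurableSpace V] (v0 : V) (Ψ : Multiset (ℝ × V) → V) (S : ℝ) :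
    ℕ → Measure V
  | 0 => Measure.dirac v0
  | h + 1 => (PP ((volume.restrict (Ioc 0 S)).prod (tmu v0 Ψ S h))).map Ψ

/-- unexplored region when the balls around the points of `K₀` are explored -/
def unexp (K S : ℝ) (K₀ : Multiset (Vd d)) : Set (Vd d) :=
  {z | z ∈ cube d ∧ ∀ y ∈ K₀, S < sd K y z}

/-- marked neighbourhoods of the roots `x i` in the configuration `K₀ + ms x + η`;
only the points of `η` are listed -/
noncomputable def nbE (v0 : V) (Ψ : Multiset (ℝ × V) → V) (K S : ℝ) (h : ℕ) {q : ℕ}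
    (x : Fin q → Vd d) (K₀ η : Multiset (Vd d)) (i : Fin q) : Multiset (ℝ × V) :=
  (restr (Nb K S (x i)) η).map
    (fun z => (sd K (x i) z, msg v0 Ψ K S h (K₀ + ms x + η) z (x i)))

end Msg

end Pool.Agent.TSPd97
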