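import Pool.Agent.TSPd97.EucMeas
import Pool.Agent.TSPd97.Geo1
import Pool.Agent.TSPd97.Couple

/-!
MP_076557_pr (package NH, helper8): law comparison between the Poisson process in the
cube and the tree.
-/

set_option autoImplicit false

open MeasureTheory Set
open scoped ENNReal

namespace Pool.Agent.TSPd97

namespace LC

/-- the size of a ball intersection -/
noncomputable def eps (d : ℕ) : ℝ := (15 / 16 : ℝ) ^ ((d : ℝ) / 2)

lemma eps_nonneg (d : ℕ) : 0 ≤ eps d := by unfold eps; positivity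

section

variable {V : Type*} {d : ℕ}

/-- the map `z ↦ sd K x z` on the first coordinate -/
noncomputable def sdm (K : ℝ) (x : Vd d) (p : Vd d × V) : ℝ × V := (sd K x p.1, p.2)

/-- `sdm` on all coordinates of a family -/
noncomputable def mapG (K : ℝ) {q : ℕ} (x : Fin q → Vd d) (s : Fin q → Multiset (Vd d × V))
    (i : Fin q) : Multiset (ℝ × V) := (s i).map (sdm K (x i))

/-- images of the marked points near the roots -/
noncomputable def Fm (K S : ℝ) {q : ℕ} (x : Fin q → Vd d) (ξ : Multiset (Vd d × V)) (i : Fin q) :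
    Multiset (ℝ × V) :=
  (restr (Nb K S (x i) ×ˢ univ) ξ).map (sdm K (x i))

variable [MeasurableSpace V]

lemma measurable_sdm (K : ℝ) (x : Vd d) : Measurable (sdm K x : Vd d × V → ℝ × V) := by
  unfold sdm
  exact (measurable_sd measurable_const measurable_fst).prodMk measurable_snd

lemma measurable_mapG (K : ℝ) {q : ℕ} (x : Fin q → Vd d) :
    Measurable (mapG K x : (Fin q → Multiset (Vd d × V)) → Fin q → Multiset (ℝ × V)) := by
  unfold mapG
  exact measurable_pi_lambda _ fun i =>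
    (measurable_map_multiset (measurable_sdm K (x i))).comp (measurable_pi_apply i)

lemma measurable_Fm (K S : ℝ) {q : ℕ} (x : Fin q → Vd d) :
    Measurable (Fm K S x : Multiset (Vd d × V) → Fin q → Multiset (ℝ × V)) := by
  refine measurable_pi_lambda _ fun i => ?_
  unfold Fm
  exact (measurable_map_multiset (measurable_sdm K (x i))).comp
    (measurable_restr_const ((measurableSet_Nb K S (x i)).prod MeasurableSet.univ) measurable_id)

lemma Nb_subset_Bs (K S : ℝ) (x : Vd d) : Nb K S x ⊆ Bs K S x := fun _ hz => hz.2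

lemma fin_couple (hd : 1 ≤ d) {K S : ℝ} (hK : 0 < K) (hS : 0 ≤ S) (μ : Measure V)
    [IsProbabilityMeasure μ] {q : ℕ} (x : Fin q → Vd d) (hx : ∀ i, Bs K S (x i) ⊆ cube d)
    (A : Set (Vd d)) (hA : MeasurableSet A) (k₀ : ℕ)
    (hAk : ∀ i, lam d K (Nb K S (x i) \ A) ≤ k₀ * ENNReal.ofReal (S * eps d))
    (hsep2 : ∀ i j, i ≠ j → rad d K S / 2 ≤ dist (x i) (x j))
    (G : (Fin q → Multiset (ℝ × V)) → ℝ≥0∞) (hG : Measurable G) (hG1 : ∀ ζ, G ζ ≤ 1) :
    ∫⁻ ξ, G (Fm K S x ξ) ∂(PP (((lam d K).restrict A).prod μ)) ≤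
      ∫⁻ ζ, G ζ ∂(Measure.pi fun _ : Fin q => PP ((volume.restrict (Ioc 0 S)).prod μ))
        + (q * (k₀ * ENNReal.ofReal (S * eps d))
          + 2 * (q * (q * ENNReal.ofReal (S * eps d)))) := by
  have h1 : ((lam d K).restrict A).prod μ = ((lam d K).prod μ).restrict (A ×ˢ univ) := by
    rw [← Measure.prod_restrict, Measure.restrict_univ]
  have hGm : Measurable fun s : Fin q → Multiset (Vd d × V) => G (mapG K x s) :=
    hG.comp (measurable_mapG K x)
  have h2 := couple_family ((lam d K).prod μ) (A ×ˢ (univ : Set V)) (hA.prod MeasurableSet.univ)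
    (fun i => Nb K S (x i) ×ˢ (univ : Set V))
    (fun i => (measurableSet_Nb K S (x i)).prod MeasurableSet.univ)
    (fun s => G (mapG K x s)) hGm (fun s => hG1 _)
  rw [h1]
  refine h2.trans (add_le_add (le_of_eq ?_) (add_le_add ?_ ?_))
  · -- the limit
    have hlaw : ∀ i : Fin q, (PP (((lam d K).prod μ).restrict (Nb K S (x i) ×ˢ univ))).map
        (Multiset.map (sdm K (x i))) = PP ((volume.restrict (Ioc 0 S)).prod μ) := by
      intro i
      rw [PP_map _ (measurable_sdm K (x i))]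
      congr 1
      have h3 : Measurable (sd K (x i)) := measurable_sd measurable_const measurable_id
      have h4 := Measure.map_prod_map ((lam d K).restrict (Nb K S (x i))) μ h3
        (measurable_id (α := V))
      have e : (Prod.map (sd K (x i)) (id : V → V)) = sdm K (x i) := by
        funext p; rfl
      rw [Measure.map_id, e, map_sd hd hK hS (x i) (hx i)] at h4
      rw [h4, ← Measure.prod_restrict, Measure.restrict_univ]
    have hpi := Measure.pi_map_pi
      (μ := fun i : Fin q => PP (((lam d K).prod μ).restrict (Nb K S (x i) ×ˢ univ)))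
      (f := fun i => Multiset.map (sdm K (x i)))
      (hμ := fun i => by rw [hlaw i]; infer_instance)
      (fun i => (measurable_map_multiset (measurable_sdm K (x i))).aemeasurable)
    simp_rw [hlaw] at hpi
    rw [← hpi]
    exact (lintegral_map hG (measurable_mapG K x)).symm
  · -- the explored region
    have h5 : ∀ i : Fin q, ((lam d K).prod μ) (Nb K S (x i) ×ˢ univ \ A ×ˢ univ) ≤
        k₀ * ENNReal.ofReal (S * eps d) := by
      intro i
      have e : (Nb K S (x i) ×ˢ (univ : Set V) \ A ×ˢ univ) = (Nb K S (x i) \ A) ×ˢ univ := by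
        ext p; simp
      rw [e, Measure.prod_prod, measure_univ, mul_one]
      exact hAk i
    calc ∑ i : Fin q, ((lam d K).prod μ) (Nb K S (x i) ×ˢ univ \ A ×ˢ univ)
        ≤ ∑ _i : Fin q, k₀ * ENNReal.ofReal (S * eps d) := Finset.sum_le_sum fun i _ => h5 i
      _ = q * (k₀ * ENNReal.ofReal (S * eps d)) := by simp
  · refine mul_le_mul_right ?_ 2
    have h6 : ∀ i j : Fin q, (if i = j then 0 else
        ((lam d K).prod μ) ((Nb K S (x i) ×ˢ univ) ∩ (Nb K S (x j) ×ˢ univ))) ≤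
        ENNReal.ofReal (S * eps d) := by
      intro i j
      split_ifs with hij
      · exact zero_le
      · have e : (Nb K S (x i) ×ˢ (univ : Set V)) ∩ (Nb K S (x j) ×ˢ univ) =
            (Nb K S (x i) ∩ Nb K S (x j)) ×ˢ univ := by
          ext p; simp only [mem_inter_iff, mem_prod, mem_univ, and_true]
        rw [e, Measure.prod_prod, measure_univ, mul_one]
        exact (measure_mono (inter_subset_inter (Nb_subset_Bs K S _) (Nb_subset_Bs K S _))).trans
          (lam_inter_le hd hK hS _ _ (hsep2 i j hij))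
    calc ∑ i : Fin q, ∑ j : Fin q, (if i = j then 0 else
        ((lam d K).prod μ) ((Nb K S (x i) ×ˢ univ) ∩ (Nb K S (x j) ×ˢ univ)))
        ≤ ∑ _i : Fin q, ∑ _j : Fin q, ENNReal.ofReal (S * eps d) :=
          Finset.sum_le_sum fun i _ => Finset.sum_le_sum fun j _ => h6 i j
      _ = q * (q * ENNReal.ofReal (S * eps d)) := by simp

/-! ### the deterministic identity -/

/-- good configurations of first generation points -/
def good (K S : ℝ) {q n : ℕ} (x : Fin q → Vd d) (y : Fin n → Vd d) : Prop :=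
  (∀ j, (∀ i, rad d K S / 2 ≤ dist (x i) (y j)) ∧
    ∀ i i', i ≠ i' → y j ∈ Bs K S (x i) → y j ∉ Bs K S (x i')) ∧
  ∀ j j', j ≠ j' → S < sd K (y j) (y j')

omit [MeasurableSpace V] in
lemma restr_explored (hd : 1 ≤ d) {K S : ℝ} {q n : ℕ} (x : Fin q → Vd d)
    (K₀ : Multiset (Vd d)) (y : Fin n → Vd d) (hy : good K S x y)
    (hyA : ∀ j, y j ∈ unexp K S K₀) (t : Multiset (Vd d))
    (ht : ∀ z ∈ t, z ∈ unexp K S (K₀ + ms x)) (hS : 0 ≤ S) (i : Fin q) (j : Fin n)
    (hij : y j ∈ Nb K S (x i)) :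
    restr (Nb K S (y j) \ {x i}) (K₀ + ms x + (ms y + t)) = restr (Nb K S (y j)) t := by
  rw [restr_add, restr_add, restr_add]
  have h1 : restr (Nb K S (y j) \ {x i}) K₀ = 0 := by
    rw [restr_eq_zero]
    intro a ha hmem
    have h2 := (hyA j).2 a ha
    have h3 : sd K (y j) a ≤ S := hmem.1.2
    rw [sd_comm] at h3
    linarith
  have h2 : restr (Nb K S (y j) \ {x i}) (ms x) = 0 := by
    rw [restr_eq_zero]
    intro a ha hmem
    obtain ⟨i', rfl⟩ := mem_ms.1 ha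
    have hne : i ≠ i' := by
      rintro rfl
      exact hmem.2 rfl
    have h3 : sd K (y j) (x i') ≤ S := hmem.1.2
    rw [sd_comm] at h3
    exact (hy.1 j).2 i i' hne hij.2 h3
  have h3 : restr (Nb K S (y j) \ {x i}) (ms y) = 0 := by
    rw [restr_eq_zero]
    intro a ha hmem
    obtain ⟨j', rfl⟩ := mem_ms.1 ha
    have h4 : 0 < sd K (y j) (y j') := hmem.1.1
    have h5 : sd K (y j) (y j') ≤ S := hmem.1.2
    rcases eq_or_ne j j' with h | h
    · subst h
      rw [sd_self hd] at h4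
      exact lt_irrefl _ h4
    · have := hy.2 j j' h
      linarith
  rw [h1, h2, h3, zero_add, zero_add, zero_add]
  refine restr_congr fun a ha => ?_
  constructor
  · exact fun h => h.1
  · intro h
    refine ⟨h, ?_⟩
    intro hax
    have hax : a = x i := hax
    have h6 := (ht a ha).2 (x i) (Multiset.mem_add.2 (Or.inr (mem_ms.2 ⟨i, rfl⟩)))
    rw [hax, sd_self hd] at h6
    linarith

omit [MeasurableSpace V] in
lemma nbE_step (v0 : V) (Ψ : Multiset (ℝ × V) → V) (hd : 1 ≤ d) {K S : ℝ} (hS : 0 ≤ S)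
    (h : ℕ) {q n : ℕ} (x : Fin q → Vd d)
    (K₀ : Multiset (Vd d)) (y : Fin n → Vd d) (hy : good K S x y)
    (hyA : ∀ j, y j ∈ unexp K S K₀) (t : Multiset (Vd d))
    (ht : ∀ z ∈ t, z ∈ unexp K S (K₀ + ms x)) :
    nbE v0 Ψ K S (h + 1) x K₀ (ms y + t) =
      Fm K S x (ms fun j => (y j, Ψ (nbE v0 Ψ K S h y (K₀ + ms x) t j))) := by
  funext i
  have h1 : restr (Nb K S (x i)) t = 0 := by
    rw [restr_eq_zero]
    intro a ha hmem
    have h6 := (ht a ha).2 (x i) (Multiset.mem_add.2 (Or.inr (mem_ms.2 ⟨i, rfl⟩)))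
    have h7 : sd K (x i) a ≤ S := hmem.2
    linarith
  unfold nbE
  rw [restr_add, h1, add_zero]
  unfold Fm
  have e1 : ms y = (Finset.univ.val : Multiset (Fin n)).map y := rfl
  have e2 : (ms fun j => (y j, Ψ (nbE v0 Ψ K S h y (K₀ + ms x) t j))) =
      (Finset.univ.val : Multiset (Fin n)).map
        (fun j => (y j, Ψ (nbE v0 Ψ K S h y (K₀ + ms x) t j))) := rfl
  have e3 : (fun j => (y j, Ψ (nbE v0 Ψ K S h y (K₀ + ms x) t j))) ⁻¹'
      (Nb K S (x i) ×ˢ (univ : Set V)) = y ⁻¹' Nb K S (x i) := by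
    ext j; simp
  unfold nbE at e2 e3
  rw [e2, restr_map, e3, Multiset.map_map]
  conv_lhs => rw [e1, restr_map, Multiset.map_map, ← e1]
  refine Multiset.map_congr rfl fun j hj => ?_
  have hj' : y j ∈ Nb K S (x i) := (mem_restr.1 hj).2
  simp only [Function.comp_apply, sdm]
  rw [msg_succ]
  unfold nbm
  rw [restr_explored hd x K₀ y hy hyA t ht hS i j hj', add_assoc (K₀ + ms x) (ms y) t]

/-! ### bad configurations -/

/-- points too near to a root or in two balls -/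
def D1 (K S : ℝ) {q : ℕ} (x : Fin q → Vd d) : Set (Vd d) :=
  (⋃ i, {z | dist (x i) z ≤ rad d K S / 2}) ∪
    ⋃ i, ⋃ i', {z | i ≠ i' ∧ z ∈ Bs K S (x i) ∩ Bs K S (x i')}

/-- points not too near to the roots -/
def D2 (K S : ℝ) {q : ℕ} (x : Fin q → Vd d) : Set (Vd d) :=
  {z | ∀ i, rad d K S / 2 ≤ dist (x i) z}

/-- number of other points near `a` -/
noncomputable def cnt (K S : ℝ) (s : Multiset (Vd d)) (a : Vd d) : ℝ≥0∞ :=
  ((Multiset.card (restr (Bs K S a) s) - 1 : ℕ) : ℝ≥0∞)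

/-- number of bad events -/
noncomputable def bad (K S : ℝ) {q : ℕ} (x : Fin q → Vd d) (s : Multiset (Vd d)) : ℝ≥0∞ :=
  (Multiset.card (restr (D1 K S x) s) : ℝ≥0∞) +
    (s.map (fun a => (D2 K S x).indicator (cnt K S s) a)).sum

lemma measurableSet_D1 (K S : ℝ) {q : ℕ} (x : Fin q → Vd d) : MeasurableSet (D1 K S x) := by
  unfold D1
  refine MeasurableSet.union (MeasurableSet.iUnion fun i => ?_)
    (MeasurableSet.iUnion fun i => MeasurableSet.iUnion fun i' => ?_)
  · exact measurableSet_le (measurable_const.dist measurable_id) measurable_const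
  · exact (MeasurableSet.const _).inter ((measurableSet_Bs K S _).inter (measurableSet_Bs K S _))

lemma measurableSet_D2 (K S : ℝ) {q : ℕ} (x : Fin q → Vd d) : MeasurableSet (D2 K S x) := by
  have : D2 K S x = ⋂ i, {z | rad d K S / 2 ≤ dist (x i) z} := by
    ext z; simp [D2]
  rw [this]
  exact MeasurableSet.iInter fun i =>
    measurableSet_le measurable_const (measurable_const.dist measurable_id)

lemma measurable_cnt (K S : ℝ) :
    Measurable fun p : Multiset (Vd d) × Vd d => cnt K S p.1 p.2 := by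
  unfold cnt
  have h1 : MeasurableSet {r : (Multiset (Vd d) × Vd d) × Vd d | r.2 ∈ Bs K S r.1.2} :=
    (measurable_sd (K := K) (measurable_snd.comp measurable_fst)
      (measurable_snd (α := Multiset (Vd d) × Vd d) (β := Vd d))) measurableSet_Iic
  have h2 := measurable_mcard (measurable_restr
    (A := fun p : Multiset (Vd d) × Vd d => Bs K S p.2) h1 measurable_fst)
  have h3 : Measurable fun n : ℕ => ((n - 1 : ℕ) : ℝ≥0∞) := measurable_from_nat
  exact h3.comp h2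

lemma measurable_cntI (K S : ℝ) {q : ℕ} (x : Fin q → Vd d) :
    Measurable fun p : Multiset (Vd d) × Vd d => (D2 K S x).indicator (cnt K S p.1) p.2 := by
  have h : (fun p : Multiset (Vd d) × Vd d => (D2 K S x).indicator (cnt K S p.1) p.2) =
      (Prod.snd ⁻¹' D2 K S x).indicator (fun p : Multiset (Vd d) × Vd d => cnt K S p.1 p.2) := by
    funext p
    by_cases hp : p.2 ∈ D2 K S x
    · rw [indicator_of_mem hp, indicator_of_mem (show p ∈ Prod.snd ⁻¹' D2 K S x from hp)]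
    · rw [indicator_of_notMem hp, indicator_of_notMem (show p ∉ Prod.snd ⁻¹' D2 K S x from hp)]
  rw [h]
  exact (measurable_cnt K S).indicator (measurable_snd (measurableSet_D2 K S x))

/-- `cnt` restricted to the points of `D2` -/
noncomputable def cntI (K S : ℝ) {q : ℕ} (x : Fin q → Vd d) (a : Vd d) (s : Multiset (Vd d)) :
    ℝ≥0∞ := (D2 K S x).indicator (cnt K S s) a

lemma measurable_cntI' (K S : ℝ) {q : ℕ} (x : Fin q → Vd d) :
    Measurable fun p : Vd d × Multiset (Vd d) => cntI K S x p.1 p.2 := by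
  have h1 : Measurable fun p : Multiset (Vd d) × Vd d => cntI K S x p.2 p.1 :=
    measurable_cntI K S x
  have h2 : (fun p : Vd d × Multiset (Vd d) => cntI K S x p.1 p.2) =
      (fun p : Multiset (Vd d) × Vd d => cntI K S x p.2 p.1) ∘ Prod.swap := by
    funext p
    obtain ⟨a, s⟩ := p
    rfl
  rw [h2]
  exact h1.comp measurable_swap

lemma measurable_bad1 (K S : ℝ) {q : ℕ} (x : Fin q → Vd d) :
    Measurable fun s : Multiset (Vd d) => (Multiset.card (restr (D1 K S x) s) : ℝ≥0∞) := by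
  have h3 : Measurable fun n : ℕ => (n : ℝ≥0∞) := measurable_from_nat
  exact h3.comp (measurable_mcard (measurable_restr_const (measurableSet_D1 K S x)
    measurable_id))

lemma measurable_bad2 (K S : ℝ) {q : ℕ} (x : Fin q → Vd d) :
    Measurable fun s : Multiset (Vd d) =>
      (s.map (fun a => (D2 K S x).indicator (cnt K S s) a)).sum :=
  measurable_msum (f := fun (s : Multiset (Vd d)) a => (D2 K S x).indicator (cnt K S s) a)
    (measurable_cntI K S x) measurable_id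

lemma measurable_bad (K S : ℝ) {q : ℕ} (x : Fin q → Vd d) : Measurable (bad K S x) := by
  unfold bad
  exact (measurable_bad1 K S x).add (measurable_bad2 K S x)

lemma one_le_bad (hd : 1 ≤ d) {K S : ℝ} (hS : 0 ≤ S) {q n : ℕ} (x : Fin q → Vd d)
    (y : Fin n → Vd d) (hy : ¬ good K S x y) : 1 ≤ bad K S x (ms y) := by
  classical
  by_cases h1 : ∃ j, y j ∈ D1 K S x
  · obtain ⟨j, hj⟩ := h1
    have h2 : 1 ≤ Multiset.card (restr (D1 K S x) (ms y)) :=
      Multiset.card_pos_iff_exists_mem.2 ⟨y j, mem_restr.2 ⟨mem_ms.2 ⟨j, rfl⟩, hj⟩⟩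
    unfold bad
    refine le_add_right ?_
    exact_mod_cast h2
  · push Not at h1
    have hD2 : ∀ j, y j ∈ D2 K S x := by
      intro j i
      by_contra h
      exact h1 j (Or.inl (mem_iUnion.2 ⟨i, (not_le.1 h).le⟩))
    have h3 : ∃ j j', j ≠ j' ∧ sd K (y j) (y j') ≤ S := by
      by_contra h
      push Not at h
      apply hy
      refine ⟨fun j => ⟨hD2 j, fun i i' hii hi hi' => ?_⟩, fun j j' hjj => h j j' hjj⟩
      exact h1 j (Or.inr (mem_iUnion.2 ⟨i, mem_iUnion.2 ⟨i', ⟨hii, hi, hi'⟩⟩⟩))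
    obtain ⟨j, j', hjj, hs⟩ := h3
    have h4 : 2 ≤ Multiset.card (restr (Bs K S (y j)) (ms y)) := by
      rw [restr_ms, Multiset.card_map]
      have h5 : 1 < (Finset.univ.filter (fun i => y i ∈ Bs K S (y j))).card := by
        rw [Finset.one_lt_card]
        refine ⟨j, ?_, j', ?_, hjj⟩
        · rw [Finset.mem_filter]
          refine ⟨Finset.mem_univ _, ?_⟩
          change sd K (y j) (y j) ≤ S
          rw [sd_self hd]; exact hS
        · rw [Finset.mem_filter]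
          exact ⟨Finset.mem_univ _, hs⟩
      exact h5
    have h6 : (1 : ℝ≥0∞) ≤ (D2 K S x).indicator (cnt K S (ms y)) (y j) := by
      rw [indicator_of_mem (hD2 j)]
      unfold cnt
      have : 1 ≤ Multiset.card (restr (Bs K S (y j)) (ms y)) - 1 := by omega
      exact_mod_cast this
    unfold bad
    refine le_add_left (h6.trans ?_)
    rw [map_ms]
    have e : (ms fun i => (D2 K S x).indicator (cnt K S (ms y)) (y i)).sum =
        ∑ i, (D2 K S x).indicator (cnt K S (ms y)) (y i) := rfl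
    rw [e]
    exact Finset.single_le_sum (f := fun i => (D2 K S x).indicator (cnt K S (ms y)) (y i))
      (fun _ _ => zero_le) (Finset.mem_univ j)

/-- the union of the balls around the roots -/
def Un (K S : ℝ) {q : ℕ} (x : Fin q → Vd d) : Set (Vd d) := ⋃ i, Bs K S (x i)

lemma measurableSet_Un (K S : ℝ) {q : ℕ} (x : Fin q → Vd d) : MeasurableSet (Un K S x) :=
  MeasurableSet.iUnion fun i => measurableSet_Bs K S (x i)

lemma nu1_le (K S : ℝ) {q : ℕ} (x : Fin q → Vd d) (A B : Set (Vd d)) (hB : MeasurableSet B) :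
    (((lam d K).restrict A).restrict (Un K S x)) B ≤ lam d K (B ∩ Un K S x) := by
  rw [Measure.restrict_apply hB]
  exact Measure.restrict_le_self _

lemma nu1_univ (hd : 1 ≤ d) {K S : ℝ} (hK : 0 < K) (hS : 0 ≤ S) {q : ℕ} (x : Fin q → Vd d)
    (A : Set (Vd d)) :
    (((lam d K).restrict A).restrict (Un K S x)) univ ≤ q * ENNReal.ofReal S := by
  refine (nu1_le K S x A univ MeasurableSet.univ).trans ?_
  rw [univ_inter]
  unfold Un
  refine (measure_iUnion_fintype_le _ _).trans ?_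
  calc ∑ i : Fin q, lam d K (Bs K S (x i)) ≤ ∑ _i : Fin q, ENNReal.ofReal S :=
        Finset.sum_le_sum fun i _ => lam_Bs_le hd hK hS (x i)
    _ = q * ENNReal.ofReal S := by simp

lemma nu1_ball (hd : 1 ≤ d) {K S : ℝ} (hK : 0 < K) (hS : 0 ≤ S) {q : ℕ} (x : Fin q → Vd d)
    (A : Set (Vd d)) (a : Vd d) (ha : a ∈ D2 K S x) :
    (((lam d K).restrict A).restrict (Un K S x)) (Bs K S a) ≤
      q * ENNReal.ofReal (S * eps d) := by
  refine (nu1_le K S x A _ (measurableSet_Bs K S a)).trans ?_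
  unfold Un
  rw [inter_iUnion]
  refine (measure_iUnion_fintype_le _ _).trans ?_
  calc ∑ i : Fin q, lam d K (Bs K S a ∩ Bs K S (x i)) ≤
        ∑ _i : Fin q, ENNReal.ofReal (S * eps d) :=
        Finset.sum_le_sum fun i _ => lam_inter_le hd hK hS a (x i) (by
          rw [dist_comm]; exact ha i)
    _ = q * ENNReal.ofReal (S * eps d) := by simp

lemma nu1_D1 (hd : 1 ≤ d) {K S : ℝ} (hK : 0 < K) (hS : 0 ≤ S) {q : ℕ} (x : Fin q → Vd d)
    (hsep2 : ∀ i j, i ≠ j → rad d K S / 2 ≤ dist (x i) (x j)) (A : Set (Vd d)) :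
    (((lam d K).restrict A).restrict (Un K S x)) (D1 K S x) ≤
      q * ENNReal.ofReal (S * eps d) + q * (q * ENNReal.ofReal (S * eps d)) := by
  refine (nu1_le K S x A _ (measurableSet_D1 K S x)).trans ?_
  refine (measure_mono inter_subset_left).trans ?_
  unfold D1
  refine (measure_union_le _ _).trans (add_le_add ?_ ?_)
  · refine (measure_iUnion_fintype_le _ _).trans ?_
    calc ∑ i : Fin q, lam d K {z | dist (x i) z ≤ rad d K S / 2} ≤
          ∑ _i : Fin q, ENNReal.ofReal (S * eps d) :=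
          Finset.sum_le_sum fun i _ => lam_half_le hd hK hS (x i)
      _ = q * ENNReal.ofReal (S * eps d) := by simp
  · refine (measure_iUnion_fintype_le _ _).trans ?_
    have h1 : ∀ i : Fin q, lam d K (⋃ i', {z | i ≠ i' ∧ z ∈ Bs K S (x i) ∩ Bs K S (x i')}) ≤
        q * ENNReal.ofReal (S * eps d) := by
      intro i
      refine (measure_iUnion_fintype_le _ _).trans ?_
      have h2 : ∀ i' : Fin q, lam d K {z | i ≠ i' ∧ z ∈ Bs K S (x i) ∩ Bs K S (x i')} ≤
          ENNReal.ofReal (S * eps d) := by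
        intro i'
        by_cases h : i = i'
        · have e : {z | i ≠ i' ∧ z ∈ Bs K S (x i) ∩ Bs K S (x i')} = ∅ := by
            ext z; simp [h]
          rw [e, measure_empty]; exact zero_le
        · refine (measure_mono (fun z hz => hz.2)).trans (lam_inter_le hd hK hS _ _ (hsep2 i i' h))
      calc ∑ i' : Fin q, lam d K {z | i ≠ i' ∧ z ∈ Bs K S (x i) ∩ Bs K S (x i')} ≤
            ∑ _i' : Fin q, ENNReal.ofReal (S * eps d) := Finset.sum_le_sum fun i' _ => h2 i'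
        _ = q * ENNReal.ofReal (S * eps d) := by simp
    calc ∑ i : Fin q, lam d K (⋃ i', {z | i ≠ i' ∧ z ∈ Bs K S (x i) ∩ Bs K S (x i')}) ≤
          ∑ _i : Fin q, q * ENNReal.ofReal (S * eps d) := Finset.sum_le_sum fun i _ => h1 i
      _ = q * (q * ENNReal.ofReal (S * eps d)) := by simp

lemma lintegral_bad (hd : 1 ≤ d) {K S : ℝ} (hK : 0 < K) (hS : 0 ≤ S) {q : ℕ} (x : Fin q → Vd d)
    (hsep2 : ∀ i j, i ≠ j → rad d K S / 2 ≤ dist (x i) (x j)) (A : Set (Vd d)) :
    ∫⁻ s, bad K S x s ∂(PP (((lam d K).restrict A).restrict (Un K S x))) ≤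
      q * ENNReal.ofReal (S * eps d) + q * (q * ENNReal.ofReal (S * eps d))
        + (q * ENNReal.ofReal (S * eps d)) * (q * ENNReal.ofReal S) := by
  set ν₁ := ((lam d K).restrict A).restrict (Un K S x) with hν₁
  unfold bad
  rw [lintegral_add_left (measurable_bad1 K S x)]
  refine add_le_add ?_ ?_
  · have h4 := PP_mean_card ν₁ (measurableSet_D1 K S x)
    refine (le_of_eq h4).trans (nu1_D1 hd hK hS x hsep2 A)
  · have hGm : Measurable fun p : Vd d × Multiset (Vd d) => cntI K S x p.1 p.2 :=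
      measurable_cntI' K S x
    have hmk := PP_mecke ν₁ (G := cntI K S x) hGm
    refine (le_of_eq hmk).trans ?_
    unfold cntI
    have h5 : ∀ a : Vd d, ∫⁻ s, (D2 K S x).indicator (cnt K S (a ::ₘ s)) a ∂(PP ν₁) ≤
        q * ENNReal.ofReal (S * eps d) := by
      intro a
      by_cases ha : a ∈ D2 K S x
      · simp only [indicator_of_mem ha]
        have e : ∀ s : Multiset (Vd d), cnt K S (a ::ₘ s) a =
            (Multiset.card (restr (Bs K S a) s) : ℝ≥0∞) := by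
          intro s
          unfold cnt
          have hmem : a ∈ Bs K S a := by
            change sd K a a ≤ S
            rw [sd_self hd]; exact hS
          rw [restr_cons_mem _ hmem, Multiset.card_cons, Nat.add_sub_cancel]
        simp_rw [e]
        rw [PP_mean_card ν₁ (measurableSet_Bs K S a)]
        exact nu1_ball hd hK hS x A a ha
      · simp only [indicator_of_notMem ha]
        simp
    calc ∫⁻ a, ∫⁻ s, (D2 K S x).indicator (cnt K S (a ::ₘ s)) a ∂(PP ν₁) ∂ν₁ ≤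
          ∫⁻ _a, q * ENNReal.ofReal (S * eps d) ∂ν₁ := lintegral_mono h5
      _ = (q * ENNReal.ofReal (S * eps d)) * ν₁ univ := lintegral_const _
      _ ≤ (q * ENNReal.ofReal (S * eps d)) * (q * ENNReal.ofReal S) := by
          gcongr
          exact nu1_univ hd hK hS x A

/-! ### moments of the number of points -/

lemma PP_card {E : Type*} [MeasurableSpace E] (ν : Measure E) [IsFiniteMeasure ν] :
    ∫⁻ s, (Multiset.card s : ℝ≥0∞) ∂(PP ν) = ν univ := by
  have h := PP_mean_card ν MeasurableSet.univ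
  simpa using h

lemma measurable_cardE {E : Type*} [MeasurableSpace E] :
    Measurable fun s : Multiset E => (Multiset.card s : ℝ≥0∞) := by
  have h3 : Measurable fun n : ℕ => (n : ℝ≥0∞) := measurable_from_nat
  exact h3.comp measurable_card

lemma PP_card_sq {E : Type*} [MeasurableSpace E] (ν : Measure E) [IsFiniteMeasure ν] :
    ∫⁻ s, (Multiset.card s : ℝ≥0∞) ^ 2 ∂(PP ν) = ν univ * (ν univ + 1) := by
  have h := PP_mecke ν (G := fun _ s => (Multiset.card s : ℝ≥0∞))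
    (measurable_cardE.comp measurable_snd)
  have e : ∀ s : Multiset E, (s.map (fun _ => (Multiset.card s : ℝ≥0∞))).sum =
      (Multiset.card s : ℝ≥0∞) ^ 2 := by
    intro s
    rw [Multiset.map_const', Multiset.sum_replicate, nsmul_eq_mul, sq]
  simp_rw [e, Multiset.card_cons, Nat.cast_add, Nat.cast_one] at h
  rw [h]
  have h2 : ∫⁻ s, ((Multiset.card s : ℝ≥0∞) + 1) ∂(PP ν) = ν univ + 1 := by
    rw [lintegral_add_left measurable_cardE, PP_card]
    simp
  simp_rw [h2]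
  rw [lintegral_const, mul_comm]

lemma PP_card_add_sq {E : Type*} [MeasurableSpace E] (ν : Measure E) [IsFiniteMeasure ν]
    {L : ℝ≥0∞} (c : ℝ≥0∞) (hL : ν univ ≤ L) :
    ∫⁻ s, ((Multiset.card s : ℝ≥0∞) + c) ^ 2 ∂(PP ν) ≤ (L + c) ^ 2 + L := by
  have e : ∀ s : Multiset E, ((Multiset.card s : ℝ≥0∞) + c) ^ 2 =
      (Multiset.card s : ℝ≥0∞) ^ 2 + (2 * c) * (Multiset.card s : ℝ≥0∞) + c ^ 2 := by
    intro s; ring
  simp_rw [e]
  have m1 : Measurable fun s : Multiset E => (Multiset.card s : ℝ≥0∞) ^ 2 :=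
    measurable_cardE.pow_const 2
  have m2 : Measurable fun s : Multiset E => (2 * c) * (Multiset.card s : ℝ≥0∞) :=
    measurable_cardE.const_mul (2 * c)
  have m3 : Measurable fun s : Multiset E =>
      (Multiset.card s : ℝ≥0∞) ^ 2 + (2 * c) * (Multiset.card s : ℝ≥0∞) := m1.add m2
  rw [lintegral_add_left m3, lintegral_add_left m1, lintegral_const_mul _ measurable_cardE,
    PP_card, PP_card_sq]
  simp only [lintegral_const, measure_univ, mul_one]
  calc ν univ * (ν univ + 1) + 2 * c * ν univ + c ^ 2 ≤ L * (L + 1) + 2 * c * L + c ^ 2 := by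
        gcongr
    _ = (L + c) ^ 2 + L := by ring

/-! ### the explored region -/

lemma lam_diff_unexp (hd : 1 ≤ d) {K S : ℝ} (hK : 0 < K) (hS : 0 ≤ S) (x0 : Vd d)
    (K₀ : Multiset (Vd d)) (hsep : ∀ y ∈ K₀, rad d K S / 2 ≤ dist x0 y) :
    lam d K (Bs K S x0 \ unexp K S K₀) ≤
      (Multiset.card K₀ : ℝ≥0∞) * ENNReal.ofReal (S * eps d) := by
  induction K₀ using Multiset.induction_on with
  | empty =>
    have h1 : Bs K S x0 \ unexp K S (0 : Multiset (Vd d)) ⊆ (cube d)ᶜ := by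
      intro z hz hc
      exact hz.2 ⟨hc, fun y hy => absurd hy (Multiset.notMem_zero y)⟩
    have h2 : lam d K (cube d)ᶜ = 0 := by
      unfold lam
      rw [Measure.smul_apply, Measure.restrict_apply (measurableSet_cube d).compl]
      simp
    rw [measure_mono_null h1 h2]
    exact zero_le
  | cons a s ih =>
    have h1 : Bs K S x0 \ unexp K S (a ::ₘ s) ⊆
        (Bs K S x0 ∩ Bs K S a) ∪ (Bs K S x0 \ unexp K S s) := by
      intro z hz
      by_cases ha : sd K a z ≤ S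
      · exact Or.inl ⟨hz.1, ha⟩
      · refine Or.inr ⟨hz.1, fun hu => hz.2 ⟨hu.1, fun y hy => ?_⟩⟩
        rcases Multiset.mem_cons.1 hy with h | h
        · rw [h]; exact not_le.1 ha
        · exact hu.2 y h
    refine (measure_mono h1).trans ((measure_union_le _ _).trans ?_)
    rw [Multiset.card_cons, Nat.cast_add, Nat.cast_one, add_mul, one_mul, add_comm]
    exact add_le_add (ih fun y hy => hsep y (Multiset.mem_cons_of_mem hy))
      (lam_inter_le hd hK hS _ _ (hsep a (Multiset.mem_cons_self a s)))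

lemma unexp_step {K S : ℝ} {q : ℕ} (x : Fin q → Vd d) (K₀ : Multiset (Vd d)) :
    (Un K S x)ᶜ ∩ unexp K S K₀ = unexp K S (K₀ + ms x) := by
  ext z
  simp only [unexp, Un, mem_inter_iff, mem_compl_iff, mem_iUnion, not_exists, mem_ofPred_eq,
    Multiset.mem_add, mem_ms, Bs, not_le]
  constructor
  · rintro ⟨h1, h2, h3⟩
    refine ⟨h2, ?_⟩
    rintro y (hy | ⟨i, rfl⟩)
    · exact h3 y hy
    · exact h1 i
  · rintro ⟨h1, h2⟩
    exact ⟨fun i => h2 _ (Or.inr ⟨i, rfl⟩), h1, fun y hy => h2 y (Or.inl hy)⟩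

lemma Bs_subset_cube (hd : 1 ≤ d) {K S : ℝ} (hK : 0 < K) (hS : 0 ≤ S) (h : ℕ) (x0 : Vd d)
    (hin : x0 ∈ inner d ((h + 1 : ℕ) * rad d K S)) : Bs K S x0 ⊆ cube d := by
  rw [GeoAux.Bs_eq hd hK hS]
  refine Subset.trans (Metric.closedBall_subset_closedBall ?_) hin
  have h1 := GeoAux.rad_nonneg (d := d) hK hS
  push_cast
  nlinarith [Nat.cast_nonneg (α := ℝ) h, mul_nonneg (Nat.cast_nonneg (α := ℝ) h) h1]

/-! ### arithmetic of the errors -/

lemma err_base {S ε : ℝ} (hS : 1 ≤ S) (hε : 0 ≤ ε) (q k₀ : ℕ) :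
    (q : ℝ≥0∞) * (k₀ * ENNReal.ofReal (S * ε)) + 2 * (q * (q * ENNReal.ofReal (S * ε))) ≤
      ENNReal.ofReal (ε * (S + 3) ^ (2 * 0 + 2) * ((q : ℝ) + (k₀ : ℝ) + 1) ^ 2) := by
  have hq : (0 : ℝ) ≤ q := Nat.cast_nonneg q
  have hk : (0 : ℝ) ≤ k₀ := Nat.cast_nonneg k₀
  have hSe : 0 ≤ S * ε := mul_nonneg (by linarith) hε
  have e : (q : ℝ≥0∞) * (k₀ * ENNReal.ofReal (S * ε)) + 2 * (q * (q * ENNReal.ofReal (S * ε))) =
      ENNReal.ofReal (q * (k₀ * (S * ε)) + 2 * (q * (q * (S * ε)))) := by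
    rw [ENNReal.ofReal_add (by positivity) (by positivity), ENNReal.ofReal_mul hq,
      ENNReal.ofReal_mul hk, ENNReal.ofReal_mul (by norm_num : (0 : ℝ) ≤ 2),
      ENNReal.ofReal_mul hq, ENNReal.ofReal_mul hq, ENNReal.ofReal_natCast,
      ENNReal.ofReal_natCast, ENNReal.ofReal_ofNat]
  rw [e]
  refine ENNReal.ofReal_le_ofReal ?_
  have h1 : (q * (k₀ * S) + 2 * (q * (q * S)) : ℝ) ≤ (S + 3) ^ 2 * ((q : ℝ) + k₀ + 1) ^ 2 := by
    have h2 : S * (2 * ((q : ℝ) + k₀ + 1) ^ 2) ≤ (S + 3) ^ 2 * ((q : ℝ) + k₀ + 1) ^ 2 := by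
      have : S * 2 ≤ (S + 3) ^ 2 := by nlinarith
      nlinarith [mul_le_mul_of_nonneg_right this (sq_nonneg ((q : ℝ) + k₀ + 1))]
    have h3 : (q * (k₀ * S) + 2 * (q * (q * S)) : ℝ) ≤ S * (2 * ((q : ℝ) + k₀ + 1) ^ 2) := by
      have h4 : (q * k₀ + 2 * (q * q) : ℝ) ≤ 2 * ((q : ℝ) + k₀ + 1) ^ 2 := by
        nlinarith [mul_nonneg hq hk, mul_nonneg hk hk]
      nlinarith [mul_le_mul_of_nonneg_left h4 (by linarith : (0 : ℝ) ≤ S)]
    linarith
  have h5 := mul_le_mul_of_nonneg_left h1 hε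
  have e2 : ε * (S + 3) ^ (2 * 0 + 2) * ((q : ℝ) + (k₀ : ℝ) + 1) ^ 2 =
      ε * ((S + 3) ^ 2 * ((q : ℝ) + k₀ + 1) ^ 2) := by ring
  have e3 : (q * (k₀ * (S * ε)) + 2 * (q * (q * (S * ε))) : ℝ) =
      ε * (q * (k₀ * S) + 2 * (q * (q * S))) := by ring
  rw [e2, e3]
  exact h5

lemma err_step {S ε : ℝ} (hS : 1 ≤ S) (hε : 0 ≤ ε) (q k₀ h : ℕ) :
    ((q : ℝ≥0∞) * ENNReal.ofReal (S * ε) + q * (q * ENNReal.ofReal (S * ε))
        + (q * ENNReal.ofReal (S * ε)) * (q * ENNReal.ofReal S))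
      + ((q : ℝ≥0∞) * (k₀ * ENNReal.ofReal (S * ε)) + 2 * (q * (q * ENNReal.ofReal (S * ε))))
      + ENNReal.ofReal (ε * (S + 3) ^ (2 * h + 2)) *
          ((q * ENNReal.ofReal S + (k₀ + q + 1)) ^ 2 + q * ENNReal.ofReal S) ≤
      ENNReal.ofReal (ε * (S + 3) ^ (2 * (h + 1) + 2) * ((q : ℝ) + (k₀ : ℝ) + 1) ^ 2) := by
  have hq : (0 : ℝ) ≤ q := Nat.cast_nonneg q
  have hk : (0 : ℝ) ≤ k₀ := Nat.cast_nonneg k₀
  have hS0 : 0 ≤ S := by linarith
  have hSe : 0 ≤ S * ε := mul_nonneg hS0 hε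
  have eq' : (q : ℝ≥0∞) = ENNReal.ofReal q := (ENNReal.ofReal_natCast q).symm
  have ek' : (k₀ : ℝ≥0∞) = ENNReal.ofReal k₀ := (ENNReal.ofReal_natCast k₀).symm
  have e2' : (2 : ℝ≥0∞) = ENNReal.ofReal 2 := (ENNReal.ofReal_ofNat 2).symm
  have e1' : (1 : ℝ≥0∞) = ENNReal.ofReal 1 := ENNReal.ofReal_one.symm
  have hX0 : 0 ≤ (S + 3) ^ (2 * h + 2) := by positivity
  have e : ((q : ℝ≥0∞) * ENNReal.ofReal (S * ε) + q * (q * ENNReal.ofReal (S * ε))
        + (q * ENNReal.ofReal (S * ε)) * (q * ENNReal.ofReal S))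
      + ((q : ℝ≥0∞) * (k₀ * ENNReal.ofReal (S * ε)) + 2 * (q * (q * ENNReal.ofReal (S * ε))))
      + ENNReal.ofReal (ε * (S + 3) ^ (2 * h + 2)) *
          ((q * ENNReal.ofReal S + (k₀ + q + 1)) ^ 2 + q * ENNReal.ofReal S) =
      ENNReal.ofReal ((q * (S * ε) + q * (q * (S * ε)) + (q * (S * ε)) * (q * S))
        + (q * (k₀ * (S * ε)) + 2 * (q * (q * (S * ε))))
        + (ε * (S + 3) ^ (2 * h + 2)) * ((q * S + (k₀ + q + 1)) ^ 2 + q * S)) := by
    have a1 : 0 ≤ (q : ℝ) * (S * ε) := by positivity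
    have a2 : 0 ≤ (q : ℝ) * (q * (S * ε)) := by positivity
    have a3 : 0 ≤ ((q : ℝ) * (S * ε)) * (q * S) := by positivity
    have a4 : 0 ≤ (q : ℝ) * (k₀ * (S * ε)) := by positivity
    have a5 : 0 ≤ 2 * ((q : ℝ) * (q * (S * ε))) := by positivity
    have a6 : 0 ≤ ε * (S + 3) ^ (2 * h + 2) := by positivity
    have a7 : (0 : ℝ) ≤ q * S := by positivity
    have a8 : (0 : ℝ) ≤ k₀ + q + 1 := by positivity
    rw [eq', ek', e2', e1']
    rw [ENNReal.ofReal_add (add_nonneg (add_nonneg (add_nonneg a1 a2) a3) (add_nonneg a4 a5))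
      (mul_nonneg a6 (add_nonneg (sq_nonneg _) a7)),
      ENNReal.ofReal_add (add_nonneg (add_nonneg a1 a2) a3) (add_nonneg a4 a5),
      ENNReal.ofReal_add (add_nonneg a1 a2) a3, ENNReal.ofReal_add a1 a2,
      ENNReal.ofReal_add a4 a5, ENNReal.ofReal_mul a6, ENNReal.ofReal_add (sq_nonneg _) a7,
      ENNReal.ofReal_pow (add_nonneg a7 a8), ENNReal.ofReal_add a7 a8,
      ENNReal.ofReal_add (by positivity) (by norm_num), ENNReal.ofReal_add hk hq,
      ENNReal.ofReal_mul a1, ENNReal.ofReal_mul (by norm_num : (0 : ℝ) ≤ 2),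
      ENNReal.ofReal_mul (p := (q : ℝ)) (q := (q : ℝ) * (S * ε)) hq,
      ENNReal.ofReal_mul (p := (q : ℝ)) (q := (k₀ : ℝ) * (S * ε)) hq,
      ENNReal.ofReal_mul (p := (k₀ : ℝ)) (q := S * ε) hk,
      ENNReal.ofReal_mul (p := (q : ℝ)) (q := S * ε) hq,
      ENNReal.ofReal_mul (p := (q : ℝ)) (q := S) hq]
  rw [e]
  refine ENNReal.ofReal_le_ofReal ?_
  set X := (S + 3) ^ (2 * h + 2) with hX
  set c : ℝ := (q : ℝ) + k₀ + 1 with hc
  have hX16 : (S + 3) ^ 2 ≤ X := by
    rw [hX]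
    exact pow_le_pow_right₀ (by linarith) (by omega)
  have hc0 : 0 ≤ c := by positivity
  have hqc : (q : ℝ) ≤ c := by rw [hc]; linarith
  have hkc : (k₀ : ℝ) ≤ c := by rw [hc]; linarith
  have h1c : 1 ≤ c := by rw [hc]; linarith
  have p1 : (q : ℝ) ≤ c ^ 2 := by nlinarith
  have p2 : (q : ℝ) * q ≤ c ^ 2 := by nlinarith
  have p3 : (q : ℝ) + q * k₀ + 2 * (q * q) + q * q ≤ 4 * c ^ 2 := by
    rw [hc]
    nlinarith [mul_nonneg hq hk, mul_nonneg hk hk, mul_nonneg hq hq]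
  have f1 : (q * (S * ε) + q * (q * (S * ε)) + (q * (S * ε)) * (q * S))
        + (q * (k₀ * (S * ε)) + 2 * (q * (q * (S * ε)))) =
      ε * (S * (q + q * k₀ + 2 * (q * q) + q * q) + S ^ 2 * (q * q)) := by ring
  have f2 : S * (q + q * k₀ + 2 * (q * q) + q * q) + S ^ 2 * (q * q) ≤ (S + 2) ^ 2 * c ^ 2 := by
    have g1 := mul_le_mul_of_nonneg_left p3 hS0
    have g2 := mul_le_mul_of_nonneg_left p2 (sq_nonneg S)
    nlinarith [sq_nonneg c]
  have f3 : (q * S + (k₀ + q + 1)) ^ 2 + q * S ≤ (S + 2) ^ 2 * c ^ 2 := by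
    have g1 : (q * S + (k₀ + q + 1)) ≤ (S + 1) * c := by
      rw [hc]; nlinarith [mul_nonneg hk hS0]
    have g2 : (q * S + (k₀ + q + 1)) ^ 2 ≤ ((S + 1) * c) ^ 2 :=
      pow_le_pow_left₀ (by positivity) g1 2
    have g3 : (q : ℝ) * S ≤ c ^ 2 * S := mul_le_mul_of_nonneg_right p1 hS0
    nlinarith [sq_nonneg c, mul_nonneg hS0 (sq_nonneg c)]
  rw [f1]
  have f4 : (S + 3) ^ (2 * (h + 1) + 2) = X * (S + 3) ^ 2 := by
    have e4 : 2 * (h + 1) + 2 = (2 * h + 2) + 2 := by ring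
    rw [hX, e4, pow_add]
  rw [f4]
  have f5 : ε * (S * (q + q * k₀ + 2 * (q * q) + q * q) + S ^ 2 * (q * q))
      ≤ ε * ((S + 2) ^ 2 * c ^ 2) := mul_le_mul_of_nonneg_left f2 hε
  have f6 : ε * X * ((q * S + (k₀ + q + 1)) ^ 2 + q * S) ≤ ε * X * ((S + 2) ^ 2 * c ^ 2) :=
    mul_le_mul_of_nonneg_left f3 (by positivity)
  have f7 : (S + 2) ^ 2 + X * (S + 2) ^ 2 ≤ X * (S + 3) ^ 2 := by
    nlinarith [mul_nonneg hX0 hS0]
  have f8 := mul_le_mul_of_nonneg_left (mul_le_mul_of_nonneg_right f7 (sq_nonneg c)) hε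
  calc _ ≤ ε * ((S + 2) ^ 2 * c ^ 2) + ε * X * ((S + 2) ^ 2 * c ^ 2) := add_le_add f5 f6
    _ = ε * (((S + 2) ^ 2 + X * (S + 2) ^ 2) * c ^ 2) := by ring
    _ ≤ ε * (X * (S + 3) ^ 2 * c ^ 2) := f8
    _ = ε * (X * (S + 3) ^ 2) * c ^ 2 := by ring

/-! ### the base of the induction -/

lemma inner_next (hd : 1 ≤ d) {K S : ℝ} (hK : 0 < K) (hS : 0 ≤ S) (h : ℕ) {x0 y0 : Vd d}
    (hin : x0 ∈ inner d ((h + 1 + 1 : ℕ) * rad d K S)) (hxy : y0 ∈ Bs K S x0) :
    y0 ∈ inner d ((h + 1 : ℕ) * rad d K S) := by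
  have h1 : dist x0 y0 ≤ rad d K S := (sd_le_iff hd hK hS x0 y0).1 hxy
  refine Subset.trans (Metric.closedBall_subset_closedBall' ?_) hin
  rw [dist_comm y0 x0]
  push_cast
  linarith

omit [MeasurableSpace V] in
lemma nbE_zero (v0 : V) (Ψ : Multiset (ℝ × V) → V) (K S : ℝ) {q : ℕ} (x : Fin q → Vd d)
    (K₀ η : Multiset (Vd d)) :
    nbE v0 Ψ K S 0 x K₀ η = Fm K S x (η.map fun z => (z, v0)) := by
  funext i
  unfold nbE Fm
  have e3 : (fun z : Vd d => (z, v0)) ⁻¹' (Nb K S (x i) ×ˢ (univ : Set V)) = Nb K S (x i) := by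
    ext j; simp
  rw [restr_map, e3, Multiset.map_map]
  rfl

lemma law_zero (v0 : V) (Ψ : Multiset (ℝ × V) → V) (hd : 1 ≤ d) {K S : ℝ} (hK : 0 < K)
    (hS : 1 ≤ S) {q : ℕ} (x : Fin q → Vd d) (K₀ : Multiset (Vd d))
    (hin : ∀ i, x i ∈ inner d ((0 + 1 : ℕ) * rad d K S))
    (hsep : ∀ i, ∀ y ∈ K₀, rad d K S / 2 ≤ dist (x i) y)
    (hsep2 : ∀ i j, i ≠ j → rad d K S / 2 ≤ dist (x i) (x j))
    (G : (Fin q → Multiset (ℝ × V)) → ℝ≥0∞) (hG : Measurable G) (hG1 : ∀ ζ, G ζ ≤ 1) :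
    ∫⁻ η, G (nbE v0 Ψ K S 0 x K₀ η) ∂(PP ((lam d K).restrict (unexp K S K₀)))
      ≤ ∫⁻ ζ, G ζ ∂(Measure.pi fun _ : Fin q =>
          PP ((volume.restrict (Ioc 0 S)).prod (tmu v0 Ψ S 0)))
        + ENNReal.ofReal (eps d * (S + 3) ^ (2 * 0 + 2)
            * ((q : ℝ) + (Multiset.card K₀ : ℝ) + 1) ^ 2) := by
  have hS0 : 0 ≤ S := by linarith
  have hι : Measurable fun z : Vd d => (z, v0) := measurable_id.prodMk measurable_const
  have hGF : Measurable fun ξ : Multiset (Vd d × V) => G (Fm K S x ξ) :=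
    hG.comp (measurable_Fm K S x)
  have e1 : ∫⁻ η, G (nbE v0 Ψ K S 0 x K₀ η) ∂(PP ((lam d K).restrict (unexp K S K₀))) =
      ∫⁻ ξ, G (Fm K S x ξ) ∂(PP (((lam d K).restrict (unexp K S K₀)).prod
        (Measure.dirac v0))) := by
    rw [Measure.prod_dirac, ← PP_map _ hι, lintegral_map hGF (measurable_map_multiset hι)]
    refine lintegral_congr fun η => ?_
    rw [nbE_zero]
  rw [e1]
  have h1 := fin_couple hd hK hS0 (Measure.dirac v0) x
    (fun i => Bs_subset_cube hd hK hS0 0 (x i) (hin i)) (unexp K S K₀)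
    (measurableSet_unexp K S K₀) (Multiset.card K₀)
    (fun i => (measure_mono (sdiff_subset_sdiff_left (Nb_subset_Bs K S (x i)))).trans
      (lam_diff_unexp hd hK hS0 (x i) K₀ (hsep i))) hsep2 G hG hG1
  refine h1.trans ?_
  have h2 : tmu v0 Ψ S 0 = Measure.dirac v0 := rfl
  rw [h2]
  gcongr
  exact err_base hS (eps_nonneg d) q (Multiset.card K₀)

/-! ### the induction step -/

/-- integral over independent marks -/
noncomputable def Jm (K S : ℝ) (W : Measure V) {q : ℕ} (x : Fin q → Vd d)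
    (G : (Fin q → Multiset (ℝ × V)) → ℝ≥0∞) {n : ℕ} (y : Fin n → Vd d) : ℝ≥0∞ :=
  ∫⁻ w : Fin n → V, G (Fm K S x (ms fun j => (y j, w j))) ∂(Measure.pi fun _ => W)

lemma measurable_Jm (K S : ℝ) (W : Measure V) [IsProbabilityMeasure W] {q : ℕ} (x : Fin q → Vd d)
    {G : (Fin q → Multiset (ℝ × V)) → ℝ≥0∞} (hG : Measurable G) {n : ℕ} :
    Measurable (Jm K S W x G : (Fin n → Vd d) → ℝ≥0∞) := by
  unfold Jm
  have h1 : Measurable fun p : (Fin n → Vd d) × (Fin n → V) => fun j : Fin n => (p.1 j, p.2 j) :=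
    measurable_pi_lambda _ fun j => ((measurable_pi_apply j).comp measurable_fst).prodMk
      ((measurable_pi_apply j).comp measurable_snd)
  have h2 : Measurable fun p : (Fin n → Vd d) × (Fin n → V) =>
      G (Fm K S x (ms fun j => (p.1 j, p.2 j))) :=
    hG.comp ((measurable_Fm K S x).comp (measurable_ms.comp h1))
  exact h2.lintegral_prod_right'

lemma pi_marks (v0 : V) {Ψ : Multiset (ℝ × V) → V} (hΨ : Measurable Ψ) (S : ℝ) (h n : ℕ)
    {H : (Fin n → V) → ℝ≥0∞} (hH : Measurable H) :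
    ∫⁻ ζ : Fin n → Multiset (ℝ × V), H (fun j => Ψ (ζ j)) ∂(Measure.pi fun _ : Fin n =>
      PP ((volume.restrict (Ioc 0 S)).prod (tmu v0 Ψ S h))) =
      ∫⁻ w, H w ∂(Measure.pi fun _ : Fin n => tmu v0 Ψ S (h + 1)) := by
  have hp := tmu_prob v0 hΨ S h
  have hp' := tmu_prob v0 hΨ S (h + 1)
  have e : (PP ((volume.restrict (Ioc 0 S)).prod (tmu v0 Ψ S h))).map Ψ = tmu v0 Ψ S (h + 1) :=
    rfl
  have hpi := Measure.pi_map_pi
    (μ := fun _ : Fin n => PP ((volume.restrict (Ioc 0 S)).prod (tmu v0 Ψ S h)))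
    (f := fun _ => Ψ) (hμ := fun _ => by rw [e]; infer_instance) (fun _ => hΨ.aemeasurable)
  simp_rw [e] at hpi
  have hm : Measurable fun (ζ : Fin n → Multiset (ℝ × V)) (j : Fin n) => Ψ (ζ j) :=
    measurable_pi_lambda _ fun j => hΨ.comp (measurable_pi_apply j)
  rw [← hpi, lintegral_map hH hm]

/-- the induction hypothesis -/
def Hyp (v0 : V) (Ψ : Multiset (ℝ × V) → V) (d : ℕ) (K S : ℝ) (h : ℕ) : Prop :=
  ∀ (q : ℕ) (x : Fin q → Vd d) (K₀ : Multiset (Vd d)),
    (∀ i, x i ∈ inner d ((h + 1 : ℕ) * rad d K S)) →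
    (∀ i, ∀ y ∈ K₀, rad d K S / 2 ≤ dist (x i) y) →
    (∀ i j, i ≠ j → rad d K S / 2 ≤ dist (x i) (x j)) →
    ∀ (G : (Fin q → Multiset (ℝ × V)) → ℝ≥0∞), Measurable G → (∀ ζ, G ζ ≤ 1) →
    ∫⁻ η, G (nbE v0 Ψ K S h x K₀ η) ∂(PP ((lam d K).restrict (unexp K S K₀)))
      ≤ ∫⁻ ζ, G ζ ∂(Measure.pi fun _ : Fin q =>
          PP ((volume.restrict (Ioc 0 S)).prod (tmu v0 Ψ S h)))
        + ENNReal.ofReal (eps d * (S + 3) ^ (2 * h + 2)
            * ((q : ℝ) + (Multiset.card K₀ : ℝ) + 1) ^ 2)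

lemma point_bound (v0 : V) {Ψ : Multiset (ℝ × V) → V} (hΨ : Measurable Ψ) (hd : 1 ≤ d)
    {K S : ℝ} (hK : 0 < K) (hS : 1 ≤ S) (h : ℕ) (ih : Hyp v0 Ψ d K S h)
    {q : ℕ} (x : Fin q → Vd d) (K₀ : Multiset (Vd d))
    (hin : ∀ i, x i ∈ inner d ((h + 1 + 1 : ℕ) * rad d K S))
    (G : (Fin q → Multiset (ℝ × V)) → ℝ≥0∞) (hG : Measurable G) (hG1 : ∀ ζ, G ζ ≤ 1)
    {n : ℕ} (y : Fin n → Vd d) (hyU : ∀ j, y j ∈ Un K S x) (hyA : ∀ j, y j ∈ unexp K S K₀) :
    ∫⁻ t, G (nbE v0 Ψ K S (h + 1) x K₀ (ms y + t))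
        ∂(PP ((lam d K).restrict (unexp K S (K₀ + ms x)))) ≤
      bad K S x (ms y) + Jm K S (tmu v0 Ψ S (h + 1)) x G y
        + ENNReal.ofReal (eps d * (S + 3) ^ (2 * h + 2)) *
          ((Multiset.card (ms y) : ℝ≥0∞) + ((Multiset.card K₀ : ℝ≥0∞) + q + 1)) ^ 2 := by
  have hS0 : 0 ≤ S := by linarith
  have hr := GeoAux.rad_nonneg (d := d) hK hS0
  by_cases hy : good K S x y
  · -- good configurations
    have hae : ∀ᵐ t ∂(PP ((lam d K).restrict (unexp K S (K₀ + ms x)))),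
        ∀ z ∈ t, z ∈ unexp K S (K₀ + ms x) := by
      refine ae_PP_forall _ (measurableSet_unexp K S _) ?_
      rw [Measure.restrict_apply (measurableSet_unexp K S _).compl]
      simp
    have e1 : ∫⁻ t, G (nbE v0 Ψ K S (h + 1) x K₀ (ms y + t))
        ∂(PP ((lam d K).restrict (unexp K S (K₀ + ms x)))) =
        ∫⁻ t, G (Fm K S x (ms fun j => (y j, Ψ (nbE v0 Ψ K S h y (K₀ + ms x) t j))))
        ∂(PP ((lam d K).restrict (unexp K S (K₀ + ms x)))) := by
      refine lintegral_congr_ae ?_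
      filter_upwards [hae] with t ht
      rw [nbE_step v0 Ψ hd hS0 h x K₀ y hy hyA t ht]
    rw [e1]
    have hm1 : Measurable fun w : Fin n → V => G (Fm K S x (ms fun j => (y j, w j))) :=
      hG.comp ((measurable_Fm K S x).comp (measurable_ms.comp
        (measurable_pi_lambda _ fun j => measurable_const.prodMk (measurable_pi_apply j))))
    have hm2 : Measurable fun ζ : Fin n → Multiset (ℝ × V) =>
        G (Fm K S x (ms fun j => (y j, Ψ (ζ j)))) :=
      hm1.comp (measurable_pi_lambda _ fun j => hΨ.comp (measurable_pi_apply j))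
    have h1 := ih n y (K₀ + ms x) (fun j => by
        obtain ⟨i, hi⟩ := mem_iUnion.1 (hyU j)
        exact inner_next hd hK hS0 h (hin i) hi)
      (fun j a ha => by
        rcases Multiset.mem_add.1 ha with ha | ha
        · have h2 := (hyA j).2 a ha
          have h3 : ¬ dist a (y j) ≤ rad d K S := fun h4 =>
            absurd ((sd_le_iff hd hK hS0 a (y j)).2 h4) (not_le.2 h2)
          rw [dist_comm]
          linarith
        · obtain ⟨i, rfl⟩ := mem_ms.1 ha
          rw [dist_comm]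
          exact (hy.1 j).1 i)
      (fun j j' hjj => by
        have h2 := hy.2 j j' hjj
        have h3 : ¬ dist (y j) (y j') ≤ rad d K S := fun h4 =>
          absurd ((sd_le_iff hd hK hS0 (y j) (y j')).2 h4) (not_le.2 h2)
        linarith)
      (fun ζ => G (Fm K S x (ms fun j => (y j, Ψ (ζ j))))) hm2 (fun ζ => hG1 _)
    have h2 := pi_marks v0 hΨ S h n hm1
    rw [h2] at h1
    refine h1.trans ?_
    have h3 : ENNReal.ofReal (eps d * (S + 3) ^ (2 * h + 2)
        * ((n : ℝ) + (Multiset.card (K₀ + ms x) : ℝ) + 1) ^ 2) =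
        ENNReal.ofReal (eps d * (S + 3) ^ (2 * h + 2)) *
          ((Multiset.card (ms y) : ℝ≥0∞) + ((Multiset.card K₀ : ℝ≥0∞) + q + 1)) ^ 2 := by
      have h4 := eps_nonneg d
      rw [ENNReal.ofReal_mul (by positivity), ENNReal.ofReal_pow (by positivity)]
      congr 2
      rw [card_ms, Multiset.card_add, card_ms, ENNReal.ofReal_add (by positivity) (by norm_num),
        ENNReal.ofReal_add (by positivity) (by positivity), ENNReal.ofReal_natCast,
        ENNReal.ofReal_natCast, ENNReal.ofReal_one]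
      push_cast
      ring
    rw [h3]
    unfold Jm
    gcongr
    exact le_add_left le_rfl
  · -- bad configurations
    have h1 : ∫⁻ t, G (nbE v0 Ψ K S (h + 1) x K₀ (ms y + t))
        ∂(PP ((lam d K).restrict (unexp K S (K₀ + ms x)))) ≤ 1 := by
      calc _ ≤ ∫⁻ _t, 1 ∂(PP ((lam d K).restrict (unexp K S (K₀ + ms x)))) :=
            lintegral_mono fun t => hG1 _
        _ = 1 := by simp
    refine h1.trans ((one_le_bad hd hS0 x y hy).trans ?_)
    rw [add_assoc]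
    exact le_add_right le_rfl

lemma law_step (v0 : V) {Ψ : Multiset (ℝ × V) → V} (hΨ : Measurable Ψ) (hd : 1 ≤ d)
    {K S : ℝ} (hK : 0 < K) (hS : 1 ≤ S) (h : ℕ) (ih : Hyp v0 Ψ d K S h) :
    Hyp v0 Ψ d K S (h + 1) := by
  intro q x K₀ hin hsep hsep2 G hG hG1
  have hS0 : 0 ≤ S := by linarith
  have hp := tmu_prob v0 hΨ S (h + 1)
  have hUm := measurableSet_Un K S x
  -- split
  have hGm : Measurable fun p : Multiset (Vd d) × Multiset (Vd d) =>
      G (nbE v0 Ψ K S (h + 1) x K₀ (p.1 + p.2)) := by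
    refine hG.comp (measurable_pi_lambda _ fun i => ?_)
    exact measurable_nbE v0 hΨ K S (h + 1) i (x := fun _ => x) measurable_const
      (K₀ := fun _ => K₀) measurable_const (η := fun p : Multiset (Vd d) × Multiset (Vd d) =>
        p.1 + p.2) (measurable_madd measurable_fst measurable_snd)
  have hsplit := lintegral_PP_split ((lam d K).restrict (unexp K S K₀)) hUm
    (G := fun s t => G (nbE v0 Ψ K S (h + 1) x K₀ (s + t))) hGm
  simp only [restr_add_compl] at hsplit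
  rw [hsplit, Measure.restrict_restrict hUm.compl, unexp_step x K₀]
  set ν₁ : Measure (Vd d) := ((lam d K).restrict (unexp K S K₀)).restrict (Un K S x) with hν₁
  set ν₂ : Measure (Vd d) := (lam d K).restrict (unexp K S (K₀ + ms x)) with hν₂
  set W : Measure V := tmu v0 Ψ S (h + 1) with hW
  set E₀ : ℝ≥0∞ := ENNReal.ofReal (eps d * (S + 3) ^ (2 * h + 2)) with hE₀
  set c : ℝ≥0∞ := ((Multiset.card K₀ : ℝ≥0∞) + q + 1) with hc
  have hΦm : Measurable fun s : Multiset (Vd d) =>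
      ∫⁻ t, G (nbE v0 Ψ K S (h + 1) x K₀ (s + t)) ∂(PP ν₂) := hGm.lintegral_prod_right'
  have hRm : Measurable fun s : Multiset (Vd d) =>
      E₀ * ((Multiset.card s : ℝ≥0∞) + c) ^ 2 :=
    ((measurable_cardE.add measurable_const).pow_const 2).const_mul E₀
  -- points are in the right sets
  have hyae : ∀ n : ℕ, ∀ᵐ y : Fin n → Vd d ∂(Measure.pi fun _ => ν₁),
      ∀ j, y j ∈ Un K S x ∧ y j ∈ unexp K S K₀ := by
    intro n
    rw [ae_all_iff]
    intro j
    have h1 : ∀ᵐ z ∂ν₁, z ∈ Un K S x ∧ z ∈ unexp K S K₀ := by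
      have h2 : ∀ᵐ z ∂ν₁, z ∈ Un K S x := ae_restrict_mem hUm
      have h3 : ∀ᵐ z ∂ν₁, z ∈ unexp K S K₀ :=
        ae_restrict_of_ae (ae_restrict_mem (measurableSet_unexp K S K₀))
      filter_upwards [h2, h3] with z h4 h5
      exact ⟨h4, h5⟩
    exact (Measure.quasiMeasurePreserving_eval (μ := fun _ : Fin n => ν₁) j).ae h1
  have hterm : ∀ n : ℕ, ∫⁻ y : Fin n → Vd d, (∫⁻ t, G (nbE v0 Ψ K S (h + 1) x K₀ (ms y + t))
      ∂(PP ν₂)) ∂(Measure.pi fun _ => ν₁) ≤
      (∫⁻ y : Fin n → Vd d, bad K S x (ms y) ∂(Measure.pi fun _ => ν₁)) +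
      (∫⁻ y : Fin n → Vd d, Jm K S W x G y ∂(Measure.pi fun _ => ν₁)) +
      (∫⁻ y : Fin n → Vd d, E₀ * ((Multiset.card (ms y) : ℝ≥0∞) + c) ^ 2
        ∂(Measure.pi fun _ => ν₁)) := by
    intro n
    have m1 : Measurable fun y : Fin n → Vd d => bad K S x (ms y) :=
      (measurable_bad K S x).comp measurable_ms
    have m2 : Measurable fun y : Fin n → Vd d => Jm K S W x G y := measurable_Jm K S W x hG
    have m12 : Measurable fun y : Fin n → Vd d => bad K S x (ms y) + Jm K S W x G y := m1.add m2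
    rw [← lintegral_add_left m1, ← lintegral_add_left m12]
    refine lintegral_mono_ae ?_
    filter_upwards [hyae n] with y hy
    exact point_bound v0 hΨ hd hK hS h ih x K₀ hin G hG hG1 y (fun j => (hy j).1)
      (fun j => (hy j).2)
  have hGF : Measurable fun ξ : Multiset (Vd d × V) => G (Fm K S x ξ) :=
    hG.comp (measurable_Fm K S x)
  have hmain : ∫⁻ s, ∫⁻ t, G (nbE v0 Ψ K S (h + 1) x K₀ (s + t)) ∂(PP ν₂) ∂(PP ν₁) ≤
      (∫⁻ s, bad K S x s ∂(PP ν₁)) + (∫⁻ ξ, G (Fm K S x ξ) ∂(PP (ν₁.prod W))) +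
      ∫⁻ s, E₀ * ((Multiset.card s : ℝ≥0∞) + c) ^ 2 ∂(PP ν₁) := by
    rw [lintegral_PP ν₁ hΦm, lintegral_PP ν₁ (measurable_bad K S x), lintegral_PP ν₁ hRm,
      lintegral_PP_prod ν₁ W hGF, ← ENNReal.tsum_add, ← ENNReal.tsum_add]
    refine ENNReal.tsum_le_tsum fun n => ?_
    rw [← mul_add, ← mul_add]
    gcongr
    exact hterm n
  refine hmain.trans ?_
  -- the three terms
  have hbad := lintegral_bad hd hK hS0 x hsep2 (unexp K S K₀)
  rw [← hν₁] at hbad
  have hν₁' : ν₁ = (lam d K).restrict (Un K S x ∩ unexp K S K₀) := by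
    rw [hν₁, Measure.restrict_restrict hUm]
  have hfin := fin_couple hd hK hS0 W x
    (fun i => Bs_subset_cube hd hK hS0 (h + 1) (x i) (hin i)) (Un K S x ∩ unexp K S K₀)
    (hUm.inter (measurableSet_unexp K S K₀)) (Multiset.card K₀)
    (fun i => (measure_mono (show Nb K S (x i) \ (Un K S x ∩ unexp K S K₀) ⊆
        Bs K S (x i) \ unexp K S K₀ from fun z hz => ⟨Nb_subset_Bs K S _ hz.1, fun hu =>
          hz.2 ⟨mem_iUnion.2 ⟨i, Nb_subset_Bs K S _ hz.1⟩, hu⟩⟩)).trans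
      (lam_diff_unexp hd hK hS0 (x i) K₀ (hsep i))) hsep2 G hG hG1
  rw [← hν₁'] at hfin
  have hR : ∫⁻ s, E₀ * ((Multiset.card s : ℝ≥0∞) + c) ^ 2 ∂(PP ν₁) ≤
      E₀ * (((q : ℝ≥0∞) * ENNReal.ofReal S + c) ^ 2 + q * ENNReal.ofReal S) := by
    have mc : Measurable fun s : Multiset (Vd d) => ((Multiset.card s : ℝ≥0∞) + c) ^ 2 :=
      (measurable_cardE.add measurable_const).pow_const 2
    rw [lintegral_const_mul _ mc]
    gcongr
    exact PP_card_add_sq ν₁ c (nu1_univ hd hK hS0 x _)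
  have hsum := err_step hS (eps_nonneg d) q (Multiset.card K₀) h
  calc _ ≤ ((q : ℝ≥0∞) * ENNReal.ofReal (S * eps d) + q * (q * ENNReal.ofReal (S * eps d))
        + (q * ENNReal.ofReal (S * eps d)) * (q * ENNReal.ofReal S)) +
        (∫⁻ ζ, G ζ ∂(Measure.pi fun _ : Fin q => PP ((volume.restrict (Ioc 0 S)).prod W))
        + (q * ((Multiset.card K₀ : ℝ≥0∞) * ENNReal.ofReal (S * eps d))
          + 2 * (q * (q * ENNReal.ofReal (S * eps d))))) +
        E₀ * (((q : ℝ≥0∞) * ENNReal.ofReal S + c) ^ 2 + q * ENNReal.ofReal S) :=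
        add_le_add (add_le_add hbad hfin) hR
    _ = (∫⁻ ζ, G ζ ∂(Measure.pi fun _ : Fin q => PP ((volume.restrict (Ioc 0 S)).prod W))) +
        (((q : ℝ≥0∞) * ENNReal.ofReal (S * eps d) + q * (q * ENNReal.ofReal (S * eps d))
        + (q * ENNReal.ofReal (S * eps d)) * (q * ENNReal.ofReal S))
        + (q * ((Multiset.card K₀ : ℝ≥0∞) * ENNReal.ofReal (S * eps d))
          + 2 * (q * (q * ENNReal.ofReal (S * eps d)))) +
        E₀ * (((q : ℝ≥0∞) * ENNReal.ofReal S + c) ^ 2 + q * ENNReal.ofReal S)) := by ring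
    _ ≤ _ := by gcongr

end

end LC

open LC in
theorem law_comparison {V : Type*} [MeasurableSpace V] (v0 : V) (Ψ : Multiset (ℝ × V) → V)
    (hΨ : Measurable Ψ) {d : ℕ} (hd : 1 ≤ d) {K S : ℝ} (hK : 0 < K) (hS : 1 ≤ S) (h : ℕ)
    {q : ℕ} (x : Fin q → Vd d) (K₀ : Multiset (Vd d))
    (hin : ∀ i, x i ∈ inner d ((h + 1 : ℕ) * rad d K S))
    (hsep : ∀ i, ∀ y ∈ K₀, rad d K S / 2 ≤ dist (x i) y)
    (hsep2 : ∀ i j, i ≠ j → rad d K S / 2 ≤ dist (x i) (x j))
    (G : (Fin q → Multiset (ℝ × V)) → ℝ≥0∞) (hG : Measurable G) (hG1 : ∀ ζ, G ζ ≤ 1) :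
    ∫⁻ η, G (nbE v0 Ψ K S h x K₀ η) ∂(PP ((lam d K).restrict (unexp K S K₀)))
      ≤ ∫⁻ ζ, G ζ ∂(Measure.pi fun _ : Fin q =>
          PP ((volume.restrict (Ioc 0 S)).prod (tmu v0 Ψ S h)))
        + ENNReal.ofReal ((15 / 16 : ℝ) ^ ((d : ℝ) / 2) * (S + 3) ^ (2 * h + 2)
            * ((q : ℝ) + (Multiset.card K₀ : ℝ) + 1) ^ 2) := by
  have main : ∀ h : ℕ, Hyp v0 Ψ d K S h := by
    intro h
    induction h with
    | zero =>
      intro q x K₀ hin hsep hsep2 G hG hG1
      exact law_zero v0 Ψ hd hK hS x K₀ hin hsep hsep2 G hG hG1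
    | succ h ih => exact law_step v0 hΨ hd hK hS h ih
  exact main h q x K₀ hin hsep hsep2 G hG hG1

end Pool.Agent.TSPd97
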