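import Mathlib

/-!
MP_076557_pr, helper97: the measurable structure of finite point configurations (multisets).
-/

set_option autoImplicit false

open MeasureTheory Set
open scoped ENNReal

namespace Pool.Agent.TSPd97

variable {E F T X : Type*}

/-- multiset of the entries of a tuple -/
def ms {n : ℕ} (x : Fin n → E) : Multiset E := Finset.univ.val.map x

@[simp] lemma card_ms {n : ℕ} (x : Fin n → E) : Multiset.card (ms x) = n := by
  simp [ms]

lemma ms_comp_perm {n : ℕ} (x : Fin n → E) (σ : Equiv.Perm (Fin n)) : ms (x ∘ σ) = ms x := by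
  unfold ms
  rw [← Multiset.map_map]
  congr 1
  have : (Finset.univ : Finset (Fin n)).map σ.toEmbedding = Finset.univ := by
    ext; simp
  conv_rhs => rw [← this]
  rfl

lemma ms_eq_ofFn {n : ℕ} (x : Fin n → E) : ms x = (List.ofFn x : Multiset E) := by
  unfold ms
  have : (Finset.univ : Finset (Fin n)).val = (List.finRange n : Multiset (Fin n)) := rfl
  rw [this, Multiset.map_coe, List.ofFn_eq_map]

lemma exists_ms (s : Multiset E) : ∃ x : Fin (Multiset.card s) → E, ms x = s := by
  induction s using Quotient.inductionOn with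
  | h l =>
    refine ⟨fun i => l.get i, ?_⟩
    rw [ms_eq_ofFn]
    exact congrArg _ (List.ofFn_get l)

lemma exists_perm_of_ms_eq {n : ℕ} (x y : Fin n → E) (h : ms x = ms y) :
    ∃ σ : Equiv.Perm (Fin n), x = y ∘ σ := by
  classical
  have hc : ∀ e : E, Nonempty ({i // x i = e} ≃ {i // y i = e}) := by
    intro e
    refine ⟨Fintype.equivOfCardEq ?_⟩
    have h1 := congrArg (Multiset.count e) h
    unfold ms at h1
    rw [Multiset.count_map, Multiset.count_map] at h1
    rw [Fintype.card_subtype, Fintype.card_subtype]
    simp only [eq_comm (a := e)] at h1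
    exact h1
  let f := fun e => Classical.choice (hc e)
  refine ⟨Equiv.ofFiberEquiv f, ?_⟩
  funext i
  exact (Equiv.ofFiberEquiv_map f i).symm

lemma indicator_iUnion_tsum (f : ℕ → Set E) (hd : Pairwise (Function.onFun Disjoint f)) (q : E) :
    (⋃ i, f i).indicator (fun _ => (1 : ℝ≥0∞)) q
      = ∑' i, (f i).indicator (fun _ => (1 : ℝ≥0∞)) q := by
  by_cases hq : q ∈ ⋃ i, f i
  · obtain ⟨i, hi⟩ := mem_iUnion.1 hq
    rw [indicator_of_mem hq, tsum_eq_single i, indicator_of_mem hi]
    intro j hj
    exact indicator_of_notMem (fun hjq => (Set.disjoint_left.1 (hd hj)) hjq hi) _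
  · rw [indicator_of_notMem hq]
    symm
    rw [ENNReal.tsum_eq_zero]
    intro i
    exact indicator_of_notMem (fun h => hq (mem_iUnion.2 ⟨i, h⟩)) _

lemma ms_cast {n m : ℕ} (h : n = m) (x : Fin m → E) :
    ms (fun i : Fin n => x (Fin.cast h i)) = ms x := by
  subst h; rfl

lemma exists_ms_of_card {n : ℕ} (s : Multiset E) (h : Multiset.card s = n) :
    ∃ x : Fin n → E, ms x = s := by
  subst h; exact exists_ms s

open Classical in
/-- number of orderings of `s` (of cardinality `n`) such that `(t, ordering) ∈ D` -/
noncomputable def symCount {n : ℕ} (D : Set (T × (Fin n → E))) (p : T × Multiset E) : ℝ≥0∞ :=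
  if h : Multiset.card p.2 = n then
    ∑ σ : Equiv.Perm (Fin n),
      D.indicator (fun _ => (1 : ℝ≥0∞))
        (p.1, (fun i => (exists_ms p.2).choose (Fin.cast h.symm i)) ∘ σ)
  else 0

lemma symCount_ms {n : ℕ} (D : Set (T × (Fin n → E))) (t : T) (x : Fin n → E) :
    symCount D (t, ms x)
      = ∑ σ : Equiv.Perm (Fin n), D.indicator (fun _ => (1 : ℝ≥0∞)) (t, x ∘ σ) := by
  have hcard : Multiset.card (ms x) = n := card_ms x
  unfold symCount
  rw [dif_pos hcard]
  simp only
  have hy : ms (fun i : Fin n => (exists_ms (ms x)).choose (Fin.cast hcard.symm i)) = ms x := by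
    rw [ms_cast hcard.symm]
    exact (exists_ms (ms x)).choose_spec
  obtain ⟨τ, hτ⟩ := exists_perm_of_ms_eq _ _ hy
  rw [hτ]
  exact Fintype.sum_equiv (Equiv.mulLeft τ) _ _ (fun σ => rfl)

lemma symCount_of_ne {n : ℕ} (D : Set (T × (Fin n → E))) (p : T × Multiset E)
    (h : Multiset.card p.2 ≠ n) : symCount D p = 0 := by
  unfold symCount
  rw [dif_neg h]

section Meas

variable [MeasurableSpace E] [MeasurableSpace F] [MeasurableSpace T] [MeasurableSpace X]

instance instMeasMultiset : MeasurableSpace (Multiset E) :=
  ⨅ n : ℕ, MeasurableSpace.map (fun x : Fin n → E => ms x) inferInstance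

lemma measurableSet_multiset {A : Set (Multiset E)} :
    MeasurableSet A ↔ ∀ n : ℕ, MeasurableSet {x : Fin n → E | ms x ∈ A} := by
  rw [MeasurableSpace.measurableSet_iInf]
  rfl

lemma measurable_ms {n : ℕ} : Measurable (ms : (Fin n → E) → Multiset E) := by
  intro A hA
  exact (measurableSet_multiset.1 hA) n

lemma measurable_of_ms {G : Multiset E → X} (h : ∀ n, Measurable fun x : Fin n → E => G (ms x)) :
    Measurable G := by
  intro A hA
  rw [measurableSet_multiset]
  intro n
  exact h n hA

lemma measurable_card : Measurable (Multiset.card : Multiset E → ℕ) := by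
  apply measurable_of_ms
  intro n
  simp

lemma measurable_symCount {n : ℕ} (D : Set (T × (Fin n → E))) (hD : MeasurableSet D) :
    Measurable (symCount D) := by
  have hcardset : MeasurableSet {p : T × Multiset E | Multiset.card p.2 = n} :=
    (measurable_card.comp measurable_snd) (measurableSet_singleton n)
  induction D, hD using MeasurableSpace.induction_on_inter (generateFrom_prod.symm)
    (isPiSystem_prod) with
  | empty =>
    have : symCount (∅ : Set (T × (Fin n → E))) = fun _ => 0 := by
      funext p
      by_cases h : Multiset.card p.2 = n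
      · obtain ⟨x, hx⟩ := exists_ms_of_card p.2 h
        obtain ⟨t, s⟩ := p
        simp only at hx
        rw [← hx, symCount_ms]
        simp
      · exact symCount_of_ne _ _ h
    rw [this]
    exact measurable_const
  | basic D hD =>
    obtain ⟨U, hU, V, hV, rfl⟩ := hD
    have hV' : Measurable fun s : Multiset E => symCount ((univ : Set Unit) ×ˢ V) ((), s) := by
      apply measurable_of_ms
      intro m
      by_cases hm : m = n
      · subst hm
        simp only [symCount_ms]
        refine Finset.measurable_sum _ (fun σ _ => ?_)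
        have h1 : (fun x : Fin m → E => ((univ : Set Unit) ×ˢ V).indicator (fun _ => (1 : ℝ≥0∞)) ((), x ∘ σ))
            = fun x => V.indicator (fun _ => (1 : ℝ≥0∞)) (x ∘ σ) := by
          funext x
          by_cases hx : x ∘ σ ∈ V <;> simp [indicator, hx]
        rw [h1]
        have h2 : Measurable (V.indicator (fun _ => (1 : ℝ≥0∞))) := measurable_const.indicator hV
        exact h2.comp (measurable_pi_lambda _ (fun i => measurable_pi_apply (σ i)))
      · have : (fun x : Fin m → E => symCount ((univ : Set Unit) ×ˢ V) ((), ms x)) = fun _ => 0 := by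
          funext x
          exact symCount_of_ne _ _ (by simpa using hm)
        rw [this]; exact measurable_const
    have : symCount (U ×ˢ V) = fun p : T × Multiset E =>
        U.indicator (fun _ => (1 : ℝ≥0∞)) p.1 * symCount ((univ : Set Unit) ×ˢ V) ((), p.2) := by
      funext p
      obtain ⟨t, s⟩ := p
      by_cases h : Multiset.card s = n
      · obtain ⟨x, hx⟩ := exists_ms_of_card s h
        simp only
        rw [← hx, symCount_ms, symCount_ms, Finset.mul_sum]
        refine Finset.sum_congr rfl (fun σ _ => ?_)
        by_cases hx : x ∘ σ ∈ V <;> by_cases ht : t ∈ U <;> simp [indicator, hx, ht]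
      · rw [symCount_of_ne _ _ h, symCount_of_ne _ _ h, mul_zero]
    rw [this]
    exact ((measurable_const.indicator hU).comp measurable_fst).mul (hV'.comp measurable_snd)
  | compl D hD ih =>
    have : symCount Dᶜ = fun p : T × Multiset E =>
        {p : T × Multiset E | Multiset.card p.2 = n}.indicator
          (fun _ => ((Fintype.card (Equiv.Perm (Fin n)) : ℕ) : ℝ≥0∞)) p - symCount D p := by
      funext p
      obtain ⟨t, s⟩ := p
      by_cases h : Multiset.card s = n
      · obtain ⟨x, hx⟩ := exists_ms_of_card s h
        subst hx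
        rw [symCount_ms, symCount_ms]
        have hs : ∑ σ : Equiv.Perm (Fin n), Dᶜ.indicator (fun _ => (1 : ℝ≥0∞)) (t, x ∘ σ)
            + ∑ σ : Equiv.Perm (Fin n), D.indicator (fun _ => (1 : ℝ≥0∞)) (t, x ∘ σ)
            = ((Fintype.card (Equiv.Perm (Fin n)) : ℕ) : ℝ≥0∞) := by
          rw [← Finset.sum_add_distrib]
          rw [Finset.sum_congr rfl (g := fun _ => (1 : ℝ≥0∞))]
          · simp
          · intro σ _
            by_cases hx : (t, x ∘ σ) ∈ D <;> simp [hx]
        have hfin : ∑ σ : Equiv.Perm (Fin n), D.indicator (fun _ => (1 : ℝ≥0∞)) (t, x ∘ σ) ≠ ∞ := by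
          refine (ENNReal.sum_lt_top.2 (fun σ _ => ?_)).ne
          by_cases hx : (t, x ∘ σ) ∈ D <;> simp [hx]
        rw [indicator_of_mem (by simp), ← hs, ENNReal.add_sub_cancel_right hfin]
      · rw [symCount_of_ne _ _ h, symCount_of_ne _ _ h, indicator_of_notMem (by simpa using h)]
        simp
    rw [this]
    exact (measurable_const.indicator hcardset).sub ih
  | iUnion f hd hf ih =>
    have : symCount (⋃ i, f i) = fun p : T × Multiset E => ∑' i, symCount (f i) p := by
      funext p
      obtain ⟨t, s⟩ := p
      by_cases h : Multiset.card s = n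
      · obtain ⟨x, hx⟩ := exists_ms_of_card s h
        subst hx
        simp only [symCount_ms]
        rw [Summable.tsum_finsetSum (fun _ _ => ENNReal.summable)]
        refine Finset.sum_congr rfl (fun σ _ => ?_)
        exact indicator_iUnion_tsum f hd (t, x ∘ σ)
      · rw [symCount_of_ne _ _ h]
        symm
        rw [ENNReal.tsum_eq_zero]
        exact fun i => symCount_of_ne _ _ h
    rw [this]
    exact Measurable.tsum ih

/-- the key lemma: joint measurability can be checked on tuples -/
lemma measurableSet_prod_ms {C : Set (T × Multiset E)}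
    (h : ∀ n, MeasurableSet {p : T × (Fin n → E) | (p.1, ms p.2) ∈ C}) : MeasurableSet C := by
  have hC : C = ⋃ n, ({p : T × Multiset E | Multiset.card p.2 = n} ∩
      {p | symCount {q : T × (Fin n → E) | (q.1, ms q.2) ∈ C} p ≠ 0}) := by
    ext ⟨t, s⟩
    simp only [mem_iUnion, mem_inter_iff, mem_ofPred_eq]
    constructor
    · intro hts
      refine ⟨_, rfl, ?_⟩
      obtain ⟨x, hx⟩ := exists_ms s
      rw [show ((t, s) : T × Multiset E) = (t, ms x) by rw [hx], symCount_ms]
      intro h0
      rw [Finset.sum_eq_zero_iff] at h0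
      have := h0 1 (Finset.mem_univ _)
      rw [indicator_of_mem] at this
      · exact one_ne_zero this
      · simp only [mem_ofPred_eq, ms_comp_perm, hx]; exact hts
    · rintro ⟨n, hn, h0⟩
      obtain ⟨x, hx⟩ := exists_ms_of_card s hn
      subst hx
      rw [symCount_ms] at h0
      obtain ⟨σ, _, hσ⟩ := Finset.exists_ne_zero_of_sum_ne_zero h0
      have := mem_of_indicator_ne_zero hσ
      simp only [mem_ofPred_eq, ms_comp_perm] at this
      exact this
  rw [hC]
  refine MeasurableSet.iUnion (fun n => ?_)
  refine MeasurableSet.inter ?_ ?_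
  · exact (measurable_card.comp measurable_snd) (measurableSet_singleton n)
  · exact (measurable_symCount _ (h n)) (measurableSet_singleton 0).compl

lemma measurable_prod_ms {G : T × Multiset E → X}
    (h : ∀ n, Measurable fun p : T × (Fin n → E) => G (p.1, ms p.2)) : Measurable G := by
  intro A hA
  exact measurableSet_prod_ms (fun n => h n hA)

lemma measurable_prod_ms' {G : T → Multiset E → X} {s : T → Multiset E}
    (h : ∀ n, Measurable fun p : T × (Fin n → E) => G p.1 (ms p.2)) (hs : Measurable s) :
    Measurable fun t => G t (s t) := by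
  have h1 : Measurable (fun p : T × Multiset E => G p.1 p.2) := measurable_prod_ms h
  exact h1.comp (measurable_id.prodMk hs)

end Meas

end Pool.Agent.TSPd97
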