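import Pool.Agent.TSPd97.MSOps

/-!
MP_076557_pr, helper97: Poisson point processes as measures on multisets.
-/

set_option autoImplicit false

open MeasureTheory Set
open scoped ENNReal

namespace Pool.Agent.TSPd97

variable {E F T X : Type*} [MeasurableSpace E] [MeasurableSpace F] [MeasurableSpace T]
  [MeasurableSpace X]

/-- `exp (-a)` as an extended nonnegative number (for finite `a`) -/
noncomputable def eneg (a : ℝ≥0∞) : ℝ≥0∞ := ENNReal.ofReal (Real.exp (-a.toReal))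

/-- the Poisson point process with (finite) intensity measure `ν` -/
noncomputable def PP (ν : Measure E) : Measure (Multiset E) :=
  Measure.sum fun n : ℕ =>
    (eneg (ν univ) * ((n.factorial : ℕ) : ℝ≥0∞)⁻¹) • (Measure.pi (fun _ : Fin n => ν)).map ms

lemma lintegral_PP (ν : Measure E) {G : Multiset E → ℝ≥0∞} (hG : Measurable G) :
    ∫⁻ s, G s ∂(PP ν) = ∑' n : ℕ, eneg (ν univ) * ((n.factorial : ℕ) : ℝ≥0∞)⁻¹ *
      ∫⁻ x : Fin n → E, G (ms x) ∂(Measure.pi fun _ => ν) := by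
  unfold PP
  rw [lintegral_sum_measure]
  congr 1
  funext n
  rw [lintegral_smul_measure, lintegral_map hG measurable_ms, smul_eq_mul]

lemma tsum_factorial_pow (a : ℝ≥0∞) (ha : a ≠ ∞) :
    ∑' n : ℕ, ((n.factorial : ℕ) : ℝ≥0∞)⁻¹ * a ^ n = ENNReal.ofReal (Real.exp a.toReal) := by
  have h1 : ∀ n : ℕ, ((n.factorial : ℕ) : ℝ≥0∞)⁻¹ * a ^ n
      = ENNReal.ofReal (a.toReal ^ n / (n.factorial : ℝ)) := by
    intro n
    rw [ENNReal.ofReal_div_of_pos (by positivity), ENNReal.ofReal_pow ENNReal.toReal_nonneg,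
      ENNReal.ofReal_toReal ha, ENNReal.ofReal_natCast, mul_comm, div_eq_mul_inv]
  simp_rw [h1]
  rw [← ENNReal.ofReal_tsum_of_nonneg (fun n => by positivity)]
  · rw [Real.exp_eq_exp_ℝ, NormedSpace.exp_eq_tsum_div]
  · exact Real.summable_pow_div_factorial _

lemma eneg_add (a b : ℝ≥0∞) (ha : a ≠ ∞) (hb : b ≠ ∞) : eneg (a + b) = eneg a * eneg b := by
  unfold eneg
  rw [← ENNReal.ofReal_mul (Real.exp_pos _).le, ← Real.exp_add, ENNReal.toReal_add ha hb]
  ring_nf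

lemma eneg_ne_top (a : ℝ≥0∞) : eneg a ≠ ∞ := ENNReal.ofReal_ne_top

lemma eneg_le_one (a : ℝ≥0∞) : eneg a ≤ 1 := by
  unfold eneg
  rw [← ENNReal.ofReal_one]
  exact ENNReal.ofReal_le_ofReal (by
    rw [Real.exp_le_one_iff]
    simp)

lemma eneg_mul_exp (a : ℝ≥0∞) : eneg a * ENNReal.ofReal (Real.exp a.toReal) = 1 := by
  unfold eneg
  rw [← ENNReal.ofReal_mul (Real.exp_pos _).le, ← Real.exp_add]
  simp

instance PP_prob (ν : Measure E) [IsFiniteMeasure ν] : IsProbabilityMeasure (PP ν) := by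
  constructor
  have h := lintegral_PP ν (G := fun _ => 1) measurable_const
  rw [lintegral_one] at h
  rw [h]
  have h2 : ∀ n : ℕ, eneg (ν univ) * ((n.factorial : ℕ) : ℝ≥0∞)⁻¹ *
      ∫⁻ x : Fin n → E, 1 ∂(Measure.pi fun _ => ν)
      = eneg (ν univ) * (((n.factorial : ℕ) : ℝ≥0∞)⁻¹ * (ν univ) ^ n) := by
    intro n
    rw [lintegral_one, Measure.pi_univ]
    simp [mul_assoc]
  simp_rw [h2]
  rw [ENNReal.tsum_mul_left, tsum_factorial_pow _ (measure_ne_top ν univ), eneg_mul_exp]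

omit [MeasurableSpace E] in
lemma ms_succAbove {n : ℕ} (x : Fin (n + 1) → E) (i : Fin (n + 1)) :
    ms x = x i ::ₘ ms (fun j => x (i.succAbove j)) := by
  unfold ms
  have h : (Finset.univ : Finset (Fin (n + 1))).val
      = i ::ₘ (Finset.univ : Finset (Fin n)).val.map i.succAbove := by
    have := Fin.univ_succAbove n i
    rw [this]
    rfl
  rw [h, Multiset.map_cons, Multiset.map_map]
  rfl

/-- integrate out one coordinate -/
lemma lintegral_pi_succAbove {n : ℕ} (ν : Measure E) [SigmaFinite ν] (i : Fin (n + 1))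
    {g : (Fin (n + 1) → E) → ℝ≥0∞} (hg : Measurable g) :
    ∫⁻ x : Fin (n + 1) → E, g x ∂(Measure.pi fun _ => ν)
      = ∫⁻ a, ∫⁻ y : Fin n → E, g (i.insertNth a y) ∂(Measure.pi fun _ => ν) ∂ν := by
  have h := (measurePreserving_piFinSuccAbove (fun _ : Fin (n + 1) => ν) i).symm
  rw [← h.lintegral_comp hg]
  exact lintegral_prod (fun p => g ((MeasurableEquiv.piFinSuccAbove (fun _ => E) i).symm p))
    (hg.comp h.measurable).aemeasurable

/-- Mecke formula -/
theorem PP_mecke (ν : Measure E) [IsFiniteMeasure ν] {G : E → Multiset E → ℝ≥0∞}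
    (hG : Measurable fun p : E × Multiset E => G p.1 p.2) :
    ∫⁻ s, (s.map (fun a => G a s)).sum ∂(PP ν) = ∫⁻ a, ∫⁻ s, G a (a ::ₘ s) ∂(PP ν) ∂ν := by
  have hm1 : Measurable fun s : Multiset E => (s.map (fun a => G a s)).sum :=
    measurable_msum (f := fun s a => G a s) (hG.comp measurable_swap) measurable_id
  have hm2 : ∀ a, Measurable fun s : Multiset E => G a (a ::ₘ s) := fun a =>
    hG.comp (measurable_const.prodMk (measurable_mcons measurable_const measurable_id))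
  rw [lintegral_PP ν hm1]
  have h2 : ∀ a, ∫⁻ s, G a (a ::ₘ s) ∂(PP ν) = ∑' n : ℕ, eneg (ν univ) *
      ((n.factorial : ℕ) : ℝ≥0∞)⁻¹ * ∫⁻ x : Fin n → E, G a (a ::ₘ ms x) ∂(Measure.pi fun _ => ν) :=
    fun a => lintegral_PP ν (hm2 a)
  simp_rw [h2]
  have hmeas : ∀ n : ℕ, Measurable fun p : E × (Fin n → E) => G p.1 (p.1 ::ₘ ms p.2) := by
    intro n
    exact hG.comp (measurable_fst.prodMk
      (measurable_mcons measurable_fst (measurable_ms.comp measurable_snd)))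
  rw [lintegral_tsum]
  · rw [tsum_eq_zero_add' ENNReal.summable]
    have h0 : eneg (ν univ) * ((Nat.factorial 0 : ℕ) : ℝ≥0∞)⁻¹ *
        ∫⁻ x : Fin 0 → E, ((ms x).map (fun a => G a (ms x))).sum ∂(Measure.pi fun _ => ν) = 0 := by
      simp
    rw [h0, zero_add]
    congr 1
    funext n
    rw [lintegral_const_mul _ (hmeas n).lintegral_prod_right']
    have h3 : ∀ x : Fin (n + 1) → E, ((ms x).map (fun a => G a (ms x))).sum
        = ∑ i : Fin (n + 1), G (x i) (ms x) := by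
      intro x
      rw [map_ms]; rfl
    simp_rw [h3]
    rw [lintegral_finsetSum]
    · have h4 : ∀ i : Fin (n + 1), ∫⁻ x : Fin (n + 1) → E, G (x i) (ms x) ∂(Measure.pi fun _ => ν)
          = ∫⁻ a, ∫⁻ y : Fin n → E, G a (a ::ₘ ms y) ∂(Measure.pi fun _ => ν) ∂ν := by
        intro i
        rw [lintegral_pi_succAbove ν i]
        · congr 1
          funext a
          congr 1
          funext y
          rw [ms_succAbove _ i]
          simp
        · exact hG.comp ((measurable_pi_apply i).prodMk measurable_ms)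
      rw [Finset.sum_congr rfl (fun i _ => h4 i)]
      rw [Finset.sum_const, Finset.card_univ, Fintype.card_fin, nsmul_eq_mul, ← mul_assoc]
      congr 1
      rw [mul_assoc, Nat.factorial_succ]
      congr 1
      rw [Nat.cast_mul, ENNReal.mul_inv (Or.inr (by simp)) (Or.inl (by simp))]
      rw [mul_comm, ← mul_assoc, ENNReal.mul_inv_cancel (by simp) (by simp), one_mul]
    · intro i _
      exact hG.comp ((measurable_pi_apply i).prodMk measurable_ms)
  · intro n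
    exact ((hmeas n).lintegral_prod_right'.const_mul _).aemeasurable

lemma PP_map (ν : Measure E) [IsFiniteMeasure ν] {g : E → F} (hg : Measurable g) :
    (PP ν).map (Multiset.map g) = PP (ν.map g) := by
  have : IsFiniteMeasure (ν.map g) := Measure.isFiniteMeasure_map ν g
  unfold PP
  rw [Measure.map_sum (measurable_map_multiset hg).aemeasurable]
  congr 1
  funext n
  rw [Measure.map_smul, Measure.map_map (measurable_map_multiset hg) measurable_ms,
    Measure.map_apply hg MeasurableSet.univ, preimage_univ]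
  congr 1
  have hg' : Measurable fun (x : Fin n → E) (i : Fin n) => g (x i) :=
    measurable_pi_lambda _ fun i => hg.comp (measurable_pi_apply i)
  rw [← Measure.pi_map_pi (fun _ => hg.aemeasurable), Measure.map_map measurable_ms hg']
  congr 1
  funext x
  exact map_ms g x

/-! ### Superposition -/

/-- measurable functionals -/
def MF (E : Type*) [MeasurableSpace E] : AddSubmonoid (Multiset E → ℝ≥0∞) where
  carrier := {G | Measurable G}
  add_mem' := fun ha hb => Measurable.add ha hb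
  zero_mem' := measurable_const

/-- adding one point -/
noncomputable def addOp (ν : Measure E) [SFinite ν] : AddMonoid.End (MF E) where
  toFun G := ⟨fun s => ∫⁻ a, (G : Multiset E → ℝ≥0∞) (a ::ₘ s) ∂ν, by
    have h : Measurable fun p : Multiset E × E => (G : Multiset E → ℝ≥0∞) (p.2 ::ₘ p.1) :=
      Measurable.comp G.2 (measurable_mcons measurable_snd measurable_fst)
    exact h.lintegral_prod_right'⟩
  map_zero' := by
    apply Subtype.ext
    funext s
    simp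
  map_add' := by
    intro G H
    apply Subtype.ext
    funext s
    have hG : Measurable fun a => (G : Multiset E → ℝ≥0∞) (a ::ₘ s) :=
      Measurable.comp G.2 (measurable_mcons measurable_id measurable_const)
    exact lintegral_add_left hG _

lemma addOp_apply (ν : Measure E) [SFinite ν] (G : MF E) (s : Multiset E) :
    (addOp ν G : Multiset E → ℝ≥0∞) s = ∫⁻ a, (G : Multiset E → ℝ≥0∞) (a ::ₘ s) ∂ν := rfl

lemma addOp_comm (ν₁ ν₂ : Measure E) [SFinite ν₁] [SFinite ν₂] :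
    Commute (addOp ν₁) (addOp ν₂) := by
  unfold Commute SemiconjBy
  ext G s
  change ∫⁻ a, ∫⁻ b, (G : Multiset E → ℝ≥0∞) (b ::ₘ a ::ₘ s) ∂ν₂ ∂ν₁
    = ∫⁻ a, ∫⁻ b, (G : Multiset E → ℝ≥0∞) (b ::ₘ a ::ₘ s) ∂ν₁ ∂ν₂
  have hm : Measurable fun p : E × E => (G : Multiset E → ℝ≥0∞) (p.2 ::ₘ p.1 ::ₘ s) :=
    Measurable.comp G.2 (measurable_mcons measurable_snd
      (measurable_mcons measurable_fst measurable_const))
  rw [lintegral_lintegral_swap hm.aemeasurable]
  congr 1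
  funext a
  congr 1
  funext b
  rw [Multiset.cons_swap]

lemma addOp_add (ν₁ ν₂ : Measure E) [SFinite ν₁] [SFinite ν₂] :
    addOp (ν₁ + ν₂) = addOp ν₁ + addOp ν₂ := by
  ext G s
  exact lintegral_add_measure _ _ _

lemma addOp_pow (ν : Measure E) [SigmaFinite ν] (n : ℕ) (G : MF E) (s : Multiset E) :
    (((addOp ν) ^ n) G : Multiset E → ℝ≥0∞) s
      = ∫⁻ x : Fin n → E, (G : Multiset E → ℝ≥0∞) (s + ms x) ∂(Measure.pi fun _ => ν) := by
  induction n generalizing s with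
  | zero => simp
  | succ n ih =>
    rw [pow_succ']
    change ∫⁻ a, (((addOp ν) ^ n) G : Multiset E → ℝ≥0∞) (a ::ₘ s) ∂ν = _
    simp_rw [ih]
    rw [lintegral_pi_succAbove ν 0]
    · congr 1
      funext a
      congr 1
      funext y
      rw [ms_succAbove _ 0]
      simp
    · exact Measurable.comp G.2 (measurable_madd measurable_const measurable_ms)

lemma addOp_pow_add (ν₁ ν₂ : Measure E) [SFinite ν₁] [SFinite ν₂] (n : ℕ) (G : MF E) :
    ((((n.factorial : ℕ) : ℝ≥0∞)⁻¹) *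
      (((addOp (ν₁ + ν₂)) ^ n) G : Multiset E → ℝ≥0∞) 0)
      = ∑ p ∈ Finset.HasAntidiagonal.antidiagonal n, (((p.1.factorial : ℕ) : ℝ≥0∞)⁻¹) *
        (((p.2.factorial : ℕ) : ℝ≥0∞)⁻¹) *
        (((addOp ν₁) ^ p.1) (((addOp ν₂) ^ p.2) G) : Multiset E → ℝ≥0∞) 0 := by
  rw [addOp_add, (addOp_comm ν₁ ν₂).add_pow']
  have h1 : ((∑ m ∈ Finset.HasAntidiagonal.antidiagonal n, n.choose m.1 • (addOp ν₁ ^ m.1 * addOp ν₂ ^ m.2)) G
      : MF E) = ∑ m ∈ Finset.HasAntidiagonal.antidiagonal n, n.choose m.1 • ((addOp ν₁ ^ m.1) ((addOp ν₂ ^ m.2) G)) := by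
    exact AddMonoidHom.finsetSum_apply
      (fun m : ℕ × ℕ => (n.choose m.1 • (addOp ν₁ ^ m.1 * addOp ν₂ ^ m.2) : MF E →+ MF E))
      (Finset.HasAntidiagonal.antidiagonal n) G
  rw [h1]
  rw [AddSubmonoid.coe_finsetSum, Finset.sum_apply, Finset.mul_sum]
  refine Finset.sum_congr rfl (fun p hp => ?_)
  rw [Finset.HasAntidiagonal.mem_antidiagonal] at hp
  subst hp
  change ((((p.1 + p.2).factorial : ℕ) : ℝ≥0∞)⁻¹) * (((p.1 + p.2).choose p.1) •
    (((addOp ν₁ ^ p.1) ((addOp ν₂ ^ p.2) G) : MF E) : Multiset E → ℝ≥0∞) 0) = _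
  rw [nsmul_eq_mul, ← mul_assoc]
  congr 1
  have h2 : (p.1 + p.2).choose p.1 * p.1.factorial * p.2.factorial = (p.1 + p.2).factorial := by
    have := Nat.choose_mul_factorial_mul_factorial (Nat.le_add_right p.1 p.2)
    rwa [Nat.add_sub_cancel_left] at this
  have h3 : (((p.1 + p.2).factorial : ℕ) : ℝ≥0∞)
      = ((p.1 + p.2).choose p.1 : ℕ) * ((p.1.factorial : ℕ) : ℝ≥0∞) * ((p.2.factorial : ℕ) : ℝ≥0∞) := by
    exact_mod_cast h2.symm
  have hc : (((p.1 + p.2).choose p.1 : ℕ) : ℝ≥0∞) ≠ 0 := by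
    have := Nat.choose_pos (Nat.le_add_right p.1 p.2)
    exact_mod_cast this.ne'
  rw [h3, ENNReal.mul_inv (Or.inr (by simp)) (Or.inr (by positivity)),
    ENNReal.mul_inv (Or.inr (by simp)) (Or.inr (by positivity))]
  rw [mul_comm, ← mul_assoc, ← mul_assoc, ENNReal.mul_inv_cancel hc (by simp), one_mul]

lemma lintegral_PP' (ν : Measure E) [SigmaFinite ν] (G : MF E) (s : Multiset E) :
    ∫⁻ t, (G : Multiset E → ℝ≥0∞) (s + t) ∂(PP ν) = ∑' n : ℕ, eneg (ν univ) *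
      ((n.factorial : ℕ) : ℝ≥0∞)⁻¹ * (((addOp ν) ^ n) G : Multiset E → ℝ≥0∞) s := by
  have hm : Measurable fun t => (G : Multiset E → ℝ≥0∞) (s + t) :=
    Measurable.comp G.2 (measurable_madd measurable_const measurable_id)
  rw [lintegral_PP ν hm]
  simp_rw [addOp_pow]

lemma tsum_antidiagonal (a : ℕ → ℕ → ℝ≥0∞) :
    ∑' n : ℕ, ∑ p ∈ Finset.HasAntidiagonal.antidiagonal n, a p.1 p.2 = ∑' i, ∑' j, a i j := by
  rw [← ENNReal.tsum_prod, ← Equiv.tsum_eq Finset.HasAntidiagonal.sigmaAntidiagonalEquivProd, ENNReal.tsum_sigma']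
  congr 1
  funext n
  rw [tsum_fintype, ← Finset.sum_coe_sort (Finset.HasAntidiagonal.antidiagonal n)
    (fun p => a p.1 p.2)]
  rfl

/-- superposition theorem (integral form) -/
theorem lintegral_PP_add (ν₁ ν₂ : Measure E) [IsFiniteMeasure ν₁] [IsFiniteMeasure ν₂]
    {G : Multiset E → ℝ≥0∞} (hG : Measurable G) :
    ∫⁻ s, G s ∂(PP (ν₁ + ν₂)) = ∫⁻ s, ∫⁻ t, G (s + t) ∂(PP ν₂) ∂(PP ν₁) := by
  have h0 := lintegral_PP' (ν₁ + ν₂) ⟨G, hG⟩ 0
  simp only [zero_add] at h0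
  rw [h0]
  have h1 : ∀ s, ∫⁻ t, G (s + t) ∂(PP ν₂) = ∑' n : ℕ, eneg (ν₂ univ) *
      ((n.factorial : ℕ) : ℝ≥0∞)⁻¹ * (((addOp ν₂) ^ n) ⟨G, hG⟩ : Multiset E → ℝ≥0∞) s :=
    fun s => lintegral_PP' ν₂ ⟨G, hG⟩ s
  simp_rw [h1]
  rw [lintegral_tsum (fun n => (Measurable.const_mul (Subtype.prop _) _).aemeasurable)]
  have h2 : ∀ j : ℕ, ∫⁻ s, eneg (ν₂ univ) * ((j.factorial : ℕ) : ℝ≥0∞)⁻¹ *
      (((addOp ν₂) ^ j) ⟨G, hG⟩ : Multiset E → ℝ≥0∞) s ∂(PP ν₁)
      = ∑' i : ℕ, eneg (ν₁ univ) * eneg (ν₂ univ) * ((((i.factorial : ℕ) : ℝ≥0∞)⁻¹) *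
        (((j.factorial : ℕ) : ℝ≥0∞)⁻¹) *
        (((addOp ν₁) ^ i) (((addOp ν₂) ^ j) ⟨G, hG⟩) : Multiset E → ℝ≥0∞) 0) := by
    intro j
    rw [lintegral_const_mul _ (Subtype.prop _)]
    have h3 := lintegral_PP' ν₁ (((addOp ν₂) ^ j) ⟨G, hG⟩) 0
    simp only [zero_add] at h3
    rw [h3, ← ENNReal.tsum_mul_left]
    congr 1
    funext i
    ring
  simp_rw [h2]
  rw [ENNReal.tsum_comm]
  have h4 : ∀ n : ℕ, eneg ((ν₁ + ν₂) univ) * ((n.factorial : ℕ) : ℝ≥0∞)⁻¹ *
      (((addOp (ν₁ + ν₂)) ^ n) ⟨G, hG⟩ : Multiset E → ℝ≥0∞) 0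
      = ∑ p ∈ Finset.HasAntidiagonal.antidiagonal n, eneg (ν₁ univ) * eneg (ν₂ univ) *
        ((((p.1.factorial : ℕ) : ℝ≥0∞)⁻¹) * (((p.2.factorial : ℕ) : ℝ≥0∞)⁻¹) *
        (((addOp ν₁) ^ p.1) (((addOp ν₂) ^ p.2) ⟨G, hG⟩) : Multiset E → ℝ≥0∞) 0) := by
    intro n
    rw [mul_assoc, addOp_pow_add, Measure.add_apply,
      eneg_add _ _ (measure_ne_top _ _) (measure_ne_top _ _), Finset.mul_sum]
  simp_rw [h4]
  exact tsum_antidiagonal (fun i j => eneg (ν₁ univ) * eneg (ν₂ univ) *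
        ((((i.factorial : ℕ) : ℝ≥0∞)⁻¹) * (((j.factorial : ℕ) : ℝ≥0∞)⁻¹) *
        (((addOp ν₁) ^ i) (((addOp ν₂) ^ j) ⟨G, hG⟩) : Multiset E → ℝ≥0∞) 0))

/-- superposition theorem -/
theorem PP_add (ν₁ ν₂ : Measure E) [IsFiniteMeasure ν₁] [IsFiniteMeasure ν₂] :
    PP (ν₁ + ν₂) = ((PP ν₁).prod (PP ν₂)).map (fun p => p.1 + p.2) := by
  have hadd : Measurable fun p : Multiset E × Multiset E => p.1 + p.2 :=
    measurable_madd measurable_fst measurable_snd
  refine Measure.ext_of_lintegral _ (fun G hG => ?_)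
  rw [lintegral_PP_add ν₁ ν₂ hG, lintegral_map hG hadd]
  exact (lintegral_prod (fun p : Multiset E × Multiset E => G (p.1 + p.2))
    (hG.comp hadd).aemeasurable).symm

end Pool.Agent.TSPd97
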