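import Pool.Agent.TSPd97.PP

/-!
MP_076557_pr, helper97: restriction, splitting, marking and counting for Poisson processes.
-/

set_option autoImplicit false

open MeasureTheory Set
open scoped ENNReal

namespace Pool.Agent.TSPd97

variable {E F T X M : Type*} [MeasurableSpace E] [MeasurableSpace F] [MeasurableSpace T]
  [MeasurableSpace X] [MeasurableSpace M]

/-- Campbell formula -/
lemma PP_campbell (ν : Measure E) [IsFiniteMeasure ν] {f : E → ℝ≥0∞} (hf : Measurable f) :
    ∫⁻ s, (s.map f).sum ∂(PP ν) = ∫⁻ a, f a ∂ν := by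
  have h := PP_mecke ν (G := fun a _ => f a) (hf.comp measurable_fst)
  rw [h]
  simp

omit [MeasurableSpace E] in
lemma sum_map_indicator_one (A : Set E) (s : Multiset E) :
    (s.map (A.indicator (fun _ => (1 : ℝ≥0∞)))).sum = Multiset.card (restr A s) := by
  induction s using Multiset.induction_on with
  | empty => simp
  | cons a s ih =>
    by_cases h : a ∈ A
    · rw [Multiset.map_cons, Multiset.sum_cons, ih, restr_cons_mem s h, Multiset.card_cons,
        indicator_of_mem h]
      push_cast
      ring
    · rw [Multiset.map_cons, Multiset.sum_cons, ih, restr_cons_not_mem s h, indicator_of_notMem h,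
        zero_add]

lemma PP_mean_card (ν : Measure E) [IsFiniteMeasure ν] {A : Set E} (hA : MeasurableSet A) :
    ∫⁻ s, (Multiset.card (restr A s) : ℝ≥0∞) ∂(PP ν) = ν A := by
  have h := PP_campbell ν (f := A.indicator (fun _ => (1 : ℝ≥0∞))) (measurable_const.indicator hA)
  simp_rw [sum_map_indicator_one] at h
  rw [h, lintegral_indicator_const hA, one_mul]

/-- the probability to have a point in `A` is at most `ν A` -/
lemma PP_hit (ν : Measure E) [IsFiniteMeasure ν] {A : Set E} (hA : MeasurableSet A) :
    PP ν {s | restr A s ≠ 0} ≤ ν A := by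
  have hm : Measurable fun s : Multiset E => Multiset.card (restr A s) :=
    measurable_mcard (measurable_restr_const hA measurable_id)
  have hset : MeasurableSet {s : Multiset E | restr A s ≠ 0} := by
    have : {s : Multiset E | restr A s ≠ 0} = {s | Multiset.card (restr A s) ≠ 0} := by
      ext s; simp
    rw [this]
    exact hm (measurableSet_singleton 0).compl
  rw [← PP_mean_card ν hA, ← lintegral_indicator_one hset]
  refine lintegral_mono (fun s => ?_)
  by_cases h : restr A s = 0
  · rw [indicator_of_notMem (by simpa using h)]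
    exact zero_le
  · rw [indicator_of_mem (by simpa using h)]
    have h1 : 1 ≤ Multiset.card (restr A s) := by
      rw [Nat.one_le_iff_ne_zero]
      simpa using h
    simpa using (by exact_mod_cast h1 : (1 : ℝ≥0∞) ≤ (Multiset.card (restr A s) : ℝ≥0∞))

lemma ae_PP_forall (ν : Measure E) [IsFiniteMeasure ν] {A : Set E} (hA : MeasurableSet A)
    (h : ν Aᶜ = 0) : ∀ᵐ s ∂(PP ν), ∀ a ∈ s, a ∈ A := by
  have h1 : PP ν {s | restr Aᶜ s ≠ 0} = 0 := le_antisymm (h ▸ PP_hit ν hA.compl) zero_le
  rw [ae_iff]
  refine measure_mono_null ?_ h1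
  intro s hs
  simp only [mem_ofPred_eq] at hs ⊢
  intro h0
  apply hs
  intro a ha
  rw [restr_eq_zero] at h0
  simpa using h0 a ha

lemma PP_split (ν : Measure E) [IsFiniteMeasure ν] {A : Set E} (hA : MeasurableSet A) :
    (PP ν).map (fun s => (restr A s, restr Aᶜ s))
      = (PP (ν.restrict A)).prod (PP (ν.restrict Aᶜ)) := by
  have hadd : Measurable fun p : Multiset E × Multiset E => p.1 + p.2 :=
    measurable_madd measurable_fst measurable_snd
  have hsp : Measurable fun s : Multiset E => (restr A s, restr Aᶜ s) :=
    (measurable_restr_const hA measurable_id).prodMk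
      (measurable_restr_const hA.compl measurable_id)
  have h1 : ν = ν.restrict A + ν.restrict Aᶜ := (Measure.restrict_add_restrict_compl hA).symm
  conv_lhs => rw [h1]
  rw [PP_add, Measure.map_map hsp hadd]
  have h2 : ∀ᵐ p ∂((PP (ν.restrict A)).prod (PP (ν.restrict Aᶜ))),
      ((fun s => (restr A s, restr Aᶜ s)) ∘ fun p : Multiset E × Multiset E => p.1 + p.2) p
        = id p := by
    have ha : ∀ᵐ s ∂(PP (ν.restrict A)), ∀ a ∈ s, a ∈ A :=
      ae_PP_forall _ hA (by rw [Measure.restrict_apply hA.compl]; simp)
    have hb : ∀ᵐ s ∂(PP (ν.restrict Aᶜ)), ∀ a ∈ s, a ∈ Aᶜ :=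
      ae_PP_forall _ hA.compl (by rw [Measure.restrict_apply hA.compl.compl]; simp)
    have ha' := (Measure.quasiMeasurePreserving_fst (μ := PP (ν.restrict A))
      (ν := PP (ν.restrict Aᶜ))).ae ha
    have hb' := (Measure.quasiMeasurePreserving_snd (μ := PP (ν.restrict A))
      (ν := PP (ν.restrict Aᶜ))).ae hb
    filter_upwards [ha', hb'] with p hp1 hp2
    simp only [Function.comp, id]
    have e1 : restr A (p.1 + p.2) = p.1 := by
      rw [restr_add, restr_eq_self hp1, restr_eq_zero.2 hp2, add_zero]
    have e2 : restr Aᶜ (p.1 + p.2) = p.2 := by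
      rw [restr_add, restr_eq_self hp2,
        restr_eq_zero.2 (fun a ha => fun (h' : a ∈ Aᶜ) => h' (hp1 a ha)), zero_add]
    rw [e1, e2]
  rw [Measure.map_congr h2, Measure.map_id]

lemma PP_restr (ν : Measure E) [IsFiniteMeasure ν] {A : Set E} (hA : MeasurableSet A) :
    (PP ν).map (restr A) = PP (ν.restrict A) := by
  have hsp : Measurable fun s : Multiset E => (restr A s, restr Aᶜ s) :=
    (measurable_restr_const hA measurable_id).prodMk
      (measurable_restr_const hA.compl measurable_id)
  have h : Measure.map Prod.fst ((PP ν).map (fun s => (restr A s, restr Aᶜ s)))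
      = Measure.map Prod.fst ((PP (ν.restrict A)).prod (PP (ν.restrict Aᶜ))) := by
    rw [PP_split ν hA]
  rw [Measure.map_map measurable_fst hsp, Measure.map_fst_prod, measure_univ, one_smul] at h
  exact h

/-- splitting in integral form -/
lemma lintegral_PP_split (ν : Measure E) [IsFiniteMeasure ν] {A : Set E} (hA : MeasurableSet A)
    {G : Multiset E → Multiset E → ℝ≥0∞}
    (hG : Measurable fun p : Multiset E × Multiset E => G p.1 p.2) :
    ∫⁻ s, G (restr A s) (restr Aᶜ s) ∂(PP ν)
      = ∫⁻ s, ∫⁻ t, G s t ∂(PP (ν.restrict Aᶜ)) ∂(PP (ν.restrict A)) := by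
  have hsp : Measurable fun s : Multiset E => (restr A s, restr Aᶜ s) :=
    (measurable_restr_const hA measurable_id).prodMk
      (measurable_restr_const hA.compl measurable_id)
  have h := lintegral_map (μ := PP ν) hG hsp
  rw [← h, PP_split ν hA]
  exact lintegral_prod _ hG.aemeasurable

lemma PP_card_eq (ν : Measure E) [IsFiniteMeasure ν] (n : ℕ) :
    PP ν {s | Multiset.card s = n} = eneg (ν univ) * ((n.factorial : ℕ) : ℝ≥0∞)⁻¹ * (ν univ) ^ n := by
  have hset : MeasurableSet {s : Multiset E | Multiset.card s = n} :=
    measurable_card (measurableSet_singleton n)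
  rw [← lintegral_indicator_one hset, lintegral_PP ν (measurable_one.indicator hset)]
  rw [tsum_eq_single n]
  · have : ∀ x : Fin n → E, ({s : Multiset E | Multiset.card s = n}.indicator 1 (ms x) : ℝ≥0∞) = 1 := by
      intro x
      rw [indicator_of_mem (by simp)]
      rfl
    simp_rw [this]
    simp [Measure.pi_univ]
  · intro m hm
    have : ∀ x : Fin m → E, ({s : Multiset E | Multiset.card s = n}.indicator 1 (ms x) : ℝ≥0∞) = 0 := by
      intro x
      rw [indicator_of_notMem (by simpa using hm)]
    simp_rw [this]
    simp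

lemma PP_card_restr_eq (ν : Measure E) [IsFiniteMeasure ν] {A : Set E} (hA : MeasurableSet A)
    (n : ℕ) : PP ν {s | Multiset.card (restr A s) = n}
      = eneg (ν A) * ((n.factorial : ℕ) : ℝ≥0∞)⁻¹ * (ν A) ^ n := by
  have hset : MeasurableSet {s : Multiset E | Multiset.card s = n} :=
    measurable_card (measurableSet_singleton n)
  have h := PP_card_eq (ν.restrict A) n
  have hr : Measurable (restr A : Multiset E → Multiset E) :=
    measurable_restr_const hA measurable_id
  rw [← PP_restr ν hA, Measure.map_apply hr hset] at h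
  rw [Measure.restrict_apply_univ] at h
  exact h

lemma PP_void (ν : Measure E) [IsFiniteMeasure ν] {A : Set E} (hA : MeasurableSet A) :
    PP ν {s | restr A s = 0} = eneg (ν A) := by
  have h := PP_card_restr_eq ν hA 0
  simpa using h

/-- marking theorem in integral form -/
lemma lintegral_PP_prod (ν : Measure E) [IsFiniteMeasure ν] (μ : Measure M)
    [IsProbabilityMeasure μ] {G : Multiset (E × M) → ℝ≥0∞} (hG : Measurable G) :
    ∫⁻ ξ, G ξ ∂(PP (ν.prod μ)) = ∑' n : ℕ, eneg (ν univ) * ((n.factorial : ℕ) : ℝ≥0∞)⁻¹ *
      ∫⁻ x : Fin n → E, ∫⁻ w : Fin n → M, G (ms fun i => (x i, w i)) ∂(Measure.pi fun _ => μ)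
        ∂(Measure.pi fun _ => ν) := by
  rw [lintegral_PP _ hG]
  have h1 : (ν.prod μ) univ = ν univ := by
    rw [← univ_prod_univ, Measure.prod_prod]
    simp
  rw [h1]
  congr 1
  funext n
  congr 1
  have h2 := (measurePreserving_arrowProdEquivProdArrow E M (Fin n) (fun _ => ν) (fun _ => μ)).symm
  have hG' : Measurable fun x : Fin n → E × M => G (ms x) := hG.comp measurable_ms
  rw [← h2.lintegral_comp hG']
  exact lintegral_prod (fun p : (Fin n → E) × (Fin n → M) => G (ms fun i => (p.1 i, p.2 i)))
    (hG'.comp h2.measurable).aemeasurable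

lemma lintegral_pi_cons {n : ℕ} {Y : Type*} [MeasurableSpace Y]
    (ν : Fin (n + 1) → Measure Y) [∀ i, SigmaFinite (ν i)]
    {g : (Fin (n + 1) → Y) → ℝ≥0∞} (hg : Measurable g) :
    ∫⁻ x, g x ∂(Measure.pi ν)
      = ∫⁻ a, ∫⁻ y : Fin n → Y, g (Fin.cons a y)
          ∂(Measure.pi fun j : Fin n => ν j.succ) ∂(ν 0) := by
  have h := (measurePreserving_piFinSuccAbove ν 0).symm
  rw [← h.lintegral_comp hg]
  refine (lintegral_prod (fun p => g ((MeasurableEquiv.piFinSuccAbove (fun _ => Y) 0).symm p))
    (hg.comp h.measurable).aemeasurable).trans ?_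
  congr 1
  funext a
  congr 1
  funext y
  congr 1
  exact Fin.insertNth_zero' a y

/-- joint law of the restrictions to disjoint sets -/
theorem PP_family {q : ℕ} (ν : Measure E) [IsFiniteMeasure ν] (C : Fin q → Set E)
    (hC : ∀ i, MeasurableSet (C i)) (hd : Pairwise (Function.onFun Disjoint C)) :
    (PP ν).map (fun s i => restr (C i) s) = Measure.pi (fun i => PP (ν.restrict (C i))) := by
  induction q generalizing ν with
  | zero =>
    have hm : Measurable fun (s : Multiset E) (i : Fin 0) => restr (C i) s :=
      measurable_pi_lambda _ (fun i => i.elim0)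
    have h1 : IsProbabilityMeasure ((PP ν).map (fun s i => restr (C i) s)) :=
      Measure.isProbabilityMeasure_map hm.aemeasurable
    refine (Measure.pi_eq (fun s _ => ?_)).symm
    have : (univ.pi s : Set (Fin 0 → Multiset E)) = univ := by
      ext x; simp
    rw [this, measure_univ]
    simp
  | succ q ih =>
    have hm : ∀ (q' : ℕ) (C' : Fin q' → Set E), (∀ i, MeasurableSet (C' i)) →
        Measurable fun (s : Multiset E) (i : Fin q') => restr (C' i) s :=
      fun q' C' hC' => measurable_pi_lambda _ (fun i => measurable_restr_const (hC' i) measurable_id)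
    refine Measure.ext_of_lintegral _ (fun G hG => ?_)
    rw [lintegral_map hG (hm _ C hC), lintegral_pi_cons _ hG]
    have key : ∀ s : Multiset E, (fun i => restr (C i) s)
        = (Fin.cons (restr (C 0) s) (fun j : Fin q => restr (C j.succ) (restr (C 0)ᶜ s)) :
          Fin (q + 1) → Multiset E) := by
      intro s
      funext i
      refine Fin.cases ?_ (fun j => ?_) i
      · simp
      · simp only [Fin.cons_succ]
        rw [restr_restr]
        congr 1
        refine (inter_eq_left.2 ?_).symm
        exact (hd (Fin.succ_ne_zero j)).subset_compl_right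
    have hcons : Measurable fun p : Multiset E × Multiset E =>
        (Fin.cons p.1 (fun j : Fin q => restr (C j.succ) p.2) : Fin (q + 1) → Multiset E) := by
      refine measurable_pi_lambda _ (fun i => ?_)
      refine Fin.cases ?_ (fun j => ?_) i
      · simp only [Fin.cons_zero]
        exact measurable_fst
      · simp only [Fin.cons_succ]
        exact measurable_restr_const (hC _) measurable_snd
    have e1 : ∫⁻ s, G (fun i => restr (C i) s) ∂(PP ν)
        = ∫⁻ s, (fun (a b : Multiset E) => G (Fin.cons a (fun j : Fin q => restr (C j.succ) b)))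
            (restr (C 0) s) (restr (C 0)ᶜ s) ∂(PP ν) := by
      congr 1
      funext s
      rw [key s]
    rw [e1, lintegral_PP_split ν (hC 0)
      (G := fun (a b : Multiset E) => G (Fin.cons a (fun j : Fin q => restr (C j.succ) b)))
      (hG.comp hcons)]
    congr 1
    funext a
    have hG2 : Measurable fun y : Fin q → Multiset E => G (Fin.cons a y : Fin (q + 1) → Multiset E) := by
      refine hG.comp (measurable_pi_lambda _ (fun i => ?_))
      refine Fin.cases ?_ (fun j => ?_) i
      · simp only [Fin.cons_zero]
        exact measurable_const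
      · simp only [Fin.cons_succ]
        exact measurable_pi_apply j
    have ih' := ih (ν.restrict (C 0)ᶜ) (fun j => C j.succ) (fun j => hC _)
      (fun i j hij => hd (fun h => hij (Fin.succ_injective _ h)))
    have e2 : ∀ j : Fin q, (ν.restrict (C 0)ᶜ).restrict (C j.succ) = ν.restrict (C j.succ) := by
      intro j
      rw [Measure.restrict_restrict (hC _)]
      congr 1
      exact inter_eq_left.2 (hd (Fin.succ_ne_zero j)).subset_compl_right
    simp_rw [e2] at ih'
    rw [← ih', lintegral_map hG2 (hm _ _ (fun j => hC _))]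

end Pool.Agent.TSPd97
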