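import Pool.Agent.TSPd97.UpDefs
import Pool.Agent.TSPd97.Geo1
import Pool.Agent.TSPd97.LawComp

/-!
MP_076557_pr: package RT, laws around one, two and three points of the Poisson process.
-/

set_option autoImplicit false

open MeasureTheory Set
open scoped ENNReal

namespace Pool.Agent.TSPd97

namespace RTaux

section Mecke

variable {E : Type*}

lemma sum_restr (A : Set E) (f : E → ℝ≥0∞) (s : Multiset E) :
    ((restr A s).map f).sum = (s.map (A.indicator f)).sum := by
  induction s using Multiset.induction_on with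
  | empty => simp
  | cons a s ih =>
    by_cases h : a ∈ A
    · rw [restr_cons_mem s h, Multiset.map_cons, Multiset.sum_cons, Multiset.map_cons,
        Multiset.sum_cons, indicator_of_mem h, ih]
    · rw [restr_cons_not_mem s h, Multiset.map_cons, Multiset.sum_cons, indicator_of_notMem h,
        zero_add, ih]

variable [MeasurableSpace E]

lemma mecke2 (ν : Measure E) [IsFiniteMeasure ν] (H : E → E → Multiset E → ℝ≥0∞)
    (hH : Measurable fun t : E × E × Multiset E => H t.1 t.2.1 t.2.2)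
    (h0 : ∀ v P, H v v P = 0) :
    ∫⁻ P, (P.map fun v => (P.map fun w => H v w P).sum).sum ∂(PP ν)
      = ∫⁻ v, ∫⁻ w, ∫⁻ η, H v w (v ::ₘ w ::ₘ η) ∂(PP ν) ∂ν ∂ν := by
  rw [PP_mecke ν (G := fun v P => (P.map fun w => H v w P).sum)]
  · congr 1
    funext v
    simp only [Multiset.map_cons, Multiset.sum_cons, h0, zero_add]
    rw [PP_mecke ν (G := fun w s => H v w (v ::ₘ s))]
    exact hH.comp (measurable_const.prodMk (measurable_fst.prodMk
      (measurable_mcons measurable_const measurable_snd)))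
  · refine measurable_msum (f := fun (t : E × Multiset E) w => H t.1 w t.2) ?_ measurable_snd
    exact hH.comp ((measurable_fst.comp measurable_fst).prodMk
      (measurable_snd.prodMk (measurable_snd.comp measurable_fst)))

lemma mecke3 (ν : Measure E) [IsFiniteMeasure ν] (H : E → E → E → Multiset E → ℝ≥0∞)
    (hH : Measurable fun t : E × E × E × Multiset E => H t.1 t.2.1 t.2.2.1 t.2.2.2)
    (h1 : ∀ v z P, H v v z P = 0) (h2 : ∀ v w P, H v w v P = 0) (h3 : ∀ v w P, H v w w P = 0) :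
    ∫⁻ P, (P.map fun v => (P.map fun w => (P.map fun z => H v w z P).sum).sum).sum ∂(PP ν)
      = ∫⁻ v, ∫⁻ w, ∫⁻ z, ∫⁻ η, H v w z (v ::ₘ w ::ₘ z ::ₘ η) ∂(PP ν) ∂ν ∂ν ∂ν := by
  rw [PP_mecke ν (G := fun v P => (P.map fun w => (P.map fun z => H v w z P).sum).sum)]
  · congr 1
    funext v
    simp only [Multiset.map_cons, Multiset.sum_cons, h1, h2, zero_add, Multiset.map_const',
      Multiset.sum_replicate, smul_zero]
    rw [mecke2 ν (H := fun w z s => H v w z (v ::ₘ s))]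
    · exact hH.comp (measurable_const.prodMk (measurable_fst.prodMk
        ((measurable_fst.comp measurable_snd).prodMk
        (measurable_mcons measurable_const (measurable_snd.comp measurable_snd)))))
    · intro w s
      exact h3 v w _
  · refine measurable_msum (f := fun (t : E × Multiset E) w =>
      (t.2.map fun z => H t.1 w z t.2).sum) ?_ measurable_snd
    refine measurable_msum (f := fun (t : (E × Multiset E) × E) z => H t.1.1 t.2 z t.1.2) ?_
      (measurable_snd.comp measurable_fst)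
    exact hH.comp ((measurable_fst.comp (measurable_fst.comp measurable_fst)).prodMk
      ((measurable_snd.comp measurable_fst).prodMk
      (measurable_snd.prodMk (measurable_snd.comp (measurable_fst.comp measurable_fst)))))

end Mecke

section PiInt

variable {Y : Type*} [MeasurableSpace Y]

lemma pi1 (T : Measure Y) [IsProbabilityMeasure T] {F : Y → ℝ≥0∞} (hF : Measurable F) :
    ∫⁻ ζ, F (ζ 0) ∂(Measure.pi fun _ : Fin 1 => T) = ∫⁻ ξ, F ξ ∂T := by
  exact (measurePreserving_eval (fun _ : Fin 1 => T) 0).lintegral_comp hF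

lemma pi2 (T : Measure Y) [IsProbabilityMeasure T] {F : Y → Y → ℝ≥0∞}
    (hF : Measurable fun t : Y × Y => F t.1 t.2) :
    ∫⁻ ζ, F (ζ 0) (ζ 1) ∂(Measure.pi fun _ : Fin 2 => T) = ∫⁻ ξ, ∫⁻ ξ', F ξ ξ' ∂T ∂T := by
  have hm0 : Measurable fun ζ : Fin 2 → Y => (ζ 0, ζ 1) :=
    (measurable_pi_apply 0).prodMk (measurable_pi_apply 1)
  have hm : Measurable fun ζ : Fin 2 → Y => F (ζ 0) (ζ 1) := hF.comp hm0
  rw [lintegral_pi_cons (fun _ : Fin 2 => T) hm]
  congr 1
  funext a
  have h1 : Measurable (F a) := hF.comp (measurable_const.prodMk measurable_id)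
  exact pi1 T h1

lemma pi3 (T : Measure Y) [IsProbabilityMeasure T] {F : Y → Y → Y → ℝ≥0∞}
    (hF : Measurable fun t : Y × Y × Y => F t.1 t.2.1 t.2.2) :
    ∫⁻ ζ, F (ζ 0) (ζ 1) (ζ 2) ∂(Measure.pi fun _ : Fin 3 => T)
      = ∫⁻ ξ, ∫⁻ ξ', ∫⁻ ξ'', F ξ ξ' ξ'' ∂T ∂T ∂T := by
  have hm0 : Measurable fun ζ : Fin 3 → Y => (ζ 0, ζ 1, ζ 2) :=
    (measurable_pi_apply 0).prodMk ((measurable_pi_apply 1).prodMk (measurable_pi_apply 2))
  have hm : Measurable fun ζ : Fin 3 → Y => F (ζ 0) (ζ 1) (ζ 2) := hF.comp hm0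
  rw [lintegral_pi_cons (fun _ : Fin 3 => T) hm]
  congr 1
  funext a
  have h1 : Measurable fun t : Y × Y => F a t.1 t.2 :=
    hF.comp (measurable_const.prodMk (measurable_fst.prodMk measurable_snd))
  exact pi2 T h1

end PiInt

section Geo

variable {d : ℕ}

lemma lam_restrict_cube (K : ℝ) : (lam d K).restrict (cube d) = lam d K := by
  unfold lam
  rw [Measure.restrict_smul, Measure.restrict_restrict (measurableSet_cube d), inter_self]

lemma unexp_zero (K S : ℝ) : unexp K S (0 : Multiset (Vd d)) = cube d := by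
  ext z; simp [unexp]

/-- the intensity measure on the whole space -/
noncomputable def flam (d : ℕ) (K : ℝ) : Measure (Vd d) :=
  ENNReal.ofReal (K / vball d) • volume

lemma lam_le_flam (K : ℝ) : lam d K ≤ flam d K := by
  unfold lam flam
  intro s
  simp only [Measure.smul_apply, smul_eq_mul]
  gcongr
  exact Measure.restrict_le_self

lemma flam_closedBall {K : ℝ} (hK : 0 ≤ K) (x : Vd d) {r : ℝ} (hr : 0 ≤ r) :
    flam d K (Metric.closedBall x r) = ENNReal.ofReal (K * r ^ d) := by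
  unfold flam
  rw [Measure.smul_apply, smul_eq_mul, GeoAux.volume_closedBall' x hr,
    GeoAux.ofReal_mul_vball hK]

lemma flam_singleton (hd : 1 ≤ d) {K : ℝ} (hK : 0 ≤ K) (x : Vd d) : flam d K {x} = 0 := by
  rw [← Metric.closedBall_zero (x := x), flam_closedBall hK x le_rfl, zero_pow (by omega)]
  simp

/-- the radial law on the whole space -/
theorem map_sd_full (hd : 1 ≤ d) {K S : ℝ} (hK : 0 < K) (hS : 0 ≤ S) (x : Vd d) :
    ((flam d K).restrict (Nb K S x)).map (sd K x) = volume.restrict (Ioc 0 S) := by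
  have hmeas : Measurable (sd K x) := GeoAux.measurable_sd (d := d) K x
  have hkey : ∀ t : ℝ, ((flam d K).restrict (Nb K S x)).map (sd K x) (Iic t) =
      (volume.restrict (Ioc 0 S)) (Iic t) := by
    intro t
    rw [Measure.map_apply hmeas measurableSet_Iic,
      Measure.restrict_apply (hmeas measurableSet_Iic), Measure.restrict_apply measurableSet_Iic]
    have h1 : Iic t ∩ Ioc 0 S = Ioc 0 (min S t) := by
      ext u; simp only [mem_inter_iff, mem_Iic, mem_Ioc, le_min_iff]; tauto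
    rw [h1, Real.volume_Ioc, sub_zero]
    rcases le_or_gt (min S t) 0 with hm | hm
    · rw [ENNReal.ofReal_eq_zero.2 hm]
      have h2 : sd K x ⁻¹' Iic t ∩ Nb K S x = ∅ := by
        ext z
        simp only [Nb, mem_inter_iff, mem_preimage, mem_Iic, mem_ofPred_eq, mem_empty_iff_false,
          iff_false]
        rintro ⟨ha, hb, hc⟩
        have := lt_of_lt_of_le hb (le_min hc ha)
        linarith
      rw [h2, measure_empty]
    · have hm' : 0 ≤ min S t := hm.le
      have h2 : sd K x ⁻¹' Iic t ∩ Nb K S x = Bs K (min S t) x \ {x} := by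
        ext z
        simp only [Nb, Bs, mem_inter_iff, mem_preimage, mem_Iic, mem_ofPred_eq, mem_sdiff,
          mem_singleton_iff, le_min_iff]
        have h3 := sd_pos_iff hd hK x z
        rw [h3, ne_comm]
        tauto
      rw [h2, measure_sdiff_null (flam_singleton hd hK.le x), GeoAux.Bs_eq hd hK hm',
        flam_closedBall hK.le x (GeoAux.rad_nonneg hK hm'), GeoAux.K_rad_pow hd hK hm']
  have : IsFiniteMeasure (((flam d K).restrict (Nb K S x)).map (sd K x)) := by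
    constructor
    rw [Measure.map_apply hmeas MeasurableSet.univ, preimage_univ, Measure.restrict_apply_univ]
    have h4 : Nb K S x ⊆ Bs K S x := fun z hz => hz.2
    refine lt_of_le_of_lt (measure_mono h4) ?_
    rw [GeoAux.Bs_eq hd hK hS, flam_closedBall hK.le x (GeoAux.rad_nonneg hK hS)]
    exact ENNReal.ofReal_lt_top
  exact Measure.ext_of_Iic _ _ hkey

/-- radial integrals over the neighbourhood of any point -/
lemma radial_le (hd : 1 ≤ d) {K S : ℝ} (hK : 0 < K) (hS : 0 ≤ S) (x : Vd d) {f : ℝ → ℝ≥0∞}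
    (hf : Measurable f) :
    ∫⁻ w in Nb K S x, f (sd K x w) ∂(lam d K) ≤ ∫⁻ s in Ioc 0 S, f s := by
  have hmeas : Measurable (sd K x) := GeoAux.measurable_sd (d := d) K x
  rw [← map_sd_full hd hK hS x, lintegral_map hf hmeas]
  exact lintegral_mono' (Measure.restrict_mono le_rfl (lam_le_flam K)) le_rfl

lemma radial_eq (hd : 1 ≤ d) {K S : ℝ} (hK : 0 < K) (hS : 0 ≤ S) (x : Vd d)
    (hx : Bs K S x ⊆ cube d) {f : ℝ → ℝ≥0∞} (hf : Measurable f) :
    ∫⁻ w in Nb K S x, f (sd K x w) ∂(lam d K) = ∫⁻ s in Ioc 0 S, f s := by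
  have hmeas : Measurable (sd K x) := GeoAux.measurable_sd (d := d) K x
  rw [← map_sd hd hK hS x hx, lintegral_map hf hmeas]

lemma ae_not_mem (hd : 1 ≤ d) (K : ℝ) (v : Vd d) : ∀ᵐ η ∂(PP (lam d K)), v ∉ η := by
  have h := ae_PP_forall (lam d K) (A := {v}ᶜ) (measurableSet_singleton v).compl (by
    rw [compl_compl]
    exact lam_singleton hd K v)
  filter_upwards [h] with η hη hv
  exact hη v hv rfl

lemma not_mem_Nb_self (hd : 1 ≤ d) (K S : ℝ) (v : Vd d) : v ∉ Nb K S v := by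
  intro h
  have h1 := h.1
  rw [sd_self hd K v] at h1
  exact lt_irrefl _ h1

end Geo

section Id

variable {V : Type*} (v0 : V) (Ψ : Multiset (ℝ × V) → V) {d : ℕ} {K S : ℝ} (h : ℕ)

lemma nbm_eq_nbE {q : ℕ} (x : Fin q → Vd d) (η : Multiset (Vd d)) (i : Fin q) (u : Vd d)
    (h1 : ∀ j, x j ∈ Nb K S (x i) → x j = u) (h2 : u ∉ η ∨ u ∉ Nb K S (x i)) :
    nbm v0 Ψ K S h (ms x + η) (x i) u = nbE v0 Ψ K S h x 0 η i := by
  unfold nbm nbE
  rw [zero_add, restr_add]
  have e1 : restr (Nb K S (x i) \ {u}) (ms x) = 0 := by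
    rw [restr_eq_zero]
    intro a ha hA
    obtain ⟨j, rfl⟩ := mem_ms.1 ha
    exact hA.2 (h1 j hA.1)
  have e2 : restr (Nb K S (x i) \ {u}) η = restr (Nb K S (x i)) η := by
    refine restr_congr fun a ha => ⟨fun h => h.1, fun h => ⟨h, ?_⟩⟩
    rintro rfl
    rcases h2 with h2 | h2
    · exact h2 ha
    · exact h2 h
  rw [e1, e2, zero_add]

end Id

section LC

variable {V : Type*} [MeasurableSpace V] (v0 : V) (Ψ : Multiset (ℝ × V) → V)
  (hΨ : Measurable Ψ) {d : ℕ} (hd : 1 ≤ d) {K S : ℝ} (hK : 0 < K) (hS : 1 ≤ S) (h : ℕ)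

include hΨ in
lemma troot_prob : IsProbabilityMeasure (troot v0 Ψ S h) := by
  have := tmu_prob v0 hΨ S h
  unfold troot
  infer_instance

omit [MeasurableSpace V] in
include hS in
lemma eps_le : (15 / 16 : ℝ) ^ ((d : ℝ) / 2) ≤ eerr d S h := by
  unfold eerr
  have h1 : (0 : ℝ) < (15 / 16 : ℝ) ^ ((d : ℝ) / 2) := by positivity
  have h2 : (1 : ℝ) ≤ (S + 3) ^ (2 * h + 2) := one_le_pow₀ (by linarith)
  nlinarith

omit [MeasurableSpace V] in
include hS in
lemma eerr_nonneg : 0 ≤ eerr d S h := by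
  refine le_trans ?_ (eps_le (d := d) hS h)
  positivity

include hΨ hd hK hS

lemma LCle {q : ℕ} (x : Fin q → Vd d) (hin : ∀ i, x i ∈ inner d ((h + 1) * rad d K S))
    (hsep : ∀ i j, i ≠ j → rad d K S / 2 ≤ dist (x i) (x j))
    (G : (Fin q → Multiset (ℝ × V)) → ℝ≥0∞) (hG : Measurable G) (hG1 : ∀ ζ, G ζ ≤ 1) :
    ∫⁻ η, G (nbE v0 Ψ K S h x 0 η) ∂(PP (lam d K))
      ≤ ∫⁻ ζ, G ζ ∂(Measure.pi fun _ : Fin q => troot v0 Ψ S h)
        + ENNReal.ofReal (eerr d S h * ((q : ℝ) + 1) ^ 2) := by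
  have h1 := law_comparison v0 Ψ hΨ hd hK hS h x 0 (by simpa using hin) (by simp) hsep G hG hG1
  rw [unexp_zero, lam_restrict_cube] at h1
  simpa [troot, eerr] using h1

lemma LCge {q : ℕ} (x : Fin q → Vd d) (hin : ∀ i, x i ∈ inner d ((h + 1) * rad d K S))
    (hsep : ∀ i j, i ≠ j → rad d K S / 2 ≤ dist (x i) (x j))
    (G : (Fin q → Multiset (ℝ × V)) → ℝ≥0∞) (hG : Measurable G) (hG1 : ∀ ζ, G ζ ≤ 1) :
    ∫⁻ ζ, G ζ ∂(Measure.pi fun _ : Fin q => troot v0 Ψ S h)
      ≤ ∫⁻ η, G (nbE v0 Ψ K S h x 0 η) ∂(PP (lam d K))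
        + ENNReal.ofReal (eerr d S h * ((q : ℝ) + 1) ^ 2) := by
  have hT := troot_prob v0 Ψ hΨ (S := S) h
  have h1 := LCle v0 Ψ hΨ hd hK hS h x hin hsep (fun ζ => 1 - G ζ) (measurable_const.sub hG)
    (fun ζ => tsub_le_self)
  have hm : Measurable fun η => nbE v0 Ψ K S h x 0 η :=
    measurable_pi_lambda _ fun i => measurable_nbE v0 hΨ K S h i measurable_const
      measurable_const measurable_id
  have e1 : ∫⁻ ζ, G ζ ∂(Measure.pi fun _ : Fin q => troot v0 Ψ S h)
      + ∫⁻ ζ, (1 - G ζ) ∂(Measure.pi fun _ : Fin q => troot v0 Ψ S h) = 1 := by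
    rw [← lintegral_add_left hG]
    have : ∀ ζ, G ζ + (1 - G ζ) = 1 := fun ζ => add_tsub_cancel_of_le (hG1 ζ)
    simp [this]
  have e2 : ∫⁻ η, G (nbE v0 Ψ K S h x 0 η) ∂(PP (lam d K))
      + ∫⁻ η, (1 - G (nbE v0 Ψ K S h x 0 η)) ∂(PP (lam d K)) = 1 := by
    have hc : Measurable fun η => G (nbE v0 Ψ K S h x 0 η) := hG.comp hm
    rw [← lintegral_add_left hc]
    have : ∀ η, G (nbE v0 Ψ K S h x 0 η) + (1 - G (nbE v0 Ψ K S h x 0 η)) = 1 :=
      fun ζ => add_tsub_cancel_of_le (hG1 _)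
    simp [this]
  have hfin : ∫⁻ ζ, (1 - G ζ) ∂(Measure.pi fun _ : Fin q => troot v0 Ψ S h) ≠ ∞ := by
    exact ne_top_of_le_ne_top ENNReal.one_ne_top (le_add_self.trans (le_of_eq e1))
  rw [← ENNReal.add_le_add_iff_right hfin, e1.trans e2.symm]
  calc ∫⁻ η, G (nbE v0 Ψ K S h x 0 η) ∂(PP (lam d K))
      + ∫⁻ η, (1 - G (nbE v0 Ψ K S h x 0 η)) ∂(PP (lam d K))
      ≤ ∫⁻ η, G (nbE v0 Ψ K S h x 0 η) ∂(PP (lam d K))
        + (∫⁻ ζ, (1 - G ζ) ∂(Measure.pi fun _ : Fin q => troot v0 Ψ S h)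
          + ENNReal.ofReal (eerr d S h * ((q : ℝ) + 1) ^ 2)) := by gcongr
    _ = _ := by ring

omit hΨ hS in
lemma sep_of_sd {v w : Vd d} (hS0 : 0 ≤ S) (hvw : S < sd K v w) : rad d K S / 2 ≤ dist v w := by
  have h1 : rad d K S < dist v w := by
    by_contra hc
    rw [not_lt, ← sd_le_iff hd hK hS0] at hc
    linarith
  have h2 := GeoAux.rad_nonneg (d := d) hK hS0
  linarith

omit hΨ hK hS [MeasurableSpace V] in
lemma far_nbm {q : ℕ} (x : Fin q → Vd d) (hsep : ∀ i j, i ≠ j → S < sd K (x i) (x j))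
    (η : Multiset (Vd d)) (i : Fin q) :
    nbm v0 Ψ K S h (ms x + η) (x i) (x i) = nbE v0 Ψ K S h x 0 η i := by
  refine nbm_eq_nbE v0 Ψ h x η i (x i) (fun j hj => ?_) (Or.inr (not_mem_Nb_self hd K S _))
  by_contra hne
  have hij : i ≠ j := by
    rintro rfl
    exact hne rfl
  exact absurd hj.2 (not_le.2 (hsep i j hij))

lemma far_le {q : ℕ} (x : Fin q → Vd d) (hin : ∀ i, x i ∈ inner d ((h + 1) * rad d K S))
    (hsep : ∀ i j, i ≠ j → S < sd K (x i) (x j))
    (F : (Fin q → Multiset (ℝ × V)) → ℝ≥0∞) (hF : Measurable F) (hF1 : ∀ ζ, F ζ ≤ 1) :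
    ∫⁻ η, F (fun i => nbm v0 Ψ K S h (ms x + η) (x i) (x i)) ∂(PP (lam d K))
      ≤ ∫⁻ ζ, F ζ ∂(Measure.pi fun _ : Fin q => troot v0 Ψ S h)
        + ENNReal.ofReal (eerr d S h * ((q : ℝ) + 1) ^ 2) := by
  have h1 := LCle v0 Ψ hΨ hd hK hS h x hin
    (fun i j hij => sep_of_sd hd hK (by linarith) (hsep i j hij)) F hF hF1
  simp only [far_nbm v0 Ψ hd h x hsep]
  exact h1

lemma far_ge {q : ℕ} (x : Fin q → Vd d) (hin : ∀ i, x i ∈ inner d ((h + 1) * rad d K S))
    (hsep : ∀ i j, i ≠ j → S < sd K (x i) (x j))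
    (F : (Fin q → Multiset (ℝ × V)) → ℝ≥0∞) (hF : Measurable F) (hF1 : ∀ ζ, F ζ ≤ 1) :
    ∫⁻ ζ, F ζ ∂(Measure.pi fun _ : Fin q => troot v0 Ψ S h)
      ≤ ∫⁻ η, F (fun i => nbm v0 Ψ K S h (ms x + η) (x i) (x i)) ∂(PP (lam d K))
        + ENNReal.ofReal (eerr d S h * ((q : ℝ) + 1) ^ 2) := by
  have h1 := LCge v0 Ψ hΨ hd hK hS h x hin
    (fun i j hij => sep_of_sd hd hK (by linarith) (hsep i j hij)) F hF hF1
  simp only [far_nbm v0 Ψ hd h x hsep]
  exact h1

/-- one root -/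
lemma root1_le (v : Vd d) (hv : v ∈ inner d ((h + 1) * rad d K S))
    (G : Multiset (ℝ × V) → ℝ≥0∞) (hG : Measurable G) (hG1 : ∀ ξ, G ξ ≤ 1) :
    ∫⁻ η, G (nbm v0 Ψ K S h (v ::ₘ η) v v) ∂(PP (lam d K))
      ≤ ∫⁻ ξ, G ξ ∂(troot v0 Ψ S h) + ENNReal.ofReal (4 * eerr d S h) := by
  have hT := troot_prob v0 Ψ hΨ (S := S) h
  have h1 := far_le v0 Ψ hΨ hd hK hS h (q := 1) (fun _ => v) (fun _ => hv)
    (fun i j hij => absurd (Subsingleton.elim i j) hij) (fun ζ => G (ζ 0))
    (hG.comp (measurable_pi_apply 0)) (fun ζ => hG1 _)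
  rw [pi1 _ hG] at h1
  have e : ∀ η : Multiset (Vd d), ms (fun _ : Fin 1 => v) + η = v ::ₘ η := by
    intro η
    rw [ms_cons]
    simp
  simp only [e] at h1
  refine h1.trans (le_of_eq ?_)
  congr 2
  push_cast
  ring

lemma root1_ge (v : Vd d) (hv : v ∈ inner d ((h + 1) * rad d K S))
    (G : Multiset (ℝ × V) → ℝ≥0∞) (hG : Measurable G) (hG1 : ∀ ξ, G ξ ≤ 1) :
    ∫⁻ ξ, G ξ ∂(troot v0 Ψ S h)
      ≤ ∫⁻ η, G (nbm v0 Ψ K S h (v ::ₘ η) v v) ∂(PP (lam d K))
        + ENNReal.ofReal (4 * eerr d S h) := by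
  have hT := troot_prob v0 Ψ hΨ (S := S) h
  have h1 := far_ge v0 Ψ hΨ hd hK hS h (q := 1) (fun _ => v) (fun _ => hv)
    (fun i j hij => absurd (Subsingleton.elim i j) hij) (fun ζ => G (ζ 0))
    (hG.comp (measurable_pi_apply 0)) (fun ζ => hG1 _)
  rw [pi1 _ hG] at h1
  have e : ∀ η : Multiset (Vd d), ms (fun _ : Fin 1 => v) + η = v ::ₘ η := by
    intro η
    rw [ms_cons]
    simp
  simp only [e] at h1
  refine h1.trans (le_of_eq ?_)
  congr 2
  push_cast
  ring

omit hΨ hd hK hS [MeasurableSpace V] in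
lemma ms_two (v w : Vd d) (η : Multiset (Vd d)) : ms ![v, w] + η = v ::ₘ w ::ₘ η := by
  rw [ms_cons, ms_cons]
  simp

omit hΨ hd hK hS [MeasurableSpace V] in
lemma ms_three (v w z : Vd d) (η : Multiset (Vd d)) :
    ms ![v, w, z] + η = v ::ₘ w ::ₘ z ::ₘ η := by
  rw [ms_cons, ms_cons, ms_cons]
  simp

omit hΨ hd hK hS [MeasurableSpace V] in
lemma pw_two {v w : Vd d} (hvw : S < sd K v w) :
    ∀ i j : Fin 2, i ≠ j → S < sd K ((![v, w] : Fin 2 → Vd d) i) ((![v, w] : Fin 2 → Vd d) j) := by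
  have hwv : S < sd K w v := by rwa [sd_comm]
  intro i j hij
  fin_cases i <;> fin_cases j <;> simp_all

omit hΨ hd hK hS [MeasurableSpace V] in
lemma pw_three {v w z : Vd d} (hvw : S < sd K v w) (hvz : S < sd K v z) (hwz : S < sd K w z) :
    ∀ i j : Fin 3, i ≠ j →
      S < sd K ((![v, w, z] : Fin 3 → Vd d) i) ((![v, w, z] : Fin 3 → Vd d) j) := by
  have hwv : S < sd K w v := by rwa [sd_comm]
  have hzv : S < sd K z v := by rwa [sd_comm]
  have hzw : S < sd K z w := by rwa [sd_comm]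
  intro i j hij
  fin_cases i <;> fin_cases j <;> simp_all

lemma root2_far_le (v w : Vd d) (hv : v ∈ inner d ((h + 1) * rad d K S))
    (hw : w ∈ inner d ((h + 1) * rad d K S)) (hvw : S < sd K v w)
    (G : Multiset (ℝ × V) → ℝ≥0∞) (hG : Measurable G) (hG1 : ∀ ξ, G ξ ≤ 1) :
    ∫⁻ η, G (nbm v0 Ψ K S h (v ::ₘ w ::ₘ η) v v) * G (nbm v0 Ψ K S h (v ::ₘ w ::ₘ η) w w)
        ∂(PP (lam d K))
      ≤ (∫⁻ ξ, G ξ ∂(troot v0 Ψ S h)) ^ 2 + ENNReal.ofReal (9 * eerr d S h) := by
  have hT := troot_prob v0 Ψ hΨ (S := S) h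
  have hGG : Measurable fun t : Multiset (ℝ × V) × Multiset (ℝ × V) => G t.1 * G t.2 :=
    (hG.comp measurable_fst).mul (hG.comp measurable_snd)
  have h1 := far_le v0 Ψ hΨ hd hK hS h (q := 2) ![v, w]
    (by intro i; fin_cases i <;> simpa) (pw_two hvw) (fun ζ => G (ζ 0) * G (ζ 1))
    ((hG.comp (measurable_pi_apply 0)).mul (hG.comp (measurable_pi_apply 1)))
    (fun ζ => mul_le_one' (hG1 _) (hG1 _))
  rw [pi2 (troot v0 Ψ S h) (F := fun a b => G a * G b) hGG] at h1
  simp only [ms_two, Matrix.cons_val_zero, Matrix.cons_val_one] at h1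
  refine h1.trans (le_of_eq ?_)
  congr 1
  · simp_rw [lintegral_const_mul _ hG]
    rw [lintegral_mul_const _ hG, pow_two]
  · congr 1
    push_cast
    ring

lemma root2_far_ge (v w : Vd d) (hv : v ∈ inner d ((h + 1) * rad d K S))
    (hw : w ∈ inner d ((h + 1) * rad d K S)) (hvw : S < sd K v w)
    (G : Multiset (ℝ × V) → ℝ≥0∞) (hG : Measurable G) (hG1 : ∀ ξ, G ξ ≤ 1) :
    (∫⁻ ξ, G ξ ∂(troot v0 Ψ S h)) ^ 2
      ≤ ∫⁻ η, G (nbm v0 Ψ K S h (v ::ₘ w ::ₘ η) v v) * G (nbm v0 Ψ K S h (v ::ₘ w ::ₘ η) w w)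
        ∂(PP (lam d K)) + ENNReal.ofReal (9 * eerr d S h) := by
  have hT := troot_prob v0 Ψ hΨ (S := S) h
  have hGG : Measurable fun t : Multiset (ℝ × V) × Multiset (ℝ × V) => G t.1 * G t.2 :=
    (hG.comp measurable_fst).mul (hG.comp measurable_snd)
  have h1 := far_ge v0 Ψ hΨ hd hK hS h (q := 2) ![v, w]
    (by intro i; fin_cases i <;> simpa) (pw_two hvw) (fun ζ => G (ζ 0) * G (ζ 1))
    ((hG.comp (measurable_pi_apply 0)).mul (hG.comp (measurable_pi_apply 1)))
    (fun ζ => mul_le_one' (hG1 _) (hG1 _))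
  rw [pi2 (troot v0 Ψ S h) (F := fun a b => G a * G b) hGG] at h1
  simp only [ms_two, Matrix.cons_val_zero, Matrix.cons_val_one] at h1
  refine (le_of_eq ?_).trans (h1.trans (le_of_eq ?_))
  · simp_rw [lintegral_const_mul _ hG]
    rw [lintegral_mul_const _ hG, pow_two]
  · congr 2
    push_cast
    ring

lemma root3_far_le (v w z : Vd d) (hv : v ∈ inner d ((h + 1) * rad d K S))
    (hw : w ∈ inner d ((h + 1) * rad d K S)) (hz : z ∈ inner d ((h + 1) * rad d K S))
    (hvw : S < sd K v w) (hvz : S < sd K v z) (hwz : S < sd K w z)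
    (G : Multiset (ℝ × V) → ℝ≥0∞) (hG : Measurable G) (hG1 : ∀ ξ, G ξ ≤ 1) :
    ∫⁻ η, G (nbm v0 Ψ K S h (v ::ₘ w ::ₘ z ::ₘ η) v v)
        * G (nbm v0 Ψ K S h (v ::ₘ w ::ₘ z ::ₘ η) w w)
        * G (nbm v0 Ψ K S h (v ::ₘ w ::ₘ z ::ₘ η) z z)
        ∂(PP (lam d K))
      ≤ (∫⁻ ξ, G ξ ∂(troot v0 Ψ S h)) ^ 3 + ENNReal.ofReal (16 * eerr d S h) := by
  have hT := troot_prob v0 Ψ hΨ (S := S) h
  have hGG : Measurable fun t : Multiset (ℝ × V) × Multiset (ℝ × V) × Multiset (ℝ × V) =>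
      G t.1 * G t.2.1 * G t.2.2 :=
    ((hG.comp measurable_fst).mul (hG.comp (measurable_fst.comp measurable_snd))).mul
      (hG.comp (measurable_snd.comp measurable_snd))
  have h1 := far_le v0 Ψ hΨ hd hK hS h (q := 3) ![v, w, z]
    (by intro i; fin_cases i <;> simpa) (pw_three hvw hvz hwz)
    (fun ζ => G (ζ 0) * G (ζ 1) * G (ζ 2))
    (((hG.comp (measurable_pi_apply 0)).mul (hG.comp (measurable_pi_apply 1))).mul
      (hG.comp (measurable_pi_apply 2)))
    (fun ζ => mul_le_one' (mul_le_one' (hG1 _) (hG1 _)) (hG1 _))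
  rw [pi3 (troot v0 Ψ S h) (F := fun a b c => G a * G b * G c) hGG] at h1
  simp only [ms_three, Matrix.cons_val_zero, Matrix.cons_val_one, Matrix.cons_val_two] at h1
  refine h1.trans (le_of_eq ?_)
  congr 1
  · simp_rw [lintegral_const_mul _ hG]
    have e : ∀ a : Multiset (ℝ × V), ∫⁻ b, G a * G b * ∫⁻ c, G c ∂(troot v0 Ψ S h) ∂(troot v0 Ψ S h)
        = G a * ((∫⁻ c, G c ∂(troot v0 Ψ S h)) ^ 2) := by
      intro a
      rw [lintegral_mul_const _ (hG.const_mul _), lintegral_const_mul _ hG, pow_two, mul_assoc]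
    simp_rw [e]
    rw [lintegral_mul_const _ hG]
    ring
  · congr 1
    push_cast
    ring

/-- two neighbouring roots -/
lemma root2_near_le (v w : Vd d) (hv : v ∈ inner d ((h + 1) * rad d K S))
    (hw : w ∈ inner d ((h + 1) * rad d K S)) (hvw : rad d K S / 2 ≤ dist v w)
    (g : Multiset (ℝ × V) → Multiset (ℝ × V) → ℝ≥0∞)
    (hg : Measurable fun t : Multiset (ℝ × V) × Multiset (ℝ × V) => g t.1 t.2)
    (hg1 : ∀ ξ ξ', g ξ ξ' ≤ 1) :
    ∫⁻ η, g (nbm v0 Ψ K S h (v ::ₘ w ::ₘ η) v w) (nbm v0 Ψ K S h (v ::ₘ w ::ₘ η) w v)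
        ∂(PP (lam d K))
      ≤ ∫⁻ ξ, ∫⁻ ξ', g ξ ξ' ∂(troot v0 Ψ S h) ∂(troot v0 Ψ S h)
        + ENNReal.ofReal (9 * eerr d S h) := by
  have hT := troot_prob v0 Ψ hΨ (S := S) h
  have hm0 : Measurable fun ζ : Fin 2 → Multiset (ℝ × V) => (ζ 0, ζ 1) :=
    (measurable_pi_apply 0).prodMk (measurable_pi_apply 1)
  have h1 := LCle v0 Ψ hΨ hd hK hS h (q := 2) ![v, w]
    (by intro i; fin_cases i <;> simpa) (by
      have hwv : rad d K S / 2 ≤ dist w v := by rwa [dist_comm]
      intro i j hij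
      fin_cases i <;> fin_cases j <;> simp_all) (fun ζ => g (ζ 0) (ζ 1))
    (hg.comp hm0) (fun ζ => hg1 _ _)
  rw [pi2 (troot v0 Ψ S h) (F := fun a b => g a b) hg] at h1
  refine (le_of_eq ?_).trans (h1.trans (le_of_eq ?_))
  · refine lintegral_congr_ae ?_
    filter_upwards [ae_not_mem hd K v, ae_not_mem hd K w] with η hvη hwη
    have e0 := nbm_eq_nbE v0 Ψ (K := K) (S := S) h ![v, w] η 0 w (by
      intro j hj
      fin_cases j
      · exact absurd hj (not_mem_Nb_self hd K S v)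
      · rfl) (Or.inl hwη)
    have e1 := nbm_eq_nbE v0 Ψ (K := K) (S := S) h ![v, w] η 1 v (by
      intro j hj
      fin_cases j
      · rfl
      · exact absurd hj (not_mem_Nb_self hd K S w)) (Or.inl hvη)
    rw [ms_two] at e0 e1
    rw [← e0, ← e1]
    rfl
  · congr 2
    push_cast
    ring

end LC

section MeckeR

variable {E : Type*} [MeasurableSpace E]

lemma mecke2R (ν : Measure E) [IsFiniteMeasure ν] (A : Set (E × E)) (hA : MeasurableSet A)
    (hA0 : ∀ v, (v, v) ∉ A) (F : E → E → Multiset E → ℝ≥0∞)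
    (hF : Measurable fun t : E × E × Multiset E => F t.1 t.2.1 t.2.2) :
    ∫⁻ P, (P.map fun v => ((restr {w | (v, w) ∈ A} P).map fun w => F v w P).sum).sum ∂(PP ν)
      = ∫⁻ v, ∫⁻ w in {w | (v, w) ∈ A}, ∫⁻ η, F v w (v ::ₘ w ::ₘ η) ∂(PP ν) ∂ν ∂ν := by
  simp only [sum_restr]
  rw [mecke2 ν (H := fun v w P => {w | (v, w) ∈ A}.indicator (fun w => F v w P) w)]
  · congr 1
    funext v
    have hAv : MeasurableSet {w | (v, w) ∈ A} := measurable_prodMk_left hA
    rw [← lintegral_indicator hAv]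
    congr 1
    funext w
    by_cases hw : (v, w) ∈ A
    · have hw' : w ∈ {w | (v, w) ∈ A} := hw
      simp only [indicator_of_mem hw']
    · have hw' : w ∉ {w | (v, w) ∈ A} := hw
      simp only [indicator_of_notMem hw', lintegral_zero]
  · have e : (fun t : E × E × Multiset E =>
        {w | (t.1, w) ∈ A}.indicator (fun w => F t.1 w t.2.2) t.2.1)
        = {t : E × E × Multiset E | (t.1, t.2.1) ∈ A}.indicator
          (fun t => F t.1 t.2.1 t.2.2) := by
      funext t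
      by_cases hw : (t.1, t.2.1) ∈ A
      · have hw' : t.2.1 ∈ {w | (t.1, w) ∈ A} := hw
        have hw'' : t ∈ {t : E × E × Multiset E | (t.1, t.2.1) ∈ A} := hw
        rw [indicator_of_mem hw', indicator_of_mem hw'']
      · have hw' : t.2.1 ∉ {w | (t.1, w) ∈ A} := hw
        have hw'' : t ∉ {t : E × E × Multiset E | (t.1, t.2.1) ∈ A} := hw
        rw [indicator_of_notMem hw', indicator_of_notMem hw'']
    rw [e]
    exact hF.indicator ((measurable_fst.prodMk (measurable_fst.comp measurable_snd)) hA)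
  · intro v P
    have hw' : v ∉ {w | (v, w) ∈ A} := hA0 v
    exact indicator_of_notMem hw' _

lemma mecke3R (ν : Measure E) [IsFiniteMeasure ν] (A : Set (E × E)) (hA : MeasurableSet A)
    (hA0 : ∀ v, (v, v) ∉ A) (B : Set (E × E × E)) (hB : MeasurableSet B)
    (hB1 : ∀ v w, (v, w, v) ∉ B) (hB2 : ∀ v w, (v, w, w) ∉ B)
    (F : E → E → E → Multiset E → ℝ≥0∞)
    (hF : Measurable fun t : E × E × E × Multiset E => F t.1 t.2.1 t.2.2.1 t.2.2.2) :
    ∫⁻ P, (P.map fun v => ((restr {w | (v, w) ∈ A} P).map fun w =>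
        ((restr {z | (v, w, z) ∈ B} P).map fun z => F v w z P).sum).sum).sum ∂(PP ν)
      = ∫⁻ v, ∫⁻ w in {w | (v, w) ∈ A}, ∫⁻ z in {z | (v, w, z) ∈ B},
          ∫⁻ η, F v w z (v ::ₘ w ::ₘ z ::ₘ η) ∂(PP ν) ∂ν ∂ν ∂ν := by
  simp only [sum_restr]
  have e0 : ∀ (v : E) (P : Multiset E) (w : E), {w | (v, w) ∈ A}.indicator (fun w =>
      (P.map ({z | (v, w, z) ∈ B}.indicator fun z => F v w z P)).sum) w
      = (P.map fun z => {w | (v, w) ∈ A}.indicator (fun w =>
        {z | (v, w, z) ∈ B}.indicator (fun z => F v w z P) z) w).sum := by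
    intro v P w
    by_cases hw : (v, w) ∈ A
    · have hw' : w ∈ {w | (v, w) ∈ A} := hw
      simp only [indicator_of_mem hw']
    · have hw' : w ∉ {w | (v, w) ∈ A} := hw
      simp only [indicator_of_notMem hw']
      simp
  have e1 : ∀ (v : E) (P : Multiset E), {w | (v, w) ∈ A}.indicator (fun w =>
      (P.map ({z | (v, w, z) ∈ B}.indicator fun z => F v w z P)).sum)
      = fun w => (P.map fun z => {w | (v, w) ∈ A}.indicator (fun w =>
        {z | (v, w, z) ∈ B}.indicator (fun z => F v w z P) z) w).sum := fun v P =>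
    funext (e0 v P)
  simp only [e1]
  rw [mecke3 ν (H := fun v w z P => {w | (v, w) ∈ A}.indicator (fun w =>
        {z | (v, w, z) ∈ B}.indicator (fun z => F v w z P) z) w)]
  · congr 1
    funext v
    have hAv : MeasurableSet {w | (v, w) ∈ A} := measurable_prodMk_left hA
    rw [← lintegral_indicator hAv]
    congr 1
    funext w
    by_cases hw : (v, w) ∈ A
    · have hw' : w ∈ {w | (v, w) ∈ A} := hw
      simp only [indicator_of_mem hw']
      have hBv : MeasurableSet {z | (v, w, z) ∈ B} :=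
        (measurable_const.prodMk (measurable_const.prodMk measurable_id)) hB
      rw [← lintegral_indicator hBv]
      congr 1
      funext z
      by_cases hz : (v, w, z) ∈ B
      · have hz' : z ∈ {z | (v, w, z) ∈ B} := hz
        simp only [indicator_of_mem hz']
      · have hz' : z ∉ {z | (v, w, z) ∈ B} := hz
        simp only [indicator_of_notMem hz', lintegral_zero]
    · have hw' : w ∉ {w | (v, w) ∈ A} := hw
      simp only [indicator_of_notMem hw', lintegral_zero]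
  · have e : (fun t : E × E × E × Multiset E =>
        {w | (t.1, w) ∈ A}.indicator (fun w =>
          {z | (t.1, w, z) ∈ B}.indicator (fun z => F t.1 w z t.2.2.2) t.2.2.1) t.2.1)
        = ({t : E × E × E × Multiset E | (t.1, t.2.1) ∈ A} ∩
            {t : E × E × E × Multiset E | (t.1, t.2.1, t.2.2.1) ∈ B}).indicator
          (fun t => F t.1 t.2.1 t.2.2.1 t.2.2.2) := by
      funext t
      by_cases hw : (t.1, t.2.1) ∈ A
      · have hw' : t.2.1 ∈ {w | (t.1, w) ∈ A} := hw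
        rw [indicator_of_mem hw']
        by_cases hz : (t.1, t.2.1, t.2.2.1) ∈ B
        · have hz' : t.2.2.1 ∈ {z | (t.1, t.2.1, z) ∈ B} := hz
          have hz'' : t ∈ ({t : E × E × E × Multiset E | (t.1, t.2.1) ∈ A} ∩
            {t : E × E × E × Multiset E | (t.1, t.2.1, t.2.2.1) ∈ B}) := ⟨hw, hz⟩
          rw [indicator_of_mem hz', indicator_of_mem hz'']
        · have hz' : t.2.2.1 ∉ {z | (t.1, t.2.1, z) ∈ B} := hz
          have hz'' : t ∉ ({t : E × E × E × Multiset E | (t.1, t.2.1) ∈ A} ∩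
            {t : E × E × E × Multiset E | (t.1, t.2.1, t.2.2.1) ∈ B}) := fun h => hz h.2
          rw [indicator_of_notMem hz', indicator_of_notMem hz'']
      · have hw' : t.2.1 ∉ {w | (t.1, w) ∈ A} := hw
        have hz'' : t ∉ ({t : E × E × E × Multiset E | (t.1, t.2.1) ∈ A} ∩
            {t : E × E × E × Multiset E | (t.1, t.2.1, t.2.2.1) ∈ B}) := fun h => hw h.1
        rw [indicator_of_notMem hw', indicator_of_notMem hz'']
    rw [e]
    refine hF.indicator (MeasurableSet.inter ?_ ?_)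
    · exact (measurable_fst.prodMk (measurable_fst.comp measurable_snd)) hA
    · exact (measurable_fst.prodMk ((measurable_fst.comp measurable_snd).prodMk
        (measurable_fst.comp (measurable_snd.comp measurable_snd)))) hB
  · intro v z P
    have hw' : v ∉ {w | (v, w) ∈ A} := hA0 v
    exact indicator_of_notMem hw' _
  · intro v w P
    have e2 : ∀ w', {w | (v, w) ∈ A}.indicator (fun w'' =>
        {z | (v, w'', z) ∈ B}.indicator (fun z => F v w'' z P) v) w' = 0 := by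
      intro w'
      by_cases hw : (v, w') ∈ A
      · have hw' : w' ∈ {w | (v, w) ∈ A} := hw
        rw [indicator_of_mem hw']
        have hz' : v ∉ {z | (v, w', z) ∈ B} := hB1 v w'
        exact indicator_of_notMem hz' _
      · have hw' : w' ∉ {w | (v, w) ∈ A} := hw
        exact indicator_of_notMem hw' _
    exact e2 w
  · intro v w P
    have e2 : ∀ w', {w | (v, w) ∈ A}.indicator (fun w'' =>
        {z | (v, w'', z) ∈ B}.indicator (fun z => F v w'' z P) w'') w' = 0 := by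
      intro w'
      by_cases hw : (v, w') ∈ A
      · have hw' : w' ∈ {w | (v, w) ∈ A} := hw
        rw [indicator_of_mem hw']
        have hz' : w' ∉ {z | (v, w', z) ∈ B} := hB2 v w'
        exact indicator_of_notMem hz' _
      · have hw' : w' ∉ {w | (v, w) ∈ A} := hw
        exact indicator_of_notMem hw' _
    exact e2 w

end MeckeR

section Bd

variable {d : ℕ}

lemma bd_int (hd : 1 ≤ d) {K : ℝ} (hK : 0 < K) {ρ : ℝ} (hρ : 0 ≤ ρ) {J : Vd d → ℝ≥0∞}
    {c b : ℝ≥0∞} (h1 : ∀ v ∈ inner d ρ, J v ≤ c) (h2 : ∀ v, J v ≤ b) :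
    ∫⁻ v, J v ∂(lam d K)
      ≤ ENNReal.ofReal (K / vball d) * (c + b * ENNReal.ofReal (2 * d * ρ)) := by
  calc ∫⁻ v, J v ∂(lam d K)
      ≤ ∫⁻ v, (c + ((inner d ρ)ᶜ).indicator (fun _ => b) v) ∂(lam d K) := by
        refine lintegral_mono fun v => ?_
        by_cases hv : v ∈ inner d ρ
        · exact (h1 v hv).trans le_self_add
        · have hv' : v ∈ (inner d ρ)ᶜ := hv
          rw [indicator_of_mem hv']
          exact (h2 v).trans le_add_self
    _ = c * lam d K univ + ∫⁻ v, ((inner d ρ)ᶜ).indicator (fun _ => b) v ∂(lam d K) := by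
        rw [lintegral_add_left measurable_const, lintegral_const]
    _ ≤ c * lam d K univ + b * lam d K (inner d ρ)ᶜ := by
        gcongr
        exact lintegral_indicator_const_le _ _
    _ ≤ c * ENNReal.ofReal (K / vball d) + b * ENNReal.ofReal (K / vball d * (2 * d * ρ)) := by
        rw [lam_univ]
        gcongr
        exact lam_boundary hd hK ρ hρ
    _ = _ := by
        have hv := GeoAux.vball_pos d
        rw [ENNReal.ofReal_mul (by positivity)]
        ring

lemma bd_int_ge (hd : 1 ≤ d) {K : ℝ} (hK : 0 < K) {ρ : ℝ} (hρ : 0 ≤ ρ) {J : Vd d → ℝ≥0∞}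
    {c e : ℝ≥0∞} (h1 : ∀ v ∈ inner d ρ, c ≤ J v + e) :
    ENNReal.ofReal (K / vball d) * c
      ≤ ∫⁻ v, J v ∂(lam d K)
        + ENNReal.ofReal (K / vball d) * (e + c * ENNReal.ofReal (2 * d * ρ)) := by
  obtain ⟨t, ht, htm, hteq⟩ := exists_measurable_superset (lam d K) (inner d ρ)ᶜ
  calc ENNReal.ofReal (K / vball d) * c = ∫⁻ _v, c ∂(lam d K) := by
        rw [lintegral_const, lam_univ, mul_comm]
    _ ≤ ∫⁻ v, (J v + (e + t.indicator (fun _ => c) v)) ∂(lam d K) := by
        refine lintegral_mono fun v => ?_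
        by_cases hv : v ∈ inner d ρ
        · refine (h1 v hv).trans ?_
          rw [← add_assoc]
          exact le_self_add
        · have hv' : v ∈ t := ht hv
          rw [indicator_of_mem hv']
          exact (le_add_self (a := c) (b := e)).trans le_add_self
    _ = ∫⁻ v, J v ∂(lam d K) + (e * lam d K univ + c * lam d K t) := by
        have hm2 : Measurable fun v => e + t.indicator (fun _ => c) v :=
          measurable_const.add (measurable_const.indicator htm)
        rw [lintegral_add_right _ hm2,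
          lintegral_add_left measurable_const, lintegral_const, lintegral_indicator_const htm]
    _ ≤ ∫⁻ v, J v ∂(lam d K) + (e * ENNReal.ofReal (K / vball d)
          + c * ENNReal.ofReal (K / vball d * (2 * d * ρ))) := by
        rw [lam_univ, hteq]
        gcongr
        exact lam_boundary hd hK ρ hρ
    _ = _ := by
        have hv := GeoAux.vball_pos d
        rw [ENNReal.ofReal_mul (by positivity)]
        ring

lemma inner_mono {ρ ρ' : ℝ} (h : ρ' ≤ ρ) {v : Vd d} (hv : v ∈ inner d ρ) : v ∈ inner d ρ' :=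
  (Metric.closedBall_subset_closedBall h).trans hv

lemma inner_near {ρ r : ℝ} {v w : Vd d} (hv : v ∈ inner d (ρ + r)) (h : dist v w ≤ r) :
    w ∈ inner d ρ := by
  refine subset_trans (Metric.closedBall_subset_closedBall' ?_) hv
  rw [dist_comm]
  linarith

lemma lam_Nb_le (hd : 1 ≤ d) {K S : ℝ} (hK : 0 < K) (hS : 0 ≤ S) (v : Vd d) :
    lam d K (Nb K S v) ≤ ENNReal.ofReal S :=
  (measure_mono fun _ hz => hz.2).trans (lam_Bs_le hd hK hS v)

lemma far_sub (S Δ K : ℝ) (v : Vd d) : {w | S < sd K v w ∧ sd K v w ≤ Δ} ⊆ Bs K Δ v :=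
  fun _ h => h.2

lemma lam_far_le (hd : 1 ≤ d) {K S Δ : ℝ} (hK : 0 < K) (hS : 0 ≤ S) (hΔ : S ≤ Δ) (v : Vd d) :
    lam d K {w | S < sd K v w ∧ sd K v w ≤ Δ} ≤ ENNReal.ofReal (Δ - S) := by
  have hmeas : Measurable (sd K v) := GeoAux.measurable_sd (d := d) K v
  have hm : MeasurableSet {w : Vd d | S < sd K v w ∧ sd K v w ≤ Δ} := hmeas measurableSet_Ioc
  have h1 := radial_le hd hK (hS.trans hΔ) v (f := (Ioi S).indicator fun _ => 1)
    (measurable_const.indicator measurableSet_Ioi)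
  have e1 : ∫⁻ s in Ioc 0 Δ, (Ioi S).indicator (fun _ => (1 : ℝ≥0∞)) s = ENNReal.ofReal (Δ - S) := by
    rw [lintegral_indicator_const measurableSet_Ioi, one_mul, Measure.restrict_apply
      measurableSet_Ioi]
    have : Ioi S ∩ Ioc 0 Δ = Ioc S Δ := by
      ext s
      simp only [mem_inter_iff, mem_Ioi, mem_Ioc]
      constructor
      · rintro ⟨h1, h2, h3⟩; exact ⟨h1, h3⟩
      · rintro ⟨h1, h2⟩; exact ⟨h1, by linarith, h2⟩
    rw [this, Real.volume_Ioc]
  have e2 : ∫⁻ w in Nb K Δ v, (Ioi S).indicator (fun _ => (1 : ℝ≥0∞)) (sd K v w) ∂(lam d K)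
      = lam d K {w | S < sd K v w ∧ sd K v w ≤ Δ} := by
    have e3 : ∀ w, (Ioi S).indicator (fun _ => (1 : ℝ≥0∞)) (sd K v w)
        = (sd K v ⁻¹' (Ioi S)).indicator (fun _ => 1) w := fun w => rfl
    simp_rw [e3]
    rw [lintegral_indicator_const (hmeas measurableSet_Ioi), one_mul,
      Measure.restrict_apply (hmeas measurableSet_Ioi)]
    congr 1
    ext w
    simp only [Nb, mem_inter_iff, mem_preimage, mem_Ioi, mem_ofPred_eq]
    constructor
    · rintro ⟨h1, h2, h3⟩; exact ⟨h1, h3⟩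
    · rintro ⟨h1, h2⟩; exact ⟨h1, by linarith, h2⟩
  rw [e1, e2] at h1
  exact h1

lemma lam_far_eq (hd : 1 ≤ d) {K S Δ : ℝ} (hK : 0 < K) (hS : 0 ≤ S) (hΔ : S ≤ Δ) (v : Vd d)
    (hv : Bs K Δ v ⊆ cube d) :
    lam d K {w | S < sd K v w ∧ sd K v w ≤ Δ} = ENNReal.ofReal (Δ - S) := by
  have hmeas : Measurable (sd K v) := GeoAux.measurable_sd (d := d) K v
  have hm : MeasurableSet {w : Vd d | S < sd K v w ∧ sd K v w ≤ Δ} := hmeas measurableSet_Ioc
  have h1 := radial_eq hd hK (hS.trans hΔ) v hv (f := (Ioi S).indicator fun _ => 1)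
    (measurable_const.indicator measurableSet_Ioi)
  have e1 : ∫⁻ s in Ioc 0 Δ, (Ioi S).indicator (fun _ => (1 : ℝ≥0∞)) s = ENNReal.ofReal (Δ - S) := by
    rw [lintegral_indicator_const measurableSet_Ioi, one_mul, Measure.restrict_apply
      measurableSet_Ioi]
    have : Ioi S ∩ Ioc 0 Δ = Ioc S Δ := by
      ext s
      simp only [mem_inter_iff, mem_Ioi, mem_Ioc]
      constructor
      · rintro ⟨h1, h2, h3⟩; exact ⟨h1, h3⟩
      · rintro ⟨h1, h2⟩; exact ⟨h1, by linarith, h2⟩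
    rw [this, Real.volume_Ioc]
  have e2 : ∫⁻ w in Nb K Δ v, (Ioi S).indicator (fun _ => (1 : ℝ≥0∞)) (sd K v w) ∂(lam d K)
      = lam d K {w | S < sd K v w ∧ sd K v w ≤ Δ} := by
    have e3 : ∀ w, (Ioi S).indicator (fun _ => (1 : ℝ≥0∞)) (sd K v w)
        = (sd K v ⁻¹' (Ioi S)).indicator (fun _ => 1) w := fun w => rfl
    simp_rw [e3]
    rw [lintegral_indicator_const (hmeas measurableSet_Ioi), one_mul,
      Measure.restrict_apply (hmeas measurableSet_Ioi)]
    congr 1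
    ext w
    simp only [Nb, mem_inter_iff, mem_preimage, mem_Ioi, mem_ofPred_eq]
    constructor
    · rintro ⟨h1, h2, h3⟩; exact ⟨h1, h3⟩
    · rintro ⟨h1, h2⟩; exact ⟨h1, by linarith, h2⟩
  rw [e1, e2] at h1
  exact h1

lemma rad_two (hd : 1 ≤ d) {K S Δ : ℝ} (hK : 0 < K) (hS : 0 ≤ S) (hΔ0 : 0 ≤ Δ)
    (hΔ : Δ ≤ 2 ^ d * S) : rad d K Δ ≤ 2 * rad d K S := by
  have h1 := GeoAux.rad_nonneg (d := d) hK hS
  have h2 := GeoAux.rad_nonneg (d := d) hK hΔ0
  rw [← pow_le_pow_iff_left₀ h2 (by positivity) (show d ≠ 0 by omega), mul_pow,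
    GeoAux.rad_pow hd hK hΔ0, GeoAux.rad_pow hd hK hS, ← mul_div_assoc]
  exact div_le_div_of_nonneg_right hΔ hK.le

end Bd

end RTaux

open RTaux

theorem ae_nodup {d : ℕ} (hd : 1 ≤ d) (K : ℝ) : ∀ᵐ P ∂(PP (lam d K)), P.Nodup := by
  classical
  have hm : Measurable fun p : Vd d × Multiset (Vd d) => Multiset.card (restr {p.1} p.2) :=
    measurable_mcard (measurable_restr (A := fun p : Vd d × Multiset (Vd d) => {p.1})
      (measurableSet_eq_fun measurable_snd (measurable_fst.comp measurable_fst)) measurable_snd)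
  set G : Vd d → Multiset (Vd d) → ℝ≥0∞ := fun a s =>
    if 2 ≤ Multiset.card (restr {a} s) then 1 else 0 with hGdef
  have hG : Measurable fun p : Vd d × Multiset (Vd d) => G p.1 p.2 :=
    Measurable.ite (measurableSet_le measurable_const hm) measurable_const measurable_const
  have h1 := PP_mecke (lam d K) hG
  have h2 : ∀ a, ∫⁻ s, G a (a ::ₘ s) ∂(PP (lam d K)) = 0 := by
    intro a
    rw [← lintegral_zero]
    refine lintegral_congr_ae ?_
    filter_upwards [ae_not_mem hd K a] with s hs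
    have h3 : restr {a} s = 0 := by
      rw [restr_eq_zero]
      rintro b hb rfl
      exact hs hb
    have h4 : restr {a} (a ::ₘ s) = {a} := by
      rw [restr_cons_mem s (mem_singleton a), h3]
      rfl
    simp [hGdef, h4]
  simp only [h2, lintegral_zero] at h1
  have hms : Measurable fun s : Multiset (Vd d) => (s.map (fun a => G a s)).sum :=
    measurable_msum (f := fun s a => G a s) (hG.comp measurable_swap) measurable_id
  rw [lintegral_eq_zero_iff hms] at h1
  filter_upwards [h1] with P hP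
  rw [Multiset.nodup_iff_ne_cons_cons]
  intro a t hat
  have h5 : G a P = 0 := by
    have h6 : ∀ y ∈ P.map (fun a => G a P), y = 0 := by
      have h7 : (P.map (fun a => G a P)).sum = 0 := hP
      exact Multiset.sum_eq_zero_iff.1 h7
    refine h6 _ (Multiset.mem_map_of_mem _ ?_)
    rw [hat]
    simp
  have h8 : 2 ≤ Multiset.card (restr {a} P) := by
    rw [hat, restr_cons_mem _ (mem_singleton a), restr_cons_mem _ (mem_singleton a)]
    simp
  simp [hGdef, h8] at h5

section RT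

variable {V : Type*} [MeasurableSpace V] (v0 : V) (Ψ : Multiset (ℝ × V) → V)
  (hΨ : Measurable Ψ) {d : ℕ} (hd : 1 ≤ d) {K S : ℝ} (hK : 0 < K) (hS : 1 ≤ S) (h : ℕ)

include hΨ hd hK hS

theorem one_root_le (G : Multiset (ℝ × V) → ℝ≥0∞) (hG : Measurable G) (hG1 : ∀ ξ, G ξ ≤ 1) :
    ∫⁻ P, (P.map fun v => G (nbm v0 Ψ K S h P v v)).sum ∂(PP (lam d K))
      ≤ ENNReal.ofReal (K / vball d) * (∫⁻ ξ, G ξ ∂(troot v0 Ψ S h)
        + ENNReal.ofReal (4 * eerr d S h + 2 * d * ((h + 1) * rad d K S))) := by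
  have hr := GeoAux.rad_nonneg (d := d) hK (by linarith : (0 : ℝ) ≤ S)
  have he := eerr_nonneg (d := d) hS h
  have hm : Measurable fun p : Vd d × Multiset (Vd d) => G (nbm v0 Ψ K S h p.2 p.1 p.1) :=
    hG.comp (measurable_nbm v0 hΨ K S h measurable_snd measurable_fst measurable_fst)
  rw [PP_mecke (lam d K) (G := fun v P => G (nbm v0 Ψ K S h P v v)) hm]
  have hρ : 0 ≤ ((h : ℝ) + 1) * rad d K S := by positivity
  refine (bd_int hd hK hρ (fun v hv => root1_le v0 Ψ hΨ hd hK hS h v hv G hG hG1)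
    (b := 1) (fun v => ?_)).trans (le_of_eq ?_)
  · refine (lintegral_mono (fun _ => hG1 _)).trans ?_
    simp
  · rw [ENNReal.ofReal_add (by positivity) (by positivity), one_mul, add_assoc]

theorem one_root_ge (G : Multiset (ℝ × V) → ℝ≥0∞) (hG : Measurable G) (hG1 : ∀ ξ, G ξ ≤ 1) :
    ENNReal.ofReal (K / vball d) * ∫⁻ ξ, G ξ ∂(troot v0 Ψ S h)
      ≤ ∫⁻ P, (P.map fun v => G (nbm v0 Ψ K S h P v v)).sum ∂(PP (lam d K))
        + ENNReal.ofReal (K / vball d)
          * ENNReal.ofReal (4 * eerr d S h + 2 * d * ((h + 1) * rad d K S)) := by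
  have hr := GeoAux.rad_nonneg (d := d) hK (by linarith : (0 : ℝ) ≤ S)
  have he := eerr_nonneg (d := d) hS h
  have hT := troot_prob v0 Ψ hΨ (S := S) h
  have hm : Measurable fun p : Vd d × Multiset (Vd d) => G (nbm v0 Ψ K S h p.2 p.1 p.1) :=
    hG.comp (measurable_nbm v0 hΨ K S h measurable_snd measurable_fst measurable_fst)
  rw [PP_mecke (lam d K) (G := fun v P => G (nbm v0 Ψ K S h P v v)) hm]
  have hρ : 0 ≤ ((h : ℝ) + 1) * rad d K S := by positivity
  refine (bd_int_ge hd hK hρ (fun v hv => root1_ge v0 Ψ hΨ hd hK hS h v hv G hG hG1)).trans ?_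
  have ha : ∫⁻ ξ, G ξ ∂(troot v0 Ψ S h) ≤ 1 := by
    refine (lintegral_mono (fun _ => hG1 _)).trans ?_
    simp
  gcongr
  rw [ENNReal.ofReal_add (by positivity) (by positivity)]
  gcongr
  exact mul_le_of_le_one_left zero_le ha

/-- the stronger form: the error term is outside the integral over `s` -/
theorem two_near_le' (g : ℝ → Multiset (ℝ × V) → Multiset (ℝ × V) → ℝ≥0∞)
    (hg : Measurable fun t : ℝ × Multiset (ℝ × V) × Multiset (ℝ × V) => g t.1 t.2.1 t.2.2)
    (hg1 : ∀ s ξ ξ', g s ξ ξ' ≤ 1) :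
    ∫⁻ P, (P.map fun v => ((restr (Nb K S v) P).map fun w =>
        g (sd K v w) (nbm v0 Ψ K S h P v w) (nbm v0 Ψ K S h P w v)).sum).sum ∂(PP (lam d K))
      ≤ ENNReal.ofReal (K / vball d) *
        ((∫⁻ s in Ioc 0 S, ∫⁻ ξ, ∫⁻ ξ', g s ξ ξ' ∂(troot v0 Ψ S h) ∂(troot v0 Ψ S h))
        + ENNReal.ofReal (S * (10 * eerr d S h + 2 * d * ((h + 2) * rad d K S)))) := by
  have hS0 : (0 : ℝ) ≤ S := by linarith
  have hr := GeoAux.rad_nonneg (d := d) hK hS0
  have he := eerr_nonneg (d := d) hS h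
  have hT := troot_prob v0 Ψ hΨ (S := S) h
  have hA : MeasurableSet {p : Vd d × Vd d | p.2 ∈ Nb K S p.1} :=
    measurableSet_Nb_prod measurable_fst measurable_snd
  have hm1 : Measurable fun t : Vd d × Vd d × Multiset (Vd d) =>
      nbm v0 Ψ K S h t.2.2 t.1 t.2.1 :=
    measurable_nbm v0 hΨ K S h (measurable_snd.comp measurable_snd) measurable_fst
      (measurable_fst.comp measurable_snd)
  have hm2 : Measurable fun t : Vd d × Vd d × Multiset (Vd d) =>
      nbm v0 Ψ K S h t.2.2 t.2.1 t.1 :=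
    measurable_nbm v0 hΨ K S h (measurable_snd.comp measurable_snd)
      (measurable_fst.comp measurable_snd) measurable_fst
  have hm3 : Measurable fun t : Vd d × Vd d × Multiset (Vd d) => sd K t.1 t.2.1 :=
    measurable_sd measurable_fst (measurable_fst.comp measurable_snd)
  have hm : Measurable fun t : Vd d × Vd d × Multiset (Vd d) =>
      g (sd K t.1 t.2.1) (nbm v0 Ψ K S h t.2.2 t.1 t.2.1) (nbm v0 Ψ K S h t.2.2 t.2.1 t.1) :=
    hg.comp (hm3.prodMk (hm1.prodMk hm2))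
  have key := mecke2R (lam d K) {p : Vd d × Vd d | p.2 ∈ Nb K S p.1} hA
    (fun v => not_mem_Nb_self hd K S v) (fun v w P =>
      g (sd K v w) (nbm v0 Ψ K S h P v w) (nbm v0 Ψ K S h P w v)) hm
  refine (le_of_eq key).trans ?_
  -- the limit functional
  have hF0 : Measurable fun t : (ℝ × Multiset (ℝ × V)) × Multiset (ℝ × V) =>
      g t.1.1 t.1.2 t.2 :=
    hg.comp ((measurable_fst.comp measurable_fst).prodMk
      ((measurable_snd.comp measurable_fst).prodMk measurable_snd))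
  have hF1 : Measurable fun t : ℝ × Multiset (ℝ × V) =>
      ∫⁻ ξ', g t.1 t.2 ξ' ∂(troot v0 Ψ S h) := hF0.lintegral_prod_right'
  have hF : Measurable fun s : ℝ => ∫⁻ ξ, ∫⁻ ξ', g s ξ ξ' ∂(troot v0 Ψ S h) ∂(troot v0 Ψ S h) :=
    hF1.lintegral_prod_right'
  have hρ : 0 ≤ ((h : ℝ) + 1) * rad d K S + rad d K S := by positivity
  refine (bd_int hd hK hρ (c := (∫⁻ s in Ioc 0 S, ∫⁻ ξ, ∫⁻ ξ', g s ξ ξ' ∂(troot v0 Ψ S h)
      ∂(troot v0 Ψ S h)) + ENNReal.ofReal (S * (10 * eerr d S h)))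
    (b := ENNReal.ofReal S) (fun v hv => ?_) (fun v => ?_)).trans (le_of_eq ?_)
  · have hv1 : v ∈ inner d (((h : ℝ) + 1) * rad d K S) := inner_mono (by linarith) hv
    have hFc : Measurable fun w : Vd d => ∫⁻ ξ, ∫⁻ ξ', g (sd K v w) ξ ξ' ∂(troot v0 Ψ S h)
        ∂(troot v0 Ψ S h) := hF.comp (GeoAux.measurable_sd K v)
    calc ∫⁻ w in Nb K S v, ∫⁻ η, g (sd K v w) (nbm v0 Ψ K S h (v ::ₘ w ::ₘ η) v w)
          (nbm v0 Ψ K S h (v ::ₘ w ::ₘ η) w v) ∂(PP (lam d K)) ∂(lam d K)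
        ≤ ∫⁻ w in Nb K S v, ((∫⁻ ξ, ∫⁻ ξ', g (sd K v w) ξ ξ' ∂(troot v0 Ψ S h)
            ∂(troot v0 Ψ S h)) + (ENNReal.ofReal (9 * eerr d S h)
            + {z | dist v z ≤ rad d K S / 2}.indicator (fun _ => 1) w)) ∂(lam d K) := by
          refine setLIntegral_mono' (measurableSet_Nb K S v) (fun w hw => ?_)
          by_cases hvw : dist v w ≤ rad d K S / 2
          · have hw' : w ∈ {z | dist v z ≤ rad d K S / 2} := hvw
            rw [indicator_of_mem hw']
            refine (lintegral_mono (fun _ => hg1 _ _ _)).trans ?_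
            simp only [lintegral_const, measure_univ, mul_one]
            exact (le_add_self (a := (1 : ℝ≥0∞))).trans le_add_self
          · have hw1 : w ∈ inner d (((h : ℝ) + 1) * rad d K S) := by
              refine inner_near hv ?_
              rw [← sd_le_iff hd hK hS0]
              exact hw.2
            refine (root2_near_le v0 Ψ hΨ hd hK hS h v w hv1 hw1 (not_le.1 hvw).le
              (g (sd K v w)) (hg.comp (measurable_const.prodMk
                (measurable_fst.prodMk measurable_snd))) (fun _ _ => hg1 _ _ _)).trans ?_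
            gcongr
            exact le_self_add
      _ = ∫⁻ w in Nb K S v, (∫⁻ ξ, ∫⁻ ξ', g (sd K v w) ξ ξ' ∂(troot v0 Ψ S h)
            ∂(troot v0 Ψ S h)) ∂(lam d K) + (ENNReal.ofReal (9 * eerr d S h)
            * lam d K (Nb K S v) + ∫⁻ w in Nb K S v,
              {z | dist v z ≤ rad d K S / 2}.indicator (fun _ => 1) w ∂(lam d K)) := by
          rw [lintegral_add_left hFc, lintegral_add_left measurable_const, setLIntegral_const]
      _ ≤ (∫⁻ s in Ioc 0 S, ∫⁻ ξ, ∫⁻ ξ', g s ξ ξ' ∂(troot v0 Ψ S h) ∂(troot v0 Ψ S h))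
            + (ENNReal.ofReal (9 * eerr d S h) * ENNReal.ofReal S
              + ENNReal.ofReal (S * eerr d S h)) := by
          gcongr
          · exact radial_le hd hK hS0 v hF
          · exact lam_Nb_le hd hK hS0 v
          · refine (setLIntegral_le_lintegral _ _).trans ?_
            refine (lintegral_indicator_const_le _ _).trans ?_
            rw [one_mul]
            refine (lam_half_le hd hK hS0 v).trans ?_
            exact ENNReal.ofReal_le_ofReal (mul_le_mul_of_nonneg_left (eps_le hS h) hS0)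
      _ = _ := by
          rw [← ENNReal.ofReal_mul (by positivity), ← ENNReal.ofReal_add (by positivity)
            (by positivity)]
          congr 2
          ring
  · calc ∫⁻ w in Nb K S v, ∫⁻ η, g (sd K v w) (nbm v0 Ψ K S h (v ::ₘ w ::ₘ η) v w)
          (nbm v0 Ψ K S h (v ::ₘ w ::ₘ η) w v) ∂(PP (lam d K)) ∂(lam d K)
        ≤ ∫⁻ _w in Nb K S v, 1 ∂(lam d K) := by
          refine lintegral_mono (fun w => ?_)
          refine (lintegral_mono (fun _ => hg1 _ _ _)).trans ?_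
          simp
      _ ≤ ENNReal.ofReal S := by
          rw [setLIntegral_const, one_mul]
          exact lam_Nb_le hd hK hS0 v
  · rw [← ENNReal.ofReal_mul hS0, add_assoc, ← ENNReal.ofReal_add (by positivity) (by positivity)]
    congr 3
    ring

theorem two_near_le (g : ℝ → Multiset (ℝ × V) → Multiset (ℝ × V) → ℝ≥0∞)
    (hg : Measurable fun t : ℝ × Multiset (ℝ × V) × Multiset (ℝ × V) => g t.1 t.2.1 t.2.2)
    (hg1 : ∀ s ξ ξ', g s ξ ξ' ≤ 1) :
    ∫⁻ P, (P.map fun v => ((restr (Nb K S v) P).map fun w =>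
        g (sd K v w) (nbm v0 Ψ K S h P v w) (nbm v0 Ψ K S h P w v)).sum).sum ∂(PP (lam d K))
      ≤ ENNReal.ofReal (K / vball d) *
        (∫⁻ s in Ioc 0 S, ∫⁻ ξ, ∫⁻ ξ', g s ξ ξ' ∂(troot v0 Ψ S h) ∂(troot v0 Ψ S h)
        + ENNReal.ofReal (S * (10 * eerr d S h + 2 * d * ((h + 2) * rad d K S)))) := by
  refine (two_near_le' v0 Ψ hΨ hd hK hS h g hg hg1).trans ?_
  gcongr
  rw [lintegral_add_right _ measurable_const, setLIntegral_const, Real.volume_Ioc, sub_zero]
  gcongr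
  calc ENNReal.ofReal (S * (10 * eerr d S h + 2 * d * ((h + 2) * rad d K S)))
      = ENNReal.ofReal (S * (10 * eerr d S h + 2 * d * ((h + 2) * rad d K S))) * 1 :=
        (mul_one _).symm
    _ ≤ _ := by
        gcongr
        rw [← ENNReal.ofReal_one]
        exact ENNReal.ofReal_le_ofReal hS

omit hΨ in
theorem pair_radial_le (f : ℝ → ℝ≥0∞) (hf : Measurable f) :
    ∫⁻ P, (P.map fun v => ((restr (Nb K S v) P).map fun w => f (sd K v w)).sum).sum
        ∂(PP (lam d K))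
      ≤ ENNReal.ofReal (K / vball d) * ∫⁻ s in Ioc 0 S, f s := by
  have hS0 : (0 : ℝ) ≤ S := by linarith
  have hA : MeasurableSet {p : Vd d × Vd d | p.2 ∈ Nb K S p.1} :=
    measurableSet_Nb_prod measurable_fst measurable_snd
  have hm3 : Measurable fun t : Vd d × Vd d × Multiset (Vd d) => sd K t.1 t.2.1 :=
    measurable_sd measurable_fst (measurable_fst.comp measurable_snd)
  have key := mecke2R (lam d K) {p : Vd d × Vd d | p.2 ∈ Nb K S p.1} hA
    (fun v => not_mem_Nb_self hd K S v) (fun v w _ => f (sd K v w)) (hf.comp hm3)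
  refine (le_of_eq key).trans ?_
  calc ∫⁻ v, ∫⁻ w in Nb K S v, ∫⁻ _η, f (sd K v w) ∂(PP (lam d K)) ∂(lam d K) ∂(lam d K)
      ≤ ∫⁻ _v : Vd d, (∫⁻ s in Ioc 0 S, f s) ∂(lam d K) := by
        refine lintegral_mono (fun v => ?_)
        simp only [lintegral_const, measure_univ, mul_one]
        exact radial_le hd hK hS0 v hf
    _ = _ := by rw [lintegral_const, lam_univ, mul_comm]

theorem two_far_le (Δ : ℝ) (hΔ : S ≤ Δ) (hΔ2 : Δ ≤ 2 ^ d * S) (G : Multiset (ℝ × V) → ℝ≥0∞)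
    (hG : Measurable G) (hG1 : ∀ ξ, G ξ ≤ 1) :
    ∫⁻ P, (P.map fun v => ((restr {w | S < sd K v w ∧ sd K v w ≤ Δ} P).map fun w =>
        G (nbm v0 Ψ K S h P v v) * G (nbm v0 Ψ K S h P w w)).sum).sum ∂(PP (lam d K))
      ≤ ENNReal.ofReal (K / vball d) *
        (ENNReal.ofReal (Δ - S) * (∫⁻ ξ, G ξ ∂(troot v0 Ψ S h)) ^ 2
        + ENNReal.ofReal (Δ * (9 * eerr d S h + 2 * d * ((h + 1) * rad d K S + rad d K Δ)))) := by
  have hS0 : (0 : ℝ) ≤ S := by linarith
  have hΔ0 : (0 : ℝ) ≤ Δ := by linarith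
  have hr := GeoAux.rad_nonneg (d := d) hK hS0
  have hr2 := GeoAux.rad_nonneg (d := d) hK hΔ0
  have he := eerr_nonneg (d := d) hS h
  have hT := troot_prob v0 Ψ hΨ (S := S) h
  have hm3 : Measurable fun t : Vd d × Vd d => sd K t.1 t.2 :=
    measurable_sd measurable_fst measurable_snd
  have hA : MeasurableSet {p : Vd d × Vd d | S < sd K p.1 p.2 ∧ sd K p.1 p.2 ≤ Δ} :=
    hm3 measurableSet_Ioc
  have hm1 : Measurable fun t : Vd d × Vd d × Multiset (Vd d) =>
      nbm v0 Ψ K S h t.2.2 t.1 t.1 :=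
    measurable_nbm v0 hΨ K S h (measurable_snd.comp measurable_snd) measurable_fst
      measurable_fst
  have hm2 : Measurable fun t : Vd d × Vd d × Multiset (Vd d) =>
      nbm v0 Ψ K S h t.2.2 t.2.1 t.2.1 :=
    measurable_nbm v0 hΨ K S h (measurable_snd.comp measurable_snd)
      (measurable_fst.comp measurable_snd) (measurable_fst.comp measurable_snd)
  have hm : Measurable fun t : Vd d × Vd d × Multiset (Vd d) =>
      G (nbm v0 Ψ K S h t.2.2 t.1 t.1) * G (nbm v0 Ψ K S h t.2.2 t.2.1 t.2.1) :=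
    (hG.comp hm1).mul (hG.comp hm2)
  have hself : ∀ v : Vd d, ¬ (S < sd K v v ∧ sd K v v ≤ Δ) := by
    intro v hv
    rw [sd_self hd K v] at hv
    linarith [hv.1]
  have key := mecke2R (lam d K) {p : Vd d × Vd d | S < sd K p.1 p.2 ∧ sd K p.1 p.2 ≤ Δ} hA
    (fun v => hself v) (fun v w P =>
      G (nbm v0 Ψ K S h P v v) * G (nbm v0 Ψ K S h P w w)) hm
  refine (le_of_eq key).trans ?_
  have hρ : 0 ≤ ((h : ℝ) + 1) * rad d K S + rad d K Δ := by positivity
  have hAv : ∀ v : Vd d, MeasurableSet {w : Vd d | S < sd K v w ∧ sd K v w ≤ Δ} := fun v =>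
    (GeoAux.measurable_sd K v) measurableSet_Ioc
  refine (bd_int hd hK hρ (c := ENNReal.ofReal (Δ - S) * (∫⁻ ξ, G ξ ∂(troot v0 Ψ S h)) ^ 2
      + ENNReal.ofReal (Δ * (9 * eerr d S h)))
    (b := ENNReal.ofReal Δ) (fun v hv => ?_) (fun v => ?_)).trans (le_of_eq ?_)
  · have hv1 : v ∈ inner d (((h : ℝ) + 1) * rad d K S) := inner_mono (by linarith) hv
    calc ∫⁻ w in {w | S < sd K v w ∧ sd K v w ≤ Δ}, ∫⁻ η,
          G (nbm v0 Ψ K S h (v ::ₘ w ::ₘ η) v v) * G (nbm v0 Ψ K S h (v ::ₘ w ::ₘ η) w w)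
            ∂(PP (lam d K)) ∂(lam d K)
        ≤ ∫⁻ _w in {w | S < sd K v w ∧ sd K v w ≤ Δ}, ((∫⁻ ξ, G ξ ∂(troot v0 Ψ S h)) ^ 2
            + ENNReal.ofReal (9 * eerr d S h)) ∂(lam d K) := by
          refine setLIntegral_mono' (hAv v) (fun w hw => ?_)
          have hw1 : w ∈ inner d (((h : ℝ) + 1) * rad d K S) := by
            refine inner_near hv ?_
            rw [← sd_le_iff hd hK hΔ0]
            exact hw.2
          exact root2_far_le v0 Ψ hΨ hd hK hS h v w hv1 hw1 hw.1 G hG hG1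
      _ = ((∫⁻ ξ, G ξ ∂(troot v0 Ψ S h)) ^ 2 + ENNReal.ofReal (9 * eerr d S h))
            * lam d K {w | S < sd K v w ∧ sd K v w ≤ Δ} := by rw [setLIntegral_const]
      _ ≤ ((∫⁻ ξ, G ξ ∂(troot v0 Ψ S h)) ^ 2 + ENNReal.ofReal (9 * eerr d S h))
            * ENNReal.ofReal (Δ - S) := by
          gcongr
          exact lam_far_le hd hK hS0 hΔ v
      _ ≤ _ := by
          rw [add_mul, mul_comm (ENNReal.ofReal (Δ - S))]
          gcongr
          rw [← ENNReal.ofReal_mul (by positivity)]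
          apply ENNReal.ofReal_le_ofReal
          nlinarith
  · calc ∫⁻ w in {w | S < sd K v w ∧ sd K v w ≤ Δ}, ∫⁻ η,
          G (nbm v0 Ψ K S h (v ::ₘ w ::ₘ η) v v) * G (nbm v0 Ψ K S h (v ::ₘ w ::ₘ η) w w)
            ∂(PP (lam d K)) ∂(lam d K)
        ≤ ∫⁻ _w in {w | S < sd K v w ∧ sd K v w ≤ Δ}, 1 ∂(lam d K) := by
          refine lintegral_mono (fun w => ?_)
          refine (lintegral_mono (fun _ => mul_le_one' (hG1 _) (hG1 _))).trans ?_
          simp
      _ ≤ ENNReal.ofReal Δ := by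
          rw [setLIntegral_const, one_mul]
          exact (measure_mono (far_sub S Δ K v)).trans (lam_Bs_le hd hK hΔ0 v)
  · rw [← ENNReal.ofReal_mul hΔ0, add_assoc, ← ENNReal.ofReal_add (by positivity) (by positivity)]
    congr 3
    ring

theorem two_far_ge (Δ : ℝ) (hΔ : S ≤ Δ) (hΔ2 : Δ ≤ 2 ^ d * S) (G : Multiset (ℝ × V) → ℝ≥0∞)
    (hG : Measurable G) (hG1 : ∀ ξ, G ξ ≤ 1) :
    ENNReal.ofReal (K / vball d) *
        (ENNReal.ofReal (Δ - S) * (∫⁻ ξ, G ξ ∂(troot v0 Ψ S h)) ^ 2)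
      ≤ ∫⁻ P, (P.map fun v => ((restr {w | S < sd K v w ∧ sd K v w ≤ Δ} P).map fun w =>
        G (nbm v0 Ψ K S h P v v) * G (nbm v0 Ψ K S h P w w)).sum).sum ∂(PP (lam d K))
        + ENNReal.ofReal (K / vball d) *
          ENNReal.ofReal (Δ * (9 * eerr d S h + 2 * d * ((h + 1) * rad d K S + rad d K Δ))) := by
  have hS0 : (0 : ℝ) ≤ S := by linarith
  have hΔ0 : (0 : ℝ) ≤ Δ := by linarith
  have hr := GeoAux.rad_nonneg (d := d) hK hS0
  have hr2 := GeoAux.rad_nonneg (d := d) hK hΔ0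
  have he := eerr_nonneg (d := d) hS h
  have hT := troot_prob v0 Ψ hΨ (S := S) h
  have hm3 : Measurable fun t : Vd d × Vd d => sd K t.1 t.2 :=
    measurable_sd measurable_fst measurable_snd
  have hA : MeasurableSet {p : Vd d × Vd d | S < sd K p.1 p.2 ∧ sd K p.1 p.2 ≤ Δ} :=
    hm3 measurableSet_Ioc
  have hm1 : Measurable fun t : Vd d × Vd d × Multiset (Vd d) =>
      nbm v0 Ψ K S h t.2.2 t.1 t.1 :=
    measurable_nbm v0 hΨ K S h (measurable_snd.comp measurable_snd) measurable_fst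
      measurable_fst
  have hm2 : Measurable fun t : Vd d × Vd d × Multiset (Vd d) =>
      nbm v0 Ψ K S h t.2.2 t.2.1 t.2.1 :=
    measurable_nbm v0 hΨ K S h (measurable_snd.comp measurable_snd)
      (measurable_fst.comp measurable_snd) (measurable_fst.comp measurable_snd)
  have hm : Measurable fun t : Vd d × Vd d × Multiset (Vd d) =>
      G (nbm v0 Ψ K S h t.2.2 t.1 t.1) * G (nbm v0 Ψ K S h t.2.2 t.2.1 t.2.1) :=
    (hG.comp hm1).mul (hG.comp hm2)
  have hself : ∀ v : Vd d, ¬ (S < sd K v v ∧ sd K v v ≤ Δ) := by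
    intro v hv
    rw [sd_self hd K v] at hv
    linarith [hv.1]
  have key := mecke2R (lam d K) {p : Vd d × Vd d | S < sd K p.1 p.2 ∧ sd K p.1 p.2 ≤ Δ} hA
    (fun v => hself v) (fun v w P =>
      G (nbm v0 Ψ K S h P v v) * G (nbm v0 Ψ K S h P w w)) hm
  have hρ : 0 ≤ ((h : ℝ) + 1) * rad d K S + rad d K Δ := by positivity
  have hAv : ∀ v : Vd d, MeasurableSet {w : Vd d | S < sd K v w ∧ sd K v w ≤ Δ} := fun v =>
    (GeoAux.measurable_sd K v) measurableSet_Ioc
  have ha : ∫⁻ ξ, G ξ ∂(troot v0 Ψ S h) ≤ 1 := by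
    refine (lintegral_mono (fun _ => hG1 _)).trans ?_
    simp
  set a := ∫⁻ ξ, G ξ ∂(troot v0 Ψ S h) with hadef
  have hJ : ∀ v ∈ inner d (((h : ℝ) + 1) * rad d K S + rad d K Δ),
      ENNReal.ofReal (Δ - S) * a ^ 2 ≤
        ∫⁻ w in {w | S < sd K v w ∧ sd K v w ≤ Δ}, ∫⁻ η,
          G (nbm v0 Ψ K S h (v ::ₘ w ::ₘ η) v v) * G (nbm v0 Ψ K S h (v ::ₘ w ::ₘ η) w w)
            ∂(PP (lam d K)) ∂(lam d K) + ENNReal.ofReal (Δ * (9 * eerr d S h)) := by
    intro v hv
    have hv1 : v ∈ inner d (((h : ℝ) + 1) * rad d K S) := inner_mono (by linarith) hv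
    have hv2 : v ∈ inner d (rad d K Δ) :=
      inner_mono (by nlinarith [mul_nonneg (by positivity : (0 : ℝ) ≤ (h : ℝ) + 1) hr]) hv
    have hv3 : Bs K Δ v ⊆ cube d := by
      rw [GeoAux.Bs_eq hd hK hΔ0]
      exact hv2
    have hfar := lam_far_eq hd hK hS0 hΔ v hv3
    calc ENNReal.ofReal (Δ - S) * a ^ 2
        = ∫⁻ _w in {w | S < sd K v w ∧ sd K v w ≤ Δ}, a ^ 2 ∂(lam d K) := by
          rw [setLIntegral_const, hfar, mul_comm]
      _ ≤ ∫⁻ w in {w | S < sd K v w ∧ sd K v w ≤ Δ}, ((∫⁻ η,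
          G (nbm v0 Ψ K S h (v ::ₘ w ::ₘ η) v v) * G (nbm v0 Ψ K S h (v ::ₘ w ::ₘ η) w w)
            ∂(PP (lam d K))) + ENNReal.ofReal (9 * eerr d S h)) ∂(lam d K) := by
          refine setLIntegral_mono' (hAv v) (fun w hw => ?_)
          have hw1 : w ∈ inner d (((h : ℝ) + 1) * rad d K S) := by
            refine inner_near hv ?_
            rw [← sd_le_iff hd hK hΔ0]
            exact hw.2
          exact root2_far_ge v0 Ψ hΨ hd hK hS h v w hv1 hw1 hw.1 G hG hG1
      _ = _ := lintegral_add_right _ measurable_const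
      _ ≤ _ := by
          rw [setLIntegral_const, hfar]
          gcongr
          rw [← ENNReal.ofReal_mul (by positivity)]
          apply ENNReal.ofReal_le_ofReal
          nlinarith
  refine (bd_int_ge hd hK hρ hJ).trans ?_
  refine add_le_add (le_of_eq key.symm) ?_
  gcongr
  have h1 : Δ * (9 * eerr d S h + 2 * d * ((h + 1) * rad d K S + rad d K Δ))
      = Δ * (9 * eerr d S h) + Δ * (2 * d * ((h + 1) * rad d K S + rad d K Δ)) := by ring
  rw [h1, ENNReal.ofReal_add (by positivity) (by positivity)]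
  gcongr
  rw [ENNReal.ofReal_mul hΔ0]
  gcongr
  calc ENNReal.ofReal (Δ - S) * a ^ 2 ≤ ENNReal.ofReal Δ * 1 := by
        gcongr
        · linarith
        · exact pow_le_one₀ zero_le ha
    _ = _ := mul_one _

theorem three_far_le (Δ : ℝ) (hΔ : S ≤ Δ) (hΔ2 : Δ ≤ 2 ^ d * S) (G : Multiset (ℝ × V) → ℝ≥0∞)
    (hG : Measurable G) (hG1 : ∀ ξ, G ξ ≤ 1) :
    ∫⁻ P, (P.map fun v => ((restr {w | S < sd K v w ∧ sd K v w ≤ Δ} P).map fun w =>
        ((restr {z | (S < sd K v z ∧ sd K v z ≤ Δ) ∧ z ≠ w} P).map fun z =>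
        G (nbm v0 Ψ K S h P v v) * G (nbm v0 Ψ K S h P w w)
          * G (nbm v0 Ψ K S h P z z)).sum).sum).sum ∂(PP (lam d K))
      ≤ ENNReal.ofReal (K / vball d) *
        (ENNReal.ofReal ((Δ - S) ^ 2) * (∫⁻ ξ, G ξ ∂(troot v0 Ψ S h)) ^ 3
        + ENNReal.ofReal (Δ ^ 2 * (17 * eerr d S h
          + 2 * d * ((h + 1) * rad d K S + rad d K Δ)))) := by
  have hS0 : (0 : ℝ) ≤ S := by linarith
  have hΔ0 : (0 : ℝ) ≤ Δ := by linarith
  have hr := GeoAux.rad_nonneg (d := d) hK hS0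
  have hr2 := GeoAux.rad_nonneg (d := d) hK hΔ0
  have he := eerr_nonneg (d := d) hS h
  have hT := troot_prob v0 Ψ hΨ (S := S) h
  have hm3 : Measurable fun t : Vd d × Vd d => sd K t.1 t.2 :=
    measurable_sd measurable_fst measurable_snd
  have hA : MeasurableSet {p : Vd d × Vd d | S < sd K p.1 p.2 ∧ sd K p.1 p.2 ≤ Δ} :=
    hm3 measurableSet_Ioc
  have hm4 : Measurable fun t : Vd d × Vd d × Vd d => sd K t.1 t.2.2 :=
    measurable_sd measurable_fst (measurable_snd.comp measurable_snd)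
  have hB : MeasurableSet {p : Vd d × Vd d × Vd d |
      (S < sd K p.1 p.2.2 ∧ sd K p.1 p.2.2 ≤ Δ) ∧ p.2.2 ≠ p.2.1} :=
    (hm4 measurableSet_Ioc).inter (measurableSet_eq_fun (measurable_snd.comp measurable_snd)
      (measurable_fst.comp measurable_snd)).compl
  have hm1 : Measurable fun t : Vd d × Vd d × Vd d × Multiset (Vd d) =>
      nbm v0 Ψ K S h t.2.2.2 t.1 t.1 :=
    measurable_nbm v0 hΨ K S h (measurable_snd.comp (measurable_snd.comp measurable_snd))
      measurable_fst measurable_fst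
  have hm2 : Measurable fun t : Vd d × Vd d × Vd d × Multiset (Vd d) =>
      nbm v0 Ψ K S h t.2.2.2 t.2.1 t.2.1 :=
    measurable_nbm v0 hΨ K S h (measurable_snd.comp (measurable_snd.comp measurable_snd))
      (measurable_fst.comp measurable_snd) (measurable_fst.comp measurable_snd)
  have hm5 : Measurable fun t : Vd d × Vd d × Vd d × Multiset (Vd d) =>
      nbm v0 Ψ K S h t.2.2.2 t.2.2.1 t.2.2.1 :=
    measurable_nbm v0 hΨ K S h (measurable_snd.comp (measurable_snd.comp measurable_snd))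
      (measurable_fst.comp (measurable_snd.comp measurable_snd))
      (measurable_fst.comp (measurable_snd.comp measurable_snd))
  have hm : Measurable fun t : Vd d × Vd d × Vd d × Multiset (Vd d) =>
      G (nbm v0 Ψ K S h t.2.2.2 t.1 t.1) * G (nbm v0 Ψ K S h t.2.2.2 t.2.1 t.2.1)
        * G (nbm v0 Ψ K S h t.2.2.2 t.2.2.1 t.2.2.1) :=
    ((hG.comp hm1).mul (hG.comp hm2)).mul (hG.comp hm5)
  have hself : ∀ v : Vd d, ¬ (S < sd K v v ∧ sd K v v ≤ Δ) := by
    intro v hv
    rw [sd_self hd K v] at hv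
    linarith [hv.1]
  have key := mecke3R (lam d K) {p : Vd d × Vd d | S < sd K p.1 p.2 ∧ sd K p.1 p.2 ≤ Δ} hA
    (fun v => hself v) {p : Vd d × Vd d × Vd d |
      (S < sd K p.1 p.2.2 ∧ sd K p.1 p.2.2 ≤ Δ) ∧ p.2.2 ≠ p.2.1} hB
    (fun v w hh => hself v hh.1) (fun v w hh => hh.2 rfl) (fun v w z P =>
      G (nbm v0 Ψ K S h P v v) * G (nbm v0 Ψ K S h P w w) * G (nbm v0 Ψ K S h P z z)) hm
  refine (le_of_eq key).trans ?_
  have hρ : 0 ≤ ((h : ℝ) + 1) * rad d K S + rad d K Δ := by positivity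
  have hAv : ∀ v : Vd d, MeasurableSet {w : Vd d | S < sd K v w ∧ sd K v w ≤ Δ} := fun v =>
    (GeoAux.measurable_sd K v) measurableSet_Ioc
  have ha : ∫⁻ ξ, G ξ ∂(troot v0 Ψ S h) ≤ 1 := by
    refine (lintegral_mono (fun _ => hG1 _)).trans ?_
    simp
  set a := ∫⁻ ξ, G ξ ∂(troot v0 Ψ S h) with hadef
  have hsub : ∀ v w : Vd d, {z : Vd d | (S < sd K v z ∧ sd K v z ≤ Δ) ∧ z ≠ w}
      ⊆ {z | S < sd K v z ∧ sd K v z ≤ Δ} := fun v w z hz => hz.1
  refine (bd_int hd hK hρ (c := ENNReal.ofReal ((Δ - S) ^ 2) * a ^ 3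
      + ENNReal.ofReal (Δ ^ 2 * (17 * eerr d S h)))
    (b := ENNReal.ofReal (Δ ^ 2)) (fun v hv => ?_) (fun v => ?_)).trans (le_of_eq ?_)
  · have hv1 : v ∈ inner d (((h : ℝ) + 1) * rad d K S) := inner_mono (by linarith) hv
    have hw0 : ∀ w : Vd d, sd K v w ≤ Δ → w ∈ inner d (((h : ℝ) + 1) * rad d K S) := by
      intro w hw
      refine inner_near hv ?_
      rw [← sd_le_iff hd hK hΔ0]
      exact hw
    calc ∫⁻ w in {w | S < sd K v w ∧ sd K v w ≤ Δ},
          ∫⁻ z in {z | (S < sd K v z ∧ sd K v z ≤ Δ) ∧ z ≠ w}, ∫⁻ η,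
          G (nbm v0 Ψ K S h (v ::ₘ w ::ₘ z ::ₘ η) v v)
          * G (nbm v0 Ψ K S h (v ::ₘ w ::ₘ z ::ₘ η) w w)
          * G (nbm v0 Ψ K S h (v ::ₘ w ::ₘ z ::ₘ η) z z)
            ∂(PP (lam d K)) ∂(lam d K) ∂(lam d K)
        ≤ ∫⁻ _w in {w | S < sd K v w ∧ sd K v w ≤ Δ},
            ((a ^ 3 + ENNReal.ofReal (16 * eerr d S h)) * ENNReal.ofReal (Δ - S)
            + ENNReal.ofReal (Δ * eerr d S h)) ∂(lam d K) := by
          refine setLIntegral_mono' (hAv v) (fun w hw => ?_)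
          calc ∫⁻ z in {z | (S < sd K v z ∧ sd K v z ≤ Δ) ∧ z ≠ w}, ∫⁻ η,
              G (nbm v0 Ψ K S h (v ::ₘ w ::ₘ z ::ₘ η) v v)
              * G (nbm v0 Ψ K S h (v ::ₘ w ::ₘ z ::ₘ η) w w)
              * G (nbm v0 Ψ K S h (v ::ₘ w ::ₘ z ::ₘ η) z z)
                ∂(PP (lam d K)) ∂(lam d K)
              ≤ ∫⁻ z in {z | S < sd K v z ∧ sd K v z ≤ Δ}, ∫⁻ η,
              G (nbm v0 Ψ K S h (v ::ₘ w ::ₘ z ::ₘ η) v v)
              * G (nbm v0 Ψ K S h (v ::ₘ w ::ₘ z ::ₘ η) w w)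
              * G (nbm v0 Ψ K S h (v ::ₘ w ::ₘ z ::ₘ η) z z)
                ∂(PP (lam d K)) ∂(lam d K) := lintegral_mono_set (hsub v w)
            _ ≤ ∫⁻ z in {z | S < sd K v z ∧ sd K v z ≤ Δ},
                ((a ^ 3 + ENNReal.ofReal (16 * eerr d S h))
                  + (Bs K Δ w ∩ Bs K Δ v).indicator (fun _ => 1) z) ∂(lam d K) := by
                refine setLIntegral_mono' (hAv v) (fun z hz => ?_)
                by_cases hwz : S < sd K w z
                · exact (root3_far_le v0 Ψ hΨ hd hK hS h v w z hv1 (hw0 w hw.2) (hw0 z hz.2)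
                    hw.1 hz.1 hwz G hG hG1).trans le_self_add
                · have hz' : z ∈ Bs K Δ w ∩ Bs K Δ v := ⟨(not_lt.1 hwz).trans hΔ, hz.2⟩
                  rw [indicator_of_mem hz']
                  refine (lintegral_mono (fun _ => mul_le_one'
                    (mul_le_one' (hG1 _) (hG1 _)) (hG1 _))).trans ?_
                  simp only [lintegral_const, measure_univ, mul_one]
                  exact le_add_self
            _ = (a ^ 3 + ENNReal.ofReal (16 * eerr d S h))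
                  * lam d K {z | S < sd K v z ∧ sd K v z ≤ Δ}
                + ∫⁻ z in {z | S < sd K v z ∧ sd K v z ≤ Δ},
                  (Bs K Δ w ∩ Bs K Δ v).indicator (fun _ => 1) z ∂(lam d K) := by
                rw [lintegral_add_left measurable_const, setLIntegral_const]
            _ ≤ _ := by
                gcongr
                · exact lam_far_le hd hK hS0 hΔ v
                · refine (setLIntegral_le_lintegral _ _).trans ?_
                  refine (lintegral_indicator_const_le _ _).trans ?_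
                  rw [one_mul]
                  refine (lam_inter_le hd hK hΔ0 w v ?_).trans ?_
                  · have h1 := rad_two hd hK hS0 hΔ0 hΔ2
                    have h2 : rad d K S < dist v w := by
                      by_contra hc
                      rw [not_lt, ← sd_le_iff hd hK hS0] at hc
                      linarith [hw.1]
                    rw [dist_comm]
                    linarith
                  · exact ENNReal.ofReal_le_ofReal (mul_le_mul_of_nonneg_left (eps_le hS h) hΔ0)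
      _ = ((a ^ 3 + ENNReal.ofReal (16 * eerr d S h)) * ENNReal.ofReal (Δ - S)
            + ENNReal.ofReal (Δ * eerr d S h))
            * lam d K {w | S < sd K v w ∧ sd K v w ≤ Δ} := by rw [setLIntegral_const]
      _ ≤ ((a ^ 3 + ENNReal.ofReal (16 * eerr d S h)) * ENNReal.ofReal (Δ - S)
            + ENNReal.ofReal (Δ * eerr d S h)) * ENNReal.ofReal (Δ - S) := by
          gcongr
          exact lam_far_le hd hK hS0 hΔ v
      _ = ENNReal.ofReal (Δ - S) * ENNReal.ofReal (Δ - S) * a ^ 3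
            + (ENNReal.ofReal (16 * eerr d S h) * ENNReal.ofReal (Δ - S) * ENNReal.ofReal (Δ - S)
            + ENNReal.ofReal (Δ * eerr d S h) * ENNReal.ofReal (Δ - S)) := by ring
      _ ≤ _ := by
          have hΔS : 0 ≤ Δ - S := by linarith
          rw [← ENNReal.ofReal_mul hΔS, ← ENNReal.ofReal_mul (by positivity),
            ← ENNReal.ofReal_mul (by positivity), ← ENNReal.ofReal_mul (by positivity),
            ← ENNReal.ofReal_add (by positivity) (by positivity)]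
          have e1 : (Δ - S) * (Δ - S) = (Δ - S) ^ 2 := by ring
          rw [e1]
          gcongr
          have h1 : (Δ - S) * (Δ - S) ≤ Δ * Δ := by nlinarith
          have h2 : Δ * (Δ - S) ≤ Δ * Δ := by nlinarith
          calc 16 * eerr d S h * (Δ - S) * (Δ - S) + Δ * eerr d S h * (Δ - S)
              = 16 * eerr d S h * ((Δ - S) * (Δ - S)) + eerr d S h * (Δ * (Δ - S)) := by ring
            _ ≤ 16 * eerr d S h * (Δ * Δ) + eerr d S h * (Δ * Δ) := by gcongr
            _ = _ := by ring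
  · calc ∫⁻ w in {w | S < sd K v w ∧ sd K v w ≤ Δ},
          ∫⁻ z in {z | (S < sd K v z ∧ sd K v z ≤ Δ) ∧ z ≠ w}, ∫⁻ η,
          G (nbm v0 Ψ K S h (v ::ₘ w ::ₘ z ::ₘ η) v v)
          * G (nbm v0 Ψ K S h (v ::ₘ w ::ₘ z ::ₘ η) w w)
          * G (nbm v0 Ψ K S h (v ::ₘ w ::ₘ z ::ₘ η) z z)
            ∂(PP (lam d K)) ∂(lam d K) ∂(lam d K)
        ≤ ∫⁻ _w in {w | S < sd K v w ∧ sd K v w ≤ Δ}, ENNReal.ofReal Δ ∂(lam d K) := by
          refine lintegral_mono (fun w => ?_)
          calc ∫⁻ z in {z | (S < sd K v z ∧ sd K v z ≤ Δ) ∧ z ≠ w}, ∫⁻ η,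
              G (nbm v0 Ψ K S h (v ::ₘ w ::ₘ z ::ₘ η) v v)
              * G (nbm v0 Ψ K S h (v ::ₘ w ::ₘ z ::ₘ η) w w)
              * G (nbm v0 Ψ K S h (v ::ₘ w ::ₘ z ::ₘ η) z z)
                ∂(PP (lam d K)) ∂(lam d K)
              ≤ ∫⁻ _z in {z | (S < sd K v z ∧ sd K v z ≤ Δ) ∧ z ≠ w}, 1 ∂(lam d K) := by
                refine lintegral_mono (fun z => ?_)
                refine (lintegral_mono (fun _ => mul_le_one'
                    (mul_le_one' (hG1 _) (hG1 _)) (hG1 _))).trans ?_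
                simp
            _ ≤ ENNReal.ofReal Δ := by
                rw [setLIntegral_const, one_mul]
                exact (measure_mono ((hsub v w).trans (far_sub S Δ K v))).trans
                  (lam_Bs_le hd hK hΔ0 v)
      _ ≤ ENNReal.ofReal (Δ ^ 2) := by
          rw [setLIntegral_const, pow_two, ENNReal.ofReal_mul hΔ0]
          gcongr
          exact (measure_mono (far_sub S Δ K v)).trans (lam_Bs_le hd hK hΔ0 v)
  · rw [← ENNReal.ofReal_mul (by positivity), add_assoc,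
      ← ENNReal.ofReal_add (by positivity) (by positivity)]
    congr 3
    ring

end RT

end Pool.Agent.TSPd97
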