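import Pool.Agent.TSPd97.Defs

/-!
Work package T2 for MP_076557_pr: a path cover of points of the cube can be turned into a tour.
-/

set_option autoImplicit false

open MeasureTheory ProbabilityTheory Filter Topology

namespace Pool.Agent.TSPd97

namespace Patch

variable {A : Type*}

theorem chainSum_append (w : A → A → ℝ) (l₁ l₂ : List A) (h₁ : l₁ ≠ []) (h₂ : l₂ ≠ []) :
    chainSum w (l₁ ++ l₂)
      = chainSum w l₁ + w (l₁.getLast h₁) (l₂.head h₂) + chainSum w l₂ := by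
  induction l₁ with
  | nil => exact absurd rfl h₁
  | cons a l ih =>
    cases l with
    | nil =>
      cases l₂ with
      | nil => exact absurd rfl h₂
      | cons b t => simp [chainSum]
    | cons c t =>
      have := ih (by simp)
      simp only [List.cons_append, chainSum] at this ⊢
      rw [this]
      simp [add_assoc]

theorem chainSum_reverse (w : A → A → ℝ) (hw : ∀ a b, w a b = w b a) (l : List A) :
    chainSum w l.reverse = chainSum w l := by
  induction l with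
  | nil => rfl
  | cons a l ih =>
    cases l with
    | nil => rfl
    | cons b t =>
      rw [List.reverse_cons, chainSum_append w _ [a] (by simp) (by simp), ih]
      simp [chainSum, hw a b, add_comm]

theorem chainSum_ofFn (w : A → A → ℝ) : ∀ (m : ℕ) (g : Fin (m + 1) → A),
    chainSum w (List.ofFn g) = ∑ i : Fin m, w (g i.castSucc) (g i.succ) := by
  intro m
  induction m with
  | zero => intro g; simp [chainSum]
  | succ m ih =>
    intro g
    have := ih (fun i => g i.succ)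
    rw [List.ofFn_succ]
    rw [List.ofFn_succ] at this ⊢
    simp only [chainSum]
    rw [this, Fin.sum_univ_succ]
    simp

theorem tsp_le_single {X : Type*} [PseudoMetricSpace X] {n : ℕ} (x : Fin n → X) (p : List (Fin n))
    (hp : p.Perm (List.finRange n)) (hne : p ≠ []) :
    tsp x ≤ plen x p + dist (x (p.getLast hne)) (x (p.head hne)) := by
  have hlen : p.length = n := by simpa using hp.length_eq
  have hnd : p.Nodup := hp.nodup_iff.mpr (List.nodup_finRange n)
  obtain ⟨m, rfl⟩ : ∃ m, n = m + 1 := by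
    cases n with
    | zero => exact absurd (List.length_eq_zero_iff.mp hlen) hne
    | succ m => exact ⟨m, rfl⟩
  set g : Fin (m + 1) → Fin (m + 1) := fun i => p.get (i.cast hlen.symm) with hg
  have hpg : p = List.ofFn g := by
    apply List.ext_get
    · simp [hlen]
    · intro i h1 h2
      rw [List.get_ofFn]
      rfl
  have hinj : Function.Injective g := by
    intro i j hij
    have := (List.nodup_iff_injective_get.mp hnd) hij
    exact Fin.ext (by simpa using congrArg Fin.val this)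
  have hbij : Function.Bijective g := Finite.injective_iff_bijective.mp hinj
  have key : tsp x ≤ ∑ i : Fin (m + 1), dist (x (g i)) (x (g (finRotate (m + 1) i))) := by
    unfold tsp
    have hb : BddBelow (Set.range fun σ : Equiv.Perm (Fin (m + 1)) =>
        ∑ i : Fin (m + 1), dist (x (σ i)) (x (σ (finRotate (m + 1) i)))) :=
      (Set.finite_range _).bddBelow
    exact (ciInf_le hb (Equiv.ofBijective g hbij)).trans (le_of_eq rfl)
  refine key.trans (le_of_eq ?_)
  have hl : p.getLast hne = g (Fin.last m) := by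
    simp only [hpg, List.getLast_ofFn]
    rfl
  have hh : p.head hne = g 0 := by
    simp only [hpg, List.head_ofFn]
    rfl
  rw [hl, hh, Fin.sum_univ_castSucc]
  congr 1
  · unfold plen
    rw [hpg, chainSum_ofFn]
    apply Finset.sum_congr rfl
    intro i _
    rw [finRotate_apply, Fin.coeSucc_eq_succ]
  · rw [finRotate_last]

/-- the index of the cell of a coordinate -/
theorem cell_bounds {m : ℕ} (hm : 1 ≤ m) {t : ℝ} (ht : t ∈ Set.Icc (0 : ℝ) 1) :
    ((min ⌊(m : ℝ) * t⌋₊ (m - 1) : ℕ) : ℝ) ≤ m * t ∧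
      (m : ℝ) * t ≤ ((min ⌊(m : ℝ) * t⌋₊ (m - 1) : ℕ) : ℝ) + 1 := by
  have hmt : 0 ≤ (m : ℝ) * t := mul_nonneg (Nat.cast_nonneg _) ht.1
  constructor
  · calc ((min ⌊(m : ℝ) * t⌋₊ (m - 1) : ℕ) : ℝ) ≤ (⌊(m : ℝ) * t⌋₊ : ℝ) := by
          exact_mod_cast min_le_left _ _
      _ ≤ m * t := Nat.floor_le hmt
  · rcases le_total ⌊(m : ℝ) * t⌋₊ (m - 1) with h | h
    · rw [min_eq_left h]
      exact (Nat.lt_floor_add_one _).le
    · rw [min_eq_right h]
      have : ((m - 1 : ℕ) : ℝ) + 1 = m := by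
        rw [Nat.cast_sub hm]; simp
      rw [this]
      nlinarith [ht.2, (Nat.cast_nonneg m : (0 : ℝ) ≤ m)]

theorem exists_close {d : ℕ} (hd : 1 ≤ d) {K : ℕ} (hK : 2 ≤ K)
    (y : Fin K → EuclideanSpace ℝ (Fin d)) (hy : ∀ i, y i ∈ cube d) :
    ∃ i j, i ≠ j ∧ dist (y i) (y j) ≤ 2 * Real.sqrt d * (K : ℝ) ^ (-(1 / (d : ℝ))) := by
  have hd0 : (0 : ℝ) < d := by exact_mod_cast hd
  have hK0 : (0 : ℝ) < K := by exact_mod_cast (by omega : 0 < K)
  set r : ℝ := (K : ℝ) ^ (1 / (d : ℝ)) with hr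
  have hr1 : 1 < r := Real.one_lt_rpow (by exact_mod_cast (by omega : 1 < K)) (by positivity)
  have hrd : r ^ d = K := by
    rw [hr, ← Real.rpow_natCast, ← Real.rpow_mul hK0.le]
    field_simp
    exact Real.rpow_one _
  have hceil : 2 ≤ ⌈r⌉₊ := by
    have : 1 < ⌈r⌉₊ := Nat.lt_ceil.mpr (by exact_mod_cast hr1)
    omega
  set m : ℕ := ⌈r⌉₊ - 1 with hm
  have hm1 : 1 ≤ m := by omega
  have hmr : (m : ℝ) < r := by
    have : (⌈r⌉₊ : ℝ) < r + 1 := Nat.ceil_lt_add_one (by linarith)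
    have h2 : ((⌈r⌉₊ - 1 : ℕ) : ℝ) = (⌈r⌉₊ : ℝ) - 1 := by
      rw [Nat.cast_sub (by omega)]; simp
    rw [hm, h2]; linarith
  have hrm : r / 2 ≤ m := by
    have h1 : r ≤ ⌈r⌉₊ := Nat.le_ceil r
    have h2 : ((⌈r⌉₊ - 1 : ℕ) : ℝ) = (⌈r⌉₊ : ℝ) - 1 := by
      rw [Nat.cast_sub (by omega)]; simp
    have h3 : (1 : ℝ) ≤ m := by exact_mod_cast hm1
    have h4 : r - 1 ≤ m := by rw [hm, h2]; linarith
    linarith
  have hm0 : (0 : ℝ) < m := by exact_mod_cast hm1
  have hcard : m ^ d < K := by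
    have : (m : ℝ) ^ d < r ^ d := pow_lt_pow_left₀ hmr hm0.le (by omega)
    rw [hrd] at this
    exact_mod_cast this
  let c : Fin K → (Fin d → Fin m) := fun i j =>
    ⟨min ⌊(m : ℝ) * (y i) j⌋₊ (m - 1), by
      have := min_le_right ⌊(m : ℝ) * (y i) j⌋₊ (m - 1)
      omega⟩
  obtain ⟨i, j, hij, hc⟩ := Fintype.exists_ne_map_eq_of_card_lt c (by simpa using hcard)
  refine ⟨i, j, hij, ?_⟩
  have hcoord : ∀ t : Fin d, dist ((y i) t) ((y j) t) ≤ 1 / m := by
    intro t
    have h1 := cell_bounds hm1 (hy i t)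
    have h2 := cell_bounds hm1 (hy j t)
    have h3 : min ⌊(m : ℝ) * (y i) t⌋₊ (m - 1) = min ⌊(m : ℝ) * (y j) t⌋₊ (m - 1) := by
      have := congrFun hc t
      exact congrArg Fin.val this
    rw [h3] at h1
    rw [Real.dist_eq, le_div_iff₀ hm0, ← abs_of_pos hm0, ← abs_mul, abs_le]
    constructor <;> linarith [h1.1, h1.2, h2.1, h2.2]
  have hdist : dist (y i) (y j) ≤ Real.sqrt d / m := by
    rw [EuclideanSpace.dist_eq]
    have : ∑ t : Fin d, dist ((y i) t) ((y j) t) ^ 2 ≤ (d : ℝ) * (1 / m) ^ 2 := by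
      calc ∑ t : Fin d, dist ((y i) t) ((y j) t) ^ 2 ≤ ∑ _t : Fin d, (1 / (m : ℝ)) ^ 2 :=
            Finset.sum_le_sum fun t _ => pow_le_pow_left₀ dist_nonneg (hcoord t) 2
        _ = (d : ℝ) * (1 / m) ^ 2 := by simp
    calc Real.sqrt (∑ t : Fin d, dist ((y i) t) ((y j) t) ^ 2)
        ≤ Real.sqrt ((d : ℝ) * (1 / m) ^ 2) := Real.sqrt_le_sqrt this
      _ = Real.sqrt d / m := by
          rw [Real.sqrt_mul hd0.le, Real.sqrt_sq (by positivity)]
          ring
  refine hdist.trans ?_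
  have hr' : (K : ℝ) ^ (-(1 / (d : ℝ))) = r⁻¹ := by rw [hr, Real.rpow_neg hK0.le]
  rw [hr']
  have hsq : 0 ≤ Real.sqrt d := Real.sqrt_nonneg _
  calc Real.sqrt d / m ≤ Real.sqrt d / (r / 2) := by
        apply div_le_div_of_nonneg_left hsq (by linarith) hrm
    _ = 2 * Real.sqrt d * r⁻¹ := by field_simp

theorem dist_cube_le {d : ℕ} {a b : EuclideanSpace ℝ (Fin d)} (ha : a ∈ cube d) (hb : b ∈ cube d) :
    dist a b ≤ Real.sqrt d := by
  rw [EuclideanSpace.dist_eq]
  apply Real.sqrt_le_sqrt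
  calc ∑ t : Fin d, dist (a t) (b t) ^ 2 ≤ ∑ _t : Fin d, (1 : ℝ) ^ 2 :=
        Finset.sum_le_sum fun t _ => pow_le_pow_left₀ dist_nonneg (by
          rw [Real.dist_eq, abs_le]
          have h1 := ha t
          have h2 := hb t
          constructor <;> linarith [h1.1, h1.2, h2.1, h2.2]) 2
    _ = d := by simp

theorem step_cost {d : ℕ} (hd : 2 ≤ d) {K : ℕ} (hK : 1 ≤ K) :
    4 * (K : ℝ) ^ (((d : ℝ) - 1) / d) + 2 * ((K : ℝ) + 1) ^ (-(1 / (d : ℝ)))
      ≤ 4 * ((K : ℝ) + 1) ^ (((d : ℝ) - 1) / d) := by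
  have hd0 : (0 : ℝ) < d := by exact_mod_cast (by omega : 0 < d)
  have hd2 : (2 : ℝ) ≤ d := by exact_mod_cast hd
  have hK0 : (0 : ℝ) < (K : ℝ) + 1 := by positivity
  set θ : ℝ := ((d : ℝ) - 1) / d with hθ
  have hθ1 : θ ≤ 1 := by rw [hθ, div_le_one hd0]; linarith
  have hθ2 : 1 / 2 ≤ θ := by rw [hθ, le_div_iff₀ hd0]; linarith
  have hθ3 : -(1 / (d : ℝ)) = θ - 1 := by rw [hθ]; field_simp; ring
  have hs : (-1 : ℝ) ≤ -(1 / ((K : ℝ) + 1)) := by
    rw [neg_le_neg_iff, div_le_one hK0]; linarith [(Nat.cast_nonneg K : (0 : ℝ) ≤ K)]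
  have hb := rpow_one_add_le_one_add_mul_self hs (by linarith : 0 ≤ θ) hθ1
  have hmul : (K : ℝ) = ((K : ℝ) + 1) * (1 + -(1 / ((K : ℝ) + 1))) := by field_simp; ring
  have h1 : (K : ℝ) ^ θ ≤ ((K : ℝ) + 1) ^ θ * (1 + θ * -(1 / ((K : ℝ) + 1))) := by
    calc (K : ℝ) ^ θ = (((K : ℝ) + 1) * (1 + -(1 / ((K : ℝ) + 1)))) ^ θ := by rw [← hmul]
      _ = ((K : ℝ) + 1) ^ θ * (1 + -(1 / ((K : ℝ) + 1))) ^ θ := by
          rw [Real.mul_rpow hK0.le (by linarith)]
      _ ≤ ((K : ℝ) + 1) ^ θ * (1 + θ * -(1 / ((K : ℝ) + 1))) :=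
          mul_le_mul_of_nonneg_left hb (Real.rpow_nonneg hK0.le _)
  have h2 : ((K : ℝ) + 1) ^ (-(1 / (d : ℝ))) = ((K : ℝ) + 1) ^ θ / ((K : ℝ) + 1) := by
    rw [hθ3, Real.rpow_sub_one hK0.ne']
  have h3 : 0 ≤ ((K : ℝ) + 1) ^ θ / ((K : ℝ) + 1) := by positivity
  rw [h2]
  have h4 : ((K : ℝ) + 1) ^ θ * (1 + θ * -(1 / ((K : ℝ) + 1)))
      = ((K : ℝ) + 1) ^ θ - θ * (((K : ℝ) + 1) ^ θ / ((K : ℝ) + 1)) := by ring
  rw [h4] at h1
  nlinarith


theorem exists_two_perm {B : Type*} (P : List B) (i j : Fin P.length) (hij : i ≠ j) :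
    ∃ rest : List B, P.Perm (P.get i :: P.get j :: rest) := by
  have h1 : (P.get i :: P.eraseIdx i).Perm P := List.getElem_cons_eraseIdx_perm i.isLt
  have h2 : P.get j ∈ P.eraseIdx i := by
    rw [List.mem_eraseIdx_iff_getElem]
    exact ⟨j, j.isLt, fun h => hij (Fin.ext h.symm), rfl⟩
  obtain ⟨s, t, hst⟩ := List.append_of_mem h2
  refine ⟨s ++ t, h1.symm.trans ?_⟩
  rw [hst]
  exact (List.perm_middle).cons _

theorem merge_step {d : ℕ} (hd : 2 ≤ d) {n : ℕ} (x : Fin n → EuclideanSpace ℝ (Fin d))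
    (hx : ∀ i, x i ∈ cube d) (P : List (List (Fin n))) (hne : ∀ p ∈ P, p ≠ [])
    (hP : (P.flatten).Perm (List.finRange n)) (hK : 2 ≤ P.length) :
    ∃ Q : List (List (Fin n)), (∀ p ∈ Q, p ≠ []) ∧ (Q.flatten).Perm (List.finRange n) ∧
      Q.length + 1 = P.length ∧
      (Q.map (plen x)).sum ≤ (P.map (plen x)).sum
        + 2 * Real.sqrt d * (P.length : ℝ) ^ (-(1 / (d : ℝ))) := by
  have hne' : ∀ i : Fin P.length, P.get i ≠ [] := fun i => hne _ (P.get_mem i)
  obtain ⟨i, j, hij, hdist⟩ := exists_close (by omega : 1 ≤ d) hK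
    (fun i : Fin P.length => x ((P.get i).head (hne' i))) (fun i => hx _)
  obtain ⟨rest, hrest⟩ := exists_two_perm P i j hij
  refine ⟨((P.get i).reverse ++ P.get j) :: rest, ?_, ?_, ?_, ?_⟩
  · intro p hp
    rcases List.mem_cons.mp hp with rfl | hp
    · exact List.append_ne_nil_of_right_ne_nil _ (hne' j)
    · exact hne p (hrest.mem_iff.mpr (by simp [hp]))
  · refine List.Perm.trans ?_ hP
    refine List.Perm.trans ?_ hrest.flatten.symm
    simp only [List.flatten_cons, List.append_assoc]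
    exact (List.reverse_perm _).append_right _
  · have := hrest.length_eq
    simp at this ⊢
    omega
  · have h1 : (P.map (plen x)).sum = plen x (P.get i) + (plen x (P.get j) + (rest.map (plen x)).sum) := by
      rw [(hrest.map (plen x)).sum_eq]
      simp
    have h2 : plen x ((P.get i).reverse ++ P.get j)
        = plen x (P.get i) + dist (x ((P.get i).head (hne' i))) (x ((P.get j).head (hne' j)))
          + plen x (P.get j) := by
      unfold plen
      rw [chainSum_append _ _ _ (by simpa using hne' i) (hne' j),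
        chainSum_reverse _ (fun a b => dist_comm _ _)]
      simp
    rw [List.map_cons, List.sum_cons, h1, h2]
    have h3 : dist (x ((P.get i).head (hne' i))) (x ((P.get j).head (hne' j)))
        ≤ 2 * Real.sqrt d * (P.length : ℝ) ^ (-(1 / (d : ℝ))) := hdist
    linarith

theorem tsp_le_aux {d : ℕ} (hd : 2 ≤ d) {n : ℕ} (x : Fin n → EuclideanSpace ℝ (Fin d))
    (hx : ∀ i, x i ∈ cube d) : ∀ (K : ℕ) (P : List (List (Fin n))), (∀ p ∈ P, p ≠ []) →
    (P.flatten).Perm (List.finRange n) → P.length = K + 1 →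
    tsp x ≤ (P.map (plen x)).sum
      + 4 * Real.sqrt d * ((K : ℝ) + 1) ^ (((d : ℝ) - 1) / (d : ℝ)) + Real.sqrt d := by
  intro K
  induction K with
  | zero =>
    intro P hne hP hlen
    obtain ⟨p, rfl⟩ := List.length_eq_one_iff.mp hlen
    have hp : p ≠ [] := hne p (by simp)
    have h1 := tsp_le_single x p (by simpa using hP) hp
    have h2 : dist (x (p.getLast hp)) (x (p.head hp)) ≤ Real.sqrt d := dist_cube_le (hx _) (hx _)
    have h3 : 0 ≤ 4 * Real.sqrt d * (((0 : ℕ) : ℝ) + 1) ^ (((d : ℝ) - 1) / (d : ℝ)) := by positivity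
    simp only [List.map_cons, List.map_nil, List.sum_cons, List.sum_nil, add_zero]
    linarith
  | succ K ih =>
    intro P hne hP hlen
    obtain ⟨Q, hQ1, hQ2, hQ3, hQ4⟩ := merge_step hd x hx P hne hP (by omega)
    have h1 := ih Q hQ1 hQ2 (by omega)
    have h2 := step_cost hd (K := K + 1) (by omega)
    have hs : 0 ≤ Real.sqrt d := Real.sqrt_nonneg _
    have h3 := mul_le_mul_of_nonneg_left h2 hs
    rw [hlen] at hQ4
    push_cast at hQ4 h3 ⊢
    nlinarith

end Patch

/-- PACKAGE T2: a path cover of points of the cube can be turned into a tour. -/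
theorem tsp_le_cover : ∃ C : ℝ, ∀ d : ℕ, 2 ≤ d → ∀ n : ℕ, ∀ x : Fin n → EuclideanSpace ℝ (Fin d),
    (∀ i, x i ∈ cube d) → ∀ P : List (List (Fin n)), (∀ p ∈ P, p ≠ []) →
    (P.flatten).Perm (List.finRange n) →
    tsp x ≤ (P.map (plen x)).sum
      + C * Real.sqrt d * (P.length : ℝ) ^ (((d : ℝ) - 1) / (d : ℝ)) + Real.sqrt d := by
  refine ⟨4, ?_⟩
  intro d hd n x hx P hne hP
  rcases Nat.eq_zero_or_pos P.length with h0 | h0
  · have hP0 : P = [] := List.length_eq_zero_iff.mp h0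
    subst hP0
    have hn : n = 0 := by simpa using hP.length_eq.symm
    subst hn
    have h1 : tsp x = 0 := by unfold tsp; simp
    rw [h1]
    simp only [List.map_nil, List.sum_nil, List.length_nil]
    positivity
  · obtain ⟨K, hK⟩ : ∃ K, P.length = K + 1 := ⟨P.length - 1, by omega⟩
    have := Patch.tsp_le_aux hd x hx K P hne hP hK
    rw [hK]
    push_cast
    exact this

end Pool.Agent.TSPd97
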