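import Pool.Agent.TSPd97.Defs

/-!
Package T4 for MP_076557_pr: a graph of maximum degree at most 2 is a union of paths and
broken cycles (helper27).
-/

set_option autoImplicit false

open Classical

namespace Pool.Agent.TSPd97

namespace PathCycle

variable {n : ℕ}

/-- degree -/
noncomputable def dg (F : Fin n → Fin n → Prop) (a : Fin n) : ℕ :=
  (Finset.univ.filter (F a)).card

lemma chainSum_le (F : Fin n → Fin n → Prop) (hs : ∀ a b, F a b → F b a)
    (w : Fin n → Fin n → ℝ) (hw : ∀ a b, 0 ≤ w a b)
    (hws : ∀ a b, w a b = w b a) :
    ∀ p : List (Fin n), p.IsChain F →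
      2 * chainSum w p ≤ (p.map fun a => (p.map fun b => if F a b then w a b else 0).sum).sum
  | [], _ => by simp [chainSum]
  | [a], _ => by
      simp only [chainSum, List.map_cons, List.map_nil, List.sum_cons, List.sum_nil, add_zero,
        mul_zero]
      split_ifs
      · exact hw _ _
      · exact le_rfl
  | a :: b :: l, h => by
      have hF : F a b := (List.isChain_cons_cons.1 h).1
      have hc : (b :: l).IsChain F := (List.isChain_cons_cons.1 h).2
      have ih := chainSum_le F hs w hw hws (b :: l) hc
      set q : List (Fin n) := b :: l with hq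
      have h0 : chainSum w (a :: q) = w a b + chainSum w q := by
        rw [hq]; rfl
      have key : ((a :: q).map fun x => ((a :: q).map fun y => if F x y then w x y else 0).sum).sum
          = ((if F a a then w a a else 0) + (q.map fun y => if F a y then w a y else 0).sum)
            + ((q.map fun x => if F x a then w x a else 0).sum
              + (q.map fun x => (q.map fun y => if F x y then w x y else 0).sum).sum) := by
        simp only [List.map_cons, List.sum_cons]
        congr 1
        rw [List.sum_map_add]
      have h1 : w a b ≤ (q.map fun y => if F a y then w a y else 0).sum := by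
        rw [hq, List.map_cons, List.sum_cons, if_pos hF]
        have : 0 ≤ (l.map fun y => if F a y then w a y else 0).sum := by
          apply List.sum_nonneg
          intro x hx
          obtain ⟨y, -, rfl⟩ := List.mem_map.1 hx
          split_ifs
          · exact hw _ _
          · exact le_rfl
        linarith
      have h2 : w a b ≤ (q.map fun x => if F x a then w x a else 0).sum := by
        rw [hq, List.map_cons, List.sum_cons, if_pos (hs _ _ hF), hws b a]
        have : 0 ≤ (l.map fun x => if F x a then w x a else 0).sum := by
          apply List.sum_nonneg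
          intro x hx
          obtain ⟨y, -, rfl⟩ := List.mem_map.1 hx
          split_ifs
          · exact hw _ _
          · exact le_rfl
        linarith
      have h3 : (0 : ℝ) ≤ (if F a a then w a a else 0) := by
        split_ifs
        · exact hw _ _
        · exact le_rfl
      rw [key, h0]
      linarith

lemma chainSum_le' (F : Fin n → Fin n → Prop) (hs : ∀ a b, F a b → F b a)
    (w : Fin n → Fin n → ℝ) (hw : ∀ a b, 0 ≤ w a b)
    (hws : ∀ a b, w a b = w b a) (p : List (Fin n)) (hp : p.IsChain F) (hnd : p.Nodup) :
    chainSum w p ≤ (p.map fun a => (1 / 2) * ∑ b, if F a b then w a b else 0).sum := by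
  have h1 := chainSum_le F hs w hw hws p hp
  have h2 : (p.map fun a => (p.map fun b => if F a b then w a b else 0).sum).sum
      ≤ (p.map fun a => ∑ b, if F a b then w a b else 0).sum := by
    apply List.sum_le_sum
    intro a _
    rw [← List.sum_toFinset _ hnd]
    apply Finset.sum_le_sum_of_subset_of_nonneg (Finset.subset_univ _)
    intro b _ _
    split_ifs
    · exact hw _ _
    · exact le_rfl
  rw [List.sum_map_mul_left]
  linarith

/-- Existence of a longest list. -/
lemma exists_longest (Q : List (Fin n) → Prop) (hQ : ∀ p, Q p → p.Nodup) (p0 : List (Fin n))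
    (h0 : Q p0) : ∃ p, Q p ∧ ∀ q, Q q → q.length ≤ p.length := by
  have hb : BddAbove {k | ∃ p, Q p ∧ p.length = k} := by
    refine ⟨n, ?_⟩
    rintro k ⟨p, hp, rfl⟩
    have := (hQ p hp).length_le_card
    simpa using this
  have hne : {k | ∃ p, Q p ∧ p.length = k}.Nonempty := ⟨_, p0, h0, rfl⟩
  obtain ⟨p, hp, hk⟩ := Nat.sSup_mem hne hb
  refine ⟨p, hp, fun q hq => ?_⟩
  rw [hk]
  exact le_csSup hb ⟨q, hq, rfl⟩

/-- The neighbours of the first vertex of a longest chain. -/
lemma head_nbrs (F : Fin n → Fin n → Prop) (hs : ∀ a b, F a b → F b a) (hi : ∀ a, ¬ F a a)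
    (hd : ∀ a, dg F a ≤ 2) (S : Set (Fin n))
    (hS : ∀ a ∈ S, ∀ b, F a b → b ∈ S)
    (a b : Fin n) (m : List (Fin n))
    (hnd : (a :: (m ++ [b])).Nodup) (hc : (a :: (m ++ [b])).IsChain F)
    (hout : ∀ x ∈ a :: (m ++ [b]), x ∉ S)
    (hmax : ∀ q : List (Fin n), q.Nodup → q.IsChain F → (∀ x ∈ q, x ∉ S) →
      q.length ≤ (a :: (m ++ [b])).length)
    (c : Fin n) (hac : F a c) : c = b ∨ ∃ m', m = c :: m' := by
  have hcmem : c ∈ a :: (m ++ [b]) := by
    by_contra hcn
    have hcS : c ∉ S := fun h => hout a (by simp) (hS c h a (hs _ _ hac))
    have := hmax (c :: (a :: (m ++ [b]))) (List.nodup_cons.2 ⟨hcn, hnd⟩)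
      (List.isChain_cons_cons.2 ⟨hs _ _ hac, hc⟩)
      (by
        intro x hx
        rcases List.mem_cons.1 hx with rfl | hx
        · exact hcS
        · exact hout x hx)
    simp at this
  have hca : c ≠ a := by
    rintro rfl
    exact hi _ hac
  have hcm : c ∈ m ++ [b] := by
    rcases List.mem_cons.1 hcmem with h | h
    · exact absurd h hca
    · exact h
  rcases List.mem_append.1 hcm with h | h
  · right
    obtain ⟨m1, m2, rfl⟩ := List.append_of_mem h
    -- the list is `a :: m1 ++ c :: m2 ++ [b]`
    rcases List.eq_nil_or_concat m1 with rfl | ⟨m1', u, rfl⟩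
    · exact ⟨m2, rfl⟩
    · exfalso
      -- successor of `c`
      obtain ⟨v, l, hv⟩ : ∃ v l, m2 ++ [b] = v :: l := by
        cases m2 with
        | nil => exact ⟨b, [], rfl⟩
        | cons v l => exact ⟨v, l ++ [b], rfl⟩
      have heq : a :: (m1'.concat u ++ c :: m2 ++ [b]) = (a :: m1') ++ u :: c :: v :: l := by
        simp [List.concat_eq_append, hv]
      rw [heq] at hnd hc
      have h1 : F u c := by
        rw [List.isChain_append_cons_cons] at hc
        exact hc.2.1
      have h2 : F c v := by
        rw [List.isChain_append_cons_cons] at hc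
        exact (List.isChain_cons_cons.1 hc.2.2).1
      have hau : a ≠ u := by
        rintro rfl
        simp at hnd
      have hav : a ≠ v := by
        rintro rfl
        simp at hnd
      have huv : u ≠ v := by
        rintro rfl
        have := (List.nodup_append.1 hnd).2.1
        simp at this
      have hsub : ({a, u, v} : Finset (Fin n)) ⊆ Finset.univ.filter (F c) := by
        intro x hx
        simp only [Finset.mem_insert, Finset.mem_singleton] at hx
        simp only [Finset.mem_filter, Finset.mem_univ, true_and]
        rcases hx with rfl | rfl | rfl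
        · exact hs _ _ hac
        · exact hs _ _ h1
        · exact h2
      have hcard : ({a, u, v} : Finset (Fin n)).card = 3 := by
        rw [Finset.card_eq_three]
        exact ⟨a, u, v, hau, hav, huv, rfl⟩
      have := Finset.card_le_card hsub
      have h3 := hd c
      unfold dg at h3
      omega
  · left
    simpa using h

/-- inner vertices: the neighbours are the two neighbours on the chain -/
lemma inner_nbrs (F : Fin n → Fin n → Prop) (hs : ∀ a b, F a b → F b a)
    (hd : ∀ a, dg F a ≤ 2)
    (a b : Fin n) (m : List (Fin n))
    (hnd : (a :: (m ++ [b])).Nodup) (hc : (a :: (m ++ [b])).IsChain F)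
    (x : Fin n) (hx : x ∈ m) : dg F x = 2 ∧ ∀ y, F x y → y ∈ a :: (m ++ [b]) := by
  obtain ⟨m1, m2, rfl⟩ := List.append_of_mem hx
  obtain ⟨u, l1, hu⟩ : ∃ u l1, a :: m1 = l1 ++ [u] := by
    rcases List.eq_nil_or_concat m1 with rfl | ⟨m1', u, rfl⟩
    · exact ⟨a, [], rfl⟩
    · exact ⟨u, a :: m1', by simp⟩
  obtain ⟨v, l, hv⟩ : ∃ v l, m2 ++ [b] = v :: l := by
    cases m2 with
    | nil => exact ⟨b, [], rfl⟩
    | cons v l => exact ⟨v, l ++ [b], rfl⟩
  have heq : a :: (m1 ++ x :: m2 ++ [b]) = l1 ++ u :: x :: v :: l := by
    have : a :: (m1 ++ x :: m2 ++ [b]) = (a :: m1) ++ x :: (m2 ++ [b]) := by simp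
    rw [this, hu, hv]; simp
  rw [heq] at hnd hc ⊢
  have h1 : F u x := by
    rw [List.isChain_append_cons_cons] at hc
    exact hc.2.1
  have h2 : F x v := by
    rw [List.isChain_append_cons_cons] at hc
    exact (List.isChain_cons_cons.1 hc.2.2).1
  have huv : u ≠ v := by
    rintro rfl
    have := (List.nodup_append.1 hnd).2.1
    simp at this
  have hsub : ({u, v} : Finset (Fin n)) ⊆ Finset.univ.filter (F x) := by
    intro y hy
    simp only [Finset.mem_insert, Finset.mem_singleton] at hy
    simp only [Finset.mem_filter, Finset.mem_univ, true_and]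
    rcases hy with rfl | rfl
    · exact hs _ _ h1
    · exact h2
  have hcard : ({u, v} : Finset (Fin n)).card = 2 := Finset.card_pair huv
  have h3 := hd x
  have h4 := Finset.card_le_card hsub
  unfold dg at h3 ⊢
  have heq2 : ({u, v} : Finset (Fin n)) = Finset.univ.filter (F x) :=
    Finset.eq_of_subset_of_card_le hsub (by omega)
  refine ⟨by omega, ?_⟩
  intro y hy
  have : y ∈ ({u, v} : Finset (Fin n)) := by
    rw [heq2]; simpa using hy
  simp only [Finset.mem_insert, Finset.mem_singleton] at this
  rcases this with rfl | rfl <;> simp

/-- A good list: nonempty, a chain, and either a broken cycle all of whose degrees are 2, or a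
whole path component. -/
def Cyc (F : Fin n → Fin n → Prop) (p : List (Fin n)) : Prop :=
  3 ≤ p.length ∧ (∀ h : p ≠ [], F (p.getLast h) (p.head h)) ∧ ∀ a ∈ p, dg F a = 2

def Pth (F : Fin n → Fin n → Prop) (p : List (Fin n)) : Prop :=
  ∀ φ : Fin n → ℝ, endSum φ p = (p.map fun a => (2 - (dg F a : ℝ)) * φ a).sum

lemma step (F : Fin n → Fin n → Prop) (hs : ∀ a b, F a b → F b a) (hi : ∀ a, ¬ F a a)
    (hd : ∀ a, dg F a ≤ 2) (S : Set (Fin n))
    (hS : ∀ a ∈ S, ∀ b, F a b → b ∈ S) (x0 : Fin n) (hx0 : x0 ∉ S) :
    ∃ p : List (Fin n), p ≠ [] ∧ p.Nodup ∧ p.IsChain F ∧ (∀ x ∈ p, x ∉ S) ∧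
      (∀ a ∈ p, ∀ b, F a b → b ∈ p) ∧ (Cyc F p ∨ Pth F p) := by
  obtain ⟨p, ⟨hnd, hc, hout⟩, hmax'⟩ := exists_longest
    (fun p : List (Fin n) => p.Nodup ∧ p.IsChain F ∧ ∀ x ∈ p, x ∉ S) (fun p hp => hp.1) [x0]
    ⟨by simp, by simp, by simpa using hx0⟩
  have hmax : ∀ q : List (Fin n), q.Nodup → q.IsChain F → (∀ x ∈ q, x ∉ S) →
      q.length ≤ p.length := fun q h1 h2 h3 => hmax' q ⟨h1, h2, h3⟩
  have hne : p ≠ [] := by
    rintro rfl
    have := hmax [x0] (by simp) (by simp) (by simpa using hx0)
    simp at this
  refine ⟨p, hne, hnd, hc, hout, ?_⟩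
  obtain ⟨a, q, rfl⟩ := List.exists_cons_of_ne_nil hne
  rcases List.eq_nil_or_concat q with rfl | ⟨m, b, rfl⟩
  · -- single vertex
    have hN : ∀ c, ¬ F a c := by
      intro c hac
      have hcS : c ∉ S := fun h => hout a (by simp) (hS c h a (hs _ _ hac))
      have hca : c ≠ a := by
        rintro rfl
        exact hi _ hac
      have := hmax [c, a] (by simp [hca]) (by simp [hs _ _ hac]) (by
        intro x hx
        simp only [List.mem_cons, List.not_mem_nil, or_false] at hx
        rcases hx with rfl | rfl
        · exact hcS
        · exact hout _ (by simp))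
      simp at this
    refine ⟨?_, Or.inr ?_⟩
    · intro x hx y hxy
      simp only [List.mem_cons, List.not_mem_nil, or_false] at hx
      subst hx
      exact absurd hxy (hN y)
    · intro φ
      have h0 : dg F a = 0 := by
        unfold dg
        rw [Finset.card_eq_zero, Finset.filter_eq_empty_iff]
        intro c _
        exact hN c
      simp only [endSum, List.getLast_singleton, List.map_cons, List.map_nil, List.sum_cons,
        List.sum_nil, h0]
      push_cast
      ring
  · rw [List.concat_eq_append] at *
    have hH := head_nbrs F hs hi hd S hS a b m hnd hc hout hmax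
    -- the reversed list
    have hrev : (a :: (m ++ [b])).reverse = b :: (m.reverse ++ [a]) := by simp
    have hT := head_nbrs F hs hi hd S hS b a m.reverse
      (by rw [← hrev]; exact List.nodup_reverse.2 hnd)
      (by
        rw [← hrev, List.isChain_reverse]
        exact hc.imp fun x y h => hs _ _ h)
      (by
        intro x hx
        rw [← hrev, List.mem_reverse] at hx
        exact hout x hx)
      (by
        intro q h1 h2 h3
        have := hmax q h1 h2 h3
        simpa using this)
    have hI := inner_nbrs F hs hd a b m hnd hc
    have hab : a ≠ b := by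
      rintro rfl
      simp at hnd
    have hclosed : ∀ x ∈ a :: (m ++ [b]), ∀ y, F x y → y ∈ a :: (m ++ [b]) := by
      intro x hx y hxy
      rcases List.mem_cons.1 hx with rfl | hx
      · rcases hH y hxy with rfl | ⟨m', rfl⟩ <;> simp
      · rcases List.mem_append.1 hx with hx | hx
        · exact (hI x hx).2 y hxy
        · have : x = b := by simpa using hx
          subst this
          rcases hT y hxy with rfl | ⟨m', hm'⟩
          · simp
          · have : y ∈ m.reverse := by rw [hm']; simp
            rw [List.mem_reverse] at this
            simp [this]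
    refine ⟨hclosed, ?_⟩
    have hlast : ∀ h : a :: (m ++ [b]) ≠ [], (a :: (m ++ [b])).getLast h = b := by
      intro h
      simp
    by_cases hcyc : m ≠ [] ∧ F a b
    · left
      obtain ⟨hm, hFab⟩ := hcyc
      have hlen : 3 ≤ (a :: (m ++ [b])).length := by
        have : 1 ≤ m.length := List.length_pos_of_ne_nil hm
        simp
        omega
      refine ⟨hlen, ?_, ?_⟩
      · intro h
        rw [hlast h]
        exact hs _ _ hFab
      · intro x hx
        rcases List.mem_cons.1 hx with rfl | hx
        · -- x = a: neighbours head of m and b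
          obtain ⟨c, m', rfl⟩ := List.exists_cons_of_ne_nil hm
          have h1 : F x c := by
            simp only [List.cons_append, List.isChain_cons_cons] at hc
            exact hc.1
          have hcb : c ≠ b := by
            rintro rfl
            simp at hnd
          apply le_antisymm (hd x)
          unfold dg
          rw [← Finset.card_pair hcb]
          apply Finset.card_le_card
          intro y hy
          simp only [Finset.mem_insert, Finset.mem_singleton] at hy
          simp only [Finset.mem_filter, Finset.mem_univ, true_and]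
          rcases hy with rfl | rfl
          · exact h1
          · exact hFab
        · rcases List.mem_append.1 hx with hx | hx
          · exact (hI x hx).1
          · have : x = b := by simpa using hx
            subst this
            rcases List.eq_nil_or_concat m with rfl | ⟨m', c, rfl⟩
            · exact absurd rfl hm
            have h1 : F c x := by
              have : a :: (m'.concat c ++ [x]) = (a :: m') ++ c :: x :: [] := by simp
              rw [this, List.isChain_append_cons_cons] at hc
              exact hc.2.1
            have hca : c ≠ a := by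
              rintro rfl
              simp at hnd
            apply le_antisymm (hd x)
            unfold dg
            rw [← Finset.card_pair hca]
            apply Finset.card_le_card
            intro y hy
            simp only [Finset.mem_insert, Finset.mem_singleton] at hy
            simp only [Finset.mem_filter, Finset.mem_univ, true_and]
            rcases hy with rfl | rfl
            · exact hs _ _ h1
            · exact hs _ _ hFab
    · right
      -- degrees of the two ends are one
      have hda : dg F a = 1 := by
        unfold dg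
        rw [Finset.card_eq_one]
        cases m with
        | nil =>
          refine ⟨b, ?_⟩
          have h1 : F a b := by simpa using hc
          ext y
          simp only [Finset.mem_filter, Finset.mem_univ, true_and, Finset.mem_singleton]
          refine ⟨fun hy => ?_, fun hy => hy ▸ h1⟩
          rcases hH y hy with rfl | ⟨m', hm'⟩
          · rfl
          · simp at hm'
        | cons c m' =>
          refine ⟨c, ?_⟩
          have h1 : F a c := by
            simp only [List.cons_append, List.isChain_cons_cons] at hc
            exact hc.1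
          have hFab : ¬ F a b := fun h => hcyc ⟨by simp, h⟩
          ext y
          simp only [Finset.mem_filter, Finset.mem_univ, true_and, Finset.mem_singleton]
          refine ⟨fun hy => ?_, fun hy => hy ▸ h1⟩
          rcases hH y hy with rfl | ⟨m'', hm'⟩
          · exact absurd hy hFab
          · simp at hm'
            exact hm'.1.symm
      have hdb : dg F b = 1 := by
        unfold dg
        rw [Finset.card_eq_one]
        rcases List.eq_nil_or_concat m with rfl | ⟨m', c, rfl⟩
        · refine ⟨a, ?_⟩
          have h1 : F a b := by simpa using hc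
          ext y
          simp only [Finset.mem_filter, Finset.mem_univ, true_and, Finset.mem_singleton]
          refine ⟨fun hy => ?_, fun hy => hy ▸ hs _ _ h1⟩
          rcases hT y hy with rfl | ⟨m', hm'⟩
          · rfl
          · simp at hm'
        · refine ⟨c, ?_⟩
          have h1 : F c b := by
            have : a :: (m'.concat c ++ [b]) = (a :: m') ++ c :: b :: [] := by simp
            rw [this, List.isChain_append_cons_cons] at hc
            exact hc.2.1
          have hFab : ¬ F a b := fun h => hcyc ⟨by simp, h⟩
          ext y
          simp only [Finset.mem_filter, Finset.mem_univ, true_and, Finset.mem_singleton]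
          refine ⟨fun hy => ?_, fun hy => hy ▸ hs _ _ h1⟩
          rcases hT y hy with rfl | ⟨m'', hm'⟩
          · exact absurd (hs _ _ hy) hFab
          · simp at hm'
            exact hm'.1.symm
      intro φ
      have h0 : (m.map fun x => (2 - (dg F x : ℝ)) * φ x).sum = 0 := by
        apply List.sum_eq_zero
        intro y hy
        obtain ⟨x, hx, rfl⟩ := List.mem_map.1 hy
        rw [(hI x hx).1]
        push_cast
        ring
      simp only [endSum]
      rw [hlast]
      simp only [List.map_cons, List.map_append, List.sum_cons, List.sum_append, List.map_nil,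
        List.sum_nil, h0, hda, hdb]
      push_cast
      ring

lemma cover_aux (F : Fin n → Fin n → Prop) (hs : ∀ a b, F a b → F b a) (hi : ∀ a, ¬ F a a)
    (hd : ∀ a, dg F a ≤ 2) :
    ∀ k : ℕ, ∀ P1 P2 : List (List (Fin n)),
      (P1 ++ P2).flatten.Nodup →
      (∀ a ∈ (P1 ++ P2).flatten, ∀ b, F a b → b ∈ (P1 ++ P2).flatten) →
      (∀ p ∈ P1 ++ P2, p ≠ [] ∧ p.IsChain F) →
      (∀ p ∈ P1, Pth F p) → (∀ p ∈ P2, Cyc F p) →
      n ≤ (P1 ++ P2).flatten.length + k →
      ∃ P1' P2' : List (List (Fin n)),
        (P1' ++ P2').flatten.Nodup ∧ (∀ a, a ∈ (P1' ++ P2').flatten) ∧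
        (∀ p ∈ P1' ++ P2', p ≠ [] ∧ p.IsChain F) ∧
        (∀ p ∈ P1', Pth F p) ∧ (∀ p ∈ P2', Cyc F p) := by
  intro k
  induction k with
  | zero =>
    intro P1 P2 hnd hcl hch h1 h2 hk
    refine ⟨P1, P2, hnd, ?_, hch, h1, h2⟩
    intro a
    have hcard : (P1 ++ P2).flatten.toFinset = Finset.univ := by
      apply Finset.eq_univ_of_card
      rw [List.toFinset_card_of_nodup hnd]
      have := hnd.length_le_card
      simp at this ⊢
      simp at hk
      omega
    have : a ∈ (P1 ++ P2).flatten.toFinset := by rw [hcard]; simp
    exact List.mem_toFinset.1 this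
  | succ k ih =>
    intro P1 P2 hnd hcl hch h1 h2 hk
    by_cases hall : ∀ a, a ∈ (P1 ++ P2).flatten
    · exact ⟨P1, P2, hnd, hall, hch, h1, h2⟩
    · push Not at hall
      obtain ⟨x0, hx0⟩ := hall
      obtain ⟨p, hpne, hpnd, hpc, hpout, hpcl, hp⟩ :=
        step F hs hi hd {a | a ∈ (P1 ++ P2).flatten} hcl x0 hx0
      have hplen : 1 ≤ p.length := List.length_pos_of_ne_nil hpne
      rcases hp with hp | hp
      · -- cycle: add to P2
        refine ih P1 (P2 ++ [p]) ?_ ?_ ?_ h1 ?_ ?_
        · have : (P1 ++ (P2 ++ [p])).flatten = (P1 ++ P2).flatten ++ p := by simp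
          rw [this, List.nodup_append]
          refine ⟨hnd, hpnd, ?_⟩
          intro a ha b hb hab
          subst hab
          exact hpout _ hb ha
        · have : (P1 ++ (P2 ++ [p])).flatten = (P1 ++ P2).flatten ++ p := by simp
          rw [this]
          intro a ha b hab
          rcases List.mem_append.1 ha with ha | ha
          · exact List.mem_append.2 (Or.inl (hcl a ha b hab))
          · exact List.mem_append.2 (Or.inr (hpcl a ha b hab))
        · intro q hq
          simp only [List.mem_append, List.mem_singleton] at hq
          rcases hq with hq | hq | rfl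
          · exact hch q (List.mem_append.2 (Or.inl hq))
          · exact hch q (List.mem_append.2 (Or.inr hq))
          · exact ⟨hpne, hpc⟩
        · intro q hq
          simp only [List.mem_append, List.mem_singleton] at hq
          rcases hq with hq | rfl
          · exact h2 q hq
          · exact hp
        · have : (P1 ++ (P2 ++ [p])).flatten = (P1 ++ P2).flatten ++ p := by simp
          rw [this, List.length_append]
          omega
      · -- path: add to P1
        refine ih (p :: P1) P2 ?_ ?_ ?_ ?_ h2 ?_
        · have : (p :: P1 ++ P2).flatten = p ++ (P1 ++ P2).flatten := by simp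
          rw [this, List.nodup_append]
          refine ⟨hpnd, hnd, ?_⟩
          intro a ha b hb hab
          subst hab
          exact hpout _ ha hb
        · have : (p :: P1 ++ P2).flatten = p ++ (P1 ++ P2).flatten := by simp
          rw [this]
          intro a ha b hab
          rcases List.mem_append.1 ha with ha | ha
          · exact List.mem_append.2 (Or.inl (hpcl a ha b hab))
          · exact List.mem_append.2 (Or.inr (hcl a ha b hab))
        · intro q hq
          simp only [List.cons_append, List.mem_cons] at hq
          rcases hq with rfl | hq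
          · exact ⟨hpne, hpc⟩
          · exact hch q hq
        · intro q hq
          rcases List.mem_cons.1 hq with rfl | hq
          · exact hp
          · exact h1 q hq
        · have : (p :: P1 ++ P2).flatten = p ++ (P1 ++ P2).flatten := by simp
          rw [this, List.length_append]
          omega

end PathCycle

open PathCycle in
/-- PACKAGE T4: a graph of maximum degree at most 2 is a union of paths
(`P1`: whole path components; the multiset of their ends is given by the missing degrees)
and broken cycles (`P2`). -/
theorem path_cycle_cover {n : ℕ} (F : Fin n → Fin n → Prop)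
    (hs : ∀ a b, F a b → F b a) (hi : ∀ a, ¬ F a a)
    (hd : ∀ a, (Finset.univ.filter (F a)).card ≤ 2) :
    ∃ P1 P2 : List (List (Fin n)),
      (∀ p ∈ P1 ++ P2, p ≠ [] ∧ p.IsChain F) ∧
      ((P1 ++ P2).flatten).Perm (List.finRange n) ∧
      (∀ p ∈ P2, 3 ≤ p.length ∧ ∀ h : p ≠ [], F (p.getLast h) (p.head h)) ∧
      (∀ φ : Fin n → ℝ, (P1.map (endSum φ)).sum
        = ∑ a, (2 - ((Finset.univ.filter (F a)).card : ℝ)) * φ a) ∧
      (∀ w : Fin n → Fin n → ℝ, (∀ a b, 0 ≤ w a b) → (∀ a b, w a b = w b a) →
        ((P1 ++ P2).map (chainSum w)).sum
          ≤ (1 / 2) * ∑ a, ∑ b, (if F a b then w a b else 0)) := by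
  obtain ⟨P1, P2, hnd, hall, hch, h1, h2⟩ := cover_aux F hs hi hd n [] [] (by simp) (by simp)
    (by simp) (by simp) (by simp) (by simp)
  have hperm : ((P1 ++ P2).flatten).Perm (List.finRange n) := by
    rw [List.perm_ext_iff_of_nodup hnd (List.nodup_finRange n)]
    intro a
    exact ⟨fun _ => List.mem_finRange a, fun _ => hall a⟩
  have hsum : ∀ g : Fin n → ℝ, ((P1 ++ P2).map fun p => (p.map g).sum).sum = ∑ a, g a := by
    intro g
    rw [Fin.sum_univ_def, ← (hperm.map g).sum_eq, List.map_flatten, List.sum_flatten,
      List.map_map]
    rfl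
  refine ⟨P1, P2, hch, hperm, fun p hp => ⟨(h2 p hp).1, (h2 p hp).2.1⟩, ?_, ?_⟩
  · intro φ
    have e := hsum (fun a => (2 - (dg F a : ℝ)) * φ a)
    rw [List.map_append, List.sum_append] at e
    have e2 : (P2.map fun p => (p.map fun a => (2 - (dg F a : ℝ)) * φ a).sum).sum = 0 := by
      apply List.sum_eq_zero
      intro y hy
      obtain ⟨p, hp, rfl⟩ := List.mem_map.1 hy
      apply List.sum_eq_zero
      intro z hz
      obtain ⟨a, ha, rfl⟩ := List.mem_map.1 hz
      rw [(h2 p hp).2.2 a ha]
      push_cast
      ring
    rw [e2, add_zero] at e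
    have e3 : P1.map (endSum φ)
        = P1.map fun p => (p.map fun a => (2 - (dg F a : ℝ)) * φ a).sum :=
      List.map_congr_left fun p hp => h1 p hp φ
    rw [e3, e]
    rfl
  · intro w hw hws
    have e := hsum (fun a => (1 / 2) * ∑ b, if F a b then w a b else 0)
    rw [Finset.mul_sum, ← e]
    apply List.sum_le_sum
    intro p hp
    have hpnd : p.Nodup := (List.nodup_flatten.1 hnd).1 p hp
    exact chainSum_le' F hs w hw hws p (hch p hp).2 hpnd

end Pool.Agent.TSPd97
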