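import Pool.Agent.TSPd97.Defs

/-!
MP_076557_pr (TSP constant in high dimension; project of helper97): package T5 (helper7).
Joining paths by a random colouring, random orientations and a bipartite matching.
-/

set_option autoImplicit false

namespace Pool.Agent.TSPd97

section Chain
variable {A : Type*} (w : A → A → ℝ)

theorem chainSum_append (l₁ l₂ : List A) (h₁ : l₁ ≠ []) (h₂ : l₂ ≠ []) :
    chainSum w (l₁ ++ l₂) = chainSum w l₁ + w (l₁.getLast h₁) (l₂.head h₂) + chainSum w l₂ := by
  induction l₁ with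
  | nil => exact absurd rfl h₁
  | cons a l ih =>
    cases l with
    | nil =>
      cases l₂ with
      | nil => exact absurd rfl h₂
      | cons b l₂ => simp [chainSum]
    | cons b l =>
      have := ih (by simp)
      simp only [List.cons_append, chainSum] at this ⊢
      rw [this]
      simp only [List.getLast_cons_cons]
      ring

theorem chainSum_reverse (hw : ∀ a b, w a b = w b a) (l : List A) :
    chainSum w l.reverse = chainSum w l := by
  induction l with
  | nil => rfl
  | cons a l ih =>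
    cases l with
    | nil => rfl
    | cons b l =>
      rw [List.reverse_cons, chainSum_append w _ _ (by simp) (by simp), ih]
      simp [chainSum, hw]
      ring

end Chain

section Merge

theorem sum_split2 {ι B : Type*} [Fintype ι] [DecidableEq ι] [AddCommMonoid B] {p q : ι}
    (hpq : p ≠ q) (F : ι → B) :
    ∑ i, F i = F p + F q + ∑ i ∈ (Finset.univ.erase p).erase q, F i := by
  rw [← Finset.add_sum_erase Finset.univ F (Finset.mem_univ p),
    ← Finset.add_sum_erase (Finset.univ.erase p) F
      (Finset.mem_erase.2 ⟨hpq.symm, Finset.mem_univ q⟩), add_assoc]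

theorem sum_rest2 {ι A B : Type*} [Fintype ι] [DecidableEq ι] [AddCommMonoid B] {p q : ι}
    (Q Q1 : ι → A) (h : ∀ i, i ≠ p → i ≠ q → Q1 i = Q i) (F : A → B) :
    ∑ i ∈ (Finset.univ.erase p).erase q, F (Q1 i) =
      ∑ i ∈ (Finset.univ.erase p).erase q, F (Q i) := by
  refine Finset.sum_congr rfl fun i hi => ?_
  simp only [Finset.mem_erase, Finset.mem_univ, and_true] at hi
  rw [h i hi.2 hi.1]

variable {ι A : Type*} [Fintype ι] [DecidableEq ι] (c : ι → ℕ) (w : A → A → ℝ) (R : ℝ)

open Classical in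
theorem merge : ∀ (m : ℕ) (M : Finset (ι × ι)) (Q : ι → List A), M.card = m →
    (∀ e ∈ M, c e.1 < c e.2) →
    (∀ e ∈ M, ∀ e' ∈ M, e.1 = e'.1 → e = e') →
    (∀ e ∈ M, ∀ e' ∈ M, e.2 = e'.2 → e = e') →
    (∀ e ∈ M, ∃ (h1 : Q e.1 ≠ []) (h2 : Q e.2 ≠ []),
      w ((Q e.1).getLast h1) ((Q e.2).head h2) ≤ R) →
    ∃ Q' : ι → List A, (∑ i, (Q' i : Multiset A)) = ∑ i, (Q i : Multiset A) ∧
      (Finset.univ.filter fun i => Q' i ≠ []).card + m =
        (Finset.univ.filter fun i => Q i ≠ []).card ∧
      ∑ i, chainSum w (Q' i) ≤ ∑ i, chainSum w (Q i) + R * m := by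
  intro m
  induction m with
  | zero =>
    intro M Q hM _ _ _ _
    exact ⟨Q, rfl, by simp, by simp⟩
  | succ m ih =>
    intro M Q hM hc h1 h2 hw
    have hne : M.Nonempty := by
      rw [← Finset.card_pos, hM]; omega
    obtain ⟨e, he, hmax⟩ := M.exists_max_image (fun e => c e.2) hne
    obtain ⟨p, q⟩ := e
    simp only at hmax
    have hpq : p ≠ q := by
      intro h
      have := hc _ he
      simp [h] at this
    obtain ⟨hp, hq, hwpq⟩ := hw _ he
    simp only at hp hq hwpq
    set Q1 : ι → List A := Function.update (Function.update Q p (Q p ++ Q q)) q [] with hQ1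
    have hQ1q : Q1 q = [] := by simp [hQ1]
    have hQ1p : Q1 p = Q p ++ Q q := by
      rw [hQ1, Function.update_of_ne hpq, Function.update_self]
    have hQ1o : ∀ i, i ≠ p → i ≠ q → Q1 i = Q i := by
      intro i hi hi'
      rw [hQ1, Function.update_of_ne hi', Function.update_of_ne hi]
    obtain ⟨Q', hQ'1, hQ'2, hQ'3⟩ := ih (M.erase (p, q)) Q1
      (by rw [Finset.card_erase_of_mem he, hM]; rfl)
      (fun e he' => hc e (Finset.mem_of_mem_erase he'))
      (fun e he' e' he'' => h1 e (Finset.mem_of_mem_erase he') e' (Finset.mem_of_mem_erase he''))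
      (fun e he' e' he'' => h2 e (Finset.mem_of_mem_erase he') e' (Finset.mem_of_mem_erase he''))
      (by
        intro e he'
        have he'' := Finset.mem_of_mem_erase he'
        have hne' : e ≠ (p, q) := Finset.ne_of_mem_erase he'
        have e1p : e.1 ≠ p := fun h => hne' (h1 e he'' (p, q) he h)
        have e2q : e.2 ≠ q := fun h => hne' (h2 e he'' (p, q) he h)
        have e1q : e.1 ≠ q := by
          intro h
          have h3 := hc e he''
          have h4 := hmax e he''
          rw [h] at h3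
          omega
        obtain ⟨g1, g2, g3⟩ := hw e he''
        by_cases e2p : e.2 = p
        · refine ⟨by rw [hQ1o _ e1p e1q]; exact g1, by rw [e2p, hQ1p]; simp [hp], ?_⟩
          have ha : (Q1 e.1) = Q e.1 := hQ1o _ e1p e1q
          have hb : Q1 e.2 = Q p ++ Q q := by rw [e2p, hQ1p]
          simp only [ha, hb]
          have : (Q p ++ Q q).head (by simp [hp]) = (Q p).head hp := by
            rw [List.head_append_of_ne_nil]
          rw [this]
          have h5 : (Q e.2).head g2 = (Q p).head hp := by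
            congr 1
            rw [e2p]
          rw [← h5]
          exact g3
        · refine ⟨by rw [hQ1o _ e1p e1q]; exact g1, by rw [hQ1o _ e2p e2q]; exact g2, ?_⟩
          have ha : (Q1 e.1) = Q e.1 := hQ1o _ e1p e1q
          have hb : Q1 e.2 = Q e.2 := hQ1o _ e2p e2q
          simp only [ha, hb]
          exact g3)
    refine ⟨Q', ?_, ?_, ?_⟩
    · rw [hQ'1, sum_split2 hpq (fun i => (Q1 i : Multiset A)),
        sum_split2 hpq (fun i => (Q i : Multiset A)),
        sum_rest2 Q Q1 hQ1o (fun l => (l : Multiset A))]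
      simp only [hQ1q, hQ1p]
      rw [← Multiset.coe_add]
      simp
    · have key : (Finset.univ.filter fun i => Q1 i ≠ []).card + 1 =
          (Finset.univ.filter fun i => Q i ≠ []).card := by
        rw [Finset.card_filter, Finset.card_filter,
          sum_split2 hpq (fun i => if Q1 i ≠ [] then 1 else 0),
          sum_split2 hpq (fun i => if Q i ≠ [] then 1 else 0),
          sum_rest2 Q Q1 hQ1o (fun l => if l ≠ [] then 1 else 0)]
        simp only [hQ1q, hQ1p]
        simp [hp, hq]
        ring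
      omega
    · have key : ∑ i, chainSum w (Q1 i) ≤ ∑ i, chainSum w (Q i) + R := by
        rw [sum_split2 hpq (fun i => chainSum w (Q1 i)),
          sum_split2 hpq (fun i => chainSum w (Q i)),
          sum_rest2 Q Q1 hQ1o (fun l => chainSum w l)]
        simp only [hQ1q, hQ1p]
        rw [chainSum_append w _ _ hp hq]
        simp only [chainSum]
        linarith
      push_cast
      linarith

end Merge

open Classical in
theorem frac_matching {ι κ : Type*} [Fintype ι] [Fintype κ] (x : ι → κ → ℝ)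
    (h0 : ∀ i j, 0 ≤ x i j) (hr : ∀ i, ∑ j, x i j ≤ 1) (hc : ∀ j, ∑ i, x i j ≤ 1) :
    ∃ M : Finset (ι × κ), (∀ e ∈ M, 0 < x e.1 e.2) ∧
      (∀ e ∈ M, ∀ e' ∈ M, e.1 = e'.1 → e = e') ∧
      (∀ e ∈ M, ∀ e' ∈ M, e.2 = e'.2 → e = e') ∧ ∑ i, ∑ j, x i j ≤ M.card := by
  set W : ℝ := ∑ i, ∑ j, x i j with hW
  set N : ι → Finset κ := fun i => Finset.univ.filter fun j => 0 < x i j with hN
  have hWι : ⌈W⌉₊ ≤ Fintype.card ι := by
    refine Nat.ceil_le.2 ?_
    calc W ≤ ∑ i : ι, (1 : ℝ) := Finset.sum_le_sum fun i _ => hr i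
      _ = Fintype.card ι := by simp
  set δ : ℕ := Fintype.card ι - ⌈W⌉₊ with hδ
  set t : ι → Finset (κ ⊕ Fin δ) := fun i => (N i).disjSum Finset.univ with ht
  have hall : ∀ s : Finset ι, s.card ≤ (s.biUnion t).card := by
    intro s
    rcases s.eq_empty_or_nonempty with hs | hs
    · simp [hs]
    have hsub : (s.biUnion N).disjSum (Finset.univ : Finset (Fin δ)) ⊆ s.biUnion t := by
      intro y hy
      rw [Finset.mem_disjSum] at hy
      rcases hy with ⟨j, hj, rfl⟩ | ⟨j, hj, rfl⟩
      · rw [Finset.mem_biUnion] at hj ⊢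
        obtain ⟨i, hi, hij⟩ := hj
        exact ⟨i, hi, Finset.mem_disjSum.2 (Or.inl ⟨j, hij, rfl⟩)⟩
      · rw [Finset.mem_biUnion]
        obtain ⟨i, hi⟩ := hs
        exact ⟨i, hi, Finset.mem_disjSum.2 (Or.inr ⟨j, hj, rfl⟩)⟩
    have hcard := Finset.card_le_card hsub
    rw [Finset.card_disjSum, Finset.card_univ, Fintype.card_fin] at hcard
    have hWle : W ≤ ((Fintype.card ι - s.card + (s.biUnion N).card : ℕ) : ℝ) := by
      have hsc : s.card ≤ Fintype.card ι := Finset.card_le_univ s
      have h1 : W = ∑ i ∈ s, ∑ j, x i j + ∑ i ∈ sᶜ, ∑ j, x i j := by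
        rw [hW, ← Finset.sum_add_sum_compl s]
      have h2 : ∑ i ∈ sᶜ, ∑ j, x i j ≤ (Fintype.card ι - s.card : ℝ) := by
        calc ∑ i ∈ sᶜ, ∑ j, x i j ≤ ∑ i ∈ sᶜ, (1 : ℝ) := Finset.sum_le_sum fun i _ => hr i
          _ = (sᶜ.card : ℝ) := by simp
          _ = (Fintype.card ι - s.card : ℝ) := by
            rw [Finset.card_compl, Nat.cast_sub hsc]
      have h3 : ∑ i ∈ s, ∑ j, x i j ≤ ((s.biUnion N).card : ℝ) := by
        calc ∑ i ∈ s, ∑ j, x i j = ∑ i ∈ s, ∑ j ∈ s.biUnion N, x i j := by
              refine Finset.sum_congr rfl fun i hi => ?_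
              symm
              refine Finset.sum_subset (Finset.subset_univ _) fun j _ hj => ?_
              by_contra hne
              apply hj
              rw [Finset.mem_biUnion]
              exact ⟨i, hi, Finset.mem_filter.2 ⟨Finset.mem_univ _,
                lt_of_le_of_ne (h0 i j) (Ne.symm hne)⟩⟩
          _ = ∑ j ∈ s.biUnion N, ∑ i ∈ s, x i j := Finset.sum_comm
          _ ≤ ∑ j ∈ s.biUnion N, ∑ i, x i j := Finset.sum_le_sum fun j _ =>
              Finset.sum_le_sum_of_subset_of_nonneg (Finset.subset_univ _) fun i _ _ => h0 i j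
          _ ≤ ∑ j ∈ s.biUnion N, (1 : ℝ) := Finset.sum_le_sum fun j _ => hc j
          _ = ((s.biUnion N).card : ℝ) := by simp
      rw [Nat.cast_add, Nat.cast_sub hsc]
      linarith
    have hceil := Nat.ceil_le.2 hWle
    have hsc : s.card ≤ Fintype.card ι := Finset.card_le_univ s
    omega
  obtain ⟨f, hf, hft⟩ := (Finset.all_card_le_biUnion_card_iff_exists_injective t).1 hall
  refine ⟨Finset.univ.filter fun e : ι × κ => f e.1 = Sum.inl e.2, ?_, ?_, ?_, ?_⟩
  · intro e he
    simp only [Finset.mem_filter, Finset.mem_univ, true_and] at he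
    have := hft e.1
    rw [he] at this
    simp only [ht, Finset.inl_mem_disjSum] at this
    exact (Finset.mem_filter.1 this).2
  · intro e he e' he' h
    simp only [Finset.mem_filter, Finset.mem_univ, true_and] at he he'
    rw [← h, he] at he'
    exact Prod.ext h (Sum.inl_injective he')
  · intro e he e' he' h
    simp only [Finset.mem_filter, Finset.mem_univ, true_and] at he he'
    rw [← h, ← he] at he'
    exact Prod.ext (hf he').symm h
  · have h1 : (Finset.univ.filter fun i : ι => (f i).isRight).card ≤ δ := by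
      have : (Finset.univ.filter fun i : ι => (f i).isRight).card ≤
          ((Finset.univ : Finset (Fin δ)).map ⟨Sum.inr, Sum.inr_injective⟩ :
            Finset (κ ⊕ Fin δ)).card := by
        refine Finset.card_le_card_of_injOn f ?_ (fun a _ b _ h => hf h)
        intro i hi
        simp only [Finset.coe_filter, Finset.mem_univ, true_and, Set.mem_ofPred_eq] at hi
        rw [Sum.isRight_iff] at hi
        obtain ⟨y, hy⟩ := hi
        rw [hy]
        simp
      simpa using this
    have h2 : (Finset.univ.filter fun i : ι => ¬ (f i).isRight).card ≤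
        (Finset.univ.filter fun e : ι × κ => f e.1 = Sum.inl e.2).card := by
      have hsub : (Finset.univ.filter fun i : ι => ¬ (f i).isRight) ⊆
          (Finset.univ.filter fun e : ι × κ => f e.1 = Sum.inl e.2).image Prod.fst := by
        intro i hi
        simp only [Finset.mem_filter, Finset.mem_univ, true_and] at hi
        have : (f i).isLeft := by
          cases h : f i <;> simp_all
        rw [Sum.isLeft_iff] at this
        obtain ⟨y, hy⟩ := this
        rw [Finset.mem_image]
        exact ⟨(i, y), by simp [hy], rfl⟩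
      exact (Finset.card_le_card hsub).trans Finset.card_image_le
    have h3 := Finset.card_filter_add_card_filter_not (s := (Finset.univ : Finset ι))
      (fun i : ι => (f i).isRight = true)
    rw [Finset.card_univ] at h3
    have h4 : ⌈W⌉₊ ≤ (Finset.univ.filter fun e : ι × κ => f e.1 = Sum.inl e.2).card := by
      omega
    calc W ≤ (⌈W⌉₊ : ℝ) := Nat.le_ceil W
      _ ≤ _ := by exact_mod_cast h4

/-- averaging over labellings: marginal of a function of finitely many labels -/
theorem sum_comp_inj {A B L : Type*} [Fintype A] [Fintype B] [DecidableEq A] [DecidableEq B]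
    [Fintype L] (i : A → B) (hi : Function.Injective i) (f : (A → L) → ℝ) :
    ∑ c : B → L, f (c ∘ i) =
      (Fintype.card L : ℝ) ^ (Fintype.card B - Fintype.card A) * ∑ x : A → L, f x := by
  classical
  let e1 := Equiv.piEquivPiSubtypeProd (fun b : B => b ∈ Set.range i) (fun _ => L)
  let e2 : A ≃ {b : B // b ∈ Set.range i} := Equiv.ofInjective i hi
  have h1 : ∑ c : B → L, f (c ∘ i) =
      ∑ y : ({b : B // b ∈ Set.range i} → L) × ({b : B // ¬ b ∈ Set.range i} → L),
        f (y.1 ∘ e2) := by
    refine Fintype.sum_equiv e1 _ _ fun c => ?_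
    congr 1
  rw [h1, Fintype.sum_prod_type]
  simp only [Finset.sum_const, Finset.card_univ, nsmul_eq_mul]
  rw [← Finset.mul_sum]
  congr 1
  · rw [Fintype.card_fun]
    push_cast
    congr 1
    have h2 := Fintype.card_subtype_compl (fun b : B => b ∈ Set.range i)
    rw [h2, ← Fintype.card_congr e2]
  · refine Fintype.sum_equiv (Equiv.arrowCongr e2.symm (Equiv.refl L)) _ _ fun y => ?_
    congr 1

section Avg
variable {ι L : Type*} [Fintype ι] [DecidableEq ι] [Fintype L]

/-- average over all labellings -/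
noncomputable def avg (F : (ι → L) → ℝ) : ℝ :=
  (∑ c, F c) / (Fintype.card L : ℝ) ^ Fintype.card ι

theorem avg_add (F G : (ι → L) → ℝ) : avg (fun c => F c + G c) = avg F + avg G := by
  simp only [avg, Finset.sum_add_distrib, add_div]

theorem avg_sub (F G : (ι → L) → ℝ) : avg (fun c => F c - G c) = avg F - avg G := by
  simp only [avg, Finset.sum_sub_distrib, sub_div]

theorem avg_mul (a : ℝ) (F : (ι → L) → ℝ) : avg (fun c => a * F c) = a * avg F := by
  simp only [avg, ← Finset.mul_sum, mul_div_assoc]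

theorem avg_sum {κ : Type*} (s : Finset κ) (F : κ → (ι → L) → ℝ) :
    avg (fun c => ∑ k ∈ s, F k c) = ∑ k ∈ s, avg (F k) := by
  simp only [avg]
  rw [Finset.sum_comm, Finset.sum_div]

theorem avg_mono {F G : (ι → L) → ℝ} (h : ∀ c, F c ≤ G c) : avg F ≤ avg G := by
  unfold avg
  exact div_le_div_of_nonneg_right (Finset.sum_le_sum fun c _ => h c) (by positivity)

theorem exists_avg_le [Nonempty L] (F : (ι → L) → ℝ) : ∃ c, avg F ≤ F c := by
  by_contra h
  push Not at h
  have h1 : ∑ c : ι → L, F c < ∑ c : ι → L, avg F :=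
    Finset.sum_lt_sum_of_nonempty Finset.univ_nonempty fun c _ => h c
  rw [Finset.sum_const, Finset.card_univ, Fintype.card_fun, nsmul_eq_mul] at h1
  unfold avg at h1
  push_cast at h1
  have hL : (0 : ℝ) < (Fintype.card L : ℝ) ^ Fintype.card ι := by
    have : 0 < Fintype.card L := Fintype.card_pos
    positivity
  rw [mul_div_cancel₀ _ hL.ne'] at h1
  exact lt_irrefl _ h1

theorem avg_inj [Nonempty L] {A : Type*} [Fintype A] [DecidableEq A] (i : A → ι)
    (hi : Function.Injective i) (f : (A → L) → ℝ) :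
    avg (fun c : ι → L => f (c ∘ i)) = (∑ x, f x) / (Fintype.card L : ℝ) ^ Fintype.card A := by
  have hL : (Fintype.card L : ℝ) ≠ 0 := by
    have : 0 < Fintype.card L := Fintype.card_pos
    positivity
  have hc : Fintype.card A ≤ Fintype.card ι := Fintype.card_le_of_injective i hi
  unfold avg
  rw [sum_comp_inj i hi f]
  conv_lhs => rw [← Nat.sub_add_cancel hc]
  rw [pow_add]
  simp only [Nat.add_sub_cancel]
  rw [mul_div_mul_left _ _ (pow_ne_zero _ hL)]

theorem avg_one [Nonempty L] (k : ι) (F : L → ℝ) :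
    avg (fun c : ι → L => F (c k)) = (∑ x, F x) / (Fintype.card L : ℝ) := by
  have h := avg_inj (L := L) (fun _ : Unit => k) (fun a b _ => Subsingleton.elim a b)
    (fun x => F (x ()))
  simp only [Function.comp_apply, Fintype.card_unit, pow_one] at h
  rw [h]
  congr 1
  exact Fintype.sum_equiv (Equiv.funUnique Unit L) _ _ fun x => rfl

theorem avg_two [Nonempty L] {k l : ι} (hkl : k ≠ l) (F : L → L → ℝ) :
    avg (fun c : ι → L => F (c k) (c l)) = (∑ x, ∑ y, F x y) / (Fintype.card L : ℝ) ^ 2 := by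
  have hinj : Function.Injective (![k, l] : Fin 2 → ι) := by
    intro a b h
    fin_cases a <;> fin_cases b <;> simp_all
  have h := avg_inj (L := L) (![k, l] : Fin 2 → ι) hinj (fun x => F (x 0) (x 1))
  simp only [Function.comp_apply, Fintype.card_fin, Matrix.cons_val_zero, Matrix.cons_val_one] at h
  rw [h]
  congr 1
  rw [← Fintype.sum_prod_type']
  exact Fintype.sum_equiv (finTwoArrowEquiv L) _ _ fun x => rfl

theorem avg_three [Nonempty L] {k l m : ι} (hkl : k ≠ l) (hkm : k ≠ m) (hlm : l ≠ m)
    (F : L → L → L → ℝ) :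
    avg (fun c : ι → L => F (c k) (c l) (c m)) =
      (∑ x, ∑ y, ∑ z, F x y z) / (Fintype.card L : ℝ) ^ 3 := by
  have hinj : Function.Injective (![k, l, m] : Fin 3 → ι) := by
    intro a b h
    fin_cases a <;> fin_cases b <;> simp_all
  have h := avg_inj (L := L) (![k, l, m] : Fin 3 → ι) hinj (fun x => F (x 0) (x 1) (x 2))
  simp only [Function.comp_apply, Fintype.card_fin] at h
  have h2 : (fun c : ι → L => F (c k) (c l) (c m)) =
      (fun c : ι → L => F (c ((![k, l, m] : Fin 3 → ι) 0)) (c ((![k, l, m] : Fin 3 → ι) 1))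
        (c ((![k, l, m] : Fin 3 → ι) 2))) := rfl
  rw [h2, h]
  congr 1
  have h3 : ∑ x : Fin 3 → L, F (x 0) (x 1) (x 2) =
      ∑ p : L × (Fin 2 → L), F p.1 (p.2 0) (p.2 1) := by
    refine (Fintype.sum_equiv (Fin.consEquiv fun _ : Fin 3 => L) _ _ fun x => ?_).symm
    rfl
  rw [h3, Fintype.sum_prod_type]
  refine Finset.sum_congr rfl fun x _ => ?_
  rw [← Fintype.sum_prod_type']
  exact Fintype.sum_equiv (finTwoArrowEquiv L) _ _ fun x => rfl

theorem deg_pointwise (D a μ θ : ℝ) (ha : a = 0 ∨ a = 1) (haD : a = 0 → D = 0)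
    (hμ : 0 < μ) (hθ : 0 < θ) :
    D * max (D - μ) 0 ≤ (1 + μ / (2 * θ)) * (D ^ 2 - 2 * μ * D + μ ^ 2 * a) + μ * θ / 2 * a := by
  rcases ha with ha | ha
  · rw [haD ha, ha]; simp
  · rw [ha]
    have h1 : D ^ 2 - 2 * μ * D + μ ^ 2 * 1 = (D - μ) ^ 2 := by ring
    rw [h1]
    rcases le_total μ D with h | h
    · rw [max_eq_left (by linarith)]
      have h2 : (1 + μ / (2 * θ)) * (D - μ) ^ 2 + μ * θ / 2 * 1 - D * (D - μ) =
          μ / (2 * θ) * ((D - μ) - θ) ^ 2 := by
        field_simp
        ring
      have h3 : 0 ≤ μ / (2 * θ) * ((D - μ) - θ) ^ 2 := by positivity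
      linarith
    · rw [max_eq_right (by linarith)]
      have : 0 ≤ (1 + μ / (2 * θ)) * (D - μ) ^ 2 + μ * θ / 2 * 1 := by positivity
      linarith

theorem deg_bound [Nonempty L] (g : L → L → ι → ι → ℝ) (A : L → ℝ)
    (hg : ∀ x y k l, g x y k l = 0 ∨ g x y k l = 1) (hgk : ∀ x y k, g x y k k = 0)
    (hA : ∀ x, A x = 0 ∨ A x = 1) (hgA : ∀ x y k l, A x = 0 → g x y k l = 0)
    (μ θ : ℝ) (hμ : 0 < μ) (hθ : 0 < θ) (S2 S3 a : ℝ)
    (hS2 : S2 = ∑ k, ∑ l, ∑ x, ∑ y, g x y k l)
    (hS3 : S3 = ∑ k, ∑ l, ∑ m, if l = m then 0 else ∑ x, ∑ y, ∑ z, g x y k l * g x z k m)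
    (ha : a = ∑ x, A x) :
    avg (fun c : ι → L => ∑ k, (∑ l, g (c k) (c l) k l) *
        max ((∑ l, g (c k) (c l) k l) - μ) 0) ≤
      (1 + μ / (2 * θ)) * (S2 / (Fintype.card L : ℝ) ^ 2 + S3 / (Fintype.card L : ℝ) ^ 3
        - 2 * μ * (S2 / (Fintype.card L : ℝ) ^ 2) +
        μ ^ 2 * (Fintype.card ι * a / (Fintype.card L : ℝ))) +
        μ * θ / 2 * (Fintype.card ι * a / (Fintype.card L : ℝ)) := by
  have h2 : avg (fun c : ι → L => ∑ k, ∑ l, g (c k) (c l) k l) =
      S2 / (Fintype.card L : ℝ) ^ 2 := by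
    rw [hS2, avg_sum, Finset.sum_div]
    refine Finset.sum_congr rfl fun k _ => ?_
    rw [avg_sum, Finset.sum_div]
    refine Finset.sum_congr rfl fun l _ => ?_
    by_cases hkl : k = l
    · subst hkl
      simp [hgk, avg]
    · exact avg_two hkl (fun x y => g x y k l)
  have h3 : avg (fun c : ι → L => ∑ k, ∑ l, ∑ m,
      if l = m then 0 else g (c k) (c l) k l * g (c k) (c m) k m) =
      S3 / (Fintype.card L : ℝ) ^ 3 := by
    rw [hS3, avg_sum, Finset.sum_div]
    refine Finset.sum_congr rfl fun k _ => ?_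
    rw [avg_sum, Finset.sum_div]
    refine Finset.sum_congr rfl fun l _ => ?_
    rw [avg_sum, Finset.sum_div]
    refine Finset.sum_congr rfl fun m _ => ?_
    by_cases hlm : l = m
    · simp [hlm, avg]
    by_cases hkl : k = l
    · subst hkl
      simp [hgk, avg]
    by_cases hkm : k = m
    · subst hkm
      simp [hgk, avg]
    simp only [hlm, if_false]
    exact avg_three hkl hkm hlm (fun x y z => g x y k l * g x z k m)
  have h1 : avg (fun c : ι → L => ∑ k, A (c k)) =
      Fintype.card ι * a / (Fintype.card L : ℝ) := by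
    rw [avg_sum]
    simp only [avg_one, ← ha]
    rw [Finset.sum_const, Finset.card_univ, nsmul_eq_mul, mul_div_assoc]
  calc avg (fun c : ι → L => ∑ k, (∑ l, g (c k) (c l) k l) *
        max ((∑ l, g (c k) (c l) k l) - μ) 0)
      ≤ avg (fun c : ι → L => (1 + μ / (2 * θ)) * ((∑ k, ∑ l, g (c k) (c l) k l) +
          (∑ k, ∑ l, ∑ m, if l = m then 0 else g (c k) (c l) k l * g (c k) (c m) k m)
          - 2 * μ * (∑ k, ∑ l, g (c k) (c l) k l) + μ ^ 2 * ∑ k, A (c k)) +
          μ * θ / 2 * ∑ k, A (c k)) := by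
        refine avg_mono fun c => ?_
        rw [Finset.mul_sum, Finset.mul_sum, ← Finset.sum_add_distrib, ← Finset.sum_sub_distrib,
          Finset.mul_sum, ← Finset.sum_add_distrib, Finset.mul_sum,
          ← Finset.sum_add_distrib]
        refine Finset.sum_le_sum fun k _ => ?_
        have hsq : (∑ l, g (c k) (c l) k l) +
            (∑ l, ∑ m, if l = m then 0 else g (c k) (c l) k l * g (c k) (c m) k m) =
            (∑ l, g (c k) (c l) k l) ^ 2 := by
          rw [sq, Finset.sum_mul_sum, ← Finset.sum_add_distrib]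
          refine Finset.sum_congr rfl fun l _ => ?_
          have : ∀ m, (if l = m then (0 : ℝ) else g (c k) (c l) k l * g (c k) (c m) k m) =
              g (c k) (c l) k l * g (c k) (c m) k m -
                (if l = m then g (c k) (c l) k l * g (c k) (c m) k m else 0) := by
            intro m
            by_cases h : l = m <;> simp [h]
          simp only [this, Finset.sum_sub_distrib, Finset.sum_ite_eq, Finset.mem_univ, if_true]
          rcases hg (c k) (c l) k l with h | h <;> rw [h] <;> ring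
        rw [hsq]
        refine deg_pointwise _ _ μ θ (hA _) ?_ hμ hθ
        intro h
        exact Finset.sum_eq_zero fun l _ => hgA _ _ _ _ h
    _ = _ := by
        rw [avg_add, avg_mul, avg_mul, avg_add, avg_sub, avg_add, avg_mul, avg_mul, h1, h2, h3]

end Avg

theorem matching_of_graph {ι : Type*} [Fintype ι] (X : ι → ι → ℝ)
    (hX : ∀ k l, X k l = 0 ∨ X k l = 1) (μ : ℝ) (hμ : 0 < μ) :
    ∃ M : Finset (ι × ι), (∀ e ∈ M, X e.1 e.2 = 1) ∧
      (∀ e ∈ M, ∀ e' ∈ M, e.1 = e'.1 → e = e') ∧
      (∀ e ∈ M, ∀ e' ∈ M, e.2 = e'.2 → e = e') ∧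
      (1 / μ) * ∑ k, ∑ l, X k l - (1 / μ ^ 2) *
        (∑ k, (∑ l, X k l) * max ((∑ l, X k l) - μ) 0 +
          ∑ l, (∑ k, X k l) * max ((∑ k, X k l) - μ) 0) ≤ M.card := by
  have hX0 : ∀ k l, 0 ≤ X k l := by
    intro k l; rcases hX k l with h | h <;> rw [h]; norm_num
  set dout : ι → ℝ := fun k => ∑ l, X k l with hdout
  set din : ι → ℝ := fun l => ∑ k, X k l with hdin
  have hdo0 : ∀ k, 0 ≤ dout k := fun k => Finset.sum_nonneg fun l _ => hX0 k l
  have hdi0 : ∀ l, 0 ≤ din l := fun l => Finset.sum_nonneg fun k _ => hX0 k l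
  have hdo1 : ∀ k l, X k l = 1 → 1 ≤ dout k := by
    intro k l h
    rw [← h]
    exact Finset.single_le_sum (f := fun l => X k l) (fun l _ => hX0 k l) (Finset.mem_univ l)
  have hdi1 : ∀ k l, X k l = 1 → 1 ≤ din l := by
    intro k l h
    rw [← h]
    exact Finset.single_le_sum (f := fun k => X k l) (fun k _ => hX0 k l) (Finset.mem_univ k)
  obtain ⟨M, hM1, hM2, hM3, hM4⟩ := frac_matching (fun k l => X k l / max (dout k) (din l))
    (fun k l => div_nonneg (hX0 k l) (le_max_of_le_left (hdo0 k)))
    (by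
      intro k
      calc ∑ l, X k l / max (dout k) (din l) ≤ ∑ l, X k l / dout k := by
            refine Finset.sum_le_sum fun l _ => ?_
            rcases hX k l with h | h
            · rw [h]; simp
            · have := hdo1 k l h
              rw [h]
              exact one_div_le_one_div_of_le (by linarith) (le_max_left _ _)
        _ = dout k / dout k := by rw [← Finset.sum_div]
        _ ≤ 1 := div_self_le_one _)
    (by
      intro l
      calc ∑ k, X k l / max (dout k) (din l) ≤ ∑ k, X k l / din l := by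
            refine Finset.sum_le_sum fun k _ => ?_
            rcases hX k l with h | h
            · rw [h]; simp
            · have := hdi1 k l h
              rw [h]
              exact one_div_le_one_div_of_le (by linarith) (le_max_right _ _)
        _ = din l / din l := by rw [← Finset.sum_div]
        _ ≤ 1 := div_self_le_one _)
  refine ⟨M, ?_, hM2, hM3, le_trans ?_ hM4⟩
  · intro e he
    rcases hX e.1 e.2 with h | h
    · have := hM1 e he
      rw [h] at this
      simp at this
    · exact h
  · have key : ∀ k l, X k l * (1 / μ) - (1 / μ ^ 2) * (X k l * max (dout k - μ) 0 +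
        X k l * max (din l - μ) 0) ≤ X k l / max (dout k) (din l) := by
      intro k l
      rcases hX k l with h | h
      · rw [h]; simp
      · rw [h]
        have h1 := hdo1 k l h
        set m := max (dout k) (din l) with hm
        have hm0 : 0 < m := lt_of_lt_of_le (by linarith) (le_max_left _ _)
        have hmle : m ≤ μ + max (dout k - μ) 0 + max (din l - μ) 0 := by
          rw [hm]
          refine max_le ?_ ?_
          · have := le_max_left (dout k - μ) 0
            have := le_max_right (din l - μ) 0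
            linarith
          · have := le_max_left (din l - μ) 0
            have := le_max_right (dout k - μ) 0
            linarith
        have h2 : 2 / μ - m / μ ^ 2 ≤ 1 / m := by
          have : 1 / m - (2 / μ - m / μ ^ 2) = (m - μ) ^ 2 / (m * μ ^ 2) := by
            field_simp
            ring
          have h3 : 0 ≤ (m - μ) ^ 2 / (m * μ ^ 2) := by positivity
          linarith
        have h4 : m / μ ^ 2 ≤ (μ + max (dout k - μ) 0 + max (din l - μ) 0) / μ ^ 2 :=
          div_le_div_of_nonneg_right hmle (by positivity)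
        have h5 : (μ + max (dout k - μ) 0 + max (din l - μ) 0) / μ ^ 2 =
            1 / μ + (1 / μ ^ 2) * (max (dout k - μ) 0 + max (din l - μ) 0) := by
          field_simp
          ring
        have h6 : 2 / μ = 1 / μ + 1 / μ := by ring
        rw [one_mul, one_mul, one_mul]
        linarith
    have hsum := Finset.sum_le_sum fun k (_ : k ∈ (Finset.univ : Finset ι)) =>
      Finset.sum_le_sum fun l (_ : l ∈ (Finset.univ : Finset ι)) => key k l
    refine le_trans (le_of_eq ?_) hsum
    simp only [Finset.sum_sub_distrib, ← Finset.mul_sum, ← Finset.sum_mul,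
      Finset.sum_add_distrib]
    rw [Finset.sum_comm (f := fun k l => X k l * max (din l - μ) 0)]
    simp only [← Finset.sum_mul]
    ring

/-- indicator of consecutive colours -/
noncomputable def uu {χ : ℕ} (i j : Fin χ) : ℝ := if (j : ℕ) = i + 1 then 1 else 0

theorem sum_uu_right {χ : ℕ} (i : Fin χ) :
    ∑ j, uu i j = if (i : ℕ) + 1 < χ then (1 : ℝ) else 0 := by
  unfold uu
  split_ifs with h
  · rw [Finset.sum_eq_single (⟨i + 1, h⟩ : Fin χ)]
    · simp
    · intro j _ hj
      rw [if_neg]
      intro h'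
      exact hj (Fin.ext h')
    · simp
  · refine Finset.sum_eq_zero fun j _ => ?_
    rw [if_neg]
    have := j.isLt
    omega

theorem sum_uu_left {χ : ℕ} (j : Fin χ) :
    ∑ i, uu i j = if 1 ≤ (j : ℕ) then (1 : ℝ) else 0 := by
  unfold uu
  have hj := j.isLt
  split_ifs with h
  · rw [Finset.sum_eq_single (⟨j - 1, by omega⟩ : Fin χ)]
    · rw [if_pos]
      simp only
      omega
    · intro i _ hi
      rw [if_neg]
      intro h'
      apply hi
      apply Fin.ext
      simp only
      omega
    · simp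
  · refine Finset.sum_eq_zero fun i _ => ?_
    rw [if_neg]
    omega

theorem sum_cnt_right {χ : ℕ} (hχ : 1 ≤ χ) :
    ∑ i : Fin χ, (if (i : ℕ) + 1 < χ then (1 : ℝ) else 0) = χ - 1 := by
  obtain ⟨m, rfl⟩ : ∃ m, χ = m + 1 := ⟨χ - 1, by omega⟩
  rw [Fin.sum_univ_castSucc]
  simp

theorem sum_cnt_left {χ : ℕ} (hχ : 1 ≤ χ) :
    ∑ i : Fin χ, (if 1 ≤ (i : ℕ) then (1 : ℝ) else 0) = χ - 1 := by
  obtain ⟨m, rfl⟩ : ∃ m, χ = m + 1 := ⟨χ - 1, by omega⟩
  rw [Fin.sum_univ_succ]
  simp

section Sums
variable {ι : Type*} [Fintype ι] [DecidableEq ι] {χ : ℕ}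

theorem S2_eq (g : Fin χ × Bool → Fin χ × Bool → ι → ι → ℝ) (s : Fin χ → ℝ)
    (V : ι → ι → Bool → ℝ) (f : Bool → Bool) (hf : Function.Bijective f)
    (hs1 : ∑ i, s i = χ - 1)
    (hrow : ∀ x k l, ∑ y, g x y k l = if k = l then 0 else s x.1 * V k l (f x.2)) :
    ∑ k, ∑ l, ∑ x, ∑ y, g x y k l =
      (χ - 1) * ∑ k, ∑ l, (if k = l then 0 else ∑ b, V k l b) := by
  rw [Finset.mul_sum]
  refine Finset.sum_congr rfl fun k _ => ?_
  rw [Finset.mul_sum]
  refine Finset.sum_congr rfl fun l _ => ?_
  simp only [hrow]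
  by_cases hkl : k = l
  · simp [hkl]
  simp only [hkl, if_false]
  rw [Fintype.sum_prod_type]
  simp only [← Finset.mul_sum]
  rw [← Finset.sum_mul, hs1]
  congr 1
  exact hf.sum_comp (fun b => V k l b)

theorem S3_eq (g : Fin χ × Bool → Fin χ × Bool → ι → ι → ℝ) (s : Fin χ → ℝ)
    (V : ι → ι → Bool → ℝ) (f : Bool → Bool) (hf : Function.Bijective f)
    (hs : ∀ i, s i * s i = s i) (hs1 : ∑ i, s i = χ - 1)
    (hrow : ∀ x k l, ∑ y, g x y k l = if k = l then 0 else s x.1 * V k l (f x.2)) :
    ∑ k, ∑ l, ∑ m, (if l = m then 0 else ∑ x, ∑ y, ∑ z, g x y k l * g x z k m) =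
      (χ - 1) * ∑ k, ∑ l, ∑ m, (if k = l ∨ k = m ∨ l = m then 0
        else ∑ b, V k l b * V k m b) := by
  rw [Finset.mul_sum]
  refine Finset.sum_congr rfl fun k _ => ?_
  rw [Finset.mul_sum]
  refine Finset.sum_congr rfl fun l _ => ?_
  rw [Finset.mul_sum]
  refine Finset.sum_congr rfl fun m _ => ?_
  by_cases hlm : l = m
  · simp [hlm]
  simp only [hlm, if_false]
  simp only [← Finset.sum_mul_sum, hrow]
  by_cases hkl : k = l
  · simp [hkl]
  by_cases hkm : k = m
  · simp [hkm]
  simp only [hkl, hkm, or_self, if_false]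
  rw [Fintype.sum_prod_type]
  have : ∀ i : Fin χ, ∀ b : Bool, s i * V k l (f b) * (s i * V k m (f b)) =
      s i * (V k l (f b) * V k m (f b)) := by
    intro i b
    rw [← hs i]
    rw [hs i]
    calc s i * V k l (f b) * (s i * V k m (f b)) =
        (s i * s i) * (V k l (f b) * V k m (f b)) := by ring
      _ = s i * (V k l (f b) * V k m (f b)) := by rw [hs i]
  simp only [this, ← Finset.mul_sum]
  rw [← Finset.sum_mul, hs1]
  congr 1
  exact hf.sum_comp (fun b => V k l b * V k m b)

end Sums

end Pool.Agent.TSPd97
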