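import Pool.Agent.TSPd97.T5Aux

/-!
MP_076557_pr (TSP constant in high dimension; project of helper97): package T5 (helper7),
main theorem `colour_join`.
-/

set_option autoImplicit false

namespace Pool.Agent.TSPd97

theorem exists_labelling {n : ℕ} {ι : Type*} [Fintype ι] [DecidableEq ι]
    (ν : Fin n → Fin n → ℝ) (hν : ∀ a b, ν a b = 0 ∨ ν a b = 1) (hνs : ∀ a b, ν a b = ν b a)
    (e : ι → Bool → Fin n) (χ : ℕ) (hχ : 2 ≤ χ) (μ θ : ℝ) (hμ : 0 < μ) (hθ : 0 < θ)
    (n2 n3 K : ℝ) (hK : K = Fintype.card ι)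
    (hn2 : n2 = ∑ k, ∑ l, (if k = l then 0 else ∑ b, ∑ b', ν (e k b) (e l b')))
    (hn3 : n3 = ∑ k, ∑ l, ∑ m, (if k = l ∨ k = m ∨ l = m then 0
        else ∑ b, (∑ b', ν (e k b) (e l b')) * (∑ b', ν (e k b) (e m b')))) :
    ∃ (c : ι → Fin χ × Bool) (M : Finset (ι × ι)),
      (∀ p ∈ M, ((c p.2).1 : ℕ) = (c p.1).1 + 1 ∧
        ν (e p.1 (!(c p.1).2)) (e p.2 (c p.2).2) = 1) ∧
      (∀ p ∈ M, ∀ q ∈ M, p.1 = q.1 → p = q) ∧ (∀ p ∈ M, ∀ q ∈ M, p.2 = q.2 → p = q) ∧
      (((χ : ℝ) - 1) / χ) * (n2 / (4 * χ * μ) - (2 / μ ^ 2) * ((1 + μ / (2 * θ)) *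
        (n2 / (4 * χ) + n3 / (8 * (χ : ℝ) ^ 2) - μ * n2 / (2 * χ) + μ ^ 2 * K) + μ * θ * K / 2))
      ≤ M.card := by
  have : Nonempty (Fin χ × Bool) := ⟨(⟨0, by omega⟩, true)⟩
  have hχ0 : (0 : ℝ) < χ := by
    have : 0 < χ := by omega
    exact_mod_cast this
  have hcardL : (Fintype.card (Fin χ × Bool) : ℝ) = 2 * χ := by
    simp [Fintype.card_prod, mul_comm]
  set V : ι → ι → Bool → ℝ := fun k l b => ∑ b', ν (e k b) (e l b') with hV
  -- the two graphs
  set g : Fin χ × Bool → Fin χ × Bool → ι → ι → ℝ := fun x y k l =>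
    if k = l then 0 else uu x.1 y.1 * ν (e k (!x.2)) (e l y.2) with hg
  set g' : Fin χ × Bool → Fin χ × Bool → ι → ι → ℝ := fun x y k l => g y x l k with hg'
  have huu : ∀ i j : Fin χ, uu i j = 0 ∨ uu i j = 1 := by
    intro i j; unfold uu; split_ifs <;> simp
  have hg01 : ∀ x y k l, g x y k l = 0 ∨ g x y k l = 1 := by
    intro x y k l
    simp only [hg]
    split_ifs
    · exact Or.inl rfl
    · rcases huu x.1 y.1 with h | h <;> rcases hν (e k (!x.2)) (e l y.2) with h' | h' <;>
        rw [h, h'] <;> simp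
  have hgkk : ∀ x y k, g x y k k = 0 := by intro x y k; simp [hg]
  set s : Fin χ → ℝ := fun i => if (i : ℕ) + 1 < χ then 1 else 0 with hs
  set s' : Fin χ → ℝ := fun i => if 1 ≤ (i : ℕ) then 1 else 0 with hs'
  have hrow : ∀ x k l, ∑ y, g x y k l = if k = l then 0 else s x.1 * V k l (!x.2) := by
    intro x k l
    by_cases hkl : k = l
    · simp [hg, hkl]
    simp only [hg, hkl, if_false]
    rw [Fintype.sum_prod_type]
    simp only [← Finset.mul_sum]
    rw [← Finset.sum_mul, sum_uu_right]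
  have hrow' : ∀ x k l, ∑ y, g' x y k l = if k = l then 0 else s' x.1 * V k l x.2 := by
    intro x k l
    by_cases hkl : k = l
    · simp [hg, hg', hkl]
    have hlk : ¬ l = k := fun h => hkl h.symm
    simp only [hg, hg', hkl, hlk, if_false]
    rw [Fintype.sum_prod_type]
    simp only [← Finset.mul_sum]
    rw [← Finset.sum_mul, sum_uu_left]
    congr 1
    simp only [hV]
    rw [← (show Function.Bijective not from Bool.involutive_not.bijective).sum_comp
      (fun b' => ν (e k x.2) (e l b'))]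
    exact Finset.sum_congr rfl fun b _ => hνs _ _
  have hs1 : ∑ i, s i = (χ : ℝ) - 1 := sum_cnt_right (by omega)
  have hs1' : ∑ i, s' i = (χ : ℝ) - 1 := sum_cnt_left (by omega)
  have hss : ∀ i, s i * s i = s i := by intro i; simp only [hs]; split_ifs <;> simp
  have hss' : ∀ i, s' i * s' i = s' i := by intro i; simp only [hs']; split_ifs <;> simp
  have hS2 := S2_eq g s V not Bool.involutive_not.bijective hs1 hrow
  have hS3 := S3_eq g s V not Bool.involutive_not.bijective hss hs1 hrow
  have hS2' := S2_eq g' s' V id Function.bijective_id hs1' hrow'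
  have hS3' := S3_eq g' s' V id Function.bijective_id hss' hs1' hrow'
  have hn2V : ∑ k, ∑ l, (if k = l then 0 else ∑ b, V k l b) = n2 := by rw [hn2]
  have hn3V : ∑ k, ∑ l, ∑ m, (if k = l ∨ k = m ∨ l = m then 0
        else ∑ b, V k l b * V k m b) = n3 := by rw [hn3]
  rw [hn2V] at hS2 hS2'
  rw [hn3V] at hS3 hS3'
  have hsumA : ∀ t : Fin χ → ℝ, ∑ i, t i = (χ : ℝ) - 1 →
      ∑ x : Fin χ × Bool, t x.1 = 2 * (χ - 1) := by
    intro t ht
    rw [Fintype.sum_prod_type]
    simp only [Fintype.sum_bool, Finset.sum_add_distrib, ht]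
    ring
  have hD := deg_bound g (fun x => s x.1) hg01 hgkk
    (by intro x; simp only [hs]; split_ifs <;> simp)
    (by
      intro x y k l h
      simp only [hs] at h
      have hx : ¬ ((x.1 : ℕ) + 1 < χ) := by
        intro h'; rw [if_pos h'] at h; exact one_ne_zero h
      have hu : uu x.1 y.1 = 0 := by
        unfold uu
        rw [if_neg]
        have := y.1.isLt
        omega
      simp [hg, hu]) μ θ hμ hθ _ _ _ hS2.symm hS3.symm (hsumA s hs1).symm
  have hD' := deg_bound g' (fun x => s' x.1) (fun x y k l => hg01 y x l k)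
    (fun x y k => hgkk y x k)
    (by intro x; simp only [hs']; split_ifs <;> simp)
    (by
      intro x y k l h
      simp only [hs'] at h
      have hx : ¬ (1 ≤ (x.1 : ℕ)) := by
        intro h'; rw [if_pos h'] at h; exact one_ne_zero h
      have hu : uu y.1 x.1 = 0 := by
        unfold uu
        rw [if_neg]
        omega
      simp [hg, hg', hu]) μ θ hμ hθ _ _ _ hS2'.symm hS3'.symm (hsumA s' hs1').symm
  have hE : avg (fun c : ι → Fin χ × Bool => ∑ k, ∑ l, g (c k) (c l) k l) =
      ((χ - 1) * n2) / (Fintype.card (Fin χ × Bool) : ℝ) ^ 2 := by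
    rw [← hS2, avg_sum, Finset.sum_div]
    refine Finset.sum_congr rfl fun k _ => ?_
    rw [avg_sum, Finset.sum_div]
    refine Finset.sum_congr rfl fun l _ => ?_
    by_cases hkl : k = l
    · subst hkl
      simp [hgkk, avg]
    · exact avg_two hkl (fun x y => g x y k l)
  set W : (ι → Fin χ × Bool) → ℝ := fun c =>
    (1 / μ) * ∑ k, ∑ l, g (c k) (c l) k l - (1 / μ ^ 2) *
        (∑ k, (∑ l, g (c k) (c l) k l) * max ((∑ l, g (c k) (c l) k l) - μ) 0 +
          ∑ l, (∑ k, g (c k) (c l) k l) * max ((∑ k, g (c k) (c l) k l) - μ) 0) with hW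
  obtain ⟨c, hc⟩ := exists_avg_le W
  obtain ⟨M, hM1, hM2, hM3, hM4⟩ := matching_of_graph (fun k l => g (c k) (c l) k l)
    (fun k l => hg01 _ _ _ _) μ hμ
  refine ⟨c, M, ?_, hM2, hM3, le_trans ?_ (hc.trans hM4)⟩
  · intro p hp
    have h1 := hM1 p hp
    simp only [hg] at h1
    split_ifs at h1 with h2
    · exact absurd h1 (by norm_num)
    rcases huu (c p.1).1 (c p.2).1 with h | h
    · rw [h] at h1; norm_num at h1
    · rw [h, one_mul] at h1
      refine ⟨?_, h1⟩
      unfold uu at h
      by_contra hne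
      rw [if_neg hne] at h
      exact zero_ne_one h
  · have hWavg : avg W = (1 / μ) * avg (fun c : ι → Fin χ × Bool => ∑ k, ∑ l, g (c k) (c l) k l) -
        (1 / μ ^ 2) * (avg (fun c : ι → Fin χ × Bool => ∑ k, (∑ l, g (c k) (c l) k l) *
          max ((∑ l, g (c k) (c l) k l) - μ) 0) +
          avg (fun c : ι → Fin χ × Bool => ∑ k, (∑ l, g' (c k) (c l) k l) *
          max ((∑ l, g' (c k) (c l) k l) - μ) 0)) := by
      rw [hW, avg_sub, avg_mul, avg_mul, avg_add]
    rw [hWavg, hE]
    have hμ2 : 0 < 1 / μ ^ 2 := by positivity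
    have h1 := mul_le_mul_of_nonneg_left (add_le_add hD hD') hμ2.le
    rw [hcardL] at h1 ⊢
    rw [← hK] at h1
    have h3 : (χ : ℝ) ≠ 0 := hχ0.ne'
    have h4 : μ ≠ 0 := hμ.ne'
    have h5 : θ ≠ 0 := hθ.ne'
    refine le_trans (le_of_eq ?_) (sub_le_sub_left h1 _)
    field_simp
    ring

open Classical in
theorem flatten_eq_sum {A ι : Type*} (Q : ι → List A) (l : List ι) :
    ((((l.map Q).filter (fun p => p ≠ [])).flatten : List A) : Multiset A) =
      (l.map fun i => (Q i : Multiset A)).sum := by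
  induction l with
  | nil => simp
  | cons a l ih =>
    rw [List.map_cons, List.map_cons, List.sum_cons, ← ih]
    by_cases h : Q a = []
    · rw [List.filter_cons_of_neg (by simp [h]), h]
      simp
    · rw [List.filter_cons_of_pos (by simp [h]), List.flatten_cons, ← Multiset.coe_add]

open Classical in
theorem chain_eq_sum {A ι : Type*} (w : A → A → ℝ) (Q : ι → List A) (l : List ι) :
    (((l.map Q).filter (fun p => p ≠ [])).map (chainSum w)).sum =
      (l.map fun i => chainSum w (Q i)).sum := by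
  induction l with
  | nil => simp
  | cons a l ih =>
    rw [List.map_cons, List.map_cons, List.sum_cons, ← ih]
    by_cases h : Q a = []
    · rw [List.filter_cons_of_neg (by simp [h]), h]
      simp [chainSum]
    · rw [List.filter_cons_of_pos (by simp [h]), List.map_cons, List.sum_cons]

open Classical in
theorem length_eq_sum {A ι : Type*} (Q : ι → List A) (l : List ι) :
    ((l.map Q).filter (fun p => p ≠ [])).length =
      (l.map fun i => if Q i ≠ [] then 1 else 0).sum := by
  induction l with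
  | nil => simp
  | cons a l ih =>
    rw [List.map_cons, List.map_cons, List.sum_cons, ← ih]
    by_cases h : Q a = []
    · rw [List.filter_cons_of_neg (by simp [h])]
      simp [h]
    · rw [List.filter_cons_of_pos (by simp [h]), List.length_cons]
      simp [h, add_comm]

theorem coe_flatten_sum {A : Type*} (P : List (List A)) :
    (P.map (fun p : List A => (p : Multiset A))).sum = (P.flatten : Multiset A) := by
  induction P with
  | nil => simp
  | cons a l ih => rw [List.map_cons, List.sum_cons, ih, List.flatten_cons, Multiset.coe_add]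

/-- endpoint of the path `P[k]`: head for `false`, last for `true` -/
def ept {A : Type*} (P : List (List A)) (hne : ∀ p ∈ P, p ≠ []) (k : Fin P.length) (b : Bool) : A :=
  if b then (P.get k).getLast (hne _ (List.get_mem P k)) else
    (P.get k).head (hne _ (List.get_mem P k))

theorem ept_mem {A : Type*} (P : List (List A)) (hne : ∀ p ∈ P, p ≠ []) (k : Fin P.length)
    (b : Bool) : ept P hne k b ∈ P.get k := by
  unfold ept
  split_ifs
  · exact List.getLast_mem _
  · exact List.head_mem _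

theorem map_sum_get {A : Type*} {B : Type*} [AddCommMonoid B] (P : List A) (F : A → B) :
    (P.map F).sum = ∑ k : Fin P.length, F (P.get k) := by
  conv_lhs => rw [← List.ofFn_get P]
  rw [List.map_ofFn, List.sum_ofFn]
  rfl

theorem endSum_eq {A : Type*} (P : List (List A)) (hne : ∀ p ∈ P, p ≠ []) (φ : A → ℝ)
    (k : Fin P.length) : endSum φ (P.get k) = ∑ b, φ (ept P hne k b) := by
  have h : ∀ (l : List A) (hl : l ≠ []), endSum φ l = φ (l.getLast hl) + φ (l.head hl) := by
    intro l hl
    cases l with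
    | nil => exact absurd rfl hl
    | cons a l => simp only [endSum, List.head_cons]; ring
  rw [Fintype.sum_bool]
  simp only [ept, if_true]
  exact h _ _

theorem ept_disjoint {A : Type*} (P : List (List A)) (hne : ∀ p ∈ P, p ≠ [])
    (hnd : P.flatten.Nodup) {k l : Fin P.length} (hkl : k ≠ l) (b b' : Bool) :
    ept P hne k b ≠ ept P hne l b' := by
  have h1 := (List.nodup_flatten.1 hnd).2
  rw [List.pairwise_iff_get] at h1
  intro h
  rcases lt_or_gt_of_ne hkl with h2 | h2
  · exact h1 k l h2 (ept_mem P hne k b) (h ▸ ept_mem P hne l b')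
  · exact h1 l k h2 (ept_mem P hne l b') (h ▸ ept_mem P hne k b)

open Classical in
theorem colour_join {n : ℕ} (P : List (List (Fin n))) (hne : ∀ p ∈ P, p ≠ [])
    (hnd : P.flatten.Nodup) (wt : Fin n → ℝ)
    (hwt : ∀ φ : Fin n → ℝ, (P.map (endSum φ)).sum = ∑ a, wt a * φ a)
    (near : Fin n → Fin n → Prop) (hns : ∀ a b, near a b → near b a) (hni : ∀ a, ¬ near a a)
    (w : Fin n → Fin n → ℝ) (hws : ∀ a b, w a b = w b a) (R : ℝ) (hR : 0 ≤ R)
    (hw : ∀ a b, near a b → w a b ≤ R)
    (χ : ℕ) (hχ : 2 ≤ χ) (μ θ : ℝ) (hμ : 0 < μ) (hθ : 0 < θ)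
    (N1 N2 N3 : ℝ) (hN1 : N1 = ∑ a, wt a)
    (hN2 : N2 = ∑ a, ∑ b, (if near a b then wt a * wt b else 0))
    (hN3 : N3 = ∑ a, ∑ b, ∑ c, (if near a b ∧ near a c ∧ b ≠ c then wt a * wt b * wt c else 0)) :
    ∃ P' : List (List (Fin n)), (∀ p ∈ P', p ≠ []) ∧ P'.flatten.Perm P.flatten ∧
      (P'.map (chainSum w)).sum
        ≤ (P.map (chainSum w)).sum + R * ((P.length : ℝ) - P'.length) ∧
      (P'.length : ℝ) ≤ P.length - (((χ : ℝ) - 1) / χ) * ((N2 - N1) / (4 * χ * μ)
        - (2 / μ ^ 2) * ((1 + μ / (2 * θ)) * (N2 / (4 * χ) + N3 / (8 * (χ : ℝ) ^ 2)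
              - μ * (N2 - N1) / (2 * χ) + μ ^ 2 * N1 / 2) + μ * θ * N1 / 4)) := by
  set K := P.length with hKdef
  set e : Fin P.length → Bool → Fin n := ept P hne with he
  set ν : Fin n → Fin n → ℝ := fun a b => if near a b then 1 else 0 with hνdef
  have hν01 : ∀ a b, ν a b = 0 ∨ ν a b = 1 := by
    intro a b; simp only [hνdef]; split_ifs <;> simp
  have hν0 : ∀ a b, 0 ≤ ν a b := by
    intro a b; rcases hν01 a b with h | h <;> rw [h]; norm_num
  have hνs : ∀ a b, ν a b = ν b a := by
    intro a b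
    simp only [hνdef]
    by_cases h : near a b
    · rw [if_pos h, if_pos (hns a b h)]
    · rw [if_neg h, if_neg (fun h' => h (hns b a h'))]
  -- ends
  have hends : ∀ φ : Fin n → ℝ, ∑ a, wt a * φ a = ∑ k, ∑ b, φ (e k b) := by
    intro φ
    rw [← hwt φ, map_sum_get]
    exact Finset.sum_congr rfl fun k _ => endSum_eq P hne φ k
  have hN1' : N1 = 2 * (P.length : ℝ) := by
    have := hends (fun _ => 1)
    simp only [mul_one] at this
    rw [hN1, this]
    simp [mul_comm]
  have hN2' : N2 = ∑ k, ∑ b, ∑ l, ∑ b', ν (e k b) (e l b') := by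
    rw [hN2, ← hends (fun a => ∑ l, ∑ b', ν a (e l b'))]
    refine Finset.sum_congr rfl fun a _ => ?_
    rw [← hends (fun b => ν a b), Finset.mul_sum]
    refine Finset.sum_congr rfl fun b _ => ?_
    simp only [hνdef]
    split_ifs <;> ring
  set τ : Fin n → Fin n → Fin n → ℝ := fun a b c => if near a b ∧ near a c ∧ b ≠ c then 1 else 0
    with hτ
  have hN3' : N3 = ∑ k, ∑ b, ∑ l, ∑ b', ∑ m, ∑ b'', τ (e k b) (e l b') (e m b'') := by
    rw [hN3, ← hends (fun a => ∑ l, ∑ b', ∑ m, ∑ b'', τ a (e l b') (e m b''))]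
    refine Finset.sum_congr rfl fun a _ => ?_
    rw [← hends (fun b => ∑ m, ∑ b'', τ a b (e m b'')), Finset.mul_sum]
    refine Finset.sum_congr rfl fun b _ => ?_
    rw [← hends (fun c => τ a b c), Finset.mul_sum, Finset.mul_sum]
    refine Finset.sum_congr rfl fun c _ => ?_
    simp only [hτ]
    split_ifs <;> ring
  set n2 : ℝ := ∑ k, ∑ l, (if k = l then 0 else ∑ b, ∑ b', ν (e k b) (e l b')) with hn2
  set n3 : ℝ := ∑ k, ∑ l, ∑ m, (if k = l ∨ k = m ∨ l = m then 0
        else ∑ b, (∑ b', ν (e k b) (e l b')) * (∑ b', ν (e k b) (e m b'))) with hn3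
  have hN2'' : N2 = ∑ k, ∑ l, ∑ b, ∑ b', ν (e k b) (e l b') := by
    rw [hN2']
    refine Finset.sum_congr rfl fun k _ => ?_
    rw [Finset.sum_comm]
  have hnn2 : ∀ k l, 0 ≤ ∑ b, ∑ b', ν (e k b) (e l b') := fun k l =>
    Finset.sum_nonneg fun b _ => Finset.sum_nonneg fun b' _ => hν0 _ _
  have hn2le : n2 ≤ N2 := by
    rw [hN2'', hn2]
    refine Finset.sum_le_sum fun k _ => Finset.sum_le_sum fun l _ => ?_
    split_ifs
    · exact hnn2 k l
    · exact le_refl _
  have hn2ge : N2 - N1 ≤ n2 := by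
    have h1 : N2 ≤ n2 + ∑ k : Fin P.length, ∑ l : Fin P.length, (if k = l then (2 : ℝ) else 0) := by
      rw [hN2'', hn2, ← Finset.sum_add_distrib]
      refine Finset.sum_le_sum fun k _ => ?_
      rw [← Finset.sum_add_distrib]
      refine Finset.sum_le_sum fun l _ => ?_
      by_cases hkl : k = l
      · subst hkl
        simp only [if_true, Fintype.sum_bool]
        have h2 : ∀ a, ν a a = 0 := by intro a; simp [hνdef, hni a]
        rw [h2, h2]
        rcases hν01 (e k true) (e k false) with h | h <;>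
          rcases hν01 (e k false) (e k true) with h' | h' <;> rw [h, h'] <;> norm_num
      · simp [hkl]
    have h2 : ∑ k : Fin P.length, ∑ l : Fin P.length, (if k = l then (2 : ℝ) else 0) = N1 := by
      rw [hN1']
      simp [mul_comm]
    linarith
  have hn3le : n3 ≤ N3 := by
    have h1 : N3 = ∑ k, ∑ l, ∑ m, ∑ b, ∑ b', ∑ b'', τ (e k b) (e l b') (e m b'') := by
      rw [hN3']
      refine Finset.sum_congr rfl fun k _ => ?_
      rw [Finset.sum_comm]
      refine Finset.sum_congr rfl fun l _ => ?_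
      rw [Finset.sum_comm (s := (Finset.univ : Finset (Fin P.length)))]
      refine Finset.sum_congr rfl fun b _ => ?_
      rw [Finset.sum_comm]
    rw [h1, hn3]
    refine Finset.sum_le_sum fun k _ => Finset.sum_le_sum fun l _ =>
      Finset.sum_le_sum fun m _ => ?_
    have h0 : 0 ≤ ∑ b, ∑ b', ∑ b'', τ (e k b) (e l b') (e m b'') := by
      refine Finset.sum_nonneg fun b _ => Finset.sum_nonneg fun b' _ =>
        Finset.sum_nonneg fun b'' _ => ?_
      simp only [hτ]
      split_ifs <;> norm_num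
    split_ifs with hd
    · exact h0
    · push Not at hd
      refine Finset.sum_le_sum fun b _ => ?_
      rw [Finset.sum_mul_sum]
      refine Finset.sum_le_sum fun b' _ => Finset.sum_le_sum fun b'' _ => ?_
      have hne' : e l b' ≠ e m b'' := ept_disjoint P hne hnd hd.2.2 b' b''
      simp only [hτ, hνdef]
      by_cases h2 : near (e k b) (e l b') <;> by_cases h3 : near (e k b) (e m b'') <;>
        simp [h2, h3, hne']
  obtain ⟨c, M, hM1, hM2, hM3, hM4⟩ := exists_labelling ν hν01 hνs e χ hχ μ θ hμ hθ n2 n3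
    (P.length : ℝ) (by simp) hn2 hn3
  -- oriented paths
  set Q : Fin P.length → List (Fin n) := fun k =>
    if (c k).2 then (P.get k).reverse else P.get k with hQ
  have hQne : ∀ k, Q k ≠ [] := by
    intro k
    simp only [hQ]
    split_ifs
    · simpa using hne _ (List.get_mem P k)
    · exact hne _ (List.get_mem P k)
  have hQhead : ∀ k, (Q k).head (hQne k) = e k (c k).2 := by
    intro k
    simp only [hQ, he, ept]
    split_ifs with h
    · simp
    · rfl
  have hQlast : ∀ k, (Q k).getLast (hQne k) = e k (!(c k).2) := by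
    intro k
    simp only [hQ, he, ept]
    by_cases h : (c k).2
    · simp [h]
    · simp [h]
  obtain ⟨Q', hQ1, hQ2, hQ3⟩ := merge (fun k => ((c k).1 : ℕ)) w R M.card M Q rfl
    (fun p hp => by
      have := (hM1 p hp).1
      omega) hM2 hM3
    (fun p hp => ⟨hQne _, hQne _, by
      rw [hQhead, hQlast]
      apply hw
      have h1 := (hM1 p hp).2
      simp only [hνdef] at h1
      by_contra h
      rw [if_neg h] at h1
      exact zero_ne_one h1⟩)
  have hlen : ((((List.finRange P.length).map Q').filter (fun p => p ≠ [])).length) + M.card =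
      P.length := by
    rw [length_eq_sum, ← Fin.sum_univ_def, ← Finset.card_filter, hQ2]
    rw [Finset.filter_true_of_mem (fun k _ => hQne k)]
    simp
  refine ⟨((List.finRange P.length).map Q').filter (fun p => p ≠ []), ?_, ?_, ?_, ?_⟩
  · intro p hp
    rw [List.mem_filter] at hp
    simpa using hp.2
  · rw [← Multiset.coe_eq_coe, flatten_eq_sum, ← Fin.sum_univ_def, hQ1]
    have h1 : ∀ k, (Q k : Multiset (Fin n)) = (P.get k : Multiset (Fin n)) := by
      intro k
      simp only [hQ]
      split_ifs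
      · exact Multiset.coe_reverse _
      · rfl
    simp only [h1]
    rw [← map_sum_get P (fun p : List (Fin n) => (p : Multiset (Fin n)))]
    exact coe_flatten_sum P
  · rw [chain_eq_sum, ← Fin.sum_univ_def, map_sum_get P (chainSum w)]
    have h1 : ∀ k, chainSum w (Q k) = chainSum w (P.get k) := by
      intro k
      simp only [hQ]
      split_ifs
      · exact chainSum_reverse w hws _
      · rfl
    simp only [h1] at hQ3
    have h2 : (P.length : ℝ) -
        ((((List.finRange P.length).map Q').filter (fun p => p ≠ [])).length : ℝ) = M.card := by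
      rw [eq_comm, eq_sub_iff_add_eq]
      have := hlen
      rw [← Nat.cast_add, add_comm, this]
    rw [h2]
    exact hQ3
  · have h2 : ((((List.finRange P.length).map Q').filter (fun p => p ≠ [])).length : ℝ) =
        P.length - M.card := by
      rw [eq_sub_iff_add_eq, ← Nat.cast_add, hlen]
    rw [h2]
    refine sub_le_sub_left (le_trans ?_ hM4) _
    have hχ0 : (0 : ℝ) < χ := by
      have : 0 < χ := by omega
      exact_mod_cast this
    have hχ1 : (0 : ℝ) ≤ ((χ : ℝ) - 1) / χ := by
      have : (2 : ℝ) ≤ χ := by exact_mod_cast hχ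
      apply div_nonneg <;> linarith
    refine mul_le_mul_of_nonneg_left ?_ hχ1
    have hP : (P.length : ℝ) = N1 / 2 := by rw [hN1']; ring
    rw [hP]
    have i1 : (N2 - N1) / (4 * χ * μ) ≤ n2 / (4 * χ * μ) :=
      div_le_div_of_nonneg_right hn2ge (by positivity)
    have i2 : n2 / (4 * χ) ≤ N2 / (4 * χ) := div_le_div_of_nonneg_right hn2le (by positivity)
    have i3 : n3 / (8 * (χ : ℝ) ^ 2) ≤ N3 / (8 * (χ : ℝ) ^ 2) :=
      div_le_div_of_nonneg_right hn3le (by positivity)
    have i4 : μ * (N2 - N1) / (2 * χ) ≤ μ * n2 / (2 * χ) :=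
      div_le_div_of_nonneg_right (mul_le_mul_of_nonneg_left hn2ge hμ.le) (by positivity)
    have i5 : 0 < 1 + μ / (2 * θ) := by positivity
    have i6 : n2 / (4 * χ) + n3 / (8 * (χ : ℝ) ^ 2) - μ * n2 / (2 * χ) + μ ^ 2 * (N1 / 2) ≤
        N2 / (4 * χ) + N3 / (8 * (χ : ℝ) ^ 2) - μ * (N2 - N1) / (2 * χ) + μ ^ 2 * N1 / 2 := by
      have : μ ^ 2 * (N1 / 2) = μ ^ 2 * N1 / 2 := by ring
      linarith
    have i7 := mul_le_mul_of_nonneg_left i6 i5.le
    have i8 : μ * θ * (N1 / 2) / 2 = μ * θ * N1 / 4 := by ring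
    rw [i8]
    have i9 : (0 : ℝ) ≤ 2 / μ ^ 2 := by positivity
    have i10 := mul_le_mul_of_nonneg_left (add_le_add_left i7 (μ * θ * N1 / 4)) i9
    linarith

end Pool.Agent.TSPd97
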