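import Mathlib

/-!
# Integrals of the logarithm against Gamma densities
-/

set_option autoImplicit false

open MeasureTheory Set Filter
open scoped Topology

namespace Pool.Agent.TSPd97

theorem abs_log_le' {x : ℝ} (hx : 0 < x) :
    |Real.log x| ≤ 4 * (x ^ (1 / 4 : ℝ) + x ^ (-(1 / 4) : ℝ)) := by
  have h1 := Real.log_le_rpow_div hx.le (show (0 : ℝ) < 1 / 4 by norm_num)
  have h2 := Real.log_le_rpow_div (inv_pos.2 hx).le (show (0 : ℝ) < 1 / 4 by norm_num)
  rw [Real.log_inv, Real.inv_rpow hx.le, ← Real.rpow_neg hx.le] at h2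
  have h3 : 0 < x ^ (1 / 4 : ℝ) := Real.rpow_pos_of_pos hx _
  have h4 : 0 < x ^ (-(1 / 4) : ℝ) := Real.rpow_pos_of_pos hx _
  rw [abs_le]
  constructor <;> linarith

theorem log_sq_le' {x : ℝ} (hx : 0 < x) :
    Real.log x ^ 2 ≤ 32 * (x ^ (1 / 2 : ℝ) + x ^ (-(1 / 2) : ℝ)) := by
  have h1 := abs_log_le' hx
  have h3 : 0 < x ^ (1 / 4 : ℝ) := Real.rpow_pos_of_pos hx _
  have h4 : 0 < x ^ (-(1 / 4) : ℝ) := Real.rpow_pos_of_pos hx _
  have e1 : x ^ (1 / 2 : ℝ) = x ^ (1 / 4 : ℝ) * x ^ (1 / 4 : ℝ) := by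
    rw [← Real.rpow_add hx]; norm_num
  have e2 : x ^ (-(1 / 2) : ℝ) = x ^ (-(1 / 4) : ℝ) * x ^ (-(1 / 4) : ℝ) := by
    rw [← Real.rpow_add hx]; norm_num
  rw [e1, e2, ← sq_abs]
  calc |Real.log x| ^ 2 ≤ (4 * (x ^ (1 / 4 : ℝ) + x ^ (-(1 / 4) : ℝ))) ^ 2 := by
        gcongr
    _ ≤ _ := by nlinarith [sq_nonneg (x ^ (1 / 4 : ℝ) - x ^ (-(1 / 4) : ℝ))]

theorem intOn_rpow {s : ℝ} (hs : -1 < s) :
    IntegrableOn (fun x : ℝ => x ^ s * Real.exp (-x)) (Ioi 0) := by
  have h := Real.GammaIntegral_convergent (s := s + 1) (by linarith)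
  refine h.congr_fun (fun x _ => ?_) measurableSet_Ioi
  simp only [add_sub_cancel_right]
  ring

theorem intOn_log (k : ℕ) :
    IntegrableOn (fun x : ℝ => Real.log x * x ^ k * Real.exp (-x)) (Ioi 0) := by
  have hk : (0 : ℝ) ≤ k := Nat.cast_nonneg k
  have h1 := intOn_rpow (s := k + 1 / 4) (by linarith)
  have h2 := intOn_rpow (s := k + -(1 / 4)) (by linarith)
  have h3 := (h1.add h2).const_mul 4
  refine Integrable.mono' h3 (by fun_prop) ?_
  rw [ae_restrict_iff' measurableSet_Ioi]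
  refine ae_of_all _ fun x hx => ?_
  have hx0 : 0 < x := hx
  rw [norm_mul, norm_mul, norm_pow, Real.norm_eq_abs, Real.norm_eq_abs, Real.norm_eq_abs,
    abs_of_pos hx0, abs_of_pos (Real.exp_pos _)]
  simp only [Pi.add_apply]
  rw [Real.rpow_add hx0, Real.rpow_add hx0, Real.rpow_natCast]
  calc |Real.log x| * x ^ k * Real.exp (-x)
      ≤ (4 * (x ^ (1 / 4 : ℝ) + x ^ (-(1 / 4) : ℝ))) * x ^ k * Real.exp (-x) := by
        gcongr
        exact abs_log_le' hx0
    _ = _ := by ring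

theorem intOn_log_sq (k : ℕ) :
    IntegrableOn (fun x : ℝ => Real.log x ^ 2 * x ^ k * Real.exp (-x)) (Ioi 0) := by
  have hk : (0 : ℝ) ≤ k := Nat.cast_nonneg k
  have h1 := intOn_rpow (s := k + 1 / 2) (by linarith)
  have h2 := intOn_rpow (s := k + -(1 / 2)) (by linarith)
  have h3 := (h1.add h2).const_mul 32
  refine Integrable.mono' h3 (by fun_prop) ?_
  rw [ae_restrict_iff' measurableSet_Ioi]
  refine ae_of_all _ fun x hx => ?_
  have hx0 : 0 < x := hx
  rw [Real.norm_eq_abs, abs_of_nonneg (by positivity)]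
  simp only [Pi.add_apply]
  rw [Real.rpow_add hx0, Real.rpow_add hx0, Real.rpow_natCast]
  calc Real.log x ^ 2 * x ^ k * Real.exp (-x)
      ≤ (32 * (x ^ (1 / 2 : ℝ) + x ^ (-(1 / 2) : ℝ))) * x ^ k * Real.exp (-x) := by
        gcongr
        exact log_sq_le' hx0
    _ = _ := by ring

theorem integral_log (k : ℕ) :
    ∫ x in Ioi (0 : ℝ), Real.log x * x ^ k * Real.exp (-x) =
      k.factorial * (-Real.eulerMascheroniConstant + harmonic k) := by
  have h1 := Complex.hasDerivAt_Gamma_nat k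
  have hs : (0 : ℝ) < ((k : ℂ) + 1).re := by
    simp only [Complex.add_re, Complex.natCast_re, Complex.one_re]
    positivity
  have h2 := Complex.hasDerivAt_GammaIntegral hs
  have h3 : Complex.Gamma =ᶠ[𝓝 ((k : ℂ) + 1)] Complex.GammaIntegral := by
    have : {s : ℂ | 0 < s.re} ∈ 𝓝 ((k : ℂ) + 1) :=
      (isOpen_lt continuous_const Complex.continuous_re).mem_nhds hs
    filter_upwards [this] with s hs using Complex.Gamma_eq_integral hs
  have h4 := (h1.congr_of_eventuallyEq h3.symm).unique h2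
  have h5 : ∫ t : ℝ in Ioi 0, (t : ℂ) ^ ((k : ℂ) + 1 - 1) * (Real.log t * Real.exp (-t)) =
      ((∫ x in Ioi (0 : ℝ), Real.log x * x ^ k * Real.exp (-x) : ℝ) : ℂ) := by
    rw [← integral_complex_ofReal]
    apply setIntegral_congr_fun measurableSet_Ioi
    intro x _
    simp only [add_sub_cancel_right, Complex.cpow_natCast]
    push_cast
    ring
  rw [h5] at h4
  have h6 : ((∫ x in Ioi (0 : ℝ), Real.log x * x ^ k * Real.exp (-x) : ℝ) : ℂ) =
      ((k.factorial * (-Real.eulerMascheroniConstant + harmonic k) : ℝ) : ℂ) := by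
    rw [← h4]
    push_cast
    ring
  exact_mod_cast h6

theorem gamma_integrals :
    IntegrableOn (fun x : ℝ => Real.log x * Real.exp (-x)) (Set.Ioi 0) ∧
    IntegrableOn (fun x : ℝ => Real.log x * x * Real.exp (-x)) (Set.Ioi 0) ∧
    IntegrableOn (fun x : ℝ => Real.log x * x ^ 2 * Real.exp (-x)) (Set.Ioi 0) ∧
    IntegrableOn (fun x : ℝ => Real.log x ^ 2 * Real.exp (-x)) (Set.Ioi 0) ∧
    IntegrableOn (fun x : ℝ => Real.log x ^ 2 * x * Real.exp (-x)) (Set.Ioi 0) ∧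
    IntegrableOn (fun x : ℝ => Real.log x ^ 2 * x ^ 2 * Real.exp (-x)) (Set.Ioi 0) ∧
    ∫ x in Set.Ioi (0 : ℝ), Real.log x * Real.exp (-x) = - Real.eulerMascheroniConstant ∧
    ∫ x in Set.Ioi (0 : ℝ), Real.log x * x * Real.exp (-x)
      = 1 - Real.eulerMascheroniConstant ∧
    ∫ x in Set.Ioi (0 : ℝ), Real.log x * x ^ 2 * Real.exp (-x)
      = 3 - 2 * Real.eulerMascheroniConstant := by
  have a0 := intOn_log 0
  have a1 := intOn_log 1
  have b0 := intOn_log_sq 0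
  have b1 := intOn_log_sq 1
  have c0 := integral_log 0
  have c1 := integral_log 1
  have c2 := integral_log 2
  simp only [pow_zero, mul_one, pow_one] at a0 a1 b0 b1 c0 c1
  refine ⟨a0, a1, intOn_log 2, b0, b1, intOn_log_sq 2, ?_, ?_, ?_⟩
  · rw [c0]; simp
  · rw [c1]; simp; ring
  · rw [c2]
    simp [harmonic, Finset.sum_range_succ]
    ring

end Pool.Agent.TSPd97
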