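import Pool.Agent.TSPd97.EucDefs
import Pool.Agent.TSPd97.T2Patch
import Pool.Agent.TSPd97.T4Cover
import Pool.Agent.TSPd97.T5Join

/-!
MP_076557_pr, package TUp: from a graph of maximum degree 2 to a tour.
-/

set_option autoImplicit false

open MeasureTheory Set Filter Topology
open scoped ENNReal

namespace Pool.Agent.TSPd97

namespace TUp

lemma endSum_one {A : Type*} (p : List A) (hp : p ≠ []) : endSum (fun _ => (1 : ℝ)) p = 2 := by
  cases p with
  | nil => exact absurd rfl hp
  | cons a l => simp only [endSum]; norm_num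

lemma sum_endSum_one {A : Type*} (P : List (List A)) (hP : ∀ p ∈ P, p ≠ []) :
    (P.map (endSum fun _ => (1 : ℝ))).sum = 2 * (P.length : ℝ) := by
  induction P with
  | nil => simp
  | cons p P ih =>
    rw [List.map_cons, List.sum_cons, ih fun q hq => hP q (List.mem_cons_of_mem _ hq),
      endSum_one p (hP p List.mem_cons_self), List.length_cons]
    push_cast
    ring

/-- number of cycles -/
lemma length_le {n : ℕ} (P : List (List (Fin n))) (hnd : P.flatten.Nodup) (mc : ℕ)
    (hmc : 1 ≤ mc) (Sh : Finset (Fin n))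
    (hP : ∀ p ∈ P, ∃ h : p ≠ [], p.length ≤ mc → p.head h ∈ Sh) :
    (P.length : ℝ) ≤ Sh.card + (n : ℝ) / mc := by
  classical
  -- induction with accumulated sets
  have key : ∀ (P : List (List (Fin n))), P.flatten.Nodup →
      (∀ p ∈ P, ∃ h : p ≠ [], p.length ≤ mc → p.head h ∈ Sh) →
      (P.length : ℝ) ≤ ((Sh.filter fun a => a ∈ P.flatten).card : ℝ)
        + (P.flatten.length : ℝ) / mc := by
    intro P
    induction P with
    | nil => intro _ _; simp
    | cons p P ih =>
      intro hnd hP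
      rw [List.flatten_cons] at hnd
      have hnd' := List.nodup_append.1 hnd
      have hih := ih hnd'.2.1 fun q hq => hP q (List.mem_cons_of_mem _ hq)
      obtain ⟨hp, hps⟩ := hP p List.mem_cons_self
      have hmc0 : (0 : ℝ) < mc := by exact_mod_cast hmc
      have hlen : (((p :: P).flatten.length : ℕ) : ℝ) / mc
          = (p.length : ℝ) / mc + (P.flatten.length : ℝ) / mc := by
        rw [List.flatten_cons, List.length_append]; push_cast; ring
      rw [hlen, List.length_cons]
      push_cast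
      have hmono : (Sh.filter fun a => a ∈ P.flatten) ⊆ (Sh.filter fun a => a ∈ (p :: P).flatten) := by
        intro a ha
        rw [Finset.mem_filter] at ha ⊢
        exact ⟨ha.1, by rw [List.flatten_cons]; exact List.mem_append_right _ ha.2⟩
      by_cases hl : p.length ≤ mc
      · have hhd := hps hl
        have hnot : p.head hp ∉ (Sh.filter fun a => a ∈ P.flatten) := by
          intro h
          rw [Finset.mem_filter] at h
          exact hnd'.2.2 _ (List.head_mem hp) _ h.2 rfl
        have hsub : insert (p.head hp) (Sh.filter fun a => a ∈ P.flatten)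
            ⊆ (Sh.filter fun a => a ∈ (p :: P).flatten) := by
          rw [Finset.insert_subset_iff]
          refine ⟨?_, hmono⟩
          rw [Finset.mem_filter]
          exact ⟨hhd, by rw [List.flatten_cons]; exact List.mem_append_left _ (List.head_mem hp)⟩
        have hc := Finset.card_le_card hsub
        rw [Finset.card_insert_of_notMem hnot] at hc
        have hc' : ((Sh.filter fun a => a ∈ P.flatten).card : ℝ) + 1
            ≤ ((Sh.filter fun a => a ∈ (p :: P).flatten).card : ℝ) := by exact_mod_cast hc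
        have : (0 : ℝ) ≤ (p.length : ℝ) / mc := by positivity
        linarith
      · have hc : ((Sh.filter fun a => a ∈ P.flatten).card : ℝ)
            ≤ ((Sh.filter fun a => a ∈ (p :: P).flatten).card : ℝ) := by
          exact_mod_cast Finset.card_le_card hmono
        have : (1 : ℝ) ≤ (p.length : ℝ) / mc := by
          rw [le_div_iff₀ hmc0, one_mul]
          exact_mod_cast (by omega : mc ≤ p.length)
        linarith
  have h1 := key P hnd hP
  have h2 : ((Sh.filter fun a => a ∈ P.flatten).card : ℝ) ≤ Sh.card := by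
    exact_mod_cast Finset.card_le_card (Finset.filter_subset _ _)
  have h3 : (P.flatten.length : ℝ) / mc ≤ (n : ℝ) / mc := by
    refine div_le_div_of_nonneg_right ?_ (by positivity)
    have := hnd.length_le_card
    rw [Fintype.card_fin] at this
    exact_mod_cast this
  linarith

end TUp

open Classical in
theorem tour_upper : ∃ C : ℝ, 0 < C ∧ ∀ d : ℕ, 2 ≤ d → ∀ n : ℕ, ∀ x : Fin n → Vd d,
    (∀ i, x i ∈ cube d) → ∀ F : Fin n → Fin n → Prop, (∀ a b, F a b → F b a) → (∀ a, ¬ F a a) →
    (∀ a, (Finset.univ.filter (F a)).card ≤ 2) →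
    ∀ near : Fin n → Fin n → Prop, (∀ a b, near a b → near b a) → (∀ a, ¬ near a a) →
    ∀ R : ℝ, 0 ≤ R → (∀ a b, near a b → dist (x a) (x b) ≤ R) →
    ∀ χ : ℕ, 2 ≤ χ → ∀ μ θ : ℝ, 0 < μ → 0 < θ → ∀ mc : ℕ, 1 ≤ mc →
    ∀ wt : Fin n → ℝ, (∀ a, wt a = 2 - ((Finset.univ.filter (F a)).card : ℝ)) →
    ∀ N1 N2 N3 : ℝ, N1 = ∑ a, wt a →
    N2 = ∑ a, ∑ b, (if near a b then wt a * wt b else 0) →
    N3 = ∑ a, ∑ b, ∑ c, (if near a b ∧ near a c ∧ b ≠ c then wt a * wt b * wt c else 0) →
    ∀ Z : ℝ, (((Finset.univ.filter (fun a : Fin n => ∃ l : List (Fin n), l.Nodup ∧ 3 ≤ l.length ∧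
      l.length ≤ mc ∧ l.IsChain F ∧ ∃ hl : l ≠ [], l.head hl = a ∧
        F (l.getLast hl) (l.head hl))).card : ℕ) : ℝ) ≤ Z →
    ∀ X : ℝ, X = N1 / 2 - (((χ : ℝ) - 1) / χ) * ((N2 - N1) / (4 * χ * μ)
        - (2 / μ ^ 2) * ((1 + μ / (2 * θ)) * (N2 / (4 * χ) + N3 / (8 * (χ : ℝ) ^ 2)
              - μ * (N2 - N1) / (2 * χ) + μ ^ 2 * N1 / 2) + μ * θ * N1 / 4))
          + Z + (n : ℝ) / mc →
    (0 ≤ X ∧ tsp x ≤ (1 / 2) * (∑ a, ∑ b, (if F a b then dist (x a) (x b) else 0)) + R * N1 / 2
      + C * Real.sqrt d * X ^ (((d : ℝ) - 1) / (d : ℝ)) + Real.sqrt d) ∧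
    (0 ≤ N1 ∧ tsp x ≤ (1 / 2) * (∑ a, ∑ b, (if F a b then dist (x a) (x b) else 0))
      + C * Real.sqrt d * (N1 / 2 + Z + (n : ℝ) / mc) ^ (((d : ℝ) - 1) / (d : ℝ))
      + Real.sqrt d) := by
  obtain ⟨C0, hC0⟩ := tsp_le_cover
  refine ⟨max C0 1, by positivity, ?_⟩
  intro d hd n x hx F hFs hFi hFd near hns hni R hR hRw χ hχ μ θ hμ hθ mc hmc wt hwt N1 N2 N3
    hN1 hN2 hN3 Z hZ X hX
  obtain ⟨P1, P2, hch, hperm, hcyc, hend, hcost⟩ := path_cycle_cover F hFs hFi hFd
  have hd1 : (1 : ℝ) ≤ d := by exact_mod_cast (by omega : 1 ≤ d)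
  have hex : (0 : ℝ) ≤ ((d : ℝ) - 1) / d := div_nonneg (by linarith) (by linarith)
  have hne1 : ∀ p ∈ P1, p ≠ [] := fun p hp => (hch p (List.mem_append_left _ hp)).1
  have hne2 : ∀ p ∈ P2, p ≠ [] := fun p hp => (hch p (List.mem_append_right _ hp)).1
  have hnd : (P1 ++ P2).flatten.Nodup := hperm.nodup_iff.2 (List.nodup_finRange n)
  rw [List.flatten_append] at hnd
  have hnd1 : P1.flatten.Nodup := (List.nodup_append.1 hnd).1
  have hnd2 : P2.flatten.Nodup := (List.nodup_append.1 hnd).2.1
  -- N1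
  have hwt' : ∀ φ : Fin n → ℝ, (P1.map (endSum φ)).sum = ∑ a, wt a * φ a := by
    intro φ
    rw [hend φ]
    exact Finset.sum_congr rfl fun a _ => by rw [hwt a]
  have hN1' : N1 = 2 * (P1.length : ℝ) := by
    have h1 := hwt' fun _ => 1
    rw [TUp.sum_endSum_one P1 hne1] at h1
    rw [hN1, h1]
    exact Finset.sum_congr rfl fun a _ => (mul_one _).symm
  -- number of cycles
  have hL2 : (P2.length : ℝ) ≤ Z + (n : ℝ) / mc := by
    refine le_trans (TUp.length_le P2 hnd2 mc hmc _ ?_) (add_le_add_left hZ _)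
    intro p hp
    refine ⟨hne2 p hp, fun hlen => ?_⟩
    rw [Finset.mem_filter]
    refine ⟨Finset.mem_univ _, p, ?_, (hcyc p hp).1, hlen, (hch p (List.mem_append_right _ hp)).2,
      hne2 p hp, rfl, (hcyc p hp).2 _⟩
    exact (List.nodup_flatten.1 hnd2).1 p hp
  have hw0 : ∀ a b : Fin n, 0 ≤ dist (x a) (x b) := fun _ _ => dist_nonneg
  have hws : ∀ a b : Fin n, dist (x a) (x b) = dist (x b) (x a) := fun _ _ => dist_comm _ _
  have hcost' := hcost (fun a b => dist (x a) (x b)) hw0 hws
  -- the patching bound with the larger constant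
  have hpatch : ∀ P : List (List (Fin n)), (∀ p ∈ P, p ≠ []) →
      P.flatten.Perm (List.finRange n) → ∀ Y : ℝ, (P.length : ℝ) ≤ Y →
      tsp x ≤ (P.map (chainSum fun a b => dist (x a) (x b))).sum
        + max C0 1 * Real.sqrt d * Y ^ (((d : ℝ) - 1) / (d : ℝ)) + Real.sqrt d := by
    intro P hP1 hP2 Y hY
    have h1 := hC0 d hd n x hx P hP1 hP2
    have h2 : C0 * Real.sqrt d * (P.length : ℝ) ^ (((d : ℝ) - 1) / (d : ℝ))
        ≤ max C0 1 * Real.sqrt d * Y ^ (((d : ℝ) - 1) / (d : ℝ)) := by
      refine mul_le_mul (mul_le_mul_of_nonneg_right (le_max_left _ _) (Real.sqrt_nonneg _))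
        (Real.rpow_le_rpow (by positivity) hY hex) (by positivity) (by positivity)
    have h3 : (P.map (plen x)).sum = (P.map (chainSum fun a b => dist (x a) (x b))).sum := rfl
    linarith
  constructor
  · obtain ⟨P', hP'ne, hP'perm, hP'cost, hP'len⟩ := colour_join P1 hne1 hnd1 wt hwt' near hns hni
      (fun a b => dist (x a) (x b)) hws R hR hRw χ hχ μ θ hμ hθ N1 N2 N3 hN1 hN2 hN3
    have hlenX : ((P' ++ P2).length : ℝ) ≤ X := by
      rw [List.length_append, hX]
      push_cast
      have : N1 / 2 = (P1.length : ℝ) := by rw [hN1']; ring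
      rw [this]
      linarith
    refine ⟨le_trans (by positivity) hlenX, ?_⟩
    have h1 := hpatch (P' ++ P2) (by
        intro p hp
        rcases List.mem_append.1 hp with h | h
        · exact hP'ne p h
        · exact hne2 p h) (by
        rw [List.flatten_append]
        refine (hP'perm.append_right _).trans ?_
        rw [← List.flatten_append]
        exact hperm) X hlenX
    rw [List.map_append, List.sum_append] at h1
    rw [List.map_append, List.sum_append] at hcost'
    have h2 : R * ((P1.length : ℝ) - P'.length) ≤ R * N1 / 2 := by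
      rw [hN1']
      have : 0 ≤ R * (P'.length : ℝ) := by positivity
      nlinarith
    linarith
  · refine ⟨by rw [hN1']; positivity, ?_⟩
    have hlen : ((P1 ++ P2).length : ℝ) ≤ N1 / 2 + Z + (n : ℝ) / mc := by
      rw [List.length_append, hN1']
      push_cast
      linarith
    have h1 := hpatch (P1 ++ P2) (fun p hp => (hch p hp).1) hperm _ hlen
    linarith

end Pool.Agent.TSPd97
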