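import Pool.Agent.TSPd97.TreeAa
import Pool.Agent.TSPd97.T6Gamma

/-!
MP_076557_pr, package TAb: mean values of the order statistics (`os_means`, `os_log_means`).
-/

set_option autoImplicit false

open MeasureTheory Set Filter
open scoped ENNReal Topology

namespace Pool.Agent.TSPd97

/-! ### the Gamma density -/

/-- density of the `(i+1)`-st point of a Poisson process of rate `r` -/
noncomputable def gdens (r : ℝ) (i : ℕ) (x : ℝ) : ℝ :=
  r * ((r * x) ^ i / (i.factorial : ℝ)) * Real.exp (-(r * x))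

/-- tail of the `(i+1)`-st point -/
noncomputable def gtail (r : ℝ) (i : ℕ) (x : ℝ) : ℝ :=
  Real.exp (-(r * x)) * ∑ l ∈ Finset.range (i + 1), (r * x) ^ l / (l.factorial : ℝ)

lemma gdens_nonneg {r : ℝ} (hr : 0 < r) (i : ℕ) {x : ℝ} (hx : 0 ≤ x) : 0 ≤ gdens r i x := by
  unfold gdens
  have : 0 ≤ r * x := mul_nonneg hr.le hx
  positivity

lemma continuous_gdens (r : ℝ) (i : ℕ) : Continuous (gdens r i) := by
  unfold gdens
  fun_prop

lemma gtail_succ (r : ℝ) (i : ℕ) (x : ℝ) :
    gtail r (i + 1) x = gtail r i x +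
      Real.exp (-(r * x)) * ((r * x) ^ (i + 1) / ((i + 1).factorial : ℝ)) := by
  unfold gtail
  rw [Finset.sum_range_succ _ (i + 1), mul_add]

lemma hasDerivAt_gtail (r : ℝ) (i : ℕ) (x : ℝ) :
    HasDerivAt (gtail r i) (-gdens r i x) x := by
  induction i with
  | zero =>
    have h1 : HasDerivAt (gtail r 0) (Real.exp (-(r * x)) * (-r)) x := by
      have h2 : gtail r 0 = fun x => Real.exp (-(r * x)) := by
        funext y
        simp [gtail]
      rw [h2]
      exact hd_exp_neg r x
    refine h1.congr_deriv ?_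
    simp only [gdens, pow_zero, Nat.factorial_zero, Nat.cast_one]
    ring
  | succ i ih =>
    have h2 : gtail r (i + 1) = fun x => gtail r i x +
      Real.exp (-(r * x)) * ((r * x) ^ (i + 1) / ((i + 1).factorial : ℝ)) := by
      funext y
      exact gtail_succ r i y
    rw [h2]
    have h3 : HasDerivAt (fun x => (r * x) ^ (i + 1) / ((i + 1).factorial : ℝ))
        (((i + 1 : ℕ) : ℝ) * (r * x) ^ (i + 1 - 1) * r / ((i + 1).factorial : ℝ)) x :=
      ((hd_lin r x).pow (i + 1)).div_const _
    refine (ih.add ((hd_exp_neg r x).mul h3)).congr_deriv ?_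
    unfold gdens
    rw [Nat.factorial_succ]
    push_cast
    have h4 : (i.factorial : ℝ) ≠ 0 := by positivity
    have h5 : ((i : ℝ) + 1) ≠ 0 := by positivity
    field_simp
    ring

lemma tendsto_gtail {r : ℝ} (hr : 0 < r) (i : ℕ) : Tendsto (gtail r i) atTop (𝓝 0) := by
  have hlin : Tendsto (fun x : ℝ => r * x) atTop atTop := tendsto_id.const_mul_atTop hr
  have h : Tendsto (fun x => ∑ l ∈ Finset.range (i + 1),
      ((r * x) ^ l * Real.exp (-(r * x))) * (1 / (l.factorial : ℝ))) atTop
      (𝓝 (∑ l ∈ Finset.range (i + 1), 0 * (1 / (l.factorial : ℝ)))) := by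
    refine tendsto_finsetSum _ (fun l _ => ?_)
    exact ((Real.tendsto_pow_mul_exp_neg_atTop_nhds_zero l).comp hlin).mul_const _
  simp only [zero_mul, Finset.sum_const_zero] at h
  refine h.congr (fun x => ?_)
  unfold gtail
  rw [Finset.mul_sum]
  refine Finset.sum_congr rfl (fun l _ => ?_)
  ring

lemma gdens_integrableOn {r : ℝ} (hr : 0 < r) (i : ℕ) {t : ℝ} (ht : 0 ≤ t) :
    IntegrableOn (gdens r i) (Ioi t) := by
  have h := integrableOn_Ioi_deriv_of_nonneg' (g := fun x => -gtail r i x) (g' := gdens r i)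
    (a := t) (l := -0) (fun x _ => ((hasDerivAt_gtail r i x).neg).congr_deriv (neg_neg _))
    (fun x hx => gdens_nonneg hr i (ht.trans (le_of_lt hx))) (tendsto_gtail hr i).neg
  exact h

lemma gdens_integral {r : ℝ} (hr : 0 < r) (i : ℕ) {t : ℝ} (ht : 0 ≤ t) :
    ∫ x in Ioi t, gdens r i x = gtail r i t := by
  have h := integral_Ioi_of_hasDerivAt_of_nonneg' (g := fun x => -gtail r i x) (g' := gdens r i)
    (a := t) (l := -0) (fun x _ => ((hasDerivAt_gtail r i x).neg).congr_deriv (neg_neg _))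
    (fun x hx => gdens_nonneg hr i (ht.trans (le_of_lt hx))) (tendsto_gtail hr i).neg
  rw [h]
  simp

/-- law of the `(i+1)`-st point of a Poisson process of rate `r` on the half line -/
noncomputable def gm (r : ℝ) (i : ℕ) : Measure ℝ :=
  (volume.restrict (Ioi 0)).withDensity fun x => ENNReal.ofReal (gdens r i x)

lemma gm_Ioi {r : ℝ} (hr : 0 < r) (i : ℕ) {t : ℝ} (ht : 0 ≤ t) :
    gm r i (Ioi t) = ENNReal.ofReal (gtail r i t) := by
  unfold gm
  rw [withDensity_apply _ measurableSet_Ioi, Measure.restrict_restrict measurableSet_Ioi,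
    inter_eq_self_of_subset_left (Ioi_subset_Ioi ht), ← gdens_integral hr i ht]
  rw [ofReal_integral_eq_lintegral_ofReal (gdens_integrableOn hr i ht)]
  filter_upwards [ae_restrict_mem measurableSet_Ioi] with x hx
  exact gdens_nonneg hr i (ht.trans (le_of_lt hx))

lemma gtail_zero (r : ℝ) (i : ℕ) : gtail r i 0 = 1 := by
  unfold gtail
  rw [Finset.sum_range_succ']
  simp

lemma gm_compl (r : ℝ) (i : ℕ) : gm r i (Iic 0) = 0 := by
  unfold gm
  rw [withDensity_apply _ measurableSet_Iic, Measure.restrict_restrict measurableSet_Iic]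
  have : Iic (0 : ℝ) ∩ Ioi 0 = ∅ := by
    ext x
    simp
  rw [this]
  simp

lemma gm_prob {r : ℝ} (hr : 0 < r) (i : ℕ) : IsProbabilityMeasure (gm r i) := by
  constructor
  have h1 : (univ : Set ℝ) = Iic 0 ∪ Ioi 0 := Iic_union_Ioi.symm
  refine le_antisymm ?_ ?_
  · rw [h1]
    refine (measure_union_le _ _).trans ?_
    rw [gm_compl, gm_Ioi hr i le_rfl, gtail_zero]
    simp
  · calc (1 : ℝ≥0∞) = gm r i (Ioi 0) := by rw [gm_Ioi hr i le_rfl, gtail_zero]; simp
      _ ≤ gm r i univ := measure_mono (subset_univ _)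

/-- the law of an order statistic: `min B X` with `X` Gamma distributed -/
lemma os_law {r B : ℝ} (hr : 0 < r) (hB : 0 < B) (i : ℕ) :
    (PP (ENNReal.ofReal r • (volume.restrict (Ioo 0 B)))).map (os i B)
      = (gm r i).map (fun x => min B x) := by
  have hp := gm_prob hr i
  have hmin : Measurable fun x : ℝ => min B x := measurable_const.min measurable_id
  have hP1 : IsProbabilityMeasure
      ((PP (ENNReal.ofReal r • (volume.restrict (Ioo 0 B)))).map (os i B)) :=
    Measure.isProbabilityMeasure_map (measurable_os i B).aemeasurable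
  have hP2 : IsProbabilityMeasure ((gm r i).map (fun x => min B x)) :=
    Measure.isProbabilityMeasure_map hmin.aemeasurable
  have hIoi : ∀ t : ℝ, (PP (ENNReal.ofReal r • (volume.restrict (Ioo 0 B)))).map (os i B) (Ioi t)
      = (gm r i).map (fun x => min B x) (Ioi t) := by
    intro t
    rw [Measure.map_apply (measurable_os i B) measurableSet_Ioi,
      Measure.map_apply hmin measurableSet_Ioi]
    rcases lt_or_ge t B with htB | htB
    · rcases lt_or_ge t 0 with ht0 | ht0
      · have e1 : PP (ENNReal.ofReal r • (volume.restrict (Ioo 0 B))) (os i B ⁻¹' Ioi t) = 1 := by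
          rw [← mem_ae_iff_prob_eq_one ((measurable_os i B) measurableSet_Ioi)]
          filter_upwards [rate_forall_pos r B] with s hs
          exact ht0.trans (os_pos hB hs)
        have e2 : gm r i ((fun x => min B x) ⁻¹' Ioi t) = 1 := by
          rw [← mem_ae_iff_prob_eq_one (hmin measurableSet_Ioi)]
          have : ∀ᵐ x ∂(gm r i), 0 < x := by
            rw [ae_iff]
            have h3 : {a : ℝ | ¬ 0 < a} = Iic 0 := by
              ext x; simp
            rw [h3, gm_compl]
          filter_upwards [this] with x hx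
          exact lt_min htB (ht0.trans hx)
        rw [e1, e2]
      · have e1 : os i B ⁻¹' Ioi t = {s | t < os i B s} := rfl
        have e2 : (fun x : ℝ => min B x) ⁻¹' Ioi t = Ioi t := by
          ext x
          simp [htB]
        rw [e1, e2, os_tail' r B hr i t ht0 htB, gm_Ioi hr i ht0]
        rfl
    · have e1 : os i B ⁻¹' Ioi t = ∅ := by
        ext s
        simp only [mem_preimage, mem_Ioi, mem_empty_iff_false, iff_false, not_lt]
        exact (os_le _ _ _).trans htB
      have e2 : (fun x : ℝ => min B x) ⁻¹' Ioi t = ∅ := by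
        ext x
        simp only [mem_preimage, mem_Ioi, mem_empty_iff_false, iff_false, not_lt]
        exact (min_le_left _ _).trans htB
      rw [e1, e2]
      simp
  refine Measure.ext_of_Iic _ _ (fun t => ?_)
  rw [← compl_Ioi, prob_compl_eq_one_sub measurableSet_Ioi,
    prob_compl_eq_one_sub measurableSet_Ioi, hIoi t]

/-- expectations of functions of an order statistic -/
lemma integral_os_law {r B : ℝ} (hr : 0 < r) (hB : 0 < B) (i : ℕ) {f : ℝ → ℝ}
    (hf : Measurable f) :
    ∫ s, f (os i B s) ∂(PP (ENNReal.ofReal r • (volume.restrict (Ioo 0 B))))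
      = ∫ x in Ioi (0 : ℝ), gdens r i x * f (min B x) := by
  have hmin : Measurable fun x : ℝ => min B x := measurable_const.min measurable_id
  rw [← integral_map (φ := os i B) (f := f) (measurable_os i B).aemeasurable
    hf.aestronglyMeasurable, os_law hr hB i,
    integral_map hmin.aemeasurable hf.aestronglyMeasurable]
  unfold gm
  rw [integral_withDensity_eq_integral_toReal_smul
    (continuous_gdens r i).measurable.ennreal_ofReal (by simp)]
  refine setIntegral_congr_fun measurableSet_Ioi (fun x hx => ?_)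
  simp only [smul_eq_mul]
  rw [ENNReal.toReal_ofReal (gdens_nonneg hr i (le_of_lt hx))]

/-! ### Gamma integrals -/

lemma gdens_scale (r : ℝ) (i : ℕ) (F : ℝ → ℝ) :
    (fun x => gdens r i x * F (r * x))
      = fun x => r * (fun y => (y ^ i / (i.factorial : ℝ) * Real.exp (-y)) * F y) (r * x) := by
  funext x
  unfold gdens
  ring

lemma integrableOn_gdens_scale {r : ℝ} (hr : 0 < r) (i : ℕ) {F : ℝ → ℝ}
    (hF : IntegrableOn (fun y => (y ^ i / (i.factorial : ℝ) * Real.exp (-y)) * F y) (Ioi 0)) :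
    IntegrableOn (fun x => gdens r i x * F (r * x)) (Ioi 0) := by
  rw [gdens_scale]
  refine Integrable.const_mul ?_ r
  have h := (integrableOn_Ioi_comp_mul_left_iff
    (fun y => (y ^ i / (i.factorial : ℝ) * Real.exp (-y)) * F y) 0 hr).mpr (by simpa using hF)
  exact h

lemma integral_gdens_scale {r : ℝ} (hr : 0 < r) (i : ℕ) (F : ℝ → ℝ) :
    ∫ x in Ioi (0 : ℝ), gdens r i x * F (r * x)
      = ∫ y in Ioi (0 : ℝ), (y ^ i / (i.factorial : ℝ) * Real.exp (-y)) * F y := by
  rw [gdens_scale, integral_const_mul,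
    integral_comp_mul_left_Ioi (fun y => (y ^ i / (i.factorial : ℝ) * Real.exp (-y)) * F y) 0 hr]
  rw [mul_zero, smul_eq_mul, ← mul_assoc, mul_inv_cancel₀ hr.ne', one_mul]

lemma intOn_pow_exp (n : ℕ) : IntegrableOn (fun y : ℝ => y ^ n * Real.exp (-y)) (Ioi 0) := by
  have h := intOn_rpow (s := (n : ℝ)) (by
    have : (0 : ℝ) ≤ n := Nat.cast_nonneg n
    linarith)
  simpa only [Real.rpow_natCast] using h

lemma integral_pow_exp (n : ℕ) :
    ∫ y in Ioi (0 : ℝ), y ^ n * Real.exp (-y) = (n.factorial : ℝ) := by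
  rw [← Real.Gamma_nat_eq_factorial, Real.Gamma_eq_integral (by positivity)]
  refine setIntegral_congr_fun measurableSet_Ioi (fun x _ => ?_)
  simp only [add_sub_cancel_right, Real.rpow_natCast]
  ring

lemma intOn_congr {f g : ℝ → ℝ} (h : Integrable f (volume.restrict (Ioi 0)))
    (hfg : ∀ x, 0 < x → f x = g x) : IntegrableOn g (Ioi 0) :=
  IntegrableOn.congr_fun (f := f) h (fun x hx => hfg x hx) measurableSet_Ioi

/-- the logarithm against the Gamma density -/
lemma gdens_log_integrable {r : ℝ} (hr : 0 < r) (i : ℕ) :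
    IntegrableOn (fun x => gdens r i x * Real.log x) (Ioi 0) := by
  have h1 : IntegrableOn (fun y : ℝ => (y ^ i / (i.factorial : ℝ) * Real.exp (-y)) *
      (Real.log y - Real.log r)) (Ioi 0) := by
    have h2 := ((intOn_log i).const_mul (1 / (i.factorial : ℝ))).sub
      ((intOn_pow_exp i).const_mul (Real.log r / (i.factorial : ℝ)))
    refine intOn_congr h2 (fun y _ => ?_)
    simp only [Pi.sub_apply]
    ring
  refine (integrableOn_gdens_scale hr i h1).congr_fun (fun x hx => ?_) measurableSet_Ioi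
  have hx0 : (0 : ℝ) < x := hx
  simp only
  rw [Real.log_mul hr.ne' hx0.ne', add_sub_cancel_left]

lemma gdens_log_integral {r : ℝ} (hr : 0 < r) (i : ℕ) :
    ∫ x in Ioi (0 : ℝ), gdens r i x * Real.log x
      = (∫ y in Ioi (0 : ℝ), Real.log y * y ^ i * Real.exp (-y)) / (i.factorial : ℝ)
        - Real.log r := by
  have e1 : ∫ x in Ioi (0 : ℝ), gdens r i x * Real.log x
      = ∫ x in Ioi (0 : ℝ), gdens r i x * (fun y => Real.log y - Real.log r) (r * x) := by
    refine setIntegral_congr_fun measurableSet_Ioi (fun x hx => ?_)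
    have hx0 : (0 : ℝ) < x := hx
    simp only
    rw [Real.log_mul hr.ne' hx0.ne', add_sub_cancel_left]
  rw [e1, integral_gdens_scale hr i (fun y => Real.log y - Real.log r)]
  have e2 : ∫ y in Ioi (0 : ℝ), (y ^ i / (i.factorial : ℝ) * Real.exp (-y)) *
      (Real.log y - Real.log r)
      = ∫ y in Ioi (0 : ℝ), ((1 / (i.factorial : ℝ)) * (Real.log y * y ^ i * Real.exp (-y))
        - (Real.log r / (i.factorial : ℝ)) * (y ^ i * Real.exp (-y))) := by
    refine setIntegral_congr_fun measurableSet_Ioi (fun y _ => ?_)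
    ring
  rw [e2, integral_sub ((intOn_log i).const_mul _) ((intOn_pow_exp i).const_mul _),
    integral_const_mul, integral_const_mul, integral_pow_exp]
  have h4 : (i.factorial : ℝ) ≠ 0 := by positivity
  field_simp

/-- second moment of the Gamma density -/
lemma gdens_sq_integrable {r : ℝ} (hr : 0 < r) (i : ℕ) :
    IntegrableOn (fun x => gdens r i x * x ^ 2) (Ioi 0) := by
  have h1 : IntegrableOn (fun y : ℝ => (y ^ i / (i.factorial : ℝ) * Real.exp (-y)) *
      (y ^ 2 / r ^ 2)) (Ioi 0) := by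
    have h2 := (intOn_pow_exp (i + 2)).const_mul (1 / ((i.factorial : ℝ) * r ^ 2))
    refine intOn_congr h2 (fun y _ => ?_)
    have : r ≠ 0 := hr.ne'
    field_simp
    ring
  refine (integrableOn_gdens_scale hr i h1).congr_fun (fun x _ => ?_) measurableSet_Ioi
  simp only
  have : r ≠ 0 := hr.ne'
  field_simp

lemma gdens_sq_integral {r : ℝ} (hr : 0 < r) (i : ℕ) :
    ∫ x in Ioi (0 : ℝ), gdens r i x * x ^ 2
      = ((i + 2).factorial : ℝ) / ((i.factorial : ℝ) * r ^ 2) := by
  have hr' : r ≠ 0 := hr.ne'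
  have e1 : ∫ x in Ioi (0 : ℝ), gdens r i x * x ^ 2
      = ∫ x in Ioi (0 : ℝ), gdens r i x * (fun y => y ^ 2 / r ^ 2) (r * x) := by
    refine setIntegral_congr_fun measurableSet_Ioi (fun x _ => ?_)
    simp only
    field_simp
  rw [e1, integral_gdens_scale hr i (fun y => y ^ 2 / r ^ 2)]
  have e2 : ∫ y in Ioi (0 : ℝ), (y ^ i / (i.factorial : ℝ) * Real.exp (-y)) * (y ^ 2 / r ^ 2)
      = ∫ y in Ioi (0 : ℝ), (1 / ((i.factorial : ℝ) * r ^ 2)) * (y ^ (i + 2) * Real.exp (-y)) := by
    refine setIntegral_congr_fun measurableSet_Ioi (fun y _ => ?_)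
    field_simp
    ring
  rw [e2, integral_const_mul, integral_pow_exp]
  ring

/-- `x log x` against the Gamma density of index `1` -/
lemma gdens_xlog_integrable {r : ℝ} (hr : 0 < r) :
    IntegrableOn (fun x => gdens r 1 x * (x * Real.log x)) (Ioi 0) := by
  have hr' : r ≠ 0 := hr.ne'
  have h1 : IntegrableOn (fun y : ℝ => (y ^ 1 / ((1 : ℕ).factorial : ℝ) * Real.exp (-y)) *
      (y / r * (Real.log y - Real.log r))) (Ioi 0) := by
    have h2 := ((intOn_log 2).const_mul (1 / r)).sub
      ((intOn_pow_exp 2).const_mul (Real.log r / r))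
    refine intOn_congr h2 (fun y _ => ?_)
    simp only [Pi.sub_apply, Nat.factorial_one, Nat.cast_one, pow_one, div_one]
    field_simp
  refine (integrableOn_gdens_scale hr 1 h1).congr_fun (fun x hx => ?_) measurableSet_Ioi
  have hx0 : (0 : ℝ) < x := hx
  simp only
  rw [Real.log_mul hr.ne' hx0.ne', add_sub_cancel_left, mul_div_cancel_left₀ _ hr']

lemma gdens_xlog_integral {r : ℝ} (hr : 0 < r) :
    ∫ x in Ioi (0 : ℝ), gdens r 1 x * (x * Real.log x)
      = (3 - 2 * Real.eulerMascheroniConstant - 2 * Real.log r) / r := by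
  have hr' : r ≠ 0 := hr.ne'
  have e1 : ∫ x in Ioi (0 : ℝ), gdens r 1 x * (x * Real.log x)
      = ∫ x in Ioi (0 : ℝ), gdens r 1 x *
        (fun y => y / r * (Real.log y - Real.log r)) (r * x) := by
    refine setIntegral_congr_fun measurableSet_Ioi (fun x hx => ?_)
    have hx0 : (0 : ℝ) < x := hx
    simp only
    rw [Real.log_mul hr.ne' hx0.ne', add_sub_cancel_left, mul_div_cancel_left₀ _ hr']
  rw [e1, integral_gdens_scale hr 1 (fun y => y / r * (Real.log y - Real.log r))]
  have e2 : ∫ y in Ioi (0 : ℝ), (y ^ 1 / ((1 : ℕ).factorial : ℝ) * Real.exp (-y)) *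
      (y / r * (Real.log y - Real.log r))
      = ∫ y in Ioi (0 : ℝ), ((1 / r) * (Real.log y * y ^ 2 * Real.exp (-y))
        - (Real.log r / r) * (y ^ 2 * Real.exp (-y))) := by
    refine setIntegral_congr_fun measurableSet_Ioi (fun y _ => ?_)
    simp only [Nat.factorial_one, Nat.cast_one, pow_one, div_one]
    field_simp
  have h2 := integral_pow_exp 2
  have h3 := (gamma_integrals).2.2.2.2.2.2.2.2
  rw [e2, integral_sub ((intOn_log 2).const_mul _) ((intOn_pow_exp 2).const_mul _),
    integral_const_mul, integral_const_mul, h2, h3]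
  simp only [Nat.factorial]
  push_cast
  field_simp

/-! ### the mean values -/

lemma measurable_xlogx : Measurable fun x : ℝ => x * Real.log x :=
  measurable_id.mul Real.measurable_log

lemma abs_xlogx_le {B y : ℝ} (hB : 1 ≤ B) (hy0 : 0 < y) (hyB : y ≤ B) :
    |y * Real.log y| ≤ B * B + 1 := by
  rw [abs_le]
  constructor
  · have h1 : 1 - y⁻¹ ≤ Real.log y := Real.one_sub_inv_le_log_of_pos hy0
    have h2 : y * (1 - y⁻¹) ≤ y * Real.log y := mul_le_mul_of_nonneg_left h1 hy0.le
    have h3 : y * (1 - y⁻¹) = y - 1 := by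
      field_simp
    nlinarith
  · have h1 : Real.log y ≤ B := (Real.log_le_self hy0.le).trans hyB
    have h2 : y * Real.log y ≤ y * B := mul_le_mul_of_nonneg_left h1 hy0.le
    nlinarith

lemma xlogx_min_le {B x : ℝ} (hB : 1 ≤ B) :
    min B x * Real.log (min B x) ≤ x * Real.log x := by
  rcases le_total x B with h | h
  · rw [min_eq_right h]
  · rw [min_eq_left h]
    have hB0 : 0 < B := by linarith
    have hl : Real.log B ≤ Real.log x := Real.log_le_log hB0 h
    have hl0 : 0 ≤ Real.log B := Real.log_nonneg hB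
    nlinarith

/-- TA4: mean values for a weight `g` of mean `m` (applies to `g w = w j` and `g = wbar`) -/
theorem os_means (p : Par) (h : ℕ) (g : (ℕ → ℝ) → ℝ) (hg : Measurable g)
    (hpos : ∀ᵐ w ∂(mu p h), 0 < g w ∧ g w ≤ p.B) (hm : ∫ w, g w ∂(mu p h) = p.m) :
    (∫ ξ, os 1 p.B (ξ.map fun q => q.1 / g q.2) ∂(nb p h) = p.m) ∧
    (∫ ξ, os 0 p.B (ξ.map fun q => q.1 / g q.2) ∂(nb p h) ≤ 1 / p.m) ∧
    (∫ ξ, os 2 p.B (ξ.map fun q => q.1 / g q.2) ∂(nb p h) ≤ 3 / p.m) ∧
    (∫ ξ, os 1 p.B (ξ.map fun q => q.1 / g q.2)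
        * Real.log (os 1 p.B (ξ.map fun q => q.1 / g q.2)) ∂(nb p h)
      ≤ (3 - 2 * Real.eulerMascheroniConstant - 2 * Real.log p.m) / p.m) := by
  have hm0 := p.m_pos
  have hB0 := p.B_pos
  refine ⟨integral_os_one_nb p h g hg hpos hm, ?_, ?_, ?_⟩
  · rw [integral_os_nb p h g hg hpos hm (f := os 0 p.B) (measurable_os 0 p.B)
      (fun s => os_restr 0 p.B s), integral_os_zero p.m p.B hm0 hB0]
    have := Real.exp_pos (-(p.m * p.B))
    gcongr
    linarith
  · rw [integral_os_nb p h g hg hpos hm (f := os 2 p.B) (measurable_os 2 p.B)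
      (fun s => os_restr 2 p.B s), integral_os_two p.m p.B hm0 hB0]
    have h1 : 0 ≤ ((p.m * p.B) ^ 2 / 2 + 2 * (p.m * p.B) + 3) * Real.exp (-(p.m * p.B)) := by
      have := mul_pos hm0 hB0
      positivity
    gcongr
    linarith
  · have hf : Measurable fun s : Multiset ℝ => os 1 p.B s * Real.log (os 1 p.B s) :=
      measurable_xlogx.comp (measurable_os 1 p.B)
    rw [integral_os_nb p h g hg hpos hm
      (f := fun s => os 1 p.B s * Real.log (os 1 p.B s)) hf
      (fun s => by simp only [os_restr]),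
      integral_os_law hm0 hB0 1 (f := fun x => x * Real.log x) measurable_xlogx,
      ← gdens_xlog_integral hm0]
    have hB1 : 1 ≤ p.B := by linarith [p.eight_le_B]
    have hmin : Measurable fun x : ℝ => min p.B x := measurable_const.min measurable_id
    refine setIntegral_mono_on ?_ (gdens_xlog_integrable hm0) measurableSet_Ioi (fun x hx => ?_)
    · refine Integrable.mul_bdd (c := p.B * p.B + 1) (gdens_integrableOn hm0 1 le_rfl)
        (measurable_xlogx.comp hmin).aestronglyMeasurable ?_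
      filter_upwards [ae_restrict_mem measurableSet_Ioi] with x hx
      exact abs_xlogx_le hB1 (lt_min hB0 hx) (min_le_left _ _)
    · exact mul_le_mul_of_nonneg_left (xlogx_min_le hB1) (gdens_nonneg hm0 1 (le_of_lt hx))

lemma log_clamp_ge {B δ x : ℝ} (hB : 0 < B) (hx : 0 < x) :
    Real.log x - x ^ 2 / B ^ 2 ≤ Real.log (max δ (min B x)) := by
  have hmin : 0 < min B x := lt_min hB hx
  have h1 : Real.log (min B x) ≤ Real.log (max δ (min B x)) :=
    Real.log_le_log hmin (le_max_right _ _)
  refine le_trans ?_ h1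
  rcases le_total x B with h | h
  · rw [min_eq_right h]
    have : 0 ≤ x ^ 2 / B ^ 2 := by positivity
    linarith
  · rw [min_eq_left h]
    have hu : 1 ≤ x / B := by rw [le_div_iff₀ hB]; linarith
    have h2 : Real.log (x / B) ≤ x / B := Real.log_le_self (by positivity)
    have h3 : x / B ≤ (x / B) ^ 2 := by nlinarith
    rw [Real.log_div hx.ne' hB.ne'] at h2
    rw [← div_pow]
    linarith

lemma integral_log_clamp_ge {r B δ : ℝ} (hr : 0 < r) (hB : 1 ≤ B) (hδ : 0 < δ) (hδ1 : δ ≤ 1)
    (i : ℕ) :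
    (∫ y in Ioi (0 : ℝ), Real.log y * y ^ i * Real.exp (-y)) / (i.factorial : ℝ)
        - Real.log r - (((i + 2).factorial : ℝ) / ((i.factorial : ℝ) * r ^ 2)) / B ^ 2
      ≤ ∫ x in Ioi (0 : ℝ), gdens r i x * Real.log (max δ (min B x)) := by
  have hB0 : 0 < B := by linarith
  have hmin : Measurable fun x : ℝ => max δ (min B x) :=
    measurable_const.max (measurable_const.min measurable_id)
  rw [← gdens_log_integral hr i, ← gdens_sq_integral hr i, ← integral_div,
    ← integral_sub (gdens_log_integrable hr i) ((gdens_sq_integrable hr i).div_const _)]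
  refine setIntegral_mono_on ((gdens_log_integrable hr i).sub
    ((gdens_sq_integrable hr i).div_const _)) ?_ measurableSet_Ioi (fun x hx => ?_)
  · refine Integrable.mul_bdd (c := |Real.log δ| + |Real.log B|)
      (gdens_integrableOn hr i le_rfl)
      (Real.measurable_log.comp hmin).aestronglyMeasurable ?_
    filter_upwards with x
    have h1 : δ ≤ max δ (min B x) := le_max_left _ _
    have h2 : max δ (min B x) ≤ B := max_le (hδ1.trans hB) (min_le_left _ _)
    have h3 : Real.log δ ≤ Real.log (max δ (min B x)) := Real.log_le_log hδ h1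
    have h4 : Real.log (max δ (min B x)) ≤ Real.log B :=
      Real.log_le_log (lt_of_lt_of_le hδ h1) h2
    rw [Real.norm_eq_abs, abs_le]
    constructor
    · have := neg_abs_le (Real.log δ)
      have := abs_nonneg (Real.log B)
      linarith
    · have := le_abs_self (Real.log B)
      have := abs_nonneg (Real.log δ)
      linarith
  · have h1 := mul_le_mul_of_nonneg_left (log_clamp_ge (δ := δ) hB0 hx)
      (gdens_nonneg hr i (le_of_lt hx))
    calc gdens r i x * Real.log x - gdens r i x * x ^ 2 / B ^ 2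
        = gdens r i x * (Real.log x - x ^ 2 / B ^ 2) := by ring
      _ ≤ _ := h1

/-- the clamped logarithm of an order statistic is integrable -/
lemma integrable_log_os {Ω : Type*} [MeasurableSpace Ω] (P : Measure Ω) [IsFiniteMeasure P]
    (i : ℕ) {B δ : ℝ} (hB : 1 ≤ B) (hδ : 0 < δ) (hδ1 : δ ≤ 1) {s : Ω → Multiset ℝ}
    (hs : Measurable s) : Integrable (fun ω => Real.log (max δ (os i B (s ω)))) P := by
  refine Integrable.of_bound (Real.measurable_log.comp
    (measurable_const.max ((measurable_os i B).comp hs))).aestronglyMeasurable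
    (|Real.log δ| + |Real.log B|) ?_
  filter_upwards with ω
  have h1 : δ ≤ max δ (os i B (s ω)) := le_max_left _ _
  have h2 : max δ (os i B (s ω)) ≤ B := max_le (hδ1.trans hB) (os_le _ _ _)
  have h3 : Real.log δ ≤ Real.log (max δ (os i B (s ω))) := Real.log_le_log hδ h1
  have h4 : Real.log (max δ (os i B (s ω))) ≤ Real.log B :=
    Real.log_le_log (lt_of_lt_of_le hδ h1) h2
  rw [Real.norm_eq_abs, abs_le]
  constructor
  · have := neg_abs_le (Real.log δ)
    have := abs_nonneg (Real.log B)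
    linarith
  · have := le_abs_self (Real.log B)
    have := abs_nonneg (Real.log δ)
    linarith

/-- TA5: logarithmic means -/
theorem os_log_means : ∃ C : ℝ, 0 < C ∧ ∀ (p : Par) (h : ℕ) (g : (ℕ → ℝ) → ℝ), Measurable g →
    (∀ᵐ w ∂(mu p h), 0 < g w ∧ g w ≤ p.B) → (∫ w, g w ∂(mu p h) = p.m) →
    ∀ δ : ℝ, 0 < δ → δ ≤ 1 →
    5 / 2 - 2 * Real.eulerMascheroniConstant - 2 * Real.log p.m - C / (p.k : ℝ) ^ 2
      ≤ ∫ ξ, (Real.log (max δ (os 1 p.B (ξ.map fun q => q.1 / g q.2)))
          + Real.log (max δ (os 2 p.B (ξ.map fun q => q.1 / g q.2)))) ∂(nb p h) := by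
  refine ⟨18, by norm_num, ?_⟩
  intro p h g hg hpos hm δ hδ hδ1
  have hm0 := p.m_pos
  have hB0 := p.B_pos
  have hB1 : 1 ≤ p.B := by linarith [p.eight_le_B]
  have hk8 : (8 : ℝ) ≤ p.k := by exact_mod_cast p.hk
  have hk0 : (0 : ℝ) < p.k := by linarith
  have hmap : Measurable fun ξ : Multiset (ℝ × (ℕ → ℝ)) => ξ.map fun q => q.1 / g q.2 :=
    measurable_map_multiset (measurable_div_weight hg)
  rw [integral_add (integrable_log_os (nb p h) 1 hB1 hδ hδ1 hmap)
    (integrable_log_os (nb p h) 2 hB1 hδ hδ1 hmap)]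
  have hf : Measurable fun x : ℝ => Real.log (max δ x) :=
    Real.measurable_log.comp (measurable_const.max measurable_id)
  have e : ∀ i : ℕ, ∫ ξ, Real.log (max δ (os i p.B (ξ.map fun q => q.1 / g q.2))) ∂(nb p h)
      = ∫ x in Ioi (0 : ℝ), gdens p.m i x * Real.log (max δ (min p.B x)) := by
    intro i
    rw [integral_os_nb p h g hg hpos hm
      (f := fun s => Real.log (max δ (os i p.B s))) (hf.comp (measurable_os i p.B))
      (fun s => by simp only [os_restr])]
    exact integral_os_law hm0 hB0 i (f := fun x => Real.log (max δ x)) hf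
  rw [e 1, e 2]
  have h1 := integral_log_clamp_ge (B := p.B) hm0 hB1 hδ hδ1 1
  have h2 := integral_log_clamp_ge (B := p.B) hm0 hB1 hδ hδ1 2
  have g1 := gamma_integrals.2.2.2.2.2.2.2.1
  have g2 := gamma_integrals.2.2.2.2.2.2.2.2
  simp only [pow_one] at h1
  rw [g1] at h1
  rw [g2] at h2
  simp only [Nat.factorial] at h1 h2
  push_cast at h1 h2
  have hBk : (p.k : ℝ) ≤ p.B := p.hkB
  have hm1 := p.hm1
  have key : 6 / p.m ^ 2 / p.B ^ 2 + 6 * (2 / p.m ^ 2) / p.B ^ 2 ≤ 18 / (p.k : ℝ) ^ 2 := by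
    have e1 : 6 / p.m ^ 2 / p.B ^ 2 + 6 * (2 / p.m ^ 2) / p.B ^ 2
        = 18 / (p.m ^ 2 * p.B ^ 2) := by
      field_simp
      norm_num
    rw [e1]
    apply div_le_div_of_nonneg_left (by norm_num) (by positivity)
    have h3 : (p.k : ℝ) ^ 2 ≤ p.B ^ 2 := by gcongr
    have h4 : 1 ≤ p.m ^ 2 := by nlinarith
    nlinarith [sq_nonneg p.B]
  have e3 : (6 : ℝ) / (1 * p.m ^ 2) / p.B ^ 2 = 6 / p.m ^ 2 / p.B ^ 2 := by rw [one_mul]
  have e4 : (24 : ℝ) / (2 * p.m ^ 2) / p.B ^ 2 = 6 * (2 / p.m ^ 2) / p.B ^ 2 := by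
    field_simp
    norm_num
  rw [e3] at h1
  rw [e4] at h2
  linarith

end Pool.Agent.TSPd97
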