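import Pool.Agent.TSPd97.TreeDefs

/-!
MP_076557_pr, package TU1 (helper12): the pair functional and its expectation (Mecke formula),
and deterministic comparison of second smallest values.
-/

set_option autoImplicit false

open MeasureTheory Set
open scoped ENNReal

namespace Pool.Agent.TSPd97.TU1

section Mecke

variable {E : Type*} [MeasurableSpace E]

open Classical in
/-- indicator: `F y < b` and at most one point of `ξ` has a smaller value of `F` -/
noncomputable def ind2 (F : E → ℝ) (b : ℝ) (y : E) (ξ : Multiset E) : ℝ≥0∞ :=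
  if F y < b ∧ Multiset.card (restr {v | F v < F y} ξ) ≤ 1 then 1 else 0

omit [MeasurableSpace E] in
lemma ind2_cons_of_le (F : E → ℝ) (b : ℝ) (y z : E) (ξ : Multiset E) (h : F y ≤ F z) :
    ind2 F b y (z ::ₘ ξ) = ind2 F b y ξ := by
  unfold ind2
  rw [restr_cons_not_mem ξ (show z ∉ {v | F v < F y} from not_lt.2 h)]

lemma measurable_ind2 {F : E → ℝ} (hF : Measurable F) (b : ℝ) :
    Measurable fun q : E × Multiset E => ind2 F b q.1 q.2 := by
  classical
  unfold ind2
  refine Measurable.ite ?_ measurable_const measurable_const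
  have h1 : MeasurableSet {q : E × Multiset E | F q.1 < b} :=
    (hF.comp measurable_fst) measurableSet_Iio
  have h2 : Measurable fun q : E × Multiset E =>
      Multiset.card (restr {v | F v < F q.1} q.2) := by
    refine measurable_mcard (measurable_restr (A := fun q : E × Multiset E => {v | F v < F q.1})
      ?_ measurable_snd)
    exact measurableSet_lt (hF.comp measurable_snd) (hF.comp (measurable_fst.comp measurable_fst))
  have h3 : MeasurableSet {q : E × Multiset E | Multiset.card (restr {v | F v < F q.1} q.2) ≤ 1} :=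
    h2 measurableSet_Iic
  exact h1.inter h3

/-- the expectation of the pair functional -/
theorem lintegral_pair (ν : Measure E) [IsFiniteMeasure ν] {F : E → ℝ} (hF : Measurable F) (b : ℝ)
    {φ : E → ℝ≥0∞} (hφ : Measurable φ) {K : E → E → ℝ≥0∞}
    (hK : Measurable fun q : E × E => K q.1 q.2) (hK0 : ∀ y, K y y = 0)
    (hK1 : ∀ y z, F z < F y → K y z = 0) :
    ∫⁻ ξ, (ξ.map fun y => ind2 F b y ξ * (φ y + (ξ.map (K y)).sum)).sum ∂(PP ν)
      = ∫⁻ y, (∫⁻ ξ, ind2 F b y ξ ∂(PP ν)) * (φ y + ∫⁻ z, K y z ∂ν) ∂ν := by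
  have hi := measurable_ind2 hF b
  have hsum : Measurable fun q : E × Multiset E => (q.2.map (K q.1)).sum := by
    refine measurable_msum (f := fun (q : E × Multiset E) z => K q.1 z) ?_ measurable_snd
    exact hK.comp ((measurable_fst.comp measurable_fst).prodMk measurable_snd)
  have hG : Measurable fun q : E × Multiset E =>
      ind2 F b q.1 q.2 * (φ q.1 + (q.2.map (K q.1)).sum) :=
    hi.mul ((hφ.comp measurable_fst).add hsum)
  rw [PP_mecke ν (G := fun y ξ => ind2 F b y ξ * (φ y + (ξ.map (K y)).sum)) hG]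
  refine lintegral_congr fun y => ?_
  have hiy : Measurable fun ξ : Multiset E => ind2 F b y ξ :=
    hi.comp (measurable_const.prodMk measurable_id)
  have hsy : Measurable fun ξ : Multiset E => (ξ.map (K y)).sum :=
    hsum.comp (measurable_const.prodMk measurable_id)
  have e1 : ∀ ξ : Multiset E, ind2 F b y (y ::ₘ ξ) * (φ y + ((y ::ₘ ξ).map (K y)).sum)
      = φ y * ind2 F b y ξ + (ξ.map (fun z => ind2 F b y ξ * K y z)).sum := by
    intro ξ
    rw [ind2_cons_of_le F b y y ξ le_rfl, Multiset.map_cons, Multiset.sum_cons, hK0, zero_add,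
      Multiset.sum_map_mul_left]
    ring
  simp_rw [e1]
  rw [lintegral_add_left (hiy.const_mul _), lintegral_const_mul _ hiy]
  have h2 := PP_mecke ν (G := fun z ξ => ind2 F b y ξ * K y z)
    ((hi.comp (measurable_const.prodMk measurable_snd)).mul
      (hK.comp (measurable_const.prodMk measurable_fst)))
  rw [h2]
  have e2 : ∀ z : E, ∫⁻ ξ, ind2 F b y (z ::ₘ ξ) * K y z ∂(PP ν)
      = (∫⁻ ξ, ind2 F b y ξ ∂(PP ν)) * K y z := by
    intro z
    by_cases hz : F z < F y
    · simp [hK1 y z hz]
    · rw [← lintegral_mul_const _ hiy]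
      refine lintegral_congr fun ξ => ?_
      rw [ind2_cons_of_le F b y z ξ (not_lt.1 hz)]
  simp_rw [e2]
  have hKy : Measurable fun z => K y z := hK.comp (measurable_const.prodMk measurable_id)
  rw [lintegral_const_mul _ hKy]
  ring

/-- probability that at most one point lies in `A` -/
lemma PP_card_restr_le_one (ν : Measure E) [IsFiniteMeasure ν] {A : Set E} (hA : MeasurableSet A) :
    PP ν {s | Multiset.card (restr A s) ≤ 1} = eneg (ν A) * (1 + ν A) := by
  have h0 := PP_card_restr_eq ν hA 0
  have h1 := PP_card_restr_eq ν hA 1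
  have hm : Measurable fun s : Multiset E => Multiset.card (restr A s) :=
    measurable_mcard (measurable_restr_const hA measurable_id)
  have hset : {s : Multiset E | Multiset.card (restr A s) ≤ 1}
      = {s | Multiset.card (restr A s) = 0} ∪ {s | Multiset.card (restr A s) = 1} := by
    ext s
    simp only [mem_ofPred_eq, mem_union]
    omega
  have hd : Disjoint {s : Multiset E | Multiset.card (restr A s) = 0}
      {s | Multiset.card (restr A s) = 1} := by
    rw [Set.disjoint_left]
    intro s hs hs'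
    simp only [mem_ofPred_eq] at hs hs'
    omega
  rw [hset, measure_union hd (hm (measurableSet_singleton 1)), h0, h1]
  simp
  ring

lemma PP_card_restr_le_one_le (ν : Measure E) [IsFiniteMeasure ν] {A : Set E}
    (hA : MeasurableSet A) (a t : ℝ) (ht : 0 ≤ t) (hat : t ≤ a) (hν : ν A = ENNReal.ofReal a) :
    PP ν {s | Multiset.card (restr A s) ≤ 1} ≤ ENNReal.ofReal (2 * Real.exp (-(t / 2))) := by
  have ha : 0 ≤ a := ht.trans hat
  rw [PP_card_restr_le_one ν hA, hν]
  unfold eneg
  rw [ENNReal.toReal_ofReal ha, show (1 : ℝ≥0∞) = ENNReal.ofReal 1 by simp,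
    ← ENNReal.ofReal_add zero_le_one ha, ← ENNReal.ofReal_mul (Real.exp_pos _).le]
  refine ENNReal.ofReal_le_ofReal ?_
  have h1 : 1 + a ≤ 2 * Real.exp (a / 2) := by
    have := Real.add_one_le_exp (a / 2)
    linarith
  have h2 : Real.exp (-a) * Real.exp (a / 2) = Real.exp (-(a / 2)) := by
    rw [← Real.exp_add]; ring_nf
  calc Real.exp (-a) * (1 + a) ≤ Real.exp (-a) * (2 * Real.exp (a / 2)) := by
        gcongr
    _ = 2 * Real.exp (-(a / 2)) := by rw [← h2]; ring
    _ ≤ 2 * Real.exp (-(t / 2)) := by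
        gcongr

end Mecke

/-! ### second smallest values -/

lemma os_one_le_max (B a b : ℝ) (s : Multiset ℝ) : os 1 B (a ::ₘ b ::ₘ s) ≤ max a b := by
  rw [os_le_iff]
  right
  rw [restr_cons_mem _ (show a ∈ Iic (max a b) from mem_Iic.2 (le_max_left _ _)),
    restr_cons_mem _ (show b ∈ Iic (max a b) from mem_Iic.2 (le_max_right _ _)),
    Multiset.card_cons, Multiset.card_cons]
  omega

lemma le_os_one (B x a b : ℝ) (s : Multiset ℝ) (hB : x ≤ B) (hb : x ≤ b) (hs : ∀ c ∈ s, x ≤ c) :
    x ≤ os 1 B (a ::ₘ b ::ₘ s) := by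
  refine le_of_forall_lt (fun t ht => ?_)
  rw [lt_os_iff]
  refine ⟨ht.trans_le hB, ?_⟩
  have h0 : restr (Iic t) (b ::ₘ s) = 0 := by
    rw [restr_eq_zero]
    intro c hc
    rw [Multiset.mem_cons] at hc
    rcases hc with rfl | hc
    · exact not_le.2 (ht.trans_le hb)
    · exact not_le.2 (ht.trans_le (hs c hc))
  by_cases ha : a ∈ Iic t
  · rw [restr_cons_mem _ ha, h0]; simp
  · rw [restr_cons_not_mem _ ha, h0]; simp

lemma os_one_eq (B a b : ℝ) (s : Multiset ℝ) (hab : a ≤ b) (hs : ∀ c ∈ s, b ≤ c) :
    os 1 B (a ::ₘ b ::ₘ s) = min B b := by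
  apply le_antisymm
  · refine le_min (os_le _ _ _) ?_
    have := os_one_le_max B a b s
    rwa [max_eq_right hab] at this
  · exact le_os_one B _ a b s (min_le_left _ _) (min_le_right _ _)
      (fun c hc => (min_le_right _ _).trans (hs c hc))

lemma os_one_of_card_le_one (B : ℝ) (s : Multiset ℝ) (h : Multiset.card s ≤ 1) : os 1 B s = B := by
  apply le_antisymm (os_le _ _ _)
  refine le_of_forall_lt (fun t ht => ?_)
  rw [lt_os_iff]
  exact ⟨ht, (card_restr_le _ _).trans h⟩

/-- comparison of the second smallest value of `G` with the value of `G` at a given point `b` -/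
lemma abs_os_one_sub_le {E : Type*} (B : ℝ) (G : E → ℝ) (a b : E) (η : Multiset E) :
    |os 1 B ((a ::ₘ b ::ₘ η).map G) - min B (G b)|
      ≤ max 0 (G a - G b) + (η.map fun z => max 0 (G b - G z)).sum := by
  rw [Multiset.map_cons, Multiset.map_cons]
  have hnn : 0 ≤ (η.map fun z => max 0 (G b - G z)).sum := by
    apply Multiset.sum_nonneg
    intro x hx
    rw [Multiset.mem_map] at hx
    obtain ⟨z, _, rfl⟩ := hx
    exact le_max_left _ _
  have hle : ∀ z ∈ η, max 0 (G b - G z) ≤ (η.map fun z => max 0 (G b - G z)).sum := by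
    intro z hz
    obtain ⟨η', rfl⟩ := Multiset.exists_cons_of_mem hz
    rw [Multiset.map_cons, Multiset.sum_cons]
    have : 0 ≤ (η'.map fun z => max 0 (G b - G z)).sum := by
      apply Multiset.sum_nonneg
      intro x hx
      rw [Multiset.mem_map] at hx
      obtain ⟨z, _, rfl⟩ := hx
      exact le_max_left _ _
    linarith
  set S := (η.map fun z => max 0 (G b - G z)).sum with hS
  rw [abs_le]
  constructor
  · have h1 : min B (G b) - S ≤ os 1 B (G a ::ₘ G b ::ₘ η.map G) := by
      refine le_os_one _ _ _ _ _ ?_ ?_ ?_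
      · have := min_le_left B (G b); linarith
      · have := min_le_right B (G b); linarith
      · intro c hc
        rw [Multiset.mem_map] at hc
        obtain ⟨z, hz, rfl⟩ := hc
        have h2 := hle z hz
        have h3 : G b - G z ≤ max 0 (G b - G z) := le_max_right _ _
        have := min_le_right B (G b)
        linarith
    have := le_max_left 0 (G a - G b)
    linarith
  · have h1 : os 1 B (G a ::ₘ G b ::ₘ η.map G) ≤ min B (G b) + max 0 (G a - G b) := by
      have h2 := os_one_le_max B (G a) (G b) (η.map G)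
      have h3 := os_le 1 B (G a ::ₘ G b ::ₘ η.map G)
      rcases le_total (G a) (G b) with h | h
      · rw [max_eq_right h] at h2
        rw [max_eq_left (by linarith)]
        have := le_min h3 h2
        linarith
      · rw [max_eq_left h] at h2
        rw [max_eq_right (by linarith)]
        rcases le_total B (G b) with h4 | h4
        · rw [min_eq_left h4]; linarith
        · rw [min_eq_right h4]; linarith
    linarith

/-- decomposition of a configuration by its two smallest points -/
lemma exists_two_smallest {E : Type*} (F : E → ℝ) (ξ : Multiset E) (h : 1 < Multiset.card ξ) :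
    ∃ a b η, ξ = a ::ₘ b ::ₘ η ∧ F a ≤ F b ∧ ∀ z ∈ η, F b ≤ F z := by
  classical
  have key : ∀ ζ : Multiset E, 0 < Multiset.card ζ → ∃ a ζ', ζ = a ::ₘ ζ' ∧ ∀ z ∈ ζ', F a ≤ F z := by
    intro ζ hζ
    have hne : ζ.toFinset.Nonempty := by
      rw [Multiset.card_pos_iff_exists_mem] at hζ
      obtain ⟨a, ha⟩ := hζ
      exact ⟨a, Multiset.mem_toFinset.2 ha⟩
    obtain ⟨a, ha, hmin⟩ := Finset.exists_min_image ζ.toFinset F hne
    obtain ⟨ζ', rfl⟩ := Multiset.exists_cons_of_mem (Multiset.mem_toFinset.1 ha)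
    refine ⟨a, ζ', rfl, fun z hz => hmin z (Multiset.mem_toFinset.2 (Multiset.mem_cons_of_mem hz))⟩
  obtain ⟨a, ζ', rfl, h1⟩ := key ξ (by omega)
  rw [Multiset.card_cons] at h
  obtain ⟨b, η, rfl, h2⟩ := key ζ' (by omega)
  exact ⟨a, b, η, rfl, h1 b (Multiset.mem_cons_self _ _), h2⟩

end Pool.Agent.TSPd97.TU1
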