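import Pool.Agent.TSPd97.TreeU1a

/-!
MP_076557_pr, package TU1 (helper12): the pathwise comparison of `qthr` with the average of the
message updates.
-/

set_option autoImplicit false

open MeasureTheory Set
open scoped ENNReal

namespace Pool.Agent.TSPd97.TU1

/-- value of a point -/
noncomputable def Fv (p : Par) (q : ℝ × (ℕ → ℝ)) : ℝ := q.1 / wbar p q.2

/-- relative variance of a message vector over the window -/
noncomputable def Dv (p : Par) (w : ℕ → ℝ) : ℝ :=
  (∑ j ∈ Finset.Ico p.k (2 * p.k), (wbar p w - w j) ^ 2 / (wbar p w * w j)) / p.k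

/-- mismatch of two points -/
noncomputable def Kv (p : Par) (y z : ℝ × (ℕ → ℝ)) : ℝ :=
  (∑ j ∈ Finset.Ico p.k (2 * p.k), max 0 (y.1 / y.2 j - z.1 / z.2 j)) / p.k

/-- average of the second smallest values -/
noncomputable def wplus (p : Par) (ξ : Multiset (ℝ × (ℕ → ℝ))) : ℝ :=
  (∑ j ∈ Finset.Ico p.k (2 * p.k), os 1 p.B (ξ.map fun q => q.1 / q.2 j)) / p.k

/-- good points -/
def good (p : Par) (q : ℝ × (ℕ → ℝ)) : Prop :=
  0 < q.1 ∧ ∀ j, j ≤ 2 * p.k → 0 < q.2 j ∧ q.2 j ≤ p.B

lemma kpos (p : Par) : (0 : ℝ) < p.k := by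
  have := p.hk
  have h : (8 : ℝ) ≤ p.k := by exact_mod_cast this
  linarith

lemma Bpos (p : Par) : 0 < p.B := lt_of_lt_of_le (kpos p) p.hkB

lemma card_window (p : Par) : ((Finset.Ico p.k (2 * p.k)).card : ℝ) = p.k := by
  rw [Nat.card_Ico]
  congr 1
  omega

lemma window_nonempty (p : Par) : (Finset.Ico p.k (2 * p.k)).Nonempty := by
  rw [Finset.nonempty_Ico]
  have := p.hk
  omega

lemma sum_const_window (p : Par) (c : ℝ) : (∑ _j ∈ Finset.Ico p.k (2 * p.k), c) / p.k = c := by
  rw [Finset.sum_const, nsmul_eq_mul, card_window]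
  field_simp [(kpos p).ne']

lemma avg_mono (p : Par) {f g : ℕ → ℝ} (h : ∀ j ∈ Finset.Ico p.k (2 * p.k), f j ≤ g j) :
    (∑ j ∈ Finset.Ico p.k (2 * p.k), f j) / p.k ≤ (∑ j ∈ Finset.Ico p.k (2 * p.k), g j) / p.k := by
  have := (kpos p)
  gcongr with j hj
  exact h j hj

lemma wbar_pos (p : Par) {w : ℕ → ℝ} (h : ∀ j, j ≤ 2 * p.k → 0 < w j ∧ w j ≤ p.B) :
    0 < wbar p w ∧ wbar p w ≤ p.B := by
  unfold wbar
  constructor
  · apply div_pos _ (kpos p)
    apply Finset.sum_pos _ (window_nonempty p)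
    intro j hj
    rw [Finset.mem_Ico] at hj
    exact (h j (by omega)).1
  · have : (∑ j ∈ Finset.Ico p.k (2 * p.k), w j) / p.k
        ≤ (∑ _j ∈ Finset.Ico p.k (2 * p.k), p.B) / p.k := by
      apply avg_mono
      intro j hj
      rw [Finset.mem_Ico] at hj
      exact (h j (by omega)).2
    rwa [sum_const_window] at this

/-- averaging of `T W / w_j` -/
lemma abs_avg_min_sub_le (p : Par) (w : ℕ → ℝ)
    (hw : ∀ j ∈ Finset.Ico p.k (2 * p.k), 0 < w j) (T : ℝ) (hT : 0 < T) (hTB : T < p.B / 2) :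
    |T - (∑ j ∈ Finset.Ico p.k (2 * p.k), min p.B (T * wbar p w / w j)) / p.k|
      ≤ 4 * (T * Dv p w) := by
  have hk := (kpos p)
  have hW : 0 < wbar p w := div_pos (Finset.sum_pos hw (window_nonempty p)) hk
  set W := wbar p w with hWdef
  have hD : 0 ≤ T * Dv p w := by
    apply mul_nonneg hT.le
    unfold Dv
    apply div_nonneg _ hk.le
    apply Finset.sum_nonneg
    intro j hj
    have := hw j hj
    positivity
  -- mean of the deviations is zero
  have h0 : (∑ j ∈ Finset.Ico p.k (2 * p.k), (W - w j) / W) / p.k = 0 := by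
    rw [← Finset.sum_div, Finset.sum_sub_distrib, Finset.sum_const, nsmul_eq_mul, card_window,
      hWdef]
    unfold wbar
    field_simp
    ring
  have h1 : (∑ j ∈ Finset.Ico p.k (2 * p.k), T * W / w j) / p.k = T + T * Dv p w := by
    have e : ∀ j ∈ Finset.Ico p.k (2 * p.k),
        T * W / w j = T + T * ((W - w j) ^ 2 / (W * w j)) + T * ((W - w j) / W) := by
      intro j hj
      have := hw j hj
      field_simp
      ring
    rw [Finset.sum_congr rfl e, Finset.sum_add_distrib, Finset.sum_add_distrib, add_div, add_div,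
      sum_const_window, ← Finset.mul_sum, ← Finset.mul_sum, mul_div_assoc, mul_div_assoc, h0]
    unfold Dv
    rw [← hWdef]
    ring
  have h2 : ∀ j ∈ Finset.Ico p.k (2 * p.k), min p.B (T * W / w j) ≤ T * W / w j :=
    fun j _ => min_le_right _ _
  have h3 : ∀ j ∈ Finset.Ico p.k (2 * p.k),
      T * W / w j - 4 * (T * ((W - w j) ^ 2 / (W * w j))) ≤ min p.B (T * W / w j) := by
    intro j hj
    have hwj := hw j hj
    apply le_min
    · by_cases hc : T * W / w j ≤ p.B
      · have : 0 ≤ T * ((W - w j) ^ 2 / (W * w j)) := by positivity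
        linarith
      · push Not at hc
        rw [lt_div_iff₀ hwj] at hc
        have h4 : 2 * w j ≤ W := by
          by_contra hcon
          push Not at hcon
          nlinarith
        have h5 : T * W / w j ≤ 4 * (T * ((W - w j) ^ 2 / (W * w j))) := by
          have e1 : T * W / w j = T / (W * w j) * W ^ 2 := by field_simp
          have e2 : 4 * (T * ((W - w j) ^ 2 / (W * w j))) = T / (W * w j) * (4 * (W - w j) ^ 2) := by
            field_simp
          rw [e1, e2]
          have : 0 ≤ T / (W * w j) := by positivity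
          apply mul_le_mul_of_nonneg_left _ this
          nlinarith
        have := (Bpos p)
        linarith
    · have : 0 ≤ T * ((W - w j) ^ 2 / (W * w j)) := by positivity
      linarith
  have h6 := avg_mono p h2
  have h7 := avg_mono p h3
  rw [h1] at h6
  rw [Finset.sum_sub_distrib, sub_div, h1, ← Finset.mul_sum, ← Finset.mul_sum, mul_div_assoc,
    mul_div_assoc] at h7
  have h8 : (∑ j ∈ Finset.Ico p.k (2 * p.k), (W - w j) ^ 2 / (W * w j)) / p.k = Dv p w := rfl
  rw [h8] at h7
  rw [abs_le]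
  constructor <;> linarith

lemma Kv_nonneg (p : Par) (y z : ℝ × (ℕ → ℝ)) : 0 ≤ Kv p y z := by
  unfold Kv
  apply div_nonneg _ (kpos p).le
  exact Finset.sum_nonneg fun j _ => le_max_left _ _

lemma Dv_nonneg (p : Par) {w : ℕ → ℝ} (h : ∀ j, j ≤ 2 * p.k → 0 < w j ∧ w j ≤ p.B) :
    0 ≤ Dv p w := by
  have hW := (wbar_pos p h).1
  unfold Dv
  apply div_nonneg _ (kpos p).le
  apply Finset.sum_nonneg
  intro j hj
  rw [Finset.mem_Ico] at hj
  have := (h j (by omega)).1
  positivity

lemma sum_map_Kv (p : Par) (b : ℝ × (ℕ → ℝ)) (η : Multiset (ℝ × (ℕ → ℝ))) :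
    (η.map (Kv p b)).sum = (∑ j ∈ Finset.Ico p.k (2 * p.k),
      (η.map fun z => max 0 (b.1 / b.2 j - z.1 / z.2 j)).sum) / p.k := by
  induction η using Multiset.induction_on with
  | empty => simp
  | cons z η ih =>
    simp only [Multiset.map_cons, Multiset.sum_cons]
    rw [ih, Finset.sum_add_distrib, add_div]
    rfl

/-- pathwise comparison, real form -/
lemma path_real (p : Par) (a b : ℝ × (ℕ → ℝ)) (η : Multiset (ℝ × (ℕ → ℝ)))
    (hb : good p b) (hab : Fv p a ≤ Fv p b) (hη : ∀ z ∈ η, Fv p b ≤ Fv p z)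
    (hlt : Fv p b < p.B / 2) :
    |qthr p (a ::ₘ b ::ₘ η) - wplus p (a ::ₘ b ::ₘ η)|
      ≤ 4 * (Fv p b * Dv p b.2) + Kv p a b + (η.map (Kv p b)).sum := by
  have hk := (kpos p)
  have hW := (wbar_pos p hb.2).1
  have hFb : 0 < Fv p b := div_pos hb.1 hW
  have hBpos := (Bpos p)
  have hQ : qthr p (a ::ₘ b ::ₘ η) = Fv p b := by
    unfold qthr
    rw [Multiset.map_cons, Multiset.map_cons]
    have := os_one_eq p.B (Fv p a) (Fv p b) (η.map (Fv p)) hab (by
      intro c hc
      rw [Multiset.mem_map] at hc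
      obtain ⟨z, hz, rfl⟩ := hc
      exact hη z hz)
    rw [min_eq_right (by linarith)] at this
    exact this
  rw [hQ]
  have hwin : ∀ j ∈ Finset.Ico p.k (2 * p.k), 0 < b.2 j := by
    intro j hj
    rw [Finset.mem_Ico] at hj
    exact (hb.2 j (by omega)).1
  have h1 := abs_avg_min_sub_le p b.2 hwin (Fv p b) hFb hlt
  have e1 : ∀ j, Fv p b * wbar p b.2 / b.2 j = b.1 / b.2 j := by
    intro j
    unfold Fv
    rw [div_mul_cancel₀ _ hW.ne']
  simp_rw [e1] at h1
  have h2 : |(∑ j ∈ Finset.Ico p.k (2 * p.k), min p.B (b.1 / b.2 j)) / p.k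
      - wplus p (a ::ₘ b ::ₘ η)| ≤ Kv p a b + (η.map (Kv p b)).sum := by
    have e2 : (∑ j ∈ Finset.Ico p.k (2 * p.k), min p.B (b.1 / b.2 j)) / p.k
        - wplus p (a ::ₘ b ::ₘ η)
        = (∑ j ∈ Finset.Ico p.k (2 * p.k), (min p.B (b.1 / b.2 j)
            - os 1 p.B ((a ::ₘ b ::ₘ η).map fun q => q.1 / q.2 j))) / p.k := by
      unfold wplus
      rw [Finset.sum_sub_distrib, sub_div]
    have e3 : Kv p a b + (η.map (Kv p b)).sum
        = (∑ j ∈ Finset.Ico p.k (2 * p.k), (max 0 (a.1 / a.2 j - b.1 / b.2 j)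
            + (η.map fun z => max 0 (b.1 / b.2 j - z.1 / z.2 j)).sum)) / p.k := by
      rw [Finset.sum_add_distrib, add_div, sum_map_Kv]
      rfl
    rw [e2, e3, abs_div, abs_of_pos hk]
    apply div_le_div_of_nonneg_right _ hk.le
    refine (Finset.abs_sum_le_sum_abs _ _).trans (Finset.sum_le_sum fun j _ => ?_)
    have := abs_os_one_sub_le p.B (fun q : ℝ × (ℕ → ℝ) => q.1 / q.2 j) a b η
    rw [abs_sub_comm] at this
    exact this
  have := abs_sub_le (Fv p b) ((∑ j ∈ Finset.Ico p.k (2 * p.k), min p.B (b.1 / b.2 j)) / p.k)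
    (wplus p (a ::ₘ b ::ₘ η))
  linarith

open Classical in
/-- the mismatch kernel -/
noncomputable def Ke (p : Par) (y z : ℝ × (ℕ → ℝ)) : ℝ≥0∞ :=
  if Fv p y ≤ Fv p z then ENNReal.ofReal (Kv p y z) else 0

/-- the one-point functional -/
noncomputable def Pe (p : Par) (y : ℝ × (ℕ → ℝ)) : ℝ≥0∞ :=
  ENNReal.ofReal (4 * (Fv p y * Dv p y.2))

open Classical in
/-- pathwise comparison, extended form -/
lemma path_ennreal (p : Par) (ξ : Multiset (ℝ × (ℕ → ℝ))) (hg : ∀ q ∈ ξ, good p q) :
    ENNReal.ofReal |qthr p ξ - wplus p ξ|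
      ≤ (if Multiset.card (restr {v | Fv p v < p.B / 4} ξ) ≤ 1 then ENNReal.ofReal p.B else 0)
        + (ξ.map fun y => ind2 (Fv p) (p.B / 2) y ξ * (Pe p y + (ξ.map (Ke p y)).sum)).sum := by
  have hB := (Bpos p)
  have hk := (kpos p)
  have hQ0 : 0 ≤ qthr p ξ ∧ qthr p ξ ≤ p.B := by
    constructor
    · apply os_nonneg hB.le
      intro a ha
      rw [Multiset.mem_map] at ha
      obtain ⟨q, hq, rfl⟩ := ha
      exact (div_pos (hg q hq).1 (wbar_pos p (hg q hq).2).1).le
    · exact os_le _ _ _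
  have hP0 : 0 ≤ wplus p ξ ∧ wplus p ξ ≤ p.B := by
    unfold wplus
    constructor
    · apply div_nonneg _ hk.le
      apply Finset.sum_nonneg
      intro j hj
      rw [Finset.mem_Ico] at hj
      apply os_nonneg hB.le
      intro a ha
      rw [Multiset.mem_map] at ha
      obtain ⟨q, hq, rfl⟩ := ha
      exact (div_pos (hg q hq).1 ((hg q hq).2 j (by omega)).1).le
    · have := avg_mono p (f := fun j => os 1 p.B (ξ.map fun q => q.1 / q.2 j))
        (g := fun _ => p.B) (fun j _ => os_le _ _ _)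
      rwa [sum_const_window] at this
  by_cases hbig : p.B / 2 ≤ qthr p ξ
  · have h1 : p.B / 4 < os 1 p.B (ξ.map fun q => q.1 / wbar p q.2) := by
      have : qthr p ξ = os 1 p.B (ξ.map fun q => q.1 / wbar p q.2) := rfl
      linarith
    rw [lt_os_iff, restr_map, Multiset.card_map] at h1
    have h2 : Multiset.card (restr {v | Fv p v < p.B / 4} ξ) ≤ 1 := by
      refine (card_restr_mono ?_ ξ).trans h1.2
      intro v hv
      simp only [mem_ofPred_eq] at hv
      simp only [mem_preimage, mem_Iic]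
      exact hv.le
    rw [if_pos h2]
    refine le_add_right (ENNReal.ofReal_le_ofReal ?_)
    rw [abs_le]
    constructor <;> linarith [hQ0.1, hQ0.2, hP0.1, hP0.2]
  · push Not at hbig
    refine le_add_left ?_
    have hcard : 1 < Multiset.card ξ := by
      by_contra hc
      push Not at hc
      have : qthr p ξ = p.B := os_one_of_card_le_one p.B _ (by rwa [Multiset.card_map])
      linarith
    obtain ⟨a, b, η, rfl, hab, hη⟩ := exists_two_smallest (Fv p) ξ hcard
    have hgb := hg b (by simp)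
    have hQ : qthr p (a ::ₘ b ::ₘ η) = min p.B (Fv p b) := by
      unfold qthr
      rw [Multiset.map_cons, Multiset.map_cons]
      exact os_one_eq p.B (Fv p a) (Fv p b) (η.map (Fv p)) hab (by
        intro c hc
        rw [Multiset.mem_map] at hc
        obtain ⟨z, hz, rfl⟩ := hc
        exact hη z hz)
    have hlt : Fv p b < p.B / 2 := by
      rw [hQ, min_lt_iff] at hbig
      rcases hbig with h | h
      · linarith
      · exact h
    have hreal := path_real p a b η hgb hab hη hlt
    refine (ENNReal.ofReal_le_ofReal hreal).trans ?_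
    have hD := Dv_nonneg p hgb.2
    have hFb : 0 < Fv p b := div_pos hgb.1 (wbar_pos p hgb.2).1
    have hs0 : 0 ≤ (η.map (Kv p b)).sum := by
      apply Multiset.sum_nonneg
      intro x hx
      rw [Multiset.mem_map] at hx
      obtain ⟨z, _, rfl⟩ := hx
      exact Kv_nonneg p b z
    rw [ENNReal.ofReal_add (by have := Kv_nonneg p a b; positivity) hs0,
      ENNReal.ofReal_add (by positivity) (Kv_nonneg p a b)]
    have hsum : ENNReal.ofReal (η.map (Kv p b)).sum = (η.map (Ke p b)).sum := by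
      clear hs0 hreal hQ hg hQ0 hP0 hbig hcard
      induction η using Multiset.induction_on with
      | empty => simp
      | cons z η ih =>
        rw [Multiset.map_cons, Multiset.sum_cons, Multiset.map_cons, Multiset.sum_cons,
          ENNReal.ofReal_add (Kv_nonneg p b z), ih (fun z' hz' => hη z' (Multiset.mem_cons_of_mem hz'))]
        · congr 1
          unfold Ke
          rw [if_pos (hη z (Multiset.mem_cons_self _ _))]
        · apply Multiset.sum_nonneg
          intro x hx
          rw [Multiset.mem_map] at hx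
          obtain ⟨z, _, rfl⟩ := hx
          exact Kv_nonneg p b z
    have hinda : ind2 (Fv p) (p.B / 2) a (a ::ₘ b ::ₘ η) = 1 := by
      unfold ind2
      rw [if_pos]
      refine ⟨hab.trans_lt hlt, ?_⟩
      have : restr {v | Fv p v < Fv p a} (a ::ₘ b ::ₘ η) = 0 := by
        rw [restr_eq_zero]
        intro v hv
        rw [Multiset.mem_cons, Multiset.mem_cons] at hv
        rcases hv with rfl | rfl | hv
        · simp
        · simpa using hab
        · simpa using hab.trans (hη v hv)
      rw [this]; simp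
    have hindb : ind2 (Fv p) (p.B / 2) b (a ::ₘ b ::ₘ η) = 1 := by
      unfold ind2
      rw [if_pos]
      refine ⟨hlt, ?_⟩
      have h0 : restr {v | Fv p v < Fv p b} (b ::ₘ η) = 0 := by
        rw [restr_eq_zero]
        intro v hv
        rw [Multiset.mem_cons] at hv
        rcases hv with rfl | hv
        · simp
        · simpa using hη v hv
      by_cases ha : a ∈ {v | Fv p v < Fv p b}
      · rw [restr_cons_mem _ ha, h0]; simp
      · rw [restr_cons_not_mem _ ha, h0]; simp
    have hS : ((a ::ₘ b ::ₘ η).map fun y => ind2 (Fv p) (p.B / 2) y (a ::ₘ b ::ₘ η)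
        * (Pe p y + ((a ::ₘ b ::ₘ η).map (Ke p y)).sum)).sum
        = (Pe p a + ((a ::ₘ b ::ₘ η).map (Ke p a)).sum)
          + ((Pe p b + ((a ::ₘ b ::ₘ η).map (Ke p b)).sum)
          + (η.map fun y => ind2 (Fv p) (p.B / 2) y (a ::ₘ b ::ₘ η)
            * (Pe p y + ((a ::ₘ b ::ₘ η).map (Ke p y)).sum)).sum) := by
      generalize hf : (fun y => ind2 (Fv p) (p.B / 2) y (a ::ₘ b ::ₘ η)
        * (Pe p y + ((a ::ₘ b ::ₘ η).map (Ke p y)).sum)) = f
      have hfa : f a = Pe p a + ((a ::ₘ b ::ₘ η).map (Ke p a)).sum := by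
        rw [← hf]; simp only [hinda, one_mul]
      have hfb : f b = Pe p b + ((a ::ₘ b ::ₘ η).map (Ke p b)).sum := by
        rw [← hf]; simp only [hindb, one_mul]
      rw [← hfa, ← hfb]
      rw [Multiset.map_cons, Multiset.sum_cons, Multiset.map_cons, Multiset.sum_cons]
    rw [hS, hsum]
    have hKa : ENNReal.ofReal (Kv p a b) ≤ Pe p a + ((a ::ₘ b ::ₘ η).map (Ke p a)).sum := by
      refine le_add_left ?_
      rw [Multiset.map_cons, Multiset.sum_cons, Multiset.map_cons, Multiset.sum_cons]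
      refine le_add_left (le_add_right ?_)
      unfold Ke
      rw [if_pos hab]
    have hKb : ENNReal.ofReal (4 * (Fv p b * Dv p b.2)) + (η.map (Ke p b)).sum
        ≤ Pe p b + ((a ::ₘ b ::ₘ η).map (Ke p b)).sum := by
      refine add_le_add le_rfl ?_
      rw [Multiset.map_cons, Multiset.sum_cons, Multiset.map_cons, Multiset.sum_cons]
      exact le_add_left (le_add_left le_rfl)
    calc ENNReal.ofReal (4 * (Fv p b * Dv p b.2)) + ENNReal.ofReal (Kv p a b)
          + (η.map (Ke p b)).sum
        = ENNReal.ofReal (Kv p a b) + (ENNReal.ofReal (4 * (Fv p b * Dv p b.2))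
          + (η.map (Ke p b)).sum) := by ring
      _ ≤ (Pe p a + ((a ::ₘ b ::ₘ η).map (Ke p a)).sum)
          + (Pe p b + ((a ::ₘ b ::ₘ η).map (Ke p b)).sum) := add_le_add hKa hKb
      _ ≤ _ := add_le_add le_rfl le_self_add

end Pool.Agent.TSPd97.TU1
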