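import Pool.Agent.TSPd97.TreeU1b
import Pool.Agent.TSPd97.TreeAb
import Pool.Agent.TSPd97.TreeB

/-!
MP_076557_pr, package TU1 (helper12): the expectation of the pair functional.
-/

set_option autoImplicit false

open MeasureTheory Set
open scoped ENNReal

namespace Pool.Agent.TSPd97.TU1

lemma measurable_wbar (p : Par) : Measurable (wbar p) := by
  unfold wbar
  exact (Finset.measurable_sum _ fun j _ => measurable_pi_apply j).div_const _

lemma measurable_Fv (p : Par) : Measurable (Fv p) := by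
  unfold Fv
  exact measurable_fst.div ((measurable_wbar p).comp measurable_snd)

lemma measurable_Dv (p : Par) : Measurable (Dv p) := by
  unfold Dv
  refine (Finset.measurable_sum _ fun j _ => ?_).div_const _
  exact (((measurable_wbar p).sub (measurable_pi_apply j)).pow_const 2).div
    ((measurable_wbar p).mul (measurable_pi_apply j))

lemma measurable_Kv (p : Par) :
    Measurable fun q : (ℝ × (ℕ → ℝ)) × (ℝ × (ℕ → ℝ)) => Kv p q.1 q.2 := by
  unfold Kv
  refine (Finset.measurable_sum _ fun j _ => ?_).div_const _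
  have h1 : Measurable fun q : (ℝ × (ℕ → ℝ)) × (ℝ × (ℕ → ℝ)) => q.1.1 / q.1.2 j :=
    (measurable_fst.comp measurable_fst).div
      ((measurable_pi_apply j).comp (measurable_snd.comp measurable_fst))
  have h2 : Measurable fun q : (ℝ × (ℕ → ℝ)) × (ℝ × (ℕ → ℝ)) => q.2.1 / q.2.2 j :=
    (measurable_fst.comp measurable_snd).div
      ((measurable_pi_apply j).comp (measurable_snd.comp measurable_snd))
  exact measurable_const.max (h1.sub h2)

lemma measurable_Pe (p : Par) : Measurable (Pe p) := by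
  unfold Pe
  exact (((measurable_Fv p).mul ((measurable_Dv p).comp measurable_snd)).const_mul 4).ennreal_ofReal

lemma measurable_Ke (p : Par) :
    Measurable fun q : (ℝ × (ℕ → ℝ)) × (ℝ × (ℕ → ℝ)) => Ke p q.1 q.2 := by
  classical
  unfold Ke
  refine Measurable.ite ?_ (measurable_Kv p).ennreal_ofReal measurable_const
  exact measurableSet_le ((measurable_Fv p).comp measurable_fst)
    ((measurable_Fv p).comp measurable_snd)

lemma Kv_self (p : Par) (y : ℝ × (ℕ → ℝ)) : Kv p y y = 0 := by
  unfold Kv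
  simp

lemma Ke_self (p : Par) (y : ℝ × (ℕ → ℝ)) : Ke p y y = 0 := by
  unfold Ke
  simp [Kv_self]

lemma Ke_eq_zero (p : Par) (y z : ℝ × (ℕ → ℝ)) (h : Fv p z < Fv p y) : Ke p y z = 0 := by
  unfold Ke
  rw [if_neg (not_le.2 h)]

/-! ### the law of the message vector -/

/-- the good event for message vectors -/
def goodw (p : Par) (w : ℕ → ℝ) : Prop := ∀ j, j ≤ 2 * p.k → 0 < w j ∧ w j ≤ p.B

lemma ae_goodw (p : Par) (h : ℕ) : ∀ᵐ w ∂(mu p h), goodw p w := by
  unfold goodw
  rw [ae_all_iff]
  intro j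
  by_cases hj : j ≤ 2 * p.k
  · filter_upwards [mu_pos p h j hj] with w hw _
    exact hw
  · exact Filter.Eventually.of_forall fun w hj' => absurd hj' hj

lemma integrable_coord (p : Par) (h j : ℕ) (hj : j ≤ 2 * p.k) :
    Integrable (fun w : ℕ → ℝ => w j) (mu p h) := by
  refine Integrable.of_bound (measurable_pi_apply j).aestronglyMeasurable p.B ?_
  filter_upwards [mu_pos p h j hj] with w hw
  rw [Real.norm_eq_abs, abs_of_pos hw.1]
  exact hw.2

lemma mean_wbar (p : Par) (h : ℕ) : ∫ w, wbar p w ∂(mu p h) = p.m := by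
  unfold wbar
  rw [integral_div, integral_finsetSum]
  · have : ∀ j ∈ Finset.Ico p.k (2 * p.k), ∫ w, w j ∂(mu p h) = p.m := by
      intro j hj
      rw [Finset.mem_Ico] at hj
      exact mu_mean p h j (by omega)
    rw [Finset.sum_congr rfl this]
    exact sum_const_window p p.m
  · intro j hj
    rw [Finset.mem_Ico] at hj
    exact integrable_coord p h j (by omega)

lemma mpos (p : Par) : 0 < p.m := lt_of_lt_of_le one_pos p.hm1

lemma msqle (p : Par) : p.m ^ 2 ≤ 2 := by
  rw [p.hm]
  have h1 := (Bpos p)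
  have h2 := (mpos p)
  have : 0 ≤ (p.m * p.B + 2) * Real.exp (-(p.m * p.B)) := by positivity
  linarith

lemma mle (p : Par) : p.m ≤ 2 := by
  have := (msqle p)
  nlinarith [(mpos p), p.hm1]

lemma lintegral_wbar (p : Par) (h : ℕ) :
    ∫⁻ w, ENNReal.ofReal (wbar p w) ∂(mu p h) = ENNReal.ofReal p.m := by
  rw [← mean_wbar p h, ofReal_integral_eq_lintegral_ofReal]
  · refine Integrable.of_bound (measurable_wbar p).aestronglyMeasurable p.B ?_
    filter_upwards [ae_goodw p h] with w hw
    have := wbar_pos p hw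
    rw [Real.norm_eq_abs, abs_of_pos this.1]
    exact this.2
  · filter_upwards [ae_goodw p h] with w hw
    exact (wbar_pos p hw).1.le

lemma lintegral_coord (p : Par) (h j : ℕ) (hj : j ≤ 2 * p.k) :
    ∫⁻ w, ENNReal.ofReal (w j) ∂(mu p h) = ENNReal.ofReal p.m := by
  rw [← mu_mean p h j hj, ofReal_integral_eq_lintegral_ofReal]
  · exact integrable_coord p h j hj
  · filter_upwards [mu_pos p h j hj] with w hw
    exact hw.1.le

/-- intensity of points with value below `t` -/
lemma nu_Fv_lt (p : Par) (h : ℕ) (t : ℝ) (ht : 0 ≤ t) (htB : t ≤ p.B) :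
    ((leb (p.B ^ 2)).prod (mu p h)) {q | Fv p q < t} = ENNReal.ofReal (p.m * t) := by
  have hm : MeasurableSet {q : ℝ × (ℕ → ℝ) | Fv p q < t} := (measurable_Fv p) measurableSet_Iio
  rw [Measure.prod_apply_symm hm]
  have h1 : ∀ᵐ w ∂(mu p h), (leb (p.B ^ 2)) ((fun s => (s, w)) ⁻¹' {q | Fv p q < t})
      = ENNReal.ofReal t * ENNReal.ofReal (wbar p w) := by
    filter_upwards [ae_goodw p h] with w hw
    obtain ⟨hW, hWB⟩ := wbar_pos p hw
    have e1 : ((fun s => (s, w)) ⁻¹' {q | Fv p q < t}) = Iio (t * wbar p w) := by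
      ext s
      simp only [mem_preimage, mem_ofPred_eq, Fv, mem_Iio]
      rw [div_lt_iff₀ hW]
    rw [e1, leb, Measure.restrict_apply measurableSet_Iio]
    have e2 : Iio (t * wbar p w) ∩ Ioc 0 (p.B ^ 2) = Ioo 0 (t * wbar p w) := by
      ext s
      simp only [mem_inter_iff, mem_Iio, mem_Ioc, mem_Ioo]
      constructor
      · rintro ⟨h1, h2, _⟩; exact ⟨h2, h1⟩
      · rintro ⟨h1, h2⟩
        refine ⟨h2, h1, h2.le.trans ?_⟩
        have := (Bpos p)
        nlinarith
    rw [e2, Real.volume_Ioo, sub_zero, ENNReal.ofReal_mul ht]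
  rw [lintegral_congr_ae h1, lintegral_const_mul _ (measurable_wbar p).ennreal_ofReal,
    lintegral_wbar, ← ENNReal.ofReal_mul ht, mul_comm]

/-! ### one-dimensional integrals -/

lemma lintegral_leb_le {S : ℝ} (g : ℝ → ℝ≥0∞) : ∫⁻ s, g s ∂(leb S) ≤ ∫⁻ s in Ioi 0, g s := by
  unfold leb
  exact lintegral_mono_set Ioc_subset_Ioi_self

lemma lintegral_exp (W : ℝ) (hW : 0 < W) :
    ∫⁻ s in Ioi (0 : ℝ), ENNReal.ofReal (Real.exp (-((s / W) / 4))) = ENNReal.ofReal (4 * W) := by
  have e : ∀ s : ℝ, -((s / W) / 4) = (-(1 / (4 * W))) * s := by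
    intro s; field_simp
  simp_rw [e]
  have hneg : -(1 / (4 * W)) < 0 := by
    have : 0 < 1 / (4 * W) := by positivity
    linarith
  rw [← ofReal_integral_eq_lintegral_ofReal (integrableOn_exp_mul_Ioi hneg 0)
    (Filter.Eventually.of_forall fun s => (Real.exp_pos _).le)]
  rw [integral_exp_mul_Ioi hneg 0]
  congr 1
  simp

lemma mul_exp_le (t : ℝ) : t * Real.exp (-(t / 2)) ≤ 4 * Real.exp (-(t / 4)) := by
  have h1 : t ≤ 4 * Real.exp (t / 4) := by
    have := Real.add_one_le_exp (t / 4); linarith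
  have h2 : Real.exp (t / 4) * Real.exp (-(t / 2)) = Real.exp (-(t / 4)) := by
    rw [← Real.exp_add]; ring_nf
  calc t * Real.exp (-(t / 2)) ≤ (4 * Real.exp (t / 4)) * Real.exp (-(t / 2)) := by
        gcongr
    _ = _ := by rw [mul_assoc, h2]

lemma sq_mul_exp_le (t : ℝ) (ht : 0 ≤ t) : t ^ 2 * Real.exp (-(t / 2)) ≤ 128 * Real.exp (-(t / 4)) := by
  have h1 : t ^ 2 ≤ 128 * Real.exp (t / 8) := by
    have := Real.quadratic_le_exp_of_nonneg (x := t / 8) (by positivity)
    nlinarith
  have h2 : Real.exp (t / 8) * Real.exp (-(t / 2)) ≤ Real.exp (-(t / 4)) := by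
    rw [← Real.exp_add, Real.exp_le_exp]; linarith
  calc t ^ 2 * Real.exp (-(t / 2)) ≤ (128 * Real.exp (t / 8)) * Real.exp (-(t / 2)) := by
        gcongr
    _ ≤ _ := by
        rw [mul_assoc]
        gcongr

/-- the inner integral -/
lemma lintegral_inner (G c x : ℝ) (hx : 0 < x) :
    ∫⁻ s in Ioi (0 : ℝ), (if c ≤ s then ENNReal.ofReal (max 0 (G - s / x)) else 0)
      ≤ ENNReal.ofReal (x * (max 0 (G - c / x)) ^ 2) := by
  have h1 : ∀ s : ℝ, (if c ≤ s then ENNReal.ofReal (max 0 (G - s / x)) else 0)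
      ≤ (Icc c (x * G)).indicator (fun _ => ENNReal.ofReal (max 0 (G - c / x))) s := by
    intro s
    by_cases hs : c ≤ s
    · rw [if_pos hs]
      by_cases hs2 : s ≤ x * G
      · rw [indicator_of_mem (mem_Icc.2 ⟨hs, hs2⟩)]
        apply ENNReal.ofReal_le_ofReal
        apply max_le_max le_rfl
        have : c / x ≤ s / x := by gcongr
        linarith
      · push Not at hs2
        have : max 0 (G - s / x) = 0 := by
          apply max_eq_left
          rw [sub_nonpos, le_div_iff₀ hx]
          linarith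
        rw [this]; simp
    · rw [if_neg hs]; exact zero_le
  refine (lintegral_mono h1).trans ?_
  refine (setLIntegral_le_lintegral _ _).trans ?_
  rw [lintegral_indicator_const measurableSet_Icc, Real.volume_Icc,
    ← ENNReal.ofReal_mul (le_max_left _ _)]
  apply ENNReal.ofReal_le_ofReal
  by_cases hc : x * G - c ≤ 0
  · have : max 0 (G - c / x) = 0 := by
      apply max_eq_left
      rw [sub_nonpos, le_div_iff₀ hx]
      linarith
    rw [this]; simp
  · push Not at hc
    have h2 : 0 ≤ G - c / x := by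
      rw [sub_nonneg, div_le_iff₀ hx]
      linarith
    rw [max_eq_right h2]
    apply le_of_eq
    field_simp

end Pool.Agent.TSPd97.TU1
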