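import Pool.Agent.TSPd97.TreeU1c

/-!
MP_076557_pr, package TU1 (helper12): the expectation of the pair functional, assembled.
-/

set_option autoImplicit false

open MeasureTheory Set
open scoped ENNReal

namespace Pool.Agent.TSPd97.TU1

/-- `E (wbar - w_j)^2 / w_j` -/
noncomputable def ej (p : Par) (h j : ℕ) : ℝ≥0∞ :=
  ∫⁻ w, ENNReal.ofReal ((wbar p w - w j) ^ 2 / w j) ∂(mu p h)

/-- `E wbar (wbar - w_j)^2 / w_j^2` -/
noncomputable def aj (p : Par) (h j : ℕ) : ℝ≥0∞ :=
  ∫⁻ w, ENNReal.ofReal (wbar p w * (wbar p w - w j) ^ 2 / (w j) ^ 2) ∂(mu p h)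

lemma measurable_ejf (p : Par) (j : ℕ) :
    Measurable fun w : ℕ → ℝ => ENNReal.ofReal ((wbar p w - w j) ^ 2 / w j) :=
  ((((measurable_wbar p).sub (measurable_pi_apply j)).pow_const 2).div
    (measurable_pi_apply j)).ennreal_ofReal

lemma measurable_ajf (p : Par) (j : ℕ) :
    Measurable fun w : ℕ → ℝ => ENNReal.ofReal (wbar p w * (wbar p w - w j) ^ 2 / (w j) ^ 2) :=
  ((((measurable_wbar p).mul (((measurable_wbar p).sub (measurable_pi_apply j)).pow_const 2))).div
    ((measurable_pi_apply j).pow_const 2)).ennreal_ofReal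

lemma ofReal_avg (p : Par) (f : ℕ → ℝ) (hf : ∀ j ∈ Finset.Ico p.k (2 * p.k), 0 ≤ f j) :
    ENNReal.ofReal ((∑ j ∈ Finset.Ico p.k (2 * p.k), f j) / p.k)
      = ENNReal.ofReal (1 / p.k) * ∑ j ∈ Finset.Ico p.k (2 * p.k), ENNReal.ofReal (f j) := by
  rw [div_eq_mul_one_div, mul_comm, ENNReal.ofReal_mul (by positivity),
    ENNReal.ofReal_sum_of_nonneg hf]

lemma kernel_ineq (t a b x : ℝ) (hx : 0 ≤ x) :
    x * (max 0 (t * a - t * b)) ^ 2 ≤ 2 * t ^ 2 * (x * (a - 1) ^ 2) + 2 * t ^ 2 * (x * (1 - b) ^ 2) := by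
  have h1 : (max 0 (t * a - t * b)) ^ 2 ≤ (t * a - t * b) ^ 2 := by
    rcases le_total 0 (t * a - t * b) with h | h
    · rw [max_eq_right h]
    · rw [max_eq_left h]
      nlinarith [sq_nonneg (t * a - t * b)]
  have h2 : (t * a - t * b) ^ 2 ≤ 2 * t ^ 2 * (a - 1) ^ 2 + 2 * t ^ 2 * (1 - b) ^ 2 := by
    nlinarith [sq_nonneg (t * (a - 1) - t * (1 - b))]
  nlinarith

/-- the integral of the kernel over the second point -/
lemma lintegral_Ke_le (p : Par) (h : ℕ) (s : ℝ) (w : ℕ → ℝ) (hs : 0 < s) (hw : goodw p w) :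
    ∫⁻ z, Ke p (s, w) z ∂((leb (p.B ^ 2)).prod (mu p h))
      ≤ ENNReal.ofReal (1 / p.k) * ∑ j ∈ Finset.Ico p.k (2 * p.k),
          ENNReal.ofReal (2 * (s / wbar p w) ^ 2) *
            (ENNReal.ofReal ((wbar p w - w j) ^ 2 / (w j) ^ 2) * ENNReal.ofReal p.m
              + ej p h j) := by
  classical
  obtain ⟨hW, hWB⟩ := wbar_pos p hw
  set W := wbar p w with hWdef
  set t := s / W with ht
  have ht0 : 0 < t := div_pos hs hW
  have hKm : Measurable fun z => Ke p (s, w) z :=
    (measurable_Ke p).comp (measurable_const.prodMk measurable_id)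
  rw [lintegral_prod_symm _ hKm.aemeasurable]
  have hinner : ∀ᵐ w' ∂(mu p h), ∫⁻ s', Ke p (s, w) (s', w') ∂(leb (p.B ^ 2))
      ≤ ENNReal.ofReal (1 / p.k) * ∑ j ∈ Finset.Ico p.k (2 * p.k),
          ENNReal.ofReal (2 * t ^ 2) * (ENNReal.ofReal ((W - w j) ^ 2 / (w j) ^ 2) *
            ENNReal.ofReal (w' j) + ENNReal.ofReal ((wbar p w' - w' j) ^ 2 / w' j)) := by
    filter_upwards [ae_goodw p h] with w' hw'
    obtain ⟨hW', hWB'⟩ := wbar_pos p hw'
    refine (lintegral_leb_le _).trans ?_
    have e1 : ∀ s' : ℝ, Ke p (s, w) (s', w') = ENNReal.ofReal (1 / p.k) *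
        ∑ j ∈ Finset.Ico p.k (2 * p.k),
          (if t * wbar p w' ≤ s' then ENNReal.ofReal (max 0 (t * W / w j - s' / w' j)) else 0) := by
      intro s'
      unfold Ke
      have hcond : (Fv p (s, w) ≤ Fv p (s', w')) ↔ t * wbar p w' ≤ s' := by
        unfold Fv
        simp only
        rw [← hWdef, ← ht, le_div_iff₀ hW']
      by_cases hc : t * wbar p w' ≤ s'
      · rw [if_pos (hcond.2 hc)]
        unfold Kv
        rw [ofReal_avg p _ (fun j _ => le_max_left _ _)]
        congr 1
        apply Finset.sum_congr rfl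
        intro j _
        rw [if_pos hc]
        simp only
        rw [ht, div_mul_cancel₀ _ hW.ne']
      · rw [if_neg (fun hh => hc (hcond.1 hh))]
        simp [hc]
    simp_rw [e1]
    have hmj : ∀ j, Measurable fun s' : ℝ =>
        (if t * wbar p w' ≤ s' then ENNReal.ofReal (max 0 (t * W / w j - s' / w' j)) else 0) := by
      intro j
      refine Measurable.ite measurableSet_Ici ?_ measurable_const
      exact (measurable_const.max (measurable_const.sub (measurable_id.div_const _))).ennreal_ofReal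
    rw [lintegral_const_mul _ (Finset.measurable_sum _ fun j _ => hmj j),
      lintegral_finsetSum _ (fun j _ => hmj j)]
    refine mul_le_mul_right (Finset.sum_le_sum fun j hj => ?_) _
    rw [Finset.mem_Ico] at hj
    have hwj := (hw j (by omega)).1
    have hwj' := (hw' j (by omega)).1
    refine (lintegral_inner _ _ _ hwj').trans ?_
    rw [← ENNReal.ofReal_mul (by positivity), ← ENNReal.ofReal_add (by positivity) (by positivity),
      ← ENNReal.ofReal_mul (by positivity)]
    apply ENNReal.ofReal_le_ofReal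
    have h3 := kernel_ineq t (W / w j) (wbar p w' / w' j) (w' j) hwj'.le
    have e2 : t * W / w j = t * (W / w j) := by ring
    have e3 : t * wbar p w' / w' j = t * (wbar p w' / w' j) := by ring
    rw [e2, e3]
    refine h3.trans (le_of_eq ?_)
    field_simp
    ring
  refine (lintegral_mono_ae hinner).trans (le_of_eq ?_)
  have hm1 : ∀ j, Measurable fun w' : ℕ → ℝ => ENNReal.ofReal ((W - w j) ^ 2 / (w j) ^ 2) *
            ENNReal.ofReal (w' j) := fun j =>
    (measurable_pi_apply j).ennreal_ofReal.const_mul _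
  have hm2 : ∀ j, Measurable fun w' : ℕ → ℝ => ENNReal.ofReal (2 * t ^ 2) *
      (ENNReal.ofReal ((W - w j) ^ 2 / (w j) ^ 2) *
            ENNReal.ofReal (w' j) + ENNReal.ofReal ((wbar p w' - w' j) ^ 2 / w' j)) := fun j =>
    ((hm1 j).add (measurable_ejf p j)).const_mul _
  rw [lintegral_const_mul _ (Finset.measurable_sum _ fun j _ => hm2 j),
    lintegral_finsetSum _ (fun j _ => hm2 j)]
  congr 1
  apply Finset.sum_congr rfl
  intro j hj
  rw [Finset.mem_Ico] at hj
  have hm3 : Measurable fun w' : ℕ → ℝ => ENNReal.ofReal ((W - w j) ^ 2 / (w j) ^ 2) *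
      ENNReal.ofReal (w' j) + ENNReal.ofReal ((wbar p w' - w' j) ^ 2 / w' j) :=
    (hm1 j).add (measurable_ejf p j)
  have hm4 : Measurable fun w' : ℕ → ℝ => ENNReal.ofReal (w' j) :=
    (measurable_pi_apply j).ennreal_ofReal
  rw [lintegral_const_mul _ hm3, lintegral_add_left (hm1 j), lintegral_const_mul _ hm4,
    lintegral_coord p h j (by omega)]
  rfl

/-- probability that at most one point is below `F y` -/
lemma lintegral_ind2_le (p : Par) (h : ℕ) (s : ℝ) (w : ℕ → ℝ) (hs : 0 < s) (hw : goodw p w) :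
    ∫⁻ ξ, ind2 (Fv p) (p.B / 2) (s, w) ξ ∂(nb p h)
      ≤ ENNReal.ofReal (2 * Real.exp (-((s / wbar p w) / 2))) := by
  classical
  obtain ⟨hW, hWB⟩ := wbar_pos p hw
  set t := s / wbar p w with ht
  have ht0 : 0 < t := div_pos hs hW
  have hB := (Bpos p)
  by_cases hlt : Fv p (s, w) < p.B / 2
  · have htB : t < p.B / 2 := hlt
    have hA : MeasurableSet {v : ℝ × (ℕ → ℝ) | Fv p v < t} := (measurable_Fv p) measurableSet_Iio
    have h1 := PP_card_restr_le_one_le ((leb (p.B ^ 2)).prod (mu p h)) hA (p.m * t) t ht0.le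
      (by have := p.hm1; nlinarith) (nu_Fv_lt p h t ht0.le (by linarith))
    refine le_trans ?_ h1
    have hmc : Measurable fun ξ : Multiset (ℝ × (ℕ → ℝ)) =>
        Multiset.card (restr {v | Fv p v < t} ξ) :=
      measurable_mcard (measurable_restr_const hA measurable_id)
    have hset : MeasurableSet {ξ : Multiset (ℝ × (ℕ → ℝ)) |
        Multiset.card (restr {v | Fv p v < t} ξ) ≤ 1} := hmc measurableSet_Iic
    rw [← lintegral_indicator_one hset]
    unfold nb
    refine lintegral_mono fun ξ => ?_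
    unfold ind2
    have e : Fv p (s, w) = t := rfl
    rw [e]
    by_cases hc : Multiset.card (restr {v | Fv p v < t} ξ) ≤ 1
    · rw [indicator_of_mem (by simpa using hc)]
      split_ifs
      · exact le_rfl
      · exact zero_le
    · rw [if_neg (fun hh => hc hh.2)]
      exact zero_le
  · have : ∀ ξ, ind2 (Fv p) (p.B / 2) (s, w) ξ = 0 := by
      intro ξ
      unfold ind2
      rw [if_neg (fun hh => hlt hh.1)]
    simp [this]

/-- the expectation of the pair functional -/
lemma lintegral_pair_le (p : Par) (h : ℕ) :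
    ∫⁻ ξ, (ξ.map fun y => ind2 (Fv p) (p.B / 2) y ξ * (Pe p y + (ξ.map (Ke p y)).sum)).sum
        ∂(nb p h)
      ≤ ENNReal.ofReal (1 / p.k) * ∑ j ∈ Finset.Ico p.k (2 * p.k),
          (128 * ej p h j + 2048 * (ENNReal.ofReal p.m * aj p h j + ENNReal.ofReal p.m * ej p h j)) := by
  have hk := (kpos p)
  unfold nb
  rw [lintegral_pair _ (measurable_Fv p) _ (measurable_Pe p) (measurable_Ke p) (Ke_self p)
    (Ke_eq_zero p)]
  have hKm : Measurable fun y : ℝ × (ℕ → ℝ) => ∫⁻ z, Ke p y z ∂((leb (p.B ^ 2)).prod (mu p h)) :=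
    (measurable_Ke p).lintegral_prod_right'
  have hIm : Measurable fun y : ℝ × (ℕ → ℝ) => ∫⁻ ξ, ind2 (Fv p) (p.B / 2) y ξ
      ∂(PP ((leb (p.B ^ 2)).prod (mu p h))) :=
    (measurable_ind2 (measurable_Fv p) _).lintegral_prod_right'
  have hIK : Measurable fun y : ℝ × (ℕ → ℝ) =>
      (∫⁻ ξ, ind2 (Fv p) (p.B / 2) y ξ ∂(PP ((leb (p.B ^ 2)).prod (mu p h)))) *
        (Pe p y + ∫⁻ z, Ke p y z ∂((leb (p.B ^ 2)).prod (mu p h))) :=
    hIm.mul ((measurable_Pe p).add hKm)
  rw [lintegral_prod_symm _ hIK.aemeasurable]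
  have hstep : ∀ᵐ w ∂(mu p h), ∫⁻ s, (∫⁻ ξ, ind2 (Fv p) (p.B / 2) (s, w) ξ
        ∂(PP ((leb (p.B ^ 2)).prod (mu p h)))) *
        (Pe p (s, w) + ∫⁻ z, Ke p (s, w) z ∂((leb (p.B ^ 2)).prod (mu p h))) ∂(leb (p.B ^ 2))
      ≤ ENNReal.ofReal (1 / p.k) * ∑ j ∈ Finset.Ico p.k (2 * p.k),
          (128 * ENNReal.ofReal ((wbar p w - w j) ^ 2 / w j)
            + 2048 * (ENNReal.ofReal p.m *
              ENNReal.ofReal (wbar p w * (wbar p w - w j) ^ 2 / (w j) ^ 2)
              + ENNReal.ofReal (wbar p w) * ej p h j)) := by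
    filter_upwards [ae_goodw p h] with w hw
    obtain ⟨hW, hWB⟩ := wbar_pos p hw
    refine (lintegral_leb_le _).trans ?_
    have hD := Dv_nonneg p hw
    -- pointwise bound by `exp (-t/4)` times a constant
    have hpt : ∀ s ∈ Ioi (0 : ℝ), (∫⁻ ξ, ind2 (Fv p) (p.B / 2) (s, w) ξ
        ∂(PP ((leb (p.B ^ 2)).prod (mu p h)))) *
        (Pe p (s, w) + ∫⁻ z, Ke p (s, w) z ∂((leb (p.B ^ 2)).prod (mu p h)))
        ≤ ENNReal.ofReal (Real.exp (-((s / wbar p w) / 4))) *
          (ENNReal.ofReal (32 * Dv p w) + ENNReal.ofReal (1 / p.k) *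
            ∑ j ∈ Finset.Ico p.k (2 * p.k), 512 *
            (ENNReal.ofReal ((wbar p w - w j) ^ 2 / (w j) ^ 2) * ENNReal.ofReal p.m
              + ej p h j)) := by
      intro s hs
      rw [mem_Ioi] at hs
      have h1 := lintegral_ind2_le p h s w hs hw
      unfold nb at h1
      have h2 := lintegral_Ke_le p h s w hs hw
      set t := s / wbar p w with ht
      have ht0 : 0 < t := div_pos hs hW
      calc _ ≤ ENNReal.ofReal (2 * Real.exp (-(t / 2))) * (Pe p (s, w) +
            ENNReal.ofReal (1 / p.k) * ∑ j ∈ Finset.Ico p.k (2 * p.k),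
              ENNReal.ofReal (2 * t ^ 2) *
                (ENNReal.ofReal ((wbar p w - w j) ^ 2 / (w j) ^ 2) * ENNReal.ofReal p.m
                  + ej p h j)) := by
            gcongr
        _ = ENNReal.ofReal (2 * Real.exp (-(t / 2))) * Pe p (s, w) +
            ENNReal.ofReal (1 / p.k) * ∑ j ∈ Finset.Ico p.k (2 * p.k),
              (ENNReal.ofReal (2 * Real.exp (-(t / 2))) * ENNReal.ofReal (2 * t ^ 2)) *
                (ENNReal.ofReal ((wbar p w - w j) ^ 2 / (w j) ^ 2) * ENNReal.ofReal p.m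
                  + ej p h j) := by
            rw [mul_add, ← mul_assoc, mul_comm (ENNReal.ofReal (2 * Real.exp (-(t / 2))))
              (ENNReal.ofReal (1 / p.k)), mul_assoc (ENNReal.ofReal (1 / (p.k : ℝ))),
              Finset.mul_sum]
            congr 2
            apply Finset.sum_congr rfl
            intro j _
            ring
        _ ≤ ENNReal.ofReal (Real.exp (-(t / 4))) * ENNReal.ofReal (32 * Dv p w) +
            ENNReal.ofReal (1 / p.k) * ∑ j ∈ Finset.Ico p.k (2 * p.k),
              (ENNReal.ofReal (Real.exp (-(t / 4))) * 512) *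
                (ENNReal.ofReal ((wbar p w - w j) ^ 2 / (w j) ^ 2) * ENNReal.ofReal p.m
                  + ej p h j) := by
            refine add_le_add ?_ ?_
            · unfold Pe
              rw [← ENNReal.ofReal_mul (by positivity), ← ENNReal.ofReal_mul (by positivity)]
              apply ENNReal.ofReal_le_ofReal
              have e1 : Fv p (s, w) = t := rfl
              rw [e1]
              have := mul_exp_le t
              nlinarith
            · refine mul_le_mul_right (Finset.sum_le_sum fun j _ => mul_le_mul_left ?_ _) _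
              rw [← ENNReal.ofReal_mul (by positivity), show (512 : ℝ≥0∞) = ENNReal.ofReal 512 by simp,
                ← ENNReal.ofReal_mul (by positivity)]
              apply ENNReal.ofReal_le_ofReal
              have := sq_mul_exp_le t ht0.le
              nlinarith
        _ = _ := by
            have e5 : ∑ j ∈ Finset.Ico p.k (2 * p.k),
                (ENNReal.ofReal (Real.exp (-(t / 4))) * 512) *
                  (ENNReal.ofReal ((wbar p w - w j) ^ 2 / (w j) ^ 2) * ENNReal.ofReal p.m
                    + ej p h j) = ENNReal.ofReal (Real.exp (-(t / 4))) *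
                ∑ j ∈ Finset.Ico p.k (2 * p.k), 512 *
                  (ENNReal.ofReal ((wbar p w - w j) ^ 2 / (w j) ^ 2) * ENNReal.ofReal p.m
                    + ej p h j) := by
              rw [Finset.mul_sum]
              apply Finset.sum_congr rfl
              intro j _
              ring
            rw [e5]
            ring
    refine (setLIntegral_mono' measurableSet_Ioi hpt).trans ?_
    have hmexp : Measurable fun s : ℝ => ENNReal.ofReal (Real.exp (-((s / wbar p w) / 4))) :=
      (Real.measurable_exp.comp (((measurable_id.div_const _).div_const _).neg)).ennreal_ofReal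
    rw [lintegral_mul_const _ hmexp, lintegral_exp _ hW]
    -- now the algebra
    have e0 : ENNReal.ofReal (32 * Dv p w) = ENNReal.ofReal (1 / p.k) *
        ∑ j ∈ Finset.Ico p.k (2 * p.k),
          32 * ENNReal.ofReal ((wbar p w - w j) ^ 2 / (wbar p w * w j)) := by
      unfold Dv
      rw [ENNReal.ofReal_mul (by norm_num), ofReal_avg, ← Finset.mul_sum]
      · simp only [ENNReal.ofReal_ofNat]
        ring
      · intro j hj
        rw [Finset.mem_Ico] at hj
        have := (hw j (by omega)).1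
        positivity
    rw [e0, ← mul_add, ← Finset.sum_add_distrib, ← mul_assoc,
      mul_comm (ENNReal.ofReal (4 * wbar p w)) (ENNReal.ofReal (1 / (p.k : ℝ))), mul_assoc,
      Finset.mul_sum]
    refine le_of_eq ?_
    congr 1
    apply Finset.sum_congr rfl
    intro j hj
    rw [Finset.mem_Ico] at hj
    have hwj := (hw j (by omega)).1
    have e1 : ENNReal.ofReal (4 * wbar p w) = 4 * ENNReal.ofReal (wbar p w) := by
      rw [ENNReal.ofReal_mul (by norm_num)]; simp
    have e2 : ENNReal.ofReal ((wbar p w - w j) ^ 2 / w j)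
        = ENNReal.ofReal (wbar p w) * ENNReal.ofReal ((wbar p w - w j) ^ 2 / (wbar p w * w j)) := by
      rw [← ENNReal.ofReal_mul hW.le]
      congr 1
      field_simp
    have e3 : ENNReal.ofReal (wbar p w * (wbar p w - w j) ^ 2 / (w j) ^ 2)
        = ENNReal.ofReal (wbar p w) * ENNReal.ofReal ((wbar p w - w j) ^ 2 / (w j) ^ 2) := by
      rw [← ENNReal.ofReal_mul hW.le]
      congr 1
      field_simp
    rw [e1, e2, e3]
    ring
  refine (lintegral_mono_ae hstep).trans (le_of_eq ?_)
  have hm1 : ∀ j, Measurable fun w : ℕ → ℝ => ENNReal.ofReal p.m *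
      ENNReal.ofReal (wbar p w * (wbar p w - w j) ^ 2 / (w j) ^ 2) := fun j =>
    (measurable_ajf p j).const_mul _
  have hm2 : ∀ j, Measurable fun w : ℕ → ℝ => ENNReal.ofReal (wbar p w) * ej p h j := fun j =>
    (measurable_wbar p).ennreal_ofReal.mul_const _
  have hm3 : ∀ j, Measurable fun w : ℕ → ℝ => ENNReal.ofReal p.m *
      ENNReal.ofReal (wbar p w * (wbar p w - w j) ^ 2 / (w j) ^ 2)
      + ENNReal.ofReal (wbar p w) * ej p h j := fun j => (hm1 j).add (hm2 j)
  have hm4 : ∀ j, Measurable fun w : ℕ → ℝ => 128 * ENNReal.ofReal ((wbar p w - w j) ^ 2 / w j) :=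
    fun j => (measurable_ejf p j).const_mul _
  have hm5 : ∀ j, Measurable fun w : ℕ → ℝ => 128 * ENNReal.ofReal ((wbar p w - w j) ^ 2 / w j)
      + 2048 * (ENNReal.ofReal p.m *
      ENNReal.ofReal (wbar p w * (wbar p w - w j) ^ 2 / (w j) ^ 2)
      + ENNReal.ofReal (wbar p w) * ej p h j) := fun j => (hm4 j).add ((hm3 j).const_mul _)
  rw [lintegral_const_mul _ (Finset.measurable_sum _ fun j _ => hm5 j),
    lintegral_finsetSum _ (fun j _ => hm5 j)]
  congr 1
  apply Finset.sum_congr rfl
  intro j _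
  rw [lintegral_add_left (hm4 j), lintegral_const_mul _ (measurable_ejf p j),
    lintegral_const_mul _ (hm3 j), lintegral_add_left (hm1 j),
    lintegral_const_mul _ (measurable_ajf p j),
    lintegral_mul_const _ (measurable_wbar p).ennreal_ofReal, lintegral_wbar]
  rfl

end Pool.Agent.TSPd97.TU1
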