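import Pool.Agent.TSPd97.TreeU1d

/-!
MP_076557_pr, package TU1 (helper12): the missing degree on the tree.
-/

set_option autoImplicit false

open MeasureTheory Set
open scoped ENNReal

namespace Pool.Agent.TSPd97.TU1

/-- the controlled quantity of `master_bound` -/
noncomputable def Mf (i j : ℕ) (w : ℕ → ℝ) : ℝ := w i * (max 0 (w i - w j)) ^ 2 / (w j) ^ 2

lemma measurable_Mf (i j : ℕ) : Measurable (Mf i j) := by
  unfold Mf
  exact ((measurable_pi_apply i).mul ((measurable_const.max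
    ((measurable_pi_apply i).sub (measurable_pi_apply j))).pow_const 2)).div
    ((measurable_pi_apply j).pow_const 2)

lemma sq_div_le_Mf {w : ℕ → ℝ} (i j : ℕ) (hi : 0 < w i) (hj : 0 < w j) :
    (w i - w j) ^ 2 / w j ≤ Mf i j w + Mf j i w := by
  unfold Mf
  rcases le_total (w j) (w i) with h | h
  · rw [max_eq_right (by linarith), max_eq_left (by linarith)]
    have : (w i - w j) ^ 2 / w j ≤ w i * (w i - w j) ^ 2 / (w j) ^ 2 := by
      rw [div_le_div_iff₀ hj (by positivity)]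
      have h2 : 0 ≤ (w i - w j) ^ 2 := sq_nonneg _
      nlinarith [mul_nonneg h2 (mul_nonneg hj.le (sub_nonneg.2 h))]
    simpa using this
  · rw [max_eq_left (by linarith), max_eq_right (by linarith)]
    have : (w i - w j) ^ 2 / w j ≤ w j * (w j - w i) ^ 2 / (w i) ^ 2 := by
      rw [div_le_div_iff₀ hj (by positivity)]
      have h2 : 0 ≤ (w i - w j) ^ 2 := sq_nonneg _
      have h3 : (w i) ^ 2 ≤ (w j) ^ 2 := by nlinarith
      have e : (w j - w i) ^ 2 = (w i - w j) ^ 2 := by ring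
      rw [e]
      nlinarith [mul_nonneg h2 (sub_nonneg.2 h3)]
    simpa using this

lemma wbar_sub_eq (p : Par) (w : ℕ → ℝ) (x : ℝ) :
    wbar p w - x = (∑ i ∈ Finset.Ico p.k (2 * p.k), (w i - x)) / p.k := by
  rw [Finset.sum_sub_distrib, sub_div, sum_const_window]
  rfl

lemma wbar_sq_le (p : Par) (w : ℕ → ℝ) (x : ℝ) :
    (wbar p w - x) ^ 2 ≤ (∑ i ∈ Finset.Ico p.k (2 * p.k), (w i - x) ^ 2) / p.k := by
  have hk := (kpos p)
  rw [wbar_sub_eq, div_pow, div_le_div_iff₀ (by positivity) hk]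
  have h := sq_sum_le_card_mul_sum_sq (s := Finset.Ico p.k (2 * p.k)) (f := fun i => w i - x)
  rw [card_window] at h
  nlinarith

lemma ejf_le (p : Par) (w : ℕ → ℝ) (hw : goodw p w) (j : ℕ)
    (hj : j ∈ Finset.Ico p.k (2 * p.k)) :
    (wbar p w - w j) ^ 2 / w j
      ≤ (∑ i ∈ Finset.Ico p.k (2 * p.k), (Mf i j w + Mf j i w)) / p.k := by
  have hk := (kpos p)
  have hj' := Finset.mem_Ico.1 hj
  have hwj := (hw j (by omega)).1
  have h1 := wbar_sq_le p w (w j)
  calc (wbar p w - w j) ^ 2 / w j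
      ≤ ((∑ i ∈ Finset.Ico p.k (2 * p.k), (w i - w j) ^ 2) / p.k) / w j := by gcongr
    _ = (∑ i ∈ Finset.Ico p.k (2 * p.k), (w i - w j) ^ 2 / w j) / p.k := by
        rw [← Finset.sum_div]; ring
    _ ≤ _ := by
        apply avg_mono
        intro i hi
        have hi' := Finset.mem_Ico.1 hi
        exact sq_div_le_Mf i j (hw i (by omega)).1 hwj

lemma convex_aux (W x w : ℝ) (hx : 0 < x) (hW : x ≤ W) (_hw : 0 ≤ w) :
    W * (W - x) ^ 2 + (W - x) * (3 * W - x) * (w - W) ≤ w * (max 0 (w - x)) ^ 2 := by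
  rcases le_total x w with h | h
  · rw [max_eq_right (by linarith)]
    have : 0 ≤ (w - W) ^ 2 * (w + 2 * W - 2 * x) := by
      apply mul_nonneg (sq_nonneg _); linarith
    nlinarith
  · rw [max_eq_left (by linarith)]
    have h1 : 0 ≤ W - x := by linarith
    have h2 : W * (W - x) ≤ (3 * W - x) * (W - w) := by
      nlinarith
    nlinarith [mul_nonneg h1 (sub_nonneg.2 h2)]

lemma ajf_le (p : Par) (w : ℕ → ℝ) (hw : goodw p w) (j : ℕ)
    (hj : j ∈ Finset.Ico p.k (2 * p.k)) :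
    wbar p w * (wbar p w - w j) ^ 2 / (w j) ^ 2
      ≤ (∑ i ∈ Finset.Ico p.k (2 * p.k), Mf i j w) / p.k + (wbar p w - w j) ^ 2 / w j := by
  have hk := (kpos p)
  have hj' := Finset.mem_Ico.1 hj
  have hwj := (hw j (by omega)).1
  obtain ⟨hW, hWB⟩ := wbar_pos p hw
  have hMn : 0 ≤ (∑ i ∈ Finset.Ico p.k (2 * p.k), Mf i j w) / p.k := by
    apply div_nonneg _ hk.le
    apply Finset.sum_nonneg
    intro i hi
    have hi' := Finset.mem_Ico.1 hi
    have := (hw i (by omega)).1
    unfold Mf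
    positivity
  rcases le_total (w j) (wbar p w) with h | h
  · have h2 : wbar p w * (wbar p w - w j) ^ 2
        ≤ (∑ i ∈ Finset.Ico p.k (2 * p.k), w i * (max 0 (w i - w j)) ^ 2) / p.k := by
      have h3 := avg_mono p (f := fun i => wbar p w * (wbar p w - w j) ^ 2
          + (wbar p w - w j) * (3 * wbar p w - w j) * (w i - wbar p w))
        (g := fun i => w i * (max 0 (w i - w j)) ^ 2) (fun i hi => by
          have hi' := Finset.mem_Ico.1 hi
          exact convex_aux _ _ _ hwj h (hw i (by omega)).1.le)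
      rw [Finset.sum_add_distrib, add_div, sum_const_window, ← Finset.mul_sum, mul_div_assoc,
        ← wbar_sub_eq] at h3
      simpa using h3
    have h4 : wbar p w * (wbar p w - w j) ^ 2 / (w j) ^ 2
        ≤ (∑ i ∈ Finset.Ico p.k (2 * p.k), Mf i j w) / p.k := by
      calc wbar p w * (wbar p w - w j) ^ 2 / (w j) ^ 2
          ≤ ((∑ i ∈ Finset.Ico p.k (2 * p.k), w i * (max 0 (w i - w j)) ^ 2) / p.k) / (w j) ^ 2 := by
            gcongr
        _ = _ := by
            unfold Mf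
            rw [← Finset.sum_div]; ring
    have : 0 ≤ (wbar p w - w j) ^ 2 / w j := by positivity
    linarith
  · have h2 : wbar p w * (wbar p w - w j) ^ 2 / (w j) ^ 2 ≤ (wbar p w - w j) ^ 2 / w j := by
      rw [div_le_div_iff₀ (by positivity) hwj]
      have h3 : 0 ≤ (wbar p w - w j) ^ 2 := sq_nonneg _
      nlinarith [mul_nonneg h3 (mul_nonneg hwj.le (sub_nonneg.2 h))]
    linarith

lemma ofReal_avg_le (p : Par) (c : ℝ≥0∞) (f : ℕ → ℝ≥0∞)
    (hf : ∀ j ∈ Finset.Ico p.k (2 * p.k), f j ≤ c) :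
    ENNReal.ofReal (1 / p.k) * ∑ j ∈ Finset.Ico p.k (2 * p.k), f j ≤ c := by
  have hk := (kpos p)
  calc ENNReal.ofReal (1 / p.k) * ∑ j ∈ Finset.Ico p.k (2 * p.k), f j
      ≤ ENNReal.ofReal (1 / p.k) * ∑ _j ∈ Finset.Ico p.k (2 * p.k), c :=
        mul_le_mul_right (Finset.sum_le_sum hf) _
    _ = c := by
        rw [Finset.sum_const, nsmul_eq_mul, ← mul_assoc]
        have : (((Finset.Ico p.k (2 * p.k)).card : ℕ) : ℝ≥0∞) = ENNReal.ofReal p.k := by
          rw [← card_window p, ENNReal.ofReal_natCast]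
        rw [this, ← ENNReal.ofReal_mul (by positivity), one_div, inv_mul_cancel₀ hk.ne']
        simp

/-- bounds for `ej` and `aj` from the master bound -/
lemma ej_aj_le (p : Par) (h : ℕ) (c : ℝ≥0∞)
    (hM : ∀ i j, p.k ≤ i → i ≤ 2 * p.k → p.k ≤ j → j ≤ 2 * p.k →
      ∫⁻ w, ENNReal.ofReal (Mf i j w) ∂(mu p h) ≤ c) (j : ℕ)
    (hj : j ∈ Finset.Ico p.k (2 * p.k)) : ej p h j ≤ 2 * c ∧ aj p h j ≤ 3 * c := by
  have hj' := Finset.mem_Ico.1 hj
  have hMm : ∀ i j, Measurable fun w : ℕ → ℝ => ENNReal.ofReal (Mf i j w) :=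
    fun i j => (measurable_Mf i j).ennreal_ofReal
  have hMnn : ∀ w, goodw p w → ∀ i ∈ Finset.Ico p.k (2 * p.k), ∀ j ∈ Finset.Ico p.k (2 * p.k),
      0 ≤ Mf i j w := by
    intro w hw i hi j hj
    rw [Finset.mem_Ico] at hi hj
    have h1 := (hw i (by omega)).1
    have h2 := (hw j (by omega)).1
    unfold Mf
    positivity
  have hA : ENNReal.ofReal (1 / p.k) * ∑ i ∈ Finset.Ico p.k (2 * p.k),
      ∫⁻ w, ENNReal.ofReal (Mf i j w) ∂(mu p h) ≤ c := by
    apply ofReal_avg_le
    intro i hi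
    rw [Finset.mem_Ico] at hi
    exact hM i j (by omega) (by omega) (by omega) (by omega)
  have hE : ej p h j ≤ 2 * c := by
    unfold ej
    have h1 : ∀ᵐ w ∂(mu p h), ENNReal.ofReal ((wbar p w - w j) ^ 2 / w j)
        ≤ ENNReal.ofReal (1 / p.k) * ∑ i ∈ Finset.Ico p.k (2 * p.k),
          (ENNReal.ofReal (Mf i j w) + ENNReal.ofReal (Mf j i w)) := by
      filter_upwards [ae_goodw p h] with w hw
      refine (ENNReal.ofReal_le_ofReal (ejf_le p w hw j hj)).trans (le_of_eq ?_)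
      rw [ofReal_avg]
      · congr 1
        apply Finset.sum_congr rfl
        intro i hi
        exact ENNReal.ofReal_add (hMnn w hw i hi j hj) (hMnn w hw j hj i hi)
      · intro i hi
        exact add_nonneg (hMnn w hw i hi j hj) (hMnn w hw j hj i hi)
    refine (lintegral_mono_ae h1).trans ?_
    have hm2 : ∀ i, Measurable fun w : ℕ → ℝ =>
        ENNReal.ofReal (Mf i j w) + ENNReal.ofReal (Mf j i w) := fun i => (hMm i j).add (hMm j i)
    rw [lintegral_const_mul _ (Finset.measurable_sum _ fun i _ => hm2 i),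
      lintegral_finsetSum _ (fun i _ => hm2 i)]
    apply ofReal_avg_le
    intro i hi
    rw [Finset.mem_Ico] at hi
    rw [lintegral_add_left (hMm i j), two_mul]
    exact add_le_add (hM i j (by omega) (by omega) (by omega) (by omega))
      (hM j i (by omega) (by omega) (by omega) (by omega))
  refine ⟨hE, ?_⟩
  unfold aj
  have h1 : ∀ᵐ w ∂(mu p h), ENNReal.ofReal (wbar p w * (wbar p w - w j) ^ 2 / (w j) ^ 2)
      ≤ ENNReal.ofReal (1 / p.k) * (∑ i ∈ Finset.Ico p.k (2 * p.k), ENNReal.ofReal (Mf i j w))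
        + ENNReal.ofReal ((wbar p w - w j) ^ 2 / w j) := by
    filter_upwards [ae_goodw p h] with w hw
    refine (ENNReal.ofReal_le_ofReal (ajf_le p w hw j hj)).trans ?_
    refine ENNReal.ofReal_add_le.trans (le_of_eq ?_)
    rw [ofReal_avg]
    intro i hi
    exact hMnn w hw i hi j hj
  refine (lintegral_mono_ae h1).trans ?_
  have hm3 : Measurable fun w : ℕ → ℝ =>
      ∑ i ∈ Finset.Ico p.k (2 * p.k), ENNReal.ofReal (Mf i j w) :=
    Finset.measurable_sum _ fun i _ => hMm i j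
  rw [lintegral_add_left (hm3.const_mul _), lintegral_const_mul _ hm3,
    lintegral_finsetSum _ (fun i _ => hMm i j)]
  calc _ ≤ c + 2 * c := add_le_add hA hE
    _ = 3 * c := by ring

end Pool.Agent.TSPd97.TU1
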