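import Pool.Agent.TSPd97.EucMeas
import Pool.Agent.TSPd97.TreeDefs

/-!
MP_076557_pr, helper97: definitions for the Euclidean side (root laws, extended messages,
the selected graph, short cycles).
-/

set_option autoImplicit false

open MeasureTheory Set
open scoped ENNReal

namespace Pool.Agent.TSPd97

/-- law of the marked neighbourhood of the root of the tree, generic message system -/
noncomputable def troot {V : Type*} [MeasurableSpace V] (v0 : V) (Ψ : Multiset (ℝ × V) → V)
    (S : ℝ) (h : ℕ) : Measure (Multiset (ℝ × V)) :=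
  PP ((volume.restrict (Ioc 0 S)).prod (tmu v0 Ψ S h))

/-- the coupling error per unit intensity -/
noncomputable def eerr (d : ℕ) (S : ℝ) (h : ℕ) : ℝ :=
  (15 / 16 : ℝ) ^ ((d : ℝ) / 2) * (S + 3) ^ (2 * h + 2)

/-! ### the extended message system for the upper bound -/

/-- forget the threshold component of the marks -/
def fg (q : ℝ × ((ℕ → ℝ) × ℝ)) : ℝ × (ℕ → ℝ) := (q.1, q.2.1)

/-- extended update: message vector and selection threshold -/
noncomputable def updx (p : Par) (ξ : Multiset (ℝ × ((ℕ → ℝ) × ℝ))) : (ℕ → ℝ) × ℝ :=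
  (upd p (ξ.map fg), qthr p (ξ.map fg))

/-- extended initial message -/
noncomputable def vinitx (p : Par) : (ℕ → ℝ) × ℝ := (vinit p, 0)

/-- selection rule for an edge of scaled length `s` with messages `a` (from `x` to `y`) and `b`
(from `y` to `x`) -/
def sel (p : Par) (s : ℝ) (a b : (ℕ → ℝ) × ℝ) : Prop :=
  s < min (wbar p b.1 * a.2) (wbar p a.1 * b.2)

/-- the selected graph on the configuration `P` (messages of depth `h`) -/
def FE (p : Par) {d : ℕ} (K : ℝ) (h : ℕ) (P : Multiset (Vd d)) (x y : Vd d) : Prop :=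
  y ∈ Nb K (p.B ^ 2) x ∧
    sel p (sd K x y) (msg (vinitx p) (updx p) K (p.B ^ 2) h P x y)
      (msg (vinitx p) (updx p) K (p.B ^ 2) h P y x)

open Classical in
/-- sum over the elements of a multiset of a function of the element and the rest -/
noncomputable def esum {E : Type*} (f : E → Multiset E → ℝ) (ξ : Multiset E) : ℝ :=
  (ξ.map (fun q => f q (ξ.erase q))).sum

open Classical in
/-- degree of the root as a function of its marked neighbourhood -/
noncomputable def dfun (p : Par) (ξ : Multiset (ℝ × ((ℕ → ℝ) × ℝ))) : ℝ :=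
  esum (fun q ζ => if sel p q.1 (updx p ζ) q.2 then 1 else 0) ξ

open Classical in
/-- half the cost of the selected edges at the root -/
noncomputable def cfun (p : Par) (d : ℕ) (ξ : Multiset (ℝ × ((ℕ → ℝ) × ℝ))) : ℝ :=
  esum (fun q ζ => if sel p q.1 (updx p ζ) q.2 then q.1 ^ (1 / (d : ℝ)) / 2 else 0) ξ

/-- `w` lies on a cycle of length between `3` and `m` of the selected graph of `P` -/
def ShortCyc (p : Par) {d : ℕ} (K : ℝ) (h m : ℕ) (P : Multiset (Vd d)) (w : Vd d) : Prop :=
  ∃ l : List (Vd d), l.Nodup ∧ 3 ≤ l.length ∧ l.length ≤ m ∧ (∀ z ∈ l, z ∈ P) ∧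
    l.IsChain (FE p K h P) ∧ ∃ hl : l ≠ [], l.head hl = w ∧ FE p K h P (l.getLast hl) (l.head hl)

/-! ### functionals of the selected graph (`P` a configuration, `h` the message depth) -/

/-- missing degree of `v` -/
noncomputable def wtP (p : Par) {d : ℕ} (K : ℝ) (h : ℕ) (P : Multiset (Vd d)) (v : Vd d) : ℝ :=
  2 - (Multiset.card (restr {y | FE p K h P v y} P) : ℝ)

/-- total missing degree -/
noncomputable def N1f (p : Par) {d : ℕ} (K : ℝ) (h : ℕ) (P : Multiset (Vd d)) : ℝ :=
  (P.map (wtP p K h P)).sum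

/-- far pairs of missing degrees -/
noncomputable def N2f (p : Par) {d : ℕ} (K Δ : ℝ) (h : ℕ) (P : Multiset (Vd d)) : ℝ :=
  (P.map fun v => ((restr {w | p.B ^ 2 < sd K v w ∧ sd K v w ≤ Δ} P).map fun w =>
    wtP p K h P v * wtP p K h P w).sum).sum

/-- far triples of missing degrees -/
noncomputable def N3f (p : Par) {d : ℕ} (K Δ : ℝ) (h : ℕ) (P : Multiset (Vd d)) : ℝ :=
  (P.map fun v => ((restr {w | p.B ^ 2 < sd K v w ∧ sd K v w ≤ Δ} P).map fun w =>
    ((restr {z | (p.B ^ 2 < sd K v z ∧ sd K v z ≤ Δ) ∧ z ≠ w} P).map fun z =>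
      wtP p K h P v * wtP p K h P w * wtP p K h P z).sum).sum).sum

/-- cost of the selected graph in units of `K^(-1/d)` -/
noncomputable def Cf (p : Par) {d : ℕ} (K : ℝ) (h : ℕ) (P : Multiset (Vd d)) : ℝ :=
  (P.map fun v => ((restr {y | FE p K h P v y} P).map
    fun y => (sd K v y) ^ (1 / (d : ℝ)) / 2).sum).sum

end Pool.Agent.TSPd97
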