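import Pool.Agent.TSPd97.Stable
import Pool.Agent.TSPd97.Deg
import Pool.Agent.TSPd97.RootLaw

/-!
MP_076557_pr, package UM (helper98): moments of the selected graph.
-/

set_option autoImplicit false

open MeasureTheory Set Filter Topology
open scoped ENNReal

namespace Pool.Agent.TSPd97

namespace UM

/-- the type of marked neighbourhoods -/
abbrev MN := Multiset (ℝ × ((ℕ → ℝ) × ℝ))

/-- clamped half missing degree -/
noncomputable def g0 (p : Par) (ξ : MN) : ℝ := max 0 (min 1 ((2 - dfun p ξ) / 2))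

/-- clamped normalised cost -/
noncomputable def g1 (p : Par) (d : ℕ) (ξ : MN) : ℝ :=
  max 0 (min 1 (cfun p d ξ / (p.B ^ 2) ^ (1 / (d : ℝ))))

lemma g0_nonneg (p : Par) (ξ : MN) : 0 ≤ g0 p ξ := le_max_left _ _
lemma g1_nonneg (p : Par) (d : ℕ) (ξ : MN) : 0 ≤ g1 p d ξ := le_max_left _ _
lemma g0_le (p : Par) (ξ : MN) : g0 p ξ ≤ 1 := max_le zero_le_one (min_le_left _ _)
lemma g1_le (p : Par) (d : ℕ) (ξ : MN) : g1 p d ξ ≤ 1 := max_le zero_le_one (min_le_left _ _)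

lemma measurable_g0 (p : Par) : Measurable (g0 p) :=
  measurable_const.max (measurable_const.min
    ((measurable_const.sub (measurable_dfun p)).div_const 2))

lemma measurable_g1 (p : Par) (d : ℕ) : Measurable (g1 p d) :=
  measurable_const.max (measurable_const.min ((measurable_cfun p d).div_const _))

lemma ofReal_msum {E : Type*} (f : E → ℝ) (s : Multiset E) (hf : ∀ x ∈ s, 0 ≤ f x) :
    ENNReal.ofReal ((s.map f).sum) = (s.map fun x => ENNReal.ofReal (f x)).sum := by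
  induction s using Multiset.induction_on with
  | empty => simp
  | cons a s ih =>
    have h1 : ∀ x ∈ s, 0 ≤ f x := fun x hx => hf x (Multiset.mem_cons_of_mem hx)
    have h2 : 0 ≤ (s.map f).sum := by
      refine Multiset.sum_nonneg (fun y hy => ?_)
      rw [Multiset.mem_map] at hy
      obtain ⟨x, hx, rfl⟩ := hy
      exact h1 x hx
    rw [Multiset.map_cons, Multiset.sum_cons, Multiset.map_cons, Multiset.sum_cons,
      ENNReal.ofReal_add (hf a (Multiset.mem_cons_self a s)) h2, ih h1]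

lemma msum_nonneg {E : Type*} (f : E → ℝ) (s : Multiset E) (hf : ∀ x ∈ s, 0 ≤ f x) :
    0 ≤ (s.map f).sum := by
  refine Multiset.sum_nonneg (fun y hy => ?_)
  rw [Multiset.mem_map] at hy
  obtain ⟨x, hx, rfl⟩ := hy
  exact hf x hx

lemma integrable_bound {Ω : Type*} [MeasurableSpace Ω] {μ : Measure Ω} {f : Ω → ℝ}
    (hf : Measurable f) (h0 : ∀ x, 0 ≤ f x) {U : ℝ} (hU : 0 ≤ U)
    (h : ∫⁻ x, ENNReal.ofReal (f x) ∂μ ≤ ENNReal.ofReal U) :
    Integrable f μ ∧ ∫ x, f x ∂μ ≤ U := by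
  have hi : Integrable f μ := by
    refine ⟨hf.aestronglyMeasurable, ?_⟩
    rw [hasFiniteIntegral_iff_ofReal (Eventually.of_forall h0)]
    exact lt_of_le_of_lt h ENNReal.ofReal_lt_top
  refine ⟨hi, ?_⟩
  rw [integral_eq_lintegral_of_nonneg_ae (Eventually.of_forall h0) hf.aestronglyMeasurable]
  exact ENNReal.toReal_le_of_le_ofReal hU h

lemma integral_lower {Ω : Type*} [MeasurableSpace Ω] {μ : Measure Ω} {f : Ω → ℝ}
    (hi : Integrable f μ) (h0 : ∀ x, 0 ≤ f x) {L W : ℝ} (hW : 0 ≤ W)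
    (h : ENNReal.ofReal L ≤ ∫⁻ x, ENNReal.ofReal (f x) ∂μ + ENNReal.ofReal W) :
    L ≤ ∫ x, f x ∂μ + W := by
  rw [← ofReal_integral_eq_lintegral_ofReal hi (Eventually.of_forall h0),
    ← ENNReal.ofReal_add (integral_nonneg h0) hW] at h
  have h2 : 0 ≤ ∫ x, f x ∂μ + W := add_nonneg (integral_nonneg h0) hW
  exact (ENNReal.ofReal_le_ofReal_iff h2).1 h

section

variable (p : Par) {d : ℕ} (hd : 2 ≤ d) {K Δ : ℝ} (hK : 0 < K) (h : ℕ) (hh : 2 * p.k + 1 ≤ h)

lemma B_one_le : 1 ≤ p.B ^ 2 := by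
  have h1 : (8 : ℝ) ≤ p.k := by exact_mod_cast p.hk
  have h2 := p.hkB
  nlinarith

instance troot_prob : IsProbabilityMeasure (troot (vinitx p) (updx p) (p.B ^ 2) h) := by
  have := tmu_prob (vinitx p) (measurable_updx p) (p.B ^ 2) h
  unfold troot
  infer_instance

lemma integrable_dfun : Integrable (dfun p) (troot (vinitx p) (updx p) (p.B ^ 2) h) := by
  refine Integrable.of_bound (measurable_dfun p).aestronglyMeasurable 2 ?_
  filter_upwards [dfun_bounds p h] with ξ hξ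
  rw [Real.norm_eq_abs, abs_of_nonneg hξ.1]
  exact hξ.2

include hd in
lemma integrable_cfun : Integrable (cfun p d) (troot (vinitx p) (updx p) (p.B ^ 2) h) := by
  refine Integrable.of_bound (measurable_cfun p d).aestronglyMeasurable
    ((p.B ^ 2) ^ (1 / (d : ℝ))) ?_
  filter_upwards [cfun_bounds p d h hd] with ξ hξ
  rw [Real.norm_eq_abs, abs_of_nonneg hξ.1]
  exact hξ.2

lemma lint_g0 : ∫⁻ ξ, ENNReal.ofReal (g0 p ξ) ∂(troot (vinitx p) (updx p) (p.B ^ 2) h)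
    = ENNReal.ofReal ((2 - ∫ ξ, dfun p ξ ∂(troot (vinitx p) (updx p) (p.B ^ 2) h)) / 2) := by
  have hi : Integrable (fun ξ => (2 - dfun p ξ) / 2)
      (troot (vinitx p) (updx p) (p.B ^ 2) h) :=
    ((integrable_const _).sub (integrable_dfun p h)).div_const 2
  have h1 : ∫⁻ ξ, ENNReal.ofReal (g0 p ξ) ∂(troot (vinitx p) (updx p) (p.B ^ 2) h)
      = ∫⁻ ξ, ENNReal.ofReal ((2 - dfun p ξ) / 2) ∂(troot (vinitx p) (updx p) (p.B ^ 2) h) := by
    refine lintegral_congr_ae ?_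
    filter_upwards [dfun_bounds p h] with ξ hξ
    unfold g0
    rw [min_eq_right (by linarith [hξ.1]), max_eq_right (by linarith [hξ.2])]
  rw [h1, ← ofReal_integral_eq_lintegral_ofReal hi]
  · congr 1
    rw [integral_div, integral_sub (integrable_const _) (integrable_dfun p h)]
    simp
  · filter_upwards [dfun_bounds p h] with ξ hξ
    simp only [Pi.zero_apply]
    linarith [hξ.2]

include hd in
lemma lint_g1 : ∫⁻ ξ, ENNReal.ofReal (g1 p d ξ) ∂(troot (vinitx p) (updx p) (p.B ^ 2) h)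
    = ENNReal.ofReal ((∫ ξ, cfun p d ξ ∂(troot (vinitx p) (updx p) (p.B ^ 2) h))
        / (p.B ^ 2) ^ (1 / (d : ℝ))) := by
  have hM : 0 < (p.B ^ 2) ^ (1 / (d : ℝ)) := by
    have := B_one_le p
    positivity
  have hi : Integrable (fun ξ => cfun p d ξ / (p.B ^ 2) ^ (1 / (d : ℝ)))
      (troot (vinitx p) (updx p) (p.B ^ 2) h) :=
    (integrable_cfun p hd h).div_const _
  have h1 : ∫⁻ ξ, ENNReal.ofReal (g1 p d ξ) ∂(troot (vinitx p) (updx p) (p.B ^ 2) h)
      = ∫⁻ ξ, ENNReal.ofReal (cfun p d ξ / (p.B ^ 2) ^ (1 / (d : ℝ)))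
          ∂(troot (vinitx p) (updx p) (p.B ^ 2) h) := by
    refine lintegral_congr_ae ?_
    filter_upwards [cfun_bounds p d h hd] with ξ hξ
    unfold g1
    rw [min_eq_right ((div_le_one hM).2 hξ.2), max_eq_right (div_nonneg hξ.1 hM.le)]
  rw [h1, ← ofReal_integral_eq_lintegral_ofReal hi]
  · rw [integral_div]
  · filter_upwards [cfun_bounds p d h hd] with ξ hξ
    exact div_nonneg hξ.1 hM.le

/-- abbreviation: marked neighbourhood of `v` -/
noncomputable def nv (K : ℝ) (h : ℕ) (P : Multiset (Vd d)) (v : Vd d) : MN :=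
  nbm (vinitx p) (updx p) K (p.B ^ 2) h P v v

include hd hK hh in
lemma wtP_eq (P : Multiset (Vd d)) (hP : P.Nodup) (x : Vd d) (hx : x ∈ P) :
    wtP p K h P x = 2 * g0 p (nv p K h P x) := by
  have h1 := dfun_nbm p (by omega : 1 ≤ d) hK h hh P hP x hx
  have h2 := FE_degree p (by omega : 1 ≤ d) hK h hh P hP x
  have h3 : (Multiset.card (restr {y | FE p K h P x y} P) : ℝ) ≤ 2 := by exact_mod_cast h2
  have h4 : (0 : ℝ) ≤ Multiset.card (restr {y | FE p K h P x y} P) := by positivity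
  unfold wtP g0 nv
  rw [h1, min_eq_right (by linarith), max_eq_right (by linarith)]
  ring

include hd hK hh in
lemma cost_eq (P : Multiset (Vd d)) (hP : P.Nodup) (x : Vd d) (hx : x ∈ P) :
    ((restr {y | FE p K h P x y} P).map fun y => (sd K x y) ^ (1 / (d : ℝ)) / 2).sum
      = (p.B ^ 2) ^ (1 / (d : ℝ)) * g1 p d (nv p K h P x) := by
  have hM : 0 < (p.B ^ 2) ^ (1 / (d : ℝ)) := by
    have := B_one_le p
    positivity
  have h1 := cfun_nbm p (by omega : 1 ≤ d) hK h hh P hP x hx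
  have h2 := FE_degree p (by omega : 1 ≤ d) hK h hh P hP x
  have h3 : (Multiset.card (restr {y | FE p K h P x y} P) : ℝ) ≤ 2 := by exact_mod_cast h2
  have h5 : ∀ y ∈ restr {y | FE p K h P x y} P, 0 ≤ (sd K x y) ^ (1 / (d : ℝ)) / 2 := by
    intro y _
    have := sd_nonneg hK.le x y
    positivity
  have h6 := msum_nonneg _ _ h5
  have h7 : ((restr {y | FE p K h P x y} P).map fun y => (sd K x y) ^ (1 / (d : ℝ)) / 2).sum
      ≤ (p.B ^ 2) ^ (1 / (d : ℝ)) := by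
    have h8 : ((restr {y | FE p K h P x y} P).map fun y => (sd K x y) ^ (1 / (d : ℝ)) / 2).sum
        ≤ Multiset.card (restr {y | FE p K h P x y} P) • ((p.B ^ 2) ^ (1 / (d : ℝ)) / 2) := by
      have h9 := Multiset.sum_le_card_nsmul
        ((restr {y | FE p K h P x y} P).map fun y => (sd K x y) ^ (1 / (d : ℝ)) / 2)
        ((p.B ^ 2) ^ (1 / (d : ℝ)) / 2) (by
          intro z hz
          rw [Multiset.mem_map] at hz
          obtain ⟨y, hy, rfl⟩ := hz
          rw [mem_restr] at hy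
          have hy2 : FE p K h P x y := hy.2
          have hy3 : sd K x y ≤ p.B ^ 2 := hy2.1.2
          have := Real.rpow_le_rpow (sd_nonneg hK.le x y) hy3
            (show 0 ≤ 1 / (d : ℝ) by positivity)
          linarith)
      rwa [Multiset.card_map] at h9
    rw [nsmul_eq_mul] at h8
    nlinarith
  unfold g1 nv
  rw [h1, min_eq_right ((div_le_one hM).2 h7), max_eq_right (div_nonneg h6 hM.le)]
  field_simp


/-! ### the functionals -/

lemma measurable_far {T : Type*} [MeasurableSpace T] (K S Δ : ℝ) {f g : T → Vd d}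
    (hf : Measurable f) (hg : Measurable g) :
    MeasurableSet {t : T | S < sd K (f t) (g t) ∧ sd K (f t) (g t) ≤ Δ} := by
  have h1 := measurable_sd (K := K) hf hg
  exact (h1 measurableSet_Ioi).inter (h1 measurableSet_Iic)

/-- one point sum -/
noncomputable def a1 (g : MN → ℝ) (K : ℝ) (h : ℕ) (P : Multiset (Vd d)) : ℝ :=
  (P.map fun v => g (nv p K h P v)).sum

/-- two point sum -/
noncomputable def a2 (g : MN → ℝ) (K Δ : ℝ) (h : ℕ) (P : Multiset (Vd d)) : ℝ :=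
  (P.map fun v => ((restr {w | p.B ^ 2 < sd K v w ∧ sd K v w ≤ Δ} P).map fun w =>
    g (nv p K h P v) * g (nv p K h P w)).sum).sum

/-- three point sum -/
noncomputable def a3 (g : MN → ℝ) (K Δ : ℝ) (h : ℕ) (P : Multiset (Vd d)) : ℝ :=
  (P.map fun v => ((restr {w | p.B ^ 2 < sd K v w ∧ sd K v w ≤ Δ} P).map fun w =>
    ((restr {z | (p.B ^ 2 < sd K v z ∧ sd K v z ≤ Δ) ∧ z ≠ w} P).map fun z =>
      g (nv p K h P v) * g (nv p K h P w) * g (nv p K h P z)).sum).sum).sum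

lemma measurable_nv (K : ℝ) (h : ℕ) {T : Type*} [MeasurableSpace T] {P : T → Multiset (Vd d)}
    (hP : Measurable P) {f : T → Vd d} (hf : Measurable f) :
    Measurable fun t => nv p K h (P t) (f t) := by
  unfold nv
  exact measurable_nbm (vinitx p) (measurable_updx p) K (p.B ^ 2) h hP hf hf

lemma measurable_a1 {g : MN → ℝ} (hg : Measurable g) (K : ℝ) (h : ℕ) :
    Measurable (a1 (d := d) p g K h) := by
  unfold a1
  refine measurable_msum (f := fun (P : Multiset (Vd d)) v => g (nv p K h P v)) ?_ measurable_id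
  exact hg.comp (measurable_nv p K h (P := fun q : Multiset (Vd d) × Vd d => q.1) measurable_fst
    (f := fun q => q.2) measurable_snd)

lemma measurable_a2 {g : MN → ℝ} (hg : Measurable g) (K Δ : ℝ) (h : ℕ) :
    Measurable (a2 (d := d) p g K Δ h) := by
  unfold a2
  refine measurable_msum (f := fun (P : Multiset (Vd d)) v =>
    ((restr {w | p.B ^ 2 < sd K v w ∧ sd K v w ≤ Δ} P).map fun w =>
    g (nv p K h P v) * g (nv p K h P w)).sum) ?_ measurable_id
  refine measurable_msum (T := Multiset (Vd d) × Vd d)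
    (f := fun (q : Multiset (Vd d) × Vd d) w => g (nv p K h q.1 q.2) * g (nv p K h q.1 w))
    (s := fun q => restr {w | p.B ^ 2 < sd K q.2 w ∧ sd K q.2 w ≤ Δ} q.1) ?_ ?_
  · refine (hg.comp (measurable_nv p K h (P := fun q : (Multiset (Vd d) × Vd d) × Vd d => q.1.1)
      (measurable_fst.comp measurable_fst) (f := fun q => q.1.2)
      (measurable_snd.comp measurable_fst))).mul ?_
    exact hg.comp (measurable_nv p K h (P := fun q : (Multiset (Vd d) × Vd d) × Vd d => q.1.1)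
      (measurable_fst.comp measurable_fst) (f := fun q => q.2) measurable_snd)
  · refine measurable_restr (A := fun q : Multiset (Vd d) × Vd d =>
      {w | p.B ^ 2 < sd K q.2 w ∧ sd K q.2 w ≤ Δ}) ?_ measurable_fst
    exact measurable_far K (p.B ^ 2) Δ (f := fun q : (Multiset (Vd d) × Vd d) × Vd d => q.1.2)
      (g := fun q => q.2) (measurable_snd.comp measurable_fst) measurable_snd

lemma measurable_a3 {g : MN → ℝ} (hg : Measurable g) (K Δ : ℝ) (h : ℕ) :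
    Measurable (a3 (d := d) p g K Δ h) := by
  unfold a3
  refine measurable_msum (f := fun (P : Multiset (Vd d)) v =>
    ((restr {w | p.B ^ 2 < sd K v w ∧ sd K v w ≤ Δ} P).map fun w =>
    ((restr {z | (p.B ^ 2 < sd K v z ∧ sd K v z ≤ Δ) ∧ z ≠ w} P).map fun z =>
      g (nv p K h P v) * g (nv p K h P w) * g (nv p K h P z)).sum).sum) ?_ measurable_id
  refine measurable_msum (T := Multiset (Vd d) × Vd d)
    (f := fun (q : Multiset (Vd d) × Vd d) w =>
      ((restr {z | (p.B ^ 2 < sd K q.2 z ∧ sd K q.2 z ≤ Δ) ∧ z ≠ w} q.1).map fun z =>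
      g (nv p K h q.1 q.2) * g (nv p K h q.1 w) * g (nv p K h q.1 z)).sum)
    (s := fun q => restr {w | p.B ^ 2 < sd K q.2 w ∧ sd K q.2 w ≤ Δ} q.1) ?_ ?_
  · refine measurable_msum (T := (Multiset (Vd d) × Vd d) × Vd d)
      (f := fun (q : (Multiset (Vd d) × Vd d) × Vd d) z =>
        g (nv p K h q.1.1 q.1.2) * g (nv p K h q.1.1 q.2) * g (nv p K h q.1.1 z))
      (s := fun q => restr {z | (p.B ^ 2 < sd K q.1.2 z ∧ sd K q.1.2 z ≤ Δ) ∧ z ≠ q.2} q.1.1)
      ?_ ?_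
    · refine ((hg.comp (measurable_nv p K h
        (P := fun q : ((Multiset (Vd d) × Vd d) × Vd d) × Vd d => q.1.1.1)
        (measurable_fst.comp (measurable_fst.comp measurable_fst)) (f := fun q => q.1.1.2)
        (measurable_snd.comp (measurable_fst.comp measurable_fst)))).mul ?_).mul ?_
      · exact hg.comp (measurable_nv p K h
          (P := fun q : ((Multiset (Vd d) × Vd d) × Vd d) × Vd d => q.1.1.1)
          (measurable_fst.comp (measurable_fst.comp measurable_fst)) (f := fun q => q.1.2)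
          (measurable_snd.comp measurable_fst))
      · exact hg.comp (measurable_nv p K h
          (P := fun q : ((Multiset (Vd d) × Vd d) × Vd d) × Vd d => q.1.1.1)
          (measurable_fst.comp (measurable_fst.comp measurable_fst)) (f := fun q => q.2)
          measurable_snd)
    · refine measurable_restr (A := fun q : (Multiset (Vd d) × Vd d) × Vd d =>
        {z | (p.B ^ 2 < sd K q.1.2 z ∧ sd K q.1.2 z ≤ Δ) ∧ z ≠ q.2}) ?_
        (measurable_fst.comp measurable_fst)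
      have h1 : MeasurableSet {t : ((Multiset (Vd d) × Vd d) × Vd d) × Vd d |
          p.B ^ 2 < sd K t.1.1.2 t.2 ∧ sd K t.1.1.2 t.2 ≤ Δ} :=
        measurable_far K (p.B ^ 2) Δ
          (f := fun q : ((Multiset (Vd d) × Vd d) × Vd d) × Vd d => q.1.1.2)
          (g := fun q => q.2) (measurable_snd.comp (measurable_fst.comp measurable_fst))
          measurable_snd
      have h2 : MeasurableSet {t : ((Multiset (Vd d) × Vd d) × Vd d) × Vd d | t.2 = t.1.2} :=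
        measurableSet_eq_fun measurable_snd (measurable_snd.comp measurable_fst)
      exact h1.inter h2.compl
  · refine measurable_restr (A := fun q : Multiset (Vd d) × Vd d =>
      {w | p.B ^ 2 < sd K q.2 w ∧ sd K q.2 w ≤ Δ}) ?_ measurable_fst
    exact measurable_far K (p.B ^ 2) Δ (f := fun q : (Multiset (Vd d) × Vd d) × Vd d => q.1.2)
      (g := fun q => q.2) (measurable_snd.comp measurable_fst) measurable_snd

lemma ofReal_a1 {g : MN → ℝ} (hg : ∀ ξ, 0 ≤ g ξ) (K : ℝ) (h : ℕ) (P : Multiset (Vd d)) :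
    ENNReal.ofReal (a1 p g K h P)
      = (P.map fun v => ENNReal.ofReal (g (nbm (vinitx p) (updx p) K (p.B ^ 2) h P v v))).sum := by
  unfold a1
  rw [ofReal_msum _ _ (fun _ _ => hg _)]
  rfl

lemma a1_nonneg {g : MN → ℝ} (hg : ∀ ξ, 0 ≤ g ξ) (K : ℝ) (h : ℕ) (P : Multiset (Vd d)) :
    0 ≤ a1 p g K h P := msum_nonneg _ _ (fun x _ => hg _)

lemma a2_nonneg {g : MN → ℝ} (hg : ∀ ξ, 0 ≤ g ξ) (K Δ : ℝ) (h : ℕ) (P : Multiset (Vd d)) :
    0 ≤ a2 p g K Δ h P :=
  msum_nonneg _ _ (fun x _ => msum_nonneg _ _ (fun y _ => mul_nonneg (hg _) (hg _)))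

lemma a3_nonneg {g : MN → ℝ} (hg : ∀ ξ, 0 ≤ g ξ) (K Δ : ℝ) (h : ℕ) (P : Multiset (Vd d)) :
    0 ≤ a3 p g K Δ h P :=
  msum_nonneg _ _ (fun x _ => msum_nonneg _ _ (fun y _ => msum_nonneg _ _ (fun z _ =>
    mul_nonneg (mul_nonneg (hg _) (hg _)) (hg _))))

lemma ofReal_a2 {g : MN → ℝ} (hg : ∀ ξ, 0 ≤ g ξ) (K Δ : ℝ) (h : ℕ) (P : Multiset (Vd d)) :
    ENNReal.ofReal (a2 p g K Δ h P)
      = (P.map fun v => ((restr {w | p.B ^ 2 < sd K v w ∧ sd K v w ≤ Δ} P).map fun w =>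
        ENNReal.ofReal (g (nbm (vinitx p) (updx p) K (p.B ^ 2) h P v v))
        * ENNReal.ofReal (g (nbm (vinitx p) (updx p) K (p.B ^ 2) h P w w))).sum).sum := by
  unfold a2
  rw [ofReal_msum _ _ (fun x _ => msum_nonneg _ _ (fun y _ => mul_nonneg (hg _) (hg _)))]
  congr 1
  refine Multiset.map_congr rfl (fun v _ => ?_)
  rw [ofReal_msum _ _ (fun y _ => mul_nonneg (hg _) (hg _))]
  congr 1
  refine Multiset.map_congr rfl (fun w _ => ?_)
  rw [ENNReal.ofReal_mul (hg _)]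
  rfl

lemma ofReal_a3 {g : MN → ℝ} (hg : ∀ ξ, 0 ≤ g ξ) (K Δ : ℝ) (h : ℕ) (P : Multiset (Vd d)) :
    ENNReal.ofReal (a3 p g K Δ h P)
      = (P.map fun v => ((restr {w | p.B ^ 2 < sd K v w ∧ sd K v w ≤ Δ} P).map fun w =>
        ((restr {z | (p.B ^ 2 < sd K v z ∧ sd K v z ≤ Δ) ∧ z ≠ w} P).map fun z =>
        ENNReal.ofReal (g (nbm (vinitx p) (updx p) K (p.B ^ 2) h P v v))
        * ENNReal.ofReal (g (nbm (vinitx p) (updx p) K (p.B ^ 2) h P w w))
        * ENNReal.ofReal (g (nbm (vinitx p) (updx p) K (p.B ^ 2) h P z z))).sum).sum).sum := by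
  unfold a3
  rw [ofReal_msum _ _ (fun x _ => msum_nonneg _ _ (fun y _ => msum_nonneg _ _ (fun z _ =>
    mul_nonneg (mul_nonneg (hg _) (hg _)) (hg _))))]
  congr 1
  refine Multiset.map_congr rfl (fun v _ => ?_)
  rw [ofReal_msum _ _ (fun y _ => msum_nonneg _ _ (fun z _ =>
    mul_nonneg (mul_nonneg (hg _) (hg _)) (hg _)))]
  congr 1
  refine Multiset.map_congr rfl (fun w _ => ?_)
  rw [ofReal_msum _ _ (fun z _ => mul_nonneg (mul_nonneg (hg _) (hg _)) (hg _))]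
  congr 1
  refine Multiset.map_congr rfl (fun z _ => ?_)
  rw [ENNReal.ofReal_mul (mul_nonneg (hg _) (hg _)), ENNReal.ofReal_mul (hg _)]
  rfl

include hd hK hh in
lemma N1f_eq (P : Multiset (Vd d)) (hP : P.Nodup) : N1f p K h P = 2 * a1 p (g0 p) K h P := by
  unfold N1f a1
  rw [← Multiset.sum_map_mul_left]
  congr 1
  exact Multiset.map_congr rfl (fun v hv => wtP_eq p hd hK h hh P hP v hv)

include hd hK hh in
lemma N2f_eq (P : Multiset (Vd d)) (hP : P.Nodup) :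
    N2f p K Δ h P = 4 * a2 p (g0 p) K Δ h P := by
  unfold N2f a2
  rw [← Multiset.sum_map_mul_left]
  congr 1
  refine Multiset.map_congr rfl (fun v hv => ?_)
  rw [← Multiset.sum_map_mul_left]
  congr 1
  refine Multiset.map_congr rfl (fun w hw => ?_)
  rw [wtP_eq p hd hK h hh P hP v hv, wtP_eq p hd hK h hh P hP w (mem_restr.1 hw).1]
  ring

include hd hK hh in
lemma N3f_eq (P : Multiset (Vd d)) (hP : P.Nodup) :
    N3f p K Δ h P = 8 * a3 p (g0 p) K Δ h P := by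
  unfold N3f a3
  rw [← Multiset.sum_map_mul_left]
  congr 1
  refine Multiset.map_congr rfl (fun v hv => ?_)
  rw [← Multiset.sum_map_mul_left]
  congr 1
  refine Multiset.map_congr rfl (fun w hw => ?_)
  rw [← Multiset.sum_map_mul_left]
  congr 1
  refine Multiset.map_congr rfl (fun z hz => ?_)
  rw [wtP_eq p hd hK h hh P hP v hv, wtP_eq p hd hK h hh P hP w (mem_restr.1 hw).1,
    wtP_eq p hd hK h hh P hP z (mem_restr.1 hz).1]
  ring

include hd hK hh in
lemma Cf_eq (P : Multiset (Vd d)) (hP : P.Nodup) :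
    Cf p K h P = (p.B ^ 2) ^ (1 / (d : ℝ)) * a1 p (g1 p d) K h P := by
  unfold Cf a1
  rw [← Multiset.sum_map_mul_left]
  congr 1
  exact Multiset.map_congr rfl (fun v hv => cost_eq p hd hK h hh P hP v hv)


/-! ### bounds -/

lemma eerr_nonneg (d : ℕ) (h : ℕ) : 0 ≤ eerr d (p.B ^ 2) h := by
  have := B_one_le p
  unfold eerr
  positivity

include hK in
lemma rad_nn (d : ℕ) {S : ℝ} (hS : 0 ≤ S) : 0 ≤ rad d K S := by
  unfold rad
  positivity

include hd in
lemma a1_bound {g : MN → ℝ} (hg : Measurable g) (hg0 : ∀ ξ, 0 ≤ g ξ) (hg1 : ∀ ξ, g ξ ≤ 1)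
    (hK : 0 < K) {τ : ℝ} (hτ : 0 ≤ τ)
    (hT : ∫⁻ ξ, ENNReal.ofReal (g ξ) ∂(troot (vinitx p) (updx p) (p.B ^ 2) h)
      = ENNReal.ofReal τ) {e1 : ℝ}
    (he1 : e1 = 4 * eerr d (p.B ^ 2) h + 2 * d * ((h + 1) * rad d K (p.B ^ 2))) :
    Integrable (a1 (d := d) p g K h) (PP (lam d K)) ∧
    ∫ P, a1 (d := d) p g K h P ∂(PP (lam d K)) ≤ K / vball d * (τ + e1) := by
  have hv : 0 ≤ vball d := ENNReal.toReal_nonneg
  have hB := B_one_le p
  have he : 0 ≤ e1 := by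
    rw [he1]
    have h1 := eerr_nonneg p d h
    have h2 := rad_nn (K := K) hK d (S := p.B ^ 2) (by linarith)
    positivity
  refine integrable_bound (measurable_a1 p hg K h) (fun P => a1_nonneg p hg0 K h P)
    (by positivity) ?_
  have h1 := one_root_le (vinitx p) (updx p) (measurable_updx p) (by omega : 1 ≤ d) hK hB h
    (fun ξ => ENNReal.ofReal (g ξ)) (ENNReal.measurable_ofReal.comp hg)
    (fun ξ => by
      rw [← ENNReal.ofReal_one]
      exact ENNReal.ofReal_le_ofReal (hg1 ξ))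
  simp only [ofReal_a1 p hg0]
  refine h1.trans ?_
  rw [hT, ← he1, ← ENNReal.ofReal_add hτ he, ← ENNReal.ofReal_mul (by positivity)]

include hd in
lemma a2_bound {g : MN → ℝ} (hg : Measurable g) (hg0 : ∀ ξ, 0 ≤ g ξ) (hg1 : ∀ ξ, g ξ ≤ 1)
    (hK : 0 < K) (hΔ : p.B ^ 2 ≤ Δ) (hΔ2 : Δ ≤ 2 ^ d * p.B ^ 2) {τ : ℝ} (hτ : 0 ≤ τ)
    (hT : ∫⁻ ξ, ENNReal.ofReal (g ξ) ∂(troot (vinitx p) (updx p) (p.B ^ 2) h)
      = ENNReal.ofReal τ) {e2 : ℝ}
    (he2 : e2 = 9 * eerr d (p.B ^ 2) h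
      + 2 * d * ((h + 1) * rad d K (p.B ^ 2) + rad d K Δ)) :
    Integrable (a2 (d := d) p g K Δ h) (PP (lam d K)) ∧
    ∫ P, a2 (d := d) p g K Δ h P ∂(PP (lam d K))
      ≤ K / vball d * ((Δ - p.B ^ 2) * τ ^ 2 + Δ * e2) ∧
    K / vball d * ((Δ - p.B ^ 2) * τ ^ 2)
      ≤ ∫ P, a2 (d := d) p g K Δ h P ∂(PP (lam d K)) + K / vball d * (Δ * e2) := by
  have hv : 0 ≤ vball d := ENNReal.toReal_nonneg
  have hB := B_one_le p
  have hΔ0 : 0 ≤ Δ := by linarith
  have hΔS : 0 ≤ Δ - p.B ^ 2 := by linarith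
  have he : 0 ≤ e2 := by
    rw [he2]
    have h1 := eerr_nonneg p d h
    have h2 := rad_nn (K := K) hK d (S := p.B ^ 2) (by linarith)
    have h3 := rad_nn (K := K) hK d (S := Δ) (by linarith)
    positivity
  have hGm : Measurable fun ξ : MN => ENNReal.ofReal (g ξ) := ENNReal.measurable_ofReal.comp hg
  have hG1 : ∀ ξ : MN, ENNReal.ofReal (g ξ) ≤ 1 := fun ξ => by
    rw [← ENNReal.ofReal_one]
    exact ENNReal.ofReal_le_ofReal (hg1 ξ)
  have h1 := two_far_le (vinitx p) (updx p) (measurable_updx p) (by omega : 1 ≤ d) hK hB h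
    Δ hΔ hΔ2 (fun ξ => ENNReal.ofReal (g ξ)) hGm hG1
  have h2 := two_far_ge (vinitx p) (updx p) (measurable_updx p) (by omega : 1 ≤ d) hK hB h
    Δ hΔ hΔ2 (fun ξ => ENNReal.ofReal (g ξ)) hGm hG1
  rw [hT, ← he2] at h1 h2
  have hc : 0 ≤ K / vball d := by positivity
  have hτ2 : ENNReal.ofReal τ ^ 2 = ENNReal.ofReal (τ ^ 2) := (ENNReal.ofReal_pow hτ 2).symm
  have hu : ENNReal.ofReal (K / vball d) * (ENNReal.ofReal (Δ - p.B ^ 2) * ENNReal.ofReal τ ^ 2
      + ENNReal.ofReal (Δ * e2))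
      = ENNReal.ofReal (K / vball d * ((Δ - p.B ^ 2) * τ ^ 2 + Δ * e2)) := by
    rw [hτ2, ← ENNReal.ofReal_mul hΔS, ← ENNReal.ofReal_add (by positivity) (by positivity),
      ← ENNReal.ofReal_mul hc]
  rw [hu] at h1
  have hl : ENNReal.ofReal (K / vball d) * (ENNReal.ofReal (Δ - p.B ^ 2) * ENNReal.ofReal τ ^ 2)
      = ENNReal.ofReal (K / vball d * ((Δ - p.B ^ 2) * τ ^ 2)) := by
    rw [hτ2, ← ENNReal.ofReal_mul hΔS, ← ENNReal.ofReal_mul hc]
  rw [hl, ← ENNReal.ofReal_mul hc] at h2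
  obtain ⟨hi, hle⟩ := integrable_bound (μ := PP (lam d K)) (measurable_a2 (d := d) p hg K Δ h)
    (fun P => a2_nonneg p hg0 K Δ h P)
    (U := K / vball d * ((Δ - p.B ^ 2) * τ ^ 2 + Δ * e2)) (by positivity)
    (by simp only [ofReal_a2 p hg0]; exact h1)
  refine ⟨hi, hle, ?_⟩
  refine integral_lower hi (fun P => a2_nonneg p hg0 K Δ h P) (by positivity) ?_
  simp only [ofReal_a2 p hg0]
  exact h2

include hd in
lemma a3_bound {g : MN → ℝ} (hg : Measurable g) (hg0 : ∀ ξ, 0 ≤ g ξ) (hg1 : ∀ ξ, g ξ ≤ 1)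
    (hK : 0 < K) (hΔ : p.B ^ 2 ≤ Δ) (hΔ2 : Δ ≤ 2 ^ d * p.B ^ 2) {τ : ℝ} (hτ : 0 ≤ τ)
    (hT : ∫⁻ ξ, ENNReal.ofReal (g ξ) ∂(troot (vinitx p) (updx p) (p.B ^ 2) h)
      = ENNReal.ofReal τ) {e3 : ℝ}
    (he3 : e3 = 17 * eerr d (p.B ^ 2) h
      + 2 * d * ((h + 1) * rad d K (p.B ^ 2) + rad d K Δ)) :
    Integrable (a3 (d := d) p g K Δ h) (PP (lam d K)) ∧
    ∫ P, a3 (d := d) p g K Δ h P ∂(PP (lam d K))
      ≤ K / vball d * ((Δ - p.B ^ 2) ^ 2 * τ ^ 3 + Δ ^ 2 * e3) := by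
  have hv : 0 ≤ vball d := ENNReal.toReal_nonneg
  have hB := B_one_le p
  have hΔ0 : 0 ≤ Δ := by linarith
  have hΔS : 0 ≤ Δ - p.B ^ 2 := by linarith
  have he : 0 ≤ e3 := by
    rw [he3]
    have h1 := eerr_nonneg p d h
    have h2 := rad_nn (K := K) hK d (S := p.B ^ 2) (by linarith)
    have h3 := rad_nn (K := K) hK d (S := Δ) (by linarith)
    positivity
  have hGm : Measurable fun ξ : MN => ENNReal.ofReal (g ξ) := ENNReal.measurable_ofReal.comp hg
  have hG1 : ∀ ξ : MN, ENNReal.ofReal (g ξ) ≤ 1 := fun ξ => by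
    rw [← ENNReal.ofReal_one]
    exact ENNReal.ofReal_le_ofReal (hg1 ξ)
  have h1 := three_far_le (vinitx p) (updx p) (measurable_updx p) (by omega : 1 ≤ d) hK hB h
    Δ hΔ hΔ2 (fun ξ => ENNReal.ofReal (g ξ)) hGm hG1
  rw [hT, ← he3] at h1
  have hc : 0 ≤ K / vball d := by positivity
  have hτ3 : ENNReal.ofReal τ ^ 3 = ENNReal.ofReal (τ ^ 3) := (ENNReal.ofReal_pow hτ 3).symm
  have hu : ENNReal.ofReal (K / vball d) * (ENNReal.ofReal ((Δ - p.B ^ 2) ^ 2)
      * ENNReal.ofReal τ ^ 3 + ENNReal.ofReal (Δ ^ 2 * e3))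
      = ENNReal.ofReal (K / vball d * ((Δ - p.B ^ 2) ^ 2 * τ ^ 3 + Δ ^ 2 * e3)) := by
    rw [hτ3, ← ENNReal.ofReal_mul (by positivity), ← ENNReal.ofReal_add (by positivity)
      (by positivity), ← ENNReal.ofReal_mul hc]
  rw [hu] at h1
  refine integrable_bound (μ := PP (lam d K)) (measurable_a3 (d := d) p hg K Δ h)
    (fun P => a3_nonneg p hg0 K Δ h P)
    (U := K / vball d * ((Δ - p.B ^ 2) ^ 2 * τ ^ 3 + Δ ^ 2 * e3)) (by positivity) ?_
  simp only [ofReal_a3 p hg0]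
  exact h1

end

end UM

open UM in
theorem upper_moments (p : Par) {d : ℕ} (hd : 2 ≤ d) {K Δ : ℝ} (hK : 0 < K)
    (hΔ : p.B ^ 2 ≤ Δ) (hΔ2 : Δ ≤ 2 ^ d * p.B ^ 2) (h : ℕ) (hh : 2 * p.k + 1 ≤ h)
    (ρ e1 e2 e3 : ℝ) (hρ : ρ = 2 - ∫ ξ, ∫ ξ', mthr p ξ ξ' ∂(nb p h) ∂(nb p h))
    (he1 : e1 = 4 * eerr d (p.B ^ 2) h + 2 * d * ((h + 1) * rad d K (p.B ^ 2)))
    (he2 : e2 = 9 * eerr d (p.B ^ 2) h
      + 2 * d * ((h + 1) * rad d K (p.B ^ 2) + rad d K Δ))
    (he3 : e3 = 17 * eerr d (p.B ^ 2) h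
      + 2 * d * ((h + 1) * rad d K (p.B ^ 2) + rad d K Δ)) :
    Integrable (N1f p (d := d) K h) (PP (lam d K)) ∧
    Integrable (N2f p (d := d) K Δ h) (PP (lam d K)) ∧
    Integrable (N3f p (d := d) K Δ h) (PP (lam d K)) ∧
    Integrable (Cf p (d := d) K h) (PP (lam d K)) ∧
    ∫ P, N1f p (d := d) K h P ∂(PP (lam d K)) ≤ K / vball d * (ρ + 2 * e1) ∧
    |∫ P, N2f p (d := d) K Δ h P ∂(PP (lam d K)) - K / vball d * ((Δ - p.B ^ 2) * ρ ^ 2)|
      ≤ K / vball d * (4 * Δ * e2) ∧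
    ∫ P, N3f p (d := d) K Δ h P ∂(PP (lam d K))
      ≤ K / vball d * ((Δ - p.B ^ 2) ^ 2 * ρ ^ 3 + 8 * Δ ^ 2 * e3) ∧
    ∫ P, Cf p (d := d) K h P ∂(PP (lam d K)) ≤ K / vball d *
      ((1 / 2) * (∫ ξ, ∫ ξ', (mthr p ξ ξ') ^ (1 + 1 / (d : ℝ)) / (1 + 1 / (d : ℝ))
          ∂(nb p h) ∂(nb p h)) + (p.B ^ 2) ^ (1 / (d : ℝ)) * e1) := by
  have hM : 0 < (p.B ^ 2) ^ (1 / (d : ℝ)) := by
    have := B_one_le p
    positivity
  have hmean := dfun_mean p h hh
  have hcmean := cfun_mean p d h hd hh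
  set I1 := ∫ ξ, ∫ ξ', mthr p ξ ξ' ∂(nb p h) ∂(nb p h) with hI1
  set I2 := ∫ ξ, ∫ ξ', (mthr p ξ ξ') ^ (1 + 1 / (d : ℝ)) / (1 + 1 / (d : ℝ))
          ∂(nb p h) ∂(nb p h) with hI2
  have hI1le : I1 ≤ 2 := by
    rw [← hmean]
    have h1 : ∫ ξ, dfun p ξ ∂(troot (vinitx p) (updx p) (p.B ^ 2) h)
        ≤ ∫ _ξ, (2 : ℝ) ∂(troot (vinitx p) (updx p) (p.B ^ 2) h) := by
      refine integral_mono_ae (integrable_dfun p h) (integrable_const _) ?_
      filter_upwards [dfun_bounds p h] with ξ hξ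
      exact hξ.2
    simpa using h1
  have hτ : 0 ≤ ρ / 2 := by rw [hρ]; linarith
  have hT : ∫⁻ ξ, ENNReal.ofReal (g0 p ξ) ∂(troot (vinitx p) (updx p) (p.B ^ 2) h)
      = ENNReal.ofReal (ρ / 2) := by
    rw [lint_g0, hmean, hρ]
  have hc0 : 0 ≤ (1 / 2) * I2 := by
    rw [← hcmean]
    refine integral_nonneg_of_ae ?_
    filter_upwards [cfun_bounds p d h hd] with ξ hξ
    exact hξ.1
  have hT1 : ∫⁻ ξ, ENNReal.ofReal (g1 p d ξ) ∂(troot (vinitx p) (updx p) (p.B ^ 2) h)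
      = ENNReal.ofReal ((1 / 2) * I2 / (p.B ^ 2) ^ (1 / (d : ℝ))) := by
    rw [lint_g1 p hd, hcmean]
  obtain ⟨i1, b1⟩ := a1_bound p hd (K := K) h (measurable_g0 p) (g0_nonneg p) (g0_le p) hK hτ hT
    he1
  obtain ⟨i2, b2, b2'⟩ := a2_bound p hd (K := K) h (measurable_g0 p) (g0_nonneg p) (g0_le p) hK
    hΔ hΔ2 hτ hT he2
  obtain ⟨i3, b3⟩ := a3_bound p hd (K := K) h (measurable_g0 p) (g0_nonneg p) (g0_le p) hK
    hΔ hΔ2 hτ hT he3
  obtain ⟨i4, b4⟩ := a1_bound p hd (K := K) h (measurable_g1 p d) (g1_nonneg p d) (g1_le p d) hK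
    (div_nonneg hc0 hM.le) hT1 he1
  have hae := ae_nodup (d := d) (by omega) K
  have q1 : N1f p (d := d) K h =ᵐ[PP (lam d K)] fun P => 2 * a1 p (g0 p) K h P := by
    filter_upwards [hae] with P hP using N1f_eq p hd hK h hh P hP
  have q2 : N2f p (d := d) K Δ h =ᵐ[PP (lam d K)] fun P => 4 * a2 p (g0 p) K Δ h P := by
    filter_upwards [hae] with P hP using N2f_eq p hd hK h hh P hP
  have q3 : N3f p (d := d) K Δ h =ᵐ[PP (lam d K)] fun P => 8 * a3 p (g0 p) K Δ h P := by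
    filter_upwards [hae] with P hP using N3f_eq p hd hK h hh P hP
  have q4 : Cf p (d := d) K h =ᵐ[PP (lam d K)]
      fun P => (p.B ^ 2) ^ (1 / (d : ℝ)) * a1 p (g1 p d) K h P := by
    filter_upwards [hae] with P hP using Cf_eq p hd hK h hh P hP
  refine ⟨(i1.const_mul 2).congr q1.symm, (i2.const_mul 4).congr q2.symm,
    (i3.const_mul 8).congr q3.symm, (i4.const_mul _).congr q4.symm, ?_, ?_, ?_, ?_⟩
  · rw [integral_congr_ae q1, integral_const_mul]
    calc 2 * ∫ P, a1 p (g0 p) K h P ∂(PP (lam d K)) ≤ 2 * (K / vball d * (ρ / 2 + e1)) := by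
          linarith
      _ = K / vball d * (ρ + 2 * e1) := by ring
  · rw [integral_congr_ae q2, integral_const_mul, abs_le]
    constructor
    · have : K / vball d * ((Δ - p.B ^ 2) * ρ ^ 2)
          = 4 * (K / vball d * ((Δ - p.B ^ 2) * (ρ / 2) ^ 2)) := by ring
      have h2 : K / vball d * (4 * Δ * e2) = 4 * (K / vball d * (Δ * e2)) := by ring
      rw [this, h2]
      linarith
    · have : K / vball d * ((Δ - p.B ^ 2) * ρ ^ 2)
          = 4 * (K / vball d * ((Δ - p.B ^ 2) * (ρ / 2) ^ 2)) := by ring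
      have h2 : K / vball d * (4 * Δ * e2) = 4 * (K / vball d * (Δ * e2)) := by ring
      have h3 : K / vball d * ((Δ - p.B ^ 2) * (ρ / 2) ^ 2 + Δ * e2)
          = K / vball d * ((Δ - p.B ^ 2) * (ρ / 2) ^ 2) + K / vball d * (Δ * e2) := by ring
      rw [h3] at b2
      rw [this, h2]
      linarith
  · rw [integral_congr_ae q3, integral_const_mul]
    calc 8 * ∫ P, a3 p (g0 p) K Δ h P ∂(PP (lam d K))
        ≤ 8 * (K / vball d * ((Δ - p.B ^ 2) ^ 2 * (ρ / 2) ^ 3 + Δ ^ 2 * e3)) := by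
          linarith
      _ = K / vball d * ((Δ - p.B ^ 2) ^ 2 * ρ ^ 3 + 8 * Δ ^ 2 * e3) := by ring
  · rw [integral_congr_ae q4, integral_const_mul]
    calc (p.B ^ 2) ^ (1 / (d : ℝ)) * ∫ P, a1 p (g1 p d) K h P ∂(PP (lam d K))
        ≤ (p.B ^ 2) ^ (1 / (d : ℝ))
          * (K / vball d * ((1 / 2) * I2 / (p.B ^ 2) ^ (1 / (d : ℝ)) + e1)) :=
          mul_le_mul_of_nonneg_left b4 hM.le
      _ = K / vball d * ((1 / 2) * I2 + (p.B ^ 2) ^ (1 / (d : ℝ)) * e1) := by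
          field_simp

end Pool.Agent.TSPd97
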