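import Pool.Agent.TSPd97.RootLaw
import Pool.Agent.TSPd97.Deg
import Pool.Agent.TSPd97.Cycle
import Pool.Agent.TSPd97.TourUpper
import Pool.Agent.TSPd97.PoisInt
import Pool.Agent.TSPd97.T1Ball

/-!
MP_076557_pr, package UF: measurability of the functionals of the selected graph, values on
configurations of distinct points, and the deterministic upper bound for the tour.
-/

set_option autoImplicit false

open MeasureTheory Set Filter Topology
open scoped ENNReal

namespace Pool.Agent.TSPd97

namespace UF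

section Meas

variable (p : Par) {d : ℕ} (K Δ : ℝ) (h : ℕ)

lemma measurableSet_FE' :
    MeasurableSet {q : (Multiset (Vd d) × Vd d) × Vd d | FE p K h q.1.1 q.1.2 q.2} := by
  have hm : Measurable fun q : (Multiset (Vd d) × Vd d) × Vd d => (q.1.1, q.1.2, q.2) := by
    fun_prop
  exact hm (measurableSet_FE p K h)

lemma measurable_wt : Measurable fun t : Multiset (Vd d) × Vd d => wtP p K h t.1 t.2 := by
  unfold wtP
  have h1 : Measurable fun t : Multiset (Vd d) × Vd d =>
      Multiset.card (restr {y | FE p K h t.1 t.2 y} t.1) :=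
    measurable_mcard (measurable_restr (A := fun t : Multiset (Vd d) × Vd d =>
      {y | FE p K h t.1 t.2 y}) (measurableSet_FE' p K h) measurable_fst)
  exact measurable_const.sub (measurable_from_top.comp h1)

attribute [local irreducible] wtP FE

lemma measurable_N1f : Measurable (N1f p (d := d) K h) := by
  unfold N1f
  exact measurable_msum (f := fun P v => wtP p K h P v) (measurable_wt p K h) measurable_id

lemma measurable_N2f : Measurable (N2f p (d := d) K Δ h) := by
  unfold N2f
  refine measurable_msum (f := fun (P : Multiset (Vd d)) v =>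
    ((restr {w | p.B ^ 2 < sd K v w ∧ sd K v w ≤ Δ} P).map fun w =>
      wtP p K h P v * wtP p K h P w).sum) ?_ measurable_id
  refine measurable_msum (T := Multiset (Vd d) × Vd d)
    (f := fun t w => wtP p K h t.1 t.2 * wtP p K h t.1 w)
    (s := fun t => restr {w | p.B ^ 2 < sd K t.2 w ∧ sd K t.2 w ≤ Δ} t.1) ?_ ?_
  · refine Measurable.mul ((measurable_wt p K h).comp measurable_fst) ?_
    exact (measurable_wt p K h).comp
      ((measurable_fst.comp measurable_fst).prodMk measurable_snd)
  · refine measurable_restr (A := fun t : Multiset (Vd d) × Vd d =>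
      {w | p.B ^ 2 < sd K t.2 w ∧ sd K t.2 w ≤ Δ}) ?_ measurable_fst
    have hs : Measurable fun q : (Multiset (Vd d) × Vd d) × Vd d => sd K q.1.2 q.2 :=
      measurable_sd (measurable_snd.comp measurable_fst) measurable_snd
    exact (measurableSet_lt measurable_const hs).inter (measurableSet_le hs measurable_const)

lemma measurable_N3f : Measurable (N3f p (d := d) K Δ h) := by
  unfold N3f
  refine measurable_msum (f := fun (P : Multiset (Vd d)) v =>
    ((restr {w | p.B ^ 2 < sd K v w ∧ sd K v w ≤ Δ} P).map fun w =>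
      ((restr {z | (p.B ^ 2 < sd K v z ∧ sd K v z ≤ Δ) ∧ z ≠ w} P).map fun z =>
      wtP p K h P v * wtP p K h P w * wtP p K h P z).sum).sum) ?_ measurable_id
  refine measurable_msum (T := Multiset (Vd d) × Vd d)
    (f := fun t w => ((restr {z | (p.B ^ 2 < sd K t.2 z ∧ sd K t.2 z ≤ Δ) ∧ z ≠ w} t.1).map
      fun z => wtP p K h t.1 t.2 * wtP p K h t.1 w * wtP p K h t.1 z).sum)
    (s := fun t => restr {w | p.B ^ 2 < sd K t.2 w ∧ sd K t.2 w ≤ Δ} t.1) ?_ ?_
  · refine measurable_msum (T := (Multiset (Vd d) × Vd d) × Vd d)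
      (f := fun t z => wtP p K h t.1.1 t.1.2 * wtP p K h t.1.1 t.2 * wtP p K h t.1.1 z)
      (s := fun t => restr {z | (p.B ^ 2 < sd K t.1.2 z ∧ sd K t.1.2 z ≤ Δ) ∧ z ≠ t.2} t.1.1) ?_ ?_
    · have m1 : Measurable fun q : ((Multiset (Vd d) × Vd d) × Vd d) × Vd d =>
          wtP p K h q.1.1.1 q.1.1.2 :=
        (measurable_wt p K h).comp (measurable_fst.comp measurable_fst)
      have m2 : Measurable fun q : ((Multiset (Vd d) × Vd d) × Vd d) × Vd d =>
          wtP p K h q.1.1.1 q.1.2 :=
        (measurable_wt p K h).comp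
          ((measurable_fst.comp (measurable_fst.comp measurable_fst)).prodMk
            (measurable_snd.comp measurable_fst))
      have m3 : Measurable fun q : ((Multiset (Vd d) × Vd d) × Vd d) × Vd d =>
          wtP p K h q.1.1.1 q.2 :=
        (measurable_wt p K h).comp
          ((measurable_fst.comp (measurable_fst.comp measurable_fst)).prodMk measurable_snd)
      exact (m1.mul m2).mul m3
    · refine measurable_restr (A := fun t : (Multiset (Vd d) × Vd d) × Vd d =>
        {z | (p.B ^ 2 < sd K t.1.2 z ∧ sd K t.1.2 z ≤ Δ) ∧ z ≠ t.2}) ?_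
        (measurable_fst.comp measurable_fst)
      have hs : Measurable fun q : ((Multiset (Vd d) × Vd d) × Vd d) × Vd d => sd K q.1.1.2 q.2 :=
        measurable_sd (measurable_snd.comp (measurable_fst.comp measurable_fst)) measurable_snd
      refine ((measurableSet_lt measurable_const hs).inter
        (measurableSet_le hs measurable_const)).inter ?_
      have : MeasurableSet {q : ((Multiset (Vd d) × Vd d) × Vd d) × Vd d | q.2 = q.1.2} :=
        measurableSet_eq_fun measurable_snd (measurable_snd.comp measurable_fst)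
      exact this.compl
  · refine measurable_restr (A := fun t : Multiset (Vd d) × Vd d =>
      {w | p.B ^ 2 < sd K t.2 w ∧ sd K t.2 w ≤ Δ}) ?_ measurable_fst
    have hs : Measurable fun q : (Multiset (Vd d) × Vd d) × Vd d => sd K q.1.2 q.2 :=
      measurable_sd (measurable_snd.comp measurable_fst) measurable_snd
    exact (measurableSet_lt measurable_const hs).inter (measurableSet_le hs measurable_const)

lemma measurable_Cf : Measurable (Cf p (d := d) K h) := by
  unfold Cf
  refine measurable_msum (f := fun (P : Multiset (Vd d)) v =>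
    ((restr {y | FE p K h P v y} P).map fun y => (sd K v y) ^ (1 / (d : ℝ)) / 2).sum) ?_
    measurable_id
  refine measurable_msum (T := Multiset (Vd d) × Vd d)
    (f := fun t y => (sd K t.2 y) ^ (1 / (d : ℝ)) / 2)
    (s := fun t => restr {y | FE p K h t.1 t.2 y} t.1) ?_ ?_
  · have hs : Measurable fun q : (Multiset (Vd d) × Vd d) × Vd d => sd K q.1.2 q.2 :=
      measurable_sd (measurable_snd.comp measurable_fst) measurable_snd
    exact (hs.pow_const _).div_const _
  · exact measurable_restr (A := fun t : Multiset (Vd d) × Vd d =>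
      {y | FE p K h t.1 t.2 y}) (measurableSet_FE' p K h) measurable_fst

end Meas

open Classical in
lemma sum_restr_ms {E M : Type*} [AddCommMonoid M] {n : ℕ} (A : Set E) (x : Fin n → E)
    (f : E → M) : ((restr A (ms x)).map f).sum = ∑ b, if x b ∈ A then f (x b) else 0 := by
  rw [restr_ms, Multiset.map_map, ← Finset.sum_filter]
  rfl

open Classical in
lemma card_restr_ms {E : Type*} {n : ℕ} (A : Set E) (x : Fin n → E) :
    Multiset.card (restr A (ms x)) = (Finset.univ.filter (fun b => x b ∈ A)).card := by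
  rw [restr_ms, Multiset.card_map]
  rfl

lemma sum_ms {E M : Type*} [AddCommMonoid M] {n : ℕ} (x : Fin n → E)
    (f : E → M) : ((ms x).map f).sum = ∑ b, f (x b) := by
  rw [map_ms]; rfl

lemma nodup_ms {E : Type*} {n : ℕ} {x : Fin n → E} (hx : Function.Injective x) :
    (ms x).Nodup := by
  unfold ms
  exact Finset.univ.nodup.map hx

lemma dist_eq_sd {d : ℕ} (hd : 1 ≤ d) {K : ℝ} (hK : 0 < K) (x y : Vd d) :
    dist x y = K ^ (-(1 / (d : ℝ))) * (sd K x y) ^ (1 / (d : ℝ)) := by
  unfold sd
  have hd0 : (d : ℝ) ≠ 0 := by positivity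
  rw [Real.mul_rpow hK.le (by positivity), ← mul_assoc, ← Real.rpow_add hK,
    neg_add_cancel, Real.rpow_zero, one_mul, ← Real.rpow_natCast, ← Real.rpow_mul dist_nonneg,
    mul_one_div_cancel hd0, Real.rpow_one]

/-- the linear functional of the counts that bounds the number of unmatched path ends -/
noncomputable def Xlin (χ : ℕ) (μ θ : ℝ) (mc : ℕ) (N1 N2 N3 Z n : ℝ) : ℝ :=
  N1 / 2 - (((χ : ℝ) - 1) / χ) * ((N2 - N1) / (4 * χ * μ)
    - (2 / μ ^ 2) * ((1 + μ / (2 * θ)) * (N2 / (4 * χ) + N3 / (8 * (χ : ℝ) ^ 2)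
      - μ * (N2 - N1) / (2 * χ) + μ ^ 2 * N1 / 2) + μ * θ * N1 / 4)) + Z + n / mc

open Classical in
lemma short_card (p : Par) {d : ℕ} (K : ℝ) (h mc : ℕ) {n : ℕ} (x : Fin n → Vd d)
    (hx : Function.Injective x) :
    (Finset.univ.filter (fun a : Fin n => ∃ l : List (Fin n), l.Nodup ∧ 3 ≤ l.length ∧
      l.length ≤ mc ∧ l.IsChain (fun a b => FE p K h (ms x) (x a) (x b)) ∧ ∃ hl : l ≠ [],
        l.head hl = a ∧ FE p K h (ms x) (x (l.getLast hl)) (x (l.head hl)))).card
      ≤ Multiset.card (restr {w | ShortCyc p K h mc (ms x) w} (ms x)) := by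
  rw [card_restr_ms]
  refine Finset.card_le_card (fun a ha => ?_)
  simp only [Finset.mem_filter, Finset.mem_univ, true_and] at ha ⊢
  obtain ⟨l, h1, h2, h3, h4, hl, h5, h6⟩ := ha
  have hl' : l.map x ≠ [] := by simpa using hl
  refine ⟨l.map x, h1.map hx, by simpa using h2, by simpa using h3, ?_, ?_, hl', ?_, ?_⟩
  · intro z hz
    rw [List.mem_map] at hz
    obtain ⟨b, _, rfl⟩ := hz
    exact mem_ms.2 ⟨b, rfl⟩
  · rw [List.isChain_map]
    exact h4
  · rw [List.head_map, h5]
  · rw [List.head_map, List.getLast_map]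
    exact h6

open Classical in
/-- the deterministic upper bound, in terms of the functionals of the configuration -/
lemma tour_bound : ∃ C : ℝ, 0 < C ∧ ∀ (p : Par) (d : ℕ), 2 ≤ d → ∀ K : ℝ, 0 < K →
    ∀ Δ : ℝ, 0 < Δ → ∀ h : ℕ, 2 * p.k + 1 ≤ h → ∀ χ : ℕ, 2 ≤ χ → ∀ μ θ : ℝ, 0 < μ → 0 < θ →
    ∀ mc : ℕ, 1 ≤ mc → ∀ (n : ℕ) (x : Fin n → Vd d), Function.Injective x →
    (∀ i, x i ∈ cube d) → ∀ Z : ℝ,
    (Multiset.card (restr {w | ShortCyc p K h mc (ms x) w} (ms x)) : ℝ) ≤ Z →
    (0 ≤ Xlin χ μ θ mc (N1f p K h (ms x)) (N2f p K Δ h (ms x)) (N3f p K Δ h (ms x)) Z n ∧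
      tsp x ≤ K ^ (-(1 / (d : ℝ))) * Cf p K h (ms x)
        + K ^ (-(1 / (d : ℝ))) * Δ ^ (1 / (d : ℝ)) * N1f p K h (ms x) / 2
        + C * Real.sqrt d * (Xlin χ μ θ mc (N1f p K h (ms x)) (N2f p K Δ h (ms x))
            (N3f p K Δ h (ms x)) Z n) ^ (((d : ℝ) - 1) / (d : ℝ)) + Real.sqrt d) ∧
    (0 ≤ N1f p K h (ms x) ∧
      tsp x ≤ K ^ (-(1 / (d : ℝ))) * Cf p K h (ms x)
        + C * Real.sqrt d * (N1f p K h (ms x) / 2 + Z + (n : ℝ) / mc)
            ^ (((d : ℝ) - 1) / (d : ℝ)) + Real.sqrt d) := by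
  obtain ⟨C, hC, H⟩ := tour_upper
  refine ⟨C, hC, ?_⟩
  intro p d hd K hK Δ hΔ h hh χ hχ μ θ hμ hθ mc hmc n x hx hcube Z hZ
  have hd1 : 1 ≤ d := by omega
  have hN := nodup_ms hx
  have hsym : ∀ a b, FE p K h (ms x) (x a) (x b) → FE p K h (ms x) (x b) (x a) :=
    fun a b hab => FE_symm p K h (ms x) _ _ hab
  have hirr : ∀ a, ¬ FE p K h (ms x) (x a) (x a) := fun a => FE_ne p hd1 K h (ms x) _
  have hcard : ∀ a, Multiset.card (restr {y | FE p K h (ms x) (x a) y} (ms x))
      = (Finset.univ.filter (fun b => FE p K h (ms x) (x a) (x b))).card := by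
    intro a
    rw [card_restr_ms]
    rfl
  have hdeg : ∀ a, (Finset.univ.filter (fun b => FE p K h (ms x) (x a) (x b))).card ≤ 2 := by
    intro a
    rw [← hcard a]
    exact FE_degree p hd1 hK h hh (ms x) hN (x a)
  have hKd : 0 < K ^ (-(1 / (d : ℝ))) := Real.rpow_pos_of_pos hK _
  have key := H d hd n x hcube (fun a b => FE p K h (ms x) (x a) (x b)) hsym hirr hdeg
    (fun a b => p.B ^ 2 < sd K (x a) (x b) ∧ sd K (x a) (x b) ≤ Δ)
    (fun a b hab => by rw [sd_comm K (x b) (x a)]; exact hab)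
    (fun a ha => by
      rw [sd_self hd1 K (x a)] at ha
      exact absurd ha.1 (not_lt.2 (by positivity)))
    (K ^ (-(1 / (d : ℝ))) * Δ ^ (1 / (d : ℝ))) (by positivity)
    (fun a b hab => by
      rw [dist_eq_sd hd1 hK]
      exact mul_le_mul_of_nonneg_left
        (Real.rpow_le_rpow (sd_nonneg hK.le _ _) hab.2 (by positivity)) hKd.le)
    χ hχ μ θ hμ hθ mc hmc (fun a => wtP p K h (ms x) (x a))
    (fun a => by
      unfold wtP
      rw [hcard a])
    (N1f p K h (ms x)) (N2f p K Δ h (ms x)) (N3f p K Δ h (ms x))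
    (by unfold N1f; rw [sum_ms])
    (by
      unfold N2f
      rw [sum_ms]
      refine Finset.sum_congr rfl (fun a _ => ?_)
      rw [sum_restr_ms]
      rfl)
    (by
      unfold N3f
      rw [sum_ms]
      refine Finset.sum_congr rfl (fun a _ => ?_)
      rw [sum_restr_ms]
      refine Finset.sum_congr rfl (fun b _ => ?_)
      simp only [mem_ofPred_eq]
      by_cases hab : p.B ^ 2 < sd K (x a) (x b) ∧ sd K (x a) (x b) ≤ Δ
      · rw [if_pos hab, sum_restr_ms]
        refine Finset.sum_congr rfl (fun c _ => ?_)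
        simp only [mem_ofPred_eq, hab, true_and, hx.ne_iff, ne_comm (a := c) (b := b)]
      · rw [if_neg hab]
        symm
        refine Finset.sum_eq_zero (fun c _ => ?_)
        rw [if_neg]
        exact fun hc => hab hc.1)
    Z ((Nat.cast_le.2 (short_card p K h mc x hx)).trans hZ)
    (Xlin χ μ θ mc (N1f p K h (ms x)) (N2f p K Δ h (ms x)) (N3f p K Δ h (ms x)) Z n) rfl
  have hcost : (1 / 2 : ℝ) * (∑ a, ∑ b, (if FE p K h (ms x) (x a) (x b)
      then dist (x a) (x b) else 0)) = K ^ (-(1 / (d : ℝ))) * Cf p K h (ms x) := by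
    unfold Cf
    rw [sum_ms, Finset.mul_sum, Finset.mul_sum]
    refine Finset.sum_congr rfl (fun a _ => ?_)
    rw [sum_restr_ms, Finset.mul_sum, Finset.mul_sum]
    refine Finset.sum_congr rfl (fun b _ => ?_)
    simp only [mem_ofPred_eq]
    by_cases hab : FE p K h (ms x) (x a) (x b)
    · rw [if_pos hab, if_pos hab, dist_eq_sd hd1 hK]
      ring
    · rw [if_neg hab, if_neg hab]
      ring
  rw [hcost] at key
  exact key

end UF

end Pool.Agent.TSPd97
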