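import Pool.Agent.TSPd97.UppA

/-!
MP_076557_pr, package UF: elementary estimates for the upper bound.
-/

set_option autoImplicit false

open MeasureTheory Set Filter Topology
open scoped ENNReal

namespace Pool.Agent.TSPd97

namespace UF

/-! ### the linear functional `Xlin` -/

/-- coefficient of `N1` -/
noncomputable def k1 (χ : ℕ) (s : ℝ) : ℝ :=
  1 / 2 + (((χ : ℝ) - 1) / χ) * (1 / (4 * χ * s ^ 2)
    + (2 / s ^ 4) * ((1 + s / 2) * (s ^ 2 / (2 * χ) + s ^ 4 / 2) + s ^ 3 / 4))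

/-- coefficient of `N2` -/
noncomputable def k2 (χ : ℕ) (s : ℝ) : ℝ :=
  (((χ : ℝ) - 1) / χ) * (-(1 / (4 * χ * s ^ 2))
    + (2 / s ^ 4) * ((1 + s / 2) * (1 / (4 * χ) - s ^ 2 / (2 * χ))))

/-- coefficient of `N3` -/
noncomputable def k3 (χ : ℕ) (s : ℝ) : ℝ :=
  (((χ : ℝ) - 1) / χ) * ((2 / s ^ 4) * ((1 + s / 2) * (1 / (8 * (χ : ℝ) ^ 2))))

lemma Xlin_eq (χ : ℕ) (hχ : 2 ≤ χ) (s : ℝ) (hs : 0 < s) (mc : ℕ) (N1 N2 N3 Z n : ℝ) :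
    Xlin χ (s ^ 2) s mc N1 N2 N3 Z n
      = k1 χ s * N1 + k2 χ s * N2 + k3 χ s * N3 + Z + n / mc := by
  unfold Xlin k1 k2 k3
  have hχ0 : (χ : ℝ) ≠ 0 := by positivity
  have h1 : 1 + s ^ 2 / (2 * s) = 1 + s / 2 := by
    field_simp
  rw [h1]
  field_simp
  ring

lemma chi_frac (χ : ℕ) (hχ : 2 ≤ χ) : 0 ≤ ((χ : ℝ) - 1) / χ ∧ ((χ : ℝ) - 1) / χ ≤ 1 := by
  have h2 : (2 : ℝ) ≤ χ := by exact_mod_cast hχ
  constructor
  · apply div_nonneg <;> linarith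
  · rw [div_le_one (by linarith)]
    linarith

lemma k1_nonneg (χ : ℕ) (hχ : 2 ≤ χ) (s : ℝ) (hs : 1 ≤ s) : 0 ≤ k1 χ s := by
  unfold k1
  have := (chi_frac χ hχ).1
  have hχ0 : (0 : ℝ) < χ := by positivity
  have : 0 < s := by linarith
  positivity

lemma k1_le (χ : ℕ) (hχ : 2 ≤ χ) (s : ℝ) (hs : 1 ≤ s) : k1 χ s ≤ 5 + s := by
  have h2 : (2 : ℝ) ≤ χ := by exact_mod_cast hχ
  have hs0 : 0 < s := by linarith
  obtain ⟨f0, f1⟩ := chi_frac χ hχ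
  have hχi : 1 / (χ : ℝ) ≤ 1 / 2 := by
    apply one_div_le_one_div_of_le <;> linarith
  have e1 : 1 / (4 * (χ : ℝ) * s ^ 2) ≤ 1 := by
    rw [div_le_one (by positivity)]
    nlinarith
  have e2 : (2 / s ^ 4) * ((1 + s / 2) * (s ^ 2 / (2 * χ) + s ^ 4 / 2) + s ^ 3 / 4)
      = (1 + s / 2) * (1 / χ / s ^ 2 + 1) + 1 / (2 * s) := by
    field_simp
    ring
  have hsi : 1 / s ≤ 1 := by
    rw [div_le_one hs0]; exact hs
  have e3 : 1 / (χ : ℝ) / s ^ 2 ≤ 1 / 2 := by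
    refine le_trans (div_le_self (by positivity) ?_) hχi
    nlinarith
  have e4 : (1 + s / 2) * (1 / χ / s ^ 2 + 1) ≤ (1 + s / 2) * (3 / 2) := by
    apply mul_le_mul_of_nonneg_left _ (by positivity)
    linarith
  have e5 : 1 / (2 * s) ≤ 1 / 2 := by
    rw [← one_div_mul_one_div]
    linarith
  have e6 : 1 / (4 * (χ : ℝ) * s ^ 2)
      + (2 / s ^ 4) * ((1 + s / 2) * (s ^ 2 / (2 * χ) + s ^ 4 / 2) + s ^ 3 / 4)
      ≤ 1 + ((1 + s / 2) * (3 / 2) + 1 / 2) := by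
    rw [e2]
    linarith
  have e7 : 0 ≤ 1 / (4 * (χ : ℝ) * s ^ 2)
      + (2 / s ^ 4) * ((1 + s / 2) * (s ^ 2 / (2 * χ) + s ^ 4 / 2) + s ^ 3 / 4) := by
    positivity
  unfold k1
  have e8 := mul_le_of_le_one_left e7 f1
  linarith

lemma k2_abs (χ : ℕ) (hχ : 2 ≤ χ) (s : ℝ) (hs : 1 ≤ s) : |k2 χ s| ≤ 2 := by
  have h2 : (2 : ℝ) ≤ χ := by exact_mod_cast hχ
  have hs0 : 0 < s := by linarith
  obtain ⟨f0, f1⟩ := chi_frac χ hχ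
  have hχi : 1 / (χ : ℝ) ≤ 1 / 2 := by
    apply one_div_le_one_div_of_le <;> linarith
  have hχp : 0 < 1 / (χ : ℝ) := by positivity
  have hs2 : 0 < 1 / s ∧ 1 / s ≤ 1 := ⟨by positivity, by rw [div_le_one hs0]; exact hs⟩
  set y := 1 / s with hy
  set z := 1 / (χ : ℝ) with hz
  have e : k2 χ s = (((χ : ℝ) - 1) / χ) * (-(z * y ^ 2 / 4)
      + (2 * y ^ 4 + y ^ 3) * (z / 4) - (2 * y ^ 2 + y) * (z / 2)) := by
    unfold k2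
    rw [hy, hz]
    field_simp
    ring
  rw [e, abs_mul, abs_of_nonneg f0]
  have h1 : |(-(z * y ^ 2 / 4) + (2 * y ^ 4 + y ^ 3) * (z / 4) - (2 * y ^ 2 + y) * (z / 2))| ≤ 2 := by
    have y2 : y ^ 2 ≤ 1 := by nlinarith [hs2.1, hs2.2]
    have y3 : y ^ 3 ≤ 1 := pow_le_one₀ hs2.1.le hs2.2
    have y4 : y ^ 4 ≤ 1 := pow_le_one₀ hs2.1.le hs2.2
    have p2 : 0 ≤ y ^ 2 := by positivity
    have p3 : 0 ≤ y ^ 3 := pow_nonneg hs2.1.le 3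
    have p4 : 0 ≤ y ^ 4 := by positivity
    have q1 : z * y ^ 2 ≤ 1 / 2 := by nlinarith
    have q2 : 0 ≤ z * y ^ 2 := by positivity
    have q3 : (2 * y ^ 4 + y ^ 3) * (z / 4) ≤ 3 * (1 / 8) := by
      apply mul_le_mul <;> linarith
    have q4 : 0 ≤ (2 * y ^ 4 + y ^ 3) * (z / 4) := by positivity
    have q5 : (2 * y ^ 2 + y) * (z / 2) ≤ 3 * (1 / 4) := by
      apply mul_le_mul <;> linarith [hs2.2]
    have q6 : 0 ≤ (2 * y ^ 2 + y) * (z / 2) := by positivity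
    rw [abs_le]
    constructor <;> linarith
  calc ((χ : ℝ) - 1) / χ * _ ≤ 1 * 2 := mul_le_mul f1 h1 (abs_nonneg _) zero_le_one
    _ = 2 := by norm_num

lemma k3_bd (χ : ℕ) (hχ : 2 ≤ χ) (s : ℝ) (hs : 1 ≤ s) : 0 ≤ k3 χ s ∧ k3 χ s ≤ 1 := by
  have h2 : (2 : ℝ) ≤ χ := by exact_mod_cast hχ
  have hs0 : 0 < s := by linarith
  obtain ⟨f0, f1⟩ := chi_frac χ hχ
  constructor
  · unfold k3
    positivity
  · have hχi : 1 / (χ : ℝ) ≤ 1 / 2 := by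
      apply one_div_le_one_div_of_le <;> linarith
    have hχp : 0 < 1 / (χ : ℝ) := by positivity
    have hs2 : 0 < 1 / s ∧ 1 / s ≤ 1 := ⟨by positivity, by rw [div_le_one hs0]; exact hs⟩
    have e : k3 χ s = (((χ : ℝ) - 1) / χ) * ((2 * (1 / s) ^ 4 + (1 / s) ^ 3) *
        ((1 / (χ : ℝ)) ^ 2 / 8)) := by
      unfold k3
      field_simp
    rw [e]
    set y := 1 / s with hy
    set z := 1 / (χ : ℝ) with hz
    have y3 : y ^ 3 ≤ 1 := pow_le_one₀ hs2.1.le hs2.2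
    have y4 : y ^ 4 ≤ 1 := pow_le_one₀ hs2.1.le hs2.2
    have z2 : z ^ 2 ≤ 1 := by nlinarith
    have q3 : (2 * y ^ 4 + y ^ 3) * (z ^ 2 / 8) ≤ 3 * (1 / 8) := by
      apply mul_le_mul <;> first | linarith | positivity
    have p3 : 0 ≤ y ^ 3 := pow_nonneg hs2.1.le 3
    have q4 : 0 ≤ (2 * y ^ 4 + y ^ 3) * (z ^ 2 / 8) := by positivity
    calc ((χ : ℝ) - 1) / χ * _ ≤ 1 * (3 * (1 / 8)) := mul_le_mul f1 q3 q4 zero_le_one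
      _ ≤ 1 := by norm_num

/-- main value -/
lemma Xlin_main (χ : ℕ) (hχ : 2 ≤ χ) (s ρ T : ℝ) (hs : 1 ≤ s) (hρ : 0 < ρ)
    (hμ : s ^ 2 = ρ * T / (2 * χ)) (mc : ℕ) (Z n : ℝ) :
    Xlin χ (s ^ 2) s mc ρ (T * ρ ^ 2) (T ^ 2 * ρ ^ 3) Z n
      ≤ (ρ / 2) * (1 / χ + 6 / s) + Z + n / mc := by
  have h2 : (2 : ℝ) ≤ χ := by exact_mod_cast hχ
  have hs0 : 0 < s := by linarith
  have hχ0 : (χ : ℝ) ≠ 0 := by positivity
  have hT : ρ * T = 2 * χ * s ^ 2 := by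
    rw [hμ]; field_simp
  have e1 : T * ρ ^ 2 = 2 * χ * s ^ 2 * ρ := by
    calc T * ρ ^ 2 = (ρ * T) * ρ := by ring
      _ = _ := by rw [hT]
  have e2 : T ^ 2 * ρ ^ 3 = (2 * χ * s ^ 2) ^ 2 * ρ := by
    calc T ^ 2 * ρ ^ 3 = (ρ * T) ^ 2 * ρ := by ring
      _ = _ := by rw [hT]
  rw [e1, e2]
  have key : Xlin χ (s ^ 2) s mc ρ (2 * χ * s ^ 2 * ρ) ((2 * χ * s ^ 2) ^ 2 * ρ) Z n
      = (ρ / 2) * (1 - (1 - 1 / χ) * (1 - (1 / (2 * χ * s ^ 2)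
        + (2 / s ^ 2) * (1 + s / 2) * (1 + 1 / χ) + 1 / s))) + Z + n / mc := by
    unfold Xlin
    have h1 : 1 + s ^ 2 / (2 * s) = 1 + s / 2 := by
      field_simp
    rw [h1]
    field_simp
    ring
  rw [key]
  have hχi : 1 / (χ : ℝ) ≤ 1 / 2 := by
    apply one_div_le_one_div_of_le <;> linarith
  have hχp : 0 < 1 / (χ : ℝ) := by positivity
  have hs2 : 0 < 1 / s ∧ 1 / s ≤ 1 := ⟨by positivity, by rw [div_le_one hs0]; exact hs⟩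
  have hy : 1 / (2 * χ * s ^ 2) + (2 / s ^ 2) * (1 + s / 2) * (1 + 1 / χ) + 1 / s ≤ 6 / s := by
    have a1 : 1 / (2 * (χ : ℝ) * s ^ 2) = (1 / χ) * (1 / s) * (1 / s) / 2 := by
      field_simp
    have a2 : (2 / s ^ 2) * (1 + s / 2) * (1 + 1 / χ)
        = (2 * (1 / s) * (1 / s) + 1 / s) * (1 + 1 / χ) := by
      field_simp
    have a3 : 6 / s = 6 * (1 / s) := by ring
    rw [a1, a2, a3]
    set y := 1 / s
    set z := 1 / (χ : ℝ)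
    have b1 : y * y ≤ y := by nlinarith
    have b2 : z * y * y / 2 ≤ y / 4 := by
      have : z * y ≤ 1 / 2 * 1 := by
        apply mul_le_mul <;> linarith [hs2.1, hs2.2]
      nlinarith [hs2.1]
    have b3 : (2 * y * y + y) * (1 + z) ≤ (3 * y) * (3 / 2) := by
      apply mul_le_mul <;> nlinarith [hs2.1]
    linarith [hs2.1]
  have hy0 : 0 ≤ 1 / (2 * χ * s ^ 2) + (2 / s ^ 2) * (1 + s / 2) * (1 + 1 / χ) + 1 / s := by
    positivity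
  set y := 1 / (2 * χ * s ^ 2) + (2 / s ^ 2) * (1 + s / 2) * (1 + 1 / χ) + 1 / s
  have e3 : 1 - (1 - 1 / (χ : ℝ)) * (1 - y) ≤ 1 / χ + 6 / s := by
    nlinarith
  have := mul_le_mul_of_nonneg_left e3 (by positivity : (0 : ℝ) ≤ ρ / 2)
  linarith

/-- expectation of the linear functional -/
lemma EX_bound (χ : ℕ) (hχ : 2 ≤ χ) (s ρ T Δ : ℝ) (hs : 1 ≤ s) (hρ : 0 < ρ)
    (hΔ : 0 ≤ Δ) (hμ : s ^ 2 = ρ * T / (2 * χ)) (mc : ℕ) (l e1 e2 e3 E1 E2 E3 Z : ℝ)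
    (hl : 0 ≤ l) (he1 : 0 ≤ e1) (he2 : 0 ≤ e2) (he3 : 0 ≤ e3) (h1 : E1 ≤ l * (ρ + 2 * e1))
    (h2 : |E2 - l * (T * ρ ^ 2)| ≤ l * (4 * Δ * e2))
    (h3 : E3 ≤ l * (T ^ 2 * ρ ^ 3 + 8 * Δ ^ 2 * e3)) :
    Xlin χ (s ^ 2) s mc E1 E2 E3 Z l
      ≤ l * ((ρ / 2) * (1 / χ + 6 / s) + 1 / mc
        + (2 * (5 + s) * e1 + 8 * Δ * e2 + 8 * Δ ^ 2 * e3)) + Z := by
  have hs0 : 0 < s := by linarith
  have hm := Xlin_main χ hχ s ρ T hs hρ hμ mc 0 1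
  rw [Xlin_eq χ hχ s hs0] at hm
  rw [Xlin_eq χ hχ s hs0]
  have a1 := k1_nonneg χ hχ s hs
  have a2 := k1_le χ hχ s hs
  have a3 := k2_abs χ hχ s hs
  obtain ⟨a4, a5⟩ := k3_bd χ hχ s hs
  have b1 : k1 χ s * E1 ≤ k1 χ s * (l * ρ) + l * (2 * (5 + s) * e1) := by
    have c1 := mul_le_mul_of_nonneg_left h1 a1
    have c2 : k1 χ s * (l * (2 * e1)) ≤ (5 + s) * (l * (2 * e1)) :=
      mul_le_mul_of_nonneg_right a2 (by positivity)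
    nlinarith
  have b2 : k2 χ s * E2 ≤ k2 χ s * (l * (T * ρ ^ 2)) + l * (8 * Δ * e2) := by
    have c1 : k2 χ s * (E2 - l * (T * ρ ^ 2)) ≤ 2 * (l * (4 * Δ * e2)) := by
      calc k2 χ s * (E2 - l * (T * ρ ^ 2)) ≤ |k2 χ s * (E2 - l * (T * ρ ^ 2))| := le_abs_self _
        _ = |k2 χ s| * |E2 - l * (T * ρ ^ 2)| := abs_mul _ _
        _ ≤ 2 * (l * (4 * Δ * e2)) := mul_le_mul a3 h2 (abs_nonneg _) (by norm_num)
    linarith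
  have b3 : k3 χ s * E3 ≤ k3 χ s * (l * (T ^ 2 * ρ ^ 3)) + l * (8 * Δ ^ 2 * e3) := by
    have c1 := mul_le_mul_of_nonneg_left h3 a4
    have c2 : k3 χ s * (l * (8 * Δ ^ 2 * e3)) ≤ 1 * (l * (8 * Δ ^ 2 * e3)) :=
      mul_le_mul_of_nonneg_right a5 (by positivity)
    nlinarith
  have b4 := mul_le_mul_of_nonneg_left hm hl
  have b5 : l / mc = l * (1 / mc) := by ring
  rw [b5]
  nlinarith

end UF

end Pool.Agent.TSPd97
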