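import Pool.Agent.TSPd97.UppB
import Pool.Agent.TSPd97.UpMoments

/-!
MP_076557_pr, package UF: integration over the Poisson process.
-/

set_option autoImplicit false

open MeasureTheory Set Filter Topology
open scoped ENNReal

namespace Pool.Agent.TSPd97

namespace UF

lemma tsp_nonneg' {X : Type*} [PseudoMetricSpace X] {n : ℕ} (x : Fin n → X) : 0 ≤ tsp x := by
  unfold tsp
  exact Real.iInf_nonneg (fun σ => Finset.sum_nonneg (fun i _ => dist_nonneg))

lemma ae_cube (d : ℕ) (K : ℝ) : ∀ᵐ P ∂(PP (lam d K)), ∀ a ∈ P, a ∈ cube d := by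
  refine ae_PP_forall (lam d K) (measurableSet_cube d) ?_
  unfold lam
  rw [Measure.smul_apply, Measure.restrict_apply (measurableSet_cube d).compl,
    compl_inter_self, measure_empty, smul_zero]

lemma injective_of_nodup {E : Type*} {n : ℕ} {x : Fin n → E} (h : (ms x).Nodup) :
    Function.Injective x := by
  unfold ms at h
  intro i j hij
  exact Multiset.inj_on_of_nodup_map h i (Finset.mem_univ i) j (Finset.mem_univ j) hij

lemma poisTSP_le_integral {d : ℕ} (hd : 2 ≤ d) {l : ℝ} (hl : 0 < l)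
    (g : Multiset (Vd d) → ℝ) (hg : Measurable g)
    (hgi : Integrable g (PP (lam d (l * vball d))))
    (Z : Multiset (Vd d) → ℝ≥0∞) (hZ : Measurable Z)
    (hZf : ∫⁻ P, Z P ∂(PP (lam d (l * vball d))) ≠ ∞) (z : ℝ)
    (H : ∀ (n : ℕ) (x : Fin n → Vd d), Function.Injective x → (∀ i, x i ∈ cube d) →
      Z (ms x) ≠ ∞ → tsp x ≤ g (ms x) + z * (Z (ms x)).toReal) :
    poisTSP d l ≤ ∫ P, g P ∂(PP (lam d (l * vball d)))
      + z * (∫⁻ P, Z P ∂(PP (lam d (l * vball d)))).toReal := by
  classical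
  have hd1 : 1 ≤ d := by omega
  set ν := PP (lam d (l * vball d)) with hν
  set G : Multiset (Vd d) → ℝ := fun P => g P + z * (Z P).toReal with hG
  have hGm : Measurable G := hg.add (hZ.ennreal_toReal.const_mul z)
  set F : Multiset (Vd d) → ℝ≥0∞ := fun P => if Z P = ∞ then ∞ else ENNReal.ofReal (G P) with hF
  have hFm : Measurable F :=
    Measurable.ite (measurableSet_eq_fun hZ measurable_const) measurable_const hGm.ennreal_ofReal
  have h1 := poisTSP_le d hd l hl F hFm (by
    intro n x hx hc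
    simp only [hF]
    by_cases hz : Z (ms x) = ∞
    · rw [if_pos hz]
      exact le_top
    · rw [if_neg hz]
      exact ENNReal.ofReal_le_ofReal (H n x hx hc hz))
  have hZfin : ∀ᵐ P ∂ν, Z P < ∞ := ae_lt_top hZ hZf
  have hG0 : 0 ≤ᵐ[ν] G := by
    filter_upwards [hZfin, ae_cube d (l * vball d), ae_nodup hd1 (l * vball d)] with P h2 h3 h4
    obtain ⟨x, hx⟩ := exists_ms P
    rw [← hx] at h2 h3 h4
    have h8 := (tsp_nonneg' x).trans (H _ x (injective_of_nodup h4)
      (fun i => h3 _ (mem_ms.2 ⟨i, rfl⟩)) h2.ne)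
    rw [hx] at h8
    exact h8
  have hZi : Integrable (fun P => (Z P).toReal) ν :=
    integrable_toReal_of_lintegral_ne_top hZ.aemeasurable hZf
  have hGi : Integrable G ν := hgi.add (hZi.const_mul z)
  have h5 : ∫⁻ P, F P ∂ν = ENNReal.ofReal (∫ P, G P ∂ν) := by
    rw [ofReal_integral_eq_lintegral_ofReal hGi hG0]
    refine lintegral_congr_ae ?_
    filter_upwards [hZfin] with P h2
    simp only [hF]
    rw [if_neg h2.ne]
  have h6 : ∫ P, G P ∂ν = ∫ P, g P ∂ν + z * (∫⁻ P, Z P ∂ν).toReal := by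
    rw [hG, integral_add hgi (hZi.const_mul z), integral_const_mul,
      integral_toReal hZ.aemeasurable hZfin]
  rw [← h6]
  have h7 : ENNReal.ofReal (poisTSP d l) ≤ ENNReal.ofReal (∫ P, G P ∂ν) := h1.trans h5.le
  exact (ENNReal.ofReal_le_ofReal_iff (integral_nonneg_of_ae hG0)).1 h7

lemma card_integrable {d : ℕ} (hd : 1 ≤ d) {l : ℝ} (hl : 0 < l) :
    Integrable (fun P : Multiset (Vd d) => (Multiset.card P : ℝ)) (PP (lam d (l * vball d))) ∧
    ∫ P : Multiset (Vd d), (Multiset.card P : ℝ) ∂(PP (lam d (l * vball d))) = l := by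
  have hm : Measurable (fun P : Multiset (Vd d) => (Multiset.card P : ℝ≥0∞)) :=
    measurable_from_top.comp (measurable_card (E := Vd d))
  have hc := mean_card d l hl hd
  have h1 : ∀ P : Multiset (Vd d), (Multiset.card P : ℝ) = ((Multiset.card P : ℝ≥0∞)).toReal := by
    intro P
    rw [ENNReal.toReal_natCast]
  have hne : ∫⁻ P : Multiset (Vd d), (Multiset.card P : ℝ≥0∞) ∂(PP (lam d (l * vball d))) ≠ ∞ := by
    rw [hc]
    exact ENNReal.ofReal_ne_top
  simp only [h1]
  refine ⟨integrable_toReal_of_lintegral_ne_top hm.aemeasurable hne, ?_⟩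
  rw [integral_toReal hm.aemeasurable (ae_lt_top hm hne), hc, ENNReal.toReal_ofReal hl.le]

lemma vball_pos' (d : ℕ) : 0 < vball d := T1.vball_pos d

/-- Young: linearisation of the power -/
lemma rpow_lin {d : ℕ} (hd : 1 ≤ d) {κ X : ℝ} (hκ : 0 < κ) (hX : 0 ≤ X) :
    X ^ (((d : ℝ) - 1) / d) ≤ κ ^ (-(1 / (d : ℝ))) * (κ + X) := by
  have hd0 : (0 : ℝ) < d := by positivity
  have hd1 : (1 : ℝ) ≤ d := by exact_mod_cast hd
  have hw : ((d : ℝ) - 1) / d + 1 / d = 1 := by
    field_simp
    ring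
  have h1 := Real.geom_mean_le_arith_mean2_weighted (w₁ := ((d : ℝ) - 1) / d) (w₂ := 1 / (d : ℝ))
    (p₁ := X) (p₂ := κ) (by apply div_nonneg <;> linarith) (by positivity) hX hκ.le hw
  have h2 : ((d : ℝ) - 1) / d * X + 1 / d * κ ≤ κ + X := by
    have a1 : ((d : ℝ) - 1) / d ≤ 1 := by
      rw [div_le_one hd0]; linarith
    have a2 : 1 / (d : ℝ) ≤ 1 := by
      rw [div_le_one hd0]; exact hd1
    nlinarith
  have h3 : X ^ (((d : ℝ) - 1) / d) = κ ^ (-(1 / (d : ℝ))) *
      (X ^ (((d : ℝ) - 1) / d) * κ ^ (1 / (d : ℝ))) := by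
    rw [Real.rpow_neg hκ.le]
    have : κ ^ (1 / (d : ℝ)) ≠ 0 := (Real.rpow_pos_of_pos hκ _).ne'
    field_simp
  rw [h3]
  exact mul_le_mul_of_nonneg_left (h1.trans h2) (Real.rpow_nonneg hκ.le _)

/-- the two bounds for `poisTSP`, in terms of the moments -/
lemma poisTSP_bounds : ∃ C : ℝ, 0 < C ∧ ∀ (p : Par) (d : ℕ), 2 ≤ d → ∀ l : ℝ, 0 < l →
    ∀ Δ : ℝ, p.B ^ 2 ≤ Δ → Δ ≤ 2 ^ d * p.B ^ 2 → ∀ h : ℕ, 2 * p.k + 1 ≤ h → ∀ χ : ℕ, 2 ≤ χ →
    ∀ s : ℝ, 0 < s → ∀ mc : ℕ, 1 ≤ mc → ∀ κ : ℝ, 0 < κ →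
    ∀ E1 E2 E3 EC EZ : ℝ,
    E1 = ∫ P, N1f p (d := d) (l * vball d) h P ∂(PP (lam d (l * vball d))) →
    E2 = ∫ P, N2f p (d := d) (l * vball d) Δ h P ∂(PP (lam d (l * vball d))) →
    E3 = ∫ P, N3f p (d := d) (l * vball d) Δ h P ∂(PP (lam d (l * vball d))) →
    EC = ∫ P, Cf p (d := d) (l * vball d) h P ∂(PP (lam d (l * vball d))) →
    EZ = l * ((15 / 16 : ℝ) ^ ((d : ℝ) / 2) * (2 * mc + 2) * (p.B ^ 2 + 2 * h + 4) ^ (2 * h + 4)) →
    (poisTSP d l ≤ (l * vball d) ^ (-(1 / (d : ℝ))) * EC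
        + (l * vball d) ^ (-(1 / (d : ℝ))) * Δ ^ (1 / (d : ℝ)) * E1 / 2
        + C * Real.sqrt d * (κ ^ (-(1 / (d : ℝ))) * (κ + Xlin χ (s ^ 2) s mc E1 E2 E3 EZ l))
        + Real.sqrt d) ∧
    (poisTSP d l ≤ (l * vball d) ^ (-(1 / (d : ℝ))) * EC
        + C * Real.sqrt d * (κ ^ (-(1 / (d : ℝ))) * (κ + (E1 / 2 + EZ + l / mc)))
        + Real.sqrt d) := by
  obtain ⟨C, hC, H⟩ := tour_bound
  refine ⟨C, hC, ?_⟩
  intro p d hd l hl Δ hΔ hΔ2 h hh χ hχ s hs mc hmc κ hκ E1 E2 E3 EC EZ hE1 hE2 hE3 hEC hEZ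
  have hd1 : 1 ≤ d := by omega
  have hv := vball_pos' d
  set K := l * vball d with hKdef
  have hK : 0 < K := by positivity
  have hB : 0 < p.B := by
    have h8 : (8 : ℝ) ≤ p.k := by exact_mod_cast p.hk
    linarith [p.hkB]
  have hΔ0 : 0 < Δ := lt_of_lt_of_le (by positivity) hΔ
  have hKv : K / vball d = l := by
    rw [hKdef]; field_simp
  obtain ⟨Z, hZm, hZ1, hZ2⟩ := cycle_count p hd1 hK h hh mc
  rw [hKv] at hZ2
  have hZf : ∫⁻ P, Z P ∂(PP (lam d K)) ≠ ∞ := ne_top_of_le_ne_top ENNReal.ofReal_ne_top hZ2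
  have hEZ0 : 0 ≤ EZ := by
    rw [hEZ]
    positivity
  have hZr : (∫⁻ P, Z P ∂(PP (lam d K))).toReal ≤ EZ := by
    rw [hEZ]
    refine (ENNReal.toReal_mono ENNReal.ofReal_ne_top hZ2).trans ?_
    rw [ENNReal.toReal_ofReal (by positivity)]
  obtain ⟨i1, i2, i3, i4, -, -, -, -⟩ := upper_moments p hd hK hΔ hΔ2 h hh _ _ _ _ rfl rfl rfl rfl
  obtain ⟨ic, ec⟩ := card_integrable hd1 hl
  rw [← hKdef] at ic ec
  have hκp : 0 < κ ^ (-(1 / (d : ℝ))) := Real.rpow_pos_of_pos hκ _
  have hz0 : 0 ≤ C * Real.sqrt d * κ ^ (-(1 / (d : ℝ))) := by positivity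
  have m1 := measurable_N1f p (d := d) K h
  have m2 := measurable_N2f p (d := d) K Δ h
  have m3 := measurable_N3f p (d := d) K Δ h
  have m4 := measurable_Cf p (d := d) K h
  have mc' : Measurable fun P : Multiset (Vd d) => (Multiset.card P : ℝ) :=
    measurable_from_top.comp (measurable_card (E := Vd d))
  have hshort : ∀ (n : ℕ) (x : Fin n → Vd d), Function.Injective x → Z (ms x) ≠ ∞ →
      (Multiset.card (restr {w | ShortCyc p K h mc (ms x) w} (ms x)) : ℝ) ≤ (Z (ms x)).toReal := by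
    intro n x hx hz
    have := ENNReal.toReal_mono hz (hZ1 (ms x) (nodup_ms hx))
    rwa [ENNReal.toReal_natCast] at this
  have hcard : ∀ (n : ℕ) (x : Fin n → Vd d), (Multiset.card (ms x) : ℝ) = n := by
    intro n x
    simp [ms]
  constructor
  · -- first bound
    set g : Multiset (Vd d) → ℝ := fun P => K ^ (-(1 / (d : ℝ))) * Cf p K h P
        + K ^ (-(1 / (d : ℝ))) * Δ ^ (1 / (d : ℝ)) / 2 * N1f p K h P
        + C * Real.sqrt d * κ ^ (-(1 / (d : ℝ))) * (κ + (k1 χ s * N1f p K h P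
          + k2 χ s * N2f p K Δ h P + k3 χ s * N3f p K Δ h P + (Multiset.card P : ℝ) / mc))
        + Real.sqrt d with hg
    have hgm : Measurable g := by
      refine Measurable.add (Measurable.add (Measurable.add (m4.const_mul _) (m1.const_mul _)) ?_)
        measurable_const
      refine Measurable.const_mul (measurable_const.add ?_) _
      exact (((m1.const_mul _).add (m2.const_mul _)).add (m3.const_mul _)).add (mc'.div_const _)
    have a1 : Integrable (fun P : Multiset (Vd d) => k1 χ s * N1f p K h P) (PP (lam d K)) :=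
      i1.const_mul _
    have a2 : Integrable (fun P : Multiset (Vd d) => k2 χ s * N2f p K Δ h P) (PP (lam d K)) :=
      i2.const_mul _
    have a3 : Integrable (fun P : Multiset (Vd d) => k3 χ s * N3f p K Δ h P) (PP (lam d K)) :=
      i3.const_mul _
    have a4 : Integrable (fun P : Multiset (Vd d) => (Multiset.card P : ℝ) / mc) (PP (lam d K)) :=
      ic.div_const _
    have a12 : Integrable (fun P : Multiset (Vd d) => k1 χ s * N1f p K h P
      + k2 χ s * N2f p K Δ h P) (PP (lam d K)) := a1.add a2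
    have a123 : Integrable (fun P : Multiset (Vd d) => k1 χ s * N1f p K h P
      + k2 χ s * N2f p K Δ h P + k3 χ s * N3f p K Δ h P) (PP (lam d K)) := a12.add a3
    have ji : Integrable (fun P : Multiset (Vd d) => k1 χ s * N1f p K h P
          + k2 χ s * N2f p K Δ h P + k3 χ s * N3f p K Δ h P + (Multiset.card P : ℝ) / mc)
          (PP (lam d K)) := a123.add a4
    have jI : ∫ P : Multiset (Vd d), (k1 χ s * N1f p K h P
          + k2 χ s * N2f p K Δ h P + k3 χ s * N3f p K Δ h P + (Multiset.card P : ℝ) / mc)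
          ∂(PP (lam d K)) = k1 χ s * E1 + k2 χ s * E2 + k3 χ s * E3 + l / mc := by
      rw [integral_add a123 a4, integral_add a12 a3, integral_add a1 a2, integral_const_mul,
        integral_const_mul, integral_const_mul, integral_div, ec, hE1, hE2, hE3]
    have b1 : Integrable (fun P : Multiset (Vd d) => K ^ (-(1 / (d : ℝ))) * Cf p K h P)
      (PP (lam d K)) := i4.const_mul _
    have b2 : Integrable (fun P : Multiset (Vd d) => K ^ (-(1 / (d : ℝ))) * Δ ^ (1 / (d : ℝ)) / 2
      * N1f p K h P) (PP (lam d K)) := i1.const_mul _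
    have b3' : Integrable (fun P : Multiset (Vd d) => κ + (k1 χ s * N1f p K h P
          + k2 χ s * N2f p K Δ h P + k3 χ s * N3f p K Δ h P + (Multiset.card P : ℝ) / mc))
          (PP (lam d K)) := (integrable_const _).add ji
    have b3 : Integrable (fun P : Multiset (Vd d) => C * Real.sqrt d * κ ^ (-(1 / (d : ℝ)))
          * (κ + (k1 χ s * N1f p K h P
          + k2 χ s * N2f p K Δ h P + k3 χ s * N3f p K Δ h P + (Multiset.card P : ℝ) / mc)))
          (PP (lam d K)) := b3'.const_mul _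
    have b12 : Integrable (fun P : Multiset (Vd d) => K ^ (-(1 / (d : ℝ))) * Cf p K h P
      + K ^ (-(1 / (d : ℝ))) * Δ ^ (1 / (d : ℝ)) / 2 * N1f p K h P) (PP (lam d K)) := b1.add b2
    have b123 : Integrable (fun P : Multiset (Vd d) => K ^ (-(1 / (d : ℝ))) * Cf p K h P
      + K ^ (-(1 / (d : ℝ))) * Δ ^ (1 / (d : ℝ)) / 2 * N1f p K h P
      + C * Real.sqrt d * κ ^ (-(1 / (d : ℝ)))
          * (κ + (k1 χ s * N1f p K h P
          + k2 χ s * N2f p K Δ h P + k3 χ s * N3f p K Δ h P + (Multiset.card P : ℝ) / mc)))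
      (PP (lam d K)) := b12.add b3
    have hgi : Integrable g (PP (lam d K)) := b123.add (integrable_const _)
    have hgI : ∫ P, g P ∂(PP (lam d K)) = K ^ (-(1 / (d : ℝ))) * EC
        + K ^ (-(1 / (d : ℝ))) * Δ ^ (1 / (d : ℝ)) / 2 * E1
        + C * Real.sqrt d * κ ^ (-(1 / (d : ℝ))) * (κ + (k1 χ s * E1 + k2 χ s * E2 + k3 χ s * E3
          + l / mc)) + Real.sqrt d := by
      simp only [hg]
      rw [integral_add b123 (integrable_const _), integral_add b12 b3, integral_add b1 b2,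
        integral_const_mul, integral_const_mul,
        integral_const_mul, integral_add (integrable_const _) ji, jI, hEC, hE1]
      simp
    have main := poisTSP_le_integral hd hl g hgm hgi Z hZm hZf
      (C * Real.sqrt d * κ ^ (-(1 / (d : ℝ)))) (by
        intro n x hx hc hz
        obtain ⟨⟨x0, hx1⟩, -⟩ := H p d hd K hK Δ hΔ0 h hh χ hχ (s ^ 2) s (by positivity) hs mc hmc
          n x hx hc _ (hshort n x hx hz)
        refine hx1.trans ?_
        have y1 := rpow_lin hd1 hκ x0
        rw [Xlin_eq χ hχ s hs] at y1 x0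
        have y2 := mul_le_mul_of_nonneg_left y1 (by positivity : 0 ≤ C * Real.sqrt d)
        rw [Xlin_eq χ hχ s hs]
        simp only [hg, hcard n x]
        linarith)
    rw [← hKdef, hgI] at main
    refine main.trans ?_
    rw [Xlin_eq χ hχ s hs]
    have y3 := mul_le_mul_of_nonneg_left hZr hz0
    linarith
  · -- second bound
    set g : Multiset (Vd d) → ℝ := fun P => K ^ (-(1 / (d : ℝ))) * Cf p K h P
        + C * Real.sqrt d * κ ^ (-(1 / (d : ℝ))) * (κ + (N1f p K h P / 2
          + (Multiset.card P : ℝ) / mc))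
        + Real.sqrt d with hg
    have hgm : Measurable g := by
      refine Measurable.add (Measurable.add (m4.const_mul _) ?_) measurable_const
      exact Measurable.const_mul (measurable_const.add ((m1.div_const _).add (mc'.div_const _))) _
    have a1 : Integrable (fun P : Multiset (Vd d) => N1f p K h P / 2) (PP (lam d K)) :=
      i1.div_const _
    have a4 : Integrable (fun P : Multiset (Vd d) => (Multiset.card P : ℝ) / mc) (PP (lam d K)) :=
      ic.div_const _
    have ji : Integrable (fun P : Multiset (Vd d) => N1f p K h P / 2 + (Multiset.card P : ℝ) / mc)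
          (PP (lam d K)) := a1.add a4
    have jI : ∫ P : Multiset (Vd d), (N1f p K h P / 2 + (Multiset.card P : ℝ) / mc)
          ∂(PP (lam d K)) = E1 / 2 + l / mc := by
      rw [integral_add a1 a4, integral_div, integral_div, ec, hE1]
    have b1 : Integrable (fun P : Multiset (Vd d) => K ^ (-(1 / (d : ℝ))) * Cf p K h P)
      (PP (lam d K)) := i4.const_mul _
    have b3' : Integrable (fun P : Multiset (Vd d) => κ + (N1f p K h P / 2
      + (Multiset.card P : ℝ) / mc)) (PP (lam d K)) := (integrable_const _).add ji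
    have b3 : Integrable (fun P : Multiset (Vd d) => C * Real.sqrt d * κ ^ (-(1 / (d : ℝ)))
          * (κ + (N1f p K h P / 2 + (Multiset.card P : ℝ) / mc))) (PP (lam d K)) :=
      b3'.const_mul _
    have b13 : Integrable (fun P : Multiset (Vd d) => K ^ (-(1 / (d : ℝ))) * Cf p K h P
      + C * Real.sqrt d * κ ^ (-(1 / (d : ℝ)))
          * (κ + (N1f p K h P / 2 + (Multiset.card P : ℝ) / mc))) (PP (lam d K)) := b1.add b3
    have hgi : Integrable g (PP (lam d K)) := b13.add (integrable_const _)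
    have hgI : ∫ P, g P ∂(PP (lam d K)) = K ^ (-(1 / (d : ℝ))) * EC
        + C * Real.sqrt d * κ ^ (-(1 / (d : ℝ))) * (κ + (E1 / 2 + l / mc)) + Real.sqrt d := by
      simp only [hg]
      rw [integral_add b13 (integrable_const _), integral_add b1 b3,
        integral_const_mul, integral_const_mul, integral_add (integrable_const _) ji, jI, hEC]
      simp
    have main := poisTSP_le_integral hd hl g hgm hgi Z hZm hZf
      (C * Real.sqrt d * κ ^ (-(1 / (d : ℝ)))) (by
        intro n x hx hc hz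
        obtain ⟨-, ⟨x0, hx1⟩⟩ := H p d hd K hK Δ hΔ0 h hh χ hχ (s ^ 2) s (by positivity) hs mc hmc
          n x hx hc _ (hshort n x hx hz)
        refine hx1.trans ?_
        have hn : 0 ≤ N1f p K h (ms x) / 2 + (Z (ms x)).toReal + (n : ℝ) / mc := by positivity
        have y1 := rpow_lin hd1 hκ hn
        have y2 := mul_le_mul_of_nonneg_left y1 (by positivity : 0 ≤ C * Real.sqrt d)
        simp only [hg, hcard n x]
        linarith)
    rw [← hKdef, hgI] at main
    refine main.trans ?_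
    have y3 := mul_le_mul_of_nonneg_left hZr hz0
    linarith

end UF

end Pool.Agent.TSPd97
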