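import Pool.Agent.TSPd97.UppC

/-!
MP_076557_pr, package UF: estimates for large dimension.
-/

set_option autoImplicit false

open MeasureTheory Set Filter Topology
open scoped ENNReal

namespace Pool.Agent.TSPd97

namespace UF

/-- window length -/
noncomputable def kk (d : ℕ) : ℕ := ⌈(d : ℝ) ^ (3 / 4 : ℝ)⌉₊

lemma log_le_eighth {x : ℝ} (hx : 0 ≤ x) : Real.log x ≤ 8 * x ^ (1 / 8 : ℝ) := by
  have := Real.log_le_rpow_div hx (by norm_num : (0 : ℝ) < 1 / 8)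
  linarith [this, (by ring : x ^ (1 / 8 : ℝ) / (1 / 8) = 8 * x ^ (1 / 8 : ℝ))]

lemma log_le_sqrt' {x : ℝ} (hx : 0 < x) : Real.log x ≤ Real.sqrt x := by
  have h1 := Real.add_one_le_exp (Real.log x / 2 - 1)
  have h2 : Real.log x / 2 ≤ Real.exp (Real.log x / 2 - 1) := by linarith
  have h3 : Real.exp (Real.log x / 2 - 1) = Real.sqrt x * Real.exp (-1) := by
    rw [sub_eq_add_neg, Real.exp_add, Real.sqrt_eq_rpow, Real.rpow_def_of_pos hx]
    congr 2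
    ring
  have h4 : Real.exp (-1) ≤ 1 / 2 := by
    rw [Real.exp_neg]
    have := Real.add_one_le_exp (1 : ℝ)
    rw [inv_le_comm₀ (Real.exp_pos 1) (by norm_num)]
    norm_num at this ⊢
    linarith
  have h5 : 0 ≤ Real.sqrt x := Real.sqrt_nonneg x
  nlinarith

lemma big_exp : ∀ᶠ d : ℕ in atTop, (15 / 16 : ℝ) ^ ((d : ℝ) / 2) *
    (2 * (d : ℝ) ^ 2) ^ (4 * kk d + 6) * (d : ℝ) ^ 22 ≤ 1 := by
  have h1 : ∀ᶠ d : ℕ in atTop, (32 * 500 : ℝ) ≤ (d : ℝ) ^ (1 / 8 : ℝ) := by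
    have := (tendsto_rpow_atTop (by norm_num : (0 : ℝ) < 1 / 8)).comp
      (tendsto_natCast_atTop_atTop (R := ℝ))
    exact this.eventually_ge_atTop _
  filter_upwards [h1, eventually_ge_atTop 1] with d hd hd1
  have hd0 : (1 : ℝ) ≤ d := by exact_mod_cast hd1
  have hdp : (0 : ℝ) < d := by linarith
  set y := (d : ℝ) ^ (1 / 8 : ℝ) with hy
  have hy1 : 1 ≤ y := by linarith
  have hlog : Real.log d ≤ 8 * y := log_le_eighth hdp.le
  have hlog0 : 0 ≤ Real.log d := Real.log_nonneg hd0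
  have hk : (kk d : ℝ) ≤ (d : ℝ) ^ (3 / 4 : ℝ) + 1 :=
    (Nat.ceil_lt_add_one (by positivity)).le
  have h6 : (d : ℝ) ^ (3 / 4 : ℝ) = y ^ 6 := by
    rw [hy, ← Real.rpow_natCast, ← Real.rpow_mul hdp.le]
    norm_num
  have h8 : (d : ℝ) = y ^ 8 := by
    rw [hy, ← Real.rpow_natCast, ← Real.rpow_mul hdp.le]
    norm_num
  rw [h6] at hk
  have hl2 : Real.log 2 ≤ 1 := by
    have := Real.log_two_lt_d9
    linarith
  have hpos : 0 < (15 / 16 : ℝ) ^ ((d : ℝ) / 2) * (2 * (d : ℝ) ^ 2) ^ (4 * kk d + 6) *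
      (d : ℝ) ^ 22 := by positivity
  rw [← Real.log_nonpos_iff hpos.le]
  rw [Real.log_mul (by positivity) (by positivity), Real.log_mul (by positivity) (by positivity),
    Real.log_rpow (by norm_num), Real.log_pow, Real.log_pow,
    Real.log_mul (by norm_num) (by positivity), Real.log_pow]
  push_cast
  have hl : Real.log (15 / 16 : ℝ) ≤ -(1 / 16) := by
    have := Real.log_le_sub_one_of_pos (by norm_num : (0 : ℝ) < 15 / 16)
    linarith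
  have a1 : (d : ℝ) / 2 * Real.log (15 / 16) ≤ (d : ℝ) / 2 * (-(1 / 16)) :=
    mul_le_mul_of_nonneg_left hl (by positivity)
  have a2 : (4 * (kk d : ℝ) + 6) * (Real.log 2 + 2 * Real.log d)
      ≤ (4 * (y ^ 6 + 1) + 6) * (1 + 2 * (8 * y)) := by
    apply mul_le_mul
    · linarith
    · linarith
    · have := Real.log_nonneg (by norm_num : (1 : ℝ) ≤ 2)
      linarith
    · positivity
  have y6 : 1 ≤ y ^ 6 := one_le_pow₀ hy1
  have a3 : (4 * (y ^ 6 + 1) + 6) * (1 + 2 * (8 * y)) ≤ (14 * y ^ 6) * (17 * y) := by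
    apply mul_le_mul
    · linarith
    · linarith
    · positivity
    · positivity
  have a4 : 22 * Real.log d ≤ 176 * y := by linarith
  have a5 : (14 * y ^ 6) * (17 * y) + 176 * y ≤ 500 * y ^ 7 := by
    have : y ≤ y ^ 7 := by
      calc y = 1 * y := by ring
        _ ≤ y ^ 6 * y := mul_le_mul_of_nonneg_right y6 (by linarith)
        _ = y ^ 7 := by ring
    nlinarith
  have a6 : (32 * 500) * y ^ 7 ≤ (d : ℝ) := by
    rw [h8]
    calc (32 * 500) * y ^ 7 ≤ y * y ^ 7 := mul_le_mul_of_nonneg_right hd (by positivity)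
      _ = y ^ 8 := by ring
  linarith

/-- the conditions on the dimension -/
structure Large (d : ℕ) : Prop where
  ge : 100 ≤ d
  k8 : 8 ≤ kk d
  kd : kk d ≤ d
  ksq : (d : ℝ) ^ (3 / 2 : ℝ) ≤ (kk d : ℝ) ^ 2
  hexp : (15 / 16 : ℝ) ^ ((d : ℝ) / 2) * (2 * (d : ℝ) ^ 2) ^ (4 * kk d + 6) * (d : ℝ) ^ 22 ≤ 1

lemma large_eventually : ∀ᶠ d : ℕ in atTop, Large d := by
  have h1 : ∀ᶠ d : ℕ in atTop, (8 : ℝ) ≤ (d : ℝ) ^ (3 / 4 : ℝ) := by
    have := (tendsto_rpow_atTop (by norm_num : (0 : ℝ) < 3 / 4)).comp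
      (tendsto_natCast_atTop_atTop (R := ℝ))
    exact this.eventually_ge_atTop _
  filter_upwards [h1, big_exp, eventually_ge_atTop 100] with d h1 h2 h3
  have hd1 : (1 : ℝ) ≤ d := by exact_mod_cast (by omega : 1 ≤ d)
  refine ⟨h3, ?_, ?_, ?_, h2⟩
  · unfold kk
    have : (8 : ℝ) ≤ (⌈(d : ℝ) ^ (3 / 4 : ℝ)⌉₊ : ℝ) := h1.trans (Nat.le_ceil _)
    exact_mod_cast this
  · unfold kk
    rw [Nat.ceil_le]
    calc (d : ℝ) ^ (3 / 4 : ℝ) ≤ (d : ℝ) ^ (1 : ℝ) :=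
          Real.rpow_le_rpow_of_exponent_le hd1 (by norm_num)
      _ = d := Real.rpow_one _
  · have : (d : ℝ) ^ (3 / 4 : ℝ) ≤ (kk d : ℝ) := Nat.le_ceil _
    calc (d : ℝ) ^ (3 / 2 : ℝ) = ((d : ℝ) ^ (3 / 4 : ℝ)) ^ 2 := by
          rw [← Real.rpow_natCast, ← Real.rpow_mul (by linarith)]
          norm_num
      _ ≤ (kk d : ℝ) ^ 2 := pow_le_pow_left₀ (by positivity) this 2

namespace Large

variable {d : ℕ} (hL : Large d)

include hL

lemma r1 : (100 : ℝ) ≤ d := by exact_mod_cast hL.ge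

lemma eerr_le : eerr d ((d : ℝ) ^ 2) (2 * kk d + 1) ≤ 1 / (34 * (d : ℝ) ^ 10) := by
  have h1 := hL.r1
  have hexp := hL.hexp
  unfold eerr
  have hd : (0 : ℝ) < d := by linarith
  rw [le_div_iff₀ (by positivity)]
  refine le_trans ?_ hexp
  have e1 : ((d : ℝ) ^ 2 + 3) ^ (2 * (2 * kk d + 1) + 2) ≤ (2 * (d : ℝ) ^ 2) ^ (4 * kk d + 6) := by
    calc ((d : ℝ) ^ 2 + 3) ^ (2 * (2 * kk d + 1) + 2)
        ≤ (2 * (d : ℝ) ^ 2) ^ (2 * (2 * kk d + 1) + 2) := by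
          apply pow_le_pow_left₀ (by positivity)
          nlinarith
      _ ≤ (2 * (d : ℝ) ^ 2) ^ (4 * kk d + 6) := by
          apply pow_le_pow_right₀
          · nlinarith
          · omega
  have e2 : 34 * (d : ℝ) ^ 10 ≤ (d : ℝ) ^ 22 := by
    have : (34 : ℝ) ≤ (d : ℝ) ^ 12 := by
      calc (34 : ℝ) ≤ (100 : ℝ) ^ 12 := by norm_num
        _ ≤ (d : ℝ) ^ 12 := pow_le_pow_left₀ (by norm_num) h1 12
    calc 34 * (d : ℝ) ^ 10 ≤ (d : ℝ) ^ 12 * (d : ℝ) ^ 10 :=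
          mul_le_mul_of_nonneg_right this (by positivity)
      _ = (d : ℝ) ^ 22 := by ring
  have h0 : 0 ≤ (15 / 16 : ℝ) ^ ((d : ℝ) / 2) := by positivity
  calc (15 / 16 : ℝ) ^ ((d : ℝ) / 2) * ((d : ℝ) ^ 2 + 3) ^ (2 * (2 * kk d + 1) + 2)
        * (34 * (d : ℝ) ^ 10)
      ≤ (15 / 16 : ℝ) ^ ((d : ℝ) / 2) * (2 * (d : ℝ) ^ 2) ^ (4 * kk d + 6) * (d : ℝ) ^ 22 := by
        apply mul_le_mul _ e2 (by positivity) (by positivity)
        exact mul_le_mul_of_nonneg_left e1 h0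

lemma cyc_le : (15 / 16 : ℝ) ^ ((d : ℝ) / 2) * (2 * ((d ^ 2 : ℕ) : ℝ) + 2)
      * ((d : ℝ) ^ 2 + 2 * ((2 * kk d + 1 : ℕ) : ℝ) + 4) ^ (2 * (2 * kk d + 1) + 4)
      ≤ 1 / (d : ℝ) ^ 2 := by
  have h1 := hL.r1
  have hexp := hL.hexp
  have hd : (0 : ℝ) < d := by linarith
  rw [le_div_iff₀ (by positivity)]
  refine le_trans ?_ hexp
  have hkd : (kk d : ℝ) ≤ d := by exact_mod_cast hL.kd
  have e1 : ((d : ℝ) ^ 2 + 2 * ((2 * kk d + 1 : ℕ) : ℝ) + 4) ^ (2 * (2 * kk d + 1) + 4)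
      ≤ (2 * (d : ℝ) ^ 2) ^ (4 * kk d + 6) := by
    rw [show 2 * (2 * kk d + 1) + 4 = 4 * kk d + 6 by ring]
    apply pow_le_pow_left₀ (by positivity)
    push_cast
    nlinarith
  have e2 : (2 * ((d ^ 2 : ℕ) : ℝ) + 2) * (d : ℝ) ^ 2 ≤ (d : ℝ) ^ 22 := by
    push_cast
    have a : 2 * (d : ℝ) ^ 2 + 2 ≤ (d : ℝ) ^ 3 := by nlinarith [sq_nonneg (d : ℝ)]
    calc (2 * (d : ℝ) ^ 2 + 2) * (d : ℝ) ^ 2 ≤ (d : ℝ) ^ 3 * (d : ℝ) ^ 2 :=
          mul_le_mul_of_nonneg_right a (by positivity)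
      _ = (d : ℝ) ^ 5 := by ring
      _ ≤ (d : ℝ) ^ 22 := pow_le_pow_right₀ (by linarith) (by norm_num)
  have h0 : 0 ≤ (15 / 16 : ℝ) ^ ((d : ℝ) / 2) := by positivity
  calc (15 / 16 : ℝ) ^ ((d : ℝ) / 2) * (2 * ((d ^ 2 : ℕ) : ℝ) + 2)
      * ((d : ℝ) ^ 2 + 2 * ((2 * kk d + 1 : ℕ) : ℝ) + 4) ^ (2 * (2 * kk d + 1) + 4) * (d : ℝ) ^ 2
      = (15 / 16 : ℝ) ^ ((d : ℝ) / 2) *
        (((d : ℝ) ^ 2 + 2 * ((2 * kk d + 1 : ℕ) : ℝ) + 4) ^ (2 * (2 * kk d + 1) + 4))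
        * ((2 * ((d ^ 2 : ℕ) : ℝ) + 2) * (d : ℝ) ^ 2) := by ring
    _ ≤ (15 / 16 : ℝ) ^ ((d : ℝ) / 2) * (2 * (d : ℝ) ^ 2) ^ (4 * kk d + 6) * (d : ℝ) ^ 22 := by
        apply mul_le_mul _ e2 (by positivity) (by positivity)
        exact mul_le_mul_of_nonneg_left e1 h0

lemma log_le : Real.log d ≤ Real.sqrt d := log_le_sqrt' (by linarith [hL.r1])

lemma two_log : 2 * Real.log d ≤ d := by
  have h1 := hL.r1
  have h2 := hL.log_le
  have h3 : Real.sqrt d * Real.sqrt d = d := Real.mul_self_sqrt (by linarith)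
  have h4 : (10 : ℝ) ≤ Real.sqrt d := by
    rw [Real.le_sqrt (by norm_num) (by linarith)]
    linarith
  nlinarith

lemma rpow_three_half : (d : ℝ) ^ (3 / 2 : ℝ) = d * Real.sqrt d := by
  have h1 := hL.r1
  rw [Real.sqrt_eq_rpow, ← Real.rpow_one_add' (by linarith) (by norm_num)]
  norm_num

lemma dlog : (d : ℝ) * Real.log d ≤ (kk d : ℝ) ^ 2 := by
  have h1 := hL.r1
  calc (d : ℝ) * Real.log d ≤ d * Real.sqrt d :=
        mul_le_mul_of_nonneg_left hL.log_le (by linarith)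
    _ = (d : ℝ) ^ (3 / 2 : ℝ) := hL.rpow_three_half.symm
    _ ≤ _ := hL.ksq

lemma two_pow : (d : ℝ) ^ 2 ≤ 2 ^ d := by
  have h : ∀ n : ℕ, 4 ≤ n → n ^ 2 ≤ 2 ^ n := by
    intro n hn
    induction n, hn using Nat.le_induction with
    | base => norm_num
    | succ n hn ih =>
      have e : 2 ^ (n + 1) = 2 * 2 ^ n := by ring
      rw [e]
      nlinarith
  exact_mod_cast h d (by have := hL.ge; omega)

lemma S_root : ((d : ℝ) ^ 2) ^ (1 / (d : ℝ)) ≤ 4 := by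
  have h1 := hL.r1
  have hd : (0 : ℝ) < d := by linarith
  have h2 : (d : ℝ) ^ 2 ≤ (4 : ℝ) ^ (d : ℝ) := by
    rw [Real.rpow_natCast]
    calc (d : ℝ) ^ 2 ≤ 2 ^ d := hL.two_pow
      _ ≤ 4 ^ d := pow_le_pow_left₀ (by norm_num) (by norm_num) d
  calc ((d : ℝ) ^ 2) ^ (1 / (d : ℝ)) ≤ ((4 : ℝ) ^ (d : ℝ)) ^ (1 / (d : ℝ)) :=
        Real.rpow_le_rpow (by positivity) h2 (by positivity)
    _ = 4 := by
        rw [← Real.rpow_mul (by norm_num), mul_one_div_cancel hd.ne', Real.rpow_one]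

lemma Δ_root : 1 ≤ ((d : ℝ) ^ 4) ^ (1 / (d : ℝ)) ∧
    ((d : ℝ) ^ 4) ^ (1 / (d : ℝ)) ≤ 1 + 8 * Real.sqrt d / d ∧
    ((d : ℝ) ^ 4) ^ (1 / (d : ℝ)) ≤ 2 := by
  have h1 := hL.r1
  have hd : (0 : ℝ) < d := by linarith
  have h4 : (10 : ℝ) ≤ Real.sqrt d := by
    rw [Real.le_sqrt (by norm_num) (by linarith)]
    linarith
  have h3 : Real.sqrt d * Real.sqrt d = d := Real.mul_self_sqrt (by linarith)
  have e : ((d : ℝ) ^ 4) ^ (1 / (d : ℝ)) = Real.exp (4 * Real.log d / d) := by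
    rw [Real.rpow_def_of_pos (by positivity), Real.log_pow]
    congr 1
    push_cast
    ring
  have hlog0 : 0 ≤ Real.log d := Real.log_nonneg (by linarith)
  have hb : 4 * Real.log d / d ≤ 4 * Real.sqrt d / d := by
    have := hL.log_le
    gcongr
  have hs : Real.sqrt d / d ≤ 1 / 10 := by
    rw [div_le_div_iff₀ hd (by norm_num)]
    nlinarith
  have hx0 : 0 ≤ 4 * Real.log d / d := by positivity
  have hx1 : 4 * Real.log d / d ≤ 4 / 10 := by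
    refine hb.trans ?_
    rw [mul_div_assoc]
    linarith
  have hexp := Real.abs_exp_sub_one_sub_id_le (x := 4 * Real.log d / d)
    (by rw [abs_of_nonneg hx0]; linarith)
  have hexp2 := (abs_le.1 hexp).2
  rw [e]
  refine ⟨Real.one_le_exp hx0, ?_, ?_⟩
  · have : (4 * Real.log d / d) ^ 2 ≤ 4 * Real.log d / d := by nlinarith
    have hb' : 8 * Real.sqrt d / d = 2 * (4 * Real.sqrt d / d) := by ring
    rw [hb']
    linarith
  · nlinarith

lemma chi_bd : 2 ≤ ⌈Real.sqrt d⌉₊ ∧ Real.sqrt d ≤ (⌈Real.sqrt d⌉₊ : ℝ) ∧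
    (⌈Real.sqrt d⌉₊ : ℝ) ≤ 2 * Real.sqrt d := by
  have h1 := hL.r1
  have h4 : (10 : ℝ) ≤ Real.sqrt d := by
    rw [Real.le_sqrt (by norm_num) (by linarith)]
    linarith
  have h5 := Nat.le_ceil (Real.sqrt d)
  have h6 := (Nat.ceil_lt_add_one (Real.sqrt_nonneg d)).le
  refine ⟨?_, h5, by linarith⟩
  have : (2 : ℝ) ≤ (⌈Real.sqrt d⌉₊ : ℝ) := by linarith
  exact_mod_cast this

end Large

lemma sqrt_le_vball : ∀ᶠ d : ℕ in atTop, Real.sqrt d ≤ 10 * vball d ^ (-(1 / (d : ℝ))) := by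
  obtain ⟨C, D, hCD⟩ := vball_asymp
  have hC : ∀ᶠ d : ℕ in atTop, 2 * |C| ≤ (d : ℝ) :=
    (tendsto_natCast_atTop_atTop (R := ℝ)).eventually_ge_atTop _
  filter_upwards [eventually_ge_atTop D, eventually_ge_atTop 2, hC] with d h1 h2 h3
  have hd : (2 : ℝ) ≤ d := by exact_mod_cast h2
  have h4 := hCD d h1
  have hpi := Real.pi_pos
  have hpi3 := Real.pi_lt_d2
  have hpi1 := Real.pi_gt_three
  have he := Real.exp_one_lt_d9
  have he0 := Real.exp_pos 1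
  have hp0 : 0 ≤ pref d := by unfold pref; positivity
  have h5 : Real.sqrt d / 5 ≤ pref d := by
    unfold pref
    have a1 : Real.sqrt d / 5 ≤ Real.sqrt ((d : ℝ) / (2 * Real.pi * Real.exp 1)) := by
      rw [Real.le_sqrt (by positivity) (by positivity), div_pow,
        Real.sq_sqrt (by linarith)]
      apply div_le_div_of_nonneg_left (by linarith) (by positivity)
      nlinarith
    have a2 : 1 ≤ (Real.pi * d) ^ (1 / (2 * (d : ℝ))) := by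
      apply Real.one_le_rpow _ (by positivity)
      nlinarith
    calc Real.sqrt d / 5 ≤ Real.sqrt ((d : ℝ) / (2 * Real.pi * Real.exp 1)) := a1
      _ = Real.sqrt ((d : ℝ) / (2 * Real.pi * Real.exp 1)) * 1 := (mul_one _).symm
      _ ≤ _ := mul_le_mul_of_nonneg_left a2 (Real.sqrt_nonneg _)
  have h6 : C * pref d / (d : ℝ) ^ 2 ≤ pref d / 2 := by
    rw [div_le_div_iff₀ (by positivity) (by norm_num)]
    have b1 : C ≤ |C| := le_abs_self C
    have b2 : C * 2 ≤ (d : ℝ) ^ 2 := by nlinarith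
    calc C * pref d * 2 = (C * 2) * pref d := by ring
      _ ≤ (d : ℝ) ^ 2 * pref d := mul_le_mul_of_nonneg_right b2 hp0
      _ = pref d * (d : ℝ) ^ 2 := by ring
  have h7 := (abs_le.1 h4).1
  linarith

end UF

end Pool.Agent.TSPd97
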